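import Pool.Agent.Lib.MP_fa46d7_gt.Defs

section

/-!
# MP_fa46d7_gt: faces with natural indices, Kan condition, factoring faces
-/

set_option autoImplicit false

open scoped Topology ENNReal NNReal ContDiff Manifold
open MeasureTheory

noncomputable section

namespace SimpVol

theorem ad_factor {q m : ℕ} (l : Fin (m + 1)) (θ : Fin q ↪o Fin (m + 1)) (h : ∀ a, θ a ≠ l) :
    ∃ η : Fin q ↪o Fin m, θ = η.trans (del l) := by
  have h1 : ∀ a, ∃ z, l.succAbove z = θ a := fun a => Fin.exists_succAbove_eq (h a)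
  choose η hη using h1
  have hmono : StrictMono η := by
    intro a b hab
    rw [← Fin.succAbove_lt_succAbove_iff (p := l), hη, hη]
    exact θ.strictMono hab
  exact ⟨OrderEmbedding.ofStrictMono η hmono, DFunLike.ext _ _ fun a => (hη a).symm⟩

theorem ad_del_del {m i j : ℕ} (h : i < j) (hj : j < m + 3) :
    (del (⟨i, by omega⟩ : Fin (m + 2))).trans (del (⟨j, hj⟩ : Fin (m + 3))) =
      (del (⟨j - 1, by omega⟩ : Fin (m + 2))).trans (del (⟨i, by omega⟩ : Fin (m + 3))) := by
  refine DFunLike.ext _ _ fun a => ?_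
  show Fin.succAbove (⟨j, hj⟩ : Fin (m + 3)) (Fin.succAbove (⟨i, by omega⟩ : Fin (m + 2)) a) =
    Fin.succAbove (⟨i, by omega⟩ : Fin (m + 3)) (Fin.succAbove (⟨j - 1, by omega⟩ : Fin (m + 2)) a)
  apply Fin.ext
  simp only [Fin.succAbove, Fin.lt_def, Fin.val_castSucc]
  split_ifs <;> simp only [Fin.val_castSucc, Fin.val_succ] at * <;> omega

theorem ad_del_inj {q m : ℕ} (l : Fin (m + 1)) (θ θ' : Fin q ↪o Fin m)
    (h : θ.trans (del l) = θ'.trans (del l)) : θ = θ' := by
  refine DFunLike.ext _ _ fun a => ?_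
  have h1 := congrArg (fun f : Fin q ↪o Fin (m + 1) => f a) h
  exact (del l).injective h1

theorem ad_dn_eq (X : DSet) {m : ℕ} {l : ℕ} (hl : l < m + 2) (x : X.obj (m + 1)) :
    X.dn l x = X.face (del ⟨l, hl⟩) x := by
  unfold DSet.dn
  rw [dif_pos hl]
  rfl

theorem dn_dn (X : DSet) {m : ℕ} {i j : ℕ} (h : i < j) (hj : j ≤ m + 2)
    (x : X.obj (m + 2)) : X.dn i (X.dn j x) = X.dn (j - 1) (X.dn i x) := by
  rw [ad_dn_eq X (by omega : i < m + 2), ad_dn_eq X (by omega : j < m + 1 + 2),
    ad_dn_eq X (by omega : j - 1 < m + 2), ad_dn_eq X (by omega : i < m + 1 + 2),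
    X.face_comp, X.face_comp, ad_del_del h (by omega)]

theorem ad_kan_aux (X : DSet) (m : ℕ) (x : ℕ → X.obj (m + 1)) {l l' : ℕ} (hll : l < l')
    (hl' : l' < m + 3) (h : X.dn l (x l') = X.dn (l' - 1) (x l)) {p : ℕ}
    (θ θ' : Fin (p + 1) ↪o Fin (m + 2))
    (hθ : θ.trans (del (⟨l, by omega⟩ : Fin (m + 3))) = θ'.trans (del (⟨l', hl'⟩ : Fin (m + 3)))) :
    X.face θ (x l) = X.face θ' (x l') := by
  have hmiss : ∀ a, θ a ≠ (⟨l' - 1, by omega⟩ : Fin (m + 2)) := by
    intro a ha
    have h1 := congrArg (fun f : Fin (p + 1) ↪o Fin (m + 3) => f a) hθ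
    have h2 : Fin.succAbove (⟨l, by omega⟩ : Fin (m + 3)) (θ a) =
        Fin.succAbove (⟨l', hl'⟩ : Fin (m + 3)) (θ' a) := h1
    rw [ha] at h2
    have h3 : Fin.succAbove (⟨l, by omega⟩ : Fin (m + 3)) (⟨l' - 1, by omega⟩ : Fin (m + 2)) =
        ⟨l', hl'⟩ := by
      apply Fin.ext
      simp only [Fin.succAbove, Fin.lt_def, Fin.val_castSucc]
      split_ifs <;> simp only [Fin.val_castSucc, Fin.val_succ] at * <;> omega
    rw [h3] at h2
    exact Fin.succAbove_ne _ _ h2.symm
  obtain ⟨η, rfl⟩ := ad_factor _ θ hmiss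
  have h4 : θ' = η.trans (del (⟨l, by omega⟩ : Fin (m + 2))) := by
    apply ad_del_inj (⟨l', hl'⟩ : Fin (m + 3))
    rw [← hθ]
    refine DFunLike.ext _ _ fun a => ?_
    have h5 := congrArg (fun f : Fin (m + 1) ↪o Fin (m + 3) => f (η a)) (ad_del_del hll hl')
    exact h5.symm
  rw [h4, ← X.face_comp, ← X.face_comp, ← ad_dn_eq X (by omega : l' - 1 < m + 2),
    ← ad_dn_eq X (by omega : l < m + 2), h]

theorem kan_dn (X : DSet) (hX : X.IsKan) (m i : ℕ) (hi : i ≤ m + 2) (x : ℕ → X.obj (m + 1))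
    (h : ∀ l l', l < l' → l' ≤ m + 2 → l ≠ i → l' ≠ i → X.dn l (x l') = X.dn (l' - 1) (x l)) :
    ∃ τ : X.obj (m + 2), ∀ l, l ≤ m + 2 → l ≠ i → X.dn l τ = x l := by
  obtain ⟨τ, hτ⟩ := hX (m + 1) ⟨i, by omega⟩ (fun l => x l.val) (by
    intro l l' hl hl' p θ θ' hθ
    have hli : (l : ℕ) ≠ i := fun he => hl (Fin.ext he)
    have hli' : (l' : ℕ) ≠ i := fun he => hl' (Fin.ext he)
    rcases lt_trichotomy (l : ℕ) (l' : ℕ) with hlt | heq | hgt
    · exact ad_kan_aux X m x hlt l'.2 (h l l' hlt (by omega) hli hli') θ θ' hθ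
    · have heq' : l = l' := Fin.ext heq
      subst heq'
      rw [ad_del_inj l θ θ' hθ]
    · exact (ad_kan_aux X m x hgt l.2 (h l' l hgt (by omega) hli' hli) θ' θ hθ.symm).symm)
  refine ⟨τ, fun l hl hli => ?_⟩
  rw [ad_dn_eq X (by omega : l < m + 1 + 2)]
  exact hτ ⟨l, by omega⟩ fun he => hli (congrArg Fin.val he)

theorem kan_zero (X : DSet) (hX : X.IsKan) (F : X.obj 0) (l : ℕ) (hl : l ≤ 1) :
    ∃ τ : X.obj 1, X.dn l τ = F := by
  obtain ⟨τ, hτ⟩ := hX 0 ⟨1 - l, by omega⟩ (fun _ => F) (by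
    intro l₁ l₂ h₁ h₂ p θ θ' hθ
    have e₁ : (l₁ : ℕ) ≠ 1 - l := fun he => h₁ (Fin.ext he)
    have e₂ : (l₂ : ℕ) ≠ 1 - l := fun he => h₂ (Fin.ext he)
    have he : l₁ = l₂ := Fin.ext (by omega)
    subst he
    rw [ad_del_inj l₁ θ θ' hθ])
  refine ⟨τ, ?_⟩
  rw [ad_dn_eq X (by omega : l < 0 + 2)]
  refine hτ ⟨l, by omega⟩ fun he => ?_
  have := congrArg Fin.val he
  simp only at this
  omega

/-- Every face of dimension `< m` of an `m`-simplex is a face of a codimension one face. -/
theorem face_factor {p m : ℕ} (hp : p < m + 1) (θ : Fin (p + 1) ↪o Fin (m + 2)) :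
    ∃ (l : Fin (m + 2)) (η : Fin (p + 1) ↪o Fin (m + 1)), θ = η.trans (del l) := by
  classical
  have h : ∃ l, ∀ a, θ a ≠ l := by
    by_contra hcon
    push Not at hcon
    have h1 := Fintype.card_le_of_surjective θ hcon
    rw [Fintype.card_fin, Fintype.card_fin] at h1
    omega
  obtain ⟨l, hl⟩ := h
  obtain ⟨η, hη⟩ := ad_factor l θ hl
  exact ⟨l, η, hη⟩

/-- If moreover two vertices are missed, one can avoid any given face. -/
theorem face_factor_ne {p m : ℕ} (hp : p < m) (θ : Fin (p + 1) ↪o Fin (m + 2))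
    (i : Fin (m + 2)) :
    ∃ (l : Fin (m + 2)) (η : Fin (p + 1) ↪o Fin (m + 1)), l ≠ i ∧ θ = η.trans (del l) := by
  classical
  have h1 : (insert i (Finset.univ.image θ)).card < (Finset.univ : Finset (Fin (m + 2))).card := by
    have h2 := Finset.card_insert_le i (Finset.univ.image θ)
    have h3 : (Finset.univ.image θ).card ≤ p + 1 := by
      refine Finset.card_image_le.trans ?_
      simp
    rw [Finset.card_univ, Fintype.card_fin]
    omega
  obtain ⟨l, -, hl⟩ := Finset.exists_mem_notMem_of_card_lt_card h1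
  rw [Finset.mem_insert, not_or] at hl
  obtain ⟨η, hη⟩ := ad_factor l θ fun a ha =>
    hl.2 (Finset.mem_image.2 ⟨a, Finset.mem_univ a, ha⟩)
  exact ⟨l, η, hl.1, hη⟩

end SimpVol
end
end

section

/-!
# MP_fa46d7_gt, SV-19: cochains of a simplex
-/

set_option autoImplicit false

open scoped Topology ENNReal NNReal ContDiff Manifold
open MeasureTheory

noncomputable section

namespace SimpVol

/-- The cancellation behind `d ∘ d = 0`. -/
theorem asc_cancel {A : Type*} [AddCommGroup A] {n : ℕ} (F : Fin (n + 2) → Fin (n + 1) → A)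
    (h : ∀ i j : Fin (n + 1), i ≤ j → F j.succ i = F i.castSucc j) :
    ∑ i : Fin (n + 2), (-1 : ℤ) ^ (i : ℕ) • ∑ j : Fin (n + 1), (-1 : ℤ) ^ (j : ℕ) • F i j
      = 0 := by
  classical
  simp_rw [Finset.smul_sum, smul_smul, ← pow_add]
  rw [← Finset.sum_product']
  have key : ∀ i j : Fin (n + 1), i ≤ j →
      (-1 : ℤ) ^ ((j.succ : ℕ) + (i : ℕ)) • F j.succ i
        + (-1 : ℤ) ^ ((i.castSucc : ℕ) + (j : ℕ)) • F i.castSucc j = 0 := by
    intro i j hij
    rw [h i j hij, Fin.val_succ, Fin.val_castSucc, ← add_smul]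
    have : (-1 : ℤ) ^ ((j : ℕ) + 1 + (i : ℕ)) = - (-1 : ℤ) ^ ((i : ℕ) + (j : ℕ)) := by
      rw [show (j : ℕ) + 1 + (i : ℕ) = (i : ℕ) + (j : ℕ) + 1 by ring, pow_succ]
      ring
    rw [this, neg_add_cancel, zero_smul]
  refine Finset.sum_involution (fun p _ =>
    if hp : p.2.castSucc < p.1 then (p.2.castSucc, p.1.pred (Fin.ne_zero_of_lt hp))
    else (p.2.succ, p.1.castPred (fun hl => by
      rw [hl] at hp
      exact hp (Fin.castSucc_lt_last _)))) ?_ ?_ (fun _ _ => by simp) ?_
  · rintro ⟨i, j⟩ -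
    dsimp only
    split_ifs with hp
    · obtain ⟨i', rfl⟩ : ∃ i' : Fin (n + 1), i = i'.succ :=
        ⟨i.pred (Fin.ne_zero_of_lt hp), (Fin.succ_pred _ _).symm⟩
      rw [Fin.castSucc_lt_succ_iff] at hp
      have := key j i' hp
      simpa using this
    · have hl : i ≠ Fin.last (n + 1) := fun hl => by
        rw [hl] at hp
        exact hp (Fin.castSucc_lt_last _)
      obtain ⟨i', rfl⟩ : ∃ i' : Fin (n + 1), i = i'.castSucc :=
        ⟨i.castPred hl, (Fin.castSucc_castPred _ _).symm⟩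
      rw [Fin.castSucc_lt_castSucc_iff, not_lt] at hp
      have := key i' j hp
      rw [add_comm] at this
      simpa using this
  · rintro ⟨i, j⟩ - -
    dsimp only
    split_ifs with hp
    · intro he
      rw [Prod.mk.injEq] at he
      rw [he.1] at hp
      exact lt_irrefl _ hp
    · intro he
      rw [Prod.mk.injEq] at he
      rw [← he.1] at hp
      exact hp (Fin.castSucc_lt_succ_iff.2 le_rfl)
  · rintro ⟨i, j⟩ -
    dsimp only
    by_cases hp : j.castSucc < i
    · obtain ⟨i', rfl⟩ : ∃ i' : Fin (n + 1), i = i'.succ :=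
        ⟨i.pred (Fin.ne_zero_of_lt hp), (Fin.succ_pred _ _).symm⟩
      have hp' := Fin.castSucc_lt_succ_iff.1 hp
      have hn : ¬ i'.castSucc < j.castSucc := by
        rw [Fin.castSucc_lt_castSucc_iff]; exact not_lt.2 hp'
      simp [hp', hn]
    · have hl : i ≠ Fin.last (n + 1) := fun hl => by
        rw [hl] at hp
        exact hp (Fin.castSucc_lt_last _)
      obtain ⟨i', rfl⟩ : ∃ i' : Fin (n + 1), i = i'.castSucc :=
        ⟨i.castPred hl, (Fin.castSucc_castPred _ _).symm⟩
      have hp' : ¬ j < i' := by rwa [Fin.castSucc_lt_castSucc_iff] at hp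
      have hp'' : i'.castSucc < j.succ := Fin.castSucc_lt_succ_iff.2 (not_lt.1 hp')
      simp [hp', hp'']

/-- The simplicial identity for the face embeddings. -/
theorem asc_del_del {n : ℕ} (i j : Fin (n + 1)) (hij : i ≤ j) :
    (del i).trans (del j.succ) = (del j).trans (del i.castSucc) := by
  ext l
  simp only [RelEmbedding.coe_trans, Function.comp_apply, Fin.succAboveOrderEmb_apply]
  have hij' : (i : ℕ) ≤ j := hij
  simp only [Fin.succAbove, Fin.lt_def, Fin.val_castSucc, Fin.val_succ]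
  split_ifs <;> simp only [Fin.val_castSucc, Fin.val_succ] at * <;> omega

/-- cochains of a simplex: `δδ = 0` -/
theorem scd_scd {π : Type} [AddCommGroup π] {j m : ℕ} (a : SC π j m) : scd (scd a) = 0 := by
  funext θ
  show ∑ i : Fin (j + 3), (-1 : ℤ) ^ (i : ℕ) • ∑ i' : Fin (j + 2), (-1 : ℤ) ^ (i' : ℕ) •
    a ((del i').trans ((del i).trans θ)) = 0
  refine asc_cancel (fun i i' => a ((del i').trans ((del i).trans θ))) ?_
  intro i i' hii
  show a ((del i).trans ((del i'.succ).trans θ)) = a ((del i').trans ((del i.castSucc).trans θ))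
  congr 1
  have h := asc_del_del i i' hii
  ext l
  have := congrArg (fun e => e l) h
  simp only [RelEmbedding.coe_trans, Function.comp_apply] at this ⊢
  rw [this]

/-- The embedding with a new first vertex `0`. -/
def asc_cons {j m : ℕ} (θ : Fin (j + 1) ↪o Fin (m + 1)) (h : θ 0 ≠ 0) :
    Fin (j + 2) ↪o Fin (m + 1) :=
  OrderEmbedding.ofStrictMono (Fin.cons 0 θ) (by
    rw [Fin.strictMono_iff_lt_succ]
    intro i
    refine Fin.cases ?_ (fun i' => ?_) i
    · simpa using Fin.pos_of_ne_zero h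
    · rw [← Fin.succ_castSucc, Fin.cons_succ, Fin.cons_succ]
      exact θ.strictMono (Fin.castSucc_lt_succ))

/-- cochains of a simplex are exact -/
theorem sc_exact {π : Type} [AddCommGroup π] {j m : ℕ} (a : SC π (j + 1) m) (h : scd a = 0) :
    ∃ b : SC π j m, scd b = a := by
  classical
  refine ⟨fun θ => if hθ : θ 0 ≠ 0 then a (asc_cons θ hθ) else 0, ?_⟩
  funext θ
  by_cases h0 : θ 0 = 0
  · show ∑ i : Fin (j + 2), (-1 : ℤ) ^ (i : ℕ) • (if hθ : ((del i).trans θ) 0 ≠ 0 then
      a (asc_cons ((del i).trans θ) hθ) else 0) = a θ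
    rw [Fin.sum_univ_succ]
    have h1 : ((del (0 : Fin (j + 2))).trans θ) 0 ≠ 0 := by
      have : θ 0 < θ (Fin.succ 0) := θ.strictMono (Fin.succ_pos 0)
      rw [h0] at this
      simpa using this.ne'
    rw [dif_pos h1]
    have h2 : asc_cons ((del (0 : Fin (j + 2))).trans θ) h1 = θ := by
      ext l
      refine Fin.cases ?_ (fun l' => ?_) l
      · simp [asc_cons, h0]
      · simp [asc_cons]
    rw [h2]
    simp only [Fin.val_zero, pow_zero, one_smul]
    rw [Finset.sum_eq_zero, add_zero]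
    intro i _
    rw [dif_neg, smul_zero]
    simp [h0]
  · have hc := congrFun h (asc_cons θ h0)
    change ∑ i : Fin (j + 3), (-1 : ℤ) ^ (i : ℕ) • a ((del i).trans (asc_cons θ h0)) = 0 at hc
    rw [Fin.sum_univ_succ] at hc
    have h1 : (del (0 : Fin (j + 3))).trans (asc_cons θ h0) = θ := by
      ext l
      simp [asc_cons]
    rw [h1] at hc
    simp only [Fin.val_zero, pow_zero, one_smul] at hc
    show ∑ i : Fin (j + 2), (-1 : ℤ) ^ (i : ℕ) • (if hθ : ((del i).trans θ) 0 ≠ 0 then
      a (asc_cons ((del i).trans θ) hθ) else 0) = a θ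
    rw [add_eq_zero_iff_eq_neg, ← Finset.sum_neg_distrib] at hc
    rw [hc]
    refine Finset.sum_congr rfl fun i _ => ?_
    have h2 : ((del i).trans θ) 0 ≠ 0 := by
      have h3 : θ 0 ≤ θ (i.succAbove 0) := θ.monotone (Fin.zero_le _)
      have h4 : 0 < θ 0 := Fin.pos_of_ne_zero h0
      exact (lt_of_lt_of_le h4 h3).ne'
    rw [dif_pos h2]
    have h5 : (del i.succ).trans (asc_cons θ h0) = asc_cons ((del i).trans θ) h2 := by
      ext l
      refine Fin.cases ?_ (fun l' => ?_) l
      · simp [asc_cons]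
      · simp [asc_cons]
    rw [h5, Fin.val_succ, pow_succ]
    simp

theorem u_cocycle {X : DSet} {k : ℕ} (P : PiData X k) {m : ℕ} (x : X.obj m) :
    scd (P.u x) = 0 := by
  funext θ
  have h := (P.rel (fun i => X.d i (X.face θ x))).1 ⟨X.face θ x, fun i => rfl⟩
  show ∑ i : Fin (k + 2), (-1 : ℤ) ^ (i : ℕ) • P.q (X.face ((del i).trans θ) x) = 0
  rw [← h]
  refine Finset.sum_congr rfl fun i _ => ?_
  rw [DSet.d, X.face_comp]

end SimpVol
end
end

section

/-!
# MP_fa46d7_gt: calculus of transports (Part B)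
-/

set_option autoImplicit false

open scoped Topology ENNReal NNReal ContDiff Manifold
open MeasureTheory

noncomputable section

namespace SimpVol

private theorem bt_tr_tr {M : Type} [TopologicalSpace M] {x y z : M} (g : Hm x y) (g' : Hm y z)
    {m : ℕ} (L : (liftSet z).obj m) : tr g (tr g' L) = tr (g.trans g') L := by
  apply Subtype.ext
  funext p
  show (⟨(L.1 p).1, g.trans (g'.trans (L.1 p).2)⟩ : Cov x) =
    ⟨(L.1 p).1, (g.trans g').trans (L.1 p).2⟩
  rw [Path.Homotopic.Quotient.trans_assoc]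

private theorem bt_tr_refl {M : Type} [TopologicalSpace M] {x : M} {m : ℕ}
    (L : (liftSet x).obj m) : tr (Path.Homotopic.Quotient.refl x) L = L := by
  apply Subtype.ext
  funext p
  show (⟨(L.1 p).1, (Path.Homotopic.Quotient.refl x).trans (L.1 p).2⟩ : Cov x) = L.1 p
  rw [Path.Homotopic.Quotient.refl_trans]
  rfl

private theorem bt_tr_symm {M : Type} [TopologicalSpace M] {x y : M} (g : Hm x y) {m : ℕ}
    (L : (liftSet x).obj m) : tr g (tr g.symm L) = L := by
  rw [bt_tr_tr, Path.Homotopic.Quotient.trans_symm, bt_tr_refl]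

private theorem bt_tr_d {M : Type} [TopologicalSpace M] {x y : M} (g : Hm x y) {m : ℕ}
    (i : Fin (m + 2)) (L : (liftSet y).obj (m + 1)) :
    (liftSet x).d i (tr g L) = tr g ((liftSet y).d i L) := rfl

private theorem bt_cob_apply (X : DSet) (m : ℕ) (f : Bd (X.obj m)) (x : X.obj (m + 1)) :
    (X.cob m f).1 x = ∑ i : Fin (m + 2), (-1 : ℝ) ^ (i : ℕ) * f.1 (X.d i x) := by
  unfold DSet.cob
  rw [LinearMap.sum_apply, Submodule.coe_sum, Finset.sum_apply]
  rfl

private theorem bt_symm_trans {M : Type} [TopologicalSpace M] {a b x : M} (β : Hm a b)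
    (g : Hm b x) : (β.trans g).symm.trans β = g.symm := by
  have h1 : (β.trans g).trans (g.symm.trans β.symm) = Path.Homotopic.Quotient.refl a := by
    rw [Path.Homotopic.Quotient.trans_assoc, ← Path.Homotopic.Quotient.trans_assoc g,
      Path.Homotopic.Quotient.trans_symm, Path.Homotopic.Quotient.refl_trans,
      Path.Homotopic.Quotient.trans_symm]
  have h2 : (β.trans g).symm = g.symm.trans β.symm := by
    calc (β.trans g).symm = (β.trans g).symm.trans (Path.Homotopic.Quotient.refl a) := by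
          rw [Path.Homotopic.Quotient.trans_refl]
      _ = (β.trans g).symm.trans ((β.trans g).trans (g.symm.trans β.symm)) := by rw [h1]
      _ = g.symm.trans β.symm := by
          rw [← Path.Homotopic.Quotient.trans_assoc, Path.Homotopic.Quotient.symm_trans,
            Path.Homotopic.Quotient.refl_trans]
  rw [h2, Path.Homotopic.Quotient.trans_assoc, Path.Homotopic.Quotient.symm_trans,
    Path.Homotopic.Quotient.trans_refl]

/-- calculus of transports -/
theorem pull_tr_tr {M : Type} [TopologicalSpace M] {x y z : M} (g : Hm x y) (g' : Hm y z)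
    {m : ℕ} (f : Bd ((liftSet x).obj m)) :
    pull (tr g') (pull (tr g) f) = pull (tr (g.trans g')) f := by
  apply Subtype.ext
  funext L
  show f.1 (tr g (tr g' L)) = f.1 (tr (g.trans g') L)
  rw [bt_tr_tr]

theorem pull_tr_refl {M : Type} [TopologicalSpace M] {x : M} {m : ℕ}
    (f : Bd ((liftSet x).obj m)) :
    pull (tr (Path.Homotopic.Quotient.refl x)) f = f := by
  apply Subtype.ext
  funext L
  show f.1 (tr (Path.Homotopic.Quotient.refl x) L) = f.1 L
  rw [bt_tr_refl]

theorem pull_tr_cob {M : Type} [TopologicalSpace M] {x y : M} (g : Hm x y) {m : ℕ}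
    (f : Bd ((liftSet x).obj m)) :
    pull (tr g) ((liftSet x).cob m f) = (liftSet y).cob m (pull (tr g) f) := by
  apply Subtype.ext
  funext L
  show ((liftSet x).cob m f).1 (tr g L) = ((liftSet y).cob m (pull (tr g) f)).1 L
  rw [bt_cob_apply, bt_cob_apply]
  rfl

theorem pull_tr_ofSing {M : Type} [TopologicalSpace M] {x y : M} (g : Hm x y) {m : ℕ}
    (c : Bd (Sing M m)) : pull (tr g) (ofSing c x) = ofSing c y := by
  apply Subtype.ext
  funext L
  rfl

/-- faces of the canonical lift -/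
theorem face_canLift {M : Type} [TopologicalSpace M] {m : ℕ} (i : Fin (m + 2))
    (τ : Sing M (m + 1)) :
    (liftSet (τ (vtx 0))).d i (canLift τ) = tr (fcls i τ) (canLift (sface i τ)) := by
  apply Subtype.ext
  funext p
  have h1 : ((PathConnectedSpace.somePath (vtx 0) p).map (sface i τ).continuous :
      Path (τ (smap (Fin.succAbove i) (vtx 0))) (τ (smap (Fin.succAbove i) p))) =
      ((PathConnectedSpace.somePath (vtx 0) p).map (smap (Fin.succAbove i)).continuous).map
        τ.continuous := by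
    ext t
    rfl
  have h2 : Path.Homotopic.Quotient.mk
      ((PathConnectedSpace.somePath (vtx 0) (smap (Fin.succAbove i) p)).map τ.continuous) =
      (Path.Homotopic.Quotient.mk
    ((PathConnectedSpace.somePath (vtx 0) (smap (Fin.succAbove i) (vtx 0))).map
      τ.continuous)).trans (Path.Homotopic.Quotient.mk
        (((PathConnectedSpace.somePath (vtx 0) p).map (smap (Fin.succAbove i)).continuous).map
        τ.continuous)) := by
    rw [← Path.Homotopic.Quotient.mk_trans, ← Path.map_trans]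
    exact Quotient.sound (Path.Homotopic.map (SimplyConnectedSpace.paths_homotopic _ _) τ)
  show (⟨τ (smap (Fin.succAbove i) p), Path.Homotopic.Quotient.mk
      ((PathConnectedSpace.somePath (vtx 0) (smap (Fin.succAbove i) p)).map τ.continuous)⟩ :
      Cov (τ (vtx 0))) = ⟨τ (smap (Fin.succAbove i) p), (fcls i τ).trans
        (Path.Homotopic.Quotient.mk
          ((PathConnectedSpace.somePath (vtx 0) p).map (sface i τ).continuous))⟩
  rw [h2, h1]
  rfl

/-- The evaluation system. -/
theorem evSys_exists {M : Type} [TopologicalSpace M] (N : ℕ) (Fine : ∀ m, Sing M m → Prop) :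
    ∃ E : FSys M N Fine, ∀ m (τ : Sing M m), E.F m τ = evB (canLift τ) := by
  refine ⟨⟨fun m τ => evB (canLift τ), fun τ _ => rfl, ?_⟩, fun m τ => rfl⟩
  intro m _ τ _ f
  show ((liftSet (τ (vtx 0))).cob m f).1 (canLift τ) = _
  rw [bt_cob_apply]
  refine Finset.sum_congr rfl fun i _ => ?_
  rw [face_canLift]
  rfl

/-- the operators `kop` -/
theorem kop_zero {M : Type} [TopologicalSpace M] {N : ℕ} {C : ℝ}
    (K : ∀ x : M, Contr (liftSet x) N C) {a x : M} (g : Hm a x) (f : Bd ((liftSet a).obj 0))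
    (L : (liftSet a).obj 0) :
    (kop K g 0 ((liftSet a).cob 0 f)).1 L = f.1 L - f.1 (tr g ((liftSet x).base 0)) := by
  show ((K x).k 0 (pull (tr g) ((liftSet a).cob 0 f))).1 (tr g.symm L) = _
  rw [pull_tr_cob, (K x).h0]
  show f.1 (tr g (tr g.symm L)) - f.1 (tr g ((liftSet x).base 0)) = _
  rw [bt_tr_symm]

theorem kop_succ {M : Type} [TopologicalSpace M] {N : ℕ} {C : ℝ}
    (K : ∀ x : M, Contr (liftSet x) N C) {a x : M} (g : Hm a x) (m : ℕ) (hm : m + 1 ≤ N)
    (f : Bd ((liftSet a).obj (m + 1))) :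
    (liftSet a).cob m (kop K g m f) + kop K g (m + 1) ((liftSet a).cob (m + 1) f) = f := by
  have h1 : (liftSet a).cob m (kop K g m f) =
      pull (tr g.symm) ((liftSet x).cob m ((K x).k m (pull (tr g) f))) :=
    (pull_tr_cob g.symm _).symm
  have h2 : kop K g (m + 1) ((liftSet a).cob (m + 1) f) =
      pull (tr g.symm) ((K x).k (m + 1) ((liftSet x).cob (m + 1) (pull (tr g) f))) := by
    rw [← pull_tr_cob]
    rfl
  rw [h1, h2, ← map_add, (K x).h1 m hm, pull_tr_tr, Path.Homotopic.Quotient.trans_symm,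
    pull_tr_refl]

theorem kop_norm {M : Type} [TopologicalSpace M] {N : ℕ} {C : ℝ}
    (K : ∀ x : M, Contr (liftSet x) N C) {a x : M} (g : Hm a x) (m : ℕ) (hm : m ≤ N)
    (f : Bd ((liftSet a).obj (m + 1))) (B : ℝ) (hB : ∀ L, |f.1 L| ≤ B) (L) :
    |(kop K g m f).1 L| ≤ C * B :=
  (K x).norm m hm (pull (tr g) f) B (fun _ => hB _) (tr g.symm L)

theorem kop_base {M : Type} [TopologicalSpace M] {N : ℕ} {C : ℝ}
    (K : ∀ x : M, Contr (liftSet x) N C) {a b x : M} (β : Hm a b) (g : Hm b x) (m : ℕ)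
    (f : Bd ((liftSet a).obj (m + 1))) :
    pull (tr β) (kop K (β.trans g) m f) = kop K g m (pull (tr β) f) := by
  show pull (tr β) (pull (tr (β.trans g).symm) ((K x).k m (pull (tr (β.trans g)) f))) =
    pull (tr g.symm) ((K x).k m (pull (tr g) (pull (tr β) f)))
  rw [pull_tr_tr, pull_tr_tr, bt_symm_trans]

end SimpVol
end
end

section

/-!
# MP_fa46d7_gt: the competitor lemma (H1)
-/

set_option autoImplicit false

open scoped Topology ENNReal NNReal ContDiff Manifold
open MeasureTheory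

noncomputable section

namespace SimpVol

section Heart

variable {I : Type} [LinearOrder I] [Fintype I] {X : Type} [PseudoMetricSpace X] [Nonempty X]

/-- the competing labelling: the centre of the carving if there is one, the old label otherwise -/
def hc_lab (pt : I → X) (c : X → Option X) (l : Finset I → X) (S : Finset I) : X :=
  (c (pos pt S)).getD (l S)

omit [Fintype I] in
theorem hc_isLab {pt : I → X} {ρ : ℝ} {c : X → Option X} (hc : IsCarv ρ c)
    {l : Finset I → X} (hl : IsLab pt ρ l) : IsLab pt ρ (hc_lab pt c l) := by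
  intro S hS
  unfold hc_lab
  cases h : c (pos pt S) with
  | none => exact hl S hS
  | some y => exact hc _ _ h

omit [Fintype I] [PseudoMetricSpace X] in
theorem hc_claim {pt : I → X} {c : X → Option X} {l : Finset I → X} {j : ℕ}
    {A : Set (Finset I)} {S' : Finset I} (h : S' ∈ nextSet j A (hc_lab pt c l))
    (hm : ¬ Mixed pt A c S') : S' ∈ nextSet j A l ∧ ¬ Good pt A c S' := by
  obtain ⟨hcard, a, ha, b, hb, haA, hbA, hne⟩ := h
  constructor
  · refine ⟨hcard, a, ha, b, hb, haA, hbA, ?_⟩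
    have h1 : c (pos pt (S'.erase a)) = c (pos pt (S'.erase b)) := by
      by_contra h2
      exact hm ⟨a, ha, b, hb, haA, hbA, h2⟩
    unfold hc_lab at hne
    rw [h1] at hne
    cases h3 : c (pos pt (S'.erase b)) with
    | none =>
      rw [h3] at hne
      exact hne
    | some y =>
      rw [h3] at hne
      exact absurd rfl hne
  · rintro ⟨-, y, hy⟩
    apply hne
    unfold hc_lab
    rw [hy a ha haA, hy b hb hbA]
    rfl

/-- (H1) -/
theorem competitor {pt : I → X} {w : Finset I → ℕ} {ρ : ℝ} (T : Tower pt w ρ) (j : ℕ)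
    {c : X → Option X} (hc : IsCarv ρ c) :
    wsum w (T.A (j + 1)) (Good pt (T.A j) c) ≤
      wsum w {S' | S'.card = j + 2} (Mixed pt (T.A j) c) := by
  classical
  have hmin := T.min j (hc_lab pt c (T.l j)) (hc_isLab hc (T.lab j))
  have e1 : ∀ l : Finset I → X, cost w j (T.A j) l =
      ∑ S ∈ Finset.univ.filter (fun S => S ∈ nextSet j (T.A j) l), mass w S := by
    intro l
    unfold cost
    congr!
  have e2 : ∀ (A : Set (Finset I)) (p : Finset I → Prop), wsum w A p =
      ∑ S ∈ Finset.univ.filter (fun S => S ∈ A ∧ p S), mass w S := by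
    intro A p
    unfold wsum
    congr!
  obtain ⟨C, hC⟩ : ∃ C : Set (Finset I), C = {S' | S'.card = j + 2} := ⟨_, rfl⟩
  rw [T.succ j, ← hC, e2, e2]
  rw [e1, e1] at hmin
  have h1 : ∑ S ∈ Finset.univ.filter (fun S => S ∈ nextSet j (T.A j) (T.l j)), mass w S =
      ∑ S ∈ Finset.univ.filter (fun S => S ∈ nextSet j (T.A j) (T.l j) ∧ Good pt (T.A j) c S),
        mass w S +
      ∑ S ∈ Finset.univ.filter (fun S => S ∈ nextSet j (T.A j) (T.l j) ∧ ¬ Good pt (T.A j) c S),
        mass w S := by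
    rw [← Finset.sum_filter_add_sum_filter_not _ (fun S => Good pt (T.A j) c S),
      Finset.filter_filter, Finset.filter_filter]
  have h2 : ∑ S ∈ Finset.univ.filter
        (fun S => S ∈ nextSet j (T.A j) (hc_lab pt c (T.l j))), mass w S ≤
      ∑ S ∈ Finset.univ.filter (fun S => S ∈ nextSet j (T.A j) (T.l j) ∧ ¬ Good pt (T.A j) c S),
        mass w S +
      ∑ S ∈ Finset.univ.filter
        (fun S => S ∈ C ∧ Mixed pt (T.A j) c S), mass w S := by
    calc ∑ S ∈ Finset.univ.filter
          (fun S => S ∈ nextSet j (T.A j) (hc_lab pt c (T.l j))), mass w S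
        ≤ ∑ S ∈ Finset.univ.filter
            (fun S => S ∈ nextSet j (T.A j) (T.l j) ∧ ¬ Good pt (T.A j) c S) ∪
          Finset.univ.filter
            (fun S => S ∈ C ∧ Mixed pt (T.A j) c S),
          mass w S := by
          apply Finset.sum_le_sum_of_subset
          intro S hS
          rw [Finset.mem_filter] at hS
          rw [Finset.mem_union, Finset.mem_filter, Finset.mem_filter]
          by_cases hm : Mixed pt (T.A j) c S
          · exact Or.inr ⟨Finset.mem_univ _, by rw [hC]; exact hS.2.1, hm⟩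
          · exact Or.inl ⟨Finset.mem_univ _, hc_claim hS.2 hm⟩
      _ ≤ _ := by
          rw [← Finset.sum_union_inter]
          exact Nat.le_add_right _ _
  omega

end Heart

end SimpVol
end
end

section

/-!
# MP_fa46d7_gt: masses, positions, existence of towers (SV-01)
-/

set_option autoImplicit false

open scoped Topology ENNReal NNReal ContDiff Manifold
open MeasureTheory

noncomputable section

namespace SimpVol

/-! ## Part H -/

section Heart

variable {I : Type} [LinearOrder I] [Fintype I] {X : Type} [PseudoMetricSpace X] [Nonempty X]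

theorem mass_top {pt : I → X} {w : Finset I → ℕ} {n : ℕ} {ε : ℝ} (hw : IsWeight pt w n ε)
    {U : Finset I} (hU : U.card = n + 1) : mass w U = w U := by
  unfold mass
  rw [Finset.sum_eq_single_of_mem U (by simp)]
  intro V hV hVU
  by_contra h0
  have h1 := (hw V h0).1
  have h2 : U ⊆ V := by simpa using hV
  exact hVU (Finset.eq_of_subset_of_card_le h2 (by omega)).symm

theorem mass_diam {pt : I → X} {w : Finset I → ℕ} {n : ℕ} {ε : ℝ} (hw : IsWeight pt w n ε)
    {S : Finset I} (hS : mass w S ≠ 0) :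
    S.card ≤ n + 1 ∧ ∀ a ∈ S, ∀ b ∈ S, dist (pt a) (pt b) ≤ ε := by
  unfold mass at hS
  obtain ⟨V, hV, h0⟩ := Finset.exists_ne_zero_of_sum_ne_zero hS
  obtain ⟨h1, h2⟩ := hw V h0
  have h3 : S ⊆ V := by simpa using hV
  refine ⟨?_, fun a ha b hb => h2 a (h3 ha) b (h3 hb)⟩
  rw [← h1]
  exact Finset.card_le_card h3

theorem sum_mass_succ {pt : I → X} {w : Finset I → ℕ} {n j : ℕ} {ε : ℝ}
    (hw : IsWeight pt w n ε) {S : Finset I} (hS : S.card = j + 1) (hj : j + 1 ≤ n) :
    ∑ S' ∈ Finset.univ.filter (fun S' : Finset I => S ⊆ S' ∧ S'.card = j + 2), mass w S' =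
      (n - j) * mass w S := by
  classical
  have key : ∀ U : Finset I,
      (∑ S' ∈ Finset.univ.filter (fun S' : Finset I => S ⊆ S' ∧ S'.card = j + 2),
        if S' ⊆ U then w U else 0) = if S ⊆ U then (n - j) * w U else 0 := by
    intro U
    rw [← Finset.sum_filter, Finset.sum_const, smul_eq_mul]
    rcases eq_or_ne (w U) 0 with h0 | h0
    · rw [h0]
      simp
    have hU := (hw U h0).1
    by_cases hSU : S ⊆ U
    · rw [if_pos hSU]
      congr 1
      have h1 : (Finset.univ.filter (fun S' : Finset I => S ⊆ S' ∧ S'.card = j + 2)).filter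
          (fun S' => S' ⊆ U) = (U \ S).image (fun a => insert a S) := by
        ext T
        simp only [Finset.mem_filter, Finset.mem_univ, true_and, Finset.mem_image,
          Finset.mem_sdiff]
        constructor
        · rintro ⟨⟨h1, h2⟩, h3⟩
          have h4 : (T \ S).card = 1 := by
            rw [Finset.card_sdiff_of_subset h1]
            omega
          obtain ⟨a, ha⟩ := Finset.card_eq_one.1 h4
          have haT : a ∈ T \ S := by rw [ha]; exact Finset.mem_singleton_self a
          rw [Finset.mem_sdiff] at haT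
          refine ⟨a, ⟨h3 haT.1, haT.2⟩, ?_⟩
          apply Finset.eq_of_subset_of_card_le
          · exact Finset.insert_subset haT.1 h1
          · rw [Finset.card_insert_of_notMem haT.2]
            omega
        · rintro ⟨a, ⟨haU, haS⟩, rfl⟩
          refine ⟨⟨Finset.subset_insert _ _, ?_⟩, Finset.insert_subset haU hSU⟩
          rw [Finset.card_insert_of_notMem haS]
          omega
      rw [h1, Finset.card_image_of_injOn, Finset.card_sdiff_of_subset hSU]
      · omega
      · intro a ha b hb hab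
        rw [Finset.mem_coe, Finset.mem_sdiff] at ha hb
        have h2 : a ∈ insert b S := by
          have : a ∈ insert a S := Finset.mem_insert_self a S
          simp only at hab
          rwa [hab] at this
        rcases Finset.mem_insert.1 h2 with h3 | h3
        · exact h3
        · exact absurd h3 ha.2
    · rw [if_neg hSU]
      have h1 : (Finset.univ.filter (fun S' : Finset I => S ⊆ S' ∧ S'.card = j + 2)).filter
          (fun S' => S' ⊆ U) = ∅ := by
        rw [Finset.filter_eq_empty_iff]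
        intro T hT hTU
        simp only [Finset.mem_filter, Finset.mem_univ, true_and] at hT
        exact hSU (hT.1.trans hTU)
      rw [h1]
      simp
  have hmass : ∀ T : Finset I, mass w T = ∑ U : Finset I, if T ⊆ U then w U else 0 := by
    intro T
    unfold mass
    rw [Finset.sum_filter]
  simp only [hmass]
  rw [Finset.sum_comm, Finset.mul_sum]
  refine Finset.sum_congr rfl fun U _ => ?_
  rw [key U]
  split_ifs <;> simp

private theorem hm_pos_erase (pt : I → X) {S : Finset I} (hS : S.Nonempty) {a : I}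
    (ha : a ≠ S.min' hS) : pos pt (S.erase a) = pos pt S := by
  have hmem : S.min' hS ∈ S.erase a := Finset.mem_erase.2 ⟨ha.symm, S.min'_mem hS⟩
  have hne : (S.erase a).Nonempty := ⟨_, hmem⟩
  unfold pos
  rw [dif_pos hne, dif_pos hS]
  congr 1
  apply le_antisymm
  · exact Finset.min'_le _ _ hmem
  · refine Finset.le_min' _ _ _ fun y hy => ?_
    exact Finset.min'_le _ _ (Finset.mem_of_mem_erase hy)

theorem pos_erase (pt : I → X) {S : Finset I} {a b : I} (ha : a ∈ S) (hb : b ∈ S)
    (hab : a ≠ b) : pos pt (S.erase a) = pos pt S ∨ pos pt (S.erase b) = pos pt S := by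
  have hS : S.Nonempty := ⟨a, ha⟩
  by_cases h : a = S.min' hS
  · right
    apply hm_pos_erase pt hS
    intro h2
    exact hab (h.trans h2.symm)
  · left
    exact hm_pos_erase pt hS h

theorem pos_mem (pt : I → X) {S : Finset I} (hS : S.Nonempty) : ∃ a ∈ S, pos pt S = pt a := by
  refine ⟨S.min' hS, S.min'_mem hS, ?_⟩
  unfold pos
  rw [dif_pos hS]

theorem tower_exists (pt : I → X) (w : Finset I → ℕ) {ρ : ℝ} (hρ : 0 ≤ ρ) :
    Nonempty (Tower pt w ρ) := by
  classical
  have hex : ∀ (j : ℕ) (A : Set (Finset I)), ∃ l : Finset I → X, IsLab pt ρ l ∧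
      ∀ l' : Finset I → X, IsLab pt ρ l' → cost w j A l ≤ cost w j A l' := by
    intro j A
    have hne : ∃ c : ℕ, ∃ l : Finset I → X, IsLab pt ρ l ∧ cost w j A l = c :=
      ⟨_, pos pt, fun S _ => by rw [dist_self]; exact hρ, rfl⟩
    obtain ⟨l, h1, h2⟩ := Nat.find_spec hne
    refine ⟨l, h1, fun l' hl' => ?_⟩
    rw [h2]
    exact Nat.find_min' hne ⟨l', hl', rfl⟩
  choose L hL1 hL2 using hex
  let A : ℕ → Set (Finset I) := fun j =>
    Nat.rec {S : Finset I | S.card = 1} (fun j A => nextSet j A (L j A)) j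
  exact ⟨{ A := A
           l := fun j => L j (A j)
           zero := rfl
           succ := fun j => rfl
           lab := fun j => hL1 j (A j)
           min := fun j l' hl' => hL2 j (A j) l' hl' }⟩

end Heart

end SimpVol
end
end

section

section

set_option autoImplicit false

namespace SimpVol

/-! ### (A1): the group lemma, first part (positions are natural numbers) -/

/-- face `j` of a labelling (only the values `M x y` with `x < y` are used) -/
def ag_face {P : Type} (M : ℕ → ℕ → P) (j : ℕ) : ℕ → P :=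
  fun l => if l < j then M l j else M j (l + 1)

/-- the properties K1, K2, K3 with natural positions -/
structure ag_KR {P : Type} (z : P) (k : ℕ) (R : (ℕ → P) → Prop) : Prop where
  congr : ∀ F F' : ℕ → P, (∀ l, l ≤ k + 1 → F l = F' l) → R F → R F'
  K1 : ∀ i, i ≤ k + 1 → ∀ F : ℕ → P, ∃ G, R (Function.update F i G)
  K2 : ∀ M : ℕ → ℕ → P, ∀ i, i ≤ k + 2 →
    (∀ j, j ≤ k + 2 → j ≠ i → R (ag_face M j)) → R (ag_face M i)
  K3 : ∀ (F : P) (i : ℕ), i ≤ k → R (fun l => if l = i ∨ l = i + 1 then F else z)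

lemma ag_KR_of_fin {P : Type} (star : P) (k : ℕ) (R : (Fin (k + 2) → P) → Prop)
    (K1 : ∀ (i : Fin (k + 2)) (F : Fin (k + 2) → P), ∃ G : P, R (Function.update F i G))
    (K2 : ∀ L : Fin (k + 3) → Fin (k + 3) → P, (∀ a b, L a b = L b a) → ∀ i,
      (∀ j, j ≠ i → R (fun l => L j (j.succAbove l))) → R (fun l => L i (i.succAbove l)))
    (K3 : ∀ (F : P) (i : Fin (k + 1)),
      R (fun l => if l = i.castSucc ∨ l = i.succ then F else star)) :
    ag_KR star k (fun F : ℕ → P => R (fun l => F l)) := by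
  refine ⟨?_, ?_, ?_, ?_⟩
  · intro F F' h hF
    have e : (fun l : Fin (k + 2) => F l) = fun l : Fin (k + 2) => F' l := by
      funext l
      exact h l (by have := l.isLt; omega)
    show R (fun l : Fin (k + 2) => F' l)
    rw [← e]; exact hF
  · intro i hi F
    obtain ⟨G, hG⟩ := K1 ⟨i, by omega⟩ (fun l => F l)
    refine ⟨G, ?_⟩
    convert hG using 1
    funext l
    simp only [Function.update_apply, Fin.ext_iff]
  · intro M i hi h
    have key : ∀ j : Fin (k + 3), (fun l : Fin (k + 2) =>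
        (fun x y : Fin (k + 3) => if x.val < y.val then M x.val y.val else M y.val x.val) j
          (j.succAbove l)) = fun l : Fin (k + 2) => ag_face M j l := by
      intro j
      funext l
      simp only [ag_face, Fin.succAbove, Fin.lt_def, Fin.val_castSucc]
      split_ifs <;> simp_all <;> omega
    have := K2 (fun x y => if x.val < y.val then M x.val y.val else M y.val x.val) (by
      intro a b
      by_cases h1 : a.val < b.val
      · simp only [h1, if_true, if_neg (not_lt.2 h1.le)]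
      · by_cases h2 : b.val < a.val
        · simp only [h2, if_true, h1, if_false]
        · have : a = b := Fin.ext (by omega)
          rw [this]) ⟨i, by omega⟩ (by
      intro j hj
      rw [key j]
      exact h j (by have := j.isLt; omega) (fun hc => hj (Fin.ext hc)))
    rw [key] at this
    exact this
  · intro F i hi
    have := K3 F ⟨i, by omega⟩
    convert this using 1
    funext l
    simp only [Fin.ext_iff, Fin.val_castSucc, Fin.val_succ]

variable {P : Type} {z : P} {k : ℕ} {R : (ℕ → P) → Prop}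

/-- the relation `~_b` -/
def ag_E (R : (ℕ → P) → Prop) (z : P) (b : ℕ) (F G : P) : Prop :=
  R (fun l => if l = b then F else if l = b + 1 then G else z)

lemma ag_E_refl (h : ag_KR z k R) {b : ℕ} (hb : b ≤ k) (F : P) : ag_E R z b F F := by
  refine h.congr _ _ ?_ (h.K3 F b hb)
  intro l _
  by_cases h1 : l = b
  · simp [h1]
  · by_cases h2 : l = b + 1
    · simp [h2]
    · simp [h1, h2]

/-- the labelling with pivot `a` -/
def ag_piv (z : P) (a : ℕ) (F F' : ℕ → P) (x y : ℕ) : P :=
  if x = a then F (y - 1) else if x = a + 1 then F' (y - 1) else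
    if y = a then F x else if y = a + 1 then F' x else z

lemma ag_piv_a (a : ℕ) (F F' : ℕ → P) : ag_face (ag_piv z a F F') a = F := by
  funext l
  simp only [ag_face, ag_piv]
  split_ifs <;> first | rfl | (exfalso; omega)

lemma ag_piv_a1 (a : ℕ) (F F' : ℕ → P) (ha : F a = F' a) :
    ag_face (ag_piv z a F F') (a + 1) = F' := by
  funext l
  simp only [ag_face, ag_piv]
  split_ifs with h1 h2 <;> first | rfl | (exfalso; omega) | simp_all

lemma ag_piv_lt (a : ℕ) (F F' : ℕ → P) (j : ℕ) (hj : j < a) :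
    ag_face (ag_piv z a F F') j =
      fun l => if l = a - 1 then F j else if l = a - 1 + 1 then F' j else z := by
  funext l
  simp only [ag_face, ag_piv]
  split_ifs <;> first | rfl | (exfalso; omega)

lemma ag_piv_gt (a : ℕ) (F F' : ℕ → P) (j : ℕ) (hj : a < j) :
    ag_face (ag_piv z a F F') (j + 1) =
      fun l => if l = a then F j else if l = a + 1 then F' j else z := by
  funext l
  simp only [ag_face, ag_piv]
  split_ifs <;> first | rfl | (exfalso; omega)

lemma ag_pivot (h : ag_KR z k R) {a : ℕ} (ha : a ≤ k + 1) {F F' : ℕ → P} (e : F a = F' a)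
    (h1 : ∀ j, j < a → ag_E R z (a - 1) (F j) (F' j))
    (h2 : ∀ j, a < j → j ≤ k + 1 → ag_E R z a (F j) (F' j)) (hF : R F) : R F' := by
  have := h.K2 (ag_piv z a F F') (a + 1) (by omega) (by
    intro j hj hja
    rcases lt_trichotomy j a with hlt | heq | hgt
    · rw [ag_piv_lt a F F' j hlt]
      exact h1 j hlt
    · rw [heq, ag_piv_a]; exact hF
    · obtain ⟨i, rfl⟩ : ∃ i, j = i + 1 := ⟨j - 1, by omega⟩
      rw [ag_piv_gt a F F' i (by omega)]
      exact h2 i (by omega) (by omega))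
  rwa [ag_piv_a1 a F F' e] at this

lemma ag_pivot_zero (h : ag_KR z k R) {m : ℕ} (hm : 0 < m) (hmk : m ≤ k + 1) {F F' : ℕ → P}
    (e : ∀ j, j ≤ k + 1 → j ≠ m → F j = F' j) (hF : R F) (hF' : R F') :
    ag_E R z 0 (F m) (F' m) := by
  have := h.K2 (ag_piv z 0 F F') (m + 1) (by omega) (by
    intro j hj hja
    rcases Nat.eq_zero_or_pos j with rfl | hj0
    · rw [ag_piv_a]; exact hF
    · obtain ⟨i, rfl⟩ : ∃ i, j = i + 1 := ⟨j - 1, by omega⟩
      rcases Nat.eq_zero_or_pos i with rfl | hi0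
      · rw [ag_piv_a1 0 F F' (e 0 (by omega) (by omega))]; exact hF'
      · rw [ag_piv_gt 0 F F' i hi0]
        have := ag_E_refl h (b := 0) (by omega) (F i)
        rw [e i (by omega) (by omega)] at this ⊢
        exact this)
  rw [ag_piv_gt 0 F F' m hm] at this
  exact this

lemma ag_pivot_one (h : ag_KR z k R) {F F' : ℕ → P}
    (e : ∀ j, j ≤ k + 1 → j ≠ 0 → F j = F' j) (hF : R F) (hF' : R F') :
    ag_E R z 0 (F 0) (F' 0) := by
  have := h.K2 (ag_piv z 1 F F') 0 (by omega) (by
    intro j hj hja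
    obtain ⟨i, rfl⟩ : ∃ i, j = i + 1 := ⟨j - 1, by omega⟩
    rcases Nat.eq_zero_or_pos i with rfl | hi0
    · rw [ag_piv_a]; exact hF
    · rcases Nat.lt_or_ge 1 i with h1 | h1
      swap
      · rw [show i = 1 by omega, ag_piv_a1 1 F F' (e 1 (by omega) (by omega))]; exact hF'
      · rw [ag_piv_gt 1 F F' i h1]
        have := ag_E_refl h (b := 1) (by omega) (F i)
        rw [e i (by omega) (by omega)] at this ⊢
        exact this)
  rw [ag_piv_lt 1 F F' 0 (by omega)] at this
  exact this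

lemma ag_replace (h : ag_KR z k R) {b m : ℕ} (hb : b ≤ k) (hm : m ≤ k + 1) {F : ℕ → P} {G : P}
    (hG : ag_E R z b (F m) G) (hF : R F) : R (Function.update F m G) := by
  rcases lt_or_ge b m with hbm | hbm
  · refine ag_pivot h (a := b) (by omega) (F := F) ?_ ?_ ?_ hF
    · rw [Function.update_of_ne (by omega)]
    · intro j hj
      rw [Function.update_of_ne (by omega)]
      exact ag_E_refl h (by omega) _
    · intro j hj hj'
      by_cases hjm : j = m
      · rw [hjm, Function.update_self]; exact hG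
      · rw [Function.update_of_ne hjm]
        exact ag_E_refl h (by omega) _
  · refine ag_pivot h (a := b + 1) (by omega) (F := F) ?_ ?_ ?_ hF
    · rw [Function.update_of_ne (by omega)]
    · intro j hj
      rw [Nat.add_sub_cancel]
      by_cases hjm : j = m
      · rw [hjm, Function.update_self]; exact hG
      · rw [Function.update_of_ne hjm]
        exact ag_E_refl h (by omega) _
    · intro j hj hj'
      rw [Function.update_of_ne (by omega)]
      exact ag_E_refl h (by omega) _

lemma ag_E_change (h : ag_KR z k R) {b c : ℕ} (hb : b ≤ k) (hc : c ≤ k) {F G : P}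
    (hG : ag_E R z b F G) : ag_E R z c F G := by
  have h0 : R (fun l => if l = c then F else if l = c + 1 then F else z) := ag_E_refl h hc F
  have h1 := ag_replace h (b := b) (m := c + 1) hb (by omega) (G := G) (by simpa using hG) h0
  refine h.congr _ _ ?_ h1
  intro l _
  by_cases hl : l = c + 1
  · rw [hl, Function.update_self]; simp
  · rw [Function.update_of_ne hl]
    simp [hl]

lemma ag_E_symm (h : ag_KR z k R) {F G : P} (hG : ag_E R z 0 F G) : ag_E R z 0 G F := by
  have h0 : R (fun l => if l = 0 then F else if l = 0 + 1 then F else z) :=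
    ag_E_refl h (Nat.zero_le k) F
  have h1 := ag_replace h (b := 0) (m := 0) (Nat.zero_le k) (by omega) (G := G)
    (by simpa using hG) h0
  refine h.congr _ _ ?_ h1
  intro l _
  by_cases hl : l = 0
  · rw [hl, Function.update_self]; simp
  · rw [Function.update_of_ne hl]
    simp [hl]

lemma ag_E_trans (h : ag_KR z k R) {F G H : P} (h1 : ag_E R z 0 F G) (h2 : ag_E R z 0 G H) :
    ag_E R z 0 F H := by
  have h0 : R (fun l => if l = 0 then F else if l = 0 + 1 then G else z) := h1
  have h3 := ag_replace h (b := 0) (m := 1) (Nat.zero_le k) (by omega) (G := H)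
    (by simpa using h2) h0
  refine h.congr _ _ ?_ h3
  intro l _
  by_cases hl : l = 1
  · rw [hl, Function.update_self]; simp
  · rw [Function.update_of_ne hl]
    simp [hl]

lemma ag_invariant (h : ag_KR z k R) {F F' : ℕ → P}
    (e : ∀ j, j ≤ k + 1 → ag_E R z 0 (F j) (F' j)) (hF : R F) : R F' := by
  have key : ∀ n, n ≤ k + 2 → R (fun l => if l < n then F' l else F l) := by
    intro n
    induction n with
    | zero => intro _; simpa using hF
    | succ n ih =>
      intro hn
      have h1 := ag_replace h (b := 0) (m := n) (Nat.zero_le k) (by omega) (G := F' n)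
        (by simpa using e n (by omega)) (ih (by omega))
      refine h.congr _ _ ?_ h1
      intro l _
      by_cases hl : l = n
      · rw [hl, Function.update_self]; simp
      · rw [Function.update_of_ne hl]
        by_cases h2 : l < n
        · simp [h2, Nat.lt_succ_of_lt h2]
        · have : ¬ l < n + 1 := by omega
          simp [h2, this]
  refine h.congr _ _ ?_ (key (k + 2) le_rfl)
  intro l hl
  have : l < k + 2 := by omega
  simp [this]

/-- the relation with the uniqueness property -/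
structure ag_KQ {π : Type} (z : π) (k : ℕ) (R : (ℕ → π) → Prop) : Prop extends ag_KR z k R where
  uniq : ∀ i, i ≤ k + 1 → ∀ F F' : ℕ → π, (∀ l, l ≤ k + 1 → l ≠ i → F l = F' l) →
    R F → R F' → F i = F' i

lemma ag_quotient (h : ag_KR z k R) : ∃ (π : Type) (q : P → π) (R' : (ℕ → π) → Prop),
    Function.Surjective q ∧ ag_KQ (q z) k R' ∧ ∀ F, R F ↔ R' (fun l => q (F l)) := by
  let s : Setoid P :=
    { r := ag_E R z 0
      iseqv := ⟨ag_E_refl h (Nat.zero_le k), ag_E_symm h, ag_E_trans h⟩ }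
  have hs : ∀ a b : P, ag_E R z 0 a b ↔ (Quotient.mk s a) = Quotient.mk s b :=
    fun a b => ⟨fun hab => Quotient.sound hab, fun hab => Quotient.exact hab⟩
  have hout : ∀ a : P, ag_E R z 0 ((Quotient.mk s a).out) a := fun a => by
    rw [hs]; exact Quotient.out_eq _
  have hout' : ∀ a : P, ag_E R z 0 a ((Quotient.mk s a).out) := fun a => ag_E_symm h (hout a)
  refine ⟨Quotient s, Quotient.mk s, fun F => R (fun l => (F l).out), Quotient.mk_surjective, ?_,
    ?_⟩
  · refine ⟨⟨?_, ?_, ?_, ?_⟩, ?_⟩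
    · intro F F' e hF
      exact h.congr _ _ (fun l hl => by rw [e l hl]) hF
    · intro i hi F
      obtain ⟨G, hG⟩ := h.K1 i hi (fun l => (F l).out)
      refine ⟨Quotient.mk s G, ?_⟩
      refine ag_invariant h ?_ hG
      intro j hj
      by_cases hji : j = i
      · rw [hji, Function.update_self, Function.update_self]
        exact hout' G
      · rw [Function.update_of_ne hji, Function.update_of_ne hji]
        exact ag_E_refl h (Nat.zero_le k) _
    · intro M i hi hM
      have := h.K2 (fun x y => (M x y).out) i hi (by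
        intro j hj hji
        refine h.congr _ _ ?_ (hM j hj hji)
        intro l _
        unfold ag_face
        split_ifs <;> rfl)
      refine h.congr _ _ ?_ this
      intro l _
      unfold ag_face
      split_ifs <;> rfl
    · intro F i hi
      refine ag_invariant h ?_ (h.K3 F.out i hi)
      intro j hj
      by_cases hc : j = i ∨ j = i + 1
      · simp only [hc, if_true]
        exact ag_E_refl h (Nat.zero_le k) _
      · simp only [hc, if_false]
        exact hout' z
    · intro i hi F F' e hF hF'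
      rw [← Quotient.out_eq (F i), ← Quotient.out_eq (F' i), ← hs]
      rcases Nat.eq_zero_or_pos i with rfl | hi0
      · exact ag_pivot_one h (F := fun l => (F l).out) (F' := fun l => (F' l).out)
          (fun j hj hj0 => by rw [e j hj hj0]) hF hF'
      · exact ag_pivot_zero h (F := fun l => (F l).out) (F' := fun l => (F' l).out) hi0 hi
          (fun j hj hj0 => by rw [e j hj hj0]) hF hF'
  · intro F
    exact ⟨fun hF => ag_invariant h (fun j _ => hout' _) hF,
      fun hF => ag_invariant h (fun j _ => hout _) hF⟩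

end SimpVol
end

section

set_option autoImplicit false

namespace SimpVol

/-! ### (A1): the group lemma, second part: the group -/

/-- the tuple `(a, b, c, d, z, ...)` -/
def ag_T {π : Type} (z a b c d : π) : ℕ → π
  | 0 => a
  | 1 => b
  | 2 => c
  | 3 => d
  | _ + 4 => z

/-- labels on `{0, ..., 4}` -/
def ag_M {π : Type} (z a01 a02 a03 a04 a12 a13 a14 a23 a24 a34 : π) : ℕ → ℕ → π
  | 0, 1 => a01
  | 0, 2 => a02
  | 0, 3 => a03
  | 0, 4 => a04
  | 1, 2 => a12
  | 1, 3 => a13
  | 1, 4 => a14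
  | 2, 3 => a23
  | 2, 4 => a24
  | 3, 4 => a34
  | _, _ => z

section faces

variable {π : Type} (z a01 a02 a03 a04 a12 a13 a14 a23 a24 a34 : π)

lemma ag_M0 : ag_face (ag_M z a01 a02 a03 a04 a12 a13 a14 a23 a24 a34) 0 =
    ag_T z a01 a02 a03 a04 := by
  funext l
  rcases l with _ | _ | _ | _ | l <;> simp [ag_face, ag_M, ag_T]

lemma ag_M1 : ag_face (ag_M z a01 a02 a03 a04 a12 a13 a14 a23 a24 a34) 1 =
    ag_T z a01 a12 a13 a14 := by
  funext l
  rcases l with _ | _ | _ | _ | l <;> simp [ag_face, ag_M, ag_T]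

lemma ag_M2 : ag_face (ag_M z a01 a02 a03 a04 a12 a13 a14 a23 a24 a34) 2 =
    ag_T z a02 a12 a23 a24 := by
  funext l
  rcases l with _ | _ | _ | _ | l <;> simp [ag_face, ag_M, ag_T]

lemma ag_M3 : ag_face (ag_M z a01 a02 a03 a04 a12 a13 a14 a23 a24 a34) 3 =
    ag_T z a03 a13 a23 a34 := by
  funext l
  rcases l with _ | _ | _ | _ | l <;> simp [ag_face, ag_M, ag_T]

lemma ag_M4 : ag_face (ag_M z a01 a02 a03 a04 a12 a13 a14 a23 a24 a34) 4 =
    ag_T z a04 a14 a24 a34 := by
  funext l
  rcases l with _ | _ | _ | _ | l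
  · simp [ag_face, ag_M, ag_T]
  · simp [ag_face, ag_M, ag_T]
  · simp [ag_face, ag_M, ag_T]
  · simp [ag_face, ag_M, ag_T]
  · simp [ag_face, ag_M, ag_T]

lemma ag_M5 (j : ℕ) : ag_face (ag_M z a01 a02 a03 a04 a12 a13 a14 a23 a24 a34) (j + 5) =
    ag_T z z z z z := by
  funext l
  rcases l with _ | _ | _ | _ | l
  · simp [ag_face, ag_M, ag_T]
  · simp [ag_face, ag_M, ag_T]
  · simp [ag_face, ag_M, ag_T]
  · simp [ag_face, ag_M, ag_T]
  · simp [ag_face, ag_M, ag_T]

end faces

variable {π : Type} {z : π} {k : ℕ} {R : (ℕ → π) → Prop}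

lemma ag_T_zero (h : ag_KR z k R) : R (ag_T z z z z z) := by
  refine h.congr _ _ ?_ (h.K3 z 0 (Nat.zero_le k))
  intro l _
  rcases l with _ | _ | _ | _ | l <;> simp [ag_T]

lemma ag_T_r0 (h : ag_KR z k R) (x : π) : R (ag_T z x x z z) := by
  refine h.congr _ _ ?_ (h.K3 x 0 (Nat.zero_le k))
  intro l _
  rcases l with _ | _ | _ | _ | l <;> simp [ag_T]

lemma ag_T_r1 (h : ag_KR z k R) (hk : 2 ≤ k) (x : π) : R (ag_T z z x x z) := by
  refine h.congr _ _ ?_ (h.K3 x 1 (by omega))
  intro l _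
  rcases l with _ | _ | _ | _ | l <;> simp [ag_T]

lemma ag_T_r2 (h : ag_KR z k R) (hk : 2 ≤ k) (x : π) : R (ag_T z z z x x) := by
  refine h.congr _ _ ?_ (h.K3 x 2 (by omega))
  intro l _
  rcases l with _ | _ | _ | _ | l <;> simp [ag_T]

/-- four faces imply the fifth one -/
lemma ag_five (h : ag_KR z k R) (hk : 2 ≤ k) (i : ℕ) (hi : i ≤ 4)
    (a01 a02 a03 a04 a12 a13 a14 a23 a24 a34 : π)
    (h0 : i ≠ 0 → R (ag_T z a01 a02 a03 a04)) (h1 : i ≠ 1 → R (ag_T z a01 a12 a13 a14))
    (h2 : i ≠ 2 → R (ag_T z a02 a12 a23 a24)) (h3 : i ≠ 3 → R (ag_T z a03 a13 a23 a34))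
    (h4 : i ≠ 4 → R (ag_T z a04 a14 a24 a34)) :
    R (ag_face (ag_M z a01 a02 a03 a04 a12 a13 a14 a23 a24 a34) i) := by
  refine h.K2 _ i (by omega) ?_
  intro j hj hji
  rcases j with _ | _ | _ | _ | _ | j
  · rw [ag_M0]; exact h0 hji.symm
  · rw [ag_M1]; exact h1 hji.symm
  · rw [ag_M2]; exact h2 hji.symm
  · rw [ag_M3]; exact h3 hji.symm
  · rw [ag_M4]; exact h4 hji.symm
  · rw [ag_M5]; exact ag_T_zero h

/-- the abstract properties of the relation on four positions -/
structure ag_R4 {π : Type} (z : π) (Q : π → π → π → π → Prop) : Prop where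
  ex0 : ∀ b c d, ∃ a, Q a b c d
  ex1 : ∀ a c d, ∃ b, Q a b c d
  un0 : ∀ a a' b c d, Q a b c d → Q a' b c d → a = a'
  un1 : ∀ a b b' c d, Q a b c d → Q a b' c d → b = b'
  un2 : ∀ a b c c' d, Q a b c d → Q a b c' d → c = c'
  un3 : ∀ a b c d d', Q a b c d → Q a b c d' → d = d'
  r0 : ∀ x, Q x x z z
  r1 : ∀ x, Q z x x z
  r2 : ∀ x, Q z z x x
  k0 : ∀ a01 a02 a03 a04 a12 a13 a14 a23 a24 a34, Q a01 a12 a13 a14 → Q a02 a12 a23 a24 →
    Q a03 a13 a23 a34 → Q a04 a14 a24 a34 → Q a01 a02 a03 a04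
  k1 : ∀ a01 a02 a03 a04 a12 a13 a14 a23 a24 a34, Q a01 a02 a03 a04 → Q a02 a12 a23 a24 →
    Q a03 a13 a23 a34 → Q a04 a14 a24 a34 → Q a01 a12 a13 a14
  k2 : ∀ a01 a02 a03 a04 a12 a13 a14 a23 a24 a34, Q a01 a02 a03 a04 → Q a01 a12 a13 a14 →
    Q a03 a13 a23 a34 → Q a04 a14 a24 a34 → Q a02 a12 a23 a24
  k3 : ∀ a01 a02 a03 a04 a12 a13 a14 a23 a24 a34, Q a01 a02 a03 a04 → Q a01 a12 a13 a14 →
    Q a02 a12 a23 a24 → Q a04 a14 a24 a34 → Q a03 a13 a23 a34
  k4 : ∀ a01 a02 a03 a04 a12 a13 a14 a23 a24 a34, Q a01 a02 a03 a04 → Q a01 a12 a13 a14 →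
    Q a02 a12 a23 a24 → Q a03 a13 a23 a34 → Q a04 a14 a24 a34

lemma ag_R4_of (h : ag_KQ z k R) (hk : 2 ≤ k) :
    ag_R4 z (fun a b c d => R (ag_T z a b c d)) := by
  have hR := h.toag_KR
  refine ⟨?_, ?_, ?_, ?_, ?_, ?_, ?_, ?_, ?_, ?_, ?_, ?_, ?_, ?_⟩
  · intro b c d
    obtain ⟨G, hG⟩ := hR.K1 0 (by omega) (ag_T z z b c d)
    refine ⟨G, hR.congr _ _ ?_ hG⟩
    intro l _
    rcases l with _ | _ | _ | _ | l <;> simp [ag_T]
  · intro a c d
    obtain ⟨G, hG⟩ := hR.K1 1 (by omega) (ag_T z a z c d)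
    refine ⟨G, hR.congr _ _ ?_ hG⟩
    intro l _
    rcases l with _ | _ | _ | _ | l <;> simp [ag_T]
  · intro a a' b c d h1 h2
    refine h.uniq 0 (by omega) _ _ ?_ h1 h2
    intro l _ hl
    rcases l with _ | _ | _ | _ | l <;> simp_all [ag_T]
  · intro a b b' c d h1 h2
    refine h.uniq 1 (by omega) _ _ ?_ h1 h2
    intro l _ hl
    rcases l with _ | _ | _ | _ | l <;> simp_all [ag_T]
  · intro a b c c' d h1 h2
    refine h.uniq 2 (by omega) _ _ ?_ h1 h2
    intro l _ hl
    rcases l with _ | _ | _ | _ | l <;> simp_all [ag_T]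
  · intro a b c d d' h1 h2
    refine h.uniq 3 (by omega) _ _ ?_ h1 h2
    intro l _ hl
    rcases l with _ | _ | _ | _ | l <;> simp_all [ag_T]
  · exact ag_T_r0 hR
  · exact ag_T_r1 hR hk
  · exact ag_T_r2 hR hk
  · intro a01 a02 a03 a04 a12 a13 a14 a23 a24 a34 h1 h2 h3 h4
    have := ag_five hR hk 0 (by omega) a01 a02 a03 a04 a12 a13 a14 a23 a24 a34
      (fun h => absurd rfl h) (fun _ => h1) (fun _ => h2) (fun _ => h3) (fun _ => h4)
    rwa [ag_M0] at this
  · intro a01 a02 a03 a04 a12 a13 a14 a23 a24 a34 h0 h2 h3 h4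
    have := ag_five hR hk 1 (by omega) a01 a02 a03 a04 a12 a13 a14 a23 a24 a34
      (fun _ => h0) (fun h => absurd rfl h) (fun _ => h2) (fun _ => h3) (fun _ => h4)
    rwa [ag_M1] at this
  · intro a01 a02 a03 a04 a12 a13 a14 a23 a24 a34 h0 h1 h3 h4
    have := ag_five hR hk 2 (by omega) a01 a02 a03 a04 a12 a13 a14 a23 a24 a34
      (fun _ => h0) (fun _ => h1) (fun h => absurd rfl h) (fun _ => h3) (fun _ => h4)
    rwa [ag_M2] at this
  · intro a01 a02 a03 a04 a12 a13 a14 a23 a24 a34 h0 h1 h2 h4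
    have := ag_five hR hk 3 (by omega) a01 a02 a03 a04 a12 a13 a14 a23 a24 a34
      (fun _ => h0) (fun _ => h1) (fun _ => h2) (fun h => absurd rfl h) (fun _ => h4)
    rwa [ag_M3] at this
  · intro a01 a02 a03 a04 a12 a13 a14 a23 a24 a34 h0 h1 h2 h3
    have := ag_five hR hk 4 (by omega) a01 a02 a03 a04 a12 a13 a14 a23 a24 a34
      (fun _ => h0) (fun _ => h1) (fun _ => h2) (fun _ => h3) (fun h => absurd rfl h)
    rwa [ag_M4] at this

/-- Step 3: the group -/
lemma ag_group (Q : π → π → π → π → Prop) (h : ag_R4 z Q) :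
    ∃ G : Group π, G.one = z ∧ ∀ a b c, Q a b c z ↔ b = G.mul a c := by
  classical
  choose op hop using fun a c => h.ex1 a c z
  have hiff : ∀ a b c, Q a b c z ↔ b = op a c := fun a b c =>
    ⟨fun hb => h.un1 _ _ _ _ _ hb (hop a c), fun hb => hb ▸ hop a c⟩
  have hone : ∀ x, op z x = x := fun x => ((hiff z x x).1 (h.r1 x)).symm
  have hassoc : ∀ x y w, op (op x y) w = op x (op y w) := by
    intro x y w
    -- a01 = x, a03 = y, a23 = w, a02 = x y, a13 = y w, a12 = x (y w)
    have := h.k2 x (op x y) y z (op x (op y w)) (op y w) z w z z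
      (hop x y) (hop x (op y w)) (hop y w) (h.r0 z)
    exact ((hiff _ _ _).1 this).symm
  choose inv hinv using fun c => h.ex0 z c z
  have hinv' : ∀ c, op (inv c) c = z := fun c => ((hiff _ _ _).1 (hinv c)).symm
  let _ : Mul π := ⟨op⟩
  let _ : One π := ⟨z⟩
  let _ : Inv π := ⟨inv⟩
  refine ⟨Group.ofLeftAxioms hassoc hone hinv', rfl, ?_⟩
  exact hiff

/-- Step 4 -/
lemma ag_formula [G : Group π] (Q : π → π → π → π → Prop) (h : ag_R4 (1 : π) Q)
    (hQ : ∀ a b c, Q a b c 1 ↔ b = a * c) :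
    (∀ a b c d, Q a b c d ↔ d = c * b⁻¹ * a) ∧ ∀ a b : π, a * b = b * a := by
  have s1 : ∀ x w y, Q 1 x w y ↔ y = w * x⁻¹ := by
    have s1' : ∀ x w, Q 1 x w (w * x⁻¹) := by
      intro x w
      refine h.k0 1 x w (w * x⁻¹) 1 (w * x⁻¹) (w * x⁻¹) x⁻¹ 1 1 ?_ ?_ ?_ ?_
      · exact h.r2 _
      · rw [hQ]; group
      · rw [hQ]
      · exact h.r0 _
    intro x w y
    exact ⟨fun hy => h.un3 _ _ _ _ _ hy (s1' x w), fun hy => hy ▸ s1' x w⟩
  have s2 : ∀ a b c d e, Q a b c d → Q a (b * e) (c * e) d := by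
    intro a b c d e hq
    refine h.k1 a b c d (b * e) (c * e) d e 1 1 hq ?_ ?_ ?_
    · rw [hQ]
    · rw [hQ]
    · exact h.r0 _
  have s3 : ∀ a b c e, Q b c 1 e → Q (a * b) (a * c) 1 e := by
    intro a b c e hq
    -- a03 = b, a13 = c, a02 = a b, a12 = a c, a04 = a14 = 1, a24 = a34 = e, a23 = 1
    refine h.k2 a (a * b) b 1 (a * c) c 1 1 e e ?_ ?_ hq (h.r2 e)
    · rw [hQ]
    · rw [hQ]
  have s4 : ∀ b c e, Q b c 1 e → e = c⁻¹ * b := by
    intro b c e hq
    have := s3 b⁻¹ b c e hq
    rw [inv_mul_cancel, s1] at this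
    rw [this]; group
  have s5 : ∀ a b c d, Q a b c d → d = c * b⁻¹ * a := by
    intro a b c d hq
    have h1 := s2 a b c d c⁻¹ hq
    rw [mul_inv_cancel] at h1
    rw [s4 _ _ _ h1]; group
  have s5' : ∀ a b c d, Q a b c d ↔ d = c * b⁻¹ * a := by
    intro a b c d
    refine ⟨s5 a b c d, ?_⟩
    intro hd
    obtain ⟨a', ha'⟩ := h.ex0 b c d
    have h1 := s5 _ _ _ _ ha'
    have : a' = a := by
      rw [hd] at h1
      exact (mul_left_cancel h1).symm
    rw [← this]; exact ha'
  refine ⟨s5', ?_⟩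
  have s6 : ∀ x y : π, y * x⁻¹ * y⁻¹ * x = 1 := by
    intro x y
    -- a01 = x, a02 = y, a12 = a03 = a13 = 1
    have h4 := h.k4 x y 1 (y⁻¹ * x) 1 1 x 1 y 1
      (by rw [s5']; group) (by rw [s5']; group) (by rw [s5']; group) (by rw [s5']; group)
    rw [s5'] at h4
    rw [h4]; group
  intro a b
  have h1 := s6 b⁻¹ a
  rw [inv_inv] at h1
  calc a * b = (a * b * a⁻¹ * b⁻¹) * (b * a) := by group
    _ = b * a := by rw [h1, one_mul]

lemma ag_comm_group (h : ag_KQ z k R) (hk : 2 ≤ k) :
    ∃ G : AddCommGroup π, G.zero = z ∧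
      ∀ a b c d, R (ag_T z a b c d) ↔ G.add (G.add a c) (G.neg (G.add b d)) = G.zero := by
  have h4 := ag_R4_of h hk
  obtain ⟨G, hz, hQ⟩ := ag_group _ h4
  subst hz
  let _ : Group π := G
  obtain ⟨f1, f2⟩ := ag_formula (fun a b c d => R (ag_T (1 : π) a b c d)) h4 hQ
  let A : AddCommGroup π :=
    { add := fun a b => a * b
      zero := (1 : π)
      neg := fun a => a⁻¹
      add_assoc := fun a b c => mul_assoc a b c
      zero_add := fun a => one_mul a
      add_zero := fun a => mul_one a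
      neg_add_cancel := fun a => inv_mul_cancel a
      add_comm := fun a b => f2 a b
      nsmul := @nsmulRec π ⟨(1 : π)⟩ ⟨fun a b => a * b⟩
      zsmul := @zsmulRec π ⟨(1 : π)⟩ ⟨fun a b => a * b⟩ ⟨fun a => a⁻¹⟩
        (@nsmulRec π ⟨(1 : π)⟩ ⟨fun a b => a * b⟩) }
  refine ⟨A, rfl, ?_⟩
  intro a b c d
  have e := f1 a b c d
  have : R (ag_T (1 : π) a b c d) ↔ a * c * (b * d)⁻¹ = 1 := by
    rw [e]
    constructor
    · intro hd
      rw [hd, mul_inv_eq_one, f2 a c, f2 b, mul_assoc (c * b⁻¹), f2 a b, ← mul_assoc (c * b⁻¹),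
        inv_mul_cancel_right]
    · intro hd
      rw [mul_inv_eq_one] at hd
      have : d = b⁻¹ * (a * c) := by rw [hd]; group
      rw [this, f2 a c, ← mul_assoc, f2 b⁻¹ c]
  exact this

end SimpVol
end

section

set_option autoImplicit false

namespace SimpVol

/-! ### (A1): the group lemma, third part -/

section shift

variable {π : Type} [AddCommGroup π] {k : ℕ} {R : (ℕ → π) → Prop}

/-- labels for the left shift -/
def ag_MS (F : ℕ → π) (w : π) (x y : ℕ) : π :=
  if x = 0 then (if y = 1 then w else if y = 2 then w + F 0 else if y = 3 then F 0 else 0)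
  else if x = 1 then (if y = 2 then w + F 1 else if y = 3 then F 1 else 0)
  else if x = 2 ∨ x = 3 then F (y - 1) else 0

lemma ag_MS0 (F : ℕ → π) (w : π) : ag_face (ag_MS F w) 0 = ag_T 0 w (w + F 0) (F 0) 0 := by
  funext l
  rcases l with _ | _ | _ | _ | l <;> simp [ag_face, ag_MS, ag_T]

lemma ag_MS1 (F : ℕ → π) (w : π) : ag_face (ag_MS F w) 1 = ag_T 0 w (w + F 1) (F 1) 0 := by
  funext l
  rcases l with _ | _ | _ | _ | l <;> simp [ag_face, ag_MS, ag_T]

lemma ag_MS2 (F : ℕ → π) (w : π) : ag_face (ag_MS F w) 2 =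
    fun l => if l = 0 then w + F 0 else if l = 1 then w + F 1 else F l := by
  funext l
  rcases l with _ | _ | _ | _ | l <;> simp [ag_face, ag_MS]

lemma ag_MS3 (F : ℕ → π) (w : π) : ag_face (ag_MS F w) 3 = F := by
  funext l
  rcases l with _ | _ | _ | _ | l <;> simp [ag_face, ag_MS]

lemma ag_MS4 (F : ℕ → π) (w : π) (j : ℕ) :
    ag_face (ag_MS F w) (j + 4) = ag_T 0 0 0 (F (j + 3)) (F (j + 3)) := by
  funext l
  rcases l with _ | _ | _ | _ | l
  · simp [ag_face, ag_MS, ag_T]
  · simp [ag_face, ag_MS, ag_T]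
  · simp [ag_face, ag_MS, ag_T]
  · simp [ag_face, ag_MS, ag_T]
  · simp [ag_face, ag_MS, ag_T]

lemma ag_shift (h : ag_KQ (0 : π) k R) (hk : 2 ≤ k)
    (h4 : ∀ a b c d, R (ag_T 0 a b c d) ↔ a + c + -(b + d) = 0) (w : π) (F : ℕ → π) (hF : R F) :
    R (fun l => if l = 0 then w + F 0 else if l = 1 then w + F 1 else F l) := by
  rw [← ag_MS2]
  refine h.K2 _ 2 (by omega) ?_
  intro j hj hj2
  rcases j with _ | _ | _ | _ | j
  · rw [ag_MS0, h4]; abel
  · rw [ag_MS1, h4]; abel
  · exact absurd rfl hj2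
  · rw [ag_MS3]; exact hF
  · rw [ag_MS4]
    exact ag_T_r2 h.toag_KR hk _

/-- the tuple with `x`, `y` at the positions `0`, `1` and `w` at `m` -/
def ag_U (x y w : π) (m : ℕ) : ℕ → π :=
  fun l => if l = 0 then x else if l = 1 then y else if l = m then w else 0

lemma ag_eps (h : ag_KQ (0 : π) k R) (hk : 2 ≤ k)
    (h4 : ∀ a b c d, R (ag_T 0 a b c d) ↔ a + c + -(b + d) = 0) {m : ℕ} (hm : 2 ≤ m)
    (hmk : m ≤ k + 1) (e : π) : ∃ w, ∀ x y, y - x = e → R (ag_U x y w m) := by
  obtain ⟨w, hw⟩ := h.K1 m hmk (ag_U 0 e 0 m)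
  have hw' : R (ag_U 0 e w m) := by
    refine h.congr _ _ ?_ hw
    intro l _
    by_cases hl : l = m
    · rw [hl, Function.update_self]
      unfold ag_U
      rw [if_neg (by omega), if_neg (by omega), if_pos rfl]
    · rw [Function.update_of_ne hl]
      unfold ag_U
      split_ifs <;> rfl
  refine ⟨w, ?_⟩
  intro x y hxy
  have := ag_shift h hk h4 x _ hw'
  refine h.congr _ _ ?_ this
  intro l _
  unfold ag_U
  by_cases h0 : l = 0
  · simp [h0]
  · by_cases h1 : l = 1
    · simp [h1, ← hxy]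
    · simp [h0, h1]

/-- labels for the addition at the positions `m`, `m + 1` -/
def ag_MA (F F' : ℕ → π) (w : π) (m : ℕ) (x y : ℕ) : π :=
  if x = 0 then F (y - 1) else if x = 1 then F' (y - 1)
  else if x = m + 1 ∧ y = m + 2 then w else 0

lemma ag_add (h : ag_KQ (0 : π) k R) (hk : 2 ≤ k)
    (h4 : ∀ a b c d, R (ag_T 0 a b c d) ↔ a + c + -(b + d) = 0) {m : ℕ} (hm : 2 ≤ m)
    (hmk : m ≤ k) (v : π) (F : ℕ → π) (hF : R F) :
    R (fun l => if l = m ∨ l = m + 1 then F l + v else F l) := by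
  obtain ⟨w, hw⟩ := ag_eps h hk h4 (m := m + 1) (by omega) (by omega) v
  obtain ⟨F', hF'⟩ : ∃ F' : ℕ → π, F' = fun l => if l = m ∨ l = m + 1 then F l + v else F l :=
    ⟨_, rfl⟩
  have hFe : ∀ l, F' l = if l = m ∨ l = m + 1 then F l + v else F l := fun l => by rw [hF']
  rw [← hF']
  have e0 : ag_face (ag_MA F F' w m) 0 = F := by
    funext l
    simp [ag_face, ag_MA]
  have e1 : ag_face (ag_MA F F' w m) 1 = F' := by
    funext l
    rcases l with _ | l
    · have h0 : F' 0 = F 0 := by rw [hFe 0, if_neg (by omega)]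
      simp [ag_face, ag_MA, h0]
    · simp [ag_face, ag_MA]
  have e2 : ag_face (ag_MA F F' w m) (m + 1) = ag_U (F m) (F' m) w (m + 1) := by
    funext l
    rcases l with _ | _ | l
    · simp [ag_face, ag_MA, ag_U]
    · have hlt : 1 < m + 1 := by omega
      simp [ag_face, ag_MA, ag_U, hlt]
    · unfold ag_face ag_MA ag_U
      split_ifs <;> first | rfl | (exfalso; omega)
  have e3 : ag_face (ag_MA F F' w m) (m + 2) = ag_U (F (m + 1)) (F' (m + 1)) w (m + 1) := by
    funext l
    rcases l with _ | _ | l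
    · simp [ag_face, ag_MA, ag_U]
    · have hlt : 1 < m + 2 := by omega
      simp [ag_face, ag_MA, ag_U, hlt]
    · unfold ag_face ag_MA ag_U
      split_ifs <;> first | rfl | (exfalso; omega)
  have e4 : ∀ j, 2 ≤ j → j ≠ m + 1 → j ≠ m + 2 →
      ag_face (ag_MA F F' w m) j = ag_T 0 (F (j - 1)) (F (j - 1)) 0 0 := by
    intro j hj hj1 hj2
    have : F' (j - 1) = F (j - 1) := by
      rw [hFe, if_neg (by omega)]
    funext l
    rcases l with _ | _ | _ | _ | l
    · have hlt : 0 < j := by omega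
      simp [ag_face, ag_MA, ag_T, hlt]
    · have hlt : 1 < j := by omega
      simp [ag_face, ag_MA, ag_T, hlt, this]
    · simp only [ag_face, ag_MA, ag_T]
      split_ifs <;> first | rfl | (exfalso; omega)
    · simp only [ag_face, ag_MA, ag_T]
      split_ifs <;> first | rfl | (exfalso; omega)
    · simp only [ag_face, ag_MA, ag_T]
      split_ifs <;> first | rfl | (exfalso; omega)
  rw [← e1]
  refine h.K2 _ 1 (by omega) ?_
  intro j hj hj1
  rcases Nat.eq_zero_or_pos j with rfl | hj0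
  · rw [e0]; exact hF
  · by_cases hjm : j = m + 1
    · rw [hjm, e2]
      apply hw
      rw [hFe, if_pos (Or.inl rfl)]; abel
    · by_cases hjm2 : j = m + 2
      · rw [hjm2, e3]
        apply hw
        rw [hFe, if_pos (Or.inr rfl)]; abel
      · rw [e4 j (by omega) hjm hjm2]
        exact ag_T_r0 h.toag_KR _

lemma ag_sum_add (n m : ℕ) (hm : m + 1 < n) (v : π) (F : ℕ → π) :
    ∑ i ∈ Finset.range n, (-1 : ℤ) ^ i • (if i = m ∨ i = m + 1 then F i + v else F i) =
      ∑ i ∈ Finset.range n, (-1 : ℤ) ^ i • F i := by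
  have e : ∀ i ∈ Finset.range n, (-1 : ℤ) ^ i • (if i = m ∨ i = m + 1 then F i + v else F i) =
      (-1 : ℤ) ^ i • F i + ((if i = m then (-1 : ℤ) ^ m • v else 0) +
        (if i = m + 1 then (-1 : ℤ) ^ (m + 1) • v else 0)) := by
    intro i _
    by_cases h1 : i = m
    · have h2 : i ≠ m + 1 := by omega
      simp [h1]
    · by_cases h2 : i = m + 1
      · simp [h2]
      · simp [h1, h2]
  rw [Finset.sum_congr rfl e, Finset.sum_add_distrib, Finset.sum_add_distrib,
    Finset.sum_ite_eq', Finset.sum_ite_eq', if_pos (Finset.mem_range.2 (by omega)),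
    if_pos (Finset.mem_range.2 hm), pow_succ, mul_neg_one, neg_smul, add_neg_cancel, add_zero]

lemma ag_final (h : ag_KQ (0 : π) k R) (hk : 2 ≤ k)
    (h4 : ∀ a b c d, R (ag_T 0 a b c d) ↔ a + c + -(b + d) = 0) (m : ℕ) (hm : 2 ≤ m) :
    m ≤ k + 1 → ∀ F : ℕ → π, (∀ l, m < l → l ≤ k + 1 → F l = 0) →
      (R F ↔ ∑ i ∈ Finset.range (k + 2), (-1 : ℤ) ^ i • F i = 0) := by
  induction m, hm using Nat.le_induction with
  | base =>
    intro _ F hF
    have h1 : R F ↔ R (ag_T 0 (F 0) (F 1) (F 2) 0) := by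
      have e : ∀ l, l ≤ k + 1 → F l = ag_T 0 (F 0) (F 1) (F 2) 0 l := by
        intro l hl
        rcases l with _ | _ | _ | _ | l
        · rfl
        · rfl
        · rfl
        · exact hF 3 (by omega) hl
        · exact hF _ (by omega) hl
      exact ⟨h.congr _ _ e, h.congr _ _ (fun l hl => (e l hl).symm)⟩
    rw [h1, h4, show k + 2 = 3 + (k - 1) by omega, Finset.sum_range_add]
    have h2 : ∑ x ∈ Finset.range (k - 1), (-1 : ℤ) ^ (3 + x) • F (3 + x) = 0 := by
      apply Finset.sum_eq_zero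
      intro x hx
      rw [Finset.mem_range] at hx
      rw [hF (3 + x) (by omega) (by omega), smul_zero]
    rw [h2, Finset.sum_range_succ, Finset.sum_range_succ, Finset.sum_range_succ,
      Finset.sum_range_zero]
    have e : F 0 + F 2 + -(F 1 + 0) = 0 + (-1 : ℤ) ^ 0 • F 0 + (-1 : ℤ) ^ 1 • F 1
        + (-1 : ℤ) ^ 2 • F 2 + 0 := by
      norm_num
      abel
    rw [e]
  | succ m hm ih =>
    intro hmk F hF
    have ih' := ih (by omega) (fun l => if l = m ∨ l = m + 1 then F l + -F (m + 1) else F l) (by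
      intro l hl hl'
      by_cases h1 : l = m + 1
      · simp [h1]
      · have : ¬ (l = m ∨ l = m + 1) := by omega
        simp only [this, if_false]
        exact hF l (by omega) hl')
    rw [ag_sum_add (k + 2) m (by omega)] at ih'
    rw [← ih']
    constructor
    · exact ag_add h hk h4 hm (by omega) _ F
    · intro h5
      have h6 := ag_add h hk h4 hm (by omega) (F (m + 1)) _ h5
      refine h.congr _ _ ?_ h6
      intro l _
      by_cases hl : l = m ∨ l = m + 1
      · simp only [hl, if_true]; abel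
      · simp only [hl, if_false]

end shift

/-- (A1) the group lemma -/
theorem group_lemma {P : Type} (star : P) (k : ℕ) (hk : 2 ≤ k) (R : (Fin (k + 2) → P) → Prop)
    (K1 : ∀ (i : Fin (k + 2)) (F : Fin (k + 2) → P), ∃ G : P, R (Function.update F i G))
    (K2 : ∀ L : Fin (k + 3) → Fin (k + 3) → P, (∀ a b, L a b = L b a) → ∀ i,
      (∀ j, j ≠ i → R (fun l => L j (j.succAbove l))) → R (fun l => L i (i.succAbove l)))
    (K3 : ∀ (F : P) (i : Fin (k + 1)),
      R (fun l => if l = i.castSucc ∨ l = i.succ then F else star)) :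
    ∃ (π : Type) (_ : AddCommGroup π) (q : P → π), q star = 0 ∧ Function.Surjective q ∧
      ∀ F : Fin (k + 2) → P, R F ↔ ∑ i : Fin (k + 2), (-1 : ℤ) ^ (i : ℕ) • q (F i) = 0 := by
  have h := ag_KR_of_fin star k R K1 K2 K3
  obtain ⟨π, q, R', hq, hKQ, hiff⟩ := ag_quotient h
  obtain ⟨A, hz, h4⟩ := ag_comm_group hKQ hk
  have hz' : q star = (0 : π) := hz.symm
  rw [hz'] at hKQ
  rw [hz'] at h4
  refine ⟨π, A, q, hz', hq, ?_⟩
  intro F
  have h1 := hiff (fun l => if hl : l < k + 2 then F ⟨l, hl⟩ else star)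
  have h2 : (fun l : Fin (k + 2) => (fun l : ℕ => if hl : l < k + 2 then F ⟨l, hl⟩ else star) l)
      = F := by
    funext l
    simp
  have h3 : R F ↔ R' (fun l => q (if hl : l < k + 2 then F ⟨l, hl⟩ else star)) := by
    rw [← h1]
    show R F ↔ R (fun l : Fin (k + 2) =>
      (fun l : ℕ => if hl : l < k + 2 then F ⟨l, hl⟩ else star) l)
    rw [h2]
  rw [h3, ag_final hKQ hk h4 (k + 1) (by omega) le_rfl _ (fun l h1 h2 => by omega),
    ← Fin.sum_univ_eq_sum_range
      (fun i => (-1 : ℤ) ^ i • q (if hl : i < k + 2 then F ⟨i, hl⟩ else star))]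
  simp

end SimpVol
end

section

/-!
# MP_fa46d7_gt: homotopy group data from the Kan condition
-/

set_option autoImplicit false

open scoped Topology ENNReal NNReal ContDiff Manifold
open MeasureTheory

noncomputable section

namespace SimpVol

theorem ap_lt {p m : ℕ} (θ : Fin (p + 1) ↪o Fin (m + 1)) (a : Fin (m + 1))
    (h : ∀ b, θ b ≠ a) : p < m := by
  have h1 := Fintype.card_lt_of_injective_not_surjective θ θ.injective
    (fun hs => by obtain ⟨b, hb⟩ := hs a; exact h b hb)
  simp only [Fintype.card_fin] at h1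
  omega

theorem ap_eq_del {m : ℕ} (θ : Fin (m + 1) ↪o Fin (m + 2)) (a : Fin (m + 2))
    (h : ∀ b, θ b ≠ a) : θ = del a := by
  classical
  have h1 : Finset.univ.image θ = {a}ᶜ := by
    apply Finset.eq_of_subset_of_card_le
    · intro x hx
      obtain ⟨b, -, rfl⟩ := Finset.mem_image.1 hx
      rw [Finset.mem_compl, Finset.mem_singleton]
      exact h b
    · rw [Finset.card_image_of_injective _ θ.injective, Finset.card_compl]
      simp
  apply OrderEmbedding.range_inj.1
  ext x
  have h2 : x ∈ Set.range θ ↔ x ≠ a := by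
    have : x ∈ Finset.univ.image θ ↔ x ∈ ({a}ᶜ : Finset _) := by rw [h1]
    simpa using this
  rw [h2]
  constructor
  · intro hx
    obtain ⟨y, hy⟩ := Fin.exists_succAbove_eq hx
    exact ⟨y, hy⟩
  · rintro ⟨y, rfl⟩
    exact Fin.succAbove_ne a y

theorem ap_range {m : ℕ} (i j : Fin (m + 3)) (a : Fin (m + 2)) (ha : i.succAbove a = j)
    (x : Fin (m + 3)) : x ∈ Set.range ((del a).trans (del i)) ↔ x ≠ i ∧ x ≠ j := by
  constructor
  · rintro ⟨c, rfl⟩
    refine ⟨Fin.succAbove_ne _ _, ?_⟩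
    rw [← ha]
    intro h
    have h1 : a.succAbove c = a := Fin.succAbove_right_injective h
    exact Fin.succAbove_ne _ _ h1
  · rintro ⟨h1, h2⟩
    obtain ⟨y, rfl⟩ := Fin.exists_succAbove_eq h1
    have h3 : y ≠ a := by
      rintro rfl
      exact h2 ha
    obtain ⟨c, rfl⟩ := Fin.exists_succAbove_eq h3
    exact ⟨c, rfl⟩

theorem ap_swap {m : ℕ} (i j : Fin (m + 3)) (a b : Fin (m + 2)) (ha : i.succAbove a = j)
    (hb : j.succAbove b = i) : (del a).trans (del i) = (del b).trans (del j) := by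
  apply OrderEmbedding.range_inj.1
  ext x
  rw [ap_range i j a ha, ap_range j i b hb, and_comm]

/-- compatible faces: the case of equal faces, or the vertex missed by `θ` -/
theorem ap_miss {p m : ℕ} {l l' : Fin (m + 2)} {θ θ' : Fin (p + 1) ↪o Fin (m + 1)}
    (h : θ.trans (del l) = θ'.trans (del l')) {a : Fin (m + 1)} (ha : l.succAbove a = l')
    (b : Fin (p + 1)) : θ b ≠ a := by
  rintro rfl
  have h1 : (θ.trans (del l)) b = (θ'.trans (del l')) b := by rw [h]
  have h2 : l.succAbove (θ b) = l'.succAbove (θ' b) := h1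
  rw [ha] at h2
  exact Fin.succAbove_ne _ _ h2.symm

theorem ap_same {p m : ℕ} {l : Fin (m + 2)} {θ θ' : Fin (p + 1) ↪o Fin (m + 1)}
    (h : θ.trans (del l) = θ'.trans (del l)) : θ = θ' := by
  ext b : 1
  have h1 : (θ.trans (del l)) b = (θ'.trans (del l)) b := by rw [h]
  exact Fin.succAbove_right_injective (p := l) h1

/-- (A1) consequence: homotopy group data. -/
theorem piData_exists (X : DSet) (k : ℕ) (hk : 2 ≤ k) (hX : X.IsKan) (ht : X.TrivBelow k)
    (h3 : X.K3 k) : Nonempty (PiData X k) := by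
  classical
  have K1 : ∀ (i : Fin (k + 2)) (F : Fin (k + 2) → X.obj k), ∃ G : X.obj k,
      ∃ τ : X.obj (k + 1), ∀ l, X.d l τ = Function.update F i G l := by
    intro i F
    obtain ⟨τ, hτ⟩ := hX k i F (by
      intro l l' hl hl' p θ θ' hθ
      rcases eq_or_ne l l' with rfl | hne
      · rw [ap_same hθ]
      · obtain ⟨a, ha⟩ := Fin.exists_succAbove_eq hne.symm
        have hp : p < k := ap_lt θ a (ap_miss hθ ha)
        rw [ht p hp (X.face θ (F l)), ht p hp (X.face θ' (F l'))])
    refine ⟨X.d i τ, τ, fun l => ?_⟩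
    rcases eq_or_ne l i with rfl | hl
    · rw [Function.update_self]
    · rw [Function.update_of_ne hl]
      exact hτ l hl
  have K2 : ∀ L : Fin (k + 3) → Fin (k + 3) → X.obj k, (∀ a b, L a b = L b a) → ∀ i,
      (∀ j, j ≠ i → ∃ τ : X.obj (k + 1), ∀ l, X.d l τ = L j (j.succAbove l)) →
      ∃ τ : X.obj (k + 1), ∀ l, X.d l τ = L i (i.succAbove l) := by
    intro L hL i h
    have : Nonempty (X.obj (k + 1)) := ⟨X.base (k + 1)⟩
    choose! t ht' using h
    obtain ⟨T, hT⟩ := hX (k + 1) i t (by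
      intro l l' hl hl' p θ θ' hθ
      rcases eq_or_ne l l' with rfl | hne
      · rw [ap_same hθ]
      · obtain ⟨a, ha⟩ := Fin.exists_succAbove_eq hne.symm
        obtain ⟨a', ha'⟩ := Fin.exists_succAbove_eq hne
        have hp : p < k + 1 := ap_lt θ a (ap_miss hθ ha)
        rcases (Nat.lt_succ_iff_lt_or_eq.1 hp) with hp' | hp'
        · rw [ht p hp' (X.face θ (t l)), ht p hp' (X.face θ' (t l'))]
        · subst hp'
          have e1 : θ = del a := ap_eq_del θ a (ap_miss hθ ha)
          have e2 : θ' = del a' := ap_eq_del θ' a' (ap_miss hθ.symm ha')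
          have e3 := ht' l hl a
          have e4 := ht' l' hl' a'
          rw [DSet.d] at e3 e4
          rw [e1, e2, e3, e4, ha, ha', hL])
    refine ⟨X.d i T, fun l => ?_⟩
    have hne : i.succAbove l ≠ i := Fin.succAbove_ne _ _
    obtain ⟨b, hb⟩ := Fin.exists_succAbove_eq hne.symm
    have e1 := ht' _ hne b
    rw [← hT _ hne, hb] at e1
    rw [hL, ← e1]
    rw [DSet.d, DSet.d, DSet.d, DSet.d, X.face_comp, X.face_comp, ap_swap i _ l b rfl hb]
  have K3 : ∀ (F : X.obj k) (i : Fin (k + 1)), ∃ τ : X.obj (k + 1), ∀ l,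
      X.d l τ = (fun l : Fin (k + 2) => if l = i.castSucc ∨ l = i.succ then F else X.base k) l := by
    intro F i
    obtain ⟨τ, h1, h2, h3'⟩ := h3 F (fun p θ hp => ht p hp _) i
    refine ⟨τ, fun l => ?_⟩
    by_cases hl : l = i.castSucc ∨ l = i.succ
    · simp only [if_pos hl]
      rcases hl with rfl | rfl
      · exact h1
      · exact h2
    · simp only [if_neg hl]
      rw [not_or] at hl
      exact h3' l hl.1 hl.2
  obtain ⟨π, grp, q, hq0, hqs, hq⟩ := group_lemma (X.base k) k hk
    (fun F => ∃ τ : X.obj (k + 1), ∀ i, X.d i τ = F i) K1 K2 K3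
  exact ⟨⟨π, grp, q, hq0, hqs, hq⟩⟩

end SimpVol
end
end
end
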