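import Pool.Agent.Lib.MP_fa46d7_gt.Defs
import Pool.Agent.Lib.MP_fa46d7_gt.APi

section

/-! SV-30: alternation and boundary vanishing -/

set_option autoImplicit false

open scoped Topology ENNReal NNReal ContDiff Manifold
open MeasureTheory

noncomputable section

namespace SimpVol

section General

variable {V : Type*} [AddCommGroup V] [Module ℝ V] {I : Type*}

theorem ba_zero_of_eq_neg {v : V} (h : v = -v) : v = 0 := by
  have h1 : (2 : ℝ) • v = 0 := by
    rw [two_smul]
    nth_rewrite 1 [h]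
    exact neg_add_cancel v
  exact (smul_eq_zero.1 h1).resolve_left two_ne_zero

/-- alternating functions of tuples -/
def ba_Alt {n : ℕ} (G : (Fin n → I) → V) : Prop :=
  ∀ (t : Fin n → I) (π : Equiv.Perm (Fin n)), G (t ∘ π) = (Equiv.Perm.sign π : ℝ) • G t

/-- the alternating sum of the faces -/
def ba_bd {n : ℕ} (G : (Fin n → I) → V) (t : Fin (n + 1) → I) : V :=
  ∑ i : Fin (n + 1), (-1 : ℝ) ^ (i : ℕ) • G (t ∘ Fin.succAbove i)

theorem ba_swap_comp {n : ℕ} (k : Fin n) :
    (Equiv.swap k.castSucc k.succ : Equiv.Perm (Fin (n + 1))) ∘ Fin.succAbove k.castSucc =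
      Fin.succAbove k.succ := by
  funext m
  simp only [Function.comp_apply]
  rcases lt_trichotomy m k with h | h | h
  · rw [Fin.succAbove_of_castSucc_lt _ _ (Fin.castSucc_lt_castSucc_iff.2 h),
      Fin.succAbove_of_castSucc_lt _ _ (Fin.castSucc_lt_succ_iff.2 h.le),
      Equiv.swap_apply_of_ne_of_ne]
    · exact fun e => h.ne (Fin.castSucc_injective _ e)
    · intro e
      have := congrArg Fin.val e
      simp only [Fin.val_castSucc, Fin.val_succ] at this
      have h' : (m : ℕ) < k := h
      omega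
  · subst h
    rw [Fin.succAbove_castSucc_self, Fin.succAbove_succ_self, Equiv.swap_apply_right]
  · rw [Fin.succAbove_of_le_castSucc _ _ (Fin.castSucc_le_castSucc_iff.2 h.le),
      Fin.succAbove_of_le_castSucc _ _ (by rw [Fin.le_castSucc_iff]; exact Fin.succ_lt_succ_iff.2 h),
      Equiv.swap_apply_of_ne_of_ne]
    · intro e
      have := congrArg Fin.val e
      simp only [Fin.val_castSucc, Fin.val_succ] at this
      have h' : (k : ℕ) < m := h
      omega
    · exact fun e => h.ne' (Fin.succ_injective _ e)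

theorem ba_bd_swap {n : ℕ} {G : (Fin n → I) → V} (hG : ba_Alt G) (t : Fin (n + 1) → I)
    (k : Fin n) :
    ba_bd G (t ∘ (Equiv.swap k.castSucc k.succ : Equiv.Perm (Fin (n + 1)))) = - ba_bd G t := by
  set σ : Equiv.Perm (Fin (n + 1)) := Equiv.swap k.castSucc k.succ with hσ
  have hab : k.castSucc ≠ k.succ := Fin.castSucc_lt_succ.ne
  unfold ba_bd
  rw [← Equiv.sum_comp σ (fun i => (-1 : ℝ) ^ (i : ℕ) • G (t ∘ Fin.succAbove i)),
    ← Finset.sum_neg_distrib]
  refine Finset.sum_congr rfl fun i _ => ?_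
  by_cases hi1 : i = k.castSucc
  · subst hi1
    have e1 : σ k.castSucc = k.succ := by rw [hσ, Equiv.swap_apply_left]
    rw [e1, Function.comp_assoc, hσ, ba_swap_comp]
    simp only [Fin.val_castSucc, Fin.val_succ, pow_succ, mul_neg, mul_one, neg_smul, neg_neg]
  by_cases hi2 : i = k.succ
  · subst hi2
    have e1 : σ k.succ = k.castSucc := by rw [hσ, Equiv.swap_apply_right]
    have e2 : (σ : Fin (n + 1) → Fin (n + 1)) ∘ Fin.succAbove k.succ =
        Fin.succAbove k.castSucc := by
      rw [← ba_swap_comp, ← Function.comp_assoc]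
      have : (σ : Fin (n + 1) → Fin (n + 1)) ∘ σ = id := by
        funext x
        rw [hσ]
        simp
      rw [← hσ, this, Function.id_comp]
    rw [e1, Function.comp_assoc, e2]
    simp only [Fin.val_castSucc, Fin.val_succ, pow_succ, mul_neg, mul_one, neg_smul]
  · have e1 : σ i = i := by rw [hσ, Equiv.swap_apply_of_ne_of_ne hi1 hi2]
    obtain ⟨a', ha'⟩ := Fin.exists_succAbove_eq (Ne.symm hi1)
    obtain ⟨b', hb'⟩ := Fin.exists_succAbove_eq (Ne.symm hi2)
    have hne : a' ≠ b' := by
      intro e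
      apply hab
      rw [← ha', ← hb', e]
    have e2 : (σ : Fin (n + 1) → Fin (n + 1)) ∘ Fin.succAbove i =
        Fin.succAbove i ∘ (Equiv.swap a' b' : Equiv.Perm (Fin n)) := by
      funext m
      simp only [Function.comp_apply]
      rw [Function.Injective.map_swap (Fin.succAbove_right_injective (p := i)), ha', hb', hσ]
    rw [e1, Function.comp_assoc, e2, ← Function.comp_assoc, hG, Equiv.Perm.sign_swap hne]
    simp

theorem ba_Alt.bd {n : ℕ} {G : (Fin n → I) → V} (hG : ba_Alt G) : ba_Alt (ba_bd G) := by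
  intro t π
  have hπ : π ∈ (⊤ : Submonoid (Equiv.Perm (Fin (n + 1)))) := Submonoid.mem_top π
  rw [← Equiv.Perm.mclosure_swap_castSucc_succ] at hπ
  induction hπ using Submonoid.closure_induction generalizing t with
  | mem x hx =>
    obtain ⟨k, rfl⟩ := hx
    rw [ba_bd_swap hG, Equiv.Perm.sign_swap (Fin.castSucc_lt_succ (i := k)).ne]
    simp
  | one => simp
  | mul x y _ _ hx hy =>
    have e : t ∘ ((x * y : Equiv.Perm (Fin (n + 1))) : Fin (n + 1) → Fin (n + 1)) =
        (t ∘ x) ∘ y := rfl
    rw [e, hy, hx, Equiv.Perm.sign_mul, smul_smul]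
    congr 1
    push_cast
    ring

theorem ba_Alt.eq_zero {n : ℕ} {G : (Fin n → I) → V} (hG : ba_Alt G) {t : Fin n → I}
    (ht : ¬ Function.Injective t) : G t = 0 := by
  rw [Function.Injective] at ht
  push Not at ht
  obtain ⟨a, b, hab, hne⟩ := ht
  apply ba_zero_of_eq_neg
  have h := hG t (Equiv.swap a b)
  have e : t ∘ (Equiv.swap a b : Equiv.Perm (Fin n)) = t := by
    funext x
    simp only [Function.comp_apply, Equiv.swap_apply_def]
    split_ifs with h1 h2
    · rw [h1, hab]
    · rw [h2, hab]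
    · rfl
  rw [e, Equiv.Perm.sign_swap hne] at h
  simpa using h

/-- the simplicial identity -/
theorem ba_bd_bd {n : ℕ} (G : (Fin n → I) → V) (t : Fin (n + 2) → I) :
    ∑ i : Fin (n + 2), (-1 : ℝ) ^ (i : ℕ) • ba_bd G (t ∘ Fin.succAbove i) = 0 := by
  set H : Fin (n + 2) × Fin (n + 1) → V := fun q =>
    (-1 : ℝ) ^ ((q.1 : ℕ) + (q.2 : ℕ)) • G ((t ∘ Fin.succAbove q.1) ∘ Fin.succAbove q.2) with hH
  have h1 : ∑ i : Fin (n + 2), (-1 : ℝ) ^ (i : ℕ) • ba_bd G (t ∘ Fin.succAbove i) =
      ∑ q, H q := by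
    rw [Fintype.sum_prod_type]
    refine Finset.sum_congr rfl fun i _ => ?_
    rw [ba_bd, Finset.smul_sum]
    refine Finset.sum_congr rfl fun l _ => ?_
    rw [smul_smul, ← pow_add]
  rw [h1]
  have hinv : Function.Involutive (fun q : Fin (n + 2) × Fin (n + 1) =>
      (q.1.succAbove q.2, q.2.predAbove q.1)) := by
    rintro ⟨i, l⟩
    simp only [Fin.succAbove_succAbove_predAbove, Fin.predAbove_predAbove_succAbove]
  apply ba_zero_of_eq_neg
  rw [← Finset.sum_neg_distrib]
  rw [← Equiv.sum_comp hinv.toPerm H]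
  refine Finset.sum_congr rfl fun q _ => ?_
  obtain ⟨i, l⟩ := q
  show H (i.succAbove l, l.predAbove i) = - H (i, l)
  rw [hH]
  simp only
  rw [Fin.neg_one_pow_succAbove_add_predAbove, neg_smul]
  congr 3
  funext k
  simp only [Function.comp_apply]
  rw [Fin.succAbove_succAbove_succAbove_predAbove]

end General

variable {M : Type} [MetricSpace M] [Nonempty M] {N : ℕ} {C : ℝ}
  {I : Type} [LinearOrder I] [Fintype I]

/-- (B5.1) alternation -/
theorem psi_alt (K : ∀ x : M, Contr (liftSet x) N C) (s : ∀ x y : M, Hm x y)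
    (A : ℕ → Set (Finset I)) (l : ℕ → Finset I → M) (j : ℕ) (t : Fin (j + 1) → I) (a : M)
    (π : Equiv.Perm (Fin (j + 1))) :
    Psi K s A l j (t ∘ π) a = (Equiv.Perm.sign π : ℝ) • Psi K s A l j t a := by
  classical
  induction j with
  | zero =>
    have : π = 1 := Subsingleton.elim (α := Equiv.Perm (Fin 1)) _ _
    subst this
    simp
  | succ j ih =>
    have hi : Finset.univ.image (t ∘ π) = Finset.univ.image t := by
      ext x
      simp only [Finset.mem_image, Finset.mem_univ, true_and, Function.comp_apply]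
      constructor
      · rintro ⟨y, hy⟩
        exact ⟨π y, hy⟩
      · rintro ⟨y, hy⟩
        exact ⟨π.symm y, by rw [Equiv.apply_symm_apply]; exact hy⟩
    rw [Psi, Psi]
    by_cases h : Function.Injective t ∧ Finset.univ.image t ∈ A (j + 1)
    · have h' : Function.Injective (t ∘ π) ∧ Finset.univ.image (t ∘ π) ∈ A (j + 1) :=
        ⟨h.1.comp π.injective, by rw [hi]; exact h.2⟩
      rw [if_pos h, if_pos h', hi]
      have hG : ba_Alt (fun t' : Fin (j + 1) → I => (Psi K s A l j t' a).comp
          (kop K (s a (l (j + 1) (Finset.univ.image t))) j)) := by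
        intro t' ρ
        simp only
        rw [ih, LinearMap.smul_comp]
      exact hG.bd t π
    · have h' : ¬ (Function.Injective (t ∘ π) ∧ Finset.univ.image (t ∘ π) ∈ A (j + 1)) := by
        rintro ⟨h1, h2⟩
        rw [hi] at h2
        refine h ⟨?_, h2⟩
        have : t = (t ∘ π) ∘ π.symm := by
          funext x
          simp
        rw [this]
        exact h1.comp π.symm.injective
      rw [if_neg h, if_neg h', smul_zero]

/-- (B5.2) -/
theorem psi_boundary_zero (K : ∀ x : M, Contr (liftSet x) N C) (s : ∀ x y : M, Hm x y)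
    (A : ℕ → Set (Finset I)) (l : ℕ → Finset I → M) (hA0 : A 0 = {S | S.card = 1})
    (hA : ∀ j, A (j + 1) = nextSet j (A j) (l j)) (j : ℕ) (t : Fin (j + 2) → I) (a : M)
    (ht : ¬ (Function.Injective t ∧ Finset.univ.image t ∈ A (j + 1))) :
    ∑ i : Fin (j + 2), (-1 : ℝ) ^ (i : ℕ) • Psi K s A l j (t ∘ Fin.succAbove i) a = 0 := by
  classical
  induction j with
  | zero =>
    by_cases hinj : Function.Injective t
    swap
    · exact ba_Alt.eq_zero (ba_Alt.bd (G := fun t' => Psi K s A l 0 t' a)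
        (fun t' ρ => psi_alt K s A l 0 t' a ρ)) hinj
    have h1 : ∀ t' : Fin 1 → I, Psi K s A l 0 t' a =
        (fun x => evB (tr (s a x) ((liftSet x).base 0))) (l 0 {t' 0}) := fun t' => rfl
    have hS : Finset.univ.image t ∉ nextSet 0 (A 0) (l 0) := by
      rw [← hA]
      exact fun h => ht ⟨hinj, h⟩
    have h01 : t 0 ≠ t 1 := fun e => absurd (hinj e) (by decide)
    have him : Finset.univ.image t = {t 0, t 1} := by
      ext x
      simp only [Finset.mem_image, Finset.mem_univ, true_and, Finset.mem_insert,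
        Finset.mem_singleton]
      constructor
      · rintro ⟨y, rfl⟩
        obtain rfl | rfl : y = 0 ∨ y = 1 := by
          revert y
          decide
        · exact Or.inl rfl
        · exact Or.inr rfl
      · rintro (rfl | rfl)
        · exact ⟨0, rfl⟩
        · exact ⟨1, rfl⟩
    have hl : l 0 {t 1} = l 0 {t 0} := by
      by_contra hne
      apply hS
      rw [him]
      have e0 : ({t 0, t 1} : Finset I).erase (t 0) = {t 1} := by
        ext x
        simp only [Finset.mem_erase, Finset.mem_insert, Finset.mem_singleton]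
        constructor
        · tauto
        · rintro rfl
          exact ⟨h01.symm, Or.inr rfl⟩
      have e1 : ({t 0, t 1} : Finset I).erase (t 1) = {t 0} := by
        ext x
        simp only [Finset.mem_erase, Finset.mem_insert, Finset.mem_singleton]
        constructor
        · tauto
        · rintro rfl
          exact ⟨h01, Or.inl rfl⟩
      refine ⟨Finset.card_pair h01, t 0, by simp, t 1, by simp, ?_, ?_, ?_⟩
      · rw [e0, hA0]
        exact Finset.card_singleton _
      · rw [e1, hA0]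
        exact Finset.card_singleton _
      · rw [e0, e1]
        exact hne
    rw [Fin.sum_univ_two, h1, h1]
    have e0 : (t ∘ Fin.succAbove (0 : Fin 2)) 0 = t 1 := rfl
    have e1 : (t ∘ Fin.succAbove (1 : Fin 2)) 0 = t 0 := rfl
    rw [e0, e1, hl]
    ext f
    simp only [Fin.val_zero, Fin.val_one, pow_zero, pow_one, LinearMap.add_apply,
      LinearMap.smul_apply, LinearMap.zero_apply, smul_eq_mul]
    ring
  | succ j ih =>
    by_cases hinj : Function.Injective t
    swap
    · exact ba_Alt.eq_zero (ba_Alt.bd (G := fun t' => Psi K s A l (j + 1) t' a)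
        (fun t' ρ => psi_alt K s A l (j + 1) t' a ρ)) hinj
    set S := Finset.univ.image t with hSdef
    have hS : S ∉ nextSet (j + 1) (A (j + 1)) (l (j + 1)) := by
      rw [← hA]
      exact fun h => ht ⟨hinj, h⟩
    have hcard : S.card = j + 1 + 2 := by
      rw [hSdef, Finset.card_image_of_injective _ hinj, Finset.card_univ, Fintype.card_fin]
    have himg : ∀ i : Fin (j + 1 + 2), Finset.univ.image (t ∘ Fin.succAbove i) =
        S.erase (t i) := by
      intro i
      ext x
      rw [hSdef]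
      simp only [Finset.mem_image, Finset.mem_univ, true_and, Function.comp_apply,
        Finset.mem_erase]
      constructor
      · rintro ⟨y, rfl⟩
        exact ⟨fun e => Fin.succAbove_ne i y (hinj e), _, rfl⟩
      · rintro ⟨hx, y, rfl⟩
        obtain ⟨z, hz⟩ := Fin.exists_succAbove_eq (fun e : y = i => hx (by rw [e]))
        exact ⟨z, by rw [hz]⟩
    have hlab : ∀ i i' : Fin (j + 1 + 2), S.erase (t i) ∈ A (j + 1) → S.erase (t i') ∈ A (j + 1) →
        l (j + 1) (S.erase (t i)) = l (j + 1) (S.erase (t i')) := by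
      intro i i' h h'
      by_contra hne
      exact hS ⟨hcard, t i, Finset.mem_image_of_mem _ (Finset.mem_univ _), t i',
        Finset.mem_image_of_mem _ (Finset.mem_univ _), h, h', hne⟩
    by_cases hex : ∃ i₀ : Fin (j + 1 + 2), S.erase (t i₀) ∈ A (j + 1)
    swap
    · push Not at hex
      refine Finset.sum_eq_zero fun i _ => ?_
      rw [Psi, if_neg, smul_zero]
      rw [himg]
      exact fun h => hex i h.2
    obtain ⟨i₀, hi₀⟩ := hex
    set x := l (j + 1) (S.erase (t i₀)) with hx
    have hPsi : ∀ i : Fin (j + 1 + 2), Psi K s A l (j + 1) (t ∘ Fin.succAbove i) a =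
        (ba_bd (fun t' : Fin (j + 1) → I => Psi K s A l j t' a) (t ∘ Fin.succAbove i)).comp
          (kop K (s a x) j) := by
      intro i
      have hti : Function.Injective (t ∘ Fin.succAbove i) :=
        hinj.comp Fin.succAbove_right_injective
      by_cases hi : S.erase (t i) ∈ A (j + 1)
      · rw [Psi, if_pos ⟨hti, by rw [himg]; exact hi⟩, himg, hlab i i₀ hi hi₀, ← hx, ba_bd]
        ext f
        simp only [LinearMap.sum_apply, LinearMap.smul_apply, LinearMap.comp_apply]
      · have h0 := ih (t ∘ Fin.succAbove i) (by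
          rw [himg]
          exact fun h => hi h.2)
        rw [Psi, if_neg (by rw [himg]; exact fun h => hi h.2), ba_bd, h0, LinearMap.zero_comp]
    have h2 : ∑ i : Fin (j + 1 + 2), (-1 : ℝ) ^ (i : ℕ) •
        Psi K s A l (j + 1) (t ∘ Fin.succAbove i) a =
        (∑ i : Fin (j + 1 + 2), (-1 : ℝ) ^ (i : ℕ) •
          ba_bd (fun t' : Fin (j + 1) → I => Psi K s A l j t' a) (t ∘ Fin.succAbove i)).comp
          (kop K (s a x) j) := by
      ext f
      simp only [LinearMap.sum_apply, LinearMap.smul_apply, LinearMap.comp_apply, hPsi]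
    rw [h2, ba_bd_bd, LinearMap.zero_comp]

end SimpVol
end
end

section

/-!
# Part E: packing, separated nets
-/

set_option autoImplicit false

open scoped Topology ENNReal NNReal ContDiff Manifold
open MeasureTheory

noncomputable section

namespace SimpVol

section PartE

variable {M : Type} [MetricSpace M]

/-- (E1) -/
theorem packing {n : ℕ} {L R : ℝ} (h : LB n L R M) {t s : ℝ} (ht : 0 < t) (hts : t ≤ s)
    (hs : s ≤ R) (q : M) (E : Finset M) (hE : ∀ x ∈ E, x ∈ Metric.ball q s)
    (hsep : ∀ x ∈ E, ∀ y ∈ E, x ≠ y → t ≤ dist x y) : (E.card : ℝ) ≤ (6 * L ^ 2 * s / t) ^ n := by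
  obtain ⟨hL, hR, hch⟩ := h
  obtain ⟨φ, hφ⟩ := hch q
  have hL0 : 0 < L := lt_of_lt_of_le one_pos hL
  have hER : ∀ x ∈ E, x ∈ Metric.ball q R := fun x hx => Metric.ball_subset_ball hs (hE x hx)
  have hqR : q ∈ Metric.ball q R := Metric.mem_ball_self hR
  set a : ℝ := 2 * L / t with ha
  have ha0 : 0 < a := by positivity
  set b : ℝ := 2 * L ^ 2 * s / t with hb
  have hb2 : 2 ≤ b := by
    rw [hb, le_div_iff₀ ht]
    have h1 : 1 ≤ L ^ 2 := one_le_pow₀ hL
    nlinarith
  have hbound : ∀ x ∈ E, ∀ i, |φ x i * a| ≤ b := by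
    intro x hx i
    have h1 : dist (φ x) (φ q) ≤ L * dist x q := hφ.upper x (hER x hx) q hqR
    rw [hφ.zero, dist_zero_right] at h1
    have h2 : |φ x i| ≤ ‖φ x‖ := by
      have := norm_le_pi_norm (φ x) i
      rwa [Real.norm_eq_abs] at this
    have h3 : dist x q ≤ s := (Metric.mem_ball.1 (hE x hx)).le
    rw [abs_mul, abs_of_pos ha0]
    calc |φ x i| * a ≤ (L * s) * a :=
          mul_le_mul_of_nonneg_right
            (h2.trans (h1.trans (mul_le_mul_of_nonneg_left h3 hL0.le))) ha0.le
      _ = b := by rw [ha, hb]; ring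
  have hcard : E.card ≤ (Fintype.piFinset (fun _ : Fin n => Finset.Icc ⌊-b⌋ ⌊b⌋)).card := by
    refine Finset.card_le_card_of_injOn (fun x i => ⌊φ x i * a⌋) ?_ ?_
    · intro x hx
      rw [Finset.mem_coe, Fintype.mem_piFinset]
      intro i
      obtain ⟨h1, h2⟩ := abs_le.1 (hbound x hx i)
      exact Finset.mem_Icc.2 ⟨Int.floor_le_floor h1, Int.floor_le_floor h2⟩
    · intro x hx y hy hxy
      by_contra hne
      have h1 := hsep x hx y hy hne
      have h2 : dist (φ x) (φ y) ≤ 1 / a := by
        rw [dist_pi_le_iff (by positivity)]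
        intro i
        have h3 : ⌊φ x i * a⌋ = ⌊φ y i * a⌋ := congrFun hxy i
        have h4 := Int.abs_sub_lt_one_of_floor_eq_floor h3
        rw [← sub_mul, abs_mul, abs_of_pos ha0] at h4
        rw [Real.dist_eq, le_div_iff₀ ha0]
        exact h4.le
      have h5 := hφ.lower x (hER x hx) y (hER y hy)
      have h6 : L * dist (φ x) (φ y) ≤ L * (1 / a) := mul_le_mul_of_nonneg_left h2 hL0.le
      have h7 : L * (1 / a) = t / 2 := by rw [ha]; field_simp
      linarith
  rw [Fintype.card_piFinset, Finset.prod_const, Finset.card_univ, Fintype.card_fin,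
    Int.card_Icc] at hcard
  have h1 : ((⌊b⌋ + 1 - ⌊-b⌋).toNat : ℝ) ≤ 3 * b := by
    have h2 : (⌊b⌋ : ℝ) ≤ b := Int.floor_le b
    have h3 : -b - 1 < (⌊-b⌋ : ℝ) := Int.sub_one_lt_floor (-b)
    have h4 : (0 : ℤ) ≤ ⌊b⌋ + 1 - ⌊-b⌋ := by
      have h5 : ⌊-b⌋ ≤ ⌊b⌋ := Int.floor_le_floor (by linarith)
      omega
    have h6 : ((⌊b⌋ + 1 - ⌊-b⌋).toNat : ℝ) = ((⌊b⌋ + 1 - ⌊-b⌋ : ℤ) : ℝ) := by
      exact_mod_cast congrArg (Int.cast : ℤ → ℝ) (Int.toNat_of_nonneg h4)
    rw [h6]
    push_cast
    linarith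
  calc (E.card : ℝ) ≤ (((⌊b⌋ + 1 - ⌊-b⌋).toNat ^ n : ℕ) : ℝ) := by exact_mod_cast hcard
    _ = ((⌊b⌋ + 1 - ⌊-b⌋).toNat : ℝ) ^ n := by push_cast; rfl
    _ ≤ (3 * b) ^ n := pow_le_pow_left₀ (by positivity) h1 n
    _ = (6 * L ^ 2 * s / t) ^ n := by congr 1; rw [hb]; ring

/-- maximal separated sets in compact spaces -/
theorem sep_net [CompactSpace M] {t : ℝ} (ht : 0 < t) :
    ∃ E : Finset M, (∀ x ∈ E, ∀ y ∈ E, x ≠ y → t ≤ dist x y) ∧ ∀ v, ∃ x ∈ E, dist v x < t := by
  classical
  obtain ⟨F, -, hFfin, hF⟩ :=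
    finite_cover_balls_of_compact (isCompact_univ (X := M)) (half_pos ht)
  set S : Set ℕ := {m | ∃ E : Finset M, (∀ x ∈ E, ∀ y ∈ E, x ≠ y → t ≤ dist x y) ∧ E.card = m}
    with hS
  have hbd : BddAbove S := by
    refine ⟨hFfin.toFinset.card, ?_⟩
    rintro m ⟨E, hE, rfl⟩
    have hc : ∀ x : M, ∃ c ∈ F, dist x c < t / 2 := by
      intro x
      have := hF (Set.mem_univ x)
      simp only [Set.mem_iUnion, Metric.mem_ball, exists_prop] at this
      exact this
    choose c hcF hcd using hc
    refine Finset.card_le_card_of_injOn c (fun x _ => hFfin.mem_toFinset.2 (hcF x)) ?_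
    intro x hx y hy hxy
    by_contra hne
    have h1 := hE x hx y hy hne
    have h2 := hcd x
    have h3 := hcd y
    rw [← hxy] at h3
    have h4 := dist_triangle_right x y (c x)
    linarith
  have hne : S.Nonempty := ⟨0, ∅, by simp, rfl⟩
  obtain ⟨E, hE, hcard⟩ := Nat.sSup_mem hne hbd
  refine ⟨E, hE, fun v => ?_⟩
  by_contra hcon
  push Not at hcon
  have hv : v ∉ E := by
    intro hv
    have := hcon v hv
    rw [dist_self] at this
    linarith
  have hmem : E.card + 1 ∈ S := by
    refine ⟨insert v E, ?_, Finset.card_insert_of_notMem hv⟩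
    intro x hx y hy hxy
    rcases Finset.mem_insert.1 hx with rfl | hx'
    · rcases Finset.mem_insert.1 hy with rfl | hy'
      · exact absurd rfl hxy
      · exact hcon y hy'
    · rcases Finset.mem_insert.1 hy with rfl | hy'
      · rw [dist_comm]; exact hcon x hx'
      · exact hE x hx' y hy' hxy
  have := le_csSup hbd hmem
  omega

end PartE

end SimpVol

end
end

section

/-!
# MP_fa46d7_gt, SV-36: nets with generic radii (E3)
-/

set_option autoImplicit false

open scoped Topology ENNReal NNReal ContDiff Manifold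
open MeasureTheory

noncomputable section

namespace SimpVol

/-- at most two of the candidates are close to a given number -/
private theorem er_two (x ε : ℝ) (J : ℕ) (hε : 0 < ε) (hJ : 1 ≤ J) :
    open Classical in ((Finset.range J).filter
      (fun k : ℕ => |x - ε * (1 + (k : ℝ) / J)| ≤ 2 * (1 / (4 * (J : ℝ)) * ε))).card ≤ 2 := by
  classical
  by_contra hcon
  rw [not_le, Finset.two_lt_card_iff] at hcon
  obtain ⟨a, b, c, ha, hb, hc, hab, hac, hbc⟩ := hcon
  have hJ0 : (0 : ℝ) < J := by exact_mod_cast hJ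
  have key : ∀ a b : ℕ, |x - ε * (1 + (a : ℝ) / J)| ≤ 2 * (1 / (4 * (J : ℝ)) * ε) →
      |x - ε * (1 + (b : ℝ) / J)| ≤ 2 * (1 / (4 * (J : ℝ)) * ε) → (a : ℝ) ≤ b + 1 := by
    intro a b ha hb
    rw [abs_le] at ha hb
    have h1 : ε * ((a : ℝ) / J) - ε * ((b : ℝ) / J) ≤ 4 * (1 / (4 * (J : ℝ)) * ε) := by
      linarith [ha.1, hb.2]
    have h2 : ε * ((a : ℝ) / J) - ε * ((b : ℝ) / J) = (ε / J) * ((a : ℝ) - b) := by
      field_simp
    have h3 : 4 * (1 / (4 * (J : ℝ)) * ε) = (ε / J) * 1 := by
      field_simp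
    rw [h2, h3] at h1
    have h4 := le_of_mul_le_mul_left h1 (by positivity)
    linarith
  have k1 := key a b (Finset.mem_filter.1 ha).2 (Finset.mem_filter.1 hb).2
  have k2 := key b a (Finset.mem_filter.1 hb).2 (Finset.mem_filter.1 ha).2
  have k3 := key a c (Finset.mem_filter.1 ha).2 (Finset.mem_filter.1 hc).2
  have k4 := key c a (Finset.mem_filter.1 hc).2 (Finset.mem_filter.1 ha).2
  have k5 := key b c (Finset.mem_filter.1 hb).2 (Finset.mem_filter.1 hc).2
  have k6 := key c b (Finset.mem_filter.1 hc).2 (Finset.mem_filter.1 hb).2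
  have k1' : a ≤ b + 1 := by exact_mod_cast k1
  have k2' : b ≤ a + 1 := by exact_mod_cast k2
  have k3' : a ≤ c + 1 := by exact_mod_cast k3
  have k4' : c ≤ a + 1 := by exact_mod_cast k4
  have k5' : b ≤ c + 1 := by exact_mod_cast k5
  have k6' : c ≤ b + 1 := by exact_mod_cast k6
  omega

open Classical in
private theorem er_sum {α : Type} (J : ℕ) (T : Finset α) (cond : α → ℕ → Prop)
    (h2 : ∀ e, ((Finset.range J).filter (cond e)).card ≤ 2) :
    ∑ k ∈ Finset.range J, (T.filter (fun e => cond e k)).card ≤ 2 * T.card := by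
  have h1 : ∑ k ∈ Finset.range J, (T.filter (fun e => cond e k)).card
      = ∑ e ∈ T, ((Finset.range J).filter (cond e)).card := by
    simp only [Finset.card_filter]
    rw [Finset.sum_comm]
  rw [h1]
  calc ∑ e ∈ T, ((Finset.range J).filter (cond e)).card ≤ ∑ _e ∈ T, 2 :=
        Finset.sum_le_sum (fun e _ => h2 e)
    _ = 2 * T.card := by rw [Finset.sum_const, smul_eq_mul, mul_comm]

open Classical in
private theorem er_bad {α : Type} (J D : ℕ) (T : Finset α) (cond : α → ℕ → Prop)
    (h2 : ∀ e, ((Finset.range J).filter (cond e)).card ≤ 2) :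
    ((Finset.range J).filter
      (fun k => 2 ^ (D + 2) * T.card < J * (T.filter (fun e => cond e k)).card)).card * 2 ^ (D + 1)
      ≤ J := by
  set B := (Finset.range J).filter
      (fun k => 2 ^ (D + 2) * T.card < J * (T.filter (fun e => cond e k)).card) with hB
  rcases Nat.eq_zero_or_pos T.card with h0 | h0
  · have hBe : B = ∅ := by
      rw [hB, Finset.filter_eq_empty_iff]
      intro k _
      have : (T.filter (fun e => cond e k)).card ≤ T.card := Finset.card_filter_le _ _
      rw [h0] at this ⊢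
      simp only [Nat.le_zero] at this
      rw [this]
      simp
    rw [hBe]
    simp
  · have h3 : B.card * (2 ^ (D + 2) * T.card) ≤
        ∑ k ∈ B, J * (T.filter (fun e => cond e k)).card := by
      rw [← smul_eq_mul]
      apply Finset.card_nsmul_le_sum
      intro k hk
      rw [hB, Finset.mem_filter] at hk
      exact hk.2.le
    have h4 : ∑ k ∈ B, J * (T.filter (fun e => cond e k)).card ≤ J * (2 * T.card) := by
      rw [← Finset.mul_sum]
      apply Nat.mul_le_mul_left
      refine le_trans (Finset.sum_le_sum_of_subset (Finset.filter_subset _ _)) (er_sum J T cond h2)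
    have h5 := le_trans h3 h4
    have h6 : (B.card * 2 ^ (D + 1)) * (2 * T.card) ≤ J * (2 * T.card) := by
      calc (B.card * 2 ^ (D + 1)) * (2 * T.card) = B.card * (2 ^ (D + 2) * T.card) := by ring
        _ ≤ _ := h5
    exact Nat.le_of_mul_le_mul_right h6 (by omega)

open Classical in
private theorem er_choose {α ι : Type} (J D : ℕ) (hJ : 1 ≤ J) (P : Finset ι)
    (hP : P.card ≤ 2 ^ D) (T : ι → Finset α) (cond : α → ℕ → Prop)
    (h2 : ∀ e, ((Finset.range J).filter (cond e)).card ≤ 2) :
    ∃ k, k < J ∧ ∀ S ∈ P, J * ((T S).filter (fun e => cond e k)).card ≤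
      2 ^ (D + 2) * (T S).card := by
  by_contra hcon
  push Not at hcon
  set B : ι → Finset ℕ := fun S => (Finset.range J).filter
      (fun k => 2 ^ (D + 2) * (T S).card < J * ((T S).filter (fun e => cond e k)).card) with hB
  have h1 : Finset.range J ⊆ P.biUnion B := by
    intro k hk
    obtain ⟨S, hS, hlt⟩ := hcon k (Finset.mem_range.1 hk)
    rw [Finset.mem_biUnion]
    exact ⟨S, hS, Finset.mem_filter.2 ⟨hk, hlt⟩⟩
  have h3 : J ≤ ∑ S ∈ P, (B S).card := by
    calc J = (Finset.range J).card := (Finset.card_range J).symm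
      _ ≤ (P.biUnion B).card := Finset.card_le_card h1
      _ ≤ _ := Finset.card_biUnion_le
  have h4 : (∑ S ∈ P, (B S).card) * 2 ^ (D + 1) ≤ P.card * J := by
    rw [Finset.sum_mul, ← smul_eq_mul]
    apply Finset.sum_le_card_nsmul
    intro S _
    exact er_bad J D (T S) cond h2
  have h5 : J * 2 ^ (D + 1) ≤ 2 ^ D * J :=
    le_trans (Nat.mul_le_mul_right _ h3) (le_trans h4 (Nat.mul_le_mul_right _ hP))
  have h6 : J * 2 ^ (D + 1) = 2 * (2 ^ D * J) := by ring
  have h7 : 0 < 2 ^ D * J := by positivity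
  omega

section Seq

variable {M : Type} [MetricSpace M]

open Classical in
/-- points of `E` near the spheres with index in `S` -/
private def erX {K : ℕ} (E : Finset M) (y : Fin K → M) (d : ℝ) (ρ : Fin K → ℝ)
    (S : Finset (Fin K)) : Finset M :=
  E.filter (fun e => ∀ i ∈ S, |dist e (y i) - ρ i| ≤ d)

open Classical in
/-- points of `E` near `y i` -/
private def erE {K : ℕ} (E : Finset M) (y : Fin K → M) (ε : ℝ) (i : Fin K) (T : Finset M) :
    Finset M :=
  T.filter (fun e => e ∈ E ∧ dist e (y i) ≤ 3 * ε)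

private theorem erX_congr {K : ℕ} (E : Finset M) (y : Fin K → M) (d : ℝ) {ρ ρ' : Fin K → ℝ}
    {S : Finset (Fin K)} (h : ∀ i ∈ S, ρ i = ρ' i) : erX E y d ρ S = erX E y d ρ' S := by
  classical
  unfold erX
  apply Finset.filter_congr
  intro e _
  constructor
  · intro h1 i hi
    rw [← h i hi]
    exact h1 i hi
  · intro h1 i hi
    rw [h i hi]
    exact h1 i hi

open Classical in
private theorem er_seq {K : ℕ} (E : Finset M) (y : Fin K → M) {ε : ℝ} (hε : 0 < ε) (J D : ℕ)
    (hJ : 1 ≤ J)
    (hD : ∀ i, (Finset.univ.filter (fun j => dist (y i) (y j) ≤ 6 * ε)).card ≤ D) :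
    ∃ ρ : Fin K → ℝ, (∀ i, ε ≤ ρ i ∧ ρ i < 2 * ε) ∧
      ∀ i : Fin K, ∀ S : Finset (Fin K), (∀ j ∈ S, j < i) →
        J * (erE E y ε i (erX E y (2 * (1 / (4 * (J : ℝ)) * ε)) ρ (insert i S))).card ≤
          2 ^ (D + 2) * (erE E y ε i (erX E y (2 * (1 / (4 * (J : ℝ)) * ε)) ρ S)).card := by
  have hJ0 : (0 : ℝ) < J := by exact_mod_cast hJ
  have hJ1 : (1 : ℝ) ≤ J := by exact_mod_cast hJ
  set d : ℝ := 2 * (1 / (4 * (J : ℝ)) * ε) with hd
  have hd2 : d ≤ ε := by
    have : 1 / (4 * (J : ℝ)) ≤ 1 / 4 := by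
      apply one_div_le_one_div_of_le <;> linarith
    rw [hd]
    nlinarith
  have key : ∀ m : ℕ, m ≤ K → ∃ ρ : Fin K → ℝ, (∀ i, ε ≤ ρ i ∧ ρ i < 2 * ε) ∧
      ∀ i : Fin K, (i : ℕ) < m → ∀ S : Finset (Fin K), (∀ j ∈ S, j < i) →
        J * (erE E y ε i (erX E y d ρ (insert i S))).card ≤
          2 ^ (D + 2) * (erE E y ε i (erX E y d ρ S)).card := by
    intro m
    induction m with
    | zero =>
      intro _
      exact ⟨fun _ => ε, fun _ => ⟨le_refl _, by linarith⟩, fun i hi => absurd hi (by omega)⟩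
    | succ m ih =>
      intro hm
      obtain ⟨ρ, hρ1, hρ2⟩ := ih (by omega)
      set i0 : Fin K := ⟨m, by omega⟩ with hi0
      set N : Finset (Fin K) := Finset.univ.filter (fun j => dist (y i0) (y j) ≤ 6 * ε) with hN
      obtain ⟨k, hkJ, hk⟩ := er_choose J D hJ N.powerset
        (by rw [Finset.card_powerset]; exact Nat.pow_le_pow_right (by norm_num) (hD i0))
        (fun S => erE E y ε i0 (erX E y d ρ S))
        (fun e k => |dist e (y i0) - ε * (1 + (k : ℝ) / J)| ≤ d)
        (fun e => er_two (dist e (y i0)) ε J hε hJ)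
      refine ⟨Function.update ρ i0 (ε * (1 + (k : ℝ) / J)), ?_, ?_⟩
      · intro i
        by_cases hi : i = i0
        · subst hi
          rw [Function.update_self]
          have h1 : (0 : ℝ) ≤ (k : ℝ) / J := by positivity
          have h2 : (k : ℝ) / J < 1 := by
            rw [div_lt_one hJ0]
            exact_mod_cast hkJ
          constructor <;> nlinarith
        · rw [Function.update_of_ne hi]
          exact hρ1 i
      · intro i hi S hS
        have hSi0 : i0 ∉ S := by
          intro h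
          have h1 := hS i0 h
          have h2 : (i0 : ℕ) < (i : ℕ) := h1
          have h3 : (i0 : ℕ) = m := rfl
          omega
        have eS : erX E y d (Function.update ρ i0 (ε * (1 + (k : ℝ) / J))) S = erX E y d ρ S := by
          apply erX_congr
          intro j hj
          rw [Function.update_of_ne]
          rintro rfl
          exact hSi0 hj
        rw [eS]
        by_cases hii : i = i0
        · subst hii
          by_cases hSN : S ⊆ N
          · have h1 := hk S (Finset.mem_powerset.2 hSN)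
            refine le_trans (Nat.mul_le_mul_left _ (Finset.card_le_card ?_)) h1
            intro e he
            rw [erE, Finset.mem_filter, erX, Finset.mem_filter] at he
            rw [Finset.mem_filter, erE, Finset.mem_filter, erX, Finset.mem_filter]
            obtain ⟨⟨he1, he2⟩, he3⟩ := he
            have h3 := he2 i0 (Finset.mem_insert_self _ _)
            rw [Function.update_self] at h3
            refine ⟨⟨⟨he1, fun j hj => ?_⟩, he3⟩, h3⟩
            have h4 := he2 j (Finset.mem_insert_of_mem hj)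
            rwa [Function.update_of_ne] at h4
            rintro rfl
            exact hSi0 hj
          · rw [Finset.not_subset] at hSN
            obtain ⟨j, hjS, hjN⟩ := hSN
            have hemp : erE E y ε i0 (erX E y d
                (Function.update ρ i0 (ε * (1 + (k : ℝ) / J))) (insert i0 S)) = ∅ := by
              rw [Finset.eq_empty_iff_forall_notMem]
              intro e he
              rw [erE, Finset.mem_filter, erX, Finset.mem_filter] at he
              obtain ⟨⟨he1, he2⟩, he3⟩ := he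
              have h4 := he2 j (Finset.mem_insert_of_mem hjS)
              rw [Function.update_of_ne (by rintro rfl; exact hSi0 hjS), abs_le] at h4
              apply hjN
              rw [hN, Finset.mem_filter]
              refine ⟨Finset.mem_univ _, ?_⟩
              have h5 := dist_triangle_left (y i0) (y j) e
              have h6 := (hρ1 j).2
              linarith [h4.2, he3.2]
            rw [hemp]
            simp
        · have hilt : (i : ℕ) < m := by
            have h1 : (i : ℕ) ≠ m := by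
              intro h
              apply hii
              ext
              exact h
            omega
          have eS' : erX E y d (Function.update ρ i0 (ε * (1 + (k : ℝ) / J))) (insert i S)
              = erX E y d ρ (insert i S) := by
            apply erX_congr
            intro j hj
            rw [Function.update_of_ne]
            rintro rfl
            rcases Finset.mem_insert.1 hj with h | h
            · exact hii h.symm
            · exact hSi0 h
          rw [eS']
          exact hρ2 i hilt S hS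
  obtain ⟨ρ, h1, h2⟩ := key K (le_refl K)
  exact ⟨ρ, h1, fun i S hS => h2 i i.isLt S hS⟩

open Classical in
private theorem er_final {K : ℕ} (E : Finset M) (y : Fin K → M) {ε d a : ℝ}
    (hd : d ≤ ε) (J D : ℕ) {ρ : Fin K → ℝ} (hρ : ∀ i, ε ≤ ρ i ∧ ρ i < 2 * ε)
    (hstep : ∀ i : Fin K, ∀ S : Finset (Fin K), (∀ j ∈ S, j < i) →
        J * (erE E y ε i (erX E y d ρ (insert i S))).card ≤
          2 ^ (D + 2) * (erE E y ε i (erX E y d ρ S)).card)
    (ha : ∀ i : Fin K, ((erE E y ε i E).card : ℝ) ≤ a) :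
    ∀ m : ℕ, ∀ S : Finset (Fin K), S.card = m + 1 →
      (J : ℝ) ^ (m + 1) * (erX E y d ρ S).card ≤ (2 ^ (D + 2)) ^ (m + 1) * a := by
  intro m
  induction m with
  | zero =>
    intro S hS
    obtain ⟨i, rfl⟩ := Finset.card_eq_one.1 hS
    have h1 := hstep i ∅ (by simp)
    have h2 : erX E y d ρ {i} ⊆ erE E y ε i (erX E y d ρ (insert i ∅)) := by
      intro e he
      rw [erX, Finset.mem_filter] at he
      rw [erE, Finset.mem_filter, erX, Finset.mem_filter]
      have h3 := he.2 i (Finset.mem_singleton_self i)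
      rw [abs_le] at h3
      exact ⟨⟨he.1, he.2⟩, he.1, by linarith [h3.2, (hρ i).2]⟩
    have h4 : (erE E y ε i (erX E y d ρ ∅)).card ≤ (erE E y ε i E).card := by
      apply Finset.card_le_card
      intro e he
      rw [erE, Finset.mem_filter] at he
      rw [erE, Finset.mem_filter]
      exact ⟨he.2.1, he.2⟩
    have h5 : J * (erX E y d ρ {i}).card ≤ 2 ^ (D + 2) * (erE E y ε i E).card :=
      le_trans (Nat.mul_le_mul_left _ (Finset.card_le_card h2))
        (le_trans h1 (Nat.mul_le_mul_left _ h4))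
    have h6 : (J : ℝ) * (erX E y d ρ {i}).card ≤ 2 ^ (D + 2) * (erE E y ε i E).card := by
      exact_mod_cast h5
    rw [zero_add, pow_one, pow_one]
    exact le_trans h6 (mul_le_mul_of_nonneg_left (ha i) (by positivity))
  | succ m ih =>
    intro S hS
    have hne : S.Nonempty := by
      rw [← Finset.card_pos]
      omega
    set i := S.max' hne with hi
    have hiS : i ∈ S := Finset.max'_mem S hne
    have hS' : (S.erase i).card = m + 1 := by
      rw [Finset.card_erase_of_mem hiS, hS]
      rfl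
    have h1 := hstep i (S.erase i) (fun j hj => by
      rw [Finset.mem_erase] at hj
      exact lt_of_le_of_ne (Finset.le_max' S j hj.2) hj.1)
    rw [Finset.insert_erase hiS] at h1
    have h2 : erX E y d ρ S ⊆ erE E y ε i (erX E y d ρ S) := by
      intro e he
      have he' := he
      rw [erX, Finset.mem_filter] at he'
      rw [erE, Finset.mem_filter]
      have h3 := he'.2 i hiS
      rw [abs_le] at h3
      exact ⟨he, he'.1, by linarith [h3.2, (hρ i).2]⟩
    have h4 : (erE E y ε i (erX E y d ρ (S.erase i))).card ≤ (erX E y d ρ (S.erase i)).card :=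
      Finset.card_filter_le _ _
    have h5 : J * (erX E y d ρ S).card ≤ 2 ^ (D + 2) * (erX E y d ρ (S.erase i)).card :=
      le_trans (Nat.mul_le_mul_left _ (Finset.card_le_card h2))
        (le_trans h1 (Nat.mul_le_mul_left _ h4))
    have h6 : (J : ℝ) * (erX E y d ρ S).card ≤ 2 ^ (D + 2) * (erX E y d ρ (S.erase i)).card := by
      exact_mod_cast h5
    have h7 := ih (S.erase i) hS'
    calc (J : ℝ) ^ (m + 1 + 1) * (erX E y d ρ S).card
        = (J : ℝ) ^ (m + 1) * ((J : ℝ) * (erX E y d ρ S).card) := by ring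
      _ ≤ (J : ℝ) ^ (m + 1) * (2 ^ (D + 2) * (erX E y d ρ (S.erase i)).card) :=
          mul_le_mul_of_nonneg_left h6 (by positivity)
      _ = 2 ^ (D + 2) * ((J : ℝ) ^ (m + 1) * (erX E y d ρ (S.erase i)).card) := by ring
      _ ≤ 2 ^ (D + 2) * ((2 ^ (D + 2)) ^ (m + 1) * a) :=
          mul_le_mul_of_nonneg_left h7 (by positivity)
      _ = (2 ^ (D + 2)) ^ (m + 1 + 1) * a := by ring

end Seq

/-- (E3) nets with generic radii -/
theorem generic_radii {n : ℕ} (hn : 1 ≤ n) {L : ℝ} (hL : 1 ≤ L) :
    ∃ (c : ℝ) (D : ℕ), 0 < c ∧ c ≤ 1 / 4 ∧ ∀ (M : Type) [MetricSpace M] [CompactSpace M]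
      [Nonempty M] (R : ℝ), LB n L R M → ∀ ε : ℝ, 0 < ε → 20 * ε ≤ R →
      ∃ (K : ℕ) (y : Fin K → M) (ρ : Fin K → ℝ),
        (∀ i j, i ≠ j → ε ≤ dist (y i) (y j)) ∧ (∀ v, ∃ i, dist v (y i) < ε) ∧
        (∀ i, ε ≤ ρ i ∧ ρ i < 2 * ε) ∧
        (∀ i, (Finset.univ.filter (fun j => dist (y i) (y j) ≤ 6 * ε)).card ≤ D) ∧
        (∀ (v : M) (S : Finset (Fin K)), S.card = n + 1 →
          ∃ i ∈ S, c * ε < |dist v (y i) - ρ i|) := by
  classical
  obtain ⟨D, hD⟩ : ∃ D : ℕ, (42 * L ^ 2) ^ n ≤ (D : ℝ) := ⟨⌈(42 * L ^ 2) ^ n⌉₊, Nat.le_ceil _⟩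
  obtain ⟨J0, hJ0⟩ : ∃ J0 : ℕ, (2 ^ (D + 2)) ^ (n + 1) * (96 * L ^ 2) ^ n ≤ (J0 : ℝ) :=
    ⟨⌈(2 ^ (D + 2)) ^ (n + 1) * (96 * L ^ 2) ^ n⌉₊, Nat.le_ceil _⟩
  set J := J0 + 1 with hJ
  have hJ1 : 1 ≤ J := by omega
  have hJr : (0 : ℝ) < J := by exact_mod_cast hJ1
  have hJr1 : (1 : ℝ) ≤ J := by exact_mod_cast hJ1
  have hJlt : (2 ^ (D + 2)) ^ (n + 1) * (96 * L ^ 2) ^ n < (J : ℝ) := by
    rw [hJ]
    push_cast
    linarith
  have hc4 : 1 / (4 * (J : ℝ)) ≤ 1 / 4 := by
    apply one_div_le_one_div_of_le <;> linarith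
  refine ⟨1 / (4 * (J : ℝ)), D, by positivity, hc4, ?_⟩
  intro M _ _ _ R hLB ε hε hεR
  have hcpos : 0 < 1 / (4 * (J : ℝ)) * ε := by positivity
  have hcε : 1 / (4 * (J : ℝ)) * ε ≤ 1 / 4 * ε := mul_le_mul_of_nonneg_right hc4 hε.le
  obtain ⟨E0, hE0s, hE0c⟩ := sep_net (M := M) hε
  obtain ⟨E, hEs, hEc⟩ := sep_net (M := M) hcpos
  set K := E0.card with hK
  set y : Fin K → M := fun i => ((E0.equivFin.symm i : E0) : M) with hy
  have hyinj : Function.Injective y := by
    intro i j hij
    exact E0.equivFin.symm.injective (Subtype.ext hij)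
  have hyE : ∀ i, y i ∈ E0 := fun i => (E0.equivFin.symm i).2
  have hysep : ∀ i j, i ≠ j → ε ≤ dist (y i) (y j) := fun i j hij =>
    hE0s _ (hyE i) _ (hyE j) (fun h => hij (hyinj h))
  have hycov : ∀ v, ∃ i, dist v (y i) < ε := by
    intro v
    obtain ⟨x, hx, hvx⟩ := hE0c v
    refine ⟨E0.equivFin ⟨x, hx⟩, ?_⟩
    simp only [hy, Equiv.symm_apply_apply]
    exact hvx
  have hyD : ∀ i, (Finset.univ.filter (fun j => dist (y i) (y j) ≤ 6 * ε)).card ≤ D := by
    intro i
    have h1 := packing hLB (t := ε) (s := 7 * ε) hε (by linarith) (by linarith) (y i)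
      ((Finset.univ.filter (fun j => dist (y i) (y j) ≤ 6 * ε)).image y) ?_ ?_
    · rw [Finset.card_image_of_injective _ hyinj] at h1
      have h2 : 6 * L ^ 2 * (7 * ε) / ε = 42 * L ^ 2 := by
        field_simp
        ring
      rw [h2] at h1
      exact_mod_cast le_trans h1 hD
    · intro x hx
      rw [Finset.mem_image] at hx
      obtain ⟨j, hj, rfl⟩ := hx
      rw [Metric.mem_ball, dist_comm]
      have := (Finset.mem_filter.1 hj).2
      linarith
    · intro x hx x' hx' hne
      rw [Finset.mem_image] at hx hx'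
      obtain ⟨j, hj, rfl⟩ := hx
      obtain ⟨j', hj', rfl⟩ := hx'
      exact hysep j j' (fun h => hne (by rw [h]))
  obtain ⟨ρ, hρ1, hρ2⟩ := er_seq E y hε J D hJ1 hyD
  refine ⟨K, y, ρ, hysep, hycov, hρ1, hyD, ?_⟩
  intro v S hS
  by_contra hcon
  push Not at hcon
  have hE3 : ∀ i : Fin K, ((erE E y ε i E).card : ℝ) ≤ (96 * L ^ 2 * J) ^ n := by
    intro i
    have h1 := packing hLB (t := 1 / (4 * (J : ℝ)) * ε) (s := 4 * ε) hcpos
      (by linarith) (by linarith) (y i) (erE E y ε i E) ?_ ?_
    · have h2 : 6 * L ^ 2 * (4 * ε) / (1 / (4 * (J : ℝ)) * ε) = 96 * L ^ 2 * J := by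
        field_simp
        ring
      rwa [h2] at h1
    · intro x hx
      rw [erE, Finset.mem_filter] at hx
      rw [Metric.mem_ball]
      linarith [hx.2.2]
    · intro x hx x' hx' hne
      rw [erE, Finset.mem_filter] at hx hx'
      exact hEs x hx.1 x' hx'.1 hne
  have h3 := er_final E y (ε := ε) (d := 2 * (1 / (4 * (J : ℝ)) * ε))
    (a := (96 * L ^ 2 * J) ^ n) (by linarith) J D hρ1 hρ2 hE3 n S hS
  obtain ⟨e, heE, hve⟩ := hEc v
  have heX : e ∈ erX E y (2 * (1 / (4 * (J : ℝ)) * ε)) ρ S := by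
    rw [erX, Finset.mem_filter]
    refine ⟨heE, fun i hi => ?_⟩
    have h4 := hcon i hi
    rw [abs_le] at h4 ⊢
    have h5 := dist_triangle_left e (y i) v
    have h6 := dist_triangle v e (y i)
    constructor <;> linarith [h4.1, h4.2]
  have hcard : (1 : ℝ) ≤ (erX E y (2 * (1 / (4 * (J : ℝ)) * ε)) ρ S).card := by
    exact_mod_cast Finset.card_pos.2 ⟨e, heX⟩
  have h7 : (J : ℝ) ^ (n + 1) ≤ (2 ^ (D + 2)) ^ (n + 1) * (96 * L ^ 2 * J) ^ n := by
    refine le_trans ?_ h3
    have : (0 : ℝ) ≤ (J : ℝ) ^ (n + 1) := by positivity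
    nlinarith
  have h8 : (J : ℝ) ^ n * J ≤ (J : ℝ) ^ n * ((2 ^ (D + 2)) ^ (n + 1) * (96 * L ^ 2) ^ n) := by
    calc (J : ℝ) ^ n * J = (J : ℝ) ^ (n + 1) := by ring
      _ ≤ _ := h7
      _ = _ := by rw [mul_pow (96 * L ^ 2) (J : ℝ) n]; ring
  have h9 := le_of_mul_le_mul_left h8 (by positivity)
  linarith

end SimpVol
end
end

section

set_option autoImplicit false

open scoped Topology ENNReal NNReal ContDiff Manifold
open MeasureTheory

noncomputable section

namespace SimpVol

theorem bc_dd {n : ℕ} {α : Type} (φ : (Fin n → α) → ℝ) (t : Fin (n + 2) → α) :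
    ∑ i : Fin (n + 2), (-1 : ℝ) ^ (i : ℕ) * ∑ l : Fin (n + 1), (-1 : ℝ) ^ (l : ℕ) *
      φ ((t ∘ Fin.succAbove i) ∘ Fin.succAbove l) = 0 := by
  simp_rw [Finset.mul_sum]
  rw [← Finset.sum_product' (f := fun (i : Fin (n + 2)) (l : Fin (n + 1)) =>
    (-1 : ℝ) ^ (i : ℕ) * ((-1 : ℝ) ^ (l : ℕ) * φ ((t ∘ Fin.succAbove i) ∘ Fin.succAbove l)))]
  refine Finset.sum_involution (fun p _ => (p.1.succAbove p.2, p.2.predAbove p.1)) ?_ ?_ ?_ ?_
  · rintro ⟨i, l⟩ _
    have h1 : (t ∘ Fin.succAbove (i.succAbove l)) ∘ Fin.succAbove (l.predAbove i) =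
        (t ∘ Fin.succAbove i) ∘ Fin.succAbove l := by
      funext k
      simp only [Function.comp_apply]
      rw [Fin.succAbove_succAbove_succAbove_predAbove]
    have h2 : (-1 : ℝ) ^ ((i.succAbove l : Fin (n + 2)) + (l.predAbove i : Fin (n + 1)) : ℕ) =
        -(-1) ^ ((i : ℕ) + (l : ℕ)) := Fin.neg_one_pow_succAbove_add_predAbove i l
    simp only
    rw [h1, ← mul_assoc, ← mul_assoc, ← pow_add, ← pow_add, h2]
    ring
  · rintro ⟨i, l⟩ _ _ h
    have := congrArg Prod.fst h
    exact Fin.succAbove_ne i l this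
  · intro _ _
    simp
  · rintro ⟨i, l⟩ _
    simp only [Prod.mk.injEq]
    exact ⟨Fin.succAbove_succAbove_predAbove i l, Fin.predAbove_predAbove_succAbove i l⟩

section PsiSec

variable {M : Type} [MetricSpace M] [Nonempty M] {N : ℕ} {C : ℝ}
  {I : Type} [LinearOrder I] [Fintype I]

set_option linter.unusedSectionVars false

theorem psi_one (K : ∀ x : M, Contr (liftSet x) N C) (s : ∀ x y : M, Hm x y)
    (A : ℕ → Set (Finset I)) (l : ℕ → Finset I → M) (t : Fin 1 → I) (a : M) :
    Psi K s A l 0 t a (bone _) = 1 := rfl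

theorem bc_psi_succ (K : ∀ x : M, Contr (liftSet x) N C) (s : ∀ x y : M, Hm x y)
    (A : ℕ → Set (Finset I)) (l : ℕ → Finset I → M) (j : ℕ) (t : Fin (j + 2) → I) (a : M)
    (ht : Function.Injective t ∧ Finset.univ.image t ∈ A (j + 1))
    (F : Bd ((liftSet a).obj (j + 1))) :
    Psi K s A l (j + 1) t a F =
      ∑ i : Fin (j + 2), (-1 : ℝ) ^ (i : ℕ) * Psi K s A l j (t ∘ Fin.succAbove i) a
        (kop K (s a (l (j + 1) (Finset.univ.image t))) j F) := by
  classical
  have h : Psi K s A l (j + 1) t a = ∑ i : Fin (j + 2), (-1 : ℝ) ^ (i : ℕ) •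
        (Psi K s A l j (t ∘ Fin.succAbove i) a).comp
          (kop K (s a (l (j + 1) (Finset.univ.image t))) j) := by
    rw [Psi]
    split_ifs with h'
    · convert rfl
    · exfalso
      apply h'
      refine ⟨ht.1, ?_⟩
      convert ht.2
  rw [h]
  simp [LinearMap.sum_apply]

theorem bc_psi_succ_zero (K : ∀ x : M, Contr (liftSet x) N C) (s : ∀ x y : M, Hm x y)
    (A : ℕ → Set (Finset I)) (l : ℕ → Finset I → M) (j : ℕ) (t : Fin (j + 2) → I) (a : M)
    (ht : ¬ (Function.Injective t ∧ Finset.univ.image t ∈ A (j + 1))) :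
    Psi K s A l (j + 1) t a = 0 := by
  classical
  rw [Psi]
  split_ifs with h'
  · exfalso
    apply ht
    refine ⟨h'.1, ?_⟩
    convert h'.2
  · rfl

/-- (B5.3) -/
theorem psi_cob (K : ∀ x : M, Contr (liftSet x) N C) (s : ∀ x y : M, Hm x y)
    (A : ℕ → Set (Finset I)) (l : ℕ → Finset I → M) (hA0 : A 0 = {S | S.card = 1})
    (hA : ∀ j, A (j + 1) = nextSet j (A j) (l j)) (j : ℕ) (hj : j + 1 ≤ N)
    (t : Fin (j + 2) → I) (a : M) (f : Bd ((liftSet a).obj j)) :
    Psi K s A l (j + 1) t a ((liftSet a).cob j f) =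
      ∑ i : Fin (j + 2), (-1 : ℝ) ^ (i : ℕ) * Psi K s A l j (t ∘ Fin.succAbove i) a f := by
  induction j with
  | zero =>
    by_cases ht : Function.Injective t ∧ Finset.univ.image t ∈ A (0 + 1)
    · rw [bc_psi_succ K s A l 0 t a ht]
      set g := s a (l (0 + 1) (Finset.univ.image t)) with hg
      have hk : kop K g 0 ((liftSet a).cob 0 f) =
          f - (f.1 (tr g ((liftSet (l (0 + 1) (Finset.univ.image t))).base 0))) • bone _ := by
        apply Subtype.ext
        funext L
        rw [kop_zero]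
        simp [bone]
      rw [hk]
      simp only [map_sub, map_smul, psi_one, smul_eq_mul, mul_one]
      simp [Fin.sum_univ_two]
      ring
    · rw [bc_psi_succ_zero K s A l 0 t a ht]
      have h := psi_boundary_zero K s A l hA0 hA 0 t a ht
      have h' := congrArg (fun G : Bd ((liftSet a).obj 0) →ₗ[ℝ] ℝ => G f) h
      simp only [LinearMap.sum_apply, LinearMap.smul_apply, smul_eq_mul,
        LinearMap.zero_apply] at h'
      rw [h']
      rfl
  | succ j ih =>
    by_cases ht : Function.Injective t ∧ Finset.univ.image t ∈ A (j + 1 + 1)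
    · rw [bc_psi_succ K s A l (j + 1) t a ht]
      set g := s a (l (j + 1 + 1) (Finset.univ.image t)) with hg
      have hk : kop K g (j + 1) ((liftSet a).cob (j + 1) f) =
          f - (liftSet a).cob j (kop K g j f) := by
        have h2 := kop_succ K g j (by omega) f
        exact eq_sub_of_add_eq' h2
      rw [hk]
      simp only [map_sub]
      simp_rw [mul_sub]
      rw [Finset.sum_sub_distrib]
      have h0 : ∑ i : Fin (j + 1 + 2), (-1 : ℝ) ^ (i : ℕ) *
          Psi K s A l (j + 1) (t ∘ Fin.succAbove i) a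
            ((liftSet a).cob j (kop K g j f)) = 0 := by
        have := bc_dd (fun u => Psi K s A l j u a (kop K g j f)) t
        rw [← this]
        apply Finset.sum_congr rfl
        intro i _
        rw [ih (by omega)]
      rw [h0, sub_zero]
    · rw [bc_psi_succ_zero K s A l (j + 1) t a ht]
      have h := psi_boundary_zero K s A l hA0 hA (j + 1) t a ht
      have h' := congrArg (fun G : Bd ((liftSet a).obj (j + 1)) →ₗ[ℝ] ℝ => G f) h
      simp only [LinearMap.sum_apply, LinearMap.smul_apply, smul_eq_mul,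
        LinearMap.zero_apply] at h'
      rw [h']
      rfl

/-- (B5.4) -/
theorem psi_norm (K : ∀ x : M, Contr (liftSet x) N C) (hC : 0 ≤ C) (s : ∀ x y : M, Hm x y)
    (A : ℕ → Set (Finset I)) (l : ℕ → Finset I → M) (j : ℕ) (hj : j ≤ N)
    (t : Fin (j + 1) → I) (a : M) (f : Bd ((liftSet a).obj j)) (B : ℝ)
    (hB : ∀ L, |f.1 L| ≤ B) :
    |Psi K s A l j t a f| ≤ (j + 1).factorial * C ^ j * B := by
  induction j generalizing B with
  | zero =>
    have : |Psi K s A l 0 t a f| ≤ B := hB _
    simpa using this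
  | succ j ih =>
    have hB0 : 0 ≤ B := (abs_nonneg _).trans (hB ((liftSet a).base (j + 1)))
    by_cases ht : Function.Injective t ∧ Finset.univ.image t ∈ A (j + 1)
    · rw [bc_psi_succ K s A l j t a ht]
      refine (Finset.abs_sum_le_sum_abs _ _).trans ?_
      have h1 : ∀ i ∈ (Finset.univ : Finset (Fin (j + 2))),
          |(-1 : ℝ) ^ (i : ℕ) * Psi K s A l j (t ∘ Fin.succAbove i) a
            (kop K (s a (l (j + 1) (Finset.univ.image t))) j f)| ≤
          (j + 1).factorial * C ^ j * (C * B) := by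
        intro i _
        rw [abs_mul, abs_pow, abs_neg, abs_one, one_pow, one_mul]
        apply ih (by omega)
        intro L
        exact kop_norm K _ j (by omega) f B hB L
      refine (Finset.sum_le_sum h1).trans ?_
      rw [Finset.sum_const, Finset.card_univ, Fintype.card_fin, nsmul_eq_mul,
        Nat.factorial_succ (j + 1)]
      push_cast
      apply le_of_eq
      ring
    · rw [bc_psi_succ_zero K s A l j t a ht]
      simp only [LinearMap.zero_apply, abs_zero]
      positivity

end PsiSec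

end SimpVol
end
end
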