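import Pool.Agent.Lib.MP_fa46d7_gt.Defs
import Pool.Agent.Lib.MP_fa46d7_gt.APi

section

/-!
# MP_fa46d7_gt: existence and uniqueness of lifts (B1)
-/

set_option autoImplicit false

open scoped Topology ENNReal NNReal ContDiff Manifold
open MeasureTheory

noncomputable section

namespace SimpVol

/-- (B1) Lifts exist and are determined by the value at one point. -/
theorem lift_exists {M : Type} [TopologicalSpace M] {y : M} {m : ℕ} (σ : Sing M m) (p₀ : Smp m)
    (c : Hm y (σ p₀)) :
    ∃ L : (liftSet y).obj m, pr L = σ ∧ L.1 p₀ = ⟨σ p₀, c⟩ := by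
  refine ⟨⟨fun p => ⟨σ p, c.trans (Path.Homotopic.Quotient.mk
      ((PathConnectedSpace.somePath p₀ p).map σ.continuous))⟩, σ.continuous, fun p q γ => ?_⟩,
      ?_, ?_⟩
  · show c.trans (Path.Homotopic.Quotient.mk
      ((PathConnectedSpace.somePath p₀ q).map σ.continuous)) =
      (c.trans (Path.Homotopic.Quotient.mk
      ((PathConnectedSpace.somePath p₀ p).map σ.continuous))).trans
        (Path.Homotopic.Quotient.mk (γ.map σ.continuous))
    rw [Path.Homotopic.Quotient.trans_assoc, ← Path.Homotopic.Quotient.mk_trans]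
    have h := SimplyConnectedSpace.paths_homotopic (PathConnectedSpace.somePath p₀ q)
      ((PathConnectedSpace.somePath p₀ p).trans γ)
    have h2 := Path.Homotopic.map h σ
    rw [← Path.map_trans]
    exact congrArg c.trans (Quotient.sound h2)
  · exact ContinuousMap.ext fun p => rfl
  · show (⟨σ p₀, c.trans (Path.Homotopic.Quotient.mk
      ((PathConnectedSpace.somePath p₀ p₀).map σ.continuous))⟩ : Cov y) = ⟨σ p₀, c⟩
    have h := SimplyConnectedSpace.paths_homotopic (PathConnectedSpace.somePath p₀ p₀)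
      (Path.refl p₀)
    have h2 : Path.Homotopic.Quotient.mk ((PathConnectedSpace.somePath p₀ p₀).map σ.continuous)
        = Path.Homotopic.Quotient.refl (σ p₀) := Quotient.sound (Path.Homotopic.map h σ)
    rw [h2, Path.Homotopic.Quotient.trans_refl]

private theorem bl_aux {M : Type} [TopologicalSpace M] {y : M} {m : ℕ} {f f' : Smp m → M}
    (hf : Continuous f) (hf' : Continuous f') (c : ∀ p, Hm y (f p)) (c' : ∀ p, Hm y (f' p))
    (hff : f = f')
    (hc : ∀ (p q : Smp m) (γ : Path p q),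
      c q = (c p).trans (Path.Homotopic.Quotient.mk (γ.map hf)))
    (hc' : ∀ (p q : Smp m) (γ : Path p q),
      c' q = (c' p).trans (Path.Homotopic.Quotient.mk (γ.map hf'))) (p₀ : Smp m)
    (h0 : (⟨f p₀, c p₀⟩ : Cov y) = ⟨f' p₀, c' p₀⟩) (q : Smp m) :
    (⟨f q, c q⟩ : Cov y) = ⟨f' q, c' q⟩ := by
  subst hff
  have h1 : c p₀ = c' p₀ := by
    have h2 := (Sigma.mk.inj h0).2
    exact eq_of_heq h2
  rw [hc p₀ q (PathConnectedSpace.somePath p₀ q), hc' p₀ q (PathConnectedSpace.somePath p₀ q), h1]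

theorem lift_unique {M : Type} [TopologicalSpace M] {y : M} {m : ℕ}
    (L L' : (liftSet y).obj m) (h : pr L = pr L') (p₀ : Smp m) (h0 : L.1 p₀ = L'.1 p₀) :
    L = L' := by
  obtain ⟨hf, hc⟩ := L.2
  obtain ⟨hf', hc'⟩ := L'.2
  apply Subtype.ext
  funext q
  refine bl_aux hf hf' (fun p => (L.1 p).2) (fun p => (L'.1 p).2) ?_ hc hc' p₀ h0 q
  funext p
  exact DFunLike.congr_fun h p

end SimpVol
end
end

section

section

/-!
# Coherent invariant means on finite powers of an abelian group
-/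

set_option autoImplicit false

open scoped Topology ENNReal NNReal ContDiff Manifold
open MeasureTheory

noncomputable section

namespace SimpVol

section amAux

open Filter

/-- averages over a finite type -/
private def am_mean {C : Type} [Fintype C] (g : C → ℝ) : ℝ := (∑ c, g c) / (Fintype.card C : ℝ)

private lemma am_mean_equiv {C D : Type} [Fintype C] [Fintype D] (e : C ≃ D) (g : D → ℝ) :
    am_mean (fun c => g (e c)) = am_mean g := by
  rw [am_mean, am_mean, Fintype.card_congr e]
  congr 1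
  exact Fintype.sum_equiv e _ _ fun _ => rfl

private lemma am_mean_fst {C D : Type} [Fintype C] [Fintype D] [Nonempty D] (g : C → ℝ) :
    am_mean (fun c : C × D => g c.1) = am_mean g := by
  rw [am_mean, am_mean, Fintype.sum_prod_type, Fintype.card_prod]
  simp only [Finset.sum_const, Finset.card_univ, nsmul_eq_mul]
  rw [← Finset.mul_sum, Nat.cast_mul, mul_comm (Fintype.card C : ℝ)]
  have hD : (Fintype.card D : ℝ) ≠ 0 := by
    have : 0 < Fintype.card D := Fintype.card_pos
    positivity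
  rw [mul_div_mul_left _ _ hD]

private lemma am_mean_le {C : Type} [Fintype C] [Nonempty C] {g : C → ℝ} {B : ℝ}
    (h : ∀ c, |g c| ≤ B) : |am_mean g| ≤ B := by
  have hC : 0 < (Fintype.card C : ℝ) := by
    have : 0 < Fintype.card C := Fintype.card_pos
    exact_mod_cast this
  rw [am_mean, abs_div, abs_of_pos hC, div_le_iff₀ hC]
  calc |∑ c, g c| ≤ ∑ c, |g c| := Finset.abs_sum_le_sum_abs _ _
    _ ≤ ∑ _c : C, B := Finset.sum_le_sum fun c _ => h c
    _ = B * Fintype.card C := by
      rw [Finset.sum_const, Finset.card_univ, nsmul_eq_mul, mul_comm]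

private lemma am_mean_add {C : Type} [Fintype C] (g h : C → ℝ) :
    am_mean (fun c => g c + h c) = am_mean g + am_mean h := by
  rw [am_mean, am_mean, am_mean, Finset.sum_add_distrib, add_div]

private lemma am_mean_mul {C : Type} [Fintype C] (a : ℝ) (g : C → ℝ) :
    am_mean (fun c => a * g c) = a * am_mean g := by
  rw [am_mean, am_mean, ← Finset.mul_sum, mul_div_assoc]

/-- average of `g (c ∘ j)` for an injective `j` -/
private lemma am_mean_comp {K K' A : Type} [Fintype (K → A)] [Fintype (K' → A)] [Finite K]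
    [Finite A] [Nonempty A] {j : K' → K} (hj : Function.Injective j) (g : (K' → A) → ℝ) :
    am_mean (fun c : K → A => g (fun k => c (j k))) = am_mean g := by
  classical
  have := Fintype.ofFinite K
  have := Fintype.ofFinite A
  let e : K' ⊕ ((Set.range j)ᶜ : Set K) ≃ K :=
    (Equiv.sumCongr (Equiv.ofInjective j hj) (Equiv.refl _)).trans (Equiv.Set.sumCompl (Set.range j))
  let E : (K' → A) × (((Set.range j)ᶜ : Set K) → A) ≃ (K → A) :=
    (Equiv.sumArrowEquivProdArrow _ _ _).symm.trans (e.arrowCongr (Equiv.refl A))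
  have h1 : ∀ q, (fun k => E q (j k)) = q.1 := by
    rintro ⟨c, d⟩
    funext k
    have h2 : e.symm (j k) = Sum.inl k := by
      rw [Equiv.symm_apply_eq]
      rfl
    show Sum.elim c d (e.symm (j k)) = c k
    rw [h2]
    rfl
  rw [← am_mean_equiv E (fun c : K → A => g (fun k => c (j k)))]
  simp only [h1]
  exact am_mean_fst g

/-- moving one coordinate by one step changes the average of a bounded function by at most
`2 * B / M` -/
private lemma am_mean_shift {K G : Type} [Fintype K] [AddCommGroup G] [DecidableEq K] {M : ℕ}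
    (hM : 1 ≤ M) [Fintype (K → Fin M)] (k : K) (φ : K → G) {g : G → ℝ} {B : ℝ}
    (hB : ∀ x, |g x| ≤ B) :
    |am_mean (fun c : K → Fin M => g (∑ i, (c i : ℕ) • φ i + φ k)) -
      am_mean (fun c : K → Fin M => g (∑ i, (c i : ℕ) • φ i))| ≤ 2 * B / M := by
  have : Nonempty (Fin M) := ⟨⟨0, hM⟩⟩
  let E := Equiv.funSplitAt k (Fin M)
  have hE : ∀ q : Fin M × ({j // j ≠ k} → Fin M),
      ∑ i, ((E.symm q i : Fin M) : ℕ) • φ i =
        (q.1 : ℕ) • φ k + ∑ i : {j // j ≠ k}, (q.2 i : ℕ) • φ i := by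
    intro q
    rw [Fintype.sum_eq_add_sum_subtype_ne _ k]
    congr 1
    · simp [E]
    · refine Finset.sum_congr rfl fun i _ => ?_
      congr 2
      simp [E, i.2]
  rw [← am_mean_equiv E.symm, ← am_mean_equiv E.symm]
  simp only [hE]
  have hMp : (0 : ℝ) < M := by exact_mod_cast hM
  set C := {j // j ≠ k} → Fin M with hC
  have hCp : (0 : ℝ) < Fintype.card C := by
    have : 0 < Fintype.card C := Fintype.card_pos
    exact_mod_cast this
  rw [am_mean, am_mean, ← sub_div, Fintype.card_prod, Fintype.card_fin, Nat.cast_mul,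
    Fintype.sum_prod_type_right, Fintype.sum_prod_type_right, ← Finset.sum_sub_distrib, abs_div,
    abs_of_pos (mul_pos hMp hCp), div_le_div_iff₀ (mul_pos hMp hCp) hMp]
  have key : ∀ c : C, |∑ x : Fin M, g ((x : ℕ) • φ k + ∑ i : {j // j ≠ k}, (c i : ℕ) • φ i + φ k) -
      ∑ x : Fin M, g ((x : ℕ) • φ k + ∑ i : {j // j ≠ k}, (c i : ℕ) • φ i)| ≤ 2 * B := by
    intro c
    set R := ∑ i : {j // j ≠ k}, (c i : ℕ) • φ i with hR
    have e1 : ∀ x : ℕ, x • φ k + R + φ k = (x + 1) • φ k + R := by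
      intro x
      rw [add_smul, one_smul]; abel
    simp only [e1]
    rw [Fin.sum_univ_eq_sum_range (fun x => g ((x + 1) • φ k + R)) M,
      Fin.sum_univ_eq_sum_range (fun x => g (x • φ k + R)) M, ← Finset.sum_sub_distrib,
      Finset.sum_range_sub (fun x => g (x • φ k + R))]
    calc _ ≤ |g (M • φ k + R)| + |g (0 • φ k + R)| := abs_sub _ _
      _ ≤ B + B := add_le_add (hB _) (hB _)
      _ = 2 * B := by ring
  calc _ ≤ (∑ _c : C, 2 * B) * M := by
        refine mul_le_mul_of_nonneg_right ?_ hMp.le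
        exact (Finset.abs_sum_le_sum_abs _ _).trans (Finset.sum_le_sum fun c _ => key c)
    _ = 2 * B * (M * Fintype.card C) := by
        rw [Finset.sum_const, Finset.card_univ, nsmul_eq_mul]; ring

variable {π : Type} [AddCommGroup π]

open Classical in
/-- the averages over boxes -/
private def am_avg (p : Finset π × ℕ) (T : Type) [Fintype T] (g : (T → π) → ℝ) : ℝ :=
  am_mean (fun c : T × p.1 → Fin p.2 => g (fun t => ∑ s : p.1, (c (t, s) : ℕ) • (s : π)))

open Classical in
private lemma am_pt {T : Type} [Fintype T] (S : Finset π) (M : ℕ) (c : T × S → Fin M) :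
    (fun t => ∑ s : S, (c (t, s) : ℕ) • (s : π)) =
      ∑ i : T × S, (c i : ℕ) • (Pi.single i.1 (i.2 : π) : T → π) := by
  funext t
  rw [Finset.sum_apply, Fintype.sum_prod_type, Finset.sum_comm]
  refine Finset.sum_congr rfl fun s _ => ?_
  rw [Finset.sum_eq_single t]
  · simp
  · intro t' _ ht
    simp [Ne.symm ht]
  · intro h; exact absurd (Finset.mem_univ t) h

variable (π) in
private def am_U : Ultrafilter (Finset π × ℕ) :=
  Ultrafilter.of ((atTop : Filter (Finset π)) ×ˢ (atTop : Filter ℕ))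

variable (π) in
omit [AddCommGroup π] in
private lemma am_U_le : (am_U π : Filter (Finset π × ℕ)) ≤ atTop ×ˢ atTop :=
  Ultrafilter.of_le _

private lemma am_ev (s : π) :
    ∀ᶠ p : Finset π × ℕ in (am_U π : Filter (Finset π × ℕ)), s ∈ p.1 ∧ 1 ≤ p.2 := by
  refine am_U_le π ?_
  filter_upwards [(eventually_ge_atTop ({s} : Finset π)).prod_mk (eventually_ge_atTop (1 : ℕ))]
    with p hp
  exact ⟨Finset.singleton_subset_iff.1 hp.1, hp.2⟩

private def am_mu (T : Type) [Fintype T] (g : (T → π) → ℝ) : ℝ :=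
  limUnder (am_U π : Filter (Finset π × ℕ)) (fun p => am_avg p T g)

private lemma am_avg_le {p : Finset π × ℕ} (hp : 1 ≤ p.2) {T : Type} [Fintype T]
    {g : (T → π) → ℝ} {B : ℝ} (hB : ∀ x, |g x| ≤ B) : |am_avg p T g| ≤ B := by
  classical
  have : Nonempty (Fin p.2) := ⟨⟨0, hp⟩⟩
  exact am_mean_le fun c => hB _

private lemma am_tendsto {T : Type} [Fintype T] {g : (T → π) → ℝ} (hg : g ∈ Bd (T → π)) :
    Tendsto (fun p => am_avg p T g) (am_U π : Filter (Finset π × ℕ)) (𝓝 (am_mu T g)) := by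
  obtain ⟨B, hB⟩ := hg
  apply tendsto_nhds_limUnder
  have h1 : ((am_U π).map (fun p => am_avg p T g) : Filter ℝ) ≤ 𝓟 (Set.Icc (-B) B) := by
    rw [Filter.le_principal_iff, Ultrafilter.coe_map, Filter.mem_map]
    filter_upwards [am_ev (0 : π)] with p hp
    exact abs_le.1 (am_avg_le hp.2 hB)
  obtain ⟨x, _, hx⟩ := isCompact_Icc.ultrafilter_le_nhds _ h1
  exact ⟨x, hx⟩

private lemma am_unique {T : Type} [Fintype T] {g : (T → π) → ℝ} (hg : g ∈ Bd (T → π)) {x : ℝ}
    (h : Tendsto (fun p => am_avg p T g) (am_U π : Filter (Finset π × ℕ)) (𝓝 x)) :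
    am_mu T g = x :=
  tendsto_nhds_unique (am_tendsto hg) h

private lemma am_inv_single {T : Type} [Fintype T] {g : (T → π) → ℝ} (hg : g ∈ Bd (T → π))
    [inst : DecidableEq T] (t : T) (s : π) :
    am_mu T (fun b => g (b + Pi.single t s)) = am_mu T g := by
  have hinst : inst = fun a b => Classical.propDecidable (a = b) := Subsingleton.elim _ _
  subst hinst
  classical
  obtain ⟨B, hB⟩ := hg
  have hg : g ∈ Bd (T → π) := ⟨B, hB⟩
  have hg' : (fun b => g (b + Pi.single t s)) ∈ Bd (T → π) := ⟨B, fun x => hB _⟩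
  have h0 : Tendsto (fun p => am_avg p T (fun b => g (b + Pi.single t s)) - am_avg p T g)
      (am_U π : Filter (Finset π × ℕ)) (𝓝 0) := by
    have h1 : Tendsto (fun p : Finset π × ℕ => 2 * B / (p.2 : ℝ))
        (am_U π : Filter (Finset π × ℕ)) (𝓝 0) := by
      have h2 : Tendsto (fun p : Finset π × ℕ => 2 * B / (p.2 : ℝ))
          ((atTop : Filter (Finset π)) ×ˢ (atTop : Filter ℕ)) (𝓝 0) :=
        (tendsto_const_div_atTop_nhds_zero_nat (2 * B)).comp tendsto_snd
      exact h2.mono_left (am_U_le π)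
    refine squeeze_zero_norm' ?_ h1
    filter_upwards [am_ev s] with p hp
    rw [Real.norm_eq_abs]
    have := am_mean_shift (M := p.2) hp.2 ((t, ⟨s, hp.1⟩) : T × p.1)
      (fun i : T × p.1 => (Pi.single i.1 (i.2 : π) : T → π)) hB
    unfold am_avg
    simp only [am_pt]
    exact this
  have h1 := (h0.add (am_tendsto hg))
  simp only [sub_add_cancel, zero_add] at h1
  exact am_unique hg' h1

private lemma am_inv {T : Type} [Fintype T] (b₀ : T → π) :
    ∀ g : (T → π) → ℝ, g ∈ Bd (T → π) → am_mu T (fun b => g (b + b₀)) = am_mu T g := by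
  classical
  have key : ∀ A : Finset T, ∀ g : (T → π) → ℝ, g ∈ Bd (T → π) →
      am_mu T (fun b => g (b + ∑ t ∈ A, Pi.single t (b₀ t))) = am_mu T g := by
    intro A
    induction A using Finset.induction_on with
    | empty => intro g _; simp
    | insert a A ha ih =>
      intro g hg
      obtain ⟨B, hB⟩ := hg
      have h1 := ih (fun b => g (b + Pi.single a (b₀ a))) ⟨B, fun x => hB _⟩
      have h2 := am_inv_single (g := g) ⟨B, hB⟩ a (b₀ a)
      rw [← h2, ← h1]
      congr 1
      funext b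
      rw [Finset.sum_insert ha]
      congr 1
      abel
  intro g hg
  have := key Finset.univ g hg
  rwa [Finset.univ_sum_single] at this

end amAux

/-- (A5) coherent invariant means on finite powers of an abelian group -/
theorem mean_exists (π : Type) [AddCommGroup π] :
    ∃ μ : ∀ (T : Type) [Fintype T], ((T → π) → ℝ) → ℝ,
      (∀ (T : Type) [Fintype T] (f g : (T → π) → ℝ), f ∈ Bd (T → π) → g ∈ Bd (T → π) →
        μ T (f + g) = μ T f + μ T g) ∧
      (∀ (T : Type) [Fintype T] (c : ℝ) (f : (T → π) → ℝ), f ∈ Bd (T → π) →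
        μ T (c • f) = c * μ T f) ∧
      (∀ (T : Type) [Fintype T] (B : ℝ) (f : (T → π) → ℝ), (∀ x, |f x| ≤ B) → |μ T f| ≤ B) ∧
      (∀ (T : Type) [Fintype T] (c : ℝ), μ T (fun _ => c) = c) ∧
      (∀ (T : Type) [Fintype T] (f : (T → π) → ℝ) (b₀ : T → π), f ∈ Bd (T → π) →
        μ T (fun b => f (b + b₀)) = μ T f) ∧
      (∀ (T T' : Type) [Fintype T] [Fintype T'] (ι : T' → T) (g : (T' → π) → ℝ),
        Function.Injective ι → g ∈ Bd (T' → π) → μ T (fun b => g (b ∘ ι)) = μ T' g) := by
  refine ⟨fun T _ g => am_mu T g, ?_, ?_, ?_, ?_, ?_, ?_⟩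
  · intro T _ f g hf hg
    refine am_unique (Submodule.add_mem _ hf hg) ?_
    have h := (am_tendsto hf).add (am_tendsto hg)
    refine h.congr fun p => ?_
    classical
    exact (am_mean_add _ _).symm
  · intro T _ c f hf
    refine am_unique (Submodule.smul_mem _ c hf) ?_
    have h := (am_tendsto hf).const_mul c
    refine h.congr fun p => ?_
    classical
    exact (am_mean_mul _ _).symm
  · intro T _ B f hB
    have h := (am_tendsto (T := T) (g := f) ⟨B, hB⟩).abs
    refine le_of_tendsto h ?_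
    filter_upwards [am_ev (0 : π)] with p hp
    exact am_avg_le hp.2 hB
  · intro T _ c
    refine am_unique ⟨|c|, fun _ => le_rfl⟩ ?_
    refine tendsto_const_nhds.congr' ?_
    filter_upwards [am_ev (0 : π)] with p hp
    classical
    have : Nonempty (Fin p.2) := ⟨⟨0, hp.2⟩⟩
    unfold am_avg am_mean
    rw [Finset.sum_const, Finset.card_univ, nsmul_eq_mul, mul_div_assoc, mul_div_cancel₀]
    have : 0 < Fintype.card (T × p.1 → Fin p.2) := Fintype.card_pos
    positivity
  · intro T _ f b₀ hf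
    exact am_inv b₀ f hf
  · intro T T' _ _ ι g hι hg
    obtain ⟨B, hB⟩ := hg
    refine am_unique ⟨B, fun x => hB _⟩ ?_
    have h := am_tendsto (T := T') (g := g) ⟨B, hB⟩
    refine h.congr' ?_
    filter_upwards [am_ev (0 : π)] with p hp
    classical
    have : Nonempty (Fin p.2) := ⟨⟨0, hp.2⟩⟩
    exact (am_mean_comp (A := Fin p.2) (j := Prod.map ι (id : p.1 → p.1))
      (hι.prodMap Function.injective_id)
      (fun c => g (fun t => ∑ s : p.1, (c (t, s) : ℕ) • (s : π)))).symm

end SimpVol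
end
end

section

/-!
# MP_fa46d7_gt: horn filling for singular simplices (SV-23)
-/

set_option autoImplicit false

open scoped Topology ENNReal NNReal ContDiff Manifold
open MeasureTheory

noncomputable section

namespace SimpVol

section PartB

/-- Coordinates of the image of a point under an injective vertex map. -/
theorem bs_smap_apply {j m : ℕ} (θ : Fin (j + 1) → Fin (m + 1)) (hθ : Function.Injective θ)
    (p : Smp j) (k : Fin (j + 1)) : (smap θ p).1 (θ k) = p.1 k := by
  classical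
  show (stdSimplex.map θ p) (θ k) = p k
  rw [stdSimplex.map_coe, FunOnFinite.linearMap_apply_apply]
  have : Finset.univ.filter (fun x : Fin (j + 1) => θ x = θ k) = {k} := by
    ext a
    simp [hθ.eq_iff]
  rw [this, Finset.sum_singleton]

theorem bs_smap_apply_zero {j m : ℕ} (θ : Fin (j + 1) → Fin (m + 1))
    (p : Smp j) (l : Fin (m + 1)) (hl : ∀ k, θ k ≠ l) : (smap θ p).1 l = 0 := by
  classical
  show (stdSimplex.map θ p) l = 0
  rw [stdSimplex.map_coe, FunOnFinite.linearMap_apply_apply]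
  have : Finset.univ.filter (fun x : Fin (j + 1) => θ x = l) = ∅ := by
    ext a
    simp [hl a]
  rw [this, Finset.sum_empty]

/-- The coordinates of the retraction onto the horn, at points where `l` realizes the minimum. -/
def bs_r {m : ℕ} (i l : Fin (m + 2)) (x : Smp (m + 1)) (k : Fin (m + 2)) : ℝ :=
  if k = i then x.1 i + (m + 1) * x.1 l else x.1 k - x.1 l

/-- The points where `l` realizes the minimum over the indices different from `i`. -/
def bs_C {m : ℕ} (i l : Fin (m + 2)) : Set (Smp (m + 1)) :=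
  {x | ∀ k, k ≠ i → x.1 l ≤ x.1 k}

theorem bs_r_nonneg {m : ℕ} {i l : Fin (m + 2)} {x : Smp (m + 1)} (hx : x ∈ bs_C i l)
    (k : Fin (m + 2)) : 0 ≤ bs_r i l x k := by
  unfold bs_r
  split_ifs with h
  · have h1 : 0 ≤ x.1 i := x.2.1 i
    have h2 : 0 ≤ x.1 l := x.2.1 l
    positivity
  · exact sub_nonneg.2 (hx k h)

theorem bs_r_sum {m : ℕ} (i l : Fin (m + 2)) (x : Smp (m + 1)) :
    ∑ k, bs_r i l x k = 1 := by
  have h1 : ∑ k, x.1 k = 1 := x.2.2
  rw [Fin.sum_univ_succAbove _ i] at h1 ⊢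
  have h2 : bs_r i l x i = x.1 i + (m + 1) * x.1 l := by simp [bs_r]
  have h3 : ∀ k : Fin (m + 1), bs_r i l x (i.succAbove k) = x.1 (i.succAbove k) - x.1 l := by
    intro k
    simp [bs_r, Fin.succAbove_ne]
  rw [h2]
  simp_rw [h3]
  rw [Finset.sum_sub_distrib]
  simp only [Finset.sum_const, Finset.card_univ, Fintype.card_fin, nsmul_eq_mul]
  push_cast
  linarith

theorem bs_r_self {m : ℕ} {i l : Fin (m + 2)} (hl : l ≠ i) (x : Smp (m + 1)) :
    bs_r i l x l = 0 := by
  simp [bs_r, hl]

/-- The point of the `l`-th face. -/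
def bs_u {m : ℕ} {i l : Fin (m + 2)} (hl : l ≠ i) (x : Smp (m + 1)) (hx : x ∈ bs_C i l) :
    Smp m :=
  ⟨fun k => bs_r i l x (l.succAbove k), fun k => bs_r_nonneg hx _, by
    have := bs_r_sum i l x
    rw [Fin.sum_univ_succAbove _ l, bs_r_self hl, zero_add] at this
    exact this⟩

theorem bs_compat {M : Type} [TopologicalSpace M] (m : ℕ) (i : Fin (m + 2))
    (x : Fin (m + 2) → Sing M m)
    (h : ∀ l l', l ≠ i → l' ≠ i → ∀ (p : ℕ) (θ θ' : Fin (p + 1) ↪o Fin (m + 1)),
      θ.trans (del l) = θ'.trans (del l') → (x l).comp (smap θ) = (x l').comp (smap θ'))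
    {l l' : Fin (m + 2)} (hl : l ≠ i) (hl' : l' ≠ i) (y : Smp (m + 1)) (hy : y ∈ bs_C i l)
    (hy' : y ∈ bs_C i l') : x l (bs_u hl y hy) = x l' (bs_u hl' y hy') := by
  by_cases hll : l = l'
  · subst hll
    rfl
  obtain _ | m := m
  · exact absurd (show l = l' by omega) hll
  obtain ⟨k0, rfl⟩ := Fin.exists_succAbove_eq (Ne.symm hll)
  have e1 : (l.succAbove k0).succAbove (k0.predAbove l) = l :=
    Fin.succAbove_succAbove_predAbove l k0
  have ht : y.1 l = y.1 (l.succAbove k0) := le_antisymm (hy _ hl') (hy' _ hl)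
  have hr : ∀ k, bs_r i l y k = bs_r i (l.succAbove k0) y k := by
    intro k
    simp only [bs_r, ht]
  have hθ : (del k0).trans (del l) = (del (k0.predAbove l)).trans (del (l.succAbove k0)) := by
    ext a
    simp only [RelEmbedding.coe_trans, Function.comp_apply, Fin.succAboveOrderEmb_apply]
    rw [Fin.succAbove_succAbove_succAbove_predAbove]
  have hp1 : (bs_u hl y hy).1 k0 = 0 := by
    show bs_r i l y (l.succAbove k0) = 0
    rw [hr]
    exact bs_r_self hl' y
  have hp2 : (bs_u hl' y hy').1 (k0.predAbove l) = 0 := by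
    show bs_r i (l.succAbove k0) y ((l.succAbove k0).succAbove (k0.predAbove l)) = 0
    rw [e1, ← hr]
    exact bs_r_self hl y
  -- the common point of the face of codimension two
  have hp : ∑ a, (bs_u hl y hy).1 (k0.succAbove a) = 1 := by
    have := (bs_u hl y hy).2.2
    rw [Fin.sum_univ_succAbove _ k0, hp1, zero_add] at this
    exact this
  let p : Smp m := ⟨fun a => (bs_u hl y hy).1 (k0.succAbove a), fun a => (bs_u hl y hy).2.1 _, hp⟩
  have hq : ∀ (s : Smp (m + 1)) (k : Fin (m + 2)), s.1 k = 0 →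
      (∀ a, s.1 (k.succAbove a) = p.1 a) → s = smap (del k) p := by
    intro s k hs0 hs
    apply Subtype.ext
    funext b
    rcases eq_or_ne b k with rfl | hb
    · rw [hs0, bs_smap_apply_zero]
      intro a
      exact Fin.succAbove_ne _ _
    · obtain ⟨a, rfl⟩ := Fin.exists_succAbove_eq hb
      rw [hs]
      exact (bs_smap_apply (del k) (del k).injective p a).symm
  have h1 : bs_u hl y hy = smap (del k0) p := hq _ _ hp1 (fun a => rfl)
  have h2 : bs_u hl' y hy' = smap (del (k0.predAbove l)) p := by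
    refine hq _ _ hp2 (fun a => ?_)
    show bs_r i (l.succAbove k0) y ((l.succAbove k0).succAbove ((k0.predAbove l).succAbove a)) =
      bs_r i l y (l.succAbove (k0.succAbove a))
    rw [hr, Fin.succAbove_succAbove_succAbove_predAbove]
  rw [h1, h2]
  exact congrArg (fun g : C(Smp m, M) => g p) (h l _ hl hl' m (del k0) (del (k0.predAbove l)) hθ)

theorem bs_isClosed {m : ℕ} (i l : Fin (m + 2)) : IsClosed (bs_C i l) := by
  have : bs_C i l = ⋂ k, {x : Smp (m + 1) | k ≠ i → x.1 l ≤ x.1 k} := by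
    ext x
    simp [bs_C]
  rw [this]
  refine isClosed_iInter fun k => ?_
  by_cases hk : k = i
  · simp [hk]
  · simp only [ne_eq, hk, not_false_eq_true, forall_const]
    exact isClosed_le ((continuous_apply l).comp continuous_subtype_val)
      ((continuous_apply k).comp continuous_subtype_val)

theorem bs_exists {m : ℕ} (i : Fin (m + 2)) (x : Smp (m + 1)) :
    ∃ l, l ≠ i ∧ x ∈ bs_C i l := by
  have hne : (Finset.univ.erase i : Finset (Fin (m + 2))).Nonempty := by
    rw [← Finset.card_pos, Finset.card_erase_of_mem (Finset.mem_univ _)]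
    simp
  obtain ⟨l, hl, hmin⟩ := Finset.exists_min_image (Finset.univ.erase i) (fun k => x.1 k) hne
  refine ⟨l, (Finset.mem_erase.1 hl).1, fun k hk => hmin k ?_⟩
  exact Finset.mem_erase.2 ⟨hk, Finset.mem_univ _⟩

/-- (B2) Horn filling for singular simplices. -/
theorem sing_kan {M : Type} [TopologicalSpace M] (m : ℕ) (i : Fin (m + 2))
    (x : Fin (m + 2) → Sing M m)
    (h : ∀ l l', l ≠ i → l' ≠ i → ∀ (p : ℕ) (θ θ' : Fin (p + 1) ↪o Fin (m + 1)),
      θ.trans (del l) = θ'.trans (del l') → (x l).comp (smap θ) = (x l').comp (smap θ')) :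
    ∃ τ : Sing M (m + 1), ∀ l, l ≠ i → sface l τ = x l := by
  choose L hL hLC using bs_exists (m := m) i
  let f : Smp (m + 1) → M := fun y => x (L y) (bs_u (hL y) y (hLC y))
  have hf : ∀ (l : Fin (m + 2)) (hl : l ≠ i) (y : Smp (m + 1)) (hy : y ∈ bs_C i l),
      f y = x l (bs_u hl y hy) := fun l hl y hy =>
    bs_compat m i x h (hL y) hl y (hLC y) hy
  have hcont : Continuous f := by
    refine (locallyFinite_of_finite
      (fun l : {l : Fin (m + 2) // l ≠ i} => bs_C i l.1)).continuous ?_ ?_ ?_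
    · rw [Set.eq_univ_iff_forall]
      intro y
      exact Set.mem_iUnion.2 ⟨⟨L y, hL y⟩, hLC y⟩
    · intro l
      exact bs_isClosed i l.1
    · intro l
      rw [continuousOn_iff_continuous_domRestrict]
      have e : (bs_C i l.1).domRestrict f =
          fun y : bs_C i l.1 => x l.1 (bs_u l.2 y.1 y.2) := by
        funext y
        exact hf l.1 l.2 y.1 y.2
      rw [e]
      refine (x l.1).continuous.comp ?_
      refine Continuous.subtype_mk ?_ _
      refine continuous_pi fun k => ?_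
      have c : ∀ a : Fin (m + 2), Continuous (fun y : bs_C i l.1 => y.1.1 a) := fun a =>
        (continuous_apply a).comp (continuous_subtype_val.comp continuous_subtype_val)
      unfold bs_r
      split_ifs
      · exact (c _).add (continuous_const.mul (c _))
      · exact (c _).sub (c _)
  refine ⟨⟨f, hcont⟩, fun l hl => ?_⟩
  ext p
  have hz : (smap (Fin.succAbove l) p).1 l = 0 :=
    bs_smap_apply_zero _ p l (fun k => Fin.succAbove_ne _ _)
  have hmem : smap (Fin.succAbove l) p ∈ bs_C i l := by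
    intro k _
    rw [hz]
    exact (smap (Fin.succAbove l) p).2.1 k
  show f (smap (Fin.succAbove l) p) = x l p
  rw [hf l hl _ hmem]
  congr 1
  apply Subtype.ext
  funext k
  have hk : (smap (Fin.succAbove l) p).1 (l.succAbove k) = p.1 k :=
    bs_smap_apply _ Fin.succAbove_right_injective p k
  show bs_r i l (smap (Fin.succAbove l) p) (l.succAbove k) = p.1 k
  unfold bs_r
  rw [hz]
  split_ifs with hki
  · rw [mul_zero, add_zero, ← hki, hk]
  · rw [sub_zero, hk]

end PartB

end SimpVol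
end
end

section

/-!
# SV-48: bilipschitz charts of Riemannian manifolds
-/

set_option autoImplicit false

open scoped Topology ENNReal NNReal ContDiff Manifold
open MeasureTheory

noncomputable section

namespace SimpVol

section gcGeneral

open Bundle Manifold Set Filter

variable
  {E : Type*} [NormedAddCommGroup E] [NormedSpace ℝ E]
  {H : Type*} [TopologicalSpace H] {I : ModelWithCorners ℝ E H}
  {M : Type*} [TopologicalSpace M] [ChartedSpace H M]
  [RiemannianBundle (fun (x : M) ↦ TangentSpace I x)]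
  [IsManifold I 1 M]

set_option backward.isDefEq.respectTransparency false in
private lemma gc_upper (p : M) (A : E →L[ℝ] E) {C : ℝ≥0} {u : Set M}
    (hu : u ⊆ (chartAt H p).source)
    (hA : ∀ y ∈ u, ∀ v : TangentSpace I y,
      ‖A ((mfderiv I 𝓘(ℝ, E) (extChartAt I p) y v : E))‖ₑ ≤ C * ‖v‖ₑ)
    {γ : ℝ → M} (hγ : ContMDiff 𝓘(ℝ, ℝ) I 1 γ) (hγu : ∀ t ∈ Icc (0:ℝ) 1, γ t ∈ u) :
    edist (A (extChartAt I p (γ 1))) (A (extChartAt I p (γ 0))) ≤ C * pathELength I γ 0 1 := by
  let γ' : ℝ → E := extChartAt I p ∘ γ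
  have hC : ContMDiffOn 𝓘(ℝ, ℝ) 𝓘(ℝ, E) 1 γ' (Icc 0 1) :=
    contMDiffOn_extChartAt.comp (I' := I) (t := (chartAt H p).source)
      hγ.contMDiffOn (fun t' ht' ↦ hu (hγu t' ht'))
  have hC' : ContDiffOn ℝ 1 γ' (Icc 0 1) := by rwa [← contMDiffOn_iff_contDiffOn]
  have hCA : ContDiffOn ℝ 1 (fun t => A (γ' t)) (Icc 0 1) := A.contDiff.comp_contDiffOn hC'
  rw [edist_eq_enorm_sub]
  calc
    ‖A (extChartAt I p (γ 1)) - A (extChartAt I p (γ 0))‖ₑ
      = ‖(fun t => A (γ' t)) 1 - (fun t => A (γ' t)) 0‖ₑ := rfl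
    _ ≤ ∫⁻ t' in Icc (0:ℝ) 1, ‖derivWithin (fun t => A (γ' t)) (Icc 0 1) t'‖ₑ :=
      enorm_sub_le_lintegral_derivWithin_Icc_of_contDiffOn_Icc hCA zero_le_one
    _ ≤ ∫⁻ t' in Icc (0:ℝ) 1, C * ‖mfderivWithin 𝓘(ℝ, ℝ) I γ (Icc 0 1) t' 1‖ₑ := by
      apply setLIntegral_mono' measurableSet_Icc (fun t' ht' ↦ ?_)
      have hd : UniqueDiffWithinAt ℝ (Icc (0:ℝ) 1) t' := uniqueDiffOn_Icc one_pos _ ht'
      have h1 : derivWithin (fun t => A (γ' t)) (Icc 0 1) t' =
          A (derivWithin γ' (Icc 0 1) t') := by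
        have h2 : HasDerivWithinAt γ' (derivWithin γ' (Icc 0 1) t') (Icc 0 1) t' :=
          (hC'.differentiableOn one_ne_zero t' ht').hasDerivWithinAt
        exact (A.hasFDerivAt.comp_hasDerivWithinAt t' h2).derivWithin hd
      have h3 : mfderivWithin 𝓘(ℝ, ℝ) 𝓘(ℝ, E) γ' (Icc 0 1) t' =
          (mfderiv I 𝓘(ℝ, E) (extChartAt I p) (γ t')) ∘L
            (mfderivWithin 𝓘(ℝ, ℝ) I γ (Icc 0 1) t') := by
        apply mfderiv_comp_mfderivWithin
        · exact mdifferentiableAt_extChartAt (hu (hγu t' ht'))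
        · exact (hγ.mdifferentiable one_ne_zero).mdifferentiableOn _ ht'
        · rw [uniqueMDiffWithinAt_iff_uniqueDiffWithinAt]
          exact hd
      have h4 : mfderivWithin 𝓘(ℝ, ℝ) 𝓘(ℝ, E) γ' (Icc 0 1) t' 1 =
          (mfderiv I 𝓘(ℝ, E) (extChartAt I p) (γ t'))
            (mfderivWithin 𝓘(ℝ, ℝ) I γ (Icc 0 1) t' 1) := congr($h3 1)
      have h5 : derivWithin γ' (Icc 0 1) t' =
          ((mfderiv I 𝓘(ℝ, E) (extChartAt I p) (γ t'))
            (mfderivWithin 𝓘(ℝ, ℝ) I γ (Icc 0 1) t' 1) : E) := by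
        rw [← h4, mfderivWithin_eq_fderivWithin, ← fderivWithin_derivWithin]
        rfl
      rw [h1, h5]
      exact hA _ (hγu t' ht') _
    _ = C * pathELength I γ 0 1 := by
      rw [lintegral_const_mul' _ _ ENNReal.coe_ne_top,
          pathELength_eq_lintegral_mfderivWithin_Icc]

private lemma gc_fderiv_lineMap (a b : E) (t : ℝ) :
    (fderiv ℝ (ContinuousAffineMap.lineMap (R := ℝ) a b) t) 1 = b - a := by simp

set_option backward.isDefEq.respectTransparency false in
private lemma gc_lower (p : M) (A : E →L[ℝ] E) {C : ℝ≥0} {W : Set E} (hWc : Convex ℝ W)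
    (hW : W ⊆ (extChartAt I p).target)
    (hA : ∀ z ∈ W, ∀ v : E,
      ‖mfderivWithin 𝓘(ℝ, E) I (extChartAt I p).symm (range I) z v‖ₑ ≤ C * ‖A v‖ₑ)
    {x y : M} (hx : x ∈ (extChartAt I p).source) (hy : y ∈ (extChartAt I p).source)
    (hxW : extChartAt I p x ∈ W) (hyW : extChartAt I p y ∈ W) :
    riemannianEDist I x y ≤ C * edist (A (extChartAt I p x)) (A (extChartAt I p y)) := by
  let η := ContinuousAffineMap.lineMap (R := ℝ) (extChartAt I p x) (extChartAt I p y)
  set γ := (extChartAt I p).symm ∘ η with hγdef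
  have hη : Icc 0 1 ⊆ ⇑η ⁻¹' W := by
    simp only [← image_subset_iff, ContinuousAffineMap.coe_lineMap_eq,
     ← segment_eq_image_lineMap, η]
    exact hWc.segment_subset hxW hyW
  have hη' : Icc 0 1 ⊆ ⇑η ⁻¹' (extChartAt I p).target := hη.trans (preimage_mono hW)
  have η_smooth : ContMDiffOn 𝓘(ℝ, ℝ) 𝓘(ℝ, E) 1 η (Icc 0 1) := by
    apply ContMDiff.contMDiffOn
    rw [contMDiff_iff_contDiff]
    exact ContinuousAffineMap.contDiff _
  have h1 : riemannianEDist I x y ≤ pathELength I γ 0 1 := by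
    apply riemannianEDist_le_pathELength _ _ _ zero_le_one
    · exact (contMDiffOn_extChartAt_symm p).comp η_smooth hη'
    · have h0 : η 0 = extChartAt I p x := by simp [η, ContinuousAffineMap.coe_lineMap_eq]
      rw [hγdef, Function.comp_apply, h0, (extChartAt I p).left_inv hx]
    · have h0 : η 1 = extChartAt I p y := by simp [η, ContinuousAffineMap.coe_lineMap_eq]
      rw [hγdef, Function.comp_apply, h0, (extChartAt I p).left_inv hy]
  apply h1.trans
  have hη1 : ∀ t ∈ Icc (0:ℝ) 1, (mfderivWithin 𝓘(ℝ, ℝ) 𝓘(ℝ, E) η (Icc 0 1) t 1 : E) =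
      extChartAt I p y - extChartAt I p x := by
    intro t ht
    rw [mfderivWithin_eq_fderivWithin,
      fderivWithin_eq_fderiv (uniqueDiffOn_Icc zero_lt_one _ ht)
        (ContinuousAffineMap.differentiableAt _)]
    have h0 := gc_fderiv_lineMap (extChartAt I p x) (extChartAt I p y) t
    exact h0
  have h2 : C * edist (A (extChartAt I p x)) (A (extChartAt I p y)) =
      ∫⁻ _t in Icc (0 : ℝ) 1, C * ‖A (extChartAt I p y - extChartAt I p x)‖ₑ := by
    rw [setLIntegral_const, edist_comm, edist_eq_enorm_sub, map_sub]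
    simp
  rw [h2, pathELength_eq_lintegral_mfderivWithin_Icc]
  apply setLIntegral_mono' measurableSet_Icc (fun t ht ↦ ?_)
  have h3 : mfderivWithin 𝓘(ℝ, ℝ) I γ (Icc 0 1) t =
      (mfderivWithin 𝓘(ℝ, E) I (extChartAt I p).symm (range I) (η t)) ∘L
        (mfderivWithin 𝓘(ℝ, ℝ) 𝓘(ℝ, E) η (Icc 0 1) t) := by
    apply mfderivWithin_comp
    · exact mdifferentiableWithinAt_extChartAt_symm (hη' ht)
    · exact η_smooth.mdifferentiableOn one_ne_zero t ht
    · exact hη'.trans (preimage_mono (extChartAt_target_subset_range p))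
    · rw [uniqueMDiffWithinAt_iff_uniqueDiffWithinAt]
      exact uniqueDiffOn_Icc zero_lt_one t ht
  have h4 : mfderivWithin 𝓘(ℝ, ℝ) I γ (Icc 0 1) t 1 =
      (mfderivWithin 𝓘(ℝ, E) I (extChartAt I p).symm (range I) (η t))
        (mfderivWithin 𝓘(ℝ, ℝ) 𝓘(ℝ, E) η (Icc 0 1) t 1) := congr($h3 1)
  rw [h4, ← hη1 t ht]
  exact hA _ (hη ht) _

set_option backward.isDefEq.respectTransparency false in
private lemma gc_symm_norm (p : M) {z : E} (hz : z ∈ (extChartAt I p).target) (v : E) :
    ‖mfderivWithin 𝓘(ℝ, E) I (extChartAt I p).symm (range I) z v‖ₑ =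
      ‖(trivializationAt E (fun x : M => TangentSpace I x) p).symmL ℝ
        ((extChartAt I p).symm z) v‖ₑ := by
  have hy : (extChartAt I p).symm z ∈ (chartAt H p).source := by
    have := (extChartAt I p).map_target hz
    rwa [extChartAt_source] at this
  have h := TangentBundle.symmL_trivializationAt (I := I) (x₀ := p) hy
  rw [(extChartAt I p).right_inv hz] at h
  rw [h]
  rfl

variable [IsContinuousRiemannianBundle E (fun (x : M) ↦ TangentSpace I x)]

set_option backward.isDefEq.respectTransparency false in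
private lemma gc_bounds (p : M) (L : TangentSpace I p ≃ₗᵢ[ℝ] E) :
    ∃ A : E ≃L[ℝ] E, ∃ s ∈ 𝓝 p, s ⊆ (chartAt H p).source ∧ ∀ y ∈ s,
      (∀ v : TangentSpace I y,
        ‖A ((mfderiv I 𝓘(ℝ, E) (extChartAt I p) y v : E))‖ₑ ≤ (2 : ℝ≥0) * ‖v‖ₑ) ∧
      (∀ v : E, ‖(trivializationAt E (fun x : M => TangentSpace I x) p).symmL ℝ y v‖ₑ ≤
        (2 : ℝ≥0) * ‖A v‖ₑ) := by
  have hp : p ∈ (trivializationAt E (fun x : M => TangentSpace I x) p).baseSet :=
    FiberBundle.mem_baseSet_trivializationAt' p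
  let G := (trivializationAt E (fun x : M => TangentSpace I x) p).continuousLinearEquivAt ℝ p hp
  let A : E ≃L[ℝ] E := G.symm.trans L.toContinuousLinearEquiv
  have hA : ∀ v : E, A v =
      L ((trivializationAt E (fun x : M => TangentSpace I x) p).symmL ℝ p v) := by
    intro v
    have h0 : G.symm v = (trivializationAt E (fun x : M => TangentSpace I x) p).symmL ℝ p v :=
      congrFun (Trivialization.symm_continuousLinearEquivAt_eq
        (trivializationAt E (fun x : M => TangentSpace I x) p) hp) v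
    rw [← h0]
    rfl
  have h1 := eventually_norm_symmL_trivializationAt_self_comp_lt E
    (fun x : M => TangentSpace I x) p (r := 2) one_lt_two
  have h2 := eventually_norm_symmL_trivializationAt_comp_self_lt E
    (fun x : M => TangentSpace I x) p (r := 2) one_lt_two
  have h3 : (chartAt H p).source ∈ 𝓝 p := chart_source_mem_nhds H p
  refine ⟨A, _, Filter.inter_mem (Filter.inter_mem h1 h2) h3, fun y hy => hy.2, ?_⟩
  rintro y ⟨⟨hy1, hy2⟩, hy3⟩
  rw [Set.mem_ofPred_eq] at hy1 hy2
  constructor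
  · intro v
    have h4 : (mfderiv I 𝓘(ℝ, E) (extChartAt I p) y v : E) =
        (trivializationAt E (fun x : M => TangentSpace I x) p).continuousLinearMapAt ℝ y v := by
      rw [← TangentBundle.continuousLinearMapAt_trivializationAt hy3]
      rfl
    rw [h4, hA]
    have h5 := (((trivializationAt E (fun x : M => TangentSpace I x) p).symmL ℝ p) ∘L
      ((trivializationAt E (fun x : M => TangentSpace I x) p).continuousLinearMapAt ℝ y)).le_opNorm v
    have h6 : ‖(trivializationAt E (fun x : M => TangentSpace I x) p).symmL ℝ p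
        ((trivializationAt E (fun x : M => TangentSpace I x) p).continuousLinearMapAt ℝ y v)‖ ≤
        2 * ‖v‖ := h5.trans (mul_le_mul_of_nonneg_right hy1.le (norm_nonneg _))
    rw [← ofReal_norm, ← ofReal_norm, L.norm_map]
    refine (ENNReal.ofReal_le_ofReal h6).trans (le_of_eq ?_)
    rw [ENNReal.ofReal_mul (by norm_num)]
    norm_num
  · intro v
    have h4 : (trivializationAt E (fun x : M => TangentSpace I x) p).continuousLinearMapAt ℝ p
        ((trivializationAt E (fun x : M => TangentSpace I x) p).symmL ℝ p v) = v :=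
      Trivialization.continuousLinearMapAt_symmL _ hp v
    have h5 := (((trivializationAt E (fun x : M => TangentSpace I x) p).symmL ℝ y) ∘L
      ((trivializationAt E (fun x : M => TangentSpace I x) p).continuousLinearMapAt ℝ p)).le_opNorm
      ((trivializationAt E (fun x : M => TangentSpace I x) p).symmL ℝ p v)
    rw [ContinuousLinearMap.comp_apply, h4] at h5
    have h6 : ‖(trivializationAt E (fun x : M => TangentSpace I x) p).symmL ℝ y v‖ ≤
        2 * ‖(trivializationAt E (fun x : M => TangentSpace I x) p).symmL ℝ p v‖ :=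
      h5.trans (mul_le_mul_of_nonneg_right hy2.le (norm_nonneg _))
    rw [hA, ← ofReal_norm, ← ofReal_norm, L.norm_map]
    refine (ENNReal.ofReal_le_ofReal h6).trans (le_of_eq ?_)
    rw [ENNReal.ofReal_mul (by norm_num)]
    norm_num

end gcGeneral

open Bundle

set_option backward.isDefEq.respectTransparency false in
/-- (G1a) 2-bilipschitz charts of Riemannian manifolds (sup norm version) -/
theorem riem_chart {n : ℕ} (hn : 1 ≤ n) {M : Type} [MetricSpace M]
    [ChartedSpace (EuclideanSpace ℝ (Fin n)) M] [IsManifold (𝓡 n) ∞ M]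
    [RiemannianBundle (fun x : M => TangentSpace (𝓡 n) x)]
    [IsContMDiffRiemannianBundle (𝓡 n) ∞
      (EuclideanSpace ℝ (Fin n))
      (fun x : M => TangentSpace (𝓡 n) x)]
    [IsRiemannianManifold (𝓡 n) M] (p : M) :
    ∃ (U : Set M) (φ : M → (Fin n → ℝ)), IsOpen U ∧ p ∈ U ∧
      (∀ x ∈ U, ∀ y ∈ U, dist x y ≤ 2 * n * dist (φ x) (φ y) ∧
        dist (φ x) (φ y) ≤ 2 * n * dist x y) ∧
      ∀ V ⊆ U, IsOpen V → IsOpen (φ '' V) := by
  have hcont : IsContinuousRiemannianBundle (EuclideanSpace ℝ (Fin n))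
      (fun x : M => TangentSpace (𝓡 n) x) := by
    obtain ⟨g, hg1, hg2⟩ := IsContMDiffRiemannianBundle.exists_contMDiff (IB := 𝓡 n) (n := ∞)
      (F := EuclideanSpace ℝ (Fin n)) (E := fun x : M => TangentSpace (𝓡 n) x)
    exact ⟨g, hg1.continuous, hg2⟩
  have hfd : FiniteDimensional ℝ (TangentSpace (𝓡 n) p) :=
    inferInstanceAs (FiniteDimensional ℝ (EuclideanSpace ℝ (Fin n)))
  have hfr : Module.finrank ℝ (TangentSpace (𝓡 n) p) = n := by
    have : Module.finrank ℝ (EuclideanSpace ℝ (Fin n)) = n := by simp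
    exact this
  let Bp : TangentSpace (𝓡 n) p ≃ₗᵢ[ℝ] EuclideanSpace ℝ (Fin n) :=
    ((stdOrthonormalBasis ℝ (TangentSpace (𝓡 n) p)).reindex (finCongr hfr)).repr
  obtain ⟨A, s, hs, hsub, hb⟩ := gc_bounds (I := 𝓡 n) p Bp
  set e := extChartAt (𝓡 n) p with he
  have hpe : p ∈ e.source := mem_extChartAt_source p
  -- a ball in the model space
  obtain ⟨r₀, hr₀, hball⟩ : ∃ r₀ > 0, Metric.ball (e p) r₀ ⊆ e.target ∩ e.symm ⁻¹' s := by
    rw [← Metric.mem_nhds_iff]
    refine Filter.inter_mem (extChartAt_target_mem_nhds p) ?_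
    have hc : ContinuousAt e.symm (e p) := continuousAt_extChartAt_symm p
    apply hc.preimage_mem_nhds
    rw [e.left_inv hpe]
    exact hs
  have hN : s ∩ e ⁻¹' (Metric.ball (e p) r₀) ∈ 𝓝 p :=
    Filter.inter_mem hs ((continuousAt_extChartAt p).preimage_mem_nhds (Metric.ball_mem_nhds _ hr₀))
  obtain ⟨δ', hδ', hδN⟩ := Metric.mem_nhds_iff.mp hN
  set δ := δ' / 3 with hδ
  have hδ0 : 0 < δ := by positivity
  have h3δ : 3 * δ = δ' := by rw [hδ]; ring
  have hUN : Metric.ball p δ ⊆ s ∩ e ⁻¹' (Metric.ball (e p) r₀) :=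
    (Metric.ball_subset_ball (by linarith)).trans hδN
  have hlow : ∀ x ∈ Metric.ball p δ, ∀ y ∈ Metric.ball p δ,
      dist x y ≤ 2 * dist (A (e x)) (A (e y)) := by
    intro x hx y hy
    have hxs : x ∈ e.source := by
      rw [he, extChartAt_source]; exact hsub (hUN hx).1
    have hys : y ∈ e.source := by
      rw [he, extChartAt_source]; exact hsub (hUN hy).1
    have h := gc_lower (I := 𝓡 n) p (A : EuclideanSpace ℝ (Fin n) →L[ℝ] EuclideanSpace ℝ (Fin n))
      (C := 2) (convex_ball (e p) r₀) (hball.trans Set.inter_subset_left) ?_ hxs hys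
      (hUN hx).2 (hUN hy).2
    · rw [← IsRiemannianManifold.out, edist_dist, edist_dist] at h
      have h2 : ((2 : ℝ≥0) : ℝ≥0∞) = ENNReal.ofReal 2 := by norm_num
      rw [h2, ← ENNReal.ofReal_mul (by norm_num)] at h
      exact (ENNReal.ofReal_le_ofReal_iff (by positivity)).mp h
    · intro z hz v
      rw [gc_symm_norm p (hball hz).1 v]
      exact (hb _ (hball hz).2).2 v
  have hup : ∀ x ∈ Metric.ball p δ, ∀ y ∈ Metric.ball p δ,
      dist (A (e x)) (A (e y)) ≤ 2 * dist x y := by
    intro x hx y hy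
    by_contra hcon
    rw [not_le] at hcon
    have hxy : dist x y < 2 * δ := by
      have h1 := dist_triangle_right x y p
      rw [Metric.mem_ball] at hx hy
      linarith
    have hxy2 : dist x y < dist (A (e x)) (A (e y)) / 2 := by linarith
    obtain ⟨r, hr1, hr2⟩ := exists_between (lt_min hxy hxy2)
    have hr0 : 0 < r := dist_nonneg.trans_lt hr1
    have hlt : Manifold.riemannianEDist (𝓡 n) x y < ENNReal.ofReal r := by
      rw [← IsRiemannianManifold.out, edist_dist]
      exact (ENNReal.ofReal_lt_ofReal_iff hr0).mpr hr1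
    obtain ⟨γ, hγ0, hγ1, hγs, hγl, -⟩ :=
      Manifold.exists_lt_locally_constant_of_riemannianEDist_lt hlt zero_lt_one
    have hmem : ∀ t ∈ Set.Icc (0:ℝ) 1, γ t ∈ s := by
      intro t ht
      have h1 : Manifold.riemannianEDist (𝓡 n) x (γ t) ≤ Manifold.pathELength (𝓡 n) γ 0 t :=
        Manifold.riemannianEDist_le_pathELength hγs.contMDiffOn hγ0 rfl ht.1
      have h2 : Manifold.pathELength (𝓡 n) γ 0 t ≤ Manifold.pathELength (𝓡 n) γ 0 1 :=
        Manifold.pathELength_mono le_rfl ht.2
      have h3 := (h1.trans h2).trans_lt hγl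
      rw [← IsRiemannianManifold.out, edist_dist, ENNReal.ofReal_lt_ofReal_iff hr0] at h3
      have h4 : dist (γ t) p ≤ dist x (γ t) + dist x p := by
        have := dist_triangle_left (γ t) p x
        linarith
      rw [Metric.mem_ball] at hx
      have h5 : r < 2 * δ := hr2.trans_le (min_le_left _ _)
      apply (hδN _).1
      rw [Metric.mem_ball]
      linarith
    have h := gc_upper (I := 𝓡 n) p (A : EuclideanSpace ℝ (Fin n) →L[ℝ] EuclideanSpace ℝ (Fin n))
      (C := 2) hsub (fun y hy v => (hb y hy).1 v) hγs hmem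
    rw [hγ0, hγ1] at h
    have h6 := h.trans (mul_le_mul_right hγl.le _)
    have h2 : ((2 : ℝ≥0) : ℝ≥0∞) = ENNReal.ofReal 2 := by norm_num
    rw [h2, ← ENNReal.ofReal_mul (by norm_num), edist_dist,
      ENNReal.ofReal_le_ofReal_iff (by positivity), dist_comm] at h6
    have h7 : r < dist (A (e x)) (A (e y)) / 2 := hr2.trans_le (min_le_right _ _)
    have h8 : dist (A (e x)) (A (e y)) ≤ 2 * r := h6
    linarith
  -- comparison of the norms
  have hn1 : (1:ℝ) ≤ n := by exact_mod_cast hn
  have hcmp1 : ∀ a b : EuclideanSpace ℝ (Fin n),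
      dist (WithLp.ofLp a) (WithLp.ofLp b) ≤ dist a b := by
    intro a b
    rw [dist_pi_le_iff dist_nonneg]
    intro i
    rw [EuclideanSpace.dist_eq]
    apply Real.le_sqrt_of_sq_le
    exact Finset.single_le_sum (f := fun i => dist (a i) (b i) ^ 2)
      (fun j _ => sq_nonneg _) (Finset.mem_univ i)
  have hcmp2 : ∀ a b : EuclideanSpace ℝ (Fin n),
      dist a b ≤ n * dist (WithLp.ofLp a) (WithLp.ofLp b) := by
    intro a b
    rw [EuclideanSpace.dist_eq]
    apply Real.sqrt_le_iff.mpr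
    refine ⟨by positivity, ?_⟩
    have h1 : ∑ i, dist (a i) (b i) ^ 2 ≤
        ∑ _i : Fin n, dist (WithLp.ofLp a) (WithLp.ofLp b) ^ 2 := by
      apply Finset.sum_le_sum
      intro i _
      apply pow_le_pow_left₀ dist_nonneg
      exact dist_le_pi_dist (WithLp.ofLp a) (WithLp.ofLp b) i
    refine h1.trans ?_
    rw [Finset.sum_const, Finset.card_univ, Fintype.card_fin, nsmul_eq_mul, mul_pow]
    apply mul_le_mul_of_nonneg_right _ (sq_nonneg _)
    nlinarith
  refine ⟨Metric.ball p δ, fun x => WithLp.ofLp (A (e x)), Metric.isOpen_ball,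
    Metric.mem_ball_self hδ0, ?_, ?_⟩
  · intro x hx y hy
    constructor
    · have h1 := hlow x hx y hy
      have h2 := hcmp2 (A (e x)) (A (e y))
      calc dist x y ≤ 2 * dist (A (e x)) (A (e y)) := h1
        _ ≤ 2 * (n * dist (WithLp.ofLp (A (e x))) (WithLp.ofLp (A (e y)))) := by gcongr
        _ = _ := by ring
    · have h1 := hup x hx y hy
      have h2 := hcmp1 (A (e x)) (A (e y))
      calc dist (WithLp.ofLp (A (e x))) (WithLp.ofLp (A (e y))) ≤ 2 * dist x y := h2.trans h1
        _ = 2 * 1 * dist x y := by ring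
        _ ≤ 2 * n * dist x y := by gcongr
  · intro V hVU hV
    have hVs : V ⊆ (chartAt (EuclideanSpace ℝ (Fin n)) p).source := fun x hx =>
      hsub (hUN (hVU hx)).1
    have h1 : IsOpen (e '' V) := by
      have h2 := (chartAt (EuclideanSpace ℝ (Fin n)) p).isOpen_image_of_subset_source hV hVs
      have h3 : (e : M → EuclideanSpace ℝ (Fin n)) =
          (chartAt (EuclideanSpace ℝ (Fin n)) p : M → EuclideanSpace ℝ (Fin n)) := by
        rw [he, extChartAt_coe]
        rfl
      rw [h3]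
      exact h2
    have h2 : IsOpen (A '' (e '' V)) := A.toHomeomorph.isOpenMap _ h1
    have h3 : IsOpen ((EuclideanSpace.equiv (Fin n) ℝ) '' (A '' (e '' V))) :=
      (EuclideanSpace.equiv (Fin n) ℝ).toHomeomorph.isOpenMap _ h2
    rw [Set.image_image, Set.image_image] at h3
    exact h3

end SimpVol
end
end

section

/-!
# MP_fa46d7_gt: low dimensional fillings for lifts (B3)
-/

set_option autoImplicit false

open scoped Topology ENNReal NNReal ContDiff Manifold
open MeasureTheory

noncomputable section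

namespace SimpVol

private theorem bf_cov_eq {M : Type} [TopologicalSpace M] {y a b : M} (h : a = b) (c : Hm y a)
    (c' : Hm y b) (hc : c = c'.cast rfl h) : (⟨a, c⟩ : Cov y) = ⟨b, c'⟩ := by
  subst h
  rw [hc, Path.Homotopic.Quotient.cast_rfl_rfl]

/-- the value of a lift along a path -/
private theorem bf_along {M : Type} [TopologicalSpace M] {y : M} {m : ℕ}
    (L : (liftSet y).obj m) {p q : Smp m} (e : Path p q) {a b : M} (c : Hm y a)
    (hp : L.1 p = ⟨a, c⟩) (δ : Path a b) (hδ : ∀ t, δ t = (L.1 (e t)).1) :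
    L.1 q = ⟨b, c.trans (Path.Homotopic.Quotient.mk δ)⟩ := by
  obtain ⟨L, h, hL⟩ := L
  have h1 := hL p q e
  have key : ∀ (P Q : Cov y) (ε : Path P.1 Q.1), P = ⟨a, c⟩ → (∀ t, δ t = ε t) →
      Q.2 = P.2.trans (Path.Homotopic.Quotient.mk ε) →
      Q = ⟨b, c.trans (Path.Homotopic.Quotient.mk δ)⟩ := by
    rintro P ⟨b', c'⟩ ε rfl hε h2
    have hb : b = b' := by
      have h3 := hε 1
      rw [δ.target, ε.target] at h3
      exact h3
    subst hb
    have h4 : δ = ε := by
      ext t
      exact hε t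
    subst h4
    exact congrArg (fun z => (⟨b, z⟩ : Cov y)) h2
  exact key (L p) (L q) (e.map h) hp hδ h1

/-- the segment between two vertices -/
private def bf_seg {m : ℕ} (u v : Fin (m + 1)) : Path (vtx u : Smp m) (vtx v) where
  toFun t := ⟨(1 - (t : ℝ)) • (Pi.single u 1 : Fin (m + 1) → ℝ) +
      (t : ℝ) • (Pi.single v 1 : Fin (m + 1) → ℝ),
    convex_stdSimplex ℝ _ (single_mem_stdSimplex ℝ u) (single_mem_stdSimplex ℝ v)
      (sub_nonneg.2 t.2.2) t.2.1 (by ring)⟩
  continuous_toFun := by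
    refine Continuous.subtype_mk ?_ _
    fun_prop
  source' := by
    apply Subtype.ext
    simp [vtx]
  target' := by
    apply Subtype.ext
    simp [vtx]

private theorem bf_seg_apply {m : ℕ} {u v : Fin (m + 1)} (huv : u ≠ v) (t : unitInterval) :
    (bf_seg u v t).1 v = (t : ℝ) := by
  show ((1 - (t : ℝ)) • (Pi.single u 1 : Fin (m + 1) → ℝ) +
      (t : ℝ) • (Pi.single v 1 : Fin (m + 1) → ℝ)) v = (t : ℝ)
  simp [Pi.single_eq_of_ne huv.symm]

private theorem bf_smap_vtx {j m : ℕ} (θ : Fin (j + 1) → Fin (m + 1)) (a : Fin (j + 1)) :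
    smap θ (vtx a) = vtx (θ a) :=
  stdSimplex.map_vertex θ a

private theorem bf_pr {M : Type} [TopologicalSpace M] {y : M} {m : ℕ} (L : (liftSet y).obj m)
    (σ : Sing M m) (h : pr L = σ) (p : Smp m) : (L.1 p).1 = σ p :=
  congrArg (fun f : Sing M m => f p) h

private theorem bf_edge {M : Type} [TopologicalSpace M] {x y : M} (γ : Path y x) (u v : Fin 2)
    (huv : u ≠ v) : ∃ L : (liftSet y).obj 1,
      L.1 (vtx u) = ⟨y, Path.Homotopic.Quotient.refl y⟩ ∧
      L.1 (vtx v) = ⟨x, Path.Homotopic.Quotient.mk γ⟩ := by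
  let σ : Sing M 1 := ⟨fun p => γ ⟨p.1 v, p.2.1 v, stdSimplex.le_one p v⟩, by
    refine γ.continuous.comp (Continuous.subtype_mk ?_ _)
    exact (continuous_apply v).comp continuous_subtype_val⟩
  have h0 : σ (vtx u) = y := by
    have h1 : σ (vtx u) = γ 0 := by
      show γ ⟨_, _⟩ = γ 0
      congr 1
      apply Subtype.ext
      show (Pi.single u 1 : Fin 2 → ℝ) v = 0
      exact Pi.single_eq_of_ne huv.symm _
    rw [h1, γ.source]
  obtain ⟨L, hL1, hL2⟩ := lift_exists σ (vtx u)
    ((Path.Homotopic.Quotient.refl y).cast rfl h0)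
  have hL3 : L.1 (vtx u) = ⟨y, Path.Homotopic.Quotient.refl y⟩ := by
    rw [hL2]
    exact bf_cov_eq h0 _ _ rfl
  refine ⟨L, hL3, ?_⟩
  have h4 := bf_along L (bf_seg u v) (Path.Homotopic.Quotient.refl y) hL3 γ (by
    intro t
    rw [bf_pr L σ hL1]
    show γ t = γ ⟨_, _⟩
    congr 1
    apply Subtype.ext
    exact (bf_seg_apply huv t).symm)
  rw [h4, Path.Homotopic.Quotient.refl_trans]

private theorem bf_smp0 (p : Smp 0) : p = vtx 0 := by
  apply Subtype.ext
  funext w
  have h := p.2.2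
  rw [Fin.sum_univ_one] at h
  have hw : w = 0 := Fin.fin_one_eq_zero w
  subst hw
  rw [h]
  simp [vtx]

private theorem bf_dec1 : ∀ i l : Fin 2, l ≠ i → l.succAbove (0 : Fin 1) = i := by
  decide

private theorem bf_dec2 : ∀ i l : Fin 3, l ≠ i → ∃ v : Fin 3, v ≠ i ∧ v ≠ l := by
  decide

private theorem bf_dec3 : ∀ j : Fin 2, j = 0 ∨ j = 1 := by
  decide

theorem liftSet_fill0 {M : Type} [TopologicalSpace M] (y : M) : (liftSet y).Fill 0 := by
  intro F i
  obtain ⟨x, γ, hγ⟩ : ∃ (x : M) (γ : Path y x),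
      F.1 (vtx 0) = ⟨x, Path.Homotopic.Quotient.mk γ⟩ := by
    obtain ⟨γ, hγ⟩ := Path.Homotopic.Quotient.mk_surjective (F.1 (vtx 0)).2
    refine ⟨(F.1 (vtx 0)).1, γ, ?_⟩
    rw [hγ]
    rfl
  obtain ⟨L, h1, h2⟩ := bf_edge γ i (i.succAbove 0) (Fin.succAbove_ne i 0).symm
  refine ⟨L, ?_, fun l hl => ?_⟩
  · apply Subtype.ext
    funext p
    rw [bf_smp0 p]
    show L.1 (smap (del i) (vtx 0)) = F.1 (vtx 0)
    rw [bf_smap_vtx]
    exact h2.trans hγ.symm
  · apply Subtype.ext
    funext p
    rw [bf_smp0 p]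
    show L.1 (smap (del l) (vtx 0)) = ⟨y, Path.Homotopic.Quotient.refl y⟩
    rw [bf_smap_vtx]
    have h3 : (del l : Fin 1 ↪o Fin 2) 0 = i := bf_dec1 i l hl
    rw [h3]
    exact h1

/-- the filling simplex -/
private def bf_rho {M : Type} [TopologicalSpace M] (K : C(unitInterval × unitInterval, M))
    (i b : Fin 3) : Sing M 2 where
  toFun x := K (Set.projIcc (0 : ℝ) 1 zero_le_one (2 * x.1 i),
    Set.projIcc (0 : ℝ) 1 zero_le_one (x.1 b / max (1 - x.1 i) (1 / 2)))
  continuous_toFun := by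
    have hc : ∀ w : Fin 3, Continuous (fun x : Smp 2 => x.1 w) := fun w =>
      (continuous_apply w).comp continuous_subtype_val
    refine K.continuous.comp (Continuous.prodMk ?_ ?_)
    · exact continuous_projIcc.comp (continuous_const.mul (hc i))
    · refine continuous_projIcc.comp (Continuous.div (hc b)
        ((continuous_const.sub (hc i)).max continuous_const) ?_)
      intro x
      have h1 : (1 / 2 : ℝ) ≤ max (1 - x.1 i) (1 / 2) := le_max_right _ _
      have h2 : (0 : ℝ) < max (1 - x.1 i) (1 / 2) := lt_of_lt_of_le (by norm_num) h1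
      exact h2.ne'

private theorem bf_smap_self {m : ℕ} (i : Fin (m + 2)) (p : Smp m) :
    (smap i.succAbove p).1 i = 0 := by
  show (FunOnFinite.linearMap ℝ ℝ i.succAbove p) i = 0
  rw [FunOnFinite.linearMap_apply_apply]
  apply Finset.sum_eq_zero
  intro w hw
  rw [Finset.mem_filter] at hw
  exact absurd hw.2 (Fin.succAbove_ne i w)

private theorem bf_smap_ne {m : ℕ} (i : Fin (m + 2)) (p : Smp m) (w : Fin (m + 1)) :
    (smap i.succAbove p).1 (i.succAbove w) = p.1 w := by
  show (FunOnFinite.linearMap ℝ ℝ i.succAbove p) (i.succAbove w) = p.1 w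
  rw [FunOnFinite.linearMap_apply_apply]
  rw [Finset.sum_eq_single w]
  · rfl
  · intro b hb hbw
    rw [Finset.mem_filter] at hb
    exact absurd (Fin.succAbove_right_injective hb.2) hbw
  · intro h
    exact absurd (by simp) h

private theorem bf_proj_zero {z : ℝ} (h : z = 0) :
    Set.projIcc (0 : ℝ) 1 zero_le_one z = 0 := by
  subst h
  exact Set.projIcc_of_le_left _ le_rfl

private theorem bf_proj_one {z : ℝ} (h : 1 ≤ z) :
    Set.projIcc (0 : ℝ) 1 zero_le_one z = 1 :=
  Set.projIcc_of_right_le _ h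

theorem liftSet_fill1 {M : Type} [TopologicalSpace M] (y : M) : (liftSet y).Fill1 := by
  intro F hF i
  have hFv : ∀ v : Fin 2, F.1 (vtx v) = ⟨y, Path.Homotopic.Quotient.refl y⟩ := by
    intro v
    have hl : ∃ l : Fin 2, l.succAbove (0 : Fin 1) = v := by
      revert v
      decide
    obtain ⟨l, hl⟩ := hl
    have h := hF 0 (del l) zero_lt_one
    have h2 := congrArg (fun L : (liftSet y).obj 0 => L.1 (vtx 0)) h
    have h3 : F.1 (smap (del l) (vtx 0)) = ⟨y, Path.Homotopic.Quotient.refl y⟩ := h2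
    rw [bf_smap_vtx] at h3
    have h4 : (del l : Fin 1 ↪o Fin 2) 0 = v := hl
    rw [h4] at h3
    exact h3
  have hFy : ∀ v : Fin 2, y = pr F (vtx v) := fun v =>
    (congrArg (fun z : Cov y => z.1) (hFv v)).symm
  let δ : Path y y := ((bf_seg (0 : Fin 2) 1).map (pr F).continuous).cast (hFy 0) (hFy 1)
  have hδ : ∀ t, δ t = (F.1 (bf_seg (0 : Fin 2) 1 t)).1 := fun t => rfl
  have hh : Path.Homotopic δ (Path.refl y) := by
    have h1 := bf_along F (bf_seg (0 : Fin 2) 1) (Path.Homotopic.Quotient.refl y) (hFv 0) δ hδ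
    rw [hFv 1, Path.Homotopic.Quotient.refl_trans] at h1
    have h2 := eq_of_heq (Sigma.mk.inj_iff.1 h1).2
    exact (Path.Homotopic.Quotient.exact h2).symm
  obtain ⟨H⟩ := hh
  let K : C(unitInterval × unitInterval, M) := H.toHomotopy.toContinuousMap
  have hK0 : ∀ t, K (0, t) = δ t := fun t => H.apply_zero t
  have hK1 : ∀ t, K (1, t) = y := fun t => H.apply_one t
  have hKs : ∀ s, K (s, 0) = y := fun s => Path.Homotopy.source H s
  have hKt : ∀ s, K (s, 1) = y := fun s => Path.Homotopy.target H s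
  set ρ : Sing M 2 := bf_rho K i (i.succAbove 1) with hρ
  -- the face `i`
  have hρi : ∀ p : Smp 1, ρ (smap i.succAbove p) = pr F p := by
    intro p
    have h1 : Set.projIcc (0 : ℝ) 1 zero_le_one (2 * (smap i.succAbove p).1 i) = 0 :=
      bf_proj_zero (by rw [bf_smap_self]; ring)
    have hp1 : p.1 1 ∈ Set.Icc (0 : ℝ) 1 := ⟨p.2.1 1, stdSimplex.le_one p 1⟩
    have h2 : Set.projIcc (0 : ℝ) 1 zero_le_one ((smap i.succAbove p).1 (i.succAbove 1) /
        max (1 - (smap i.succAbove p).1 i) (1 / 2)) = ⟨p.1 1, hp1⟩ := by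
      rw [bf_smap_self, bf_smap_ne]
      have h3 : max (1 - (0 : ℝ)) (1 / 2) = 1 := by norm_num
      rw [h3, div_one]
      exact Set.projIcc_of_mem _ hp1
    have h3 : ρ (smap i.succAbove p) = K (0, ⟨p.1 1, hp1⟩) := by
      show K (_, _) = _
      rw [h1, h2]
    rw [h3, hK0, hδ]
    show pr F (bf_seg (0 : Fin 2) 1 ⟨p.1 1, hp1⟩) = pr F p
    congr 1
    apply Subtype.ext
    funext w
    have hs : p.1 0 + p.1 1 = 1 := by
      have := p.2.2
      rwa [Fin.sum_univ_two] at this
    show ((1 - p.1 1) • (Pi.single 0 1 : Fin 2 → ℝ) + (p.1 1) • (Pi.single 1 1 : Fin 2 → ℝ)) w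
      = p.1 w
    fin_cases w
    · simp
      linarith
    · simp
  -- the other faces
  have hρl : ∀ l : Fin 3, l ≠ i → ∀ x : Smp 2, x.1 l = 0 → ρ x = y := by
    intro l hl x hx
    obtain ⟨j, rfl⟩ := Fin.exists_succAbove_eq hl
    have hsum : x.1 i + (x.1 (i.succAbove 0) + x.1 (i.succAbove 1)) = 1 := by
      have h1 := x.2.2
      rw [Fin.sum_univ_succAbove _ i, Fin.sum_univ_two] at h1
      exact h1
    have hj : j = 0 ∨ j = 1 := bf_dec3 j
    show K (_, _) = y
    rcases hj with rfl | rfl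
    · have h2 : x.1 (i.succAbove 1) = 1 - x.1 i := by linarith
      rcases le_total (x.1 i) (1 / 2) with h3 | h3
      · have h4 : Set.projIcc (0 : ℝ) 1 zero_le_one
            (x.1 (i.succAbove 1) / max (1 - x.1 i) (1 / 2)) = 1 := by
          apply bf_proj_one
          rw [h2, max_eq_left (by linarith), div_self (by linarith)]
        rw [h4]
        exact hKt _
      · have h4 : Set.projIcc (0 : ℝ) 1 zero_le_one (2 * x.1 i) = 1 :=
          bf_proj_one (by linarith)
        rw [h4]
        exact hK1 _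
    · have h4 : Set.projIcc (0 : ℝ) 1 zero_le_one
            (x.1 (i.succAbove 1) / max (1 - x.1 i) (1 / 2)) = 0 :=
        bf_proj_zero (by rw [hx, zero_div])
      rw [h4]
      exact hKs _
  -- the lift
  have hv0 : ρ (vtx (i.succAbove 0)) = y := by
    have h1 := hρi (vtx 0)
    rw [bf_smap_vtx] at h1
    rw [h1]
    exact (hFy 0).symm
  obtain ⟨L, hL1, hL2⟩ := lift_exists ρ (vtx (i.succAbove 0))
    ((Path.Homotopic.Quotient.refl y).cast rfl hv0)
  have hL3 : L.1 (vtx (i.succAbove 0)) = ⟨y, Path.Homotopic.Quotient.refl y⟩ := by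
    rw [hL2]
    exact bf_cov_eq hv0 _ _ rfl
  have hLi : (liftSet y).d i L = F := by
    apply lift_unique _ _ _ (vtx 0)
    · show L.1 (smap (del i) (vtx 0)) = F.1 (vtx 0)
      rw [bf_smap_vtx, hFv 0]
      exact hL3
    · apply ContinuousMap.ext
      intro p
      show (L.1 (smap (del i) p)).1 = pr F p
      rw [bf_pr L ρ hL1]
      exact hρi p
  have hLv : ∀ v : Fin 3, v ≠ i → L.1 (vtx v) = ⟨y, Path.Homotopic.Quotient.refl y⟩ := by
    intro v hv
    obtain ⟨j, rfl⟩ := Fin.exists_succAbove_eq hv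
    have h1 := congrArg (fun N : (liftSet y).obj 1 => N.1 (vtx j)) hLi
    have h2 : L.1 (smap (del i) (vtx j)) = F.1 (vtx j) := h1
    rw [bf_smap_vtx, hFv j] at h2
    exact h2
  refine ⟨L, hLi, fun l hl => ?_⟩
  obtain ⟨v, hvi, hvl⟩ : ∃ v : Fin 3, v ≠ i ∧ v ≠ l := bf_dec2 i l hl
  obtain ⟨w, rfl⟩ := Fin.exists_succAbove_eq hvl
  apply lift_unique _ _ _ (vtx w)
  · show L.1 (smap (del l) (vtx w)) = ⟨y, Path.Homotopic.Quotient.refl y⟩
    rw [bf_smap_vtx]
    exact hLv _ hvi
  · apply ContinuousMap.ext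
    intro p
    show (L.1 (smap (del l) p)).1 = y
    rw [bf_pr L ρ hL1]
    exact hρl l hl _ (bf_smap_self l p)

end SimpVol
end
end

section

/-!
# MP_fa46d7_gt: averaging over the fibres of the killing set (SV-20)
-/

set_option autoImplicit false

open scoped Topology ENNReal NNReal ContDiff Manifold
open MeasureTheory

noncomputable section

namespace SimpVol

private theorem aa_scd_add {π : Type} [AddCommGroup π] {j m : ℕ} (a b : SC π j m) :
    scd (a + b) = scd a + scd b := by
  funext θ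
  simp only [scd, Pi.add_apply, smul_add, Finset.sum_add_distrib]

private theorem aa_scd_sub {π : Type} [AddCommGroup π] {j m : ℕ} (a b : SC π j m) :
    scd (a - b) = scd a - scd b := by
  funext θ
  simp only [scd, Pi.sub_apply, smul_sub, Finset.sum_sub_distrib]

private theorem aa_scres_scd {π : Type} [AddCommGroup π] {j m m' : ℕ}
    (φ : Fin (m' + 1) ↪o Fin (m + 1)) (a : SC π j m) :
    scres φ (scd a) = scd (scres φ a) := rfl

private theorem aa_scres_add {π : Type} [AddCommGroup π] {j m m' : ℕ}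
    (φ : Fin (m' + 1) ↪o Fin (m + 1)) (a b : SC π j m) :
    scres φ (a + b) = scres φ a + scres φ b := rfl

/-- The point of the killing set given by `x` and `a`. -/
private def aa_el {X : DSet} {k : ℕ} (P : PiData X (k + 1)) {m : ℕ} (x : X.obj m)
    (a : SC P.π k m) (h : scd a = P.u x) : (killSet P).obj m := ⟨(x, a), h⟩

/-- The properties of an averaging operator. -/
private structure AaAvg {X : DSet} {k : ℕ} (P : PiData X (k + 1)) where
  A : ∀ m, Bd ((killSet P).obj m) →ₗ[ℝ] Bd (X.obj m)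
  norm : ∀ m (f : Bd ((killSet P).obj m)) (B : ℝ), (∀ x, |f.1 x| ≤ B) → ∀ x, |(A m f).1 x| ≤ B
  cob : ∀ m (f : Bd ((killSet P).obj m)), A (m + 1) ((killSet P).cob m f) = X.cob m (A m f)
  proj : ∀ m (f : Bd (X.obj m)),
    A m (pull (fun p : (killSet P).obj m => p.1.1) f) = f

private theorem aa_bd_of_bound {α : Type} {f : α → ℝ} (B : ℝ) (h : ∀ x, |f x| ≤ B) :
    f ∈ Bd α := ⟨B, h⟩

private theorem aa_exists {X : DSet} {k : ℕ} (P : PiData X (k + 1 + 1)) :
    Nonempty (AaAvg P) := by
  classical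
  obtain ⟨μ, hadd, hsmul, hbd, hconst, htrans, hmarg⟩ := mean_exists P.π
  have ha0 : ∀ (m : ℕ) (x : X.obj m), ∃ a : SC P.π (k + 1) m, scd a = P.u x :=
    fun m x => sc_exact _ (u_cocycle P x)
  choose a0 ha0 using ha0
  -- the fibre over `x` with origin `a`
  have hel : ∀ (m : ℕ) (x : X.obj m) (a : SC P.π (k + 1) m) (_ : scd a = P.u x)
      (b : SC P.π k m), scd (a + scd b) = P.u x := by
    intro m x a h b
    rw [aa_scd_add, h, scd_scd, add_zero]
  let F : ∀ (m : ℕ) (x : X.obj m) (a : SC P.π (k + 1) m) (_ : scd a = P.u x),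
      ((killSet P).obj m → ℝ) → (SC P.π k m → ℝ) :=
    fun m x a h f b => f ⟨(x, a + scd b), hel m x a h b⟩
  have hFbd : ∀ (m : ℕ) (x : X.obj m) (a : SC P.π (k + 1) m) (h : scd a = P.u x)
      (f : Bd ((killSet P).obj m)), F m x a h f.1 ∈ Bd (SC P.π k m) := by
    intro m x a h f
    obtain ⟨f, B, hB⟩ := f
    exact ⟨B, fun b => hB _⟩
  let T : ℕ → Type := fun m => Fin (k + 1) ↪o Fin (m + 1)
  let _ : ∀ m, Fintype (T m) := fun m => Fintype.ofFinite _
  -- independence of the origin
  have hind : ∀ (m : ℕ) (x : X.obj m) (a a' : SC P.π (k + 1) m) (h : scd a = P.u x)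
      (h' : scd a' = P.u x) (f : Bd ((killSet P).obj m)),
      μ (T m) (F m x a' h' f.1) = μ (T m) (F m x a h f.1) := by
    intro m x a a' h h' f
    obtain ⟨b1, hb1⟩ := sc_exact (a' - a) (by rw [aa_scd_sub, h, h', sub_self])
    rw [← htrans (T m) (F m x a h f.1) b1 (hFbd m x a h f)]
    refine congrArg (μ (T m)) ?_
    funext b
    have e : a' + scd b = a + scd (b + b1) := by
      rw [aa_scd_add, hb1]
      abel
    exact congrArg f.1 (Subtype.ext (Prod.ext rfl e))
  let A : ∀ m, Bd ((killSet P).obj m) →ₗ[ℝ] Bd (X.obj m) := fun m =>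
    { toFun := fun f => ⟨fun x => μ (T m) (F m x (a0 m x) (ha0 m x) f.1), by
        obtain ⟨f, B, hB⟩ := f
        exact ⟨B, fun x => hbd (T m) B _ (fun b => hB _)⟩⟩
      map_add' := by
        intro f g
        apply Subtype.ext
        funext x
        exact hadd (T m) _ _ (hFbd m x _ (ha0 m x) f) (hFbd m x _ (ha0 m x) g)
      map_smul' := by
        intro r f
        apply Subtype.ext
        funext x
        exact hsmul (T m) r _ (hFbd m x _ (ha0 m x) f) }
  have hA : ∀ (m : ℕ) (f : Bd ((killSet P).obj m)) (x : X.obj m),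
      (A m f).1 x = μ (T m) (F m x (a0 m x) (ha0 m x) f.1) := fun m f x => rfl
  -- naturality
  have hnat : ∀ (m : ℕ) (i : Fin (m + 2)) (f : Bd ((killSet P).obj m)),
      A (m + 1) (pull (fun y => (killSet P).d i y) f) = pull (fun y => X.d i y) (A m f) := by
    intro m i f
    apply Subtype.ext
    funext x
    have h0 : scd (scres (del i) (a0 (m + 1) x)) = P.u (X.d i x) := by
      rw [← aa_scres_scd, ha0]
      funext θ
      simp only [scres, PiData.u, DSet.d, X.face_comp]
    have h1 : (A (m + 1) (pull (fun y => (killSet P).d i y) f)).1 x =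
        μ (T (m + 1)) (fun b => F m (X.d i x) (scres (del i) (a0 (m + 1) x)) h0 f.1
          (b ∘ fun θ => θ.trans (del i))) := by
      rw [hA]
      rfl
    rw [h1]
    have hinj : Function.Injective (fun θ : T m => (θ.trans (del i) : T (m + 1))) := by
      intro θ θ' h
      ext j
      have := congrArg (fun e : Fin (k + 1) ↪o Fin (m + 2) => e j) h
      simp only [RelEmbedding.trans_apply] at this
      exact congrArg Fin.val ((del i).injective this)
    rw [hmarg (T (m + 1)) (T m) (fun θ => θ.trans (del i)) _ hinj (hFbd m _ _ h0 f)]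
    rw [hind m (X.d i x) (a0 m (X.d i x)) _ (ha0 m _) h0 f]
    rfl
  refine ⟨⟨A, ?_, ?_, ?_⟩⟩
  · intro m f B hB x
    exact hbd (T m) B _ (fun b => hB _)
  · intro m f
    simp only [DSet.cob, LinearMap.sum_apply, LinearMap.smul_apply, map_sum, map_smul, hnat]
  · intro m f
    apply Subtype.ext
    funext x
    rw [hA]
    exact hconst (T m) (f.1 x)

theorem contr_of_killSet {X : DSet} {k N : ℕ} {C : ℝ} (hk : 1 ≤ k) (P : PiData X (k + 1))
    (c : Contr (killSet P) N C) : Nonempty (Contr X N C) := by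
  obtain ⟨k, rfl⟩ := Nat.exists_eq_add_of_le' hk
  obtain ⟨a⟩ := aa_exists P
  have hpr : ∀ (m : ℕ) (f : Bd (X.obj m)),
      (killSet P).cob m (pull (fun p : (killSet P).obj m => p.1.1) f) =
        pull (fun p : (killSet P).obj (m + 1) => p.1.1) (X.cob m f) := by
    intro m f
    apply Subtype.ext
    funext p
    simp only [DSet.cob, LinearMap.sum_apply, LinearMap.smul_apply, map_sum, map_smul]
    rfl
  refine ⟨⟨fun m => (a.A m).comp ((c.k m).comp (pull (fun p : (killSet P).obj (m + 1) => p.1.1))),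
    ?_, ?_, ?_⟩⟩
  · intro m hm f B hB x
    exact a.norm m _ _ (c.norm m hm _ B (fun y => hB _)) x
  · intro f x
    simp only [LinearMap.comp_apply]
    rw [← hpr]
    have h1 : c.k 0 ((killSet P).cob 0 (pull (fun p : (killSet P).obj 0 => p.1.1) f)) =
        pull (fun p : (killSet P).obj 0 => p.1.1) f - f.1 (X.base 0) • bone _ := by
      apply Subtype.ext
      funext p
      rw [c.h0]
      show f.1 p.1.1 - f.1 (X.base 0) = f.1 p.1.1 - f.1 (X.base 0) * 1
      ring
    rw [h1, map_sub, map_smul, a.proj]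
    have h2 : a.A 0 (bone _) = bone _ := by
      have := a.proj 0 (bone (X.obj 0))
      exact this
    rw [h2]
    show f.1 x - f.1 (X.base 0) * 1 = _
    ring
  · intro m hm f
    simp only [LinearMap.comp_apply]
    rw [← hpr, ← a.cob, ← map_add, c.h1 m hm, a.proj]

end SimpVol
end
end

section

/-! SV-25: the Kan condition for lifts -/

set_option autoImplicit false

open scoped Topology ENNReal NNReal ContDiff Manifold
open MeasureTheory

noncomputable section

namespace SimpVol

theorem bk_pr_face {M : Type} [TopologicalSpace M] {y : M} {j m : ℕ}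
    (θ : Fin (j + 1) ↪o Fin (m + 1)) (L : (liftSet y).obj m) :
    pr ((liftSet y).face θ L) = (pr L).comp (smap θ) := rfl

theorem bk_lift {M : Type} [TopologicalSpace M] {y : M} {m : ℕ} (σ : Sing M m) (p₀ : Smp m)
    (P : Cov y) (hP : P.1 = σ p₀) : ∃ L : (liftSet y).obj m, pr L = σ ∧ L.1 p₀ = P := by
  obtain ⟨z, c⟩ := P
  dsimp only at hP
  subst hP
  exact lift_exists σ p₀ c

/-- the embedding of a vertex -/
def bk_emb {m : ℕ} (z : Fin (m + 1)) : Fin (0 + 1) ↪o Fin (m + 1) :=
  OrderEmbedding.ofStrictMono (fun _ => z) (fun a b h => absurd h (by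
    have : a = b := Subsingleton.elim (α := Fin 1) a b
    rw [this]
    exact lt_irrefl _))

/-- (B3) -/
theorem liftSet_kan {M : Type} [TopologicalSpace M] (y : M) : (liftSet y).IsKan := by
  intro m i x hx
  obtain ⟨τ, hτ⟩ := sing_kan m i (fun l => pr (x l))
    (fun l l' hl hl' p θ θ' hθ => congrArg pr (hx l l' hl hl' p θ θ' hθ))
  obtain ⟨l₀, hl₀⟩ := exists_ne i
  obtain ⟨L, hL1, hL2⟩ := bk_lift (y := y) τ (smap (Fin.succAbove l₀) (vtx 0)) ((x l₀).1 (vtx 0))
    (congrArg (fun σ : Sing M m => σ (vtx 0)) (hτ l₀ hl₀).symm)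
  have hd : ∀ l, l ≠ i → pr ((liftSet y).d l L) = pr (x l) := by
    intro l hl
    have h1 : pr ((liftSet y).d l L) = sface l (pr L) := rfl
    rw [h1, hL1, hτ l hl]
  have h0 : (liftSet y).d l₀ L = x l₀ :=
    lift_unique _ _ (hd l₀ hl₀) (vtx 0) hL2
  refine ⟨L, fun l hl => ?_⟩
  by_cases hll : l = l₀
  · rw [hll]
    exact h0
  obtain ⟨z, hz⟩ := Fin.exists_succAbove_eq (Ne.symm hl)
  obtain ⟨z', hz'⟩ := Fin.exists_succAbove_eq (Ne.symm hl₀)
  have hθ : (bk_emb z).trans (del l) = (bk_emb z').trans (del l₀) := by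
    ext a
    show ((Fin.succAbove l z : Fin (m + 2)) : ℕ) = (Fin.succAbove l₀ z' : Fin (m + 2))
    rw [hz, hz']
  have h1 := hx l l₀ hl hl₀ 0 (bk_emb z) (bk_emb z') hθ
  have h2 : (liftSet y).face (bk_emb z) ((liftSet y).d l L) =
      (liftSet y).face (bk_emb z) (x l) := by
    rw [h1, ← h0]
    show (liftSet y).face (bk_emb z) ((liftSet y).face (del l) L) =
      (liftSet y).face (bk_emb z') ((liftSet y).face (del l₀) L)
    rw [(liftSet y).face_comp, (liftSet y).face_comp, hθ]
  refine lift_unique _ _ (hd l hl) (smap (bk_emb z) (vtx 0)) ?_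
  exact congrArg (fun K : (liftSet y).obj 0 => K.1 (vtx 0)) h2

end SimpVol
end
end
end
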