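import Pool.Agent.Lib.MP_fa46d7_gt.Objects

/-!
# MP_fa46d7_gt: simplicial volume versus ball volumes below half the systole

Definitions. Part 0 (the objects of the final statement) is in Objects.lean. Part H: the
combinatorial heart.
Part A: based semisimplicial sets. Part B: covering semisimplicial sets of a space and functionals.
Parts E, F: local structure, subdivision, labels.
-/

set_option autoImplicit false

open scoped Topology ENNReal NNReal
open MeasureTheory

noncomputable section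

namespace SimpVol

/-! ## Part H: the combinatorial heart -/

section Heart

variable {I : Type} [LinearOrder I] [Fintype I] {X : Type} [PseudoMetricSpace X] [Nonempty X]

/-- `m(S)`: the total weight of the sets containing `S`. -/
def mass (w : Finset I → ℕ) (S : Finset I) : ℕ :=
  ∑ U ∈ Finset.univ.filter (fun U => S ⊆ U), w U

/-- The position of a nonempty set: the point of its smallest element. -/
def pos (pt : I → X) (S : Finset I) : X :=
  if h : S.Nonempty then pt (S.min' h) else Classical.arbitrary X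

/-- Labellings: the label of `S` is a point at distance at most `ρ` of the position of `S`. -/
def IsLab (pt : I → X) (ρ : ℝ) (l : Finset I → X) : Prop :=
  ∀ S : Finset I, S.Nonempty → dist (pos pt S) (l S) ≤ ρ

/-- The sets with `j+2` elements having two faces in `A` with different labels. -/
def nextSet (j : ℕ) (A : Set (Finset I)) (l : Finset I → X) : Set (Finset I) :=
  {S | S.card = j + 2 ∧ ∃ a ∈ S, ∃ b ∈ S, S.erase a ∈ A ∧ S.erase b ∈ A ∧
    l (S.erase a) ≠ l (S.erase b)}

open Classical in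
/-- The cost of a labelling. -/
def cost (w : Finset I → ℕ) (j : ℕ) (A : Set (Finset I)) (l : Finset I → X) : ℕ :=
  ∑ S ∈ Finset.univ.filter (fun S => S ∈ nextSet j A l), mass w S

/-- A tower of minimal labellings. -/
structure Tower (pt : I → X) (w : Finset I → ℕ) (ρ : ℝ) where
  A : ℕ → Set (Finset I)
  l : ℕ → Finset I → X
  zero : A 0 = {S | S.card = 1}
  succ : ∀ j, A (j + 1) = nextSet j (A j) (l j)
  lab : ∀ j, IsLab pt ρ (l j)
  min : ∀ j (l' : Finset I → X), IsLab pt ρ l' → cost w j (A j) (l j) ≤ cost w j (A j) l'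

open Classical in
/-- Weighted number of elements of `A` satisfying `p`. -/
def wsum (w : Finset I → ℕ) (A : Set (Finset I)) (p : Finset I → Prop) : ℕ :=
  ∑ S ∈ Finset.univ.filter (fun S => S ∈ A ∧ p S), mass w S

/-- `N_j(x,t)`: the mass of the elements of `A` with position in the open ball. -/
def ballMass (pt : I → X) (w : Finset I → ℕ) (A : Set (Finset I)) (x : X) (t : ℝ) : ℕ :=
  wsum w A (fun S => dist (pos pt S) x < t)

/-- The weight is supported on `(n+1)`-element sets of diameter at most `ε`. -/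
def IsWeight (pt : I → X) (w : Finset I → ℕ) (n : ℕ) (ε : ℝ) : Prop :=
  ∀ U : Finset I, w U ≠ 0 → U.card = n + 1 ∧ ∀ a ∈ U, ∀ b ∈ U, dist (pt a) (pt b) ≤ ε

/-- A carving of radius `ρ`: a partial function with values at distance at most `ρ`. -/
def IsCarv (ρ : ℝ) (c : X → Option X) : Prop := ∀ x y, c x = some y → dist x y ≤ ρ

/-- `S'` is good for the carving: it has a face in `A`, and all these faces get the same centre. -/
def Good (pt : I → X) (A : Set (Finset I)) (c : X → Option X) (S' : Finset I) : Prop :=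
  (∃ a ∈ S', S'.erase a ∈ A) ∧ ∃ y, ∀ a ∈ S', S'.erase a ∈ A → c (pos pt (S'.erase a)) = some y

/-- `S'` is mixed for the carving. -/
def Mixed (pt : I → X) (A : Set (Finset I)) (c : X → Option X) (S' : Finset I) : Prop :=
  ∃ a ∈ S', ∃ b ∈ S', S'.erase a ∈ A ∧ S'.erase b ∈ A ∧
    c (pos pt (S'.erase a)) ≠ c (pos pt (S'.erase b))

end Heart

/-! ### Random carving (finite probability) -/

/-- The truncated geometric weights with parameter `θ`. -/
def gw (θ : ℝ) (K : ℕ) (k : ℕ) : ℝ := (1 - θ) * θ ^ k / (1 - θ ^ K)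

/-- The weight of a vector of radii. -/
def cw {N : ℕ} (θ : ℝ) (K : ℕ) (k : Fin N → Fin K) : ℝ := ∏ y, gw θ K (k y)

open Classical in
/-- The carving with centres `c 0, ..., c (N-1)` and radii `k y * ε`: the first ball containing
the point. -/
def carve {X : Type} [PseudoMetricSpace X] {N K : ℕ} (ctr : Fin N → X) (ε : ℝ)
    (k : Fin N → Fin K) (x : X) : Option X :=
  if h : (Finset.univ.filter (fun y : Fin N => dist x (ctr y) ≤ (k y : ℕ) * ε)).Nonempty
  then some (ctr ((Finset.univ.filter (fun y : Fin N => dist x (ctr y) ≤ (k y : ℕ) * ε)).min' h))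
  else none

open Classical in
/-- Probability of a property of the vector of radii. -/
def prob {N : ℕ} (θ : ℝ) (K : ℕ) (E : (Fin N → Fin K) → Prop) : ℝ :=
  ∑ k ∈ Finset.univ.filter (fun k => E k), cw θ K k

open Classical in
/-- `min(1, ∑_{y, d(x,y) ≤ T} exp(-λ d(x,y)))`. -/
def qfun {X : Type} [PseudoMetricSpace X] {N : ℕ} (ctr : Fin N → X) (lam T : ℝ) (x : X) : ℝ :=
  min 1 (∑ y ∈ Finset.univ.filter (fun y : Fin N => dist x (ctr y) ≤ T),
    Real.exp (-lam * dist x (ctr y)))

/-! ## Part A: based semisimplicial sets and bounded cochains -/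

/-- The `i`-th face embedding. -/
abbrev del {m : ℕ} (i : Fin (m + 1)) : Fin m ↪o Fin (m + 1) := Fin.succAboveOrderEmb i

/-- Based semisimplicial sets. -/
structure DSet where
  obj : ℕ → Type
  face : ∀ {j m : ℕ}, (Fin (j + 1) ↪o Fin (m + 1)) → obj m → obj j
  face_id : ∀ {m : ℕ} (x : obj m), face (OrderIso.refl (Fin (m + 1))).toOrderEmbedding x = x
  face_comp : ∀ {i j m : ℕ} (η : Fin (i + 1) ↪o Fin (j + 1)) (θ : Fin (j + 1) ↪o Fin (m + 1))
    (x : obj m), face η (face θ x) = face (η.trans θ) x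
  base : ∀ m, obj m
  face_base : ∀ {j m : ℕ} (θ : Fin (j + 1) ↪o Fin (m + 1)), face θ (base m) = base j

/-- The `i`-th face. -/
def DSet.d (X : DSet) {m : ℕ} (i : Fin (m + 2)) (x : X.obj (m + 1)) : X.obj m := X.face (del i) x

/-- The `l`-th face with a natural number index (junk value for `l > m + 1`). -/
def DSet.dn (X : DSet) {m : ℕ} (l : ℕ) (x : X.obj (m + 1)) : X.obj m :=
  if h : l < m + 2 then X.d ⟨l, h⟩ x else X.base m

/-- The Kan condition. -/
def DSet.IsKan (X : DSet) : Prop :=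
  ∀ (m : ℕ) (i : Fin (m + 2)) (x : Fin (m + 2) → X.obj m),
    (∀ l l', l ≠ i → l' ≠ i → ∀ (p : ℕ) (θ θ' : Fin (p + 1) ↪o Fin (m + 1)),
      θ.trans (del l) = θ'.trans (del l') → X.face θ (x l) = X.face θ' (x l')) →
    ∃ τ : X.obj (m + 1), ∀ l, l ≠ i → X.d l τ = x l

/-- All simplices of dimension `< k` are base simplices. -/
def DSet.TrivBelow (X : DSet) (k : ℕ) : Prop := ∀ j, j < k → ∀ x : X.obj j, x = X.base j

/-- Every `k`-simplex bounds. -/
def DSet.Fill (X : DSet) (k : ℕ) : Prop :=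
  ∀ (F : X.obj k) (i : Fin (k + 2)), ∃ τ : X.obj (k + 1), X.d i τ = F ∧
    ∀ l, l ≠ i → X.d l τ = X.base k

/-- A simplex all of whose proper faces are base simplices. -/
def DSet.BdBase (X : DSet) {j : ℕ} (F : X.obj j) : Prop :=
  ∀ (p : ℕ) (θ : Fin (p + 1) ↪o Fin (j + 1)), p < j → X.face θ F = X.base p

/-- Existence of degeneracy-like simplices in dimension `j + 1`. -/
def DSet.K3 (X : DSet) (j : ℕ) : Prop :=
  ∀ F : X.obj j, X.BdBase F → ∀ i : Fin (j + 1), ∃ τ : X.obj (j + 1),
    X.d i.castSucc τ = F ∧ X.d i.succ τ = F ∧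
      ∀ l, l ≠ i.castSucc → l ≠ i.succ → X.d l τ = X.base j

/-- Every `1`-simplex with base boundary bounds. -/
def DSet.Fill1 (X : DSet) : Prop :=
  ∀ (F : X.obj 1), X.BdBase F → ∀ i : Fin 3, ∃ τ : X.obj 2, X.d i τ = F ∧
    ∀ l, l ≠ i → X.d l τ = X.base 1

/-- The space of bounded real functions on a type. -/
def Bd (α : Type) : Submodule ℝ (α → ℝ) where
  carrier := {f | ∃ C, ∀ x, |f x| ≤ C}
  add_mem' := by
    rintro f g ⟨C, hC⟩ ⟨D, hD⟩
    exact ⟨C + D, fun x => (abs_add_le _ _).trans (add_le_add (hC x) (hD x))⟩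
  zero_mem' := ⟨0, fun x => by simp⟩
  smul_mem' := by
    rintro c f ⟨C, hC⟩
    refine ⟨|c| * C, fun x => ?_⟩
    simp only [Pi.smul_apply, smul_eq_mul, abs_mul]
    exact mul_le_mul_of_nonneg_left (hC x) (abs_nonneg c)

/-- The pull-back of bounded functions. -/
def pull {α β : Type} (f : α → β) : Bd β →ₗ[ℝ] Bd α where
  toFun g := ⟨fun x => (g : β → ℝ) (f x), by
    obtain ⟨g, C, hC⟩ := g; exact ⟨C, fun x => hC _⟩⟩
  map_add' g h := rfl
  map_smul' c g := rfl

/-- The constant function `1`. -/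
def bone (α : Type) : Bd α := ⟨fun _ => 1, 1, fun _ => by simp⟩

/-- The coboundary of bounded cochains. -/
def DSet.cob (X : DSet) (m : ℕ) : Bd (X.obj m) →ₗ[ℝ] Bd (X.obj (m + 1)) :=
  ∑ i : Fin (m + 2), (-1 : ℝ) ^ (i : ℕ) • pull (fun x => X.d i x)

/-- A contraction of the bounded cochains in degrees `≤ N`, with norm bound `C`. -/
structure Contr (X : DSet) (N : ℕ) (C : ℝ) where
  k : ∀ m, Bd (X.obj (m + 1)) →ₗ[ℝ] Bd (X.obj m)
  norm : ∀ m, m ≤ N → ∀ (f : Bd (X.obj (m + 1))) (B : ℝ), (∀ x, |f.1 x| ≤ B) →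
    ∀ x, |(k m f).1 x| ≤ C * B
  h0 : ∀ (f : Bd (X.obj 0)) (x : X.obj 0),
    (k 0 (X.cob 0 f)).1 x = f.1 x - f.1 (X.base 0)
  h1 : ∀ m, m + 1 ≤ N → ∀ f : Bd (X.obj (m + 1)),
    X.cob m (k m f) + k (m + 1) (X.cob (m + 1) f) = f

/-- An embedding of `E` into `X` with image the simplices all of whose `k`-faces are base. -/
structure EilEmb (E X : DSet) (k : ℕ) where
  map : ∀ {m : ℕ}, E.obj m → X.obj m
  map_face : ∀ {j m : ℕ} (θ : Fin (j + 1) ↪o Fin (m + 1)) (x : E.obj m),
    map (E.face θ x) = X.face θ (map x)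
  map_base : ∀ m, map (E.base m) = X.base m
  inj : ∀ {m : ℕ} (x y : E.obj m), map x = map y → x = y
  range : ∀ {m : ℕ} (x : X.obj m),
    (∃ y, map y = x) ↔ ∀ θ : Fin (k + 1) ↪o Fin (m + 1), X.face θ x = X.base k

/-- Prism operators of the retraction onto the simplices with base `k`-faces. -/
structure Prisms (X : DSet) (k : ℕ) where
  P : ∀ m : ℕ, ℕ → X.obj m → X.obj (m + 1)
  a : ∀ m (s : X.obj m), X.dn (m + 1) (P m m s) = s
  b : ∀ m (i : ℕ) (s : X.obj m), 1 ≤ i → i ≤ m → X.dn i (P m i s) = X.dn i (P m (i - 1) s)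
  c1 : ∀ m (i l : ℕ) (s : X.obj (m + 1)), l < i → i ≤ m + 1 →
    X.dn l (P (m + 1) i s) = P m (i - 1) (X.dn l s)
  c2 : ∀ m (i l : ℕ) (s : X.obj (m + 1)), i + 1 < l → l ≤ m + 2 →
    X.dn l (P (m + 1) i s) = P m i (X.dn (l - 1) s)
  r : ∀ m (s : X.obj m) (θ : Fin (k + 1) ↪o Fin (m + 1)),
    X.face θ (X.dn 0 (P m 0 s)) = X.base k

/-- The simplices all of whose `k`-faces are base simplices. -/
def Eil (X : DSet) (k : ℕ) : DSet where
  obj m := {x : X.obj m // ∀ θ : Fin (k + 1) ↪o Fin (m + 1), X.face θ x = X.base k}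
  face {j m} φ x := ⟨X.face φ x.1, fun θ => by rw [X.face_comp]; exact x.2 _⟩
  face_id x := Subtype.ext (X.face_id _)
  face_comp η θ x := Subtype.ext (X.face_comp _ _ _)
  base m := ⟨X.base m, fun θ => X.face_base θ⟩
  face_base θ := Subtype.ext (X.face_base θ)

/-- Cochains of degree `j` on the simplex of dimension `m`, with values in `π`. -/
abbrev SC (π : Type) (j m : ℕ) : Type := (Fin (j + 1) ↪o Fin (m + 1)) → π

/-- The coboundary on cochains of a simplex. -/
def scd {π : Type} [AddCommGroup π] {j m : ℕ} (a : SC π j m) : SC π (j + 1) m :=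
  fun θ => ∑ i : Fin (j + 2), (-1 : ℤ) ^ (i : ℕ) • a ((del i).trans θ)

/-- Restriction of a cochain to a face. -/
def scres {π : Type} {j m m' : ℕ} (φ : Fin (m' + 1) ↪o Fin (m + 1)) (a : SC π j m) :
    SC π j m' :=
  fun θ => a (θ.trans φ)

/-- The homotopy group data in dimension `k`. -/
structure PiData (X : DSet) (k : ℕ) where
  π : Type
  grp : AddCommGroup π
  q : X.obj k → π
  q_base : q (X.base k) = 0
  surj : Function.Surjective q
  rel : ∀ F : Fin (k + 2) → X.obj k,
    (∃ τ : X.obj (k + 1), ∀ i, X.d i τ = F i) ↔ ∑ i : Fin (k + 2), (-1 : ℤ) ^ (i : ℕ) • q (F i) = 0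

attribute [instance] PiData.grp

/-- The cochain of the classes of the `k`-faces. -/
def PiData.u {X : DSet} {k : ℕ} (P : PiData X k) {m : ℕ} (x : X.obj m) : SC P.π k m :=
  fun θ => P.q (X.face θ x)

/-- The simplices all of whose `k`-faces have trivial class. -/
def nullSet {X : DSet} {k : ℕ} (P : PiData X k) : DSet where
  obj m := {x : X.obj m // P.u x = 0}
  face {j m} φ x := ⟨X.face φ x.1, by
    funext θ
    have := congrFun x.2 (θ.trans φ)
    simp only [PiData.u] at this ⊢
    rw [X.face_comp]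
    exact this⟩
  face_id x := Subtype.ext (X.face_id _)
  face_comp η θ x := Subtype.ext (X.face_comp _ _ _)
  base m := ⟨X.base m, by funext θ; simp [PiData.u, X.face_base, P.q_base]⟩
  face_base θ := Subtype.ext (X.face_base θ)

/-- The semisimplicial set killing `π`: pairs `(x, a)` with `δ a = u(x)`. -/
def killSet {X : DSet} {k : ℕ} (P : PiData X (k + 1)) : DSet where
  obj m := {p : X.obj m × SC P.π k m // scd p.2 = P.u p.1}
  face {j m} φ p := ⟨(X.face φ p.1.1, scres φ p.1.2), by
    obtain ⟨⟨x, a⟩, h⟩ := p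
    funext θ
    have := congrFun h (θ.trans φ)
    simp only [scd, scres, PiData.u] at this ⊢
    rw [X.face_comp]
    exact this⟩
  face_id {m} p := by
    apply Subtype.ext
    apply Prod.ext
    · exact X.face_id _
    · rfl
  face_comp {i j m} η θ p := by
    apply Subtype.ext
    apply Prod.ext
    · exact X.face_comp _ _ _
    · rfl
  base m := ⟨(X.base m, 0), by
    funext θ
    simp [scd, PiData.u, X.face_base, P.q_base]⟩
  face_base {j m} θ := by
    apply Subtype.ext
    apply Prod.ext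
    · exact X.face_base _
    · rfl

/-! ## Part B: covering semisimplicial sets and functionals -/

/-- Homotopy classes (rel endpoints) of paths. -/
abbrev Hm {M : Type} [TopologicalSpace M] (x y : M) : Type := Path.Homotopic.Quotient x y

/-- Homotopy classes of paths issuing from `y` (the points of the universal cover). -/
def Cov {M : Type} [TopologicalSpace M] (y : M) : Type := Σ x : M, Hm y x

/-- Lifts of singular simplices to `Cov y`. -/
def IsLift {M : Type} [TopologicalSpace M] {y : M} {m : ℕ} (L : Smp m → Cov y) : Prop :=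
  ∃ h : Continuous (fun p => (L p).1), ∀ (p q : Smp m) (γ : Path p q),
    (L q).2 = (L p).2.trans (Path.Homotopic.Quotient.mk (γ.map h))

instance instContractibleSmp (m : ℕ) : ContractibleSpace (Smp m) :=
  (convex_stdSimplex ℝ (Fin (m + 1))).contractibleSpace ⟨_, (vtx (m := m) 0).2⟩

/-- The semisimplicial set of lifted singular simplices. -/
def liftSet {M : Type} [TopologicalSpace M] (y : M) : DSet where
  obj m := {L : Smp m → Cov y // IsLift L}
  face {j m} θ L := ⟨fun p => L.1 (smap θ p), by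
    obtain ⟨L, h, hL⟩ := L
    exact ⟨h.comp (smap θ).continuous, fun p q γ => hL _ _ (γ.map (smap θ).continuous)⟩⟩
  face_id {m} L := by
    apply Subtype.ext
    funext p
    exact congrArg L.1 (stdSimplex.map_id_apply p)
  face_comp {i j m} η θ L := by
    apply Subtype.ext
    funext p
    exact congrArg L.1 (stdSimplex.map_comp_apply _ _ p)
  base m := ⟨fun _ => ⟨y, Path.Homotopic.Quotient.refl y⟩, continuous_const, fun p q γ => by
    have : γ.map (continuous_const (y := y)) = Path.refl y := by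
      ext t; rfl
    show Path.Homotopic.Quotient.refl y = _
    rw [this, Path.Homotopic.Quotient.mk_refl, Path.Homotopic.Quotient.refl_trans]⟩
  face_base {j m} θ := rfl

/-- Transport of lifts along a class `g` from `x` to `y`. -/
def tr {M : Type} [TopologicalSpace M] {x y : M} (g : Hm x y) {m : ℕ}
    (L : (liftSet y).obj m) : (liftSet x).obj m :=
  ⟨fun p => ⟨(L.1 p).1, g.trans (L.1 p).2⟩, by
    obtain ⟨L, h, hL⟩ := L
    refine ⟨h, fun p q γ => ?_⟩
    show g.trans (L q).2 = (g.trans (L p).2).trans _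
    rw [hL p q γ, Path.Homotopic.Quotient.trans_assoc]⟩

/-- The singular simplex below a lift. -/
def pr {M : Type} [TopologicalSpace M] {y : M} {m : ℕ} (L : (liftSet y).obj m) : Sing M m :=
  ⟨fun p => (L.1 p).1, L.2.choose⟩

/-- The canonical lift of a singular simplex, with trivial class at the vertex `0`. -/
def canLift {M : Type} [TopologicalSpace M] {m : ℕ} (τ : Sing M m) :
    (liftSet (τ (vtx 0))).obj m :=
  ⟨fun p => ⟨τ p, Path.Homotopic.Quotient.mk
      ((PathConnectedSpace.somePath (vtx 0) p).map τ.continuous)⟩, τ.continuous, fun p q γ => by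
    show Path.Homotopic.Quotient.mk _ = Path.Homotopic.Quotient.trans
      (Path.Homotopic.Quotient.mk _) (Path.Homotopic.Quotient.mk _)
    rw [← Path.Homotopic.Quotient.mk_trans]
    have h := SimplyConnectedSpace.paths_homotopic (PathConnectedSpace.somePath (vtx 0) q)
      ((PathConnectedSpace.somePath (vtx 0) p).trans γ)
    have h2 := Path.Homotopic.map h τ
    rw [← Path.map_trans]
    exact Quotient.sound h2⟩

/-- The class of the edge from the vertex `0` to the vertex `0` of the `i`-th face. -/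
def fcls {M : Type} [TopologicalSpace M] {m : ℕ} (i : Fin (m + 2)) (τ : Sing M (m + 1)) :
    Hm (τ (vtx 0)) (sface i τ (vtx 0)) :=
  Path.Homotopic.Quotient.mk
    ((PathConnectedSpace.somePath (vtx 0) (smap (Fin.succAbove i) (vtx 0))).map τ.continuous)

/-- A bounded function of singular simplices as a cochain of `liftSet a`. -/
def ofSing {M : Type} [TopologicalSpace M] {m : ℕ} (c : Bd (Sing M m)) (a : M) :
    Bd ((liftSet a).obj m) :=
  pull pr c

/-- Evaluation of bounded functions. -/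
def evB {α : Type} (x : α) : Bd α →ₗ[ℝ] ℝ where
  toFun f := f.1 x
  map_add' _ _ := rfl
  map_smul' _ _ := rfl

/-- Systems of functionals on cochains, compatible with coboundaries on fine simplices. -/
structure FSys (M : Type) [TopologicalSpace M] (N : ℕ) (Fine : ∀ m, Sing M m → Prop) where
  F : ∀ (m : ℕ) (τ : Sing M m), Bd ((liftSet (τ (vtx 0))).obj m) →ₗ[ℝ] ℝ
  one : ∀ τ : Sing M 0, Fine 0 τ → F 0 τ (bone _) = 1
  cob : ∀ m, m + 1 ≤ N → ∀ τ : Sing M (m + 1), Fine (m + 1) τ →
    ∀ f : Bd ((liftSet (τ (vtx 0))).obj m),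
      F (m + 1) τ ((liftSet (τ (vtx 0))).cob m f) =
        ∑ i : Fin (m + 2), (-1 : ℝ) ^ (i : ℕ) * F m (sface i τ) (pull (tr (fcls i τ)) f)

/-- The contraction operator based at the class `g`. -/
def kop {M : Type} [TopologicalSpace M] {N : ℕ} {C : ℝ}
    (K : ∀ x : M, Contr (liftSet x) N C) {a x : M} (g : Hm a x) (m : ℕ) :
    Bd ((liftSet a).obj (m + 1)) →ₗ[ℝ] Bd ((liftSet a).obj m) :=
  (pull (tr g.symm)).comp (((K x).k m).comp (pull (tr g)))

open Classical in
/-- The functionals defined by a tower of labels. -/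
def Psi {M : Type} [TopologicalSpace M] {N : ℕ} {C : ℝ} (K : ∀ x : M, Contr (liftSet x) N C)
    (s : ∀ x y : M, Hm x y) {I : Type} [LinearOrder I] [Fintype I]
    (A : ℕ → Set (Finset I)) (l : ℕ → Finset I → M) :
    ∀ (j : ℕ), (Fin (j + 1) → I) → ∀ a : M, Bd ((liftSet a).obj j) →ₗ[ℝ] ℝ
  | 0, t, a => evB (tr (s a (l 0 {t 0})) ((liftSet (l 0 {t 0})).base 0))
  | j + 1, t, a =>
    if Function.Injective t ∧ Finset.univ.image t ∈ A (j + 1) then
      ∑ i : Fin (j + 2), (-1 : ℝ) ^ (i : ℕ) •
        (Psi K s A l j (t ∘ Fin.succAbove i) a).comp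
          (kop K (s a (l (j + 1) (Finset.univ.image t))) j)
    else 0

/-- Short classes: the axioms satisfied by the classes of the short paths. -/
structure IsShort {M : Type} [PseudoMetricSpace M] (r : ℝ) (s : ∀ x y : M, Hm x y) : Prop where
  self : ∀ x, s x x = Path.Homotopic.Quotient.refl x
  symm : ∀ x y, dist x y < r → s y x = (s x y).symm
  trans : ∀ x y z, dist x y + dist y z < r → (s x y).trans (s y z) = s x z

/-! ## Parts E, F: local structure, tuples, subdivision, labels -/

/-- `φ` is a bilipschitz chart with constant `L` on the ball of radius `R` about `q`. -/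
structure IsBChart {M : Type} [PseudoMetricSpace M] (n : ℕ) (L R : ℝ) (q : M)
    (φ : M → (Fin n → ℝ)) : Prop where
  zero : φ q = 0
  lower : ∀ x ∈ Metric.ball q R, ∀ y ∈ Metric.ball q R, dist x y ≤ L * dist (φ x) (φ y)
  upper : ∀ x ∈ Metric.ball q R, ∀ y ∈ Metric.ball q R, dist (φ x) (φ y) ≤ L * dist x y
  surj : ∀ v : Fin n → ℝ, ‖v‖ < R / L → ∃ x ∈ Metric.ball q R, φ x = v

/-- Local bilipschitz charts on all balls of radius `R`, with constant `L`. -/
def LB (n : ℕ) (L R : ℝ) (M : Type) [PseudoMetricSpace M] : Prop :=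
  1 ≤ L ∧ 0 < R ∧ ∀ q : M, ∃ φ : M → (Fin n → ℝ), IsBChart n L R q φ

/-- The lattice label of a point near `q` (`none` far from `q`). -/
def plab {M : Type} [PseudoMetricSpace M] {n : ℕ} (P : (Fin n → ℝ) → (Fin n → ℤ))
    (φ : M → (Fin n → ℝ)) (q : M) (R₁ h : ℝ) (v : M) : Option (Fin n → ℤ) :=
  open Classical in if dist v q < R₁ then some (P (h⁻¹ • φ v)) else none

open Classical in
/-- The determinant `det ([N(v_i) = s_j])`. -/
def labDet {V Λ : Type} (N : V → Λ) {k : ℕ} (s : Fin k → Λ) (v : Fin k → V) : ℤ :=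
  Matrix.det (Matrix.of fun i j => if N (v i) = s j then (1 : ℤ) else 0)

/-- The vertices of a singular simplex. -/
def verts {M : Type} [TopologicalSpace M] {m : ℕ} (τ : Sing M m) : Fin (m + 1) → M :=
  fun i => τ (vtx i)

/-- Chains of tuples. -/
abbrev Tup (V : Type) (m : ℕ) : Type := (Fin (m + 1) → V) →₀ ℤ

/-- Boundary of chains of tuples. -/
def tbd {V : Type} {m : ℕ} : Tup V (m + 1) →ₗ[ℤ] Tup V m :=
  Finsupp.linearCombination ℤ
    (fun v => ∑ i : Fin (m + 2), (-1 : ℤ) ^ (i : ℕ) • Finsupp.single (v ∘ Fin.succAbove i) (1 : ℤ))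

/-- Image of a chain of tuples under a map. -/
def tmap {V W : Type} (f : V → W) {m : ℕ} : Tup V m →ₗ[ℤ] Tup W m :=
  Finsupp.lmapDomain ℤ ℤ (fun v => f ∘ v)

/-- The cone with apex `b` (placed in front). -/
def tcone {V : Type} (b : V) {m : ℕ} : Tup V m →ₗ[ℤ] Tup V (m + 1) :=
  Finsupp.lmapDomain ℤ ℤ (fun v => (Fin.cons b v : Fin (m + 2) → V))

/-- The barycentre of the standard simplex. -/
def bary (m : ℕ) : Smp m := stdSimplex.barycenter

/-- The affine map with prescribed values at the vertices. -/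
def aff {m p : ℕ} (w : Fin (m + 1) → Smp p) : C(Smp m, Smp p) where
  toFun x := ⟨fun j => ∑ i, x.1 i * (w i).1 j, by
    refine ⟨fun j => Finset.sum_nonneg fun i _ => mul_nonneg (x.2.1 i) ((w i).2.1 j), ?_⟩
    rw [Finset.sum_comm]
    simp_rw [← Finset.mul_sum]
    have : ∀ i, ∑ j, (w i).1 j = 1 := fun i => (w i).2.2
    simp [this, x.2.2]⟩
  continuous_toFun := by
    refine Continuous.subtype_mk ?_ _
    refine continuous_pi fun j => ?_
    refine continuous_finsetSum _ fun i _ => ?_
    exact ((continuous_apply i).comp continuous_subtype_val).mul continuous_const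

/-- The universal subdivision chain of the simplex. -/
def subS : ∀ m : ℕ, Tup (Smp m) m
  | 0 => Finsupp.single (fun _ => vtx 0) 1
  | m + 1 => tcone (bary (m + 1))
      (∑ i : Fin (m + 2), (-1 : ℤ) ^ (i : ℕ) • tmap (smap (Fin.succAbove i)) (subS m))

/-- The universal homotopy chain. -/
def subT : ∀ m : ℕ, Tup (Smp m) (m + 1)
  | 0 => 0
  | m + 1 => tcone (bary (m + 1)) (Finsupp.single (fun i => vtx i) 1 -
      ∑ i : Fin (m + 2), (-1 : ℤ) ^ (i : ℕ) • tmap (smap (Fin.succAbove i)) (subT m))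

/-- Barycentric subdivision of singular chains. -/
def Sd {M : Type} [TopologicalSpace M] {m : ℕ} : SChain ℤ M m →ₗ[ℤ] SChain ℤ M m :=
  Finsupp.linearCombination ℤ
    (fun σ : Sing M m => Finsupp.lmapDomain ℤ ℤ (fun w => σ.comp (aff w)) (subS m))

/-- The chain homotopy between the identity and the subdivision. -/
def Td {M : Type} [TopologicalSpace M] {m : ℕ} : SChain ℤ M m →ₗ[ℤ] SChain ℤ M (m + 1) :=
  Finsupp.linearCombination ℤ
    (fun σ : Sing M m => Finsupp.lmapDomain ℤ ℤ (fun w => σ.comp (aff w)) (subT m))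

/-- Iterated subdivision. -/
def SdI {M : Type} [TopologicalSpace M] {m : ℕ} (k : ℕ) : SChain ℤ M m →ₗ[ℤ] SChain ℤ M m :=
  Sd ^ k

/-- Image of a singular chain under a continuous map. -/
def cmap {M M' : Type} [TopologicalSpace M] [TopologicalSpace M'] (f : C(M, M')) {m : ℕ} :
    SChain ℤ M m →ₗ[ℤ] SChain ℤ M' m :=
  Finsupp.lmapDomain ℤ ℤ (fun σ : Sing M m => f.comp σ)

/-- A singular simplex with image of diameter at most `δ`. -/
def FineS {M : Type} [PseudoMetricSpace M] {m : ℕ} (δ : ℝ) (τ : Sing M m) : Prop :=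
  ∀ p q : Smp m, dist (τ p) (τ q) ≤ δ

/-- Evaluation of an integer valued function of tuples on the vertices of a chain. -/
def evT {M : Type} [TopologicalSpace M] {m : ℕ} (θ : (Fin (m + 1) → M) → ℤ)
    (c : SChain ℤ M m) : ℤ :=
  c.sum fun τ a => a * θ (verts τ)

/-- Kuhn tuples: full chains of lattice points. -/
def IsKuhn {n : ℕ} (w : Fin (n + 1) → (Fin n → ℤ)) : Prop :=
  StrictMono w ∧ w (Fin.last n) = w 0 + 1

/-- A label function for the Kuhn triangulation of `ℝ^n`. -/
structure KuhnLabel (n : ℕ) (P : (Fin n → ℝ) → (Fin n → ℤ)) : Prop where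
  near : ∀ v, ‖v - (fun i => (P v i : ℝ))‖ < 1
  few : ∀ v : Fin (n + 2) → (Fin n → ℝ), (∀ i j, dist (v i) (v j) < 1 / (2 * (n + 1))) →
    ¬ Function.Injective (fun i => P (v i))
  full : ∀ (δ : ℝ) (v : Fin (n + 1) → (Fin n → ℝ)), δ < 1 / (2 * (n + 1)) →
    (∀ i j, dist (v i) (v j) ≤ δ) → Function.Injective (fun i => P (v i)) →
    (∃ π : Equiv.Perm (Fin (n + 1)), IsKuhn (fun i => P (v (π i)))) ∧
    ∀ i, ‖v i - (fun l => (∑ j, (P (v j) l : ℝ)) / (n + 1))‖ ≤ 2 * n * (n + 1) * δ
  sperner : ∀ (w : Fin (n + 1) → (Fin n → ℤ)), IsKuhn w → ∀ x : Smp n,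
    ∃ j, P (fun l => ∑ i, x.1 i * (w i l : ℝ)) = w j ∧ 0 < x.1 j

end SimpVol
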