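import Pool.Agent.Lib.MP_fa46d7_gt.Defs

section

section

/-!
# MP_fa46d7_gt: chains of tuples, universal subdivision chains (part F)
-/

set_option autoImplicit false

open scoped Topology ENNReal NNReal
open MeasureTheory

noncomputable section

namespace SimpVol

/-- The simplicial identity. -/
theorem ft_succAbove {m : ℕ} (i l : Fin (m + 2)) (h : l.val ≤ i.val) :
    (Fin.succAbove i.succ ∘ Fin.succAbove l : Fin (m + 1) → Fin (m + 3)) =
      Fin.succAbove l.castSucc ∘ Fin.succAbove i := by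
  funext x
  apply Fin.ext
  simp only [Function.comp_apply, Fin.succAbove, Fin.lt_def]
  split_ifs <;> simp_all <;> omega

theorem ft_cancel {A : Type*} [AddCommGroup A] {m : ℕ} (Φ : (Fin (m + 1) → Fin (m + 3)) → A) :
    ∑ i : Fin (m + 3), (-1 : ℤ) ^ (i : ℕ) • ∑ l : Fin (m + 2), (-1 : ℤ) ^ (l : ℕ) •
      Φ (Fin.succAbove i ∘ Fin.succAbove l) = 0 := by
  simp only [Finset.smul_sum]
  rw [← Finset.sum_product' (f := fun (i : Fin (m + 3)) (l : Fin (m + 2)) =>
    (-1 : ℤ) ^ (i : ℕ) • (-1 : ℤ) ^ (l : ℕ) • Φ (Fin.succAbove i ∘ Fin.succAbove l))]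
  let g : Fin (m + 3) × Fin (m + 2) → Fin (m + 3) × Fin (m + 2) := fun p =>
    if p.2.val < p.1.val then (⟨p.2.val, by omega⟩, ⟨p.1.val - 1, by omega⟩)
    else (⟨p.2.val + 1, by omega⟩, ⟨min p.1.val (m + 1), by omega⟩)
  refine Finset.sum_involution (fun p _ => g p) ?_ ?_ ?_ ?_
  · rintro ⟨i, l⟩ -
    by_cases h : l.val < i.val
    · have hg : g (i, l) = (⟨l.val, by omega⟩, ⟨i.val - 1, by omega⟩) := if_pos h
      simp only [hg]
      obtain ⟨i', hi'⟩ : ∃ i' : Fin (m + 2), i = i'.succ :=
        ⟨⟨i.val - 1, by omega⟩, Fin.ext (by simp; omega)⟩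
      subst hi'
      have h1 : (⟨(i'.succ).val - 1, by have := i'.isLt; simp only [Fin.val_succ]; omega⟩ :
          Fin (m + 2)) = i' := Fin.ext (by simp)
      have h2 : (⟨l.val, by omega⟩ : Fin (m + 3)) = l.castSucc := rfl
      rw [h2, h1, ft_succAbove i' l (by simp only [Fin.val_succ] at h; omega)]
      simp only [Fin.val_succ, smul_smul, ← pow_add, ← add_smul, Nat.add_sub_cancel]
      rw [show i'.val + 1 + l.val = (l.val + i'.val) + 1 by omega, pow_succ]
      rw [show (-1 : ℤ) ^ (l.val + i'.val) * -1 + (-1 : ℤ) ^ (l.val + i'.val) = 0 by ring,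
        zero_smul]
    · have hg : g (i, l) = (⟨l.val + 1, by omega⟩, ⟨min i.val (m + 1), by omega⟩) := if_neg h
      simp only [hg]
      obtain ⟨i', hi'⟩ : ∃ i' : Fin (m + 2), i = i'.castSucc :=
        ⟨⟨i.val, by omega⟩, rfl⟩
      subst hi'
      have h1 : (⟨min (i'.castSucc).val (m + 1), by omega⟩ : Fin (m + 2)) = i' :=
        Fin.ext (by simp; omega)
      have h2 : (⟨l.val + 1, by omega⟩ : Fin (m + 3)) = l.succ := rfl
      rw [h2, h1, ft_succAbove l i' (by simp only [Fin.val_castSucc] at h; omega)]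
      simp only [Fin.val_castSucc, smul_smul, ← pow_add, ← add_smul]
      rw [show l.val + 1 + min i'.val (m + 1) = (i'.val + l.val) + 1 by omega, pow_succ]
      rw [show (-1 : ℤ) ^ (i'.val + l.val) + (-1 : ℤ) ^ (i'.val + l.val) * -1 = 0 by ring,
        zero_smul]
  · rintro ⟨i, l⟩ - -
    by_cases h : l.val < i.val
    · have hg : g (i, l) = (⟨l.val, by omega⟩, ⟨i.val - 1, by omega⟩) := if_pos h
      simp only [hg]
      intro h1
      have h2 := congrArg (fun p : Fin (m + 3) × Fin (m + 2) => p.1.val) h1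
      simp only at h2
      omega
    · have hg : g (i, l) = (⟨l.val + 1, by omega⟩, ⟨min i.val (m + 1), by omega⟩) := if_neg h
      simp only [hg]
      intro h1
      have h2 := congrArg (fun p : Fin (m + 3) × Fin (m + 2) => p.1.val) h1
      simp only at h2
      omega
  · intro p _
    exact Finset.mem_product.2 ⟨Finset.mem_univ _, Finset.mem_univ _⟩
  · rintro ⟨i, l⟩ -
    by_cases h : l.val < i.val
    · have hg : g (i, l) = (⟨l.val, by omega⟩, ⟨i.val - 1, by omega⟩) := if_pos h
      have hg2 : g (⟨l.val, by omega⟩, ⟨i.val - 1, by omega⟩) =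
          (⟨i.val - 1 + 1, by omega⟩, ⟨min l.val (m + 1), by omega⟩) :=
        if_neg (by show ¬ (i.val - 1 < l.val); omega)
      simp only [hg, hg2]
      refine Prod.ext (Fin.ext ?_) (Fin.ext ?_)
      · show i.val - 1 + 1 = i.val; omega
      · show min l.val (m + 1) = l.val; omega
    · have hg : g (i, l) = (⟨l.val + 1, by omega⟩, ⟨min i.val (m + 1), by omega⟩) := if_neg h
      have hg2 : g (⟨l.val + 1, by omega⟩, ⟨min i.val (m + 1), by omega⟩) =
          (⟨min i.val (m + 1), by omega⟩, ⟨l.val + 1 - 1, by omega⟩) :=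
        if_pos (by show min i.val (m + 1) < l.val + 1; omega)
      simp only [hg, hg2]
      refine Prod.ext (Fin.ext ?_) (Fin.ext ?_)
      · show min i.val (m + 1) = i.val; omega
      · show l.val + 1 - 1 = l.val; omega

theorem ft_ext {V A : Type*} [AddCommGroup A] {m : ℕ} (L1 L2 : ((Fin (m + 1) → V) →₀ ℤ) →ₗ[ℤ] A)
    (h : ∀ v, L1 (Finsupp.single v 1) = L2 (Finsupp.single v 1)) (c : (Fin (m + 1) → V) →₀ ℤ) :
    L1 c = L2 c :=
  LinearMap.congr_fun (Finsupp.lhom_ext' fun v => LinearMap.ext_ring (h v)) c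

theorem ft_tbd_single {V : Type} {m : ℕ} (v : Fin (m + 2) → V) :
    tbd (Finsupp.single v 1) =
      ∑ i : Fin (m + 2), (-1 : ℤ) ^ (i : ℕ) • Finsupp.single (v ∘ Fin.succAbove i) (1 : ℤ) := by
  unfold tbd
  rw [Finsupp.linearCombination_single, one_smul]

theorem ft_tmap_single {V W : Type} (f : V → W) {m : ℕ} (v : Fin (m + 1) → V) (a : ℤ) :
    tmap f (Finsupp.single v a) = Finsupp.single (f ∘ v) a := by
  unfold tmap
  rw [Finsupp.lmapDomain_apply, Finsupp.mapDomain_single]

theorem ft_tcone_single {V : Type} (b : V) {m : ℕ} (v : Fin (m + 1) → V) (a : ℤ) :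
    tcone b (Finsupp.single v a) = Finsupp.single (Fin.cons b v : Fin (m + 2) → V) a := by
  unfold tcone
  rw [Finsupp.lmapDomain_apply, Finsupp.mapDomain_single]

theorem ft_cons_zero {V : Type} (b : V) {m : ℕ} (v : Fin (m + 1) → V) :
    (Fin.cons b v : Fin (m + 2) → V) ∘ Fin.succAbove 0 = v := by
  funext j
  simp

theorem ft_cons_succ {V : Type} (b : V) {m : ℕ} (v : Fin (m + 2) → V) (i : Fin (m + 2)) :
    (Fin.cons b v : Fin (m + 3) → V) ∘ Fin.succAbove i.succ =
      (Fin.cons b (v ∘ Fin.succAbove i) : Fin (m + 2) → V) := by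
  funext j
  refine Fin.cases ?_ (fun j => ?_) j
  · simp
  · simp

theorem tbd_tcone_succ {V : Type} (b : V) {m : ℕ} (c : Tup V (m + 1)) :
    tbd (tcone b c) = c - tcone b (tbd c) := by
  refine ft_ext (tbd ∘ₗ tcone b) (LinearMap.id - tcone b ∘ₗ tbd) (fun v => ?_) c
  rw [LinearMap.comp_apply, LinearMap.sub_apply, LinearMap.comp_apply, LinearMap.id_apply,
    ft_tcone_single, ft_tbd_single, ft_tbd_single, map_sum, Fin.sum_univ_succ, ft_cons_zero]
  simp only [Fin.val_zero, pow_zero, one_smul, map_smul, ft_tcone_single, ft_cons_succ,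
    Fin.val_succ, pow_succ, mul_neg, mul_one, neg_smul, Finset.sum_neg_distrib]
  rw [sub_eq_add_neg]

theorem tbd_tcone_zero {V : Type} (b : V) (c : Tup V 0) :
    tbd (tcone b c) = c - Finsupp.single (fun _ => b) (c.sum fun _ a => a) := by
  have h := ft_ext (tbd ∘ₗ tcone b) (LinearMap.id -
    Finsupp.lsingle (fun _ : Fin 1 => b) ∘ₗ Finsupp.linearCombination ℤ (fun _ => (1 : ℤ)))
    (fun v => ?_) c
  · rw [LinearMap.comp_apply, LinearMap.sub_apply, LinearMap.comp_apply, LinearMap.id_apply,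
      Finsupp.linearCombination_apply, Finsupp.lsingle_apply] at h
    simp only [smul_eq_mul, mul_one] at h
    exact h
  · rw [LinearMap.comp_apply, LinearMap.sub_apply, LinearMap.comp_apply, LinearMap.id_apply,
      ft_tcone_single, ft_tbd_single, Finsupp.linearCombination_single, Finsupp.lsingle_apply,
      Fin.sum_univ_succ, ft_cons_zero]
    have h1 : ∀ i : Fin 1, (Fin.cons b v : Fin 2 → V) ∘ Fin.succAbove i.succ = fun _ => b := by
      intro i
      funext j
      have hi : i = 0 := Subsingleton.elim _ _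
      have hj : j = 0 := Subsingleton.elim _ _
      subst hi hj
      simp
    simp only [Fin.val_zero, pow_zero, one_smul, h1]
    simp
    rw [sub_eq_add_neg]

theorem tbd_tmap {V W : Type} (f : V → W) {m : ℕ} (c : Tup V (m + 1)) :
    tbd (tmap f c) = tmap f (tbd c) := by
  refine ft_ext (tbd ∘ₗ tmap f) (tmap f ∘ₗ tbd) (fun v => ?_) c
  rw [LinearMap.comp_apply, LinearMap.comp_apply, ft_tmap_single, ft_tbd_single, ft_tbd_single,
    map_sum]
  refine Finset.sum_congr rfl fun i _ => ?_
  rw [map_smul, ft_tmap_single]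
  rfl

theorem tbd_tbd {V : Type} {m : ℕ} (c : Tup V (m + 2)) : tbd (tbd c) = 0 := by
  refine ft_ext (tbd ∘ₗ tbd) 0 (fun v => ?_) c
  rw [LinearMap.comp_apply, ft_tbd_single, map_sum, LinearMap.zero_apply]
  simp only [map_smul, ft_tbd_single]
  exact ft_cancel (fun θ => Finsupp.single (v ∘ θ) (1 : ℤ))

theorem ft_smap_comp {j m p : ℕ} (f : Fin (m + 1) → Fin (p + 1)) (g : Fin (j + 1) → Fin (m + 1)) :
    (smap f : Smp m → Smp p) ∘ (smap g : Smp j → Smp m) = (smap (f ∘ g) : Smp j → Smp p) := by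
  funext x
  exact stdSimplex.map_comp_apply g f x

theorem ft_tmap_tmap {U V W : Type} (f : V → W) (g : U → V) {m : ℕ} (c : Tup U m) :
    tmap f (tmap g c) = tmap (f ∘ g) c := by
  refine ft_ext (tmap f ∘ₗ tmap g) (tmap (f ∘ g)) (fun v => ?_) c
  rw [LinearMap.comp_apply, ft_tmap_single, ft_tmap_single, ft_tmap_single]
  rfl

theorem ft_double {m p : ℕ} (x : Tup (Smp m) p) :
    ∑ i : Fin (m + 3), (-1 : ℤ) ^ (i : ℕ) • tmap (smap (Fin.succAbove i))
      (∑ l : Fin (m + 2), (-1 : ℤ) ^ (l : ℕ) • tmap (smap (Fin.succAbove l)) x) = 0 := by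
  simp only [map_sum, map_smul, ft_tmap_tmap, ft_smap_comp]
  exact ft_cancel (fun θ => tmap (smap θ : Smp m → Smp (m + 2)) x)

theorem subS_bd (m : ℕ) :
    tbd (subS (m + 1)) =
      ∑ i : Fin (m + 2), (-1 : ℤ) ^ (i : ℕ) • tmap (smap (Fin.succAbove i)) (subS m) := by
  induction m with
  | zero =>
    show tbd (tcone (bary 1)
      (∑ i : Fin 2, (-1 : ℤ) ^ (i : ℕ) • tmap (smap (Fin.succAbove i)) (subS 0))) = _
    rw [tbd_tcone_zero]
    have h : (∑ i : Fin 2, (-1 : ℤ) ^ (i : ℕ) • tmap (smap (Fin.succAbove i)) (subS 0) :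
        Tup (Smp 1) 0).sum (fun _ a => a) = 0 := by
      have h1 : ∀ c : Tup (Smp 1) 0, c.sum (fun _ a => a) =
          Finsupp.linearCombination ℤ (fun _ => (1 : ℤ)) c := by
        intro c
        rw [Finsupp.linearCombination_apply]
        simp only [smul_eq_mul, mul_one]
      rw [h1, map_sum]
      unfold subS
      simp only [ft_tmap_single, map_smul, Finsupp.linearCombination_single, Fin.sum_univ_two]
      simp
    rw [h, Finsupp.single_zero, sub_zero]
  | succ m ih =>
    show tbd (tcone (bary (m + 2))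
      (∑ i : Fin (m + 3), (-1 : ℤ) ^ (i : ℕ) • tmap (smap (Fin.succAbove i)) (subS (m + 1)))) = _
    rw [tbd_tcone_succ, map_sum]
    simp only [map_smul, tbd_tmap]
    rw [ih, ft_double, map_zero, sub_zero]

theorem subT_bd_zero : tbd (subT 0) = Finsupp.single (fun i => vtx i) 1 - subS 0 := by
  unfold subT subS
  rw [map_zero]
  have h : (fun i : Fin 1 => (vtx i : Smp 0)) = fun _ => vtx 0 := by
    funext i
    rw [Subsingleton.elim i 0]
  rw [h, sub_self]

theorem ft_vtx {m : ℕ} (i : Fin (m + 2)) :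
    (fun j : Fin (m + 2) => (vtx j : Smp (m + 1))) ∘ Fin.succAbove i =
      (smap (Fin.succAbove i) : Smp m → Smp (m + 1)) ∘ (fun j : Fin (m + 1) => vtx j) := by
  funext j
  exact (stdSimplex.map_vertex (Fin.succAbove i) j).symm

theorem ft_T_aux (m : ℕ)
    (h : ∑ i : Fin (m + 2), (-1 : ℤ) ^ (i : ℕ) • tmap (smap (Fin.succAbove i)) (tbd (subT m)) =
      ∑ i : Fin (m + 2), (-1 : ℤ) ^ (i : ℕ) • tmap (smap (Fin.succAbove i))
        (Finsupp.single (fun i => vtx i) 1) -
      ∑ i : Fin (m + 2), (-1 : ℤ) ^ (i : ℕ) • tmap (smap (Fin.succAbove i)) (subS m)) :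
    tbd (subT (m + 1)) = Finsupp.single (fun i => vtx i) 1 - subS (m + 1) -
      ∑ i : Fin (m + 2), (-1 : ℤ) ^ (i : ℕ) • tmap (smap (Fin.succAbove i)) (subT m) := by
  have h1 : subT (m + 1) = tcone (bary (m + 1)) (Finsupp.single (fun i => vtx i) 1 -
      ∑ i : Fin (m + 2), (-1 : ℤ) ^ (i : ℕ) • tmap (smap (Fin.succAbove i)) (subT m)) := rfl
  have h2 : subS (m + 1) = tcone (bary (m + 1))
      (∑ i : Fin (m + 2), (-1 : ℤ) ^ (i : ℕ) • tmap (smap (Fin.succAbove i)) (subS m)) := rfl
  rw [h1, h2, tbd_tcone_succ]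
  have h3 : tbd (Finsupp.single (fun i => vtx i) 1 -
      ∑ i : Fin (m + 2), (-1 : ℤ) ^ (i : ℕ) • tmap (smap (Fin.succAbove i)) (subT m)) =
      ∑ i : Fin (m + 2), (-1 : ℤ) ^ (i : ℕ) • tmap (smap (Fin.succAbove i)) (subS m) := by
    rw [map_sub, map_sum, ft_tbd_single]
    simp only [map_smul, tbd_tmap]
    rw [h]
    simp only [ft_tmap_single, ft_vtx]
    abel
  rw [h3]
  abel

theorem subT_bd (m : ℕ) :
    tbd (subT (m + 1)) = Finsupp.single (fun i => vtx i) 1 - subS (m + 1) -
      ∑ i : Fin (m + 2), (-1 : ℤ) ^ (i : ℕ) • tmap (smap (Fin.succAbove i)) (subT m) := by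
  induction m with
  | zero =>
    apply ft_T_aux
    rw [subT_bd_zero]
    simp only [map_sub, smul_sub, Finset.sum_sub_distrib]
  | succ m ih =>
    apply ft_T_aux
    rw [ih]
    have h := ft_double (subT m)
    simp only [map_sub, smul_sub, Finset.sum_sub_distrib]
    rw [h, sub_zero]

end SimpVol
end
end

section

/-! # Subdivision of singular chains (SV-40) -/

set_option autoImplicit false

open scoped Topology ENNReal NNReal ContDiff Manifold
open MeasureTheory

noncomputable section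

namespace SimpVol

/-- the cancellation in double alternating sums -/
theorem fs_cancel {R : Type*} [Ring R] {E : Type*} [AddCommGroup E] [Module R E] {n : ℕ}
    (F : Fin (n + 2) → Fin (n + 1) → E)
    (hF : ∀ i j, F (i.succAbove j) (j.predAbove i) = F i j) :
    ∑ i : Fin (n + 2), ∑ j : Fin (n + 1), (-1 : R) ^ ((i : ℕ) + (j : ℕ)) • F i j = 0 := by
  rw [← Fintype.sum_prod_type' (f := fun (i : Fin (n + 2)) (j : Fin (n + 1)) =>
    (-1 : R) ^ ((i : ℕ) + (j : ℕ)) • F i j)]
  apply Finset.sum_ninvolution (fun x : Fin (n + 2) × Fin (n + 1) =>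
    (x.1.succAbove x.2, x.2.predAbove x.1))
  · rintro ⟨i, j⟩
    dsimp only
    rw [Fin.neg_one_pow_succAbove_add_predAbove, hF, neg_smul, add_neg_cancel]
  · rintro ⟨i, j⟩ _ h
    exact Fin.succAbove_ne i j (congrArg Prod.fst h)
  · rintro ⟨i, j⟩
    exact Finset.mem_univ _
  · rintro ⟨i, j⟩
    dsimp only
    rw [Fin.succAbove_succAbove_predAbove, Fin.predAbove_predAbove_succAbove]

theorem fs_smap_apply {j m : ℕ} (f : Fin (j + 1) → Fin (m + 1)) (x : Smp j) (l : Fin (m + 1)) :
    (smap f x).1 l = ∑ a ∈ Finset.univ.filter (fun a => f a = l), x.1 a := by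
  show FunOnFinite.linearMap ℝ ℝ f x.1 l = _
  rw [FunOnFinite.linearMap_apply_apply]

theorem fs_smap_comp {i j m : ℕ} (f : Fin (j + 1) → Fin (m + 1)) (g : Fin (i + 1) → Fin (j + 1)) :
    (smap f).comp (smap g) = smap (f ∘ g) := by
  ext1 x
  exact stdSimplex.map_comp_apply _ _ x

/-- `aff w` precomposed with a face -/
theorem fs_aff_smap {j m p : ℕ} (w : Fin (m + 1) → Smp p) (f : Fin (j + 1) → Fin (m + 1)) :
    (aff w).comp (smap f) = aff (w ∘ f) := by
  ext1 x
  apply Subtype.ext
  funext l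
  show ∑ i, (smap f x).1 i * (w i).1 l = ∑ i, x.1 i * (w (f i)).1 l
  rw [← Finset.sum_fiberwise (s := Finset.univ) (g := f)]
  refine Finset.sum_congr rfl fun i _ => ?_
  rw [fs_smap_apply, Finset.sum_mul]
  refine Finset.sum_congr rfl fun a ha => ?_
  rw [(Finset.mem_filter.1 ha).2]

/-- `smap f` after `aff w` -/
theorem fs_smap_aff {m p q : ℕ} (w : Fin (m + 1) → Smp p) (f : Fin (p + 1) → Fin (q + 1)) :
    (smap f).comp (aff w) = aff (smap f ∘ w) := by
  ext1 x
  apply Subtype.ext
  funext l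
  show (smap f (aff w x)).1 l = ∑ i, x.1 i * (smap f (w i)).1 l
  rw [fs_smap_apply]
  show ∑ a ∈ Finset.univ.filter (fun a => f a = l), ∑ i, x.1 i * (w i).1 a = _
  rw [Finset.sum_comm]
  refine Finset.sum_congr rfl fun i _ => ?_
  rw [fs_smap_apply, Finset.mul_sum]

theorem fs_aff_vtx {m : ℕ} : aff (fun i : Fin (m + 1) => (vtx i : Smp m)) =
    ContinuousMap.id (Smp m) := by
  ext1 x
  apply Subtype.ext
  funext l
  show ∑ i, x.1 i * (Pi.single i (1 : ℝ) : Fin (m + 1) → ℝ) l = x.1 l
  simp [Pi.single_apply]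

/-- realization of chains of tuples by affine simplices -/
def fs_real {M : Type} [TopologicalSpace M] {p : ℕ} (σ : Sing M p) {m : ℕ} :
    Tup (Smp p) m →ₗ[ℤ] SChain ℤ M m :=
  Finsupp.lmapDomain ℤ ℤ (fun w : Fin (m + 1) → Smp p => σ.comp (aff w))

theorem fs_real_single {M : Type} [TopologicalSpace M] {p : ℕ} (σ : Sing M p) {m : ℕ}
    (w : Fin (m + 1) → Smp p) (a : ℤ) :
    fs_real σ (Finsupp.single w a) = Finsupp.single (σ.comp (aff w)) a := by
  rw [fs_real, Finsupp.lmapDomain_apply, Finsupp.mapDomain_single]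

theorem fs_Sd_single {M : Type} [TopologicalSpace M] {m : ℕ} (σ : Sing M m) (a : ℤ) :
    Sd (Finsupp.single σ a) = a • fs_real σ (subS m) := by
  rw [Sd, Finsupp.linearCombination_single]; rfl

theorem fs_Td_single {M : Type} [TopologicalSpace M] {m : ℕ} (σ : Sing M m) (a : ℤ) :
    Td (Finsupp.single σ a) = a • fs_real σ (subT m) := by
  rw [Td, Finsupp.linearCombination_single]; rfl

theorem fs_sbd_single {R : Type*} [Ring R] {M : Type} [TopologicalSpace M] {m : ℕ}
    (τ : Sing M (m + 1)) (a : R) :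
    sbd R (Finsupp.single τ a) =
      a • ∑ i : Fin (m + 2), (-1 : R) ^ (i : ℕ) • Finsupp.single (sface i τ) (1 : R) := by
  rw [sbd, Finsupp.linearCombination_single]

theorem fs_tbd_single {V : Type} {m : ℕ} (v : Fin (m + 2) → V) (a : ℤ) :
    tbd (Finsupp.single v a) =
      a • ∑ i : Fin (m + 2), (-1 : ℤ) ^ (i : ℕ) •
        Finsupp.single (v ∘ Fin.succAbove i) (1 : ℤ) := by
  rw [tbd, Finsupp.linearCombination_single]

theorem fs_sbd_real {M : Type} [TopologicalSpace M] {p : ℕ} (σ : Sing M p) {m : ℕ}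
    (c : Tup (Smp p) (m + 1)) : sbd ℤ (fs_real σ c) = fs_real σ (tbd c) := by
  have : (sbd ℤ).comp (fs_real σ) = (fs_real σ).comp (tbd (V := Smp p) (m := m)) := by
    apply Finsupp.lhom_ext
    intro w a
    rw [LinearMap.comp_apply, LinearMap.comp_apply, fs_real_single, fs_sbd_single,
      fs_tbd_single, map_smul, map_sum]
    congr 1
    refine Finset.sum_congr rfl fun i _ => ?_
    rw [map_smul, fs_real_single, sface, ContinuousMap.comp_assoc, fs_aff_smap]
  exact LinearMap.congr_fun this c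

theorem fs_real_tmap {M : Type} [TopologicalSpace M] {p q : ℕ} (σ : Sing M q)
    (f : Fin (p + 1) → Fin (q + 1)) {m : ℕ} (c : Tup (Smp p) m) :
    fs_real σ (tmap (smap f) c) = fs_real (σ.comp (smap f)) c := by
  have : (fs_real σ).comp (tmap (smap f)) = fs_real (σ.comp (smap f)) (m := m) := by
    apply Finsupp.lhom_ext
    intro w a
    rw [LinearMap.comp_apply, tmap, Finsupp.lmapDomain_apply, Finsupp.mapDomain_single,
      fs_real_single, fs_real_single, ContinuousMap.comp_assoc, fs_smap_aff]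
  exact LinearMap.congr_fun this c

theorem fs_real_comp {M M' : Type} [TopologicalSpace M] [TopologicalSpace M'] (f : C(M, M'))
    {p : ℕ} (σ : Sing M p) {m : ℕ} (c : Tup (Smp p) m) :
    cmap f (fs_real σ c) = fs_real (f.comp σ) c := by
  have : (cmap f).comp (fs_real σ) = fs_real (f.comp σ) (m := m) := by
    apply Finsupp.lhom_ext
    intro w a
    rw [LinearMap.comp_apply, cmap, fs_real_single, Finsupp.lmapDomain_apply,
      Finsupp.mapDomain_single, fs_real_single, ContinuousMap.comp_assoc]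
  exact LinearMap.congr_fun this c

theorem fs_sface_sface {M : Type} [TopologicalSpace M] {m : ℕ} (i : Fin (m + 3))
    (j : Fin (m + 2)) (τ : Sing M (m + 2)) :
    sface j (sface i τ) = τ.comp (smap (Fin.succAbove i ∘ Fin.succAbove j)) := by
  rw [sface, sface, ContinuousMap.comp_assoc, fs_smap_comp]

theorem sbd_sbd {R : Type*} [Ring R] {M : Type} [TopologicalSpace M] {m : ℕ}
    (c : SChain R M (m + 2)) : sbd R (sbd R c) = 0 := by
  have : (sbd R).comp (sbd R (M := M) (m := m + 1)) = 0 := by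
    apply Finsupp.lhom_ext
    intro τ a
    rw [LinearMap.comp_apply, fs_sbd_single, map_smul, map_sum, LinearMap.zero_apply]
    have h : ∑ i : Fin (m + 3), sbd R ((-1 : R) ^ (i : ℕ) •
        Finsupp.single (sface i τ) (1 : R)) = 0 := by
      have h1 : ∀ i : Fin (m + 3), sbd R ((-1 : R) ^ (i : ℕ) •
          Finsupp.single (sface i τ) (1 : R)) =
          ∑ j : Fin (m + 2), (-1 : R) ^ ((i : ℕ) + (j : ℕ)) •
            Finsupp.single (sface j (sface i τ)) (1 : R) := by
        intro i
        rw [map_smul, fs_sbd_single, one_smul, Finset.smul_sum]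
        refine Finset.sum_congr rfl fun j _ => ?_
        rw [smul_smul, pow_add]
      rw [Finset.sum_congr rfl fun i _ => h1 i]
      apply fs_cancel (fun (i : Fin (m + 3)) (j : Fin (m + 2)) =>
        Finsupp.single (sface j (sface i τ)) (1 : R))
      intro i j
      rw [fs_sface_sface, fs_sface_sface]
      congr 3
      funext k
      exact Fin.succAbove_succAbove_succAbove_predAbove i j k
    rw [h, smul_zero]
  exact LinearMap.congr_fun this c

theorem Sd_bd {M : Type} [TopologicalSpace M] {m : ℕ} (c : SChain ℤ M (m + 1)) :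
    sbd ℤ (Sd c) = Sd (sbd ℤ c) := by
  have : (sbd ℤ).comp Sd = Sd.comp (sbd ℤ (M := M) (m := m)) := by
    apply Finsupp.lhom_ext
    intro σ a
    rw [LinearMap.comp_apply, LinearMap.comp_apply, fs_Sd_single, map_smul, fs_sbd_real,
      subS_bd, fs_sbd_single, map_smul, map_sum, map_sum]
    congr 1
    refine Finset.sum_congr rfl fun i _ => ?_
    rw [map_smul, map_smul, fs_Sd_single, one_smul, fs_real_tmap]
    rfl
  exact LinearMap.congr_fun this c

theorem Td_bd {M : Type} [TopologicalSpace M] {m : ℕ} (c : SChain ℤ M (m + 1)) :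
    sbd ℤ (Td c) = c - Sd c - Td (sbd ℤ c) := by
  have : (sbd ℤ).comp Td = LinearMap.id - Sd - Td.comp (sbd ℤ (M := M) (m := m)) := by
    apply Finsupp.lhom_ext
    intro σ a
    rw [LinearMap.comp_apply, fs_Td_single, map_smul, fs_sbd_real, subT_bd,
      LinearMap.sub_apply, LinearMap.sub_apply, LinearMap.comp_apply, LinearMap.id_apply,
      fs_Sd_single, fs_sbd_single, map_smul, map_sum, map_sub, map_sub, map_sum, smul_sub,
      smul_sub, fs_real_single, fs_aff_vtx, ContinuousMap.comp_id, Finsupp.smul_single,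
      smul_eq_mul, mul_one]
    congr 2
    refine Finset.sum_congr rfl fun i _ => ?_
    rw [map_smul, map_smul, fs_Td_single, one_smul, fs_real_tmap]
    rfl
  exact LinearMap.congr_fun this c

theorem cmap_Sd {M M' : Type} [TopologicalSpace M] [TopologicalSpace M'] (f : C(M, M')) {m : ℕ}
    (c : SChain ℤ M m) : cmap f (Sd c) = Sd (cmap f c) := by
  have : (cmap f).comp Sd = Sd.comp (cmap f (m := m)) := by
    apply Finsupp.lhom_ext
    intro σ a
    rw [LinearMap.comp_apply, LinearMap.comp_apply, fs_Sd_single, map_smul, fs_real_comp]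
    rw [cmap, Finsupp.lmapDomain_apply, Finsupp.mapDomain_single, fs_Sd_single]
  exact LinearMap.congr_fun this c

theorem cmap_sbd {M M' : Type} [TopologicalSpace M] [TopologicalSpace M'] (f : C(M, M')) {m : ℕ}
    (c : SChain ℤ M (m + 1)) : cmap f (sbd ℤ c) = sbd ℤ (cmap f c) := by
  have : (cmap f).comp (sbd ℤ) = (sbd ℤ).comp (cmap f (m := m + 1)) := by
    apply Finsupp.lhom_ext
    intro σ a
    rw [LinearMap.comp_apply, LinearMap.comp_apply, fs_sbd_single, map_smul, map_sum]
    rw [cmap, cmap, Finsupp.lmapDomain_apply, Finsupp.mapDomain_single, fs_sbd_single]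
    congr 1
    refine Finset.sum_congr rfl fun i _ => ?_
    rw [map_smul, Finsupp.lmapDomain_apply, Finsupp.mapDomain_single]
    rfl
  exact LinearMap.congr_fun this c

theorem fs_support {M : Type} [TopologicalSpace M] {m p : ℕ} (S : Tup (Smp m) p)
    (c : SChain ℤ M m) :
    ∀ τ ∈ (Finsupp.linearCombination ℤ (fun σ : Sing M m => fs_real σ S) c).support,
      ∃ σ ∈ c.support, ∃ g : C(Smp p, Smp m), τ = σ.comp g := by
  classical
  intro τ hτ
  rw [Finsupp.linearCombination_apply, Finsupp.sum] at hτ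
  have h1 := Finsupp.support_finsetSum hτ
  rw [Finset.mem_biUnion] at h1
  obtain ⟨σ, hσ, h2⟩ := h1
  refine ⟨σ, hσ, ?_⟩
  have h3 := Finsupp.support_smul h2
  rw [fs_real, Finsupp.lmapDomain_apply] at h3
  have h4 := Finsupp.mapDomain_support h3
  rw [Finset.mem_image] at h4
  obtain ⟨w, _, hw⟩ := h4
  exact ⟨aff w, hw.symm⟩

theorem Sd_support {M : Type} [TopologicalSpace M] {m : ℕ} (c : SChain ℤ M m) :
    ∀ τ ∈ (Sd c).support, ∃ σ ∈ c.support, ∃ g : C(Smp m, Smp m), τ = σ.comp g :=
  fs_support (subS m) c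

theorem Td_support {M : Type} [TopologicalSpace M] {m : ℕ} (c : SChain ℤ M m) :
    ∀ τ ∈ (Td c).support, ∃ σ ∈ c.support, ∃ g : C(Smp (m + 1), Smp m), τ = σ.comp g :=
  fs_support (subT m) c

end SimpVol
end
end
end

section

section

/-!
# MP_fa46d7_gt: labels of the Kuhn triangulation (F5)
-/

set_option autoImplicit false

open scoped Topology ENNReal NNReal ContDiff Manifold
open MeasureTheory

noncomputable section

namespace SimpVol

section Kuhn

variable {n : ℕ}

/-- lower end of the interval of `w` at `v` -/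
private def fk_a (w : Fin n → ℤ) (v : Fin n → ℝ) : ℝ :=
  Finset.univ.sup' Finset.univ_nonempty
    (fun o : Option (Fin n) => o.elim 0 (fun i => (w i : ℝ) - v i))

/-- upper end of the interval of `w` at `v` -/
private def fk_b (w : Fin n → ℤ) (v : Fin n → ℝ) : ℝ :=
  Finset.univ.inf' Finset.univ_nonempty
    (fun o : Option (Fin n) => o.elim 1 (fun i => (w i : ℝ) + 1 - v i))

private def fk_h (w : Fin n → ℤ) (v : Fin n → ℝ) : ℝ := max (fk_b w v - fk_a w v) 0

private def fk_fl (v : Fin n → ℝ) (t : ℝ) : Fin n → ℤ := fun i => ⌊v i + t⌋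

private lemma fk_mem (w : Fin n → ℤ) (v : Fin n → ℝ) (t : ℝ) :
    t ∈ Set.Ico (fk_a w v) (fk_b w v) ↔ (0 ≤ t ∧ t < 1) ∧ fk_fl v t = w := by
  unfold fk_a fk_b fk_fl
  rw [Set.mem_Ico, Finset.sup'_le_iff, Finset.lt_inf'_iff]
  constructor
  · rintro ⟨h1, h2⟩
    refine ⟨⟨h1 none (Finset.mem_univ _), h2 none (Finset.mem_univ _)⟩, ?_⟩
    funext i
    have h3 := h1 (some i) (Finset.mem_univ _)
    have h4 := h2 (some i) (Finset.mem_univ _)
    simp only [Option.elim_some] at h3 h4
    rw [Int.floor_eq_iff]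
    constructor <;> linarith
  · rintro ⟨⟨h1, h2⟩, h3⟩
    constructor
    · intro o _
      rcases o with _ | i
      · exact h1
      · have : ⌊v i + t⌋ = w i := congrFun h3 i
        rw [Int.floor_eq_iff] at this
        simp only [Option.elim_some]
        linarith
    · intro o _
      rcases o with _ | i
      · exact h2
      · have : ⌊v i + t⌋ = w i := congrFun h3 i
        rw [Int.floor_eq_iff] at this
        simp only [Option.elim_some]
        linarith

private lemma fk_a_le (w : Fin n → ℤ) (v v' : Fin n → ℝ) : fk_a w v' ≤ fk_a w v + dist v v' := by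
  unfold fk_a
  rw [Finset.sup'_le_iff]
  intro o _
  have h1 := Finset.le_sup' (f := fun o : Option (Fin n) => o.elim 0 (fun i => (w i : ℝ) - v i))
    (Finset.mem_univ o)
  rcases o with _ | i
  · simp only [Option.elim_none] at h1 ⊢
    have := dist_nonneg (x := v) (y := v')
    linarith
  · simp only [Option.elim_some] at h1 ⊢
    have h2 := dist_le_pi_dist v v' i
    rw [Real.dist_eq] at h2
    have h3 := abs_le.1 h2
    linarith [h3.1, h3.2]

private lemma fk_b_ge (w : Fin n → ℤ) (v v' : Fin n → ℝ) : fk_b w v - dist v v' ≤ fk_b w v' := by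
  unfold fk_b
  rw [Finset.le_inf'_iff]
  intro o _
  have h1 := Finset.inf'_le (f := fun o : Option (Fin n) => o.elim 1
    (fun i => (w i : ℝ) + 1 - v i)) (Finset.mem_univ o)
  rcases o with _ | i
  · simp only [Option.elim_none] at h1 ⊢
    have := dist_nonneg (x := v) (y := v')
    linarith
  · simp only [Option.elim_some] at h1 ⊢
    have h2 := dist_le_pi_dist v v' i
    rw [Real.dist_eq] at h2
    have h3 := abs_le.1 h2
    linarith [h3.1, h3.2]

private lemma fk_lip (w : Fin n → ℤ) (v v' : Fin n → ℝ) :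
    fk_h w v - 2 * dist v v' ≤ fk_h w v' := by
  have h1 := fk_a_le w v v'
  have h2 := fk_b_ge w v v'
  have h3 := dist_nonneg (x := v) (y := v')
  unfold fk_h
  rcases le_total (fk_b w v - fk_a w v) 0 with h | h
  · rw [max_eq_right h]
    have := le_max_right (fk_b w v' - fk_a w v') 0
    linarith
  · rw [max_eq_left h]
    have := le_max_left (fk_b w v' - fk_a w v') 0
    linarith

private lemma fk_h_nonneg (w : Fin n → ℤ) (v : Fin n → ℝ) : 0 ≤ fk_h w v := le_max_right _ _

private lemma fk_pos {w : Fin n → ℤ} {v : Fin n → ℝ} (h : 0 < fk_h w v) :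
    ∃ t : ℝ, 0 ≤ t ∧ t < 1 ∧ fk_fl v t = w := by
  have h1 : fk_a w v < fk_b w v := by
    by_contra hcon
    push Not at hcon
    unfold fk_h at h
    rw [max_eq_right (by linarith)] at h
    exact lt_irrefl _ h
  obtain ⟨⟨h2, h3⟩, h4⟩ := (fk_mem w v (fk_a w v)).1 ⟨le_refl _, h1⟩
  exact ⟨_, h2, h3, h4⟩

/-- the possible values -/
private def fk_W (v : Fin n → ℝ) : Finset (Fin n → ℤ) :=
  Finset.Icc (fun i => ⌊v i⌋) (fun i => ⌊v i⌋ + 1)

private lemma fk_fl_mem (v : Fin n → ℝ) {t : ℝ} (h0 : 0 ≤ t) (h1 : t < 1) :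
    fk_fl v t ∈ fk_W v := by
  unfold fk_W fk_fl
  rw [Finset.mem_Icc]
  constructor
  · intro i
    exact Int.floor_le_floor (by linarith)
  · intro i
    simp only
    rw [← Int.floor_add_one]
    exact Int.floor_le_floor (by linarith)

private lemma fk_sum (v : Fin n → ℝ) (Q : (Fin n → ℤ) → Prop) [DecidablePred Q] (c d : ℝ)
    (hcd : c ≤ d)
    (h : ∀ t, t ∈ Set.Ico c d ↔ (0 ≤ t ∧ t < 1) ∧ Q (fk_fl v t)) :
    ∑ w ∈ (fk_W v).filter Q, fk_h w v = d - c := by
  have h1 : Set.Ico c d = ⋃ w ∈ (fk_W v).filter Q, Set.Ico (fk_a w v) (fk_b w v) := by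
    ext t
    rw [h, Set.mem_iUnion₂]
    constructor
    · rintro ⟨⟨h0, h1⟩, h2⟩
      refine ⟨fk_fl v t, Finset.mem_filter.2 ⟨fk_fl_mem v h0 h1, h2⟩, ?_⟩
      rw [fk_mem]
      exact ⟨⟨h0, h1⟩, rfl⟩
    · rintro ⟨w, hw, ht⟩
      rw [fk_mem] at ht
      exact ⟨ht.1, ht.2 ▸ (Finset.mem_filter.1 hw).2⟩
  have h2 : volume.real (Set.Ico c d) =
      ∑ w ∈ (fk_W v).filter Q, volume.real (Set.Ico (fk_a w v) (fk_b w v)) := by
    rw [h1]
    refine measureReal_biUnion_finset ?_ ?_ (fun w _ => measure_Ico_lt_top.ne)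
    · intro w _ w' _ hne
      rw [Function.onFun, Set.disjoint_left]
      intro t ht ht'
      rw [fk_mem] at ht ht'
      exact hne (ht.2.symm.trans ht'.2)
    · intro w _
      exact measurableSet_Ico
  rw [Real.volume_real_Ico_of_le hcd] at h2
  rw [h2]
  exact Finset.sum_congr rfl fun w _ => Real.volume_real_Ico.symm

private lemma fk_sum_one (v : Fin n → ℝ) : ∑ w ∈ fk_W v, fk_h w v = 1 := by
  have := fk_sum v (fun _ => True) 0 1 zero_le_one (fun t => by simp [Set.mem_Ico])
  simpa using this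

private lemma fk_sum_coord (v : Fin n → ℝ) (l : Fin n) :
    ∑ w ∈ fk_W v, fk_h w v * (w l : ℝ) = v l := by
  have h1 := fk_sum v (fun w => w l = ⌊v l⌋ + 1) (1 - Int.fract (v l)) 1
    (by linarith [Int.fract_nonneg (v l)]) (fun t => by
      have hf := Int.floor_add_fract (v l)
      have hf0 := Int.fract_nonneg (v l)
      have hf1 := Int.fract_lt_one (v l)
      rw [Set.mem_Ico]
      constructor
      · rintro ⟨h2, h3⟩
        refine ⟨⟨by linarith, h3⟩, ?_⟩
        show ⌊v l + t⌋ = ⌊v l⌋ + 1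
        rw [Int.floor_eq_iff]
        push_cast
        constructor <;> linarith
      · rintro ⟨⟨h2, h3⟩, h4⟩
        have h5 : ⌊v l + t⌋ = ⌊v l⌋ + 1 := h4
        rw [Int.floor_eq_iff] at h5
        push_cast at h5
        exact ⟨by linarith [h5.1], h3⟩)
  have h2 : ∑ w ∈ fk_W v, fk_h w v * (w l : ℝ) =
      ∑ w ∈ fk_W v, (fk_h w v * ⌊v l⌋ + if w l = ⌊v l⌋ + 1 then fk_h w v else 0) := by
    refine Finset.sum_congr rfl fun w hw => ?_
    have hw' := Finset.mem_Icc.1 hw
    have h3 : ⌊v l⌋ ≤ w l := hw'.1 l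
    have h4 : w l ≤ ⌊v l⌋ + 1 := hw'.2 l
    by_cases h5 : w l = ⌊v l⌋ + 1
    · rw [if_pos h5, h5]
      push_cast
      ring
    · rw [if_neg h5]
      have h6 : w l = ⌊v l⌋ := by omega
      rw [h6]
      ring
  rw [h2, Finset.sum_add_distrib, ← Finset.sum_mul, fk_sum_one, ← Finset.sum_filter, h1]
  have hf := Int.floor_add_fract (v l)
  linarith

/-- the support -/
private def fk_S (v : Fin n → ℝ) : Finset (Fin n → ℤ) := (fk_W v).filter (fun w => 0 < fk_h w v)

private lemma fk_mem_S {w : Fin n → ℤ} {v : Fin n → ℝ} (h : 0 < fk_h w v) : w ∈ fk_S v := by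
  obtain ⟨t, h0, h1, h2⟩ := fk_pos h
  exact Finset.mem_filter.2 ⟨h2 ▸ fk_fl_mem v h0 h1, h⟩

private lemma fk_sum_S (v : Fin n → ℝ) (F : (Fin n → ℤ) → ℝ) :
    ∑ w ∈ fk_S v, fk_h w v * F w = ∑ w ∈ fk_W v, fk_h w v * F w := by
  unfold fk_S
  rw [Finset.sum_filter]
  refine Finset.sum_congr rfl fun w _ => ?_
  split_ifs with h
  · rfl
  · have : fk_h w v = 0 := le_antisymm (not_lt.1 h) (fk_h_nonneg w v)
    rw [this, zero_mul]

private lemma fk_chain {w w' : Fin n → ℤ} {v : Fin n → ℝ} (h : w ∈ fk_S v) (h' : w' ∈ fk_S v) :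
    w ≤ w' ∨ w' ≤ w := by
  obtain ⟨t, -, -, h2⟩ := fk_pos (Finset.mem_filter.1 h).2
  obtain ⟨t', -, -, h2'⟩ := fk_pos (Finset.mem_filter.1 h').2
  rw [← h2, ← h2']
  rcases le_total t t' with h3 | h3
  · left
    intro i
    exact Int.floor_le_floor (by linarith)
  · right
    intro i
    exact Int.floor_le_floor (by linarith)

/-- the excess -/
private def fk_g (v : Fin n → ℝ) (w : Fin n → ℤ) : ℕ := ∑ i, (w i - ⌊v i⌋).toNat

private lemma fk_g_le {w : Fin n → ℤ} {v : Fin n → ℝ} (h : w ∈ fk_S v) : fk_g v w ≤ n := by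
  have hw' := Finset.mem_Icc.1 (Finset.mem_filter.1 h).1
  unfold fk_g
  calc ∑ i, (w i - ⌊v i⌋).toNat ≤ ∑ _i : Fin n, 1 := by
        refine Finset.sum_le_sum fun i _ => ?_
        have h4 : w i ≤ ⌊v i⌋ + 1 := hw'.2 i
        omega
    _ = n := by simp

private lemma fk_g_mono {w w' : Fin n → ℤ} {v : Fin n → ℝ} (hle : w ≤ w') :
    fk_g v w ≤ fk_g v w' := by
  unfold fk_g
  refine Finset.sum_le_sum fun i _ => ?_
  have : w i ≤ w' i := hle i
  omega

private lemma fk_g_lt {w w' : Fin n → ℤ} {v : Fin n → ℝ} (h' : w' ∈ fk_S v)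
    (h : w ∈ fk_S v) (hlt : w < w') : fk_g v w < fk_g v w' := by
  obtain ⟨hle, hnle⟩ := Pi.lt_def.1 hlt
  obtain ⟨i, hi⟩ := hnle
  have hw' := Finset.mem_Icc.1 (Finset.mem_filter.1 h).1
  unfold fk_g
  refine Finset.sum_lt_sum (fun i _ => ?_) ⟨i, Finset.mem_univ _, ?_⟩
  · have : w i ≤ w' i := hle i
    omega
  · have h4 : ⌊v i⌋ ≤ w i := hw'.1 i
    omega

private lemma fk_le_iff {w w' : Fin n → ℤ} {v : Fin n → ℝ} (h : w ∈ fk_S v)
    (h' : w' ∈ fk_S v) : fk_g v w < fk_g v w' ↔ w < w' := by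
  constructor
  · intro hlt
    rcases fk_chain h h' with h1 | h1
    · refine lt_of_le_of_ne h1 ?_
      rintro rfl
      exact lt_irrefl _ hlt
    · exact absurd (fk_g_mono (v := v) h1) (by omega)
  · exact fk_g_lt h' h

private lemma fk_g_inj {w w' : Fin n → ℤ} {v : Fin n → ℝ} (h : w ∈ fk_S v)
    (h' : w' ∈ fk_S v) (he : fk_g v w = fk_g v w') : w = w' := by
  by_contra hne
  rcases fk_chain h h' with h1 | h1
  · have := fk_g_lt h' h (lt_of_le_of_ne h1 hne)
    omega
  · have := fk_g_lt h h' (lt_of_le_of_ne h1 (Ne.symm hne))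
    omega

private lemma fk_card_S (v : Fin n → ℝ) : (fk_S v).card ≤ n + 1 := by
  have h1 : ((fk_S v).image (fk_g v)).card = (fk_S v).card :=
    Finset.card_image_of_injOn fun w hw w' hw' h => fk_g_inj hw hw' h
  rw [← h1]
  have h2 : (fk_S v).image (fk_g v) ⊆ Finset.range (n + 1) := by
    intro x hx
    obtain ⟨w, hw, rfl⟩ := Finset.mem_image.1 hx
    have := fk_g_le hw
    exact Finset.mem_range.2 (by omega)
  simpa using Finset.card_le_card h2

private lemma fk_exists (v : Fin n → ℝ) : ∃ w : Fin n → ℤ, 1 / ((n : ℝ) + 1) ≤ fk_h w v := by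
  by_contra hcon
  push Not at hcon
  have h1 : ∑ w ∈ fk_S v, fk_h w v = 1 := by
    have := fk_sum_S v (fun _ => 1)
    simpa [fk_sum_one] using this
  have hne : (fk_S v).Nonempty := by
    rw [Finset.nonempty_iff_ne_empty]
    intro h
    rw [h] at h1
    simp at h1
  have h2 : ∑ w ∈ fk_S v, fk_h w v < ∑ w ∈ fk_S v, 1 / ((n : ℝ) + 1) :=
    Finset.sum_lt_sum_of_nonempty hne fun w _ => hcon w
  rw [h1, Finset.sum_const, nsmul_eq_mul] at h2
  have h3 : ((fk_S v).card : ℝ) ≤ n + 1 := by exact_mod_cast fk_card_S v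
  have h4 : ((fk_S v).card : ℝ) * (1 / ((n : ℝ) + 1)) ≤ 1 := by
    rw [mul_one_div]
    exact div_le_one_of_le₀ h3 (by positivity)
  linarith

/-- (F5) -/
theorem kuhn_exists (n : ℕ) : ∃ P, KuhnLabel n P := by
  classical
  choose P hP using fk_exists (n := n)
  have hn0 : (0 : ℝ) < (n : ℝ) + 1 := by positivity
  have hPpos : ∀ v, 0 < fk_h (P v) v := fun v => lt_of_lt_of_le (by positivity) (hP v)
  have hclose : ∀ v v', dist v v' < 1 / (2 * ((n : ℝ) + 1)) → 0 < fk_h (P v) v' := by
    intro v v' h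
    have h1 := fk_lip (P v) v v'
    have h2 := hP v
    have h3 : 2 * (1 / (2 * ((n : ℝ) + 1))) = 1 / ((n : ℝ) + 1) := by
      field_simp
    linarith
  refine ⟨P, ?_, ?_, ?_, ?_⟩
  · -- near
    intro v
    rw [pi_norm_lt_iff one_pos]
    intro i
    obtain ⟨t, h0, h1, h2⟩ := fk_pos (hPpos v)
    have h3 : ⌊v i + t⌋ = P v i := congrFun h2 i
    rw [Int.floor_eq_iff] at h3
    rw [Real.norm_eq_abs, abs_lt, Pi.sub_apply]
    constructor <;> linarith [h3.1, h3.2]
  · -- few
    intro v hv hinj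
    have h1 : ∀ i, P (v i) ∈ fk_S (v 0) := fun i => fk_mem_S (hclose _ _ (hv i 0))
    have h2 := Finset.card_le_card (s := Finset.univ.image fun i => P (v i)) (t := fk_S (v 0))
      (by
        intro w hw
        obtain ⟨i, -, rfl⟩ := Finset.mem_image.1 hw
        exact h1 i)
    rw [Finset.card_image_of_injective _ hinj, Finset.card_univ, Fintype.card_fin] at h2
    have h3 := fk_card_S (v 0)
    omega
  · -- full
    intro δ v hδ hv hinj
    have hδ0 : 0 ≤ δ := dist_nonneg.trans (hv 0 0)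
    have h1 : ∀ i j, P (v j) ∈ fk_S (v i) := fun i j =>
      fk_mem_S (hclose _ _ ((hv j i).trans_lt hδ))
    have h2 : ∀ i, Finset.univ.image (fun j => P (v j)) = fk_S (v i) := by
      intro i
      apply Finset.eq_of_subset_of_card_le
      · intro w hw
        obtain ⟨j, -, rfl⟩ := Finset.mem_image.1 hw
        exact h1 i j
      · rw [Finset.card_image_of_injective _ hinj, Finset.card_univ, Fintype.card_fin]
        exact fk_card_S _
    constructor
    · -- sorting
      have hlt : ∀ j, fk_g (v 0) (P (v j)) < n + 1 := fun j => by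
        have := fk_g_le (h1 0 j)
        omega
      let g : Fin (n + 1) → Fin (n + 1) := fun j => ⟨fk_g (v 0) (P (v j)), hlt j⟩
      have hg : Function.Injective g := by
        intro j j' h
        apply hinj
        exact fk_g_inj (h1 0 j) (h1 0 j') (by simpa [g] using h)
      let e : Equiv.Perm (Fin (n + 1)) :=
        Equiv.ofBijective g (Finite.injective_iff_bijective.1 hg)
      have he : ∀ i, fk_g (v 0) (P (v (e.symm i))) = i := by
        intro i
        have : g (e.symm i) = i := e.apply_symm_apply i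
        have := congrArg Fin.val this
        simpa [g] using this
      refine ⟨e.symm, ?_, ?_⟩
      · intro i j hij
        refine (fk_le_iff (h1 0 _) (h1 0 _)).1 ?_
        rw [he, he]
        exact hij
      · funext l
        have hW0 := Finset.mem_Icc.1 (Finset.mem_filter.1 (h1 0 (e.symm 0))).1
        have hWn := Finset.mem_Icc.1 (Finset.mem_filter.1 (h1 0 (e.symm (Fin.last n)))).1
        have h3 : P (v (e.symm 0)) l = ⌊v 0 l⌋ := by
          have h4 := he 0
          unfold fk_g at h4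
          simp only [Fin.val_zero, Finset.sum_eq_zero_iff, Finset.mem_univ, true_imp_iff] at h4
          have h5 := h4 l
          have h6 : ⌊v 0 l⌋ ≤ P (v (e.symm 0)) l := hW0.1 l
          omega
        have h4 : P (v (e.symm (Fin.last n))) l = ⌊v 0 l⌋ + 1 := by
          have h5 := he (Fin.last n)
          have h7 : P (v (e.symm (Fin.last n))) l ≤ ⌊v 0 l⌋ + 1 := hWn.2 l
          have h8 : ⌊v 0 l⌋ ≤ P (v (e.symm (Fin.last n))) l := hWn.1 l
          by_contra hne
          have h9 : fk_g (v 0) (P (v (e.symm (Fin.last n)))) < n := by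
            unfold fk_g
            calc ∑ i, (P (v (e.symm (Fin.last n))) i - ⌊v 0 i⌋).toNat < ∑ _i : Fin n, 1 := by
                  refine Finset.sum_lt_sum (fun i _ => ?_) ⟨l, Finset.mem_univ _, ?_⟩
                  · have : P (v (e.symm (Fin.last n))) i ≤ ⌊v 0 i⌋ + 1 := hWn.2 i
                    omega
                  · omega
              _ = n := by simp
          rw [h5, Fin.val_last] at h9
          exact lt_irrefl _ h9
        show P (v (e.symm (Fin.last n))) l = P (v (e.symm 0)) l + 1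
        rw [h3, h4]
    · -- barycentre
      intro i
      have hsum : ∀ F : (Fin n → ℤ) → ℝ,
          ∑ j, fk_h (P (v j)) (v i) * F (P (v j)) = ∑ w ∈ fk_W (v i), fk_h w (v i) * F w := by
        intro F
        rw [← fk_sum_S, ← h2 i, Finset.sum_image fun _ _ _ _ h => hinj h]
      have hone : ∑ j, fk_h (P (v j)) (v i) = 1 := by
        have := hsum (fun _ => 1)
        simpa [fk_sum_one] using this
      have hlow : ∀ j, 1 / ((n : ℝ) + 1) - 2 * δ ≤ fk_h (P (v j)) (v i) := by
        intro j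
        have h3 := fk_lip (P (v j)) (v j) (v i)
        have h4 := hP (v j)
        have h5 := hv j i
        linarith
      have hdev : ∀ j, |fk_h (P (v j)) (v i) - 1 / ((n : ℝ) + 1)| ≤ 2 * n * δ ∨ n = 0 := by
        intro j
        rcases Nat.eq_zero_or_pos n with h0 | h0
        · exact Or.inr h0
        left
        have h0' : (1 : ℝ) ≤ n := by exact_mod_cast h0
        rw [abs_le]
        constructor
        · have := hlow j
          nlinarith
        · have h3 : ∑ j' ∈ Finset.univ.erase j, (1 / ((n : ℝ) + 1) - 2 * δ) ≤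
              ∑ j' ∈ Finset.univ.erase j, fk_h (P (v j')) (v i) :=
            Finset.sum_le_sum fun j' _ => hlow j'
          rw [Finset.sum_const, Finset.card_erase_of_mem (Finset.mem_univ _), Finset.card_univ,
            Fintype.card_fin, nsmul_eq_mul, Nat.add_sub_cancel] at h3
          have h4 := Finset.add_sum_erase Finset.univ (fun j' => fk_h (P (v j')) (v i))
            (Finset.mem_univ j)
          rw [hone] at h4
          have h5 : (n : ℝ) * (1 / ((n : ℝ) + 1)) + 1 / ((n : ℝ) + 1) = 1 := by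
            field_simp
          have h6 : fk_h (P (v j)) (v i) =
            1 - ∑ j' ∈ Finset.univ.erase j, fk_h (P (v j')) (v i) := by linarith
          rw [h6]
          nlinarith
      rw [pi_norm_le_iff_of_nonneg (by positivity)]
      intro l
      have h3 : (v i l) = ∑ j, fk_h (P (v j)) (v i) * (P (v j) l : ℝ) := by
        rw [hsum (fun w => (w l : ℝ)), fk_sum_coord]
      have h4 : v i l - (∑ j, (P (v j) l : ℝ)) / (n + 1) =
          ∑ j, (fk_h (P (v j)) (v i) - 1 / ((n : ℝ) + 1)) *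
            ((P (v j) l : ℝ) - (⌊v i l⌋ : ℝ)) := by
        have h5 : ∑ j : Fin (n + 1), (fk_h (P (v j)) (v i) - 1 / ((n : ℝ) + 1)) = 0 := by
          rw [Finset.sum_sub_distrib, hone, Finset.sum_const, Finset.card_univ,
            Fintype.card_fin, nsmul_eq_mul]
          push_cast
          field_simp
          ring
        have h6 : ∑ j, (fk_h (P (v j)) (v i) - 1 / ((n : ℝ) + 1)) *
            ((P (v j) l : ℝ) - (⌊v i l⌋ : ℝ)) =
            ∑ j, fk_h (P (v j)) (v i) * (P (v j) l : ℝ) -
            (1 / ((n : ℝ) + 1)) * ∑ j, (P (v j) l : ℝ) -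
            (∑ j : Fin (n + 1), (fk_h (P (v j)) (v i) - 1 / ((n : ℝ) + 1))) * (⌊v i l⌋ : ℝ) := by
          rw [Finset.mul_sum, Finset.sum_mul, ← Finset.sum_sub_distrib, ← Finset.sum_sub_distrib]
          exact Finset.sum_congr rfl fun j _ => by ring
        rw [h6, h5, ← h3]
        ring
      rw [Pi.sub_apply, h4, Real.norm_eq_abs]
      refine (Finset.abs_sum_le_sum_abs _ _).trans ?_
      have h7 : ∀ j ∈ (Finset.univ : Finset (Fin (n + 1))),
          |(fk_h (P (v j)) (v i) - 1 / ((n : ℝ) + 1)) *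
            ((P (v j) l : ℝ) - (⌊v i l⌋ : ℝ))| ≤ 2 * n * δ := by
        intro j _
        rcases hdev j with hd | hd
        · rw [abs_mul]
          have hW := Finset.mem_Icc.1 (Finset.mem_filter.1 (h1 i j)).1
          have h8 : ⌊v i l⌋ ≤ P (v j) l := hW.1 l
          have h9 : P (v j) l ≤ ⌊v i l⌋ + 1 := hW.2 l
          have h10 : |(P (v j) l : ℝ) - (⌊v i l⌋ : ℝ)| ≤ 1 := by
            have h8' : (⌊v i l⌋ : ℝ) ≤ P (v j) l := by exact_mod_cast h8
            have h9' : (P (v j) l : ℝ) ≤ ⌊v i l⌋ + 1 := by exact_mod_cast h9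
            rw [abs_le]
            constructor <;> linarith
          calc _ ≤ (2 * n * δ) * 1 := by gcongr
            _ = 2 * n * δ := mul_one _
        · subst hd
          exact l.elim0
      refine (Finset.sum_le_sum h7).trans ?_
      rw [Finset.sum_const, Finset.card_univ, Fintype.card_fin, nsmul_eq_mul]
      push_cast
      apply le_of_eq
      ring
  · -- sperner
    intro w hw x
    set v : Fin n → ℝ := fun l => ∑ i, x.1 i * (w i l : ℝ) with hv
    obtain ⟨t, h0, h1, h2⟩ := fk_pos (hPpos v)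
    have hx0 : ∀ i, 0 ≤ x.1 i := x.2.1
    have hx1 : ∑ i, x.1 i = 1 := x.2.2
    -- the coordinates
    have hmono := hw.1.monotone
    have hlo : ∀ i l, w 0 l ≤ w i l := fun i l => hmono (Fin.zero_le i) l
    have hhi : ∀ i l, w i l ≤ w 0 l + 1 := fun i l => by
      have h3 := hmono (Fin.le_last i) l
      rw [hw.2] at h3
      exact h3
    -- largest index
    have hne : (Finset.univ.filter fun j : Fin (n + 1) =>
        1 - t ≤ ∑ i ∈ Finset.univ.filter (fun i => j ≤ i), x.1 i).Nonempty := by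
      refine ⟨0, Finset.mem_filter.2 ⟨Finset.mem_univ _, ?_⟩⟩
      have : (Finset.univ.filter fun i : Fin (n + 1) => (0 : Fin (n + 1)) ≤ i) =
          Finset.univ := by
        ext i
        simp
      rw [this, hx1]
      linarith
    obtain ⟨j, hj, hjmax⟩ := Finset.exists_max_image _ id hne
    have hj1 := (Finset.mem_filter.1 hj).2
    have hj2 : ∑ i ∈ Finset.univ.filter (fun i => j < i), x.1 i < 1 - t := by
      by_contra hcon
      push Not at hcon
      rcases (Fin.le_last j).eq_or_lt with hlast | hlast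
      · have : (Finset.univ.filter fun i : Fin (n + 1) => j < i) = ∅ := by
          rw [Finset.filter_eq_empty_iff]
          intro i _
          rw [hlast]
          exact not_lt.2 (Fin.le_last i)
        rw [this, Finset.sum_empty] at hcon
        linarith
      · have hlt : (j : ℕ) + 1 < n + 1 := by
          have : (j : ℕ) < n := hlast
          omega
        have hset : (Finset.univ.filter fun i : Fin (n + 1) => j < i) =
            Finset.univ.filter fun i : Fin (n + 1) => (⟨j + 1, hlt⟩ : Fin (n + 1)) ≤ i := by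
          ext i
          simp only [Finset.mem_filter, Finset.mem_univ, true_and, Fin.lt_def, Fin.le_def]
          omega
        rw [hset] at hcon
        have := hjmax ⟨j + 1, hlt⟩ (Finset.mem_filter.2 ⟨Finset.mem_univ _, hcon⟩)
        simp only [id, Fin.le_def] at this
        omega
    have hsplit : ∑ i ∈ Finset.univ.filter (fun i => j ≤ i), x.1 i =
        x.1 j + ∑ i ∈ Finset.univ.filter (fun i => j < i), x.1 i := by
      have : (Finset.univ.filter fun i : Fin (n + 1) => j ≤ i) =
          insert j (Finset.univ.filter fun i : Fin (n + 1) => j < i) := by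
        ext i
        simp only [Finset.mem_filter, Finset.mem_univ, true_and, Finset.mem_insert]
        constructor
        · intro h
          rcases h.eq_or_lt with h | h
          · exact Or.inl h.symm
          · exact Or.inr h
        · rintro (h | h)
          · exact h.ge
          · exact h.le
      rw [this, Finset.sum_insert]
      simp
    refine ⟨j, ?_, by linarith⟩
    rw [← h2]
    funext l
    show ⌊v l + t⌋ = w j l
    have hvl : v l - w 0 l = ∑ i, x.1 i * ((w i l : ℝ) - (w 0 l : ℝ)) := by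
      simp only [hv, mul_sub, Finset.sum_sub_distrib]
      rw [← Finset.sum_mul, hx1, one_mul]
    have hterm0 : ∀ i, 0 ≤ x.1 i * ((w i l : ℝ) - (w 0 l : ℝ)) := fun i => by
      have : (w 0 l : ℝ) ≤ w i l := by exact_mod_cast hlo i l
      exact mul_nonneg (hx0 i) (by linarith)
    have hterm1 : ∀ i, x.1 i * ((w i l : ℝ) - (w 0 l : ℝ)) ≤ x.1 i := fun i => by
      have : (w i l : ℝ) ≤ w 0 l + 1 := by exact_mod_cast hhi i l
      nlinarith [hx0 i]
    have hv0 : 0 ≤ v l - w 0 l := by
      rw [hvl]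
      exact Finset.sum_nonneg fun i _ => hterm0 i
    have hv1 : v l - w 0 l ≤ 1 := by
      rw [hvl, ← hx1]
      exact Finset.sum_le_sum fun i _ => hterm1 i
    rw [Int.floor_eq_iff]
    have hcase : w j l = w 0 l ∨ w j l = w 0 l + 1 := by
      have h3 := hlo j l
      have h4 := hhi j l
      omega
    rcases hcase with hc | hc
    · have h3 : v l - w 0 l ≤ ∑ i ∈ Finset.univ.filter (fun i => j < i), x.1 i := by
        rw [hvl, Finset.sum_filter]
        refine Finset.sum_le_sum fun i _ => ?_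
        split_ifs with h
        · exact hterm1 i
        · have h4 : w i l = w 0 l := by
            have h5 : w i l ≤ w j l := hmono (not_lt.1 h) l
            have h6 := hlo i l
            omega
          rw [h4]
          simp
      rw [hc]
      constructor <;> linarith
    · have h3 : ∑ i ∈ Finset.univ.filter (fun i => j ≤ i), x.1 i ≤ v l - w 0 l := by
        rw [hvl, Finset.sum_filter]
        refine Finset.sum_le_sum fun i _ => ?_
        split_ifs with h
        · have h4 : w i l = w 0 l + 1 := by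
            have h5 : w j l ≤ w i l := hmono h l
            have h6 := hhi i l
            omega
          rw [h4]
          push_cast
          linarith
        · exact hterm0 i
      rw [hc]
      push_cast
      constructor <;> linarith

end Kuhn

end SimpVol
end
end

section

/-!
# MP_fa46d7_gt, SV-41: mesh of iterated barycentric subdivisions
-/

set_option autoImplicit false

open scoped Topology ENNReal NNReal ContDiff Manifold
open MeasureTheory

noncomputable section

namespace SimpVol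

/-- twice the total variation distance -/
def fm_tv {p : ℕ} (x y : Smp p) : ℝ := ∑ i, |x.1 i - y.1 i|

lemma fm_tv_self {p : ℕ} (x : Smp p) : fm_tv x x = 0 := by simp [fm_tv]

lemma fm_tv_comm {p : ℕ} (x y : Smp p) : fm_tv x y = fm_tv y x := by
  unfold fm_tv
  exact Finset.sum_congr rfl fun i _ => abs_sub_comm _ _

lemma fm_tv_nonneg {p : ℕ} (x y : Smp p) : 0 ≤ fm_tv x y :=
  Finset.sum_nonneg fun _ _ => abs_nonneg _

lemma fm_tv_le_two {p : ℕ} (x y : Smp p) : fm_tv x y ≤ 2 := by
  unfold fm_tv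
  have h : ∀ i, |x.1 i - y.1 i| ≤ x.1 i + y.1 i := by
    intro i
    have h1 := x.2.1 i
    have h2 := y.2.1 i
    rw [abs_le]
    constructor <;> linarith
  calc ∑ i, |x.1 i - y.1 i| ≤ ∑ i, (x.1 i + y.1 i) := Finset.sum_le_sum fun i _ => h i
    _ = 2 := by rw [Finset.sum_add_distrib, x.2.2, y.2.2]; norm_num

lemma fm_dist_le {p : ℕ} (x y : Smp p) : dist x y ≤ fm_tv x y := by
  rw [Subtype.dist_eq, dist_pi_le_iff (fm_tv_nonneg x y)]
  intro i
  rw [Real.dist_eq]
  exact Finset.single_le_sum (f := fun i => |x.1 i - y.1 i|) (fun _ _ => abs_nonneg _)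
    (Finset.mem_univ i)

lemma fm_bary {m : ℕ} (x : Smp m) : fm_tv (bary m) x ≤ 2 * ((m : ℝ) / (m + 1)) := by
  have hm : (0 : ℝ) < (m : ℝ) + 1 := by positivity
  have hu : ∀ i, (bary m).1 i = ((m : ℝ) + 1)⁻¹ := by
    intro i
    unfold bary
    rw [stdSimplex.barycenter_apply]
    simp
  obtain ⟨i₀, hi₀⟩ : ∃ i, ((m : ℝ) + 1)⁻¹ ≤ x.1 i := by
    by_contra h
    push Not at h
    have h1 : ∑ i, x.1 i < ∑ _i : Fin (m + 1), ((m : ℝ) + 1)⁻¹ :=
      Finset.sum_lt_sum_of_nonempty Finset.univ_nonempty fun i _ => h i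
    rw [x.2.2, Finset.sum_const, Finset.card_univ, Fintype.card_fin, nsmul_eq_mul] at h1
    push_cast at h1
    rw [mul_inv_cancel₀ hm.ne'] at h1
    exact lt_irrefl _ h1
  have habs : ∀ a : ℝ, |a| = 2 * max a 0 - a := by
    intro a
    rcases le_total 0 a with h | h
    · rw [abs_of_nonneg h, max_eq_left h]; ring
    · rw [abs_of_nonpos h, max_eq_right h]; ring
  have h2 : fm_tv (bary m) x = 2 * ∑ i, max (((m : ℝ) + 1)⁻¹ - x.1 i) 0 := by
    unfold fm_tv
    simp_rw [hu, habs]
    rw [Finset.sum_sub_distrib, ← Finset.mul_sum, Finset.sum_sub_distrib, x.2.2, Finset.sum_const,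
      Finset.card_univ, Fintype.card_fin, nsmul_eq_mul]
    push_cast
    rw [mul_inv_cancel₀ hm.ne']
    ring
  rw [h2, ← Finset.add_sum_erase _ _ (Finset.mem_univ i₀), max_eq_right (by linarith), zero_add]
  have h3 : ∑ i ∈ Finset.univ.erase i₀, max (((m : ℝ) + 1)⁻¹ - x.1 i) 0 ≤
      ∑ _i ∈ Finset.univ.erase i₀, ((m : ℝ) + 1)⁻¹ := by
    refine Finset.sum_le_sum fun i _ => ?_
    have := x.2.1 i
    exact max_le (by linarith) (by positivity)
  rw [Finset.sum_const, Finset.card_erase_of_mem (Finset.mem_univ i₀), Finset.card_univ,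
    Fintype.card_fin, nsmul_eq_mul, Nat.add_sub_cancel] at h3
  rw [div_eq_mul_inv]
  linarith

lemma fm_smap {j m : ℕ} (θ : Fin (j + 1) → Fin (m + 1)) (x y : Smp j) :
    fm_tv (smap θ x) (smap θ y) ≤ fm_tv x y := by
  classical
  have hv : ∀ (z : Smp j) (l : Fin (m + 1)), (smap θ z).1 l =
      ∑ i ∈ Finset.univ.filter (fun i => θ i = l), z.1 i := by
    intro z l
    exact FunOnFinite.linearMap_apply_apply ℝ ℝ θ z.1 l
  unfold fm_tv
  simp_rw [hv, ← Finset.sum_sub_distrib]
  calc ∑ l, |∑ i ∈ Finset.univ.filter (fun i => θ i = l), (x.1 i - y.1 i)|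
      ≤ ∑ l, ∑ i ∈ Finset.univ.filter (fun i => θ i = l), |x.1 i - y.1 i| :=
        Finset.sum_le_sum fun l _ => Finset.abs_sum_le_sum_abs _ _
    _ = ∑ i, |x.1 i - y.1 i| := Finset.sum_fiberwise Finset.univ θ _

lemma fm_ratio (m : ℕ) : 2 * ((m : ℝ) / (m + 1)) ≤ 2 * (((m + 1 : ℕ) : ℝ) / ((m + 1 : ℕ) + 1)) := by
  push_cast
  have h1 : (0 : ℝ) < (m : ℝ) + 1 := by positivity
  have h2 : (0 : ℝ) < (m : ℝ) + 1 + 1 := by positivity
  have : (m : ℝ) / (m + 1) ≤ ((m : ℝ) + 1) / (m + 1 + 1) := by
    rw [div_le_div_iff₀ h1 h2]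
    nlinarith
  linarith

lemma fm_subS (m : ℕ) : ∀ w ∈ (subS m).support, ∀ i j : Fin (m + 1),
    fm_tv (w i) (w j) ≤ 2 * ((m : ℝ) / (m + 1)) := by
  classical
  induction m with
  | zero =>
    intro w hw i j
    have hij : i = j := by omega
    rw [hij, fm_tv_self]
    simp
  | succ m ih =>
    intro w hw i j
    have h1 : w ∈ (tcone (bary (m + 1))
        (∑ i : Fin (m + 2), (-1 : ℤ) ^ (i : ℕ) • tmap (smap (Fin.succAbove i)) (subS m))).support :=
      hw
    unfold tcone at h1
    rw [Finsupp.lmapDomain_apply] at h1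
    obtain ⟨v, hv, rfl⟩ := Finset.mem_image.mp (Finsupp.mapDomain_support h1)
    obtain ⟨a, -, ha⟩ : ∃ a ∈ (Finset.univ : Finset (Fin (m + 2))), v ∈
        ((-1 : ℤ) ^ (a : ℕ) • tmap (smap (Fin.succAbove a)) (subS m)).support := by
      have := Finsupp.support_finsetSum hv
      simpa [Finset.mem_biUnion] using this
    have h2 := Finsupp.support_smul ha
    unfold tmap at h2
    rw [Finsupp.lmapDomain_apply] at h2
    obtain ⟨u, hu, rfl⟩ := Finset.mem_image.mp (Finsupp.mapDomain_support h2)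
    have h0 : (0 : ℝ) ≤ 2 * (((m + 1 : ℕ) : ℝ) / ((m + 1 : ℕ) + 1)) := by positivity
    refine Fin.cases ?_ (fun i' => ?_) i
    · refine Fin.cases ?_ (fun j' => ?_) j
      · rw [fm_tv_self]; exact h0
      · rw [Fin.cons_zero, Fin.cons_succ]
        exact fm_bary _
    · refine Fin.cases ?_ (fun j' => ?_) j
      · rw [Fin.cons_zero, Fin.cons_succ, fm_tv_comm]
        exact fm_bary _
      · rw [Fin.cons_succ, Fin.cons_succ]
        exact (fm_smap _ _ _).trans ((ih u hu i' j').trans (fm_ratio m))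

lemma fm_aff {m p : ℕ} (w : Fin (m + 1) → Smp p) {r : ℝ}
    (hw : ∀ i j, fm_tv (w i) (w j) ≤ 2 * r) (x y : Smp m) :
    fm_tv (aff w x) (aff w y) ≤ r * fm_tv x y := by
  set a : Fin (m + 1) → ℝ := fun i => x.1 i - y.1 i with ha
  have ha0 : ∑ i, a i = 0 := by
    rw [ha, Finset.sum_sub_distrib, x.2.2, y.2.2, sub_self]
  set P : Fin (m + 1) → ℝ := fun i => max (a i) 0 with hP
  set N : Fin (m + 1) → ℝ := fun i => max (-a i) 0 with hN
  have hPN : ∀ i, P i - N i = a i := by
    intro i
    simp only [hP, hN]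
    rcases le_total 0 (a i) with h | h
    · rw [max_eq_left h, max_eq_right (by linarith)]; ring
    · rw [max_eq_right h, max_eq_left (by linarith)]; ring
  have hPN' : ∀ i, P i + N i = |a i| := by
    intro i
    simp only [hP, hN]
    rcases le_total 0 (a i) with h | h
    · rw [max_eq_left h, max_eq_right (by linarith), abs_of_nonneg h]; ring
    · rw [max_eq_right h, max_eq_left (by linarith), abs_of_nonpos h]; ring
  have hP0 : ∀ i, 0 ≤ P i := fun i => le_max_right _ _
  have hN0 : ∀ i, 0 ≤ N i := fun i => le_max_right _ _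
  set τ : ℝ := ∑ i, P i with hτ
  have hτN : ∑ i, N i = τ := by
    have : ∑ i, P i - ∑ i, N i = 0 := by
      rw [← Finset.sum_sub_distrib, ← ha0]
      exact Finset.sum_congr rfl fun i _ => hPN i
    linarith
  have htv : fm_tv x y = 2 * τ := by
    unfold fm_tv
    have : ∑ i, |x.1 i - y.1 i| = ∑ i, (P i + N i) := Finset.sum_congr rfl fun i _ => (hPN' i).symm
    rw [this, Finset.sum_add_distrib, hτN]
    ring
  have hτ0 : 0 ≤ τ := Finset.sum_nonneg fun i _ => hP0 i
  have hv : ∀ j, (aff w x).1 j - (aff w y).1 j = ∑ i, a i * (w i).1 j := by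
    intro j
    show ∑ i, x.1 i * (w i).1 j - ∑ i, y.1 i * (w i).1 j = _
    rw [← Finset.sum_sub_distrib]
    exact Finset.sum_congr rfl fun i _ => by rw [ha]; ring
  rcases hτ0.eq_or_lt with h0 | hpos
  · have hx : ∀ i, a i = 0 := by
      intro i
      have h1 : P i = 0 := by
        have := (Finset.sum_eq_zero_iff_of_nonneg (fun i _ => hP0 i)).mp (hτ.symm.trans h0.symm)
        exact this i (Finset.mem_univ i)
      have h2 : N i = 0 := by
        have := (Finset.sum_eq_zero_iff_of_nonneg (fun i _ => hN0 i)).mp (hτN.trans h0.symm)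
        exact this i (Finset.mem_univ i)
      rw [← hPN i, h1, h2, sub_zero]
    have : fm_tv (aff w x) (aff w y) = 0 := by
      unfold fm_tv
      refine Finset.sum_eq_zero fun j _ => ?_
      rw [hv j]
      simp [hx]
    rw [this, htv, ← h0]
    simp
  · have key : ∀ j, τ * ((aff w x).1 j - (aff w y).1 j) =
        ∑ i, ∑ l, P i * N l * ((w i).1 j - (w l).1 j) := by
      intro j
      rw [hv j]
      have e1 : ∑ i, ∑ l, P i * N l * ((w i).1 j - (w l).1 j) =
          (∑ i, P i * (w i).1 j) * (∑ l, N l) - (∑ i, P i) * ∑ l, N l * (w l).1 j := by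
        rw [Finset.sum_mul_sum, Finset.sum_mul_sum, ← Finset.sum_sub_distrib]
        refine Finset.sum_congr rfl fun i _ => ?_
        rw [← Finset.sum_sub_distrib]
        exact Finset.sum_congr rfl fun l _ => by ring
      rw [e1, hτN, ← hτ]
      have e2 : ∑ i, a i * (w i).1 j = ∑ i, P i * (w i).1 j - ∑ l, N l * (w l).1 j := by
        rw [← Finset.sum_sub_distrib]
        exact Finset.sum_congr rfl fun i _ => by rw [← hPN i]; ring
      rw [e2]
      ring
    have h1 : τ * fm_tv (aff w x) (aff w y) ≤ 2 * r * τ * τ := by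
      calc τ * fm_tv (aff w x) (aff w y)
          = ∑ j, |τ * ((aff w x).1 j - (aff w y).1 j)| := by
            unfold fm_tv
            rw [Finset.mul_sum]
            exact Finset.sum_congr rfl fun j _ => by rw [abs_mul, abs_of_pos hpos]
        _ ≤ ∑ j, ∑ i, ∑ l, P i * N l * |(w i).1 j - (w l).1 j| := by
            refine Finset.sum_le_sum fun j _ => ?_
            rw [key j]
            refine (Finset.abs_sum_le_sum_abs _ _).trans (Finset.sum_le_sum fun i _ => ?_)
            refine (Finset.abs_sum_le_sum_abs _ _).trans (Finset.sum_le_sum fun l _ => ?_)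
            rw [abs_mul, abs_of_nonneg (mul_nonneg (hP0 i) (hN0 l))]
        _ = ∑ i, ∑ l, P i * N l * fm_tv (w i) (w l) := by
            rw [Finset.sum_comm]
            refine Finset.sum_congr rfl fun i _ => ?_
            rw [Finset.sum_comm]
            refine Finset.sum_congr rfl fun l _ => ?_
            unfold fm_tv
            rw [Finset.mul_sum]
        _ ≤ ∑ i, ∑ l, P i * N l * (2 * r) := by
            refine Finset.sum_le_sum fun i _ => Finset.sum_le_sum fun l _ => ?_
            exact mul_le_mul_of_nonneg_left (hw i l) (mul_nonneg (hP0 i) (hN0 l))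
        _ = 2 * r * τ * τ := by
            simp_rw [← Finset.sum_mul, ← Finset.mul_sum, hτN]
            rw [← Finset.sum_mul, ← hτ]
            ring
    rw [htv]
    have h2 : τ * fm_tv (aff w x) (aff w y) ≤ τ * (r * (2 * τ)) := by linarith
    exact le_of_mul_le_mul_left h2 hpos

lemma fm_Sd_support {M : Type} [TopologicalSpace M] {m : ℕ} (c : SChain ℤ M m) :
    ∀ τ ∈ (Sd c).support, ∃ σ ∈ c.support, ∃ w ∈ (subS m).support, τ = σ.comp (aff w) := by
  classical
  intro τ hτ
  unfold Sd at hτ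
  rw [Finsupp.linearCombination_apply, Finsupp.sum] at hτ
  obtain ⟨σ, hσ, h⟩ : ∃ σ ∈ c.support, τ ∈
      (c σ • Finsupp.lmapDomain ℤ ℤ (fun w => σ.comp (aff w)) (subS m)).support := by
    have := Finsupp.support_finsetSum hτ
    simpa [Finset.mem_biUnion] using this
  have h2 := Finsupp.support_smul h
  rw [Finsupp.lmapDomain_apply] at h2
  obtain ⟨w, hw, rfl⟩ := Finset.mem_image.mp (Finsupp.mapDomain_support h2)
  exact ⟨σ, hσ, w, hw, rfl⟩

lemma fm_SdI_support {M : Type} [TopologicalSpace M] {m : ℕ} (z : SChain ℤ M m) (k : ℕ) :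
    ∀ τ ∈ (SdI k z).support, ∃ σ ∈ z.support, ∃ g : C(Smp m, Smp m), τ = σ.comp g ∧
      ∀ x y, fm_tv (g x) (g y) ≤ ((m : ℝ) / (m + 1)) ^ k * fm_tv x y := by
  induction k with
  | zero =>
    intro τ hτ
    refine ⟨τ, ?_, ContinuousMap.id _, (ContinuousMap.comp_id _).symm, fun x y => ?_⟩
    · simpa [SdI] using hτ
    · rw [pow_zero, one_mul]; rfl
  | succ k ih =>
    intro τ hτ
    have h1 : SdI (k + 1) z = Sd (SdI k z) := by
      unfold SdI
      rw [pow_succ']
      rfl
    rw [h1] at hτ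
    obtain ⟨σ', hσ', w, hw, rfl⟩ := fm_Sd_support _ τ hτ
    obtain ⟨σ, hσ, g, rfl, hg⟩ := ih σ' hσ'
    refine ⟨σ, hσ, g.comp (aff w), ContinuousMap.comp_assoc _ _ _, fun x y => ?_⟩
    have h0 : (0 : ℝ) ≤ (m : ℝ) / (m + 1) := by positivity
    calc fm_tv (g (aff w x)) (g (aff w y)) ≤ ((m : ℝ) / (m + 1)) ^ k *
          fm_tv (aff w x) (aff w y) := hg _ _
      _ ≤ ((m : ℝ) / (m + 1)) ^ k * ((m : ℝ) / (m + 1) * fm_tv x y) :=
          mul_le_mul_of_nonneg_left (fm_aff w (fm_subS m w hw) x y) (pow_nonneg h0 k)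
      _ = _ := by ring

/-- (F2) mesh -/
theorem SdI_fine {M : Type} [MetricSpace M] {m : ℕ} (z : SChain ℤ M m) {δ : ℝ} (hδ : 0 < δ) :
    ∃ k₀ : ℕ, ∀ k, k₀ ≤ k → ∀ τ ∈ (SdI k z).support, FineS δ τ := by
  have h0 : (0 : ℝ) ≤ (m : ℝ) / (m + 1) := by positivity
  have h1 : (m : ℝ) / (m + 1) < 1 := by
    rw [div_lt_one (by positivity)]
    linarith
  have hlim : Filter.Tendsto (fun k : ℕ => ((m : ℝ) / (m + 1)) ^ k * 2) Filter.atTop
      (𝓝 (0 * 2)) := (tendsto_pow_atTop_nhds_zero_of_lt_one h0 h1).mul_const 2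
  rw [zero_mul] at hlim
  have hev : ∀ᶠ k : ℕ in Filter.atTop, ∀ σ ∈ z.support, ∀ a b : Smp m,
      dist a b ≤ ((m : ℝ) / (m + 1)) ^ k * 2 → dist (σ a) (σ b) ≤ δ := by
    rw [Filter.eventually_all_finset]
    intro σ hσ
    have huc : UniformContinuous σ := CompactSpace.uniformContinuous_of_continuous σ.continuous
    obtain ⟨η, hη, h⟩ := Metric.uniformContinuous_iff.mp huc δ hδ
    filter_upwards [hlim.eventually (gt_mem_nhds hη)] with k hk a b hab
    exact (h (lt_of_le_of_lt hab hk)).le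
  obtain ⟨k₀, hk₀⟩ := Filter.eventually_atTop.mp hev
  refine ⟨k₀, fun k hk τ hτ => ?_⟩
  obtain ⟨σ, hσ, g, rfl, hg⟩ := fm_SdI_support z k τ hτ
  intro p q
  refine hk₀ k hk σ hσ (g p) (g q) ((fm_dist_le _ _).trans ((hg p q).trans ?_))
  exact mul_le_mul_of_nonneg_left (fm_tv_le_two p q) (pow_nonneg h0 k)

end SimpVol
end
end

section

/-! # Sperner's lemma for iterated barycentric subdivisions (SV-44) -/

set_option autoImplicit false

open scoped Topology ENNReal NNReal ContDiff Manifold
open MeasureTheory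

noncomputable section

namespace SimpVol

theorem fp_verts_comp {M M' : Type} [TopologicalSpace M] [TopologicalSpace M'] (f : C(M, M'))
    {m : ℕ} (τ : Sing M m) : verts (f.comp τ) = f ∘ verts τ := rfl

theorem fp_verts_sface {M : Type} [TopologicalSpace M] {m : ℕ} (i : Fin (m + 2))
    (τ : Sing M (m + 1)) : verts (sface i τ) = verts τ ∘ Fin.succAbove i := by
  funext j
  show τ (stdSimplex.map (Fin.succAbove i) (stdSimplex.vertex j)) =
    τ (stdSimplex.vertex (Fin.succAbove i j))
  rw [stdSimplex.map_vertex]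

/-- `evT` as a linear map. -/
def fp_ev {M : Type} [TopologicalSpace M] {m : ℕ} (θ : (Fin (m + 1) → M) → ℤ) :
    SChain ℤ M m →ₗ[ℤ] ℤ :=
  Finsupp.linearCombination ℤ (fun τ : Sing M m => θ (verts τ))

theorem fp_ev_eq {M : Type} [TopologicalSpace M] {m : ℕ} (θ : (Fin (m + 1) → M) → ℤ)
    (c : SChain ℤ M m) : evT θ c = fp_ev θ c := rfl

theorem fp_ev_single {M : Type} [TopologicalSpace M] {m : ℕ} (θ : (Fin (m + 1) → M) → ℤ)
    (τ : Sing M m) (a : ℤ) : fp_ev θ (Finsupp.single τ a) = a * θ (verts τ) := by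
  rw [fp_ev, Finsupp.linearCombination_single, smul_eq_mul]

theorem fp_ev_cmap {M M' : Type} [TopologicalSpace M] [TopologicalSpace M'] (f : C(M, M'))
    {m : ℕ} (θ : (Fin (m + 1) → M') → ℤ) (c : SChain ℤ M m) :
    fp_ev θ (cmap f c) = fp_ev (fun v => θ (f ∘ v)) c := by
  have : (fp_ev θ).comp (cmap f) = fp_ev (m := m) (fun v => θ (f ∘ v)) := by
    apply Finsupp.lhom_ext
    intro τ a
    rw [LinearMap.comp_apply, cmap, Finsupp.lmapDomain_apply, Finsupp.mapDomain_single,
      fp_ev_single, fp_ev_single, fp_verts_comp]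
  rw [← this]; rfl

theorem fp_sbd_single {M : Type} [TopologicalSpace M] {m : ℕ} (τ : Sing M (m + 1)) (a : ℤ) :
    sbd ℤ (Finsupp.single τ a) =
      a • ∑ i : Fin (m + 2), (-1 : ℤ) ^ (i : ℕ) • Finsupp.single (sface i τ) (1 : ℤ) := by
  rw [sbd, Finsupp.linearCombination_single]

theorem fp_ev_sbd {M : Type} [TopologicalSpace M] {m : ℕ} (θ : (Fin (m + 1) → M) → ℤ)
    (θ' : (Fin (m + 2) → M) → ℤ)
    (h : ∀ v, θ' v = ∑ i : Fin (m + 2), (-1 : ℤ) ^ (i : ℕ) * θ (v ∘ Fin.succAbove i))
    (c : SChain ℤ M (m + 1)) : fp_ev θ (sbd ℤ c) = fp_ev θ' c := by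
  have : (fp_ev θ).comp (sbd ℤ) = fp_ev θ' := by
    apply Finsupp.lhom_ext
    intro τ a
    rw [LinearMap.comp_apply, fp_sbd_single, map_smul, map_sum, fp_ev_single, h, smul_eq_mul]
    congr 1
    refine Finset.sum_congr rfl fun i _ => ?_
    rw [map_smul, fp_ev_single, fp_verts_sface, smul_eq_mul, one_mul]
  rw [← this]; rfl

theorem fp_SdI_succ {M : Type} [TopologicalSpace M] {m : ℕ} (k : ℕ) (c : SChain ℤ M m) :
    SdI (k + 1) c = Sd (SdI k c) := by
  rw [SdI, SdI, pow_succ']; rfl

theorem fp_SdI_zero {M : Type} [TopologicalSpace M] {m : ℕ} (c : SChain ℤ M m) :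
    SdI 0 c = c := by
  rw [SdI, pow_zero]; rfl

theorem fp_SdI_bd {M : Type} [TopologicalSpace M] {m : ℕ} (k : ℕ) (c : SChain ℤ M (m + 1)) :
    sbd ℤ (SdI k c) = SdI k (sbd ℤ c) := by
  induction k with
  | zero => rw [fp_SdI_zero, fp_SdI_zero]
  | succ k ih => rw [fp_SdI_succ, fp_SdI_succ, Sd_bd, ih]

theorem fp_cmap_SdI {M M' : Type} [TopologicalSpace M] [TopologicalSpace M'] (f : C(M, M'))
    {m : ℕ} (k : ℕ) (c : SChain ℤ M m) : cmap f (SdI k c) = SdI k (cmap f c) := by
  induction k with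
  | zero => rw [fp_SdI_zero, fp_SdI_zero]
  | succ k ih => rw [fp_SdI_succ, fp_SdI_succ, cmap_Sd, ih]

/-- the boundary of the fundamental chain of the simplex -/
theorem fp_bd_chain (n k : ℕ) :
    sbd ℤ (SdI k (Finsupp.single (ContinuousMap.id (Smp (n + 1))) (1 : ℤ))) =
      ∑ i : Fin (n + 2), (-1 : ℤ) ^ (i : ℕ) • cmap (smap (Fin.succAbove i))
        (SdI k (Finsupp.single (ContinuousMap.id (Smp n)) (1 : ℤ))) := by
  rw [fp_SdI_bd, fp_sbd_single, one_smul, map_sum]
  refine Finset.sum_congr rfl fun i _ => ?_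
  rw [map_smul, fp_cmap_SdI]
  congr 2
  rw [cmap, Finsupp.lmapDomain_apply, Finsupp.mapDomain_single]
  rfl

open Classical in
/-- the determinant expansion -/
theorem fp_det {V : Type} (n : ℕ) (lam : V → Fin (n + 2)) (v : Fin (n + 2) → V) :
    labDet lam id v = ∑ i : Fin (n + 2), (-1 : ℤ) ^ (i : ℕ) *
      ((-1 : ℤ) ^ (n + 1) * labDet lam (Fin.castSucc : Fin (n + 1) → Fin (n + 2))
        (v ∘ Fin.succAbove i)) := by
  set A : Matrix (Fin (n + 2)) (Fin (n + 2)) ℤ :=
    Matrix.of fun i j => if lam (v i) = id j then (1 : ℤ) else 0 with hA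
  have h1 : labDet lam id v = A.det := by
    unfold labDet
    rw [hA]
    congr!
  have h2 := Matrix.det_updateCol_sum A (Fin.last (n + 1)) (fun _ => (1 : ℤ))
  have h3 : (fun k => ∑ i, (1 : ℤ) • A k i) = fun _ => (1 : ℤ) := by
    funext k
    simp [hA]
  rw [h3, one_smul] at h2
  rw [h1, ← h2, Matrix.det_succ_column _ (Fin.last (n + 1))]
  refine Finset.sum_congr rfl fun i _ => ?_
  rw [Matrix.updateCol_self, Fin.val_last, pow_add, mul_one, mul_assoc]
  congr 2
  unfold labDet
  congr 1
  ext a b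
  simp [hA, Fin.succAbove_last, (Fin.castSucc_lt_last b).ne]

theorem fp_coord {n : ℕ} (i : Fin (n + 2)) (p : Smp n) (j : Fin (n + 1)) :
    (smap (Fin.succAbove i) p).1 (Fin.succAbove i j) = p.1 j := by
  show FunOnFinite.linearMap ℝ ℝ (Fin.succAbove i) p.1 (Fin.succAbove i j) = p.1 j
  rw [FunOnFinite.linearMap_apply_apply]
  have : (Finset.univ.filter fun a => Fin.succAbove i a = Fin.succAbove i j) = {j} := by
    ext a
    simp
  rw [this, Finset.sum_singleton]

theorem fp_coord_self {n : ℕ} (i : Fin (n + 2)) (p : Smp n) :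
    (smap (Fin.succAbove i) p).1 i = 0 := by
  show FunOnFinite.linearMap ℝ ℝ (Fin.succAbove i) p.1 i = 0
  rw [FunOnFinite.linearMap_apply_apply]
  have : (Finset.univ.filter fun a => Fin.succAbove i a = i) = ∅ := by
    ext a
    simp [Fin.succAbove_ne]
  rw [this, Finset.sum_empty]

theorem fp_zero_chain (k : ℕ) :
    SdI k (Finsupp.single (ContinuousMap.id (Smp 0)) (1 : ℤ)) =
      Finsupp.single (ContinuousMap.id (Smp 0)) (1 : ℤ) := by
  induction k with
  | zero => rw [fp_SdI_zero]
  | succ k ih =>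
    rw [fp_SdI_succ, ih, Sd, Finsupp.linearCombination_single, one_smul, subS,
      Finsupp.lmapDomain_apply, Finsupp.mapDomain_single]
    congr 1
    ext p
    exact congrArg (fun q : Smp 0 => q _) (Subsingleton.elim _ _)

theorem fp_sperner (n k : ℕ) : ∀ (lam : Smp n → Fin (n + 1)) (_ : ∀ p : Smp n, 0 < p.1 (lam p)),
    fp_ev (labDet lam id) (SdI k (Finsupp.single (ContinuousMap.id (Smp n)) (1 : ℤ))) = 1 := by
  classical
  induction n with
  | zero =>
    intro lam h
    rw [fp_zero_chain, fp_ev_single, one_mul]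
    unfold labDet
    refine (Matrix.det_fin_one _).trans ?_
    simp only [Matrix.of_apply]
    rw [if_pos (Subsingleton.elim (α := Fin 1) _ _)]
  | succ n ih =>
    intro lam h
    rw [← fp_ev_sbd (fun v => (-1 : ℤ) ^ (n + 1) *
      labDet lam (Fin.castSucc : Fin (n + 1) → Fin (n + 2)) v) (labDet lam id)
      (fun v => fp_det n lam v), fp_bd_chain, map_sum,
      Finset.sum_eq_single (Fin.last (n + 1))]
    · -- the last face
      have hne : ∀ p : Smp n, lam (smap (Fin.succAbove (Fin.last (n + 1))) p) ≠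
          Fin.last (n + 1) := by
        intro p hp
        have h1 := h (smap (Fin.succAbove (Fin.last (n + 1))) p)
        rw [hp, fp_coord_self] at h1
        exact lt_irrefl _ h1
      let lam' : Smp n → Fin (n + 1) := fun p =>
        (lam (smap (Fin.succAbove (Fin.last (n + 1))) p)).castPred (hne p)
      have hl : ∀ p, Fin.castSucc (lam' p) = lam (smap (Fin.succAbove (Fin.last (n + 1))) p) :=
        fun p => Fin.castSucc_castPred _ _
      have h' : ∀ p : Smp n, 0 < p.1 (lam' p) := by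
        intro p
        have h1 := h (smap (Fin.succAbove (Fin.last (n + 1))) p)
        rw [← hl p, ← Fin.succAbove_last_apply, fp_coord] at h1
        exact h1
      rw [map_smul, fp_ev_cmap]
      have e1 : (fun v : Fin (n + 1) → Smp n => (-1 : ℤ) ^ (n + 1) *
          labDet lam (Fin.castSucc : Fin (n + 1) → Fin (n + 2))
            (smap (Fin.succAbove (Fin.last (n + 1))) ∘ v)) =
          fun v => (-1 : ℤ) ^ (n + 1) * labDet lam' id v := by
        funext v
        congr 1
        unfold labDet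
        congr 1
        ext a b
        simp only [Matrix.of_apply, Function.comp_apply, id]
        by_cases hb : lam' (v a) = b
        · rw [if_pos hb, if_pos (by rw [← hl (v a), hb])]
        · rw [if_neg hb, if_neg (by
            rw [← hl (v a)]
            exact fun h => hb (Fin.castSucc_injective _ h))]
      rw [e1]
      have e2 : ∀ (θ : (Fin (n + 1) → Smp n) → ℤ) (a : ℤ) (c : SChain ℤ (Smp n) n),
          fp_ev (fun v => a * θ v) c = a * fp_ev θ c := by
        intro θ a c
        have : fp_ev (fun v => a * θ v) = a • fp_ev (m := n) θ := by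
          apply Finsupp.lhom_ext
          intro τ b
          rw [LinearMap.smul_apply, fp_ev_single, fp_ev_single, smul_eq_mul]
          ring
        rw [this]; rfl
      rw [e2, ih lam' h', Fin.val_last, smul_eq_mul, mul_one, ← pow_add]
      exact Even.neg_one_pow ⟨n + 1, rfl⟩
    · -- the other faces
      intro i _ hi
      rw [map_smul, fp_ev_cmap]
      have e1 : (fun v : Fin (n + 1) → Smp n => (-1 : ℤ) ^ (n + 1) *
          labDet lam (Fin.castSucc : Fin (n + 1) → Fin (n + 2))
            (smap (Fin.succAbove i) ∘ v)) = fun _ => 0 := by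
        funext v
        have : labDet lam (Fin.castSucc : Fin (n + 1) → Fin (n + 2))
            (smap (Fin.succAbove i) ∘ v) = 0 := by
          unfold labDet
          apply Matrix.det_eq_zero_of_column_eq_zero (i.castPred hi)
          intro a
          simp only [Matrix.of_apply, Function.comp_apply, Fin.castSucc_castPred]
          rw [if_neg]
          intro hp
          have h1 := h (smap (Fin.succAbove i) (v a))
          rw [hp, fp_coord_self] at h1
          exact lt_irrefl _ h1
        rw [this, mul_zero]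
      rw [e1]
      have e2 : fp_ev (fun _ : Fin (n + 1) → Smp n => (0 : ℤ)) = 0 := by
        apply Finsupp.lhom_ext
        intro τ b
        rw [fp_ev_single, mul_zero]; rfl
      rw [e2, LinearMap.zero_apply, smul_zero]
    · intro h; exact absurd (Finset.mem_univ _) h

/-- (F3) Sperner's lemma for iterated barycentric subdivisions. -/
theorem sperner (n k : ℕ) (lam : Smp n → Fin (n + 1)) (h : ∀ p : Smp n, 0 < p.1 (lam p)) :
    evT (labDet lam id) (SdI k (Finsupp.single (ContinuousMap.id (Smp n)) (1 : ℤ))) = 1 := by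
  rw [fp_ev_eq]
  exact fp_sperner n k lam h

end SimpVol
end
end
end
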