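import Pool.Agent.Lib.MP_fa46d7_gt.Defs
import Pool.Agent.Lib.MP_fa46d7_gt.FSper

section

section

/-! # Determinant functionals -/

set_option autoImplicit false

open scoped Topology ENNReal NNReal ContDiff Manifold
open MeasureTheory

noncomputable section

namespace SimpVol

/-- (F4) cocycle property of the determinant functionals -/
theorem labDet_cocycle {V Λ : Type} (N : V → Λ) {k : ℕ} (s : Fin (k + 1) → Λ)
    (v : Fin (k + 2) → V)
    (h : ¬ Function.Injective (fun i => N (v i)) ∨ ∀ i j, N (v i) ≠ s j) :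
    ∑ i : Fin (k + 2), (-1 : ℤ) ^ (i : ℕ) * labDet N s (v ∘ Fin.succAbove i) = 0 := by
  classical
  set B : Matrix (Fin (k + 2)) (Fin (k + 2)) ℤ := Matrix.of fun i j =>
    Fin.cons (α := fun _ => ℤ) 1 (fun j => if N (v i) = s j then (1 : ℤ) else 0) j with hB
  have h1 : B.det = ∑ i : Fin (k + 2), (-1 : ℤ) ^ (i : ℕ) * labDet N s (v ∘ Fin.succAbove i) := by
    rw [Matrix.det_succ_column_zero]
    refine Finset.sum_congr rfl fun i _ => ?_
    have h2 : B i 0 = 1 := by simp [hB]
    rw [h2, mul_one]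
    congr 1
  rw [← h1]
  rcases h with h | h
  · rw [Function.Injective] at h
    push Not at h
    obtain ⟨a, b, hab, hne⟩ := h
    refine Matrix.det_zero_of_row_eq hne ?_
    funext j
    refine Fin.cases ?_ (fun j => ?_) j
    · simp [hB]
    · simp only [hB, Matrix.of_apply, Fin.cons_succ]
      have hab' : N (v a) = N (v b) := hab
      rw [hab']
  · refine Matrix.det_eq_zero_of_column_eq_zero (Fin.succ 0) fun i => ?_
    simp only [hB, Matrix.of_apply, Fin.cons_succ]
    rw [if_neg (h i 0)]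

theorem labDet_eq_zero {V Λ : Type} (N : V → Λ) {k : ℕ} (s : Fin k → Λ) (v : Fin k → V)
    (h : labDet N s v ≠ 0) :
    Function.Injective (fun i => N (v i)) ∧ ∃ π : Equiv.Perm (Fin k), ∀ i, N (v i) = s (π i) := by
  classical
  have hinj : Function.Injective (fun i => N (v i)) := by
    intro a b hab
    by_contra hne
    apply h
    unfold labDet
    refine Matrix.det_zero_of_row_eq hne ?_
    funext j
    simp only [Matrix.of_apply]
    have hab' : N (v a) = N (v b) := hab
    rw [hab']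
  have hex : ∀ i, ∃ j, N (v i) = s j := by
    intro i
    by_contra hi
    push Not at hi
    apply h
    unfold labDet
    refine Matrix.det_eq_zero_of_row_eq_zero i fun j => ?_
    simp only [Matrix.of_apply]
    rw [if_neg (hi j)]
  choose f hf using hex
  have hfi : Function.Injective f := by
    intro a b hab
    apply hinj
    simp only
    rw [hf a, hf b, hab]
  refine ⟨hinj, Equiv.ofBijective f (Finite.injective_iff_bijective.mp hfi), fun i => ?_⟩
  rw [Equiv.ofBijective_apply]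
  exact hf i

theorem labDet_perm {V Λ : Type} (N : V → Λ) {k : ℕ} (s : Fin k → Λ) (v : Fin k → V)
    (π : Equiv.Perm (Fin k)) :
    labDet N s (v ∘ π) = Equiv.Perm.sign π * labDet N s v ∧
      labDet N (s ∘ π) v = Equiv.Perm.sign π * labDet N s v := by
  classical
  unfold labDet
  constructor
  · exact Matrix.det_permute π (Matrix.of fun i j => if N (v i) = s j then (1 : ℤ) else 0)
  · exact Matrix.det_permute' π (Matrix.of fun i j => if N (v i) = s j then (1 : ℤ) else 0)

theorem abs_labDet_le {V Λ : Type} (N : V → Λ) {k : ℕ} (s : Fin k → Λ)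
    (hs : Function.Injective s) (v : Fin k → V) : |labDet N s v| ≤ 1 := by
  classical
  by_cases h : labDet N s v = 0
  · rw [h]; simp
  obtain ⟨-, π, hπ⟩ := labDet_eq_zero N s v h
  have h1 : labDet N s v = ((1 : Matrix (Fin k) (Fin k) ℤ).submatrix π id).det := by
    unfold labDet
    congr 1
    ext a b
    simp only [Matrix.of_apply, Matrix.submatrix_apply, id_eq, Matrix.one_apply]
    rw [hπ a]
    simp only [hs.eq_iff]
  rw [h1, Matrix.det_permute, Matrix.det_one, mul_one]
  rcases Int.units_eq_one_or (Equiv.Perm.sign π) with h2 | h2 <;> rw [h2] <;> simp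

end SimpVol
end
end

section

/-! # Expansion of alternating functions -/

set_option autoImplicit false

open scoped Topology ENNReal NNReal ContDiff Manifold
open MeasureTheory

noncomputable section

namespace SimpVol

/-- (F4) expansion of alternating functions -/
theorem alt_expansion {Λ : Type} [LinearOrder Λ] (S : Finset Λ) {k : ℕ} (F : (Fin k → Λ) → ℝ)
    (halt : ∀ t (π : Equiv.Perm (Fin k)), F (t ∘ π) = (Equiv.Perm.sign π : ℝ) * F t)
    (hinj : ∀ t, ¬ Function.Injective t → F t = 0) (t : Fin k → Λ) (ht : ∀ i, t i ∈ S) :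
    F t = ∑ U ∈ S.powersetCard k, if h : U.card = k then
      (labDet id (U.orderEmbOfFin h) t : ℝ) * F (U.orderEmbOfFin h) else 0 := by
  classical
  by_cases ti : Function.Injective t
  · set U0 : Finset Λ := Finset.univ.image t with hU0
    have hc0 : U0.card = k := by
      rw [hU0, Finset.card_image_of_injective _ ti]; simp
    have hmem : ∀ i, t i ∈ U0 := fun i => Finset.mem_image_of_mem t (Finset.mem_univ i)
    have hU0S : U0 ⊆ S := by
      intro x hx
      obtain ⟨i, -, rfl⟩ := Finset.mem_image.mp hx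
      exact ht i
    rw [Finset.sum_eq_single U0]
    · rw [dif_pos hc0]
      set e := U0.orderEmbOfFin hc0 with he
      have hex : ∀ i, ∃ j, e j = t i := by
        intro i
        have h1 : t i ∈ Set.range e := by
          rw [he, Finset.range_orderEmbOfFin]
          exact hmem i
        exact h1
      choose f hf using hex
      have hfi : Function.Injective f := by
        intro a b hab
        apply ti
        rw [← hf a, ← hf b, hab]
      set π : Equiv.Perm (Fin k) := Equiv.ofBijective f (Finite.injective_iff_bijective.mp hfi)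
        with hπ
      have htπ : t = (e : Fin k → Λ) ∘ π := by
        funext i
        rw [Function.comp_apply, hπ, Equiv.ofBijective_apply, hf]
      have h1 := (labDet_perm (id : Λ → Λ) (e : Fin k → Λ) (e : Fin k → Λ) π).1
      have h2 : labDet (id : Λ → Λ) (e : Fin k → Λ) (e : Fin k → Λ) = 1 := by
        unfold labDet
        refine Eq.trans (congrArg Matrix.det (?_ : _ = (1 : Matrix (Fin k) (Fin k) ℤ)))
          Matrix.det_one
        ext a b
        simp only [Matrix.of_apply, id_eq, Matrix.one_apply]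
        by_cases hab : a = b
        · rw [if_pos hab, if_pos (by rw [hab])]
        · rw [if_neg hab, if_neg (fun h => hab (e.injective h))]
      rw [h2, mul_one] at h1
      rw [htπ, h1, halt]
    · intro U hU hne
      have hUc : U.card = k := (Finset.mem_powersetCard.mp hU).2
      rw [dif_pos hUc]
      have h1 : labDet id (U.orderEmbOfFin hUc) t = 0 := by
        by_contra h
        obtain ⟨-, π, hπ⟩ := labDet_eq_zero _ _ _ h
        apply hne
        symm
        apply Finset.eq_of_subset_of_card_le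
        · intro x hx
          obtain ⟨i, -, rfl⟩ := Finset.mem_image.mp hx
          have h2 := hπ i
          simp only [id_eq] at h2
          rw [h2]
          exact Finset.orderEmbOfFin_mem U hUc _
        · rw [hUc, hc0]
      rw [h1]; simp
    · intro h
      exact absurd (Finset.mem_powersetCard.mpr ⟨hU0S, hc0⟩) h
  · rw [hinj t ti]
    symm
    refine Finset.sum_eq_zero fun U hU => ?_
    have hUc : U.card = k := (Finset.mem_powersetCard.mp hU).2
    rw [dif_pos hUc]
    have h1 : labDet id (U.orderEmbOfFin hUc) t = 0 := by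
      by_contra h
      exact ti (labDet_eq_zero _ _ _ h).1
    rw [h1]; simp

theorem fa_verts_sface {M : Type} [TopologicalSpace M] {m : ℕ} (i : Fin (m + 2))
    (τ : Sing M (m + 1)) : verts (sface i τ) = verts τ ∘ Fin.succAbove i := by
  funext j
  unfold verts sface smap vtx
  simp only [ContinuousMap.comp_apply, ContinuousMap.coe_mk, Function.comp_apply]
  rw [stdSimplex.map_vertex]

theorem evT_sbd {M : Type} [TopologicalSpace M] {m : ℕ} (θ : (Fin (m + 1) → M) → ℤ)
    (w : SChain ℤ M (m + 1))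
    (h : ∀ τ ∈ w.support, ∑ i : Fin (m + 2), (-1 : ℤ) ^ (i : ℕ) * θ (verts τ ∘ Fin.succAbove i) = 0) :
    evT θ (sbd ℤ w) = 0 := by
  classical
  have hL : ∀ c : SChain ℤ M m, evT θ c =
      Finsupp.linearCombination ℤ (fun τ : Sing M m => θ (verts τ)) c := by
    intro c
    unfold evT
    rw [Finsupp.linearCombination_apply]
    rfl
  have h0 : sbd ℤ w = w.sum fun τ a => a • ∑ i : Fin (m + 2), (-1 : ℤ) ^ (i : ℕ) •
      Finsupp.single (sface i τ) (1 : ℤ) := by
    unfold sbd
    rw [Finsupp.linearCombination_apply]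
  rw [hL, h0, map_finsuppSum]
  unfold Finsupp.sum
  refine Finset.sum_eq_zero fun τ hτ => ?_
  beta_reduce
  rw [map_smul, map_sum]
  have h1 : ∑ i : Fin (m + 2), (Finsupp.linearCombination ℤ (fun τ : Sing M m => θ (verts τ)))
      ((-1 : ℤ) ^ (i : ℕ) • Finsupp.single (sface i τ) (1 : ℤ)) = 0 := by
    rw [← h τ hτ]
    refine Finset.sum_congr rfl fun i _ => ?_
    rw [map_smul, Finsupp.linearCombination_single, fa_verts_sface]
    simp
  rw [h1, smul_zero]

end SimpVol
end
end
end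

section

section

/-!
# MP_fa46d7_gt: local degree (F6)
-/

set_option autoImplicit false

open scoped Topology ENNReal NNReal ContDiff Manifold
open MeasureTheory

noncomputable section

namespace SimpVol

section FDeg

theorem fg_evT_add {M : Type} [TopologicalSpace M] {m : ℕ} (θ : (Fin (m + 1) → M) → ℤ)
    (a b : SChain ℤ M m) : evT θ (a + b) = evT θ a + evT θ b := by
  classical
  unfold evT
  exact Finsupp.sum_add_index' (by intro; simp) (by intros; ring)

theorem fg_evT_smul {M : Type} [TopologicalSpace M] {m : ℕ} (θ : (Fin (m + 1) → M) → ℤ)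
    (k : ℤ) (a : SChain ℤ M m) : evT θ (k • a) = k * evT θ a := by
  classical
  unfold evT
  rw [Finsupp.sum_smul_index (by intro; simp), Finsupp.mul_sum]
  refine Finsupp.sum_congr fun τ _ => ?_
  ring

theorem fg_evT_zero {M : Type} [TopologicalSpace M] {m : ℕ} (θ : (Fin (m + 1) → M) → ℤ)
    (c : SChain ℤ M m) (h : ∀ τ ∈ c.support, θ (verts τ) = 0) : evT θ c = 0 := by
  unfold evT Finsupp.sum
  refine Finset.sum_eq_zero fun τ hτ => ?_
  show c τ * θ (verts τ) = 0
  rw [h τ hτ, mul_zero]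

theorem fg_evT_cmap {M M' : Type} [TopologicalSpace M] [TopologicalSpace M'] (f : C(M, M'))
    {m : ℕ} (θ : (Fin (m + 1) → M') → ℤ) (c : SChain ℤ M m) :
    evT θ (cmap f c) = evT (fun v => θ (f ∘ v)) c := by
  classical
  unfold evT cmap
  rw [Finsupp.lmapDomain_apply, Finsupp.sum_mapDomain_index (by intro; simp) (by intros; ring)]
  rfl

theorem fg_SdI_succ {M : Type} [TopologicalSpace M] {m : ℕ} (k : ℕ) (c : SChain ℤ M m) :
    SdI (k + 1) c = Sd (SdI k c) := by
  simp [SdI, pow_succ', Module.End.mul_apply]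

theorem fg_SdI_zero {M : Type} [TopologicalSpace M] {m : ℕ} (c : SChain ℤ M m) :
    SdI 0 c = c := by
  simp [SdI]

theorem fg_sbd_SdI {M : Type} [TopologicalSpace M] {m : ℕ} (k : ℕ) (c : SChain ℤ M (m + 1)) :
    sbd ℤ (SdI k c) = SdI k (sbd ℤ c) := by
  induction k with
  | zero => simp [fg_SdI_zero]
  | succ k ih => rw [fg_SdI_succ, fg_SdI_succ, Sd_bd, ih]

theorem fg_cmap_SdI {M M' : Type} [TopologicalSpace M] [TopologicalSpace M'] (f : C(M, M'))
    {m : ℕ} (k : ℕ) (c : SChain ℤ M m) : cmap f (SdI k c) = SdI k (cmap f c) := by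
  induction k with
  | zero => simp [fg_SdI_zero]
  | succ k ih => rw [fg_SdI_succ, fg_SdI_succ, cmap_Sd, ih]

theorem fg_SdI_support {M : Type} [TopologicalSpace M] {m : ℕ} (k : ℕ) (c : SChain ℤ M m) :
    ∀ τ ∈ (SdI k c).support, ∃ σ ∈ c.support, ∃ g : C(Smp m, Smp m), τ = σ.comp g := by
  induction k with
  | zero =>
    intro τ hτ
    rw [fg_SdI_zero] at hτ
    exact ⟨τ, hτ, ContinuousMap.id _, by simp⟩
  | succ k ih =>
    intro τ hτ
    rw [fg_SdI_succ] at hτ
    obtain ⟨σ, hσ, g, rfl⟩ := Sd_support _ τ hτ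
    obtain ⟨ρ, hρ, g', rfl⟩ := ih σ hσ
    exact ⟨ρ, hρ, g'.comp g, by rw [ContinuousMap.comp_assoc]⟩

theorem fg_fine_mono {M : Type} [PseudoMetricSpace M] {m j : ℕ} {δ : ℝ} {σ : Sing M m}
    (hσ : FineS δ σ) (g : C(Smp j, Smp m)) : FineS δ (σ.comp g : Sing M j) :=
  fun p q => hσ (g p) (g q)

/-- Evaluation is invariant under subdivision when the cocycle condition holds on fine tuples. -/
theorem fg_evT_SdI {M : Type} [PseudoMetricSpace M] {m : ℕ} {δ : ℝ}
    (θ : (Fin (m + 2) → M) → ℤ)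
    (hθ : ∀ v : Fin (m + 3) → M, (∀ i j, dist (v i) (v j) ≤ δ) →
      ∑ i : Fin (m + 3), (-1 : ℤ) ^ (i : ℕ) * θ (v ∘ Fin.succAbove i) = 0)
    (z : SChain ℤ M (m + 1)) (hz : sbd ℤ z = 0) (k : ℕ)
    (hk : ∀ τ ∈ (SdI k z).support, FineS δ τ) (l : ℕ) :
    evT θ (SdI (k + l) z) = evT θ (SdI k z) := by
  induction l with
  | zero => rfl
  | succ l ih =>
    rw [← add_assoc, fg_SdI_succ, ← ih]
    set c := SdI (k + l) z with hc
    have hfine : ∀ τ ∈ c.support, FineS δ τ := by
      intro τ hτ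
      have h2 : c = SdI l (SdI k z) := by
        show (Sd ^ (k + l)) z = (Sd ^ l) ((Sd ^ k) z)
        rw [← Module.End.mul_apply, ← pow_add, Nat.add_comm l k]
      rw [h2] at hτ
      obtain ⟨σ, hσ, g, rfl⟩ := fg_SdI_support l _ τ hτ
      exact fg_fine_mono (hk σ hσ) g
    have hcyc : sbd ℤ c = 0 := by
      rw [hc, fg_sbd_SdI, hz, map_zero]
    have h1 := Td_bd c
    rw [hcyc, map_zero, sub_zero] at h1
    have h3 : c = sbd ℤ (Td c) + Sd c := by rw [h1]; abel
    have h4 : evT θ (sbd ℤ (Td c)) = 0 := by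
      apply evT_sbd
      intro τ hτ
      obtain ⟨σ, hσ, g, rfl⟩ := Td_support c τ hτ
      apply hθ
      intro i j
      exact hfine σ hσ _ _
    conv_rhs => rw [h3, fg_evT_add, h4, zero_add]

/-- Coordinates of Kuhn tuples. -/
theorem fg_kuhn_coord {n : ℕ} {w : Fin (n + 2) → (Fin (n + 1) → ℤ)} (hw : IsKuhn w)
    (i : Fin (n + 1)) : ∃ l, ∀ j : Fin (n + 2),
      w j l = w 0 l + if i.succ ≤ j then 1 else 0 := by
  have h1 : w i.castSucc < w i.succ := hw.1 (Fin.castSucc_lt_succ)
  obtain ⟨hle, l, hl⟩ := Pi.lt_def.1 h1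
  have hlast : ∀ j, w j l ≤ w 0 l + 1 := by
    intro j
    have := hw.1.monotone (Fin.le_last j) l
    rw [hw.2] at this
    simpa using this
  have h0 : ∀ j, w 0 l ≤ w j l := fun j => hw.1.monotone (Fin.zero_le j) l
  refine ⟨l, fun j => ?_⟩
  split_ifs with hj
  · have h2 : w i.succ l ≤ w j l := hw.1.monotone hj l
    have h3 := hlast j
    have h4 := h0 i.castSucc
    omega
  · have hj' : j ≤ i.castSucc := by
      rw [not_le] at hj
      exact Fin.le_castSucc_iff.2 hj
    have h2 : w j l ≤ w i.castSucc l := hw.1.monotone hj' l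
    have h3 := hlast i.succ
    have h4 := h0 j
    omega

/-- Kuhn tuples are affinely independent. -/
theorem fg_kuhn_indep {n : ℕ} {w : Fin (n + 2) → (Fin (n + 1) → ℤ)} (hw : IsKuhn w)
    (p p' : Fin (n + 2) → ℝ) (hp : ∑ i, p i = 1) (hp' : ∑ i, p' i = 1)
    (h : ∀ l, ∑ i, p i * (w i l : ℝ) = ∑ i, p' i * (w i l : ℝ)) : p = p' := by
  have key : ∀ a : ℕ, ∑ j : Fin (n + 2), (if a ≤ (j : ℕ) then p j else 0) =
      ∑ j : Fin (n + 2), (if a ≤ (j : ℕ) then p' j else 0) := by
    intro a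
    rcases Nat.eq_zero_or_pos a with rfl | ha
    · simp [hp, hp']
    · rcases Nat.lt_or_ge a (n + 2) with hlt | hge
      · obtain ⟨b, rfl⟩ : ∃ b, a = b + 1 := ⟨a - 1, by omega⟩
        obtain ⟨l, hl⟩ := fg_kuhn_coord hw ⟨b, by omega⟩
        have h2 := h l
        have h3 : ∀ r : Fin (n + 2) → ℝ, ∑ i, r i = 1 → ∑ i, r i * (w i l : ℝ) =
            (w 0 l : ℝ) + ∑ j : Fin (n + 2), (if b + 1 ≤ (j : ℕ) then r j else 0) := by
          intro r hr
          have : ∀ i, r i * (w i l : ℝ) =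
              r i * (w 0 l : ℝ) + (if b + 1 ≤ (i : ℕ) then r i else 0) := by
            intro i
            rw [hl i]
            have he : (Fin.succ ⟨b, by omega⟩ : Fin (n + 2)) ≤ i ↔ b + 1 ≤ (i : ℕ) := by
              rw [Fin.le_def]; simp
            push_cast
            by_cases hb : b + 1 ≤ (i : ℕ)
            · rw [if_pos (he.2 hb), if_pos hb]; ring
            · rw [if_neg (fun hh => hb (he.1 hh)), if_neg hb]; ring
          rw [Finset.sum_congr rfl fun i _ => this i, Finset.sum_add_distrib,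
            ← Finset.sum_mul, hr, one_mul]
        rw [h3 p hp, h3 p' hp'] at h2
        linarith
      · have : ∀ (r : Fin (n + 2) → ℝ), ∑ j : Fin (n + 2), (if a ≤ (j : ℕ) then r j else 0) = 0 := by
          intro r
          refine Finset.sum_eq_zero fun j _ => ?_
          rw [if_neg]
          have := j.2
          omega
        rw [this, this]
  have step : ∀ (r : Fin (n + 2) → ℝ) (j : Fin (n + 2)),
      ∑ i : Fin (n + 2), (if (j : ℕ) ≤ (i : ℕ) then r i else 0) -
        ∑ i : Fin (n + 2), (if (j : ℕ) + 1 ≤ (i : ℕ) then r i else 0) = r j := by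
    intro r j
    rw [← Finset.sum_sub_distrib]
    rw [Finset.sum_eq_single j]
    · simp
    · intro i _ hij
      have hne : (i : ℕ) ≠ j := fun hh => hij (Fin.ext hh)
      by_cases h1 : (j : ℕ) ≤ i
      · rw [if_pos h1, if_pos (by omega), sub_self]
      · rw [if_neg h1, if_neg (by omega), sub_self]
    · simp
  funext j
  rw [← step p j, ← step p' j, key, key]

/-- The real point of a tuple of lattice points with given weights. -/
def fg_pt {n m : ℕ} (w : Fin m → (Fin n → ℤ)) (p : Fin m → ℝ) : Fin n → ℝ :=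
  fun l => ∑ i, p i * (w i l : ℝ)

theorem fg_pt_cont {n m : ℕ} (w : Fin (m + 1) → (Fin n → ℤ)) :
    Continuous (fun p : Smp m => fg_pt w p.1) := by
  refine continuous_pi fun l => ?_
  refine continuous_finsetSum _ fun i _ => ?_
  exact ((continuous_apply i).comp continuous_subtype_val).mul continuous_const

theorem fg_pt_norm {n m : ℕ} (w : Fin (m + 1) → (Fin n → ℤ)) (p : Smp m) {h r : ℝ} (hh : 0 < h)
    (hw : ∀ i, h * ‖(fun l => (w i l : ℝ))‖ + h < r) : ‖h • fg_pt w p.1‖ < r := by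
  have h0 : 0 ≤ r - h := by
    have := hw 0
    have h2 : 0 ≤ h * ‖(fun l => (w 0 l : ℝ))‖ := by positivity
    linarith
  have : ‖h • fg_pt w p.1‖ ≤ r - h := by
    rw [pi_norm_le_iff_of_nonneg h0]
    intro l
    have h1 : (h • fg_pt w p.1) l = ∑ i, p.1 i * (h * (w i l : ℝ)) := by
      simp only [Pi.smul_apply, smul_eq_mul, fg_pt]
      rw [Finset.mul_sum]
      exact Finset.sum_congr rfl fun i _ => by ring
    rw [h1]
    have h2 : r - h = ∑ i, p.1 i * (r - h) := by
      rw [← Finset.sum_mul, p.2.2, one_mul]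
    rw [h2]
    refine (norm_sum_le _ _).trans (Finset.sum_le_sum fun i _ => ?_)
    rw [norm_mul, Real.norm_of_nonneg (p.2.1 i)]
    refine mul_le_mul_of_nonneg_left ?_ (p.2.1 i)
    rw [norm_mul, Real.norm_of_nonneg hh.le]
    have h3 : ‖(w i l : ℝ)‖ ≤ ‖(fun l => (w i l : ℝ))‖ := norm_le_pi_norm (fun l => (w i l : ℝ)) l
    have h4 := mul_le_mul_of_nonneg_left h3 hh.le
    linarith [hw i]
  linarith

variable {n : ℕ} {P : (Fin (n + 1) → ℝ) → (Fin (n + 1) → ℤ)}
  {M : Type} [MetricSpace M] {L R h : ℝ}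
  {q : M} {φ : M → (Fin (n + 1) → ℝ)}

theorem fg_plab_some {R₁ : ℝ} {v : M} {a : Fin (n + 1) → ℤ}
    (hv : plab P φ q R₁ h v = some a) : dist v q < R₁ ∧ P (h⁻¹ • φ v) = a := by
  unfold plab at hv
  split_ifs at hv with h1
  exact ⟨h1, Option.some.inj hv⟩

theorem fg_plab_pos {R₁ : ℝ} {v : M} (hv : dist v q < R₁) :
    plab P φ q R₁ h v = some (P (h⁻¹ • φ v)) := by
  unfold plab
  rw [if_pos hv]

/-- Points with the label `a` are close to `h a`. -/
theorem fg_label_near (hP : KuhnLabel (n + 1) P) (hh : 0 < h) {v : M} {a : Fin (n + 1) → ℤ}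
    (hv : P (h⁻¹ • φ v) = a) {r : ℝ} (ha : h * ‖(fun l => (a l : ℝ))‖ + h < r) : ‖φ v‖ < r := by
  have h1 := hP.near (h⁻¹ • φ v)
  rw [hv] at h1
  have h2 : ‖h⁻¹ • φ v‖ ≤ ‖(fun l => (a l : ℝ))‖ + 1 := by
    have := norm_sub_norm_le (h⁻¹ • φ v) (fun l => (a l : ℝ))
    linarith
  have h3 : φ v = h • (h⁻¹ • φ v) := by
    rw [smul_smul, mul_inv_cancel₀ hh.ne', one_smul]
  rw [h3, norm_smul, Real.norm_of_nonneg hh.le]
  have := mul_le_mul_of_nonneg_left h2 hh.le
  linarith

theorem fg_chart_dist (hL : 1 ≤ L) (hR : 0 < R) (hφ : IsBChart (n + 1) L R q φ) {v : M}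
    (hv : dist v q < R) : dist v q ≤ L * ‖φ v‖ := by
  have h1 := hφ.lower v (Metric.mem_ball.2 hv) q (Metric.mem_ball_self hR)
  rwa [hφ.zero, dist_zero_right] at h1

theorem fg_R1_le (hL : 1 ≤ L) (hR : 0 < R) : R / (4 * L ^ 2) ≤ R := by
  apply div_le_self hR.le
  nlinarith [sq_nonneg (L - 1)]

/-- Distances of rescaled chart points. -/
theorem fg_dist_scaled (hL : 1 ≤ L) (hR : 0 < R) (hh : 0 < h) (hφ : IsBChart (n + 1) L R q φ)
    {u v : M} (hu : dist u q < R / (4 * L ^ 2)) (hv : dist v q < R / (4 * L ^ 2)) {δ : ℝ}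
    (hd : dist u v ≤ δ) : dist (h⁻¹ • φ u) (h⁻¹ • φ v) ≤ L * δ / h := by
  have h1 := hφ.upper u (Metric.mem_ball.2 (hu.trans_le (fg_R1_le hL hR))) v
    (Metric.mem_ball.2 (hv.trans_le (fg_R1_le hL hR)))
  rw [dist_smul₀, norm_inv, Real.norm_of_nonneg hh.le, ← div_eq_inv_mul]
  apply div_le_div_of_nonneg_right _ hh.le
  exact h1.trans (mul_le_mul_of_nonneg_left hd (by linarith))

theorem fg_small (hL : 1 ≤ L) (hh : 0 < h) :
    L * (h / (8 * L * ((n : ℝ) + 2))) / h = 1 / (8 * ((n : ℝ) + 2)) := by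
  have : (0 : ℝ) < L := by linarith
  field_simp

theorem fg_small_lt : 1 / (8 * ((n : ℝ) + 2)) < 1 / (2 * (((n + 1 : ℕ) : ℝ) + 1)) := by
  push_cast
  apply one_div_lt_one_div_of_lt
  · positivity
  · nlinarith [(Nat.cast_nonneg n : (0 : ℝ) ≤ n)]

/-- The cocycle property of the label functional. -/
theorem fg_cocycle (hP : KuhnLabel (n + 1) P) (hL : 1 ≤ L) (hR : 0 < R) (hh : 0 < h)
    (hφ : IsBChart (n + 1) L R q φ) (w : Fin (n + 2) → (Fin (n + 1) → ℤ))
    (hdeep : ∀ i, h * ‖(fun l => (w i l : ℝ))‖ + h < R / (8 * L ^ 3))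
    (v : Fin (n + 3) → M) (hv : ∀ i j, dist (v i) (v j) ≤ h / (8 * L * ((n : ℝ) + 2))) :
    ∑ i : Fin (n + 3), (-1 : ℤ) ^ (i : ℕ) *
      labDet (plab P φ q (R / (4 * L ^ 2)) h) (fun i => some (w i)) (v ∘ Fin.succAbove i) = 0 := by
  have hL0 : 0 < L := by linarith
  apply labDet_cocycle
  by_cases hall : ∀ i, dist (v i) q < R / (4 * L ^ 2)
  · left
    intro hinj
    refine hP.few (fun i => h⁻¹ • φ (v i)) ?_ ?_
    · intro i j
      refine (fg_dist_scaled hL hR hh hφ (hall i) (hall j) (hv i j)).trans_lt ?_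
      rw [fg_small hL hh]
      exact fg_small_lt
    · intro i j hij
      apply hinj
      show plab P φ q (R / (4 * L ^ 2)) h (v i) = plab P φ q (R / (4 * L ^ 2)) h (v j)
      rw [fg_plab_pos (hall i), fg_plab_pos (hall j)]
      exact congrArg some hij
  · right
    push Not at hall
    obtain ⟨a, ha⟩ := hall
    intro i j hij
    obtain ⟨h1, h2⟩ := fg_plab_some hij
    have h3 : ‖φ (v i)‖ < R / (8 * L ^ 3) := fg_label_near hP hh h2 (hdeep j)
    have h4 := fg_chart_dist hL hR hφ (h1.trans_le (fg_R1_le hL hR))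
    have h5 : dist (v a) q ≤ dist (v a) (v i) + dist (v i) q := dist_triangle _ _ _
    have h6 := hv a i
    have h7 : h < R / (8 * L ^ 3) := by
      have := hdeep j
      have h8 : 0 ≤ h * ‖(fun l => (w j l : ℝ))‖ := by positivity
      linarith
    have h9 : h / (8 * L * ((n : ℝ) + 2)) ≤ R / (8 * L ^ 2) := by
      have e1 : h / (8 * L * ((n : ℝ) + 2)) ≤ h := by
        apply div_le_self hh.le
        nlinarith [(Nat.cast_nonneg n : (0 : ℝ) ≤ n)]
      have e2 : R / (8 * L ^ 3) ≤ R / (8 * L ^ 2) := by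
        apply div_le_div_of_nonneg_left hR.le (by positivity)
        have : L ^ 2 ≤ L ^ 3 := pow_le_pow_right₀ hL (by norm_num)
        linarith
      linarith
    have h10 : L * ‖φ (v i)‖ < R / (8 * L ^ 2) := by
      have := mul_lt_mul_of_pos_left h3 hL0
      have e : L * (R / (8 * L ^ 3)) = R / (8 * L ^ 2) := by
        field_simp
      linarith
    have h11 : R / (4 * L ^ 2) = R / (8 * L ^ 2) + R / (8 * L ^ 2) := by
      field_simp
      ring
    linarith

theorem fg_face_coord {m : ℕ} (i : Fin (m + 2)) (p : Smp m) :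
    (smap (Fin.succAbove i) p).1 i = 0 := by
  have h : (smap (Fin.succAbove i) p).1 i =
      FunOnFinite.linearMap ℝ ℝ (Fin.succAbove i) (p : Fin (m + 1) → ℝ) i := rfl
  rw [h, FunOnFinite.linearMap_apply_apply]
  refine Finset.sum_eq_zero fun j hj => ?_
  exact absurd (Finset.mem_filter.1 hj).2 (Fin.succAbove_ne i j)

theorem fg_sbd_single_support {m : ℕ} (y : Sing M (m + 1)) :
    ∀ σ ∈ (sbd ℤ (Finsupp.single y (1 : ℤ))).support, ∃ i, σ = sface i y := by
  classical
  intro σ hσ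
  unfold sbd at hσ
  rw [Finsupp.linearCombination_single, one_smul] at hσ
  have h1 := Finsupp.support_finsetSum hσ
  rw [Finset.mem_biUnion] at h1
  obtain ⟨i, -, hi⟩ := h1
  have h2 := Finsupp.support_smul hi
  have h3 := Finsupp.support_single_subset h2
  exact ⟨i, by simpa using h3⟩

/-- The local degree for Kuhn tuples. -/
theorem fg_local_degree_kuhn (hP : KuhnLabel (n + 1) P) (hL : 1 ≤ L) (hR : 0 < R) (hh : 0 < h)
    (hφ : IsBChart (n + 1) L R q φ)
    (z : SChain ℤ M (n + 1)) (hz : IsFundamentalCycle z)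
    (w : Fin (n + 2) → (Fin (n + 1) → ℤ)) (hw : IsKuhn w)
    (hdeep : ∀ i, h * ‖(fun l => (w i l : ℝ))‖ + h < R / (8 * L ^ 3)) (k : ℕ)
    (hk : ∀ τ ∈ (SdI k z).support, FineS (h / (8 * L * ((n : ℝ) + 2))) τ) :
    |evT (labDet (plab P φ q (R / (4 * L ^ 2)) h) (fun i => some (w i))) (SdI k z)| ≤ 1 := by
  classical
  have hL0 : 0 < L := by linarith
  have hwinj : Function.Injective w := hw.1.injective
  set g := labDet (plab P φ q (R / (4 * L ^ 2)) h) (fun i => some (w i)) with hg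
  have hnorm : ∀ p : Smp (n + 1), ‖h • fg_pt w p.1‖ < R / (8 * L ^ 3) :=
    fun p => fg_pt_norm w p hh hdeep
  have hRL : R / (8 * L ^ 3) ≤ R / L := by
    apply div_le_div_of_nonneg_left hR.le hL0
    have : L ^ 1 ≤ L ^ 3 := pow_le_pow_right₀ hL (by norm_num)
    nlinarith
  choose yf hyf1 hyf2 using fun p : Smp (n + 1) => hφ.surj _ ((hnorm p).trans_le hRL)
  have hyc : Continuous yf := by
    rw [continuous_iff_continuousAt]
    intro p
    rw [ContinuousAt, tendsto_iff_dist_tendsto_zero]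
    have hc : Filter.Tendsto (fun p' : Smp (n + 1) => L * dist (h • fg_pt w p'.1)
        (h • fg_pt w p.1)) (𝓝 p) (𝓝 0) := by
      have h1 : Filter.Tendsto (fun p' : Smp (n + 1) => h • fg_pt w p'.1) (𝓝 p)
          (𝓝 (h • fg_pt w p.1)) := ((fg_pt_cont w).const_smul h).tendsto p
      have h2 := (tendsto_iff_dist_tendsto_zero.1 h1).const_mul L
      simpa using h2
    refine squeeze_zero (fun _ => dist_nonneg) (fun p' => ?_) hc
    have h1 := hφ.lower (yf p') (hyf1 p') (yf p) (hyf1 p)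
    rwa [hyf2, hyf2] at h1
  let y : Sing M (n + 1) := ⟨yf, hyc⟩
  have hy : ∀ p, y p = yf p := fun p => rfl
  have hyinj : ∀ p p' : Smp (n + 1), y p = y p' → p = p' := by
    intro p p' hpp
    have h1 : h • fg_pt w p.1 = h • fg_pt w p'.1 := by
      rw [← hyf2 p, ← hyf2 p', ← hy, ← hy, hpp]
    have h2 : fg_pt w p.1 = fg_pt w p'.1 := smul_right_injective _ hh.ne' h1
    exact Subtype.ext (fg_kuhn_indep hw p.1 p'.1 p.2.2 p'.2.2 (fun l => congrFun h2 l))
  -- the simplex misses `x₀` on its boundary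
  have hoff : OffPoint (y (bary (n + 1))) (sbd ℤ (Finsupp.single y (1 : ℤ))) := by
    intro σ hσ
    obtain ⟨i, rfl⟩ := fg_sbd_single_support y σ hσ
    rintro ⟨p, hp⟩
    have h1 : smap (Fin.succAbove i) p = bary (n + 1) := hyinj _ _ hp
    have h2 := fg_face_coord i p
    rw [h1] at h2
    have h3 : (bary (n + 1)).1 i = (Fintype.card (Fin (n + 1 + 1)) : ℝ)⁻¹ := rfl
    rw [h3] at h2
    simp at h2
    have : (0 : ℝ) < (n : ℝ) + 1 + 1 := by positivity
    exact this.ne' h2
  obtain ⟨kk, W, y', hy'off, hY⟩ := hz.generates _ _ hoff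
  set x₀ := y (bary (n + 1)) with hx₀
  -- a neighbourhood of `x₀` which is missed by `y'`
  have hK : IsCompact (⋃ σ ∈ y'.support, Set.range (σ : Smp (n + 1) → M)) :=
    y'.support.isCompact_biUnion fun σ _ => isCompact_range σ.continuous
  have hx₀K : x₀ ∈ (⋃ σ ∈ y'.support, Set.range (σ : Smp (n + 1) → M))ᶜ := by
    simp only [Set.mem_compl_iff, Set.mem_iUnion, not_exists]
    intro σ hσ
    exact hy'off σ hσ
  obtain ⟨η, hη, hball⟩ := Metric.isOpen_iff.1 hK.isClosed.isOpen_compl x₀ hx₀K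
  -- choice of the constants
  set δ₁ := h / (8 * L * ((n : ℝ) + 2)) with hδ₁
  have hδ₁pos : 0 < δ₁ := by positivity
  set C : ℝ := 2 * ((n : ℝ) + 1) * ((n : ℝ) + 2) * L ^ 2 with hC
  have hCpos : 0 < C := by positivity
  set δ₂ := min δ₁ (η / (2 * C)) with hδ₂
  have hδ₂pos : 0 < δ₂ := lt_min hδ₁pos (by positivity)
  obtain ⟨m1, hm1⟩ := SdI_fine W hδ₁pos
  obtain ⟨m2, hm2⟩ := SdI_fine y' hδ₂pos
  have hcocyc := fg_cocycle hP hL hR hh hφ w hdeep
  have e1 : evT g (SdI (k + (m1 + m2)) z) = evT g (SdI k z) :=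
    fg_evT_SdI g hcocyc z hz.cycle k hk (m1 + m2)
  set m := k + (m1 + m2) with hm
  have e2 : evT g (SdI m (sbd ℤ W)) = 0 := by
    rw [← fg_sbd_SdI]
    apply evT_sbd
    intro τ hτ
    apply hcocyc
    intro i j
    exact hm1 m (by omega) τ hτ _ _
  have e3 : evT g (SdI m y') = 0 := by
    apply fg_evT_zero
    intro τ hτ
    by_contra hne
    obtain ⟨-, π, hπ⟩ := labDet_eq_zero _ _ _ hne
    have h1 : ∀ i, dist (verts τ i) q < R / (4 * L ^ 2) ∧ P (h⁻¹ • φ (verts τ i)) = w (π i) :=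
      fun i => fg_plab_some (hπ i)
    have hfine : FineS δ₂ τ := hm2 m (by omega) τ hτ
    have hsm : L * δ₂ / h ≤ 1 / (8 * ((n : ℝ) + 2)) := by
      rw [← fg_small (n := n) hL hh]
      apply div_le_div_of_nonneg_right _ hh.le
      exact mul_le_mul_of_nonneg_left (min_le_left _ _) hL0.le
    obtain ⟨-, h3⟩ := hP.full (L * δ₂ / h) (fun i => h⁻¹ • φ (verts τ i))
      (hsm.trans_lt fg_small_lt)
      (fun i j => fg_dist_scaled hL hR hh hφ (h1 i).1 (h1 j).1 (hfine _ _))
      (fun i j hij => by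
        have h4 : P (h⁻¹ • φ (verts τ i)) = P (h⁻¹ • φ (verts τ j)) := hij
        rw [(h1 i).2, (h1 j).2] at h4
        exact π.injective (hwinj h4))
    have h4 := h3 0
    have h5 : (fun l => (∑ j, (P (h⁻¹ • φ (verts τ j)) l : ℝ)) / (((n + 1 : ℕ) : ℝ) + 1)) =
        fg_pt w (bary (n + 1)).1 := by
      funext l
      have h6 : ∑ j, (P (h⁻¹ • φ (verts τ j)) l : ℝ) = ∑ j, (w j l : ℝ) := by
        rw [← Equiv.sum_comp π (fun j => (w j l : ℝ))]
        exact Finset.sum_congr rfl fun j _ => by rw [(h1 j).2]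
      rw [h6]
      have h7 : ∀ i, (bary (n + 1)).1 i = (Fintype.card (Fin (n + 1 + 1)) : ℝ)⁻¹ := fun i => rfl
      unfold fg_pt
      simp only [h7]
      rw [← Finset.mul_sum, div_eq_inv_mul]
      simp
    rw [h5] at h4
    have h8 : dist (verts τ 0) x₀ < η := by
      have h9 := hφ.lower (verts τ 0)
        (Metric.mem_ball.2 ((h1 0).1.trans_le (fg_R1_le hL hR))) x₀ (hyf1 _)
      have h10 : φ x₀ = h • fg_pt w (bary (n + 1)).1 := hyf2 _
      have h11 : dist (φ (verts τ 0)) (φ x₀) =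
          h * ‖h⁻¹ • φ (verts τ 0) - fg_pt w (bary (n + 1)).1‖ := by
        rw [h10, dist_eq_norm]
        have : φ (verts τ 0) - h • fg_pt w (bary (n + 1)).1 =
            h • (h⁻¹ • φ (verts τ 0) - fg_pt w (bary (n + 1)).1) := by
          rw [smul_sub, smul_smul, mul_inv_cancel₀ hh.ne', one_smul]
        rw [this, norm_smul, Real.norm_of_nonneg hh.le]
      rw [h11] at h9
      have h12 : L * (h * ‖h⁻¹ • φ (verts τ 0) - fg_pt w (bary (n + 1)).1‖) ≤
          L * (h * (2 * ((n + 1 : ℕ) : ℝ) * (((n + 1 : ℕ) : ℝ) + 1) * (L * δ₂ / h))) := by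
        apply mul_le_mul_of_nonneg_left _ hL0.le
        exact mul_le_mul_of_nonneg_left h4 hh.le
      have h13 : L * (h * (2 * ((n + 1 : ℕ) : ℝ) * (((n + 1 : ℕ) : ℝ) + 1) * (L * δ₂ / h))) =
          C * δ₂ := by
        rw [hC]
        push_cast
        field_simp
        ring
      have h14 : C * δ₂ ≤ η / 2 := by
        have : C * δ₂ ≤ C * (η / (2 * C)) := mul_le_mul_of_nonneg_left (min_le_right _ _) hCpos.le
        have h15 : C * (η / (2 * C)) = η / 2 := by field_simp
        linarith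
      linarith
    have h16 := hball (Metric.mem_ball.2 h8)
    apply h16
    obtain ⟨σ, hσ, g', rfl⟩ := fg_SdI_support m y' τ hτ
    exact Set.mem_biUnion hσ ⟨g' (vtx 0), rfl⟩
  choose lam hlam1 hlam2 using hP.sperner w hw
  have e4 : evT g (SdI m (Finsupp.single y (1 : ℤ))) = 1 := by
    have h1 : (Finsupp.single y (1 : ℤ) : SChain ℤ M (n + 1)) =
        cmap y (Finsupp.single (ContinuousMap.id (Smp (n + 1))) (1 : ℤ)) := by
      unfold cmap
      rw [Finsupp.lmapDomain_apply, Finsupp.mapDomain_single]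
      rfl
    rw [h1, ← fg_cmap_SdI, fg_evT_cmap]
    refine Eq.trans ?_ (sperner (n + 1) m lam hlam2)
    congr 1
    funext v
    rw [hg]
    unfold labDet
    congr 1
    ext i j
    simp only [Matrix.of_apply, Function.comp_apply, id]
    have h2 : plab P φ q (R / (4 * L ^ 2)) h (y (v i)) = some (w (lam (v i))) := by
      rw [fg_plab_pos, ← hlam1 (v i)]
      · congr 2
        have h3 : φ (y (v i)) = h • fg_pt w (v i).1 := hyf2 _
        rw [h3, smul_smul, inv_mul_cancel₀ hh.ne', one_smul]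
        rfl
      · have h3 := fg_chart_dist hL hR hφ (Metric.mem_ball.1 (hyf1 (v i)))
        rw [hyf2] at h3
        have h4 := mul_lt_mul_of_pos_left (hnorm (v i)) hL0
        have h5 : L * (R / (8 * L ^ 3)) = R / (8 * L ^ 2) := by field_simp
        have h6 : R / (8 * L ^ 2) ≤ R / (4 * L ^ 2) := by
          apply div_le_div_of_nonneg_left hR.le (by positivity)
          nlinarith [sq_nonneg L]
        rw [hy]
        linarith
    by_cases hij : lam (v i) = j
    · rw [if_pos hij]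
      exact if_pos (h2.trans (by rw [hij]))
    · rw [if_neg hij]
      exact if_neg (fun hh => hij (hwinj (Option.some.inj (h2.symm.trans hh))))
  rw [hY, map_add, map_add, map_smul, fg_evT_add, fg_evT_add, fg_evT_smul, e2, e3, add_zero,
    add_zero, e1] at e4
  have h1 : |kk| * |evT g (SdI k z)| = 1 := by rw [← abs_mul, e4, abs_one]
  have h2 : |evT g (SdI k z)| ∣ 1 := Dvd.intro_left _ h1
  exact Int.le_of_dvd one_pos h2

/-- (F6) local degree -/
theorem local_degree {n : ℕ} (P : (Fin (n + 1) → ℝ) → (Fin (n + 1) → ℤ)) (hP : KuhnLabel (n + 1) P)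
    {M : Type} [MetricSpace M] [CompactSpace M] {L R h : ℝ} (hL : 1 ≤ L) (hR : 0 < R) (hh : 0 < h)
    (q : M) (φ : M → (Fin (n + 1) → ℝ)) (hφ : IsBChart (n + 1) L R q φ)
    (z : SChain ℤ M (n + 1)) (hz : IsFundamentalCycle z)
    (w : Fin (n + 2) → (Fin (n + 1) → ℤ)) (hw : Function.Injective w)
    (hdeep : ∀ i, h * ‖(fun l => (w i l : ℝ))‖ + h < R / (8 * L ^ 3)) (k : ℕ)
    (hk : ∀ τ ∈ (SdI k z).support, FineS (h / (8 * L * (n + 2))) τ) :
    |evT (labDet (plab P φ q (R / (4 * L ^ 2)) h) (fun i => some (w i))) (SdI k z)| ≤ 1 := by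
  have hL0 : 0 < L := by linarith
  by_cases hkuhn : ∃ π : Equiv.Perm (Fin (n + 2)), IsKuhn (w ∘ π)
  · obtain ⟨π, hπ⟩ := hkuhn
    have h1 := fg_local_degree_kuhn hP hL hR hh hφ z hz (w ∘ π) hπ (fun i => hdeep (π i)) k hk
    have h2 : evT (labDet (plab P φ q (R / (4 * L ^ 2)) h) (fun i => some ((w ∘ π) i)))
        (SdI k z) = (Equiv.Perm.sign π : ℤ) *
        evT (labDet (plab P φ q (R / (4 * L ^ 2)) h) (fun i => some (w i))) (SdI k z) := by
      unfold evT
      rw [Finsupp.mul_sum]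
      refine Finsupp.sum_congr fun τ _ => ?_
      have h3 := (labDet_perm (plab P φ q (R / (4 * L ^ 2)) h) (fun i => some (w i))
        (verts τ) π).2
      have h4 : (fun i => some ((w ∘ π) i)) = (fun i => some (w i)) ∘ π := rfl
      rw [h4, h3]
      ring
    rw [h2, abs_mul] at h1
    have h5 : |((Equiv.Perm.sign π : ℤˣ) : ℤ)| = 1 := by
      rcases Int.units_eq_one_or (Equiv.Perm.sign π) with h6 | h6 <;> rw [h6] <;> simp
    rwa [h5, one_mul] at h1
  · rw [fg_evT_zero]
    · simp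
    intro τ hτ
    by_contra hne
    obtain ⟨-, π, hπ⟩ := labDet_eq_zero _ _ _ hne
    have h1 : ∀ i, dist (verts τ i) q < R / (4 * L ^ 2) ∧ P (h⁻¹ • φ (verts τ i)) = w (π i) :=
      fun i => fg_plab_some (hπ i)
    obtain ⟨⟨ρ, hρ⟩, -⟩ := hP.full (1 / (8 * ((n : ℝ) + 2))) (fun i => h⁻¹ • φ (verts τ i))
      fg_small_lt
      (fun i j => (fg_dist_scaled hL hR hh hφ (h1 i).1 (h1 j).1 (hk τ hτ _ _)).trans
        (fg_small hL hh).le)
      (fun i j hij => by
        have h4 : P (h⁻¹ • φ (verts τ i)) = P (h⁻¹ • φ (verts τ j)) := hij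
        rw [(h1 i).2, (h1 j).2] at h4
        exact π.injective (hw h4))
    apply hkuhn
    refine ⟨ρ.trans π, ?_⟩
    have h5 : (fun i => P (h⁻¹ • φ (verts τ (ρ i)))) = w ∘ (ρ.trans π) := by
      funext i
      rw [(h1 (ρ i)).2]
      rfl
    rw [← h5]
    exact hρ

end FDeg

end SimpVol
end
end

section

/-!
# MP_fa46d7_gt: the coefficient bound (F7)
-/

set_option autoImplicit false

open scoped Topology ENNReal NNReal ContDiff Manifold
open MeasureTheory

noncomputable section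

namespace SimpVol

section Prism

variable {M : Type}

private def fc_sA (j : ℕ) (v : ℕ → M) : ℕ → M := fun k => v (if k < j then k else k + 1)

private def fc_pr (f : M → M) (i : ℕ) (v : ℕ → M) : ℕ → M :=
  fun k => if k ≤ i then v k else f (v (k - 1))

private def fc_A (f : M → M) (i : ℕ) (v : ℕ → M) : ℕ → M :=
  fun k => if k < i then v k else f (v k)

private lemma fc_sA_lt (f : M → M) (v : ℕ → M) {i j : ℕ} (h : j < i) :
    fc_sA j (fc_pr f i v) = fc_pr f (i - 1) (fc_sA j v) := by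
  funext k
  simp only [fc_sA, fc_pr]
  by_cases h1 : k < j
  · rw [if_pos h1, if_pos (by omega), if_pos (by omega)]
  · rw [if_neg h1]
    by_cases h2 : k + 1 ≤ i
    · rw [if_pos h2, if_pos (by omega)]
    · rw [if_neg h2, if_neg (by omega), if_neg (by omega)]
      congr 2
      omega

private lemma fc_sA_eq (f : M → M) (v : ℕ → M) (i : ℕ) :
    fc_sA i (fc_pr f i v) = fc_A f i v := by
  funext k
  simp only [fc_sA, fc_pr, fc_A]
  by_cases h1 : k < i
  · rw [if_pos h1, if_pos (by omega), if_pos h1]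
  · rw [if_neg h1, if_neg (by omega), if_neg h1]
    congr 1

private lemma fc_sA_succ (f : M → M) (v : ℕ → M) (i : ℕ) :
    fc_sA (i + 1) (fc_pr f i v) = fc_A f (i + 1) v := by
  funext k
  simp only [fc_sA, fc_pr, fc_A]
  by_cases h1 : k < i + 1
  · rw [if_pos h1, if_pos (by omega), if_pos h1]
  · rw [if_neg h1, if_neg (by omega), if_neg h1]
    congr 1

private lemma fc_sA_gt (f : M → M) (v : ℕ → M) {i j : ℕ} (h : i + 1 < j) :
    fc_sA j (fc_pr f i v) = fc_pr f i (fc_sA (j - 1) v) := by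
  funext k
  simp only [fc_sA, fc_pr]
  by_cases h1 : k < j
  · rw [if_pos h1]
    by_cases h2 : k ≤ i
    · rw [if_pos h2, if_pos h2, if_pos (by omega)]
    · rw [if_neg h2, if_neg h2, if_pos (by omega)]
  · rw [if_neg h1, if_neg (by omega), if_neg (by omega), if_neg (by omega)]
    congr 2
    omega

private lemma fc_double (N : ℕ) (A : ℕ → ℤ) (D T : ℕ → ℕ → ℤ)
    (h1 : ∀ i j, j < i → T i j = D (i - 1) j) (h2 : ∀ i, T i i = A i)
    (h3 : ∀ i, T i (i + 1) = A (i + 1)) (h4 : ∀ i j, i + 1 < j → T i j = D i (j - 1))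
    (h0 : ∀ i, i < N + 1 → ∑ j ∈ Finset.range (N + 2), (-1 : ℤ) ^ j * T i j = 0) :
    A 0 - A (N + 1) = ∑ l ∈ Finset.range (N + 1), (-1 : ℤ) ^ l *
      ∑ i ∈ Finset.range N, (-1 : ℤ) ^ i * D i l := by
  have key : ∀ i, i < N + 1 → ∑ j ∈ Finset.range (N + 2), (-1 : ℤ) ^ j * T i j =
      ∑ j ∈ Finset.range i, (-1 : ℤ) ^ j * D (i - 1) j + (-1 : ℤ) ^ i * (A i - A (i + 1)) -
        ∑ l ∈ Finset.Ico (i + 1) (N + 1), (-1 : ℤ) ^ l * D i l := by
    intro i hi
    have e1 : Finset.range (N + 2) = Finset.Ico 0 (N + 2) := Finset.range_eq_Ico _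
    rw [e1, ← Finset.sum_Ico_consecutive _ (Nat.zero_le i) (by omega : i ≤ N + 2),
      Finset.sum_eq_sum_Ico_succ_bot (by omega : i < N + 2),
      Finset.sum_eq_sum_Ico_succ_bot (by omega : i + 1 < N + 2), h2, h3,
      ← Finset.range_eq_Ico]
    have e2 : ∑ j ∈ Finset.range i, (-1 : ℤ) ^ j * T i j =
        ∑ j ∈ Finset.range i, (-1 : ℤ) ^ j * D (i - 1) j :=
      Finset.sum_congr rfl fun j hj => by rw [h1 i j (Finset.mem_range.1 hj)]
    have e3 : ∑ j ∈ Finset.Ico (i + 1 + 1) (N + 2), (-1 : ℤ) ^ j * T i j =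
        - ∑ l ∈ Finset.Ico (i + 1) (N + 1), (-1 : ℤ) ^ l * D i l := by
      rw [show N + 2 = N + 1 + 1 from rfl, ← Finset.sum_Ico_add' _ (i + 1) (N + 1) 1,
        ← Finset.sum_neg_distrib]
      refine Finset.sum_congr rfl fun l hl => ?_
      have hl' := Finset.mem_Ico.1 hl
      rw [h4 i (l + 1) (by omega), Nat.add_sub_cancel, pow_succ]
      ring
    rw [e2, e3, pow_succ]
    ring
  have hz : ∑ i ∈ Finset.range (N + 1), (-1 : ℤ) ^ i *
      (∑ j ∈ Finset.range i, (-1 : ℤ) ^ j * D (i - 1) j + (-1 : ℤ) ^ i * (A i - A (i + 1)) -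
        ∑ l ∈ Finset.Ico (i + 1) (N + 1), (-1 : ℤ) ^ l * D i l) = 0 := by
    refine Finset.sum_eq_zero fun i hi => ?_
    rw [← key i (Finset.mem_range.1 hi), h0 i (Finset.mem_range.1 hi), mul_zero]
  have hsq : ∀ i : ℕ, (-1 : ℤ) ^ i * (-1 : ℤ) ^ i = 1 := fun i => by
    rw [← mul_pow]
    norm_num
  simp only [mul_sub, mul_add, Finset.sum_sub_distrib, Finset.sum_add_distrib] at hz
  have t1 : ∑ i ∈ Finset.range (N + 1), ((-1 : ℤ) ^ i * ((-1 : ℤ) ^ i * A i)) -
      ∑ i ∈ Finset.range (N + 1), ((-1 : ℤ) ^ i * ((-1 : ℤ) ^ i * A (i + 1))) =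
      A 0 - A (N + 1) := by
    rw [← Finset.sum_sub_distrib]
    have : ∀ i ∈ Finset.range (N + 1), ((-1 : ℤ) ^ i * ((-1 : ℤ) ^ i * A i)) -
        ((-1 : ℤ) ^ i * ((-1 : ℤ) ^ i * A (i + 1))) = A i - A (i + 1) := by
      intro i _
      rw [← mul_assoc, ← mul_assoc, hsq, one_mul, one_mul]
    rw [Finset.sum_congr rfl this, Finset.sum_range_sub']
  have t2 : ∑ i ∈ Finset.range (N + 1), (-1 : ℤ) ^ i *
      ∑ j ∈ Finset.range i, (-1 : ℤ) ^ j * D (i - 1) j =
      - ∑ i ∈ Finset.range N, (-1 : ℤ) ^ i *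
        ∑ j ∈ Finset.range (i + 1), (-1 : ℤ) ^ j * D i j := by
    rw [Finset.sum_range_succ']
    simp only [Finset.range_zero, Finset.sum_empty, mul_zero, add_zero, Nat.add_sub_cancel]
    rw [← Finset.sum_neg_distrib]
    refine Finset.sum_congr rfl fun i _ => ?_
    rw [pow_succ]
    ring
  have t3 : ∑ i ∈ Finset.range (N + 1), (-1 : ℤ) ^ i *
      ∑ l ∈ Finset.Ico (i + 1) (N + 1), (-1 : ℤ) ^ l * D i l =
      ∑ i ∈ Finset.range N, (-1 : ℤ) ^ i *
        ∑ l ∈ Finset.Ico (i + 1) (N + 1), (-1 : ℤ) ^ l * D i l := by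
    rw [Finset.sum_range_succ]
    simp
  have t4 : ∑ i ∈ Finset.range N, (-1 : ℤ) ^ i *
        ∑ j ∈ Finset.range (i + 1), (-1 : ℤ) ^ j * D i j +
      ∑ i ∈ Finset.range N, (-1 : ℤ) ^ i *
        ∑ l ∈ Finset.Ico (i + 1) (N + 1), (-1 : ℤ) ^ l * D i l =
      ∑ l ∈ Finset.range (N + 1), (-1 : ℤ) ^ l *
        ∑ i ∈ Finset.range N, (-1 : ℤ) ^ i * D i l := by
    rw [← Finset.sum_add_distrib]
    simp only [Finset.mul_sum]
    rw [Finset.sum_comm (s := Finset.range (N + 1))]
    refine Finset.sum_congr rfl fun i hi => ?_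
    have hi' := Finset.mem_range.1 hi
    rw [Finset.range_eq_Ico, Finset.range_eq_Ico,
      Finset.sum_Ico_consecutive _ (Nat.zero_le _) (by omega : i + 1 ≤ N + 1)]
    refine Finset.sum_congr rfl fun l _ => by ring
  linarith

/-- tuples indexed by `Fin` as tuples indexed by `ℕ` -/
private def fc_ext {m : ℕ} (v : Fin (m + 1) → M) : ℕ → M :=
  fun k => v ⟨min k m, by omega⟩

private lemma fc_ext_apply {m : ℕ} (v : Fin (m + 1) → M) (k : Fin (m + 1)) :
    fc_ext v k = v k := by
  unfold fc_ext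
  congr 1
  apply Fin.ext
  simp only
  omega

private lemma fc_ext_of_lt {m : ℕ} (v : Fin (m + 1) → M) (k : ℕ) (hk : k < m + 1) :
    fc_ext v k = v ⟨k, hk⟩ := fc_ext_apply v ⟨k, hk⟩

private lemma fc_succAbove_val {m : ℕ} (l : Fin (m + 1)) (k : Fin m) :
    ((l.succAbove k : Fin (m + 1)) : ℕ) = if (k : ℕ) < l then (k : ℕ) else k + 1 := by
  by_cases h : (k : ℕ) < l
  · rw [if_pos h, Fin.succAbove_of_castSucc_lt _ _ (by exact h)]
    rfl
  · rw [if_neg h, Fin.succAbove_of_le_castSucc _ _ (by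
      rw [Fin.le_def]
      exact not_lt.1 h)]
    rfl

/-- the restriction of the prism functional -/
private def fc_D (n : ℕ) (th : (Fin (n + 2) → M) → ℤ) (f : M → M) (u : Fin (n + 1) → M) : ℤ :=
  ∑ i ∈ Finset.range (n + 1), (-1 : ℤ) ^ i *
    th (fun k : Fin (n + 2) => fc_pr f i (fc_ext u) k)

private lemma fc_prism (n : ℕ) (th : (Fin (n + 2) → M) → ℤ) (f : M → M)
    (v : Fin (n + 2) → M)
    (h : ∀ i, i < n + 2 → ∑ j : Fin (n + 3), (-1 : ℤ) ^ (j : ℕ) *
      th ((fun k : Fin (n + 3) => fc_pr f i (fc_ext v) k) ∘ Fin.succAbove j) = 0) :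
    th (f ∘ v) - th v =
      ∑ l : Fin (n + 2), (-1 : ℤ) ^ (l : ℕ) * fc_D n th f (v ∘ Fin.succAbove l) := by
  set w := fc_ext v with hw
  let th' : (ℕ → M) → ℤ := fun x => th (fun k : Fin (n + 2) => x k)
  have hsA : ∀ (x : ℕ → M) (j : Fin (n + 3)),
      (fun k : Fin (n + 3) => x k) ∘ Fin.succAbove j =
        fun k : Fin (n + 2) => fc_sA j x k := by
    intro x j
    funext k
    simp only [Function.comp_apply, fc_sA, fc_succAbove_val]
  have key := fc_double (n + 1) (fun i => th' (fc_A f i w))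
    (fun i l => th' (fc_pr f i (fc_sA l w))) (fun i j => th' (fc_sA j (fc_pr f i w)))
    (fun i j hij => by rw [fc_sA_lt f w hij]) (fun i => by rw [fc_sA_eq])
    (fun i => by rw [fc_sA_succ]) (fun i j hij => by rw [fc_sA_gt f w hij])
    (fun i hi => by
      have := h i hi
      rw [← this, Finset.sum_range]
      refine Finset.sum_congr rfl fun j _ => ?_
      rw [hsA])
  have e0 : th' (fc_A f 0 w) = th (f ∘ v) := by
    simp only [th']
    congr 1
    funext k
    simp only [fc_A, Nat.not_lt_zero, if_false, hw, fc_ext_apply, Function.comp_apply]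
  have e1 : th' (fc_A f (n + 1 + 1) w) = th v := by
    simp only [th']
    congr 1
    funext k
    have := k.2
    simp only [fc_A]
    rw [if_pos (by omega), hw, fc_ext_apply]
  simp only [e0, e1] at key
  rw [key, Finset.sum_range]
  refine Finset.sum_congr rfl fun l _ => ?_
  congr 1
  unfold fc_D
  refine Finset.sum_congr rfl fun i hi => ?_
  have hi' := Finset.mem_range.1 hi
  congr 1
  simp only [th']
  congr 1
  funext k
  have hk := k.2
  have hval : ∀ a, a < n + 1 → fc_sA l w a = fc_ext (v ∘ Fin.succAbove l) a := by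
    intro a ha
    rw [fc_ext_of_lt _ a ha, Function.comp_apply, fc_sA, hw]
    have hlt : (if a < (l : ℕ) then a else a + 1) < n + 1 + 1 := by
      split_ifs <;> omega
    rw [fc_ext_of_lt _ _ hlt]
    congr 1
    apply Fin.ext
    rw [fc_succAbove_val]
  simp only [fc_pr]
  split_ifs with hki
  · exact hval _ (by omega)
  · rw [hval _ (by omega)]

end Prism

section Alt

private lemma fc_alt {Λ : Type} (e : Λ) (S : Finset Λ) (k : ℕ) :
    ∃ κ : Finset Λ → (Fin k → Λ),
      (∀ U ∈ S.powersetCard k, Function.Injective (κ U) ∧ ∀ i, κ U i ∈ S) ∧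
      ∀ F : (Fin k → Λ) → ℝ,
        (∀ t (π : Equiv.Perm (Fin k)), F (t ∘ π) = (Equiv.Perm.sign π : ℝ) * F t) →
        (∀ t, ¬ Function.Injective t → F t = 0) → ∀ t : Fin k → Λ, (∀ i, t i ∈ S) →
        F t = ∑ U ∈ S.powersetCard k, (labDet id (κ U) t : ℝ) * F (κ U) := by
  classical
  let _ : LinearOrder Λ := linearOrderOfSTO (WellOrderingRel (α := Λ))
  refine ⟨fun U => if h : U.card = k then U.orderEmbOfFin h else fun _ => e, ?_, ?_⟩
  · intro U hU
    obtain ⟨h1, h2⟩ := Finset.mem_powersetCard.1 hU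
    simp only [dif_pos h2]
    exact ⟨(U.orderEmbOfFin h2).injective, fun i => h1 (Finset.orderEmbOfFin_mem U h2 i)⟩
  · intro F halt hinj t ht
    rw [alt_expansion S F halt hinj t ht]
    refine Finset.sum_congr rfl fun U hU => ?_
    obtain ⟨h1, h2⟩ := Finset.mem_powersetCard.1 hU
    simp only [dif_pos h2]

end Alt

section Coeff

private lemma fc_evT_sbd {M : Type} [TopologicalSpace M] {m : ℕ} (θ : (Fin (m + 1) → M) → ℤ)
    (w : SChain ℤ M (m + 1)) :
    evT θ (sbd ℤ w) = w.sum fun τ a => a * ∑ i : Fin (m + 2), (-1 : ℤ) ^ (i : ℕ) *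
      θ (verts τ ∘ Fin.succAbove i) := by
  obtain ⟨E, hE, hE1⟩ : ∃ E : SChain ℤ M m →ₗ[ℤ] ℤ, (∀ c, evT θ c = E c) ∧
      ∀ τ, E (Finsupp.single τ 1) = θ (verts τ) :=
    ⟨Finsupp.linearCombination ℤ (fun τ => θ (verts τ)), fun c => by
      simp only [Finsupp.linearCombination_apply, evT, smul_eq_mul], fun τ => by
      simp⟩
  rw [hE, sbd, Finsupp.linearCombination_apply, Finsupp.sum, map_sum, Finsupp.sum]
  refine Finset.sum_congr rfl fun τ _ => ?_
  rw [map_smul, map_sum, smul_eq_mul]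
  congr 1
  refine Finset.sum_congr rfl fun i _ => ?_
  rw [map_smul, smul_eq_mul, hE1]
  congr 2
  funext k
  simp only [verts, sface, Function.comp_apply, ContinuousMap.comp_apply]
  congr 1
  simp only [smap, vtx, ContinuousMap.coe_mk, stdSimplex.map_vertex]

private lemma fc_cycle {M : Type} [TopologicalSpace M] {m : ℕ} (z : SChain ℤ M (m + 1))
    (hz : sbd ℤ z = 0) (k : ℕ) : sbd ℤ (SdI k z) = 0 := by
  induction k with
  | zero => simpa [SdI] using hz
  | succ k ih =>
    have : SdI (k + 1) z = Sd (SdI k z) := by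
      simp only [SdI, pow_succ', Module.End.mul_apply]
    rw [this, Sd_bd, ih, map_zero]

private lemma fc_labDet_congr {V V' Λ Λ' : Type} (N : V → Λ) (N' : V' → Λ') {k : ℕ}
    (s : Fin k → Λ) (s' : Fin k → Λ') (v : Fin k → V) (v' : Fin k → V')
    (h : ∀ i j, N (v i) = s j ↔ N' (v' i) = s' j) : labDet N s v = labDet N' s' v' := by
  unfold labDet
  congr 2
  funext i j
  by_cases h1 : N (v i) = s j
  · rw [if_pos h1, if_pos ((h i j).1 h1)]
  · rw [if_neg h1, if_neg (fun h2 => h1 ((h i j).2 h2))]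

/-- the lattice points used -/
private def fc_L (n : ℕ) (L c : ℝ) : Finset (Fin (n + 1) → ℤ) :=
  Fintype.piFinset fun _ => Finset.Icc (-⌊16 * L ^ 2 / c⌋) ⌊16 * L ^ 2 / c⌋

private lemma fc_mem_L {n : ℕ} {L c : ℝ} (W : Fin (n + 1) → ℤ) :
    W ∈ fc_L n L c ↔ ‖(fun l => (W l : ℝ))‖ ≤ 16 * L ^ 2 / c ∨
      (¬ (0 ≤ 16 * L ^ 2 / c) ∧ W ∈ fc_L n L c) := by
  by_cases h0 : 0 ≤ 16 * L ^ 2 / c
  · simp only [h0, not_true_eq_false, false_and, or_false]
    rw [pi_norm_le_iff_of_nonneg h0, fc_L, Fintype.mem_piFinset]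
    refine forall_congr' fun l => ?_
    rw [Finset.mem_Icc, Real.norm_eq_abs, abs_le, Int.le_floor, neg_le, Int.le_floor]
    push_cast
    constructor
    · rintro ⟨h1, h2⟩
      exact ⟨by linarith, h2⟩
    · rintro ⟨h1, h2⟩
      exact ⟨by linarith, h2⟩
  · simp only [h0, not_false_eq_true, true_and]
    constructor
    · exact Or.inr
    · rintro (h | h)
      · exact absurd ((norm_nonneg _).trans h) h0
      · exact h

set_option maxHeartbeats 2000000 in
/-- (F7) coefficient bound -/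
theorem coeff_bound (n : ℕ) {L c : ℝ} (hL : 1 ≤ L) (hc : 0 < c) (hc1 : c ≤ 1 / 4) :
    ∃ (B : ℕ) (c' : ℝ), 0 < c' ∧ ∀ (M : Type) [MetricSpace M] [CompactSpace M] (R : ℝ),
      LB (n + 1) L R M → ∀ ε : ℝ, 0 < ε → 100 * L ^ 4 * ε ≤ R →
      ∀ (K : ℕ) (y : Fin K → M) (lab : M → Fin K), (∀ v, dist v (y (lab v)) < 2 * ε) →
      (∀ v : Fin (n + 3) → M, (∀ i j, dist (v i) (v j) ≤ c * ε) →
        ¬ Function.Injective (fun i => lab (v i))) →
      ∀ z : SChain ℤ M (n + 1), IsFundamentalCycle z → ∀ k : ℕ,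
      (∀ τ ∈ (SdI k z).support, FineS (c' * ε) τ) →
      ∀ (U : Finset (Fin K)) (hU : U.card = n + 2),
        |evT (labDet lab (U.orderEmbOfFin hU)) (SdI k z)| ≤ B := by
  classical
  have hL0 : 0 < L := by linarith
  have hn2 : (0 : ℝ) < (n : ℝ) + 2 := by positivity
  set c' : ℝ := min (c / 2) (c / (32 * L ^ 2 * (n + 2))) with hc'
  have hc'0 : 0 < c' := lt_min (by positivity) (by positivity)
  refine ⟨((fc_L n L c).powersetCard (n + 2)).card, c', hc'0, ?_⟩
  intro M _ _ R hLB ε hε hεR K y lab hlab hfew z hz k hfine U hU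
  obtain ⟨P, hP⟩ := kuhn_exists (n + 1)
  set s : Fin (n + 2) → Fin K := ⇑(U.orderEmbOfFin hU) with hs
  have hsinj : Function.Injective s := (U.orderEmbOfFin hU).injective
  set q := y (s 0) with hq
  obtain ⟨φ, hφ⟩ := hLB.2.2 q
  have hR : 0 < R := hLB.2.1
  set h : ℝ := c * ε / (4 * L) with hh
  have hh0 : 0 < h := by positivity
  set R₁ : ℝ := R / (4 * L ^ 2) with hR₁
  have hL2 : 1 ≤ L ^ 2 := one_le_pow₀ hL
  have hL3 : 1 ≤ L ^ 3 := one_le_pow₀ hL
  have hhe : h ≤ ε / 16 := by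
    rw [hh, div_le_iff₀ (by positivity)]
    nlinarith
  have hLh : L * h = c * ε / 4 := by
    rw [hh]
    field_simp
  have hR1e : 25 * L ^ 2 * ε ≤ R₁ := by
    rw [hR₁, le_div_iff₀ (by positivity)]
    nlinarith
  have hR1R : R₁ ≤ R := by
    rw [hR₁, div_le_iff₀ (by positivity)]
    nlinarith
  have hc'e1 : c' * ε ≤ c * ε / 2 := by
    have : c' ≤ c / 2 := min_le_left _ _
    nlinarith
  have hc'e2 : c' * ε ≤ h / (8 * L * (n + 2)) := by
    have h1 : c' ≤ c / (32 * L ^ 2 * (n + 2)) := min_le_right _ _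
    have h2 : h / (8 * L * (n + 2)) = c / (32 * L ^ 2 * (n + 2)) * ε := by
      rw [hh]
      field_simp
      ring
    rw [h2]
    exact mul_le_mul_of_nonneg_right h1 hε.le
  set Z := SdI k z with hZ
  set th : (Fin (n + 2) → M) → ℤ := labDet lab s with hth
  -- the projection
  set pt : (Fin (n + 1) → ℤ) → M := fun W =>
    if hW : ∃ x ∈ Metric.ball q R, φ x = h • (fun l => (W l : ℝ)) then hW.choose else q with hpt
  have hpt' : ∀ W : Fin (n + 1) → ℤ, h * ‖(fun l => (W l : ℝ))‖ < R / L →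
      pt W ∈ Metric.ball q R ∧ φ (pt W) = h • (fun l => (W l : ℝ)) := by
    intro W hW
    have hex : ∃ x ∈ Metric.ball q R, φ x = h • (fun l => (W l : ℝ)) :=
      hφ.surj _ (by rw [norm_smul, Real.norm_eq_abs, abs_of_pos hh0]; exact hW)
    simp only [hpt, dif_pos hex]
    exact hex.choose_spec
  set ph : M → M := fun v => if dist v q < R₁ then pt (P (h⁻¹ • φ v)) else v with hph
  have hphi : ∀ v, dist v q < R₁ → ‖φ v‖ ≤ L * dist v q := by
    intro v hv
    have h1 := hφ.upper v (Metric.mem_ball.2 (hv.trans_le hR1R)) q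
      (Metric.mem_ball_self hR)
    rw [hφ.zero, dist_zero_right] at h1
    exact h1
  have hPn : ∀ v, ‖h⁻¹ • φ v - (fun l => (P (h⁻¹ • φ v) l : ℝ))‖ < 1 := fun v => hP.near _
  have hPn2 : ∀ v, ‖φ v - h • (fun l => (P (h⁻¹ • φ v) l : ℝ))‖ ≤ h := by
    intro v
    have h1 : φ v - h • (fun l => (P (h⁻¹ • φ v) l : ℝ)) =
        h • (h⁻¹ • φ v - (fun l => (P (h⁻¹ • φ v) l : ℝ))) := by
      rw [smul_sub, smul_smul, mul_inv_cancel₀ hh0.ne', one_smul]
    rw [h1, norm_smul, Real.norm_eq_abs, abs_of_pos hh0]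
    have := hPn v
    nlinarith
  have hPn3 : ∀ v, h * ‖(fun l => (P (h⁻¹ • φ v) l : ℝ))‖ ≤ ‖φ v‖ + h := by
    intro v
    have h1 : h * ‖(fun l => (P (h⁻¹ • φ v) l : ℝ))‖ =
        ‖h • (fun l => (P (h⁻¹ • φ v) l : ℝ))‖ := by
      rw [norm_smul, Real.norm_eq_abs, abs_of_pos hh0]
    rw [h1]
    have h2 := norm_sub_norm_le (h • (fun l => (P (h⁻¹ • φ v) l : ℝ))) (φ v)
    rw [norm_sub_rev] at h2
    linarith [hPn2 v]
  have hRL : L * R₁ + h < R / L := by
    have h1 : L * R₁ = R / (4 * L) := by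
      rw [hR₁]
      field_simp
    rw [h1]
    have h2 : R / L - R / (4 * L) = 3 * R / (4 * L) := by
      field_simp
      ring
    have h3 : h < 3 * R / (4 * L) := by
      rw [lt_div_iff₀ (by positivity)]
      have : L ≤ L ^ 4 := by
        calc L = L ^ 1 := (pow_one L).symm
          _ ≤ L ^ 4 := pow_le_pow_right₀ hL (by norm_num)
      nlinarith [mul_pos hε hL0]
    linarith
  have hphd : ∀ v, dist v (ph v) ≤ L * h := by
    intro v
    by_cases hv : dist v q < R₁
    · simp only [hph, if_pos hv]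
      have h1 := hPn3 v
      have h2 := hphi v hv
      obtain ⟨h3, h4⟩ := hpt' (P (h⁻¹ • φ v)) (by nlinarith)
      refine (hφ.lower v (Metric.mem_ball.2 (hv.trans_le hR1R)) _ h3).trans ?_
      rw [h4, dist_eq_norm]
      exact mul_le_mul_of_nonneg_left (hPn2 v) hL0.le
    · simp only [hph, if_neg hv, dist_self]
      positivity
  -- fine tuples
  have hverts : ∀ τ ∈ Z.support, ∀ i j, dist (verts τ i) (verts τ j) ≤ c' * ε :=
    fun τ hτ i j => hfine τ hτ _ _
  -- step (1)
  have hcyc : sbd ℤ Z = 0 := fc_cycle z hz.cycle k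
  have hstep1 : evT th Z = evT (fun v => th (ph ∘ v)) Z := by
    have h1 := fc_evT_sbd (fc_D n th ph) Z
    rw [hcyc] at h1
    have h0 : evT (fc_D n th ph) (0 : SChain ℤ M n) = 0 := by simp [evT]
    rw [h0] at h1
    have h2 : (Z.sum fun τ a => a * ∑ i : Fin (n + 2), (-1 : ℤ) ^ (i : ℕ) *
        fc_D n th ph (verts τ ∘ Fin.succAbove i)) =
        evT (fun v => th (ph ∘ v)) Z - evT th Z := by
      simp only [evT, Finsupp.sum]
      rw [← Finset.sum_sub_distrib]
      refine Finset.sum_congr rfl fun τ hτ => ?_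
      rw [← fc_prism n th ph (verts τ), mul_sub]
      intro i _
      rw [hth]
      apply labDet_cocycle
      left
      apply hfew
      have hd : ∀ a b : ℕ, dist (fc_ext (verts τ) a) (fc_ext (verts τ) b) ≤ c' * ε :=
        fun a b => hverts τ hτ _ _
      have hd1 : ∀ a : ℕ, dist (fc_ext (verts τ) a) (ph (fc_ext (verts τ) a)) ≤ c * ε / 4 :=
        fun a => (hphd _).trans hLh.le
      intro a b
      simp only [fc_pr]
      have hcε : 0 < c * ε := by positivity
      split_ifs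
      · linarith [hd a b]
      · have t1 := dist_triangle (fc_ext (verts τ) a) (fc_ext (verts τ) ((b : ℕ) - 1))
          (ph (fc_ext (verts τ) ((b : ℕ) - 1)))
        linarith [hd a ((b : ℕ) - 1), hd1 ((b : ℕ) - 1)]
      · have t1 := dist_triangle (ph (fc_ext (verts τ) ((a : ℕ) - 1)))
          (fc_ext (verts τ) ((a : ℕ) - 1)) (fc_ext (verts τ) b)
        have t2 := hd1 ((a : ℕ) - 1)
        rw [dist_comm] at t2
        linarith [hd ((a : ℕ) - 1) b]
      · have t1 := dist_triangle4 (ph (fc_ext (verts τ) ((a : ℕ) - 1)))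
          (fc_ext (verts τ) ((a : ℕ) - 1)) (fc_ext (verts τ) ((b : ℕ) - 1))
          (ph (fc_ext (verts τ) ((b : ℕ) - 1)))
        have t2 := hd1 ((a : ℕ) - 1)
        rw [dist_comm] at t2
        linarith [hd ((a : ℕ) - 1) ((b : ℕ) - 1), hd1 ((b : ℕ) - 1)]
    linarith
  -- step (3)
  set pl := plab P φ q R₁ h with hpl
  set Λ := fc_L n L c with hΛ
  have hB0 : 0 ≤ 16 * L ^ 2 / c := by positivity
  have hmemL : ∀ W : Fin (n + 1) → ℤ, W ∈ Λ ↔ ‖(fun l => (W l : ℝ))‖ ≤ 16 * L ^ 2 / c := by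
    intro W
    rw [hΛ, fc_mem_L]
    simp [hB0]
  have hnear : ∀ v : Fin (n + 2) → M, (∀ i j, dist (v i) (v j) ≤ c' * ε) → th (ph ∘ v) ≠ 0 →
      ∀ l, dist (v l) q < R₁ ∧ P (h⁻¹ • φ (v l)) ∈ Λ := by
    intro v hv hne l
    obtain ⟨-, π, hπ⟩ := labDet_eq_zero lab s (ph ∘ v) hne
    have h1 := hπ (π.symm 0)
    rw [Equiv.apply_symm_apply] at h1
    have h2 := hlab ((ph ∘ v) (π.symm 0))
    rw [h1, ← hq] at h2
    have h3 : dist (v l) q ≤ 3 * ε := by
      have t1 := dist_triangle4 (v l) (v (π.symm 0)) ((ph ∘ v) (π.symm 0)) q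
      have t2 := hv l (π.symm 0)
      have t3 : dist (v (π.symm 0)) ((ph ∘ v) (π.symm 0)) ≤ c * ε / 4 :=
        (hphd _).trans hLh.le
      nlinarith
    have h4 : dist (v l) q < R₁ := by nlinarith
    refine ⟨h4, ?_⟩
    rw [hmemL, le_div_iff₀ hc]
    have h5 := hPn3 (v l)
    have h6 := hphi (v l) h4
    have h7 : h * ‖(fun l' => (P (h⁻¹ • φ (v l)) l' : ℝ))‖ ≤ 4 * L * ε := by
      nlinarith
    rw [hh] at h7
    rw [hh]
    have h8 : c * ε / (4 * L) * ‖(fun l' => (P ((c * ε / (4 * L))⁻¹ • φ (v l)) l' : ℝ))‖ =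
      (‖(fun l' => (P ((c * ε / (4 * L))⁻¹ • φ (v l)) l' : ℝ))‖ * c) * (ε / (4 * L)) := by
      ring
    rw [h8] at h7
    have h9 : 4 * L * ε = (16 * L ^ 2) * (ε / (4 * L)) := by
      field_simp
      ring
    rw [h9] at h7
    exact le_of_mul_le_mul_right h7 (by positivity)
  -- the alternating function
  obtain ⟨κ, hκ, halt⟩ := fc_alt (0 : Fin (n + 1) → ℤ) Λ (n + 2)
  set F : (Fin (n + 2) → (Fin (n + 1) → ℤ)) → ℝ := fun W =>
    (labDet (fun W => lab (pt W)) s W : ℝ) with hF
  have hFalt := halt F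
    (fun t π => by
      simp only [hF]
      rw [(labDet_perm (fun W => lab (pt W)) s t π).1]
      push_cast
      rfl)
    (fun t ht => by
      by_contra hne
      simp only [hF] at hne
      have hne' : labDet (fun W => lab (pt W)) s t ≠ 0 := by
        intro h0
        rw [h0] at hne
        simp at hne
      obtain ⟨h1, -⟩ := labDet_eq_zero _ s t hne'
      apply ht
      intro a b hab
      exact h1 (by simp only [hab]))
  have hstep4 : ∀ v : Fin (n + 2) → M, (∀ i j, dist (v i) (v j) ≤ c' * ε) →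
      (th (ph ∘ v) : ℝ) = ∑ V ∈ Λ.powersetCard (n + 2),
        (labDet pl (fun i => some (κ V i)) v : ℝ) * F (κ V) := by
    intro v hv
    by_cases hall : ∀ l, dist (v l) q < R₁ ∧ P (h⁻¹ • φ (v l)) ∈ Λ
    · have h1 := hFalt (fun l => P (h⁻¹ • φ (v l))) (fun l => (hall l).2)
      have h2 : (th (ph ∘ v) : ℝ) = F (fun l => P (h⁻¹ • φ (v l))) := by
        simp only [hF, hth]
        congr 1
        refine fc_labDet_congr _ _ _ _ _ _ fun i j => ?_
        simp only [hph, Function.comp_apply]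
        rw [if_pos (hall i).1]
      rw [h2, h1]
      refine Finset.sum_congr rfl fun V _ => ?_
      congr 2
      refine fc_labDet_congr _ _ _ _ _ _ fun i j => ?_
      simp only [hpl, plab]
      rw [if_pos (hall i).1]
      simp only [id, Option.some.injEq]
    · have h1 : th (ph ∘ v) = 0 := by
        by_contra hne
        exact hall (hnear v hv hne)
      rw [h1, Int.cast_zero, eq_comm]
      refine Finset.sum_eq_zero fun V hV => ?_
      have h2 : labDet pl (fun i => some (κ V i)) v = 0 := by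
        by_contra hne
        obtain ⟨-, π, hπ⟩ := labDet_eq_zero pl (fun i => some (κ V i)) v hne
        apply hall
        intro l
        have h3 := hπ l
        simp only [hpl, plab] at h3
        by_cases h4 : dist (v l) q < R₁
        · rw [if_pos h4, Option.some.injEq] at h3
          exact ⟨h4, h3 ▸ (hκ V hV).2 _⟩
        · rw [if_neg h4] at h3
          exact absurd h3 (by simp)
      rw [h2, Int.cast_zero, zero_mul]
  -- step (5)
  have hstep5 : ((evT th Z : ℤ) : ℝ) = ∑ V ∈ Λ.powersetCard (n + 2),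
      ((evT (labDet pl (fun i => some (κ V i))) Z : ℤ) : ℝ) * F (κ V) := by
    rw [hstep1]
    simp only [evT, Finsupp.sum]
    push_cast
    simp only [Finset.sum_mul]
    rw [Finset.sum_comm]
    refine Finset.sum_congr rfl fun τ hτ => ?_
    rw [hstep4 (verts τ) (hverts τ hτ), Finset.mul_sum]
    refine Finset.sum_congr rfl fun V _ => ?_
    ring
  have hbound : |((evT th Z : ℤ) : ℝ)| ≤ ((Λ.powersetCard (n + 2)).card : ℝ) := by
    rw [hstep5]
    refine (Finset.abs_sum_le_sum_abs _ _).trans ?_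
    have h1 : ∀ V ∈ Λ.powersetCard (n + 2),
        |((evT (labDet pl (fun i => some (κ V i))) Z : ℤ) : ℝ) * F (κ V)| ≤ 1 := by
      intro V hV
      obtain ⟨hκi, hκm⟩ := hκ V hV
      have h2 : |evT (labDet pl (fun i => some (κ V i))) Z| ≤ 1 := by
        refine local_degree P hP hL hR hh0 q φ hφ z hz (κ V) hκi ?_ k ?_
        · intro i
          have h3 := (hmemL _).1 (hκm i)
          have h4 : h * ‖(fun l => (κ V i l : ℝ))‖ ≤ 4 * L * ε := by
            calc h * ‖(fun l => (κ V i l : ℝ))‖ ≤ h * (16 * L ^ 2 / c) := by gcongr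
              _ = 4 * L * ε := by
                rw [hh]
                field_simp
                ring
          have h5 : 4 * L * ε + h < R / (8 * L ^ 3) := by
            rw [lt_div_iff₀ (by positivity)]
            have h6 : h * L ^ 3 ≤ ε / 16 * L ^ 4 := by
              have : L ^ 3 ≤ L ^ 4 := pow_le_pow_right₀ hL (by norm_num)
              calc h * L ^ 3 ≤ ε / 16 * L ^ 3 := by gcongr
                _ ≤ ε / 16 * L ^ 4 := by gcongr
            have h7 : 0 < L ^ 4 * ε := by positivity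
            nlinarith
          linarith
        · intro τ hτ
          intro p p'
          exact (hfine τ hτ p p').trans hc'e2
      have h3 : |F (κ V)| ≤ 1 := by
        have := abs_labDet_le (fun W => lab (pt W)) s hsinj (κ V)
        simp only [hF]
        exact_mod_cast this
      rw [abs_mul]
      have h2' : |((evT (labDet pl (fun i => some (κ V i))) Z : ℤ) : ℝ)| ≤ 1 := by
        exact_mod_cast h2
      calc _ ≤ (1 : ℝ) * 1 := by gcongr
        _ = 1 := mul_one 1
    refine (Finset.sum_le_sum h1).trans ?_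
    simp
  exact_mod_cast hbound

end Coeff

end SimpVol
end
end
end
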