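import Pool.Agent.Lib.MP_fa46d7_gt.Defs
import Pool.Agent.Lib.MP_fa46d7_gt.APi

section

/-!
# MP_fa46d7_gt, SV-21: the trivial case and `cob (cob f) = 0`
-/

set_option autoImplicit false

open scoped Topology ENNReal NNReal ContDiff Manifold
open MeasureTheory

noncomputable section

namespace SimpVol

theorem ab_cob_apply (X : DSet) (m : ℕ) (f : Bd (X.obj m)) (x : X.obj (m + 1)) :
    (X.cob m f).1 x = ∑ i : Fin (m + 2), (-1 : ℝ) ^ (i : ℕ) * f.1 (X.d i x) := by
  have h1 : (X.cob m f : Bd (X.obj (m + 1)))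
      = ∑ i : Fin (m + 2), (-1 : ℝ) ^ (i : ℕ) • pull (fun x => X.d i x) f := by
    simp only [DSet.cob, LinearMap.sum_apply, LinearMap.smul_apply]
  rw [h1, AddSubmonoidClass.coe_finsetSum, Finset.sum_apply]
  rfl

theorem ab_del_trans {m : ℕ} (j : Fin (m + 2)) (i : Fin (m + 3)) (h : (i : ℕ) ≤ (j : ℕ)) :
    (del j).trans (del i) = (del (Fin.castLT i (lt_of_le_of_lt h j.2))).trans (del j.succ) := by
  ext k
  simp only [RelEmbedding.coe_trans, Function.comp_apply, Fin.succAboveOrderEmb_apply,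
    Fin.succAbove, Fin.lt_def, Fin.val_castSucc, Fin.val_castLT, Fin.val_succ]
  split_ifs <;>
    simp only [Fin.val_castSucc, Fin.val_succ, Fin.lt_def, Fin.val_castLT] at * <;> omega

theorem cob_cob (X : DSet) (m : ℕ) (f : Bd (X.obj m)) : X.cob (m + 1) (X.cob m f) = 0 := by
  apply Subtype.ext
  funext x
  rw [ab_cob_apply]
  show _ = (0 : ℝ)
  simp only [ab_cob_apply, Finset.mul_sum]
  rw [Finset.sum_comm]
  simp only [← Finset.sum_product']
  let P := Fin (m + 2) × Fin (m + 3)
  let S : Finset P := {ij : P | (ij.2 : ℕ) ≤ (ij.1 : ℕ)}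
  rw [Finset.univ_product_univ, ← Finset.sum_add_sum_compl S, ← eq_neg_iff_add_eq_zero,
    ← Finset.sum_neg_distrib]
  let φ : ∀ ij : P, ij ∈ S → P := fun ij hij =>
    (Fin.castLT ij.2 (lt_of_le_of_lt (Finset.mem_filter.mp hij).right (Fin.is_lt ij.1)), ij.1.succ)
  apply Finset.sum_bij φ
  · intro ij hij
    simp only [S, φ, Finset.mem_univ, Finset.compl_filter, Finset.mem_filter, true_and,
      Fin.val_succ, Fin.val_castLT] at hij ⊢
    omega
  · rintro ⟨i, j⟩ hij ⟨i', j'⟩ hij' h
    rw [Prod.mk_inj]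
    exact ⟨by simpa [φ] using congr_arg Prod.snd h,
      by simpa [φ, Fin.castSucc_castLT] using congr_arg Fin.castSucc (congr_arg Prod.fst h)⟩
  · rintro ⟨i', j'⟩ hij'
    simp only [S, Finset.mem_univ, forall_true_left, Prod.forall, Finset.compl_filter,
      not_le, Finset.mem_filter, true_and] at hij'
    refine ⟨(j'.pred <| ?_, Fin.castSucc i'), ?_, ?_⟩
    · rintro rfl
      simp only [Fin.val_zero, not_lt_zero] at hij'
    · simpa [S] using Nat.le_sub_one_of_lt hij'
    · simp only [φ, Fin.castLT_castSucc, Fin.succ_pred]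
  · rintro ⟨i, j⟩ hij
    have hji : (j : ℕ) ≤ (i : ℕ) := by simpa [S] using hij
    have e : X.d i (X.d j x) = X.d (Fin.castLT j (lt_of_le_of_lt hji i.2)) (X.d i.succ x) := by
      unfold DSet.d
      rw [X.face_comp, X.face_comp, ab_del_trans i j hji]
    show (-1 : ℝ) ^ (j : ℕ) * ((-1 : ℝ) ^ (i : ℕ) * f.1 (X.d i (X.d j x))) =
      -((-1 : ℝ) ^ (i.succ : ℕ) * ((-1 : ℝ) ^ ((Fin.castLT j (lt_of_le_of_lt hji i.2) : Fin (m+2)) : ℕ)
        * f.1 (X.d (Fin.castLT j (lt_of_le_of_lt hji i.2)) (X.d i.succ x))))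
    rw [← e, Fin.val_succ, Fin.val_castLT, pow_succ]
    ring

theorem ab_sum (n : ℕ) (hn : Even n) (a : ℝ) :
    ∑ i : Fin (n + 1), (-1 : ℝ) ^ (i : ℕ) * a = a := by
  rw [← Finset.sum_mul, Fin.sum_univ_eq_sum_range (fun i => (-1 : ℝ) ^ i), neg_one_geom_sum,
    if_neg (by rw [Nat.even_add_one]; simpa using hn), one_mul]

/-- evaluation at the base simplex as a constant function -/
def ab_K (X : DSet) (m : ℕ) : Bd (X.obj (m + 1)) →ₗ[ℝ] Bd (X.obj m) where
  toFun f := ⟨fun _ => f.1 (X.base (m + 1)), |f.1 (X.base (m + 1))|, fun _ => le_rfl⟩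
  map_add' _ _ := rfl
  map_smul' _ _ := rfl

open Classical in
/-- (A6) -/
theorem contr_of_triv (X : DSet) (N : ℕ) (ht : X.TrivBelow (N + 2)) :
    Nonempty (Contr X N 1) := by
  refine ⟨⟨fun m => if Even m then 0 else ab_K X m, ?_, ?_, ?_⟩⟩
  · intro m hm f B hB x
    have hB0 : 0 ≤ B := le_trans (abs_nonneg _) (hB (X.base (m + 1)))
    rw [one_mul]
    by_cases he : Even m
    · rw [if_pos he]
      show |(0 : ℝ)| ≤ B
      rw [abs_zero]; exact hB0
    · rw [if_neg he]
      exact hB _
  · intro f x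
    rw [if_pos (by decide : Even 0), ht 0 (by omega) x]
    show (0 : ℝ) = _
    ring
  · intro m hm f
    apply Subtype.ext
    funext x
    have hx : x = X.base (m + 1) := ht (m + 1) (by omega) x
    by_cases he : Even m
    · have he' : ¬ Even (m + 1) := by rw [Nat.even_add_one]; simpa using he
      rw [if_pos he, if_neg he', LinearMap.zero_apply, map_zero, zero_add]
      show (X.cob (m + 1) f).1 (X.base (m + 1 + 1)) = f.1 x
      rw [ab_cob_apply, hx]
      have e : ∀ i : Fin (m + 1 + 2), X.d i (X.base (m + 1 + 1)) = X.base (m + 1) :=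
        fun i => X.face_base _
      simp only [e]
      exact ab_sum (m + 2) (by simpa [Nat.even_add] using he) _
    · have he' : Even (m + 1) := by rw [Nat.even_add_one]; exact he
      rw [if_neg he, if_pos he', LinearMap.zero_apply, add_zero]
      rw [ab_cob_apply, hx]
      exact ab_sum (m + 1) he' _

end SimpVol
end
end

section

/-!
# MP_fa46d7_gt: degenerate lifts
-/

set_option autoImplicit false

open scoped Topology ENNReal NNReal ContDiff Manifold
open MeasureTheory

noncomputable section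

namespace SimpVol

/-- The composition of a lift with the map of simplices induced by any map of the vertices. -/
def b3_comp {M : Type} [TopologicalSpace M] {y : M} {j m : ℕ} (f : Fin (j + 1) → Fin (m + 1))
    (L : (liftSet y).obj m) : (liftSet y).obj j :=
  ⟨fun p => L.1 (smap f p), by
    obtain ⟨L, h, hL⟩ := L
    exact ⟨h.comp (smap f).continuous, fun p q γ => hL _ _ (γ.map (smap f).continuous)⟩⟩

theorem b3_predAbove_val {n : ℕ} (i : Fin (n + 1)) (u : Fin (n + 2)) :
    ((Fin.predAbove i u : Fin (n + 1)) : ℕ) = if (i : ℕ) < (u : ℕ) then (u : ℕ) - 1 else (u : ℕ) := by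
  unfold Fin.predAbove
  simp only [Fin.lt_def, Fin.val_castSucc]
  split_ifs
  · simp
  · simp

theorem b3_succAbove_val {n : ℕ} (l : Fin (n + 1)) (w : Fin n) :
    ((Fin.succAbove l w : Fin (n + 1)) : ℕ) = if (w : ℕ) < (l : ℕ) then (w : ℕ) else (w : ℕ) + 1 := by
  unfold Fin.succAbove
  simp only [Fin.lt_def, Fin.val_castSucc]
  split_ifs
  · simp
  · simp

theorem b3_d {M : Type} [TopologicalSpace M] {y : M} {j m : ℕ} (l : Fin (j + 2))
    (f : Fin (j + 2) → Fin (m + 1)) (L : (liftSet y).obj m) :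
    (liftSet y).d l (b3_comp f L) = b3_comp (fun w => f (Fin.succAbove l w)) L := by
  apply Subtype.ext
  funext p
  exact congrArg L.1 (stdSimplex.map_comp_apply _ _ p)

theorem b3_comp_id {M : Type} [TopologicalSpace M] {y : M} {m : ℕ} (L : (liftSet y).obj m)
    (f : Fin (m + 1) → Fin (m + 1)) (hf : ∀ w, f w = w) : b3_comp f L = L := by
  obtain rfl : f = id := funext hf
  apply Subtype.ext
  funext p
  exact congrArg L.1 (stdSimplex.map_id_apply p)

theorem b3_missing {M : Type} [TopologicalSpace M] {y : M} {j m : ℕ} (F : (liftSet y).obj (j + 1))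
    (hF : (liftSet y).BdBase F) (f : Fin (m + 1) → Fin (j + 2)) (v : Fin (j + 2))
    (hv : ∀ w, f w ≠ v) : b3_comp f F = (liftSet y).base m := by
  have h1 : ∀ w, ∃ z, v.succAbove z = f w := fun w => Fin.exists_succAbove_eq (hv w)
  choose g hg using h1
  have h2 := hF j (del v) (by omega)
  apply Subtype.ext
  funext p
  have h3 : f = (del v) ∘ g := funext fun w => (hg w).symm
  have h4 : smap f p = smap (del v) (smap g p) := by
    rw [h3]
    exact (stdSimplex.map_comp_apply _ _ p).symm
  show F.1 (smap f p) = _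
  rw [h4]
  have h5 := congrArg (fun L : (liftSet y).obj j => L.1 (smap g p)) h2
  exact h5

/-- (B3) degenerate lifts -/
theorem liftSet_K3 {M : Type} [TopologicalSpace M] (y : M) (j : ℕ) (hj : 1 ≤ j) :
    (liftSet y).K3 j := by
  obtain ⟨k, rfl⟩ : ∃ k, j = k + 1 := ⟨j - 1, by omega⟩
  intro F hF i
  refine ⟨b3_comp (Fin.predAbove i) F, ?_, ?_, ?_⟩
  · rw [b3_d]
    refine b3_comp_id F _ fun w => ?_
    apply Fin.ext
    rw [b3_predAbove_val, b3_succAbove_val, Fin.val_castSucc]
    split_ifs <;> omega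
  · rw [b3_d]
    refine b3_comp_id F _ fun w => ?_
    apply Fin.ext
    rw [b3_predAbove_val, b3_succAbove_val, Fin.val_succ]
    split_ifs <;> omega
  · intro l hl hl'
    have e1 : (l : ℕ) ≠ i := fun he => hl (Fin.ext (by rw [he, Fin.val_castSucc]))
    have e2 : (l : ℕ) ≠ i + 1 := fun he => hl' (Fin.ext (by rw [he, Fin.val_succ]))
    rw [b3_d]
    refine b3_missing F hF _ (Fin.predAbove i l) fun w => ?_
    intro he
    have h1 := congrArg Fin.val he
    rw [b3_predAbove_val, b3_predAbove_val, b3_succAbove_val] at h1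
    split_ifs at h1 <;> omega

end SimpVol
end
end

section

/-!
# MP_fa46d7_gt, SV-37: labels (E4)
-/

set_option autoImplicit false

open scoped Topology ENNReal NNReal ContDiff Manifold
open MeasureTheory

noncomputable section

namespace SimpVol

private theorem el_least {M : Type} [MetricSpace M] {K : ℕ} {ε : ℝ}
    (y : Fin K → M) (ρ : Fin K → ℝ) (hcov : ∀ v, ∃ i, dist v (y i) < ε)
    (hρ : ∀ i, ε ≤ ρ i ∧ ρ i < 2 * ε) (v : M) :
    ∃ i : Fin K, dist v (y i) < ρ i ∧ ∀ j : Fin K, j < i → ρ j ≤ dist v (y j) := by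
  classical
  obtain ⟨i0, h0⟩ := hcov v
  have hne : (Finset.univ.filter (fun i : Fin K => dist v (y i) < ρ i)).Nonempty :=
    ⟨i0, by rw [Finset.mem_filter]; exact ⟨Finset.mem_univ _, lt_of_lt_of_le h0 (hρ i0).1⟩⟩
  have hm := Finset.min'_mem _ hne
  refine ⟨Finset.min' _ hne, (Finset.mem_filter.1 hm).2, fun j hj => ?_⟩
  by_contra hcon
  rw [not_le] at hcon
  have := Finset.min'_le (Finset.univ.filter (fun i : Fin K => dist v (y i) < ρ i)) j
    (by rw [Finset.mem_filter]; exact ⟨Finset.mem_univ _, hcon⟩)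
  exact absurd hj (not_lt.2 this)

/-- (E4) labels -/
theorem labels_of_radii {M : Type} [MetricSpace M] {n K : ℕ} {c ε : ℝ} (hε : 0 < ε)
    (y : Fin K → M) (ρ : Fin K → ℝ) (hcov : ∀ v, ∃ i, dist v (y i) < ε)
    (hρ : ∀ i, ε ≤ ρ i ∧ ρ i < 2 * ε)
    (hgen : ∀ (v : M) (S : Finset (Fin K)), S.card = n + 1 →
      ∃ i ∈ S, c * ε < |dist v (y i) - ρ i|) :
    ∃ lab : M → Fin K, (∀ v, dist v (y (lab v)) < 2 * ε) ∧
      ∀ v : Fin (n + 2) → M, (∀ i j, dist (v i) (v j) ≤ c * ε) →
        ¬ Function.Injective (fun i => lab (v i)) := by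
  classical
  choose lab h1 h2 using el_least y ρ hcov hρ
  refine ⟨lab, fun v => lt_trans (h1 v) (hρ _).2, fun v hv hinj => ?_⟩
  set S0 := Finset.univ.image (fun i => lab (v i)) with hS0
  have hc0 : S0.card = n + 2 := by
    rw [hS0, Finset.card_image_of_injective _ hinj, Finset.card_univ, Fintype.card_fin]
  have hne : S0.Nonempty := by
    rw [← Finset.card_pos]
    omega
  have hmem := Finset.max'_mem S0 hne
  have hmem' : S0.max' hne ∈ Finset.univ.image (fun i => lab (v i)) := hmem
  rw [Finset.mem_image] at hmem'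
  obtain ⟨top, -, htop⟩ := hmem'
  have hcard : (S0.erase (S0.max' hne)).card = n + 1 := by
    rw [Finset.card_erase_of_mem hmem, hc0]
    rfl
  obtain ⟨i, hiS, hi⟩ := hgen (v 0) _ hcard
  rw [Finset.mem_erase] at hiS
  obtain ⟨hi1, hi2⟩ := hiS
  have hilt : i < lab (v top) := by
    refine lt_of_le_of_ne ?_ ?_
    · rw [htop]
      exact Finset.le_max' S0 i hi2
    · rw [htop]
      exact hi1
  have h3 := h2 (v top) i hilt
  rw [hS0, Finset.mem_image] at hi2
  obtain ⟨a, -, ha⟩ := hi2
  have h4 := h1 (v a)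
  rw [ha] at h4
  have h5 := dist_triangle (v 0) (v a) (y i)
  have h6 := dist_triangle (v top) (v 0) (y i)
  have h7 := hv 0 a
  have h8 := hv top 0
  have h9 : |dist (v 0) (y i) - ρ i| ≤ c * ε := by
    rw [abs_le]
    constructor <;> linarith
  linarith

end SimpVol
end
end

section

/-!
# MP_fa46d7_gt, SV-35: Hausdorff measure of balls (E2)
-/

set_option autoImplicit false

open scoped Topology ENNReal NNReal ContDiff Manifold
open MeasureTheory

noncomputable section

namespace SimpVol

private theorem ev_haus (n : ℕ) :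
    (Measure.hausdorffMeasure (n : ℝ) : Measure (Fin n → ℝ)) = volume := by
  have h := MeasureTheory.hausdorffMeasure_pi_real (ι := Fin n)
  rwa [Fintype.card_fin] at h

private theorem ev_real {n : ℕ} {L s : ℝ} (hL : 1 ≤ L) :
    ENNReal.ofReal ((2 * (s / L)) ^ n) =
      (L.toNNReal : ℝ≥0∞) ^ (n : ℝ) * ENNReal.ofReal ((2 * s / L ^ 2) ^ n) := by
  have hL0 : (0 : ℝ) < L := by linarith
  have e1 : (L.toNNReal : ℝ≥0∞) = ENNReal.ofReal L := rfl
  rw [e1, ENNReal.rpow_natCast, ← ENNReal.ofReal_pow hL0.le,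
    ← ENNReal.ofReal_mul (by positivity)]
  congr 1
  rw [← mul_pow]
  congr 1
  field_simp

section PartE

variable {M : Type} [MetricSpace M]

/-- (E2) -/
theorem ball_vol_lower [MeasurableSpace M] [BorelSpace M] {n : ℕ} {L R : ℝ} (h : LB n L R M)
    {s : ℝ} (hs0 : 0 < s) (hs : s ≤ R) (q : M) :
    ENNReal.ofReal ((2 * s / L ^ 2) ^ n) ≤ Measure.hausdorffMeasure (n : ℝ) (Metric.ball q s) := by
  obtain ⟨hL, hR, hch⟩ := h
  obtain ⟨φ, hφ⟩ := hch q
  have hL0 : (0 : ℝ) < L := by linarith
  have hq : q ∈ Metric.ball q R := Metric.mem_ball_self hR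
  have hlip : LipschitzOnWith L.toNNReal φ (Metric.ball q s) := by
    apply LipschitzOnWith.of_dist_le_mul
    intro x hx y hy
    rw [Real.coe_toNNReal L hL0.le]
    exact hφ.upper x (Metric.ball_subset_ball hs hx) y (Metric.ball_subset_ball hs hy)
  have hsub : Metric.ball (0 : Fin n → ℝ) (s / L) ⊆ φ '' Metric.ball q s := by
    intro v hv
    rw [mem_ball_zero_iff] at hv
    have h1 : ‖v‖ < R / L := lt_of_lt_of_le hv (by gcongr)
    obtain ⟨x, hx, hxv⟩ := hφ.surj v h1
    refine ⟨x, ?_, hxv⟩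
    have h2 := hφ.lower x hx q hq
    rw [hφ.zero, hxv, dist_zero_right] at h2
    rw [Metric.mem_ball]
    calc dist x q ≤ L * ‖v‖ := h2
      _ < L * (s / L) := by gcongr
      _ = s := by field_simp
  have h1 := hlip.hausdorffMeasure_image_le (d := (n : ℝ)) (Nat.cast_nonneg n)
  have h2 : ENNReal.ofReal ((2 * (s / L)) ^ n) ≤
      Measure.hausdorffMeasure (n : ℝ) (φ '' Metric.ball q s) := by
    refine le_trans (le_of_eq ?_) (measure_mono hsub)
    rw [ev_haus, Real.volume_pi_ball 0 (by positivity), Fintype.card_fin]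
  have h3 := le_trans h2 h1
  rw [ev_real hL] at h3
  have e1 : (L.toNNReal : ℝ≥0∞) = ENNReal.ofReal L := rfl
  refine (ENNReal.mul_le_mul_iff_right ?_ ?_).1 h3
  · rw [e1, ENNReal.rpow_natCast]
    exact pow_ne_zero _ (by simpa using hL0)
  · rw [e1, ENNReal.rpow_natCast]
    exact ENNReal.pow_ne_top ENNReal.ofReal_ne_top

private theorem ev_ball_fin [MeasurableSpace M] [BorelSpace M] {n : ℕ} {L R : ℝ}
    (h : LB n L R M) (q : M) :
    Measure.hausdorffMeasure (n : ℝ) (Metric.ball q (R / L ^ 2)) < ⊤ := by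
  classical
  obtain ⟨hL, hR, hch⟩ := h
  obtain ⟨φ, hφ⟩ := hch q
  have hL0 : (0 : ℝ) < L := by linarith
  have hq : q ∈ Metric.ball q R := Metric.mem_ball_self hR
  have hex : ∀ v : Fin n → ℝ, ∃ x : M, (‖v‖ < R / L → x ∈ Metric.ball q R ∧ φ x = v) := by
    intro v
    by_cases hv : ‖v‖ < R / L
    · obtain ⟨x, hx, hxv⟩ := hφ.surj v hv
      exact ⟨x, fun _ => ⟨hx, hxv⟩⟩
    · exact ⟨q, fun h => absurd h hv⟩
  choose ψ hψ using hex
  have hlip : LipschitzOnWith L.toNNReal ψ (Metric.ball 0 (R / L)) := by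
    apply LipschitzOnWith.of_dist_le_mul
    intro u hu v hv
    rw [mem_ball_zero_iff] at hu hv
    rw [Real.coe_toNNReal L hL0.le]
    have h1 := hφ.lower (ψ u) (hψ u hu).1 (ψ v) (hψ v hv).1
    rwa [(hψ u hu).2, (hψ v hv).2] at h1
  have hsub : Metric.ball q (R / L ^ 2) ⊆ ψ '' Metric.ball 0 (R / L) := by
    intro x hx
    have hxR : x ∈ Metric.ball q R := by
      refine Metric.ball_subset_ball ?_ hx
      rw [div_le_iff₀ (by positivity)]
      have : 1 ≤ L ^ 2 := by nlinarith
      nlinarith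
    have hn : ‖φ x‖ < R / L := by
      have h1 := hφ.upper x hxR q hq
      rw [hφ.zero, dist_zero_right] at h1
      rw [Metric.mem_ball] at hx
      calc ‖φ x‖ ≤ L * dist x q := h1
        _ < L * (R / L ^ 2) := by gcongr
        _ = R / L := by field_simp
    refine ⟨φ x, by rwa [mem_ball_zero_iff], ?_⟩
    have h2 := hφ.lower (ψ (φ x)) (hψ (φ x) hn).1 x hxR
    rw [(hψ (φ x) hn).2, dist_self, mul_zero] at h2
    exact dist_le_zero.1 h2
  have h1 := hlip.hausdorffMeasure_image_le (d := (n : ℝ)) (Nat.cast_nonneg n)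
  refine lt_of_le_of_lt (le_trans (measure_mono hsub) h1) ?_
  rw [ev_haus, Real.volume_pi_ball 0 (by positivity)]
  have e1 : (L.toNNReal : ℝ≥0∞) = ENNReal.ofReal L := rfl
  rw [e1, ENNReal.rpow_natCast]
  exact ENNReal.mul_lt_top (ENNReal.pow_lt_top ENNReal.ofReal_lt_top) ENNReal.ofReal_lt_top

theorem hausdorff_finite [CompactSpace M] [MeasurableSpace M] [BorelSpace M] {n : ℕ} {L R : ℝ}
    (h : LB n L R M) : Measure.hausdorffMeasure (n : ℝ) (Set.univ : Set M) < ⊤ := by
  have hL : 1 ≤ L := h.1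
  have hR : 0 < R := h.2.1
  refine isCompact_univ.measure_lt_top_of_nhdsWithin (fun q _ => ?_)
  rw [nhdsWithin_univ]
  exact ⟨Metric.ball q (R / L ^ 2), Metric.ball_mem_nhds q (by positivity), ev_ball_fin h q⟩

end PartE

end SimpVol
end
end

section

/-! # Hausdorff measure of the Euclidean unit cube -/

set_option autoImplicit false

open scoped Topology ENNReal NNReal ContDiff Manifold
open MeasureTheory

noncomputable section

namespace SimpVol

theorem cube_hausdorff (n : ℕ) :
    0 < Measure.hausdorffMeasure (X := EuclideanSpace ℝ (Fin n)) (n : ℝ)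
      {v | ∀ i, v i ∈ Set.Icc (0 : ℝ) 1} ∧
    Measure.hausdorffMeasure (X := EuclideanSpace ℝ (Fin n)) (n : ℝ)
      {v | ∀ i, v i ∈ Set.Icc (0 : ℝ) 1} < ⊤ := by
  set E : Set (EuclideanSpace ℝ (Fin n)) := {v | ∀ i, v i ∈ Set.Icc (0 : ℝ) 1} with hE
  set P : Set (Fin n → ℝ) := Set.pi Set.univ (fun _ => Set.Icc (0 : ℝ) 1) with hP
  have hPv : Measure.hausdorffMeasure (n : ℝ) P = 1 := by
    have h1 := hausdorffMeasure_pi_real (ι := Fin n)
    rw [Fintype.card_fin] at h1
    rw [h1, hP, volume_pi_pi]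
    simp
  have h1 : (WithLp.ofLp '' E : Set (Fin n → ℝ)) = P := by
    ext v
    constructor
    · rintro ⟨w, hw, rfl⟩ i _
      exact hw i
    · intro hv
      exact ⟨WithLp.toLp 2 v, fun i => hv i (Set.mem_univ i), rfl⟩
  have h2 : (WithLp.toLp 2 '' P : Set (EuclideanSpace ℝ (Fin n))) = E := by
    ext v
    constructor
    · rintro ⟨w, hw, rfl⟩ i
      exact hw i (Set.mem_univ i)
    · intro hv
      exact ⟨WithLp.ofLp v, fun i _ => hv i, rfl⟩
  have hn : (0 : ℝ) ≤ n := Nat.cast_nonneg n
  constructor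
  · have h3 := (PiLp.lipschitzWith_ofLp 2 (fun _ : Fin n => ℝ)).hausdorffMeasure_image_le hn E
    rw [h1, hPv] at h3
    simp only [ENNReal.coe_one, ENNReal.one_rpow, one_mul] at h3
    exact lt_of_lt_of_le one_pos h3
  · have h3 := (PiLp.lipschitzWith_toLp 2 (fun _ : Fin n => ℝ)).hausdorffMeasure_image_le hn P
    rw [h2, hPv, mul_one] at h3
    refine lt_of_le_of_lt h3 ?_
    exact ENNReal.rpow_lt_top_of_nonneg hn ENNReal.coe_ne_top

end SimpVol
end
end

section

/-! # MP_fa46d7_gt, job SV-49: uniform local charts. -/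

set_option autoImplicit false

open scoped Topology ENNReal NNReal ContDiff Manifold
open MeasureTheory

noncomputable section

namespace SimpVol

/-- (G1b) -/
theorem LB_of_charts {n : ℕ} {M : Type} [MetricSpace M] [CompactSpace M] [Nonempty M] {L : ℝ}
    (hL : 1 ≤ L)
    (h : ∀ p : M, ∃ (U : Set M) (φ : M → (Fin n → ℝ)), IsOpen U ∧ p ∈ U ∧
      (∀ x ∈ U, ∀ y ∈ U, dist x y ≤ L * dist (φ x) (φ y) ∧ dist (φ x) (φ y) ≤ L * dist x y) ∧
      ∀ V ⊆ U, IsOpen V → IsOpen (φ '' V)) :
    ∃ R, LB n L R M := by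
  choose U φ hUo hpU hbl hopen using h
  obtain ⟨δ, hδ, hleb⟩ := lebesgue_number_lemma_of_metric (s := (Set.univ : Set M))
    isCompact_univ (fun p => hUo p) (fun x _ => Set.mem_iUnion.2 ⟨x, hpU x⟩)
  have hL0 : 0 < L := by linarith
  refine ⟨δ / 2, hL, by positivity, fun q => ?_⟩
  obtain ⟨p, hp⟩ := hleb q (Set.mem_univ q)
  have hcb : Metric.closedBall q (δ / 2) ⊆ U p := fun x hx => hp (by
    have := Metric.mem_closedBall.1 hx
    exact Metric.mem_ball.2 (by linarith))
  have hbb : Metric.ball q (δ / 2) ⊆ U p := Metric.ball_subset_closedBall.trans hcb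
  have hq : q ∈ U p := hp (Metric.mem_ball_self hδ)
  have hd : ∀ x y, dist (φ p x - φ p q) (φ p y - φ p q) = dist (φ p x) (φ p y) := by
    intro x y
    rw [dist_eq_norm, dist_eq_norm]
    congr 1
    abel
  refine ⟨fun x => φ p x - φ p q, sub_self _, ?_, ?_, ?_⟩
  · intro x hx y hy
    rw [hd]
    exact (hbl p x (hbb hx) y (hbb hy)).1
  · intro x hx y hy
    rw [hd]
    exact (hbl p x (hbb hx) y (hbb hy)).2
  · intro v hv
    have hcont : ContinuousOn (fun x => φ p x - φ p q) (Metric.closedBall q (δ / 2)) := by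
      have h1 : LipschitzOnWith (Real.toNNReal L) (fun x => φ p x - φ p q)
          (Metric.closedBall q (δ / 2)) := by
        refine LipschitzOnWith.of_dist_le_mul fun x hx y hy => ?_
        rw [hd, Real.coe_toNNReal _ hL0.le]
        exact (hbl p x (hcb hx) y (hcb hy)).2
      exact h1.continuousOn
    have hcomp : IsCompact ((fun x => φ p x - φ p q) '' Metric.closedBall q (δ / 2)) :=
      ((Metric.isClosed_closedBall).isCompact).image_of_continuousOn hcont
    have hSo : IsOpen ((fun x => φ p x - φ p q) '' Metric.ball q (δ / 2)) := by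
      have h1 := hopen p (Metric.ball q (δ / 2)) hbb Metric.isOpen_ball
      have h2 : (fun x => φ p x - φ p q) '' Metric.ball q (δ / 2) =
          (fun w => w - φ p q) '' (φ p '' Metric.ball q (δ / 2)) := by
        rw [Set.image_image]
      rw [h2]
      exact (Homeomorph.subRight (φ p q)).isOpenMap _ h1
    have hsub : Metric.ball (0 : Fin n → ℝ) (δ / 2 / L) ⊆
        (fun x => φ p x - φ p q) '' Metric.ball q (δ / 2) := by
      have hconn : IsPreconnected (Metric.ball (0 : Fin n → ℝ) (δ / 2 / L)) :=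
        (convex_ball _ _).isPreconnected
      refine hconn.subset_of_closure_inter_subset hSo ?_ ?_
      · refine ⟨0, Metric.mem_ball_self (by positivity), q, Metric.mem_ball_self (by positivity), ?_⟩
        exact sub_self _
      · rintro w ⟨hw1, hw2⟩
        have hw3 : w ∈ (fun x => φ p x - φ p q) '' Metric.closedBall q (δ / 2) :=
          closure_minimal (Set.image_mono Metric.ball_subset_closedBall) hcomp.isClosed hw1
        obtain ⟨x, hx, rfl⟩ := hw3
        refine ⟨x, ?_, rfl⟩
        have h1 := (hbl p x (hcb hx) q hq).1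
        have h2 : dist (φ p x) (φ p q) < δ / 2 / L := by
          rw [dist_eq_norm]
          simpa [Metric.mem_ball, dist_eq_norm] using hw2
        rw [lt_div_iff₀ hL0] at h2
        rw [Metric.mem_ball]
        calc dist x q ≤ L * dist (φ p x) (φ p q) := h1
          _ = dist (φ p x) (φ p q) * L := mul_comm _ _
          _ < δ / 2 := h2
    obtain ⟨x, hx, hxv⟩ := hsub (by simpa [Metric.mem_ball, dist_eq_norm] using hv)
    exact ⟨x, hx, hxv⟩

end SimpVol
end
end

section

/-! # MP_fa46d7_gt: short classes from the systole (SV-51) -/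

set_option autoImplicit false

open scoped Topology ENNReal NNReal ContDiff Manifold
open MeasureTheory

noncomputable section

namespace SimpVol

theorem gs_symm {M : Type} [MetricSpace M] {x y : M} (γ : Path x y) :
    pathLen γ.symm ≤ pathLen γ := by
  unfold pathLen
  have h : (γ.symm : unitInterval → M) = (γ : unitInterval → M) ∘ unitInterval.symm := rfl
  rw [h]
  refine eVariationOn.comp_le_of_antitoneOn _ _ ?_ (fun _ _ => Set.mem_univ _)
  intro a _ b _ hab
  exact unitInterval.symm_le_symm.2 hab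

theorem gs_trans {M : Type} [MetricSpace M] {x y z : M} (γ : Path x y) (γ' : Path y z) :
    pathLen (γ.trans γ') ≤ pathLen γ + pathLen γ' := by
  unfold pathLen
  let hf : unitInterval := ⟨1 / 2, by norm_num, by norm_num⟩
  have h0 : (Set.univ : Set unitInterval) ∩ Set.Icc 0 1 = Set.univ := by
    rw [Set.univ_inter]
    ext t
    exact ⟨fun _ => Set.mem_univ _, fun _ => ⟨t.2.1, t.2.2⟩⟩
  have h1 := eVariationOn.Icc_add_Icc ((γ.trans γ' : Path x z) : unitInterval → M)
    (s := Set.univ) (a := 0) (b := hf) (c := 1) (by exact hf.2.1) (by exact hf.2.2)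
    (Set.mem_univ _)
  rw [h0] at h1
  rw [← h1, Set.univ_inter, Set.univ_inter]
  refine add_le_add ?_ ?_
  · let φ : unitInterval → unitInterval := fun t => Set.projIcc (0 : ℝ) 1 zero_le_one (2 * t)
    have he : Set.EqOn ((γ.trans γ' : Path x z) : unitInterval → M) (γ ∘ φ) (Set.Icc 0 hf) := by
      intro t ht
      have ht' : (t : ℝ) ≤ 1 / 2 := ht.2
      rw [Path.trans_apply, dif_pos ht']
      show γ _ = γ (Set.projIcc (0 : ℝ) 1 zero_le_one (2 * t))
      rw [Set.projIcc_of_mem]
    rw [eVariationOn.congr he]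
    refine eVariationOn.comp_le_of_monotoneOn _ _ ?_ (fun _ _ => Set.mem_univ _)
    intro a _ b _ hab
    apply Set.monotone_projIcc
    have : (a : ℝ) ≤ b := hab
    linarith
  · let φ : unitInterval → unitInterval := fun t => Set.projIcc (0 : ℝ) 1 zero_le_one (2 * t - 1)
    have he : Set.EqOn ((γ.trans γ' : Path x z) : unitInterval → M) (γ' ∘ φ)
        (Set.Icc hf 1) := by
      intro t ht
      have ht' : 1 / 2 ≤ (t : ℝ) := ht.1
      show (γ.trans γ') t = γ' (Set.projIcc (0 : ℝ) 1 zero_le_one (2 * t - 1))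
      by_cases h : (t : ℝ) ≤ 1 / 2
      · have h2 : (t : ℝ) = 1 / 2 := le_antisymm h ht'
        rw [Path.trans_apply, dif_pos h]
        have e1 : (⟨2 * (t : ℝ), (unitInterval.mul_pos_mem_iff zero_lt_two).2 ⟨t.2.1, h⟩⟩ :
            unitInterval) = 1 := by
          apply Subtype.ext
          show 2 * (t : ℝ) = 1
          rw [h2]; norm_num
        rw [e1, γ.target, Set.projIcc_of_le_left zero_le_one (by rw [h2]; norm_num)]
        exact γ'.source.symm
      · rw [Path.trans_apply, dif_neg h, Set.projIcc_of_mem]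
    rw [eVariationOn.congr he]
    refine eVariationOn.comp_le_of_monotoneOn _ _ ?_ (fun _ _ => Set.mem_univ _)
    intro a _ b _ hab
    apply Set.monotone_projIcc
    have : (a : ℝ) ≤ b := hab
    linarith

theorem gs_refl {M : Type} [MetricSpace M] (x : M) : pathLen (Path.refl x) = 0 := by
  unfold pathLen
  apply eVariationOn.constant_on
  rintro _ ⟨a, _, rfl⟩ _ ⟨b, _, rfl⟩
  rfl

theorem gs_unique {M : Type} [MetricSpace M] {r : ℝ} (hr : 0 < r)
    (hsys : ENNReal.ofReal (2 * r) ≤ systole M) {x y : M} (γ γ' : Path x y)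
    (h : pathLen γ < ENNReal.ofReal r) (h' : pathLen γ' < ENNReal.ofReal r) :
    Path.Homotopic.Quotient.mk γ = Path.Homotopic.Quotient.mk γ' := by
  have hlen : pathLen (γ.trans γ'.symm) < systole M := by
    calc pathLen (γ.trans γ'.symm) ≤ pathLen γ + pathLen γ'.symm := gs_trans _ _
      _ ≤ pathLen γ + pathLen γ' := add_le_add le_rfl (gs_symm _)
      _ < ENNReal.ofReal r + ENNReal.ofReal r := ENNReal.add_lt_add h h'
      _ = ENNReal.ofReal (2 * r) := by rw [← ENNReal.ofReal_add hr.le hr.le]; ring_nf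
      _ ≤ systole M := hsys
  have hh : (γ.trans γ'.symm).Homotopic (Path.refl x) := by
    by_contra hcon
    have h1 : systole M ≤ pathLen (γ.trans γ'.symm) := by
      unfold systole
      exact (iInf_le _ x).trans ((iInf_le _ (γ.trans γ'.symm)).trans (iInf_le _ hcon))
    exact absurd hlen (not_lt.2 h1)
  have h2 := Path.Homotopic.Quotient.eq.2 hh
  rw [Path.Homotopic.Quotient.mk_trans, Path.Homotopic.Quotient.mk_symm,
    Path.Homotopic.Quotient.mk_refl] at h2
  have h3 := congrArg (fun q => q.trans (Path.Homotopic.Quotient.mk γ')) h2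
  simpa using h3

/-- (G3) short classes -/
theorem short_exists {M : Type} [MetricSpace M]
    (hlen : ∀ (x y : M) (s : ℝ), dist x y < s → ∃ γ : Path x y, pathLen γ < ENNReal.ofReal s)
    {r : ℝ} (hr : 0 < r) (hsys : ENNReal.ofReal (2 * r) ≤ systole M) :
    ∃ s : ∀ x y : M, Hm x y, IsShort r s ∧ ∀ (x y : M) (γ : Path x y),
      pathLen γ < ENNReal.ofReal r → s x y = Path.Homotopic.Quotient.mk γ := by
  classical
  let s : ∀ x y : M, Hm x y := fun x y =>
    if h : ∃ γ : Path x y, pathLen γ < ENNReal.ofReal r then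
      Path.Homotopic.Quotient.mk h.choose
    else Path.Homotopic.Quotient.mk (hlen x y (dist x y + 1) (by linarith)).choose
  have hs : ∀ (x y : M) (γ : Path x y),
      pathLen γ < ENNReal.ofReal r → s x y = Path.Homotopic.Quotient.mk γ := by
    intro x y γ hγ
    have h : ∃ γ : Path x y, pathLen γ < ENNReal.ofReal r := ⟨γ, hγ⟩
    simp only [s]
    rw [dif_pos h]
    exact gs_unique hr hsys _ _ h.choose_spec hγ
  refine ⟨s, ⟨?_, ?_, ?_⟩, hs⟩
  · intro x
    rw [hs x x (Path.refl x) (by rw [gs_refl]; exact ENNReal.ofReal_pos.2 hr)]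
    rfl
  · intro x y hxy
    obtain ⟨γ, hγ⟩ := hlen x y r hxy
    rw [hs x y γ hγ, hs y x γ.symm ((gs_symm γ).trans_lt hγ)]
    rfl
  · intro x y z hxyz
    obtain ⟨e, he, hee⟩ : ∃ e : ℝ, 0 < e ∧ dist x y + dist y z + 2 * e = r :=
      ⟨(r - (dist x y + dist y z)) / 2, by linarith, by ring⟩
    obtain ⟨γ, hγ⟩ := hlen x y (dist x y + e) (by linarith)
    obtain ⟨γ', hγ'⟩ := hlen y z (dist y z + e) (by linarith)
    have hr1 : pathLen γ < ENNReal.ofReal r :=
      hγ.trans_le (ENNReal.ofReal_le_ofReal (by have := dist_nonneg (x := y) (y := z); linarith))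
    have hr2 : pathLen γ' < ENNReal.ofReal r :=
      hγ'.trans_le (ENNReal.ofReal_le_ofReal (by have := dist_nonneg (x := x) (y := y); linarith))
    have hr3 : pathLen (γ.trans γ') < ENNReal.ofReal r := by
      calc pathLen (γ.trans γ') ≤ pathLen γ + pathLen γ' := gs_trans _ _
        _ < ENNReal.ofReal (dist x y + e) + ENNReal.ofReal (dist y z + e) :=
            ENNReal.add_lt_add hγ hγ'
        _ = ENNReal.ofReal r := by
            rw [← ENNReal.ofReal_add (by positivity) (by positivity)]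
            congr 1
            linarith
    rw [hs x y γ hr1, hs y z γ' hr2, hs x z _ hr3]
    rfl

end SimpVol
end
end

section

/-!
# MP_fa46d7_gt, SV-52: small paths are short
-/

set_option autoImplicit false

open scoped Topology ENNReal NNReal ContDiff Manifold
open MeasureTheory

noncomputable section

namespace SimpVol

/-- two paths in a small ball of a bilipschitz chart are homotopic -/
theorem gm_homotopic {M : Type} [MetricSpace M] {n : ℕ} {L R : ℝ} (hL : 1 ≤ L) (hR : 0 < R)
    {x y : M} {φ : M → (Fin n → ℝ)} (hφ : IsBChart n L R x φ) (γ g : Path x y)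
    (hγ : ∀ t, dist x (γ t) < R / L ^ 2) (hg : ∀ t, dist x (g t) < R / L ^ 2) :
    Path.Homotopic γ g := by
  have hL0 : 0 < L := by linarith
  have hLR : 0 < R / L := div_pos hR hL0
  choose ψ hψ1 hψ2 using fun v : {v : Fin n → ℝ // ‖v‖ < R / L} => hφ.surj v.1 v.2
  have hψc : Continuous ψ := by
    have h : LipschitzWith (Real.toNNReal L) ψ := by
      refine LipschitzWith.of_dist_le_mul fun v w => ?_
      have h1 := hφ.lower (ψ v) (hψ1 v) (ψ w) (hψ1 w)
      rw [hψ2, hψ2] at h1
      rw [Real.coe_toNNReal L hL0.le]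
      exact h1
    exact h.continuous
  have hball : ∀ p, dist x p < R / L ^ 2 → p ∈ Metric.ball x R := by
    intro p hp
    rw [Metric.mem_ball, dist_comm]
    refine lt_of_lt_of_le hp ?_
    rw [div_le_iff₀ (by positivity)]
    nlinarith [mul_pos hR hL0, mul_le_mul_of_nonneg_left hL hR.le]
  have hnorm : ∀ p, dist x p < R / L ^ 2 → ‖φ p‖ < R / L := by
    intro p hp
    have h1 := hφ.upper p (hball p hp) x (Metric.mem_ball_self hR)
    rw [hφ.zero, dist_zero_right] at h1
    refine lt_of_le_of_lt h1 ?_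
    rw [dist_comm] at hp
    have h2 := mul_lt_mul_of_pos_left hp hL0
    have h3 : L * (R / L ^ 2) = R / L := by field_simp
    rw [h3] at h2
    exact h2
  have hinv : ∀ (p : M) (hp : ‖φ p‖ < R / L), p ∈ Metric.ball x R → ψ ⟨φ p, hp⟩ = p := by
    intro p hp hb
    have h1 := hφ.lower (ψ ⟨φ p, hp⟩) (hψ1 _) p hb
    rw [hψ2, dist_self, mul_zero] at h1
    exact dist_le_zero.1 h1
  have hinv' : ∀ (v : Fin n → ℝ) (hv : ‖v‖ < R / L) (p : M), p ∈ Metric.ball x R → v = φ p →
      ψ ⟨v, hv⟩ = p := by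
    intro v hv p hb hvp
    subst hvp
    exact hinv p hv hb
  have hφc : ContinuousOn φ (Metric.ball x R) := by
    have h : LipschitzOnWith (Real.toNNReal L) φ (Metric.ball x R) := by
      refine LipschitzOnWith.of_dist_le_mul fun v hv w hw => ?_
      rw [Real.coe_toNNReal L hL0.le]
      exact hφ.upper v hv w hw
    exact h.continuousOn
  have hcont : ∀ c : Path x y, (∀ t, dist x (c t) < R / L ^ 2) →
      Continuous (fun t => φ (c t)) := fun c hc =>
    hφc.comp_continuous c.continuous fun t => hball _ (hc t)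
  have hγc := hcont γ hγ
  have hgc := hcont g hg
  have hmem : ∀ st : unitInterval × unitInterval,
      ‖(1 - (st.1 : ℝ)) • φ (γ st.2) + (st.1 : ℝ) • φ (g st.2)‖ < R / L := by
    intro st
    have h := convex_ball (0 : Fin n → ℝ) (R / L)
    have h1 : φ (γ st.2) ∈ Metric.ball (0 : Fin n → ℝ) (R / L) := by
      rw [mem_ball_zero_iff]; exact hnorm _ (hγ _)
    have h2 : φ (g st.2) ∈ Metric.ball (0 : Fin n → ℝ) (R / L) := by
      rw [mem_ball_zero_iff]; exact hnorm _ (hg _)
    have h3 := h h1 h2 (a := 1 - (st.1 : ℝ)) (b := (st.1 : ℝ))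
      (by linarith [st.1.2.2]) st.1.2.1 (by ring)
    rwa [mem_ball_zero_iff] at h3
  have hF : Continuous (fun st : unitInterval × unitInterval =>
      ψ ⟨(1 - (st.1 : ℝ)) • φ (γ st.2) + (st.1 : ℝ) • φ (g st.2), hmem st⟩) := by
    refine hψc.comp (Continuous.subtype_mk ?_ _)
    have c1 : Continuous (fun st : unitInterval × unitInterval => φ (γ st.2)) :=
      hγc.comp continuous_snd
    have c2 : Continuous (fun st : unitInterval × unitInterval => φ (g st.2)) :=
      hgc.comp continuous_snd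
    have c3 : Continuous (fun st : unitInterval × unitInterval => (st.1 : ℝ)) :=
      continuous_subtype_val.comp continuous_fst
    exact ((continuous_const.sub c3).smul c1).add (c3.smul c2)
  refine ⟨⟨⟨⟨fun st => ψ ⟨(1 - (st.1 : ℝ)) • φ (γ st.2) + (st.1 : ℝ) • φ (g st.2), hmem st⟩, hF⟩,
    ?_, ?_⟩, ?_⟩⟩
  · intro t
    refine hinv' _ _ (γ t) (hball _ (hγ t)) ?_
    show (1 - ((0 : unitInterval) : ℝ)) • φ (γ t) + ((0 : unitInterval) : ℝ) • φ (g t) = φ (γ t)
    simp
  · intro t
    refine hinv' _ _ (g t) (hball _ (hg t)) ?_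
    show (1 - ((1 : unitInterval) : ℝ)) • φ (γ t) + ((1 : unitInterval) : ℝ) • φ (g t) = φ (g t)
    simp
  · intro s t ht
    refine hinv' _ _ (γ t) (hball _ (hγ t)) ?_
    show (1 - (s : ℝ)) • φ (γ t) + (s : ℝ) • φ (g t) = φ (γ t)
    have hgt : g t = γ t := by
      rcases ht with rfl | ht
      · rw [g.source, γ.source]
      · rw [Set.mem_singleton_iff] at ht
        subst ht
        rw [g.target, γ.target]
    rw [hgt, ← add_smul, sub_add_cancel, one_smul]

/-- (G4) small paths -/
theorem small_paths {M : Type} [MetricSpace M] {n : ℕ} {L R r : ℝ} (hLB : LB n L R M)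
    (hlen : ∀ (x y : M) (s : ℝ), dist x y < s → ∃ γ : Path x y, pathLen γ < ENNReal.ofReal s)
    (hr : 0 < r) (s : ∀ x y : M, Hm x y)
    (hs : ∀ (x y : M) (γ : Path x y), pathLen γ < ENNReal.ofReal r →
      s x y = Path.Homotopic.Quotient.mk γ) :
    ∃ η : ℝ, 0 < η ∧ ∀ (x y : M) (γ : Path x y), (∀ t, dist x (γ t) < η) →
      Path.Homotopic.Quotient.mk γ = s x y := by
  obtain ⟨hL, hR, hch⟩ := hLB
  have hL0 : 0 < L := by linarith
  have hRL : 0 < R / L ^ 2 := by positivity
  refine ⟨min (R / L ^ 2 / 2) (r / 2), lt_min (by positivity) (by positivity), ?_⟩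
  intro x y γ hγ
  obtain ⟨η, hη⟩ : ∃ η, η = min (R / L ^ 2 / 2) (r / 2) := ⟨_, rfl⟩
  rw [← hη] at hγ
  have hη1 : η ≤ R / L ^ 2 / 2 := by rw [hη]; exact min_le_left _ _
  have hη2 : η ≤ r / 2 := by rw [hη]; exact min_le_right _ _
  have hη0 : 0 < η := by rw [hη]; exact lt_min (by positivity) (by positivity)
  have hxy : dist x y < η := by
    have := hγ 1
    rwa [γ.target] at this
  obtain ⟨g, hg⟩ := hlen x y (2 * η) (by linarith)
  have hgr : pathLen g < ENNReal.ofReal r :=
    lt_of_lt_of_le hg (ENNReal.ofReal_le_ofReal (by linarith))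
  rw [hs x y g hgr]
  obtain ⟨φ, hφ⟩ := hch x
  have hgd : ∀ t, dist x (g t) < 2 * η := by
    intro t
    have h1 : edist (g 0) (g t) ≤ pathLen g :=
      eVariationOn.edist_le _ (Set.mem_univ _) (Set.mem_univ _)
    rw [g.source] at h1
    have h2 := lt_of_le_of_lt h1 hg
    rw [edist_dist] at h2
    exact (ENNReal.ofReal_lt_ofReal_iff (by linarith)).1 h2
  have hhom := gm_homotopic hL hR hφ γ g (fun t => by linarith [hγ t])
    (fun t => by linarith [hgd t])
  exact Path.Homotopic.Quotient.eq.2 hhom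

end SimpVol
end
end

section

/-!
# Z1: duality
-/

set_option autoImplicit false

open scoped Topology ENNReal NNReal ContDiff Manifold
open MeasureTheory

noncomputable section

namespace SimpVol

section ZDual

variable {M : Type} [TopologicalSpace M] {n : ℕ}

theorem zd_l1_eq {c : SChain ℝ M n} {s : Finset (Sing M n)} (hs : c.support ⊆ s) :
    l1 c = ∑ σ ∈ s, |c σ| :=
  Finsupp.sum_of_support_subset c hs (fun _ a => |a|) (fun _ _ => abs_zero)

theorem zd_l1_nonneg (c : SChain ℝ M n) : 0 ≤ l1 c :=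
  Finset.sum_nonneg fun _ _ => abs_nonneg _

theorem zd_l1_add (x y : SChain ℝ M n) : l1 (x + y) ≤ l1 x + l1 y := by
  classical
  rw [zd_l1_eq (c := x + y) (s := x.support ∪ y.support) Finsupp.support_add,
    zd_l1_eq (c := x) (s := x.support ∪ y.support) Finset.subset_union_left,
    zd_l1_eq (c := y) (s := x.support ∪ y.support) Finset.subset_union_right,
    ← Finset.sum_add_distrib]
  exact Finset.sum_le_sum fun σ _ => abs_add_le _ _

theorem zd_l1_smul (a : ℝ) (x : SChain ℝ M n) : l1 (a • x) = |a| * l1 x := by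
  rw [zd_l1_eq (c := a • x) (s := x.support) Finsupp.support_smul,
    zd_l1_eq (c := x) (s := x.support) (Finset.Subset.refl _), Finset.mul_sum]
  refine Finset.sum_congr rfl fun σ _ => ?_
  rw [Finsupp.smul_apply, smul_eq_mul, abs_mul]

theorem zd_l1_zero : l1 (0 : SChain ℝ M n) = 0 := by
  simp [l1]

theorem zd_l1_single (σ : Sing M n) (a : ℝ) : l1 (Finsupp.single σ a : SChain ℝ M n) = |a| := by
  unfold l1
  rw [Finsupp.sum_single_index abs_zero]

/-- the seminorm -/
def zd_N (x : SChain ℝ M n) : ℝ := ⨅ w : SChain ℝ M (n + 1), l1 (x + sbd ℝ w)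

theorem zd_N_le (x : SChain ℝ M n) (w : SChain ℝ M (n + 1)) : zd_N x ≤ l1 (x + sbd ℝ w) :=
  ciInf_le ⟨0, by rintro _ ⟨w, rfl⟩; exact zd_l1_nonneg _⟩ w

theorem zd_N_nonneg (x : SChain ℝ M n) : 0 ≤ zd_N x := le_ciInf fun _ => zd_l1_nonneg _

theorem zd_N_add (x y : SChain ℝ M n) : zd_N (x + y) ≤ zd_N x + zd_N y := by
  refine le_ciInf_add_ciInf fun w1 w2 => ?_
  refine (zd_N_le (x + y) (w1 + w2)).trans ?_
  have : x + y + sbd ℝ (w1 + w2) = (x + sbd ℝ w1) + (y + sbd ℝ w2) := by
    rw [map_add]; abel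
  rw [this]
  exact zd_l1_add _ _

theorem zd_N_smul_le (c : ℝ) (hc : 0 < c) (x : SChain ℝ M n) : zd_N (c • x) ≤ c * zd_N x := by
  unfold zd_N
  rw [Real.mul_iInf_of_nonneg hc.le]
  refine le_ciInf fun w => ?_
  refine (zd_N_le (c • x) (c • w)).trans (le_of_eq ?_)
  rw [map_smul, ← smul_add, zd_l1_smul, abs_of_pos hc]

theorem zd_N_smul (c : ℝ) (hc : 0 < c) (x : SChain ℝ M n) : zd_N (c • x) = c * zd_N x := by
  refine le_antisymm (zd_N_smul_le c hc x) ?_
  have h := zd_N_smul_le c⁻¹ (inv_pos.2 hc) (c • x)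
  rw [smul_smul, inv_mul_cancel₀ hc.ne', one_smul] at h
  calc c * zd_N x ≤ c * (c⁻¹ * zd_N (c • x)) := mul_le_mul_of_nonneg_left h hc.le
    _ = zd_N (c • x) := by rw [← mul_assoc, mul_inv_cancel₀ hc.ne', one_mul]

theorem zd_N_zero : zd_N (0 : SChain ℝ M n) = 0 := by
  refine le_antisymm ?_ (zd_N_nonneg _)
  have := zd_N_le (0 : SChain ℝ M n) 0
  rw [map_zero, add_zero, zd_l1_zero] at this
  exact this

end ZDual

/-- (Z1) duality -/
theorem duality {M : Type} [TopologicalSpace M] {n : ℕ} (z : SChain ℤ M n) (B : ℝ)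
    (h : ∀ c : Bd (Sing M n), (∀ τ, |c.1 τ| ≤ 1) →
      (∀ ρ : Sing M (n + 1), ∑ i : Fin (n + 2), (-1 : ℝ) ^ (i : ℕ) * c.1 (sface i ρ) = 0) →
      |z.sum (fun τ a => (a : ℝ) * c.1 τ)| ≤ B) :
    simplicialNorm z ≤ B := by
  set zR : SChain ℝ M n := realChain z with hzR
  have H : ∀ c : ℝ, c • zR = 0 → (RingHom.id ℝ) c • zd_N zR = 0 := by
    intro c hc
    rcases smul_eq_zero.1 hc with h0 | h0
    · rw [h0]; simp
    · rw [h0, zd_N_zero, smul_zero]
  obtain ⟨g, hg1, hg2⟩ := exists_extension_of_le_sublinear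
    (LinearPMap.mkSpanSingleton' (σ := RingHom.id ℝ) zR (zd_N zR) H) zd_N zd_N_smul zd_N_add (by
      rintro ⟨x, hx⟩
      obtain ⟨a, rfl⟩ := Submodule.mem_span_singleton.1 hx
      rw [LinearPMap.mkSpanSingleton'_apply]
      show a * zd_N zR ≤ zd_N (a • zR)
      rcases lt_trichotomy a 0 with ha | ha | ha
      · exact (mul_nonpos_of_nonpos_of_nonneg ha.le (zd_N_nonneg _)).trans (zd_N_nonneg _)
      · rw [ha, zero_mul]; exact zd_N_nonneg _
      · rw [zd_N_smul a ha])
  have hgz : g zR = zd_N zR := by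
    have hmem : zR ∈ (LinearPMap.mkSpanSingleton' (σ := RingHom.id ℝ) zR (zd_N zR) H).domain :=
      Submodule.mem_span_singleton_self zR
    have := hg1 ⟨zR, hmem⟩
    rw [LinearPMap.mkSpanSingleton'_apply_self] at this
    exact this
  have hc1 : ∀ τ : Sing M n, |g (Finsupp.single τ 1)| ≤ 1 := by
    intro τ
    have h1 : ∀ a : ℝ, g (Finsupp.single τ a) ≤ |a| := by
      intro a
      refine (hg2 _).trans ((zd_N_le _ 0).trans (le_of_eq ?_))
      rw [map_zero, add_zero, zd_l1_single]
    rw [abs_le]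
    constructor
    · have h2 := h1 (-1)
      rw [Finsupp.single_neg, map_neg, abs_neg, abs_one] at h2
      linarith
    · have h2 := h1 1
      rwa [abs_one] at h2
  have hb : ∀ w : SChain ℝ M (n + 1), g (sbd ℝ w) = 0 := by
    have h1 : ∀ w : SChain ℝ M (n + 1), g (sbd ℝ w) ≤ 0 := by
      intro w
      refine (hg2 _).trans ((zd_N_le _ (-w)).trans (le_of_eq ?_))
      rw [map_neg, add_neg_cancel, zd_l1_zero]
    intro w
    refine le_antisymm (h1 w) ?_
    have h2 := h1 (-w)
    rw [map_neg, map_neg] at h2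
    linarith
  have hcoc : ∀ ρ : Sing M (n + 1),
      ∑ i : Fin (n + 2), (-1 : ℝ) ^ (i : ℕ) * g (Finsupp.single (sface i ρ) 1) = 0 := by
    intro ρ
    have h1 := hb (Finsupp.single ρ 1)
    unfold sbd at h1
    rw [Finsupp.linearCombination_single, one_smul, map_sum] at h1
    rw [← h1]
    refine Finset.sum_congr rfl fun i _ => ?_
    rw [map_smul, smul_eq_mul]
  have hsum : g zR = z.sum (fun τ a => (a : ℝ) * g (Finsupp.single τ 1)) := by
    have h1 : g zR = zR.sum (fun τ a => a * g (Finsupp.single τ 1)) := by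
      conv_lhs => rw [← Finsupp.sum_single zR]
      rw [map_finsuppSum]
      refine Finsupp.sum_congr fun τ _ => ?_
      have : (Finsupp.single τ (zR τ) : Sing M n →₀ ℝ) = zR τ • Finsupp.single τ (1 : ℝ) := by
        rw [Finsupp.smul_single, smul_eq_mul, mul_one]
      rw [this, map_smul, smul_eq_mul]
    rw [h1, hzR]
    unfold realChain
    rw [Finsupp.sum_mapRange_index (fun τ => by rw [zero_mul])]
  have hfin := h ⟨fun τ => g (Finsupp.single τ 1), 1, hc1⟩ hc1 hcoc
  calc simplicialNorm z = zd_N zR := rfl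
    _ = g zR := hgz.symm
    _ = z.sum (fun τ a => (a : ℝ) * g (Finsupp.single τ 1)) := hsum
    _ ≤ |z.sum (fun τ a => (a : ℝ) * g (Finsupp.single τ 1))| := le_abs_self _
    _ ≤ B := hfin

end SimpVol

end
end

section

/-!
# MP_fa46d7_gt: Eilenberg subcomplexes
-/

set_option autoImplicit false

open scoped Topology ENNReal NNReal ContDiff Manifold
open MeasureTheory

noncomputable section

namespace SimpVol

theorem ae_triv (X : DSet) (k : ℕ) (ht : X.TrivBelow k) : (Eil X k).TrivBelow (k + 1) := by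
  intro j hj x
  rcases Nat.lt_succ_iff_lt_or_eq.1 hj with h | h
  · exact Subtype.ext (ht j h x.1)
  · subst h
    apply Subtype.ext
    have := x.2 (OrderIso.refl (Fin (j + 1))).toOrderEmbedding
    rwa [X.face_id] at this

theorem ae_kan (X : DSet) (k : ℕ) (hX : X.IsKan) (ht : X.TrivBelow k) : (Eil X k).IsKan := by
  intro m i x hx
  by_cases hk : k < m
  · obtain ⟨τ, hτ⟩ := hX m i (fun l => (x l).1) (fun l l' hl hl' p θ θ' h =>
      congrArg Subtype.val (hx l l' hl hl' p θ θ' h))
    refine ⟨⟨τ, fun θ => ?_⟩, fun l hl => Subtype.ext (hτ l hl)⟩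
    obtain ⟨l, η, hl, rfl⟩ := face_factor_ne hk θ i
    rw [← X.face_comp]
    have h1 : X.face (del l) τ = (x l).1 := hτ l hl
    rw [h1]
    exact (x l).2 η
  · have htr := ae_triv X k ht
    refine ⟨(Eil X k).base (m + 1), fun l _ => ?_⟩
    rw [htr m (by omega) (x l)]
    exact (Eil X k).face_base _

/-- The inclusion. -/
def ae_emb (X : DSet) (k : ℕ) : EilEmb (Eil X k) X k where
  map x := x.1
  map_face _ _ := rfl
  map_base _ := rfl
  inj _ _ h := Subtype.ext h
  range x := ⟨fun ⟨y, hy⟩ => hy ▸ y.2, fun h => ⟨⟨x, h⟩, rfl⟩⟩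

theorem ae_K3 (X : DSet) (k j : ℕ) (hj : k + 1 ≤ j) (h3 : X.K3 j) : (Eil X k).K3 j := by
  intro F hF i
  obtain ⟨τ, h1, h2, h4⟩ := h3 F.1 (fun p θ hp => congrArg Subtype.val (hF p θ hp)) i
  refine ⟨⟨τ, fun θ => ?_⟩, Subtype.ext h1, Subtype.ext h2, fun l hl hl' =>
    Subtype.ext (h4 l hl hl')⟩
  obtain ⟨l, η, rfl⟩ := face_factor (p := k) (m := j) (by omega) θ
  rw [← X.face_comp]
  by_cases hl : l = i.castSucc
  · have h5 : X.face (del l) τ = F.1 := by rw [hl]; exact h1
    rw [h5]
    exact F.2 η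
  by_cases hl' : l = i.succ
  · have h5 : X.face (del l) τ = F.1 := by rw [hl']; exact h2
    rw [h5]
    exact F.2 η
  have h5 : X.face (del l) τ = X.base j := h4 l hl hl'
  rw [h5]
  exact X.face_base η

/-- (A3) -/
theorem eil_props (X : DSet) (k : ℕ) (hX : X.IsKan) (ht : X.TrivBelow k) :
    (Eil X k).IsKan ∧ (Eil X k).TrivBelow (k + 1) ∧ Nonempty (EilEmb (Eil X k) X k) ∧
      ∀ j, k + 1 ≤ j → X.K3 j → (Eil X k).K3 j :=
  ⟨ae_kan X k hX ht, ae_triv X k ht, ⟨ae_emb X k⟩, fun j hj h3 => ae_K3 X k j hj h3⟩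

end SimpVol
end
end

section

/-!
# MP_fa46d7_gt: the null set (SV-17)
-/

set_option autoImplicit false

open scoped Topology ENNReal NNReal ContDiff Manifold
open MeasureTheory

noncomputable section

namespace SimpVol

private theorem an_scd_zero {π : Type} [AddCommGroup π] {j m : ℕ} :
    scd (0 : SC π j m) = 0 := by
  funext θ
  simp [scd]

private theorem an_u_apply {X : DSet} {k : ℕ} (P : PiData X k) {m : ℕ} (x : X.obj m)
    (θ : Fin (k + 1) ↪o Fin (m + 1)) : P.u x θ = P.q (X.face θ x) := rfl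

private theorem an_q_eq_zero {X : DSet} {k : ℕ} (P : PiData X k) {x : X.obj k} (h : P.u x = 0) :
    P.q x = 0 := by
  have h1 := congrFun h (OrderIso.refl (Fin (k + 1))).toOrderEmbedding
  rw [an_u_apply, X.face_id] at h1
  exact h1

/-- (A4b) -/
theorem nullSet_emb (X : DSet) (k : ℕ) (ht : X.TrivBelow (k + 1)) (P : PiData X (k + 1)) :
    Nonempty (EilEmb (nullSet P) (killSet P) k) := by
  refine ⟨{ map := fun {m} x => ⟨(x.1, 0), by rw [an_scd_zero]; exact x.2.symm⟩
            map_face := ?_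
            map_base := ?_
            inj := ?_
            range := ?_ }⟩
  · intro j m θ x
    rfl
  · intro m
    rfl
  · intro m x y h
    apply Subtype.ext
    exact congrArg (fun p : (killSet P).obj m => p.1.1) h
  · intro m x
    constructor
    · rintro ⟨y, rfl⟩ θ
      apply Subtype.ext
      apply Prod.ext
      · exact ht k (Nat.lt_succ_self k) _
      · rfl
    · intro h
      obtain ⟨⟨x, a⟩, hx⟩ := x
      have ha : a = 0 := by
        funext θ
        have h1 := congrArg (fun p : (killSet P).obj k => p.1.2) (h θ)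
        exact congrFun h1 (OrderIso.refl (Fin (k + 1))).toOrderEmbedding
      subst ha
      refine ⟨⟨x, ?_⟩, rfl⟩
      have h2 : scd (0 : SC P.π k m) = P.u x := hx
      rw [← h2, an_scd_zero]

/-- (A4c) -/
theorem nullSet_props (X : DSet) (k : ℕ) (hX : X.IsKan) (ht : X.TrivBelow k)
    (P : PiData X k) :
    (nullSet P).IsKan ∧ (nullSet P).TrivBelow k ∧ (nullSet P).Fill k ∧
      Nonempty (EilEmb (Eil X k) (nullSet P) k) := by
  refine ⟨?_, ?_, ?_, ?_⟩
  · -- the Kan condition
    intro m i x hx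
    rcases lt_or_ge m k with hmk | hmk
    · -- everything is base
      have hb : P.u (X.base (m + 1)) = 0 := by
        funext θ
        rw [an_u_apply, X.face_base, P.q_base]
        rfl
      refine ⟨⟨X.base (m + 1), hb⟩, fun l _ => ?_⟩
      apply Subtype.ext
      rw [ht m hmk (x l).1]
      exact X.face_base _
    obtain ⟨τ, hτ⟩ := hX m i (fun l => (x l).1) (fun l l' hl hl' p θ θ' hθ =>
      congrArg Subtype.val (hx l l' hl hl' p θ θ' hθ))
    have hu : P.u τ = 0 := by
      rcases eq_or_lt_of_le hmk with rfl | hmk'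
      · -- `k = m`
        have hne : ∀ l, l ≠ i → P.q (X.d l τ) = 0 := by
          intro l hl
          rw [hτ l hl]
          exact an_q_eq_zero P (x l).2
        have hi : P.q (X.d i τ) = 0 := by
          have h1 := (P.rel (fun l => X.d l τ)).1 ⟨τ, fun l => rfl⟩
          rw [Finset.sum_eq_single i (fun l _ hl => by rw [hne l hl, smul_zero])
            (fun h => absurd (Finset.mem_univ i) h)] at h1
          rcases neg_one_pow_eq_or ℤ (i : ℕ) with h2 | h2
          · rwa [h2, one_smul] at h1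
          · rwa [h2, neg_smul, one_smul, neg_eq_zero] at h1
        have hall : ∀ l, P.q (X.d l τ) = 0 := by
          intro l
          rcases eq_or_ne l i with rfl | hl
          · exact hi
          · exact hne l hl
        funext θ
        obtain ⟨l, η, rfl⟩ := face_factor (Nat.lt_succ_self _) θ
        rw [an_u_apply, ← X.face_comp]
        have hη : η = (OrderIso.refl _).toOrderEmbedding := by
          ext a
          have h5 := Fin.coe_orderIso_apply (RelIso.ofSurjective η
            (Finite.injective_iff_surjective.1 η.injective)) a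
          exact h5
        rw [hη, X.face_id]
        exact hall l
      · funext θ
        obtain ⟨l, η, hl, rfl⟩ := face_factor_ne hmk' θ i
        rw [an_u_apply, ← X.face_comp]
        have h1 : X.face (del l) τ = (x l).1 := hτ l hl
        rw [h1]
        exact congrFun (x l).2 η
    exact ⟨⟨τ, hu⟩, fun l hl => Subtype.ext (hτ l hl)⟩
  · intro j hj x
    apply Subtype.ext
    exact ht j hj x.1
  · intro F i
    have hF : P.q F.1 = 0 := an_q_eq_zero P F.2
    obtain ⟨τ, hτ⟩ := (P.rel (fun l => if l = i then F.1 else X.base k)).2 (by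
      rw [Finset.sum_eq_single i (fun l _ hl => by rw [if_neg hl, P.q_base, smul_zero])
        (fun h => absurd (Finset.mem_univ i) h), if_pos rfl, hF, smul_zero])
    have hu : P.u τ = 0 := by
      funext θ
      obtain ⟨l, η, rfl⟩ := face_factor (Nat.lt_succ_self k) θ
      rw [an_u_apply, ← X.face_comp]
      have h1 : X.face (del l) τ = if l = i then F.1 else X.base k := hτ l
      rw [h1]
      split_ifs with h2
      · exact congrFun F.2 η
      · rw [X.face_base, P.q_base]
        rfl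
    refine ⟨⟨τ, hu⟩, ?_, fun l hl => ?_⟩
    · apply Subtype.ext
      have h1 := hτ i
      rw [if_pos rfl] at h1
      exact h1
    · apply Subtype.ext
      have h1 := hτ l
      rw [if_neg hl] at h1
      exact h1
  · refine ⟨{ map := fun {m} x => ⟨x.1, by
                funext θ
                rw [an_u_apply, x.2 θ, P.q_base]
                rfl⟩
              map_face := ?_
              map_base := ?_
              inj := ?_
              range := ?_ }⟩
    · intro j m θ x
      rfl
    · intro m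
      rfl
    · intro m x y h
      apply Subtype.ext
      exact congrArg (fun p : (nullSet P).obj m => p.1) h
    · intro m y
      constructor
      · rintro ⟨x, rfl⟩ θ
        apply Subtype.ext
        exact x.2 θ
      · intro h
        exact ⟨⟨y.1, fun θ => congrArg Subtype.val (h θ)⟩, rfl⟩

end SimpVol
end
end

section

set_option autoImplicit false

open scoped Topology ENNReal NNReal ContDiff Manifold
open MeasureTheory

noncomputable section

namespace SimpVol

section PsiSec

variable {M : Type} [MetricSpace M] [Nonempty M] {N : ℕ} {C : ℝ}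
  {I : Type} [LinearOrder I] [Fintype I]

set_option linter.unusedSectionVars false

theorem bb_psi_succ (K : ∀ x : M, Contr (liftSet x) N C) (s : ∀ x y : M, Hm x y)
    (A : ℕ → Set (Finset I)) (l : ℕ → Finset I → M) (j : ℕ) (t : Fin (j + 2) → I) (a : M)
    (ht : Function.Injective t ∧ Finset.univ.image t ∈ A (j + 1))
    (F : Bd ((liftSet a).obj (j + 1))) :
    Psi K s A l (j + 1) t a F =
      ∑ i : Fin (j + 2), (-1 : ℝ) ^ (i : ℕ) * Psi K s A l j (t ∘ Fin.succAbove i) a
        (kop K (s a (l (j + 1) (Finset.univ.image t))) j F) := by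
  classical
  have h : Psi K s A l (j + 1) t a = ∑ i : Fin (j + 2), (-1 : ℝ) ^ (i : ℕ) •
        (Psi K s A l j (t ∘ Fin.succAbove i) a).comp
          (kop K (s a (l (j + 1) (Finset.univ.image t))) j) := by
    rw [Psi]
    split_ifs with h'
    · convert rfl
    · exfalso
      apply h'
      refine ⟨ht.1, ?_⟩
      convert ht.2
  rw [h]
  simp [LinearMap.sum_apply]

theorem bb_psi_succ_zero (K : ∀ x : M, Contr (liftSet x) N C) (s : ∀ x y : M, Hm x y)
    (A : ℕ → Set (Finset I)) (l : ℕ → Finset I → M) (j : ℕ) (t : Fin (j + 2) → I) (a : M)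
    (ht : ¬ (Function.Injective t ∧ Finset.univ.image t ∈ A (j + 1))) :
    Psi K s A l (j + 1) t a = 0 := by
  classical
  rw [Psi]
  split_ifs with h'
  · exfalso
    apply ht
    refine ⟨h'.1, ?_⟩
    convert h'.2
  · rfl

theorem bb_dist {ρ e : ℝ} (pt : I → M) (l : Finset I → M)
    (hl : IsLab (X := M) pt ρ l) {j : ℕ} (t : Fin (j + 1) → I) (b : M)
    (hb : ∀ i, dist b (pt (t i)) ≤ e) (S : Finset I) (hS : S.Nonempty)
    (hSt : ∀ x ∈ S, ∃ i, t i = x) : dist b (l S) ≤ e + ρ := by
  obtain ⟨x, hx, hpx⟩ := pos_mem pt hS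
  obtain ⟨i, rfl⟩ := hSt x hx
  have h1 := hl S hS
  rw [hpx] at h1
  have h2 := hb i
  have h3 := dist_triangle b (pt (t i)) (l S)
  linarith

/-- (B5.5) base change -/
theorem psi_base {r ρ e : ℝ} (K : ∀ x : M, Contr (liftSet x) N C) (s : ∀ x y : M, Hm x y)
    (hs : IsShort r s) (pt : I → M) (A : ℕ → Set (Finset I)) (l : ℕ → Finset I → M)
    (hl : ∀ j, IsLab (X := M) pt ρ (l j)) (he : 0 ≤ e) (hr : ρ + 3 * e < r)
    (j : ℕ) (t : Fin (j + 1) → I)
    (a b : M) (hab : dist a b ≤ e) (ha : ∀ i, dist a (pt (t i)) ≤ e)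
    (hb : ∀ i, dist b (pt (t i)) ≤ e)
    (f : Bd ((liftSet a).obj j)) :
    Psi K s A l j t b (pull (tr (s a b)) f) = Psi K s A l j t a f := by
  induction j with
  | zero =>
    have hx : dist b (l 0 {t 0}) ≤ e + ρ := by
      apply bb_dist pt (l 0) (hl 0) t b hb {t 0} (Finset.singleton_nonempty _)
      intro x hx
      exact ⟨0, (Finset.mem_singleton.mp hx).symm⟩
    have htr : (s a b).trans (s b (l 0 {t 0})) = s a (l 0 {t 0}) :=
      hs.trans a b _ (by linarith)
    have h1 : Psi K s A l 0 t b (pull (tr (s a b)) f) =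
        (pull (tr (s b (l 0 {t 0}))) (pull (tr (s a b)) f)).1
          ((liftSet (l 0 {t 0})).base 0) := rfl
    rw [h1, pull_tr_tr, htr]
    rfl
  | succ j ih =>
    by_cases ht : Function.Injective t ∧ Finset.univ.image t ∈ A (j + 1)
    · rw [bb_psi_succ K s A l j t b ht, bb_psi_succ K s A l j t a ht]
      have hx : dist b (l (j + 1) (Finset.univ.image t)) ≤ e + ρ := by
        apply bb_dist pt (l (j + 1)) (hl (j + 1)) t b hb _ ⟨t 0, by simp⟩
        intro x hx
        simpa using hx
      have htr : (s a b).trans (s b (l (j + 1) (Finset.univ.image t))) =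
          s a (l (j + 1) (Finset.univ.image t)) := hs.trans a b _ (by linarith)
      apply Finset.sum_congr rfl
      intro i _
      rw [← kop_base, htr, ih (t ∘ Fin.succAbove i) (fun i' => ha _) (fun i' => hb _)]
    · rw [bb_psi_succ_zero K s A l j t b ht, bb_psi_succ_zero K s A l j t a ht]
      rfl

end PsiSec

end SimpVol
end
end

section

/-! # MP_fa46d7_gt: length property of Riemannian manifolds (SV-50) -/

set_option autoImplicit false

open scoped Topology ENNReal NNReal ContDiff Manifold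
open MeasureTheory

noncomputable section

namespace SimpVol

open Bundle Manifold

/-- (G2) -/
theorem riem_length {n : ℕ} {M : Type} [MetricSpace M]
    [ChartedSpace (EuclideanSpace ℝ (Fin n)) M] [IsManifold (𝓡 n) ∞ M]
    [RiemannianBundle (fun x : M => TangentSpace (𝓡 n) x)]
    [IsRiemannianManifold (𝓡 n) M]
    (x y : M) (s : ℝ) (h : dist x y < s) : ∃ γ : Path x y, pathLen γ < ENNReal.ofReal s := by
  have h1 : riemannianEDist (𝓡 n) x y < ENNReal.ofReal s := by
    rw [← IsRiemannianManifold.out (I := 𝓡 n) x y, edist_dist]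
    exact (ENNReal.ofReal_lt_ofReal_iff_of_nonneg dist_nonneg).2 h
  obtain ⟨γ, h0, h1', hγ, hlen⟩ := exists_lt_of_riemannianEDist_lt h1
  have hc : Continuous (fun t : unitInterval => γ t) :=
    hγ.continuousOn.comp_continuous continuous_subtype_val (fun t => t.2)
  let p : Path x y := ⟨⟨fun t => γ t, hc⟩, by simp [h0], by simp [h1']⟩
  refine ⟨p, lt_of_le_of_lt ?_ hlen⟩
  unfold pathLen eVariationOn
  refine iSup_le ?_
  rintro ⟨N, u, hu, -⟩
  have key : ∀ N : ℕ, ∑ i ∈ Finset.range N, edist (γ (u (i + 1))) (γ (u i)) ≤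
      pathELength (𝓡 n) γ (u 0) (u N) := by
    intro N
    induction N with
    | zero => simp
    | succ N ih =>
      have hmono : ((u N : unitInterval) : ℝ) ≤ u (N + 1) := hu (Nat.le_succ N)
      have hstep : edist (γ (u (N + 1))) (γ (u N)) ≤
          pathELength (𝓡 n) γ (u N) (u (N + 1)) := by
        rw [edist_comm, IsRiemannianManifold.out (I := 𝓡 n)]
        refine riemannianEDist_le_pathELength (hγ.mono ?_) rfl rfl hmono
        exact Set.Icc_subset_Icc (u N).2.1 (u (N + 1)).2.2
      rw [Finset.sum_range_succ]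
      refine (add_le_add ih hstep).trans (le_of_eq ?_)
      exact pathELength_add (hu (Nat.zero_le N)) hmono
  exact (key N).trans (pathELength_mono (u 0).2.1 (u N).2.2)

end SimpVol
end
end
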