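import Mathlib

/-!
# MP_fa46d7_gt: the finite graph theorem (helper64)

`V` is a finite set with an integer valued pseudo-distance `δ`; two points are adjacent if
`δ u v ≤ 1`.  `W 0 = V`, `W (k+1)` is a subset of `W k` of minimal cardinality such that every
`δ ≤ 1`-chain component of `W k \ W (k+1)` has diameter at most `L`.
-/

namespace MP_fa46d7_gt.Graph

open Finset

universe u

set_option linter.unusedSectionVars false

variable {V : Type u} [Fintype V] [DecidableEq V]

/-- Integer valued pseudo-distance. -/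
structure NDist (δ : V → V → ℕ) : Prop where
  self : ∀ x, δ x x = 0
  symm : ∀ x y, δ x y = δ y x
  tri : ∀ x y z, δ x z ≤ δ x y + δ y z

/-- `u` and `v` are joined by a chain of adjacent points of `S`. -/
def Conn (δ : V → V → ℕ) (S : Finset V) (u v : V) : Prop :=
  Relation.ReflTransGen (fun a b => a ∈ S ∧ b ∈ S ∧ δ a b ≤ 1) u v

/-- `W'` is admissible in `W`. -/
def Adm (δ : V → V → ℕ) (L : ℕ) (W W' : Finset V) : Prop :=
  W' ⊆ W ∧ ∀ u v, u ∈ W \ W' → Conn δ (W \ W') u v → δ u v ≤ L

lemma adm_self (δ : V → V → ℕ) (L : ℕ) (W : Finset V) : Adm δ L W W := by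
  refine ⟨subset_rfl, ?_⟩
  intro u v hu
  simp at hu

lemma exists_step (δ : V → V → ℕ) (L : ℕ) (W : Finset V) :
    ∃ W', Adm δ L W W' ∧ ∀ W'', Adm δ L W W'' → W'.card ≤ W''.card := by
  classical
  obtain ⟨W', hW', hmin⟩ := Finset.exists_min_image (univ.filter (fun W' => Adm δ L W W'))
    (fun W' => W'.card) ⟨W, by simp [adm_self]⟩
  refine ⟨W', by simpa using hW', ?_⟩
  intro W'' h
  exact hmin W'' (by simpa using h)

/-- A minimal admissible set. -/
noncomputable def step (δ : V → V → ℕ) (L : ℕ) (W : Finset V) : Finset V :=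
  (exists_step δ L W).choose

lemma step_adm (δ : V → V → ℕ) (L : ℕ) (W : Finset V) : Adm δ L W (step δ L W) :=
  (exists_step δ L W).choose_spec.1

lemma step_min (δ : V → V → ℕ) (L : ℕ) (W W' : Finset V) (h : Adm δ L W W') :
    (step δ L W).card ≤ W'.card :=
  (exists_step δ L W).choose_spec.2 W' h

/-- The decreasing sequence of sets. -/
noncomputable def Wseq (δ : V → V → ℕ) (L : ℕ) : ℕ → Finset V
  | 0 => univ
  | k + 1 => step δ L (Wseq δ L k)

lemma Wseq_succ_subset (δ : V → V → ℕ) (L k : ℕ) : Wseq δ L (k + 1) ⊆ Wseq δ L k :=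
  (step_adm δ L _).1

lemma Wseq_anti (δ : V → V → ℕ) (L : ℕ) : Antitone (Wseq δ L) :=
  antitone_nat_of_succ_le (fun k => Wseq_succ_subset δ L k)

/-- Ball. -/
def ball (δ : V → V → ℕ) (x : V) (s : ℕ) : Finset V := univ.filter (fun v => δ x v ≤ s)

/-- Sphere. -/
def sph (δ : V → V → ℕ) (x : V) (s : ℕ) : Finset V := univ.filter (fun v => δ x v = s)

/-- Open ball. -/
def oball (δ : V → V → ℕ) (x : V) (s : ℕ) : Finset V := univ.filter (fun v => δ x v < s)

/-- Data of a carving of `U = P ∪ Q` with separator `Q`, pieces `P`, centres `c`. -/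
structure Carv (δ : V → V → ℕ) (L : ℕ) (Y P Q : Finset V) (c : V → V) : Prop where
  dist : ∀ u ∈ P, 2 * δ (c u) u ≤ L
  nbr : ∀ u ∈ P, ∀ v ∈ Y, δ u v ≤ 1 → v ∉ Q → v ∈ P ∧ c v = c u

lemma conn_stay {δ : V → V → ℕ} {L : ℕ} {P Q S : Finset V} {c : V → V}
    (h : Carv δ L univ P Q c) (hSQ : ∀ v ∈ S, v ∉ Q) {u v : V} (hu : u ∈ P)
    (hc : Conn δ S u v) : v ∈ P ∧ c v = c u := by
  induction hc with
  | refl => exact ⟨hu, rfl⟩
  | tail _ hab ih =>
    obtain ⟨_, hb, hd⟩ := hab
    obtain ⟨h1, h2⟩ := h.nbr _ ih.1 _ (mem_univ _) hd (hSQ _ hb)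
    exact ⟨h1, h2.trans ih.2⟩

lemma conn_avoid {δ : V → V → ℕ} (hδ : NDist δ) {L : ℕ} {P Q S T : Finset V} {c : V → V}
    (h : Carv δ L univ P Q c) (hSQ : ∀ v ∈ S, v ∉ Q) (hT : ∀ v ∈ S, v ∉ P → v ∈ T) {u v : V}
    (hu : u ∉ P) (hc : Conn δ S u v) : v ∉ P ∧ Conn δ T u v := by
  induction hc with
  | refl => exact ⟨hu, Relation.ReflTransGen.refl⟩
  | tail _ hab ih =>
    obtain ⟨ha, hb, hd⟩ := hab
    have hbP : _ ∉ P := fun hbP => ih.1
      (h.nbr _ hbP _ (mem_univ _) (by rw [hδ.symm]; exact hd) (hSQ _ ha)).1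
    exact ⟨hbP, ih.2.tail ⟨hT _ ha ih.1, hT _ hb hbP, hd⟩⟩

/-- The main competitor inequality. -/
lemma carv_card {δ : V → V → ℕ} (hδ : NDist δ) {L : ℕ} {P Q : Finset V} {c : V → V}
    (h : Carv δ L univ P Q c) (k : ℕ) :
    (Wseq δ L (k + 1) ∩ (P ∪ Q)).card ≤ (Wseq δ L k ∩ Q).card := by
  classical
  set W := Wseq δ L k with hW
  set W1 := Wseq δ L (k + 1) with hW1
  have hW1W : W1 ⊆ W := Wseq_succ_subset δ L k
  have hadm1 : Adm δ L W W1 := step_adm δ L W
  set W' := (W1 \ (P ∪ Q)) ∪ (W ∩ Q) with hW'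
  have hmemS : ∀ v ∈ W \ W', v ∉ Q := by
    intro v hv hvQ
    rw [mem_sdiff] at hv
    exact hv.2 (mem_union_right _ (mem_inter.2 ⟨hv.1, hvQ⟩))
  have hT : ∀ v ∈ W \ W', v ∉ P → v ∈ W \ W1 := by
    intro v hv hvP
    have hvQ := hmemS v hv
    rw [mem_sdiff] at hv ⊢
    refine ⟨hv.1, fun hv1 => hv.2 (mem_union_left _ (mem_sdiff.2 ⟨hv1, ?_⟩))⟩
    simp [hvP, hvQ]
  have hadm : Adm δ L W W' := by
    refine ⟨?_, ?_⟩
    · apply union_subset
      · exact sdiff_subset.trans hW1W
      · exact inter_subset_left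
    · intro u v hu hc
      by_cases huP : u ∈ P
      · obtain ⟨hvP, hcv⟩ := conn_stay h hmemS huP hc
        have h1 := h.dist u huP
        have h2 := h.dist v hvP
        have h3 := hδ.tri u (c u) v
        rw [hcv] at h2
        rw [hδ.symm u (c u)] at h3
        omega
      · obtain ⟨_, hc'⟩ := conn_avoid hδ h hmemS hT huP hc
        exact hadm1.2 u v (hT u hu huP) hc'
  have hmin : W1.card ≤ W'.card := step_min δ L W W' hadm
  have h1 : W'.card ≤ (W1 \ (P ∪ Q)).card + (W ∩ Q).card := card_union_le _ _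
  have h2 : (W1 \ (P ∪ Q)).card + (W1 ∩ (P ∪ Q)).card = W1.card := card_sdiff_add_card_inter _ _
  omega

lemma single_card {δ : V → V → ℕ} (hδ : NDist δ) {L s : ℕ} (hs : 2 * s ≤ L) (x : V) (k : ℕ) :
    (Wseq δ L (k + 1) ∩ ball δ x s).card ≤ (Wseq δ L k ∩ sph δ x s).card := by
  classical
  have hc : Carv δ L univ (oball δ x s) (sph δ x s) (fun _ => x) := by
    refine ⟨?_, ?_⟩
    · intro u hu
      simp only [oball, mem_filter, mem_univ, true_and] at hu
      omega
    · intro u hu v _ huv hv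
      simp only [oball, sph, mem_filter, mem_univ, true_and] at hu hv ⊢
      have := hδ.tri x u v
      refine ⟨by omega, trivial⟩
  have := carv_card hδ hc k
  have hU : oball δ x s ∪ sph δ x s = ball δ x s := by
    ext v
    simp only [oball, sph, ball, mem_union, mem_filter, mem_univ, true_and]
    omega
  rwa [hU] at this

lemma card_ball_succ (δ : V → V → ℕ) (W : Finset V) (x : V) (s : ℕ) :
    (W ∩ ball δ x (s + 1)).card = (W ∩ ball δ x s).card + (W ∩ sph δ x (s + 1)).card := by
  classical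
  rw [← card_union_of_disjoint]
  · congr 1
    ext v
    simp only [sph, ball, mem_union, mem_inter, mem_filter, mem_univ, true_and]
    by_cases hv : v ∈ W <;> simp [hv]
    omega
  · rw [Finset.disjoint_left]
    intro v h1 h2
    simp only [ball, sph, mem_inter, mem_filter, mem_univ, true_and] at h1 h2
    omega

lemma card_mono (δ : V → V → ℕ) (W : Finset V) (x : V) {s t : ℕ} (h : s ≤ t) :
    (W ∩ ball δ x s).card ≤ (W ∩ ball δ x t).card := by
  apply card_le_card
  intro v
  simp only [ball, mem_inter, mem_filter, mem_univ, true_and]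
  rintro ⟨h1, h2⟩
  exact ⟨h1, h2.trans h⟩

/-- Lower bound on the size of balls around points of `W n`. -/
lemma lower {δ : V → V → ℕ} (hδ : NDist δ) {L : ℕ} (x : V) (j : ℕ) : ∀ k s : ℕ, 2 * s ≤ L →
    x ∈ Wseq δ L (k + j) → (s + j).choose j ≤ (Wseq δ L k ∩ ball δ x s).card := by
  induction j with
  | zero =>
    intro k s _ hx
    simp only [add_zero, Nat.choose_zero_right]
    apply Finset.card_pos.2
    exact ⟨x, by simp [ball, hδ.self]; simpa using hx⟩
  | succ j ih =>
    intro k s hs hx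
    have hx' : x ∈ Wseq δ L (k + 1 + j) := by rwa [show k + 1 + j = k + (j + 1) by ring]
    induction s with
    | zero =>
      have h1 := ih (k + 1) 0 hs hx'
      have h2 := single_card hδ hs x k
      have h3 : (Wseq δ L k ∩ sph δ x 0) = (Wseq δ L k ∩ ball δ x 0) := by
        ext v
        simp [sph, ball]
      rw [h3] at h2
      simp only [zero_add, Nat.choose_self] at h1 ⊢
      omega
    | succ s ihs =>
      have h0 := ihs (by omega)
      have h1 := ih (k + 1) (s + 1) hs hx'
      have h2 := single_card hδ hs x k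
      rw [card_ball_succ]
      have h3 : (s + 1 + (j + 1)).choose (j + 1) = (s + (j + 1)).choose (j + 1)
          + (s + 1 + j).choose j := by
        rw [show s + 1 + (j + 1) = (s + 1 + j) + 1 by ring, Nat.choose_succ_succ,
          show s + (j + 1) = s + 1 + j by ring]
        ring
      omega

lemma upper_one {δ : V → V → ℕ} (hδ : NDist δ) {L : ℕ} (x : V) (k a h : ℕ)
    (hL : 2 * (a + h) ≤ L) :
    h * (Wseq δ L (k + 1) ∩ ball δ x a).card ≤ (Wseq δ L k ∩ ball δ x (a + h)).card := by
  induction h with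
  | zero => simp
  | succ h ih =>
    have h1 := ih (by omega)
    have h2 := single_card hδ (s := a + h + 1) (by omega) x k
    have h3 := card_mono δ (Wseq δ L (k + 1)) x (show a ≤ a + h + 1 by omega)
    rw [show a + (h + 1) = a + h + 1 by ring, card_ball_succ]
    rw [add_mul, one_mul]
    omega

lemma upper {δ : V → V → ℕ} (hδ : NDist δ) {L : ℕ} (x : V) (k : ℕ) : ∀ (a h : ℕ),
    2 * (a + k * h) ≤ L →
    h ^ k * (Wseq δ L k ∩ ball δ x a).card ≤ (ball δ x (a + k * h)).card := by
  induction k with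
  | zero =>
    intro a h _
    simp only [pow_zero, one_mul, zero_mul, add_zero]
    exact card_le_card inter_subset_right
  | succ k ih =>
    intro a h hL
    have e : a + (k + 1) * h = (a + h) + k * h := by ring
    have h0 : 2 * (a + h) ≤ L := by
      rw [e] at hL
      exact le_trans (Nat.mul_le_mul_left 2 (Nat.le_add_right _ _)) hL
    have h1 : h * (Wseq δ L (k + 1) ∩ ball δ x a).card ≤ (Wseq δ L k ∩ ball δ x (a + h)).card :=
      upper_one hδ x k a h h0
    have h2 := ih (a + h) h (by rw [e] at hL; exact hL)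
    rw [e]
    calc h ^ (k + 1) * (Wseq δ L (k + 1) ∩ ball δ x a).card
        = h ^ k * (h * (Wseq δ L (k + 1) ∩ ball δ x a).card) := by ring
      _ ≤ h ^ k * (Wseq δ L k ∩ ball δ x (a + h)).card := Nat.mul_le_mul_left _ h1
      _ ≤ _ := h2

/-- Choice of a good radius, simultaneously for all levels `k < n`. -/
lemma good_radius {n : ℕ} (W : ℕ → Finset V) (δ : V → V → ℕ) (x : V) (Y : Finset V) (a h : ℕ)
    (T m : ℕ → ℝ) (α : ℝ) (hα : 0 < α) (hm : ∀ k < n, 0 < m k)
    (hT : ∀ k < n, ((W k ∩ ball δ x (a + h)).card : ℝ) ≤ T k)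
    (hprod : ∏ k ∈ range n, ((T k + m k) / m k) < (1 + α) ^ h) :
    ∃ s, a ≤ s ∧ s < a + h ∧ ∀ k < n, ((W k ∩ (sph δ x (s + 1) ∩ Y)).card : ℝ) ≤
      α * ((W k ∩ (ball δ x s ∩ Y)).card + m k) := by
  classical
  by_contra hcon
  push Not at hcon
  set g : ℕ → ℕ → ℝ := fun k s => ((W k ∩ (ball δ x s ∩ Y)).card : ℝ) + m k with hg
  have hgpos : ∀ k < n, ∀ s, 0 < g k s := by
    intro k hk s
    have := hm k hk
    simp only [hg]
    positivity
  have hsucc : ∀ k s, g k (s + 1) = g k s + ((W k ∩ (sph δ x (s + 1) ∩ Y)).card : ℝ) := by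
    intro k s
    have := card_ball_succ δ (W k ∩ Y) x s
    have e1 : W k ∩ (ball δ x (s + 1) ∩ Y) = (W k ∩ Y) ∩ ball δ x (s + 1) := by
      ext v; simp only [mem_inter]; tauto
    have e2 : W k ∩ (ball δ x s ∩ Y) = (W k ∩ Y) ∩ ball δ x s := by
      ext v; simp only [mem_inter]; tauto
    have e3 : W k ∩ (sph δ x (s + 1) ∩ Y) = (W k ∩ Y) ∩ sph δ x (s + 1) := by
      ext v; simp only [mem_inter]; tauto
    simp only [hg]
    rw [e1, e2, e3, this]
    push_cast
    ring
  have hmono : ∀ k s, g k s ≤ g k (s + 1) := by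
    intro k s
    rw [hsucc]
    have : (0 : ℝ) ≤ ((W k ∩ (sph δ x (s + 1) ∩ Y)).card : ℝ) := by positivity
    linarith
  have hstep : ∀ s, a ≤ s → s < a + h →
      (1 + α) * ∏ k ∈ range n, g k s ≤ ∏ k ∈ range n, g k (s + 1) := by
    intro s h1 h2
    obtain ⟨k0, hk0, hbad⟩ := hcon s h1 h2
    have hk0' : k0 ∈ range n := mem_range.2 hk0
    rw [← Finset.mul_prod_erase _ _ hk0', ← Finset.mul_prod_erase _ _ hk0', ← mul_assoc]
    apply mul_le_mul
    · rw [hsucc]
      simp only [hg] at hbad ⊢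
      linarith
    · apply Finset.prod_le_prod
      · intro k hk
        exact (hgpos k (mem_range.1 (mem_of_mem_erase hk)) s).le
      · intro k _
        exact hmono k s
    · apply Finset.prod_nonneg
      intro k hk
      exact (hgpos k (mem_range.1 (mem_of_mem_erase hk)) s).le
    · exact (hgpos k0 hk0 (s + 1)).le
  have hpow : ∀ j, j ≤ h → (1 + α) ^ j * ∏ k ∈ range n, g k a ≤ ∏ k ∈ range n, g k (a + j) := by
    intro j
    induction j with
    | zero => intro _; simp
    | succ j ih =>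
      intro hj
      have h1 := ih (by omega)
      have h2 := hstep (a + j) (by omega) (by omega)
      calc (1 + α) ^ (j + 1) * ∏ k ∈ range n, g k a
          = (1 + α) * ((1 + α) ^ j * ∏ k ∈ range n, g k a) := by ring
        _ ≤ (1 + α) * ∏ k ∈ range n, g k (a + j) := by
            apply mul_le_mul_of_nonneg_left h1; positivity
        _ ≤ _ := h2
  have h1 := hpow h le_rfl
  have h2 : ∏ k ∈ range n, m k ≤ ∏ k ∈ range n, g k a := by
    apply Finset.prod_le_prod
    · intro k hk; exact (hm k (mem_range.1 hk)).le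
    · intro k _
      simp only [hg]
      have : (0 : ℝ) ≤ ((W k ∩ (ball δ x a ∩ Y)).card : ℝ) := by positivity
      linarith
  have h3 : ∏ k ∈ range n, g k (a + h) ≤ ∏ k ∈ range n, (T k + m k) := by
    apply Finset.prod_le_prod
    · intro k hk; exact (hgpos k (mem_range.1 hk) _).le
    · intro k hk
      simp only [hg]
      have h4 := hT k (mem_range.1 hk)
      have h5 : ((W k ∩ (ball δ x (a + h) ∩ Y)).card : ℝ) ≤ ((W k ∩ ball δ x (a + h)).card : ℝ) := by
        exact_mod_cast card_le_card (inter_subset_inter_left inter_subset_left)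
      linarith
  have hmp : 0 < ∏ k ∈ range n, m k := Finset.prod_pos (fun k hk => hm k (mem_range.1 hk))
  rw [Finset.prod_div_distrib, div_lt_iff₀ hmp] at hprod
  have h6 : (1 + α) ^ h * ∏ k ∈ range n, m k ≤ (1 + α) ^ h * ∏ k ∈ range n, g k a := by
    apply mul_le_mul_of_nonneg_left h2; positivity
  linarith

/-- Carving around a list of centres. -/
lemma carve {n : ℕ} (W : ℕ → Finset V) (δ : V → V → ℕ) (hδ : NDist δ) (L a h : ℕ)
    (hL : 2 * (a + h) ≤ L)
    (T m : ℕ → ℝ) (α : ℝ) (hα : 0 < α) (hm : ∀ k < n, 0 < m k)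
    (hprod : ∏ k ∈ range n, ((T k + m k) / m k) < (1 + α) ^ h) (xs : List V) :
    (∀ x ∈ xs, ∀ k < n, ((W k ∩ ball δ x (a + h)).card : ℝ) ≤ T k) → ∀ Y : Finset V,
    ∃ (P Q : Finset V) (c : V → V), P ⊆ Y ∧ Q ⊆ Y ∧ Disjoint P Q ∧ Carv δ L Y P Q c ∧
      (∀ x ∈ xs, ball δ x a ∩ Y ⊆ P ∪ Q) ∧
      ∀ k < n, ((W k ∩ Q).card : ℝ) ≤ α * ((W k ∩ P).card + xs.length * m k) := by
  classical
  induction xs with
  | nil =>
    intro _ Y
    refine ⟨∅, ∅, id, by simp, by simp, by simp, ⟨by simp, by simp⟩, by simp, ?_⟩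
    intro k _
    simp
  | cons x xs ih =>
    intro hT Y
    obtain ⟨s, hs1, hs2, hs3⟩ := good_radius W δ x Y a h T m α hα hm
      (hT x (by simp)) hprod
    obtain ⟨P', Q', c', hP', hQ', hPQ', hC', hb', hk'⟩ := ih
      (fun y hy => hT y (by simp [hy])) (Y \ ball δ x (s + 1))
    have memP1 : ∀ v, v ∈ ball δ x s ∩ Y ↔ δ x v ≤ s ∧ v ∈ Y := by intro v; simp [ball]
    have memQ1 : ∀ v, v ∈ sph δ x (s + 1) ∩ Y ↔ δ x v = s + 1 ∧ v ∈ Y := by intro v; simp [sph]
    have memY' : ∀ v, v ∈ Y \ ball δ x (s + 1) ↔ v ∈ Y ∧ s + 1 < δ x v := by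
      intro v; simp [ball]
    refine ⟨(ball δ x s ∩ Y) ∪ P', (sph δ x (s + 1) ∩ Y) ∪ Q',
      fun v => if δ x v ≤ s then x else c' v, ?_, ?_, ?_, ⟨?_, ?_⟩, ?_, ?_⟩
    · exact union_subset inter_subset_right (hP'.trans sdiff_subset)
    · exact union_subset inter_subset_right (hQ'.trans sdiff_subset)
    · rw [Finset.disjoint_left] at hPQ' ⊢
      intro v hv hv'
      rw [mem_union, memP1] at hv
      rw [mem_union, memQ1] at hv'
      rcases hv with hv | hv
      · rcases hv' with hv' | hv'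
        · omega
        · have := (memY' v).1 (hQ' hv'); omega
      · rcases hv' with hv' | hv'
        · have := (memY' v).1 (hP' hv); omega
        · exact hPQ' hv hv'
    · intro u hu
      rw [mem_union, memP1] at hu
      rcases hu with hu | hu
      · simp only [if_pos hu.1]
        omega
      · have hu' := (memY' u).1 (hP' hu)
        simp only [if_neg (show ¬ δ x u ≤ s by omega)]
        exact hC'.dist u hu
    · intro u hu v hvY huv hvQ
      rw [mem_union, memQ1] at hvQ
      push Not at hvQ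
      rw [mem_union, memP1] at hu
      have t1 := hδ.tri x u v
      have t2 := hδ.tri x v u
      rw [hδ.symm v u] at t2
      rcases hu with hu | hu
      · have hv : δ x v ≤ s := by
          by_contra hv
          exact hvQ.1 (by omega) hvY
        refine ⟨mem_union_left _ ((memP1 v).2 ⟨hv, hvY⟩), ?_⟩
        simp only [if_pos hu.1, if_pos hv]
      · have hu' := (memY' u).1 (hP' hu)
        have hv : ¬ δ x v ≤ s := by omega
        have hv2 : δ x v ≠ s + 1 := fun h' => hvQ.1 h' hvY
        have hvY' : v ∈ Y \ ball δ x (s + 1) := (memY' v).2 ⟨hvY, by omega⟩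
        obtain ⟨h1, h2⟩ := hC'.nbr u hu v hvY' huv hvQ.2
        refine ⟨mem_union_right _ h1, ?_⟩
        simp only [if_neg hv, if_neg (show ¬ δ x u ≤ s by omega)]
        exact h2
    · intro y hy v hv
      rw [mem_inter] at hv
      rw [mem_union, mem_union, mem_union]
      by_cases hvs : δ x v ≤ s + 1
      · by_cases hvs' : δ x v ≤ s
        · exact Or.inl (Or.inl ((memP1 v).2 ⟨hvs', hv.2⟩))
        · exact Or.inr (Or.inl ((memQ1 v).2 ⟨by omega, hv.2⟩))
      · rcases List.mem_cons.1 hy with rfl | hy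
        · exfalso
          have := hv.1
          simp only [ball, mem_filter, mem_univ, true_and] at this
          omega
        · have := hb' y hy (mem_inter.2 ⟨hv.1, (memY' v).2 ⟨hv.2, by omega⟩⟩)
          rw [mem_union] at this
          rcases this with h | h
          · exact Or.inl (Or.inr h)
          · exact Or.inr (Or.inr h)
    · intro k hk
      have h1 := hs3 k hk
      have h2 := hk' k hk
      have e1 : W k ∩ (sph δ x (s + 1) ∩ Y ∪ Q') =
          (W k ∩ (sph δ x (s + 1) ∩ Y)) ∪ (W k ∩ Q') := inter_union_distrib_left _ _ _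
      have e2 : ((W k ∩ (ball δ x s ∩ Y ∪ P')).card : ℝ) =
          ((W k ∩ (ball δ x s ∩ Y)).card : ℝ) + ((W k ∩ P').card : ℝ) := by
        rw [inter_union_distrib_left, card_union_of_disjoint]
        · push_cast; ring
        · rw [Finset.disjoint_left]
          intro v hv hv'
          rw [mem_inter, memP1] at hv
          rw [mem_inter] at hv'
          have := (memY' v).1 (hP' hv'.2)
          omega
      have e3 : ((W k ∩ (sph δ x (s + 1) ∩ Y ∪ Q')).card : ℝ) ≤
          ((W k ∩ (sph δ x (s + 1) ∩ Y)).card : ℝ) + ((W k ∩ Q').card : ℝ) := by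
        rw [e1]
        exact_mod_cast card_union_le _ _
      rw [e2]
      simp only [List.length_cons]
      push_cast
      nlinarith

/-- A maximal separated set. -/
lemma exists_centres (δ : V → V → ℕ) (hδ : NDist δ) (S : Finset V) (t : ℕ) :
    ∃ xs : Finset V, xs ⊆ S ∧ (∀ x ∈ xs, ∀ y ∈ xs, x ≠ y → t < δ x y) ∧
      ∀ v ∈ S, ∃ x ∈ xs, δ x v ≤ t := by
  classical
  obtain ⟨xs, hxs, hmax⟩ := Finset.exists_max_image
    (univ.filter (fun xs : Finset V => xs ⊆ S ∧ ∀ x ∈ xs, ∀ y ∈ xs, x ≠ y → t < δ x y))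
    (fun xs => xs.card) ⟨∅, by simp⟩
  simp only [mem_filter, mem_univ, true_and] at hxs hmax
  refine ⟨xs, hxs.1, hxs.2, ?_⟩
  intro v hv
  by_contra hcon
  push Not at hcon
  have hvx : v ∉ xs := by
    intro h
    have := hcon v h
    rw [hδ.self] at this
    omega
  have := hmax (insert v xs) ⟨?_, ?_⟩
  · rw [card_insert_of_notMem hvx] at this
    omega
  · exact insert_subset hv hxs.1
  · intro x hx y hy hxy
    rcases mem_insert.1 hx with rfl | hx
    · rcases mem_insert.1 hy with rfl | hy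
      · exact absurd rfl hxy
      · rw [hδ.symm]; exact hcon y hy
    · rcases mem_insert.1 hy with h | hy
      · rw [h]; exact hcon x hx
      · exact hxs.2 x hx y hy hxy

/-- The iteration estimate. -/
lemma iter_bound {δ : V → V → ℕ} (hδ : NDist δ) {L n q : ℕ} (T : ℕ → ℝ) (α : ℝ) (hα : 0 < α)
    (hL : 2 * (3 * q) ≤ L)
    (hT : ∀ x, ∀ k < n, ((Wseq δ L k ∩ ball δ x (3 * q)).card : ℝ) ≤ T k)
    (hprod : ∏ k ∈ range n, ((T k + ((q + (n - k)).choose (n - k) : ℝ)) /
      ((q + (n - k)).choose (n - k) : ℝ)) < (1 + α) ^ q) :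
    ((Wseq δ L n).card : ℝ) ≤ (2 * α) ^ n * (Fintype.card V : ℝ) := by
  classical
  set m : ℕ → ℝ := fun k => ((q + (n - k)).choose (n - k) : ℝ) with hmdef
  have hm : ∀ k < n, 0 < m k := by
    intro k _
    simp only [hmdef]
    exact_mod_cast Nat.choose_pos (by omega)
  obtain ⟨xs, hxs1, hxs2, hxs3⟩ := exists_centres δ hδ (Wseq δ L n) (2 * q)
  obtain ⟨P, Q, c, _, _, hPQ, hC, hb, hk⟩ := carve (n := n) (Wseq δ L) δ hδ L (2 * q) q
    (by omega) T m α hα hm hprod xs.toList
    (fun x _ k hk => by rw [show 2 * q + q = 3 * q by ring]; exact hT x k hk) univ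
  have hb' : ∀ x ∈ xs, ball δ x (2 * q) ⊆ P ∪ Q := by
    intro x hx
    have := hb x (by simpa using hx)
    rwa [inter_univ] at this
  have hWU : Wseq δ L n ⊆ P ∪ Q := by
    intro v hv
    obtain ⟨x, hx, hxv⟩ := hxs3 v hv
    exact hb' x hx (by simpa [ball] using hxv)
  have hcount : ∀ k < n, (xs.card : ℝ) * m k ≤ ((Wseq δ L k ∩ (P ∪ Q)).card : ℝ) := by
    intro k hkn
    have h1 : (xs.biUnion (fun x => Wseq δ L k ∩ ball δ x q)).card =
        ∑ x ∈ xs, (Wseq δ L k ∩ ball δ x q).card := by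
      apply card_biUnion
      intro x hx y hy hxy
      change Disjoint (Wseq δ L k ∩ ball δ x q) (Wseq δ L k ∩ ball δ y q)
      rw [Finset.disjoint_left]
      intro v hv hv'
      simp only [ball, mem_inter, mem_filter, mem_univ, true_and] at hv hv'
      have h2 := hxs2 x hx y hy hxy
      have h3 := hδ.tri x v y
      rw [hδ.symm v y] at h3
      omega
    have h2 : (xs.biUnion (fun x => Wseq δ L k ∩ ball δ x q)) ⊆ Wseq δ L k ∩ (P ∪ Q) := by
      intro v hv
      rw [mem_biUnion] at hv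
      obtain ⟨x, hx, hv⟩ := hv
      rw [mem_inter] at hv ⊢
      refine ⟨hv.1, hb' x hx ?_⟩
      simp only [ball, mem_filter, mem_univ, true_and] at hv ⊢
      omega
    have h3 : ∀ x ∈ xs, (q + (n - k)).choose (n - k) ≤ (Wseq δ L k ∩ ball δ x q).card := by
      intro x hx
      apply lower hδ x (n - k) k q (by omega)
      rw [show k + (n - k) = n by omega]
      exact hxs1 hx
    have h4 : xs.card * (q + (n - k)).choose (n - k) ≤
        ∑ x ∈ xs, (Wseq δ L k ∩ ball δ x q).card := by
      rw [← smul_eq_mul]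
      exact Finset.card_nsmul_le_sum _ _ _ h3
    have h5 := card_le_card h2
    simp only [hmdef]
    have h6 : xs.card * (q + (n - k)).choose (n - k) ≤ (Wseq δ L k ∩ (P ∪ Q)).card := by
      rw [h1] at h5
      exact h4.trans h5
    exact_mod_cast h6
  have hstep : ∀ k < n, ((Wseq δ L (k + 1) ∩ (P ∪ Q)).card : ℝ) ≤
      2 * α * ((Wseq δ L k ∩ (P ∪ Q)).card : ℝ) := by
    intro k hkn
    have h1 : ((Wseq δ L (k + 1) ∩ (P ∪ Q)).card : ℝ) ≤ ((Wseq δ L k ∩ Q).card : ℝ) := by
      exact_mod_cast carv_card hδ hC k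
    have h2 := hk k hkn
    have h3 : ((Wseq δ L k ∩ P).card : ℝ) ≤ ((Wseq δ L k ∩ (P ∪ Q)).card : ℝ) := by
      exact_mod_cast card_le_card (inter_subset_inter_left subset_union_left)
    have h4 := hcount k hkn
    rw [length_toList] at h2
    have h5 : α * ((Wseq δ L k ∩ P).card + xs.card * m k) ≤
        α * (((Wseq δ L k ∩ (P ∪ Q)).card : ℝ) + ((Wseq δ L k ∩ (P ∪ Q)).card : ℝ)) := by
      apply mul_le_mul_of_nonneg_left _ hα.le
      linarith
    linarith
  have hiter : ∀ k ≤ n, ((Wseq δ L k ∩ (P ∪ Q)).card : ℝ) ≤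
      (2 * α) ^ k * (Fintype.card V : ℝ) := by
    intro k
    induction k with
    | zero =>
      intro _
      simp only [pow_zero, one_mul]
      exact_mod_cast card_le_univ _
    | succ k ih =>
      intro hkn
      have h1 := ih (by omega)
      have h2 := hstep k (by omega)
      calc ((Wseq δ L (k + 1) ∩ (P ∪ Q)).card : ℝ)
          ≤ 2 * α * ((Wseq δ L k ∩ (P ∪ Q)).card : ℝ) := h2
        _ ≤ 2 * α * ((2 * α) ^ k * (Fintype.card V : ℝ)) := by
            apply mul_le_mul_of_nonneg_left h1; positivity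
        _ = _ := by ring
  have h1 := hiter n le_rfl
  rwa [inter_eq_left.2 hWU] at h1

lemma conn_symm {δ : V → V → ℕ} (hδ : NDist δ) {S : Finset V} {u v : V} (h : Conn δ S u v) :
    Conn δ S v u := by
  induction h with
  | refl => exact Relation.ReflTransGen.refl
  | tail _ hab ih =>
    exact Relation.ReflTransGen.head ⟨hab.2.1, hab.1, by rw [hδ.symm]; exact hab.2.2⟩ ih

/-- The level of a point. -/
noncomputable def lev (δ : V → V → ℕ) (L n : ℕ) (v : V) : ℕ :=
  ((range n).filter (fun k => v ∈ Wseq δ L (k + 1))).card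

lemma lev_le (δ : V → V → ℕ) (L n : ℕ) (v : V) : lev δ L n v ≤ n := by
  unfold lev
  exact (card_filter_le _ _).trans (by simp)

lemma filter_eq (δ : V → V → ℕ) (L n : ℕ) (v : V) :
    (range n).filter (fun k => v ∈ Wseq δ L (k + 1)) = range (lev δ L n v) := by
  classical
  have hdown : ∀ k ∈ (range n).filter (fun k => v ∈ Wseq δ L (k + 1)), ∀ j < k,
      j ∈ (range n).filter (fun k => v ∈ Wseq δ L (k + 1)) := by
    intro k hk j hj
    rw [mem_filter, mem_range] at hk ⊢
    exact ⟨by omega, Wseq_anti δ L (show j + 1 ≤ k + 1 by omega) hk.2⟩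
  apply Finset.eq_of_subset_of_card_le
  · intro k hk
    rw [mem_range]
    unfold lev
    have : range (k + 1) ⊆ (range n).filter (fun k => v ∈ Wseq δ L (k + 1)) := by
      intro j hj
      rw [mem_range] at hj
      rcases Nat.lt_or_ge j k with h | h
      · exact hdown k hk j h
      · have : j = k := by omega
        rw [this]; exact hk
    have := card_le_card this
    rw [card_range] at this
    omega
  · rw [card_range]
    exact le_rfl

lemma mem_iff_lev (δ : V → V → ℕ) (L n : ℕ) (v : V) (k : ℕ) (hk : k ≤ n) :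
    v ∈ Wseq δ L k ↔ k ≤ lev δ L n v := by
  classical
  rcases k with _ | k
  · simp [Wseq]
  · have h := filter_eq δ L n v
    have h2 : k ∈ (range n).filter (fun k => v ∈ Wseq δ L (k + 1)) ↔ k ∈ range (lev δ L n v) := by
      rw [h]
    rw [mem_filter, mem_range, mem_range] at h2
    constructor
    · intro h3
      exact h2.1 ⟨hk, h3⟩
    · intro h3
      exact (h2.2 h3).2

/-- The equivalence relation of lying in the same component of the same layer. -/
noncomputable def lsetoid (δ : V → V → ℕ) (hδ : NDist δ) (L n : ℕ) : Setoid V where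
  r u v := lev δ L n u = lev δ L n v ∧
    Conn δ (Wseq δ L (lev δ L n u) \ Wseq δ L (lev δ L n u + 1)) u v
  iseqv := by
    refine ⟨?_, ?_, ?_⟩
    · intro u
      exact ⟨rfl, Relation.ReflTransGen.refl⟩
    · rintro u v ⟨h1, h2⟩
      refine ⟨h1.symm, ?_⟩
      rw [← h1]
      exact conn_symm hδ h2
    · rintro u v w ⟨h1, h2⟩ ⟨h3, h4⟩
      refine ⟨h1.trans h3, ?_⟩
      rw [← h1] at h4
      exact h2.trans h4

/-- Representatives. -/
noncomputable def rep (δ : V → V → ℕ) (hδ : NDist δ) (L n : ℕ) (v : V) : V :=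
  if lev δ L n v < n then (Quotient.mk (lsetoid δ hδ L n) v).out else v

/-- Structural properties of the levels and representatives. -/
lemma lev_rep {δ : V → V → ℕ} (hδ : NDist δ) (L n : ℕ) :
    (∀ v, δ v (rep δ hδ L n v) ≤ L) ∧
    (∀ u v, δ u v ≤ 1 → lev δ L n u = lev δ L n v → lev δ L n u < n →
      rep δ hδ L n u = rep δ hδ L n v) := by
  classical
  have hmem : ∀ v, lev δ L n v < n →
      v ∈ Wseq δ L (lev δ L n v) \ Wseq δ L (lev δ L n v + 1) := by
    intro v hv
    rw [mem_sdiff, mem_iff_lev δ L n v _ hv.le, mem_iff_lev δ L n v _ hv]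
    exact ⟨le_rfl, by omega⟩
  constructor
  · intro v
    unfold rep
    split_ifs with h
    · have h1 : (lsetoid δ hδ L n).r v (Quotient.mk (lsetoid δ hδ L n) v).out := by
        have := Quotient.exact (Quotient.out_eq (Quotient.mk (lsetoid δ hδ L n) v))
        exact (lsetoid δ hδ L n).iseqv.symm this
      exact (step_adm δ L (Wseq δ L (lev δ L n v))).2 v _ (hmem v h) h1.2
    · rw [hδ.self]; omega
  · intro u v huv hl hn
    unfold rep
    rw [if_pos hn, if_pos (hl ▸ hn)]
    congr 1
    apply Quotient.sound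
    refine ⟨hl, Relation.ReflTransGen.single ⟨hmem u hn, ?_, huv⟩⟩
    have := hmem v (hl ▸ hn)
    rw [← hl] at this
    exact this

lemma log_aux {x y : ℝ} (hx : 0 < x) (hy : 0 < y) {n q : ℕ} (hn : 1 ≤ n) (hq : 1 ≤ q)
    (hy1 : y ≤ 1) (h : y = 3 * n * Real.log (1 + x) / q) :
    (1 + x) ^ n < (1 + y) ^ q := by
  have hq' : (0 : ℝ) < q := by exact_mod_cast hq
  have hn' : (0 : ℝ) < n := by exact_mod_cast hn
  have h1 : 2 * y / (y + 2) ≤ Real.log (1 + y) := Real.le_log_one_add_of_nonneg hy.le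
  have h2 : 2 * y / 3 ≤ 2 * y / (y + 2) := by
    apply div_le_div_of_nonneg_left (by positivity) (by positivity) (by linarith)
  have hlog : 0 < Real.log (1 + x) := Real.log_pos (by linarith)
  have h3 : (q : ℝ) * y = 3 * n * Real.log (1 + x) := by
    rw [h]; field_simp
  have h4 : (n : ℝ) * Real.log (1 + x) < q * Real.log (1 + y) := by
    have h5 : (q : ℝ) * (2 * y / 3) ≤ q * Real.log (1 + y) :=
      mul_le_mul_of_nonneg_left (h2.trans h1) hq'.le
    have h6 : (q : ℝ) * (2 * y / 3) = 2 * (n * Real.log (1 + x)) := by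
      linear_combination (2 / 3) * h3
    have h7 : 0 < (n : ℝ) * Real.log (1 + x) := by positivity
    linarith
  rw [← Real.log_lt_log_iff (by positivity) (by positivity), Real.log_pow, Real.log_pow]
  exact h4

/-- **Graph theorem.** -/
theorem graph (n : ℕ) (hn : 1 ≤ n) : ∃ C : ℝ, 0 < C ∧ ∀ {V : Type u} [Fintype V] (δ : V → V → ℕ),
    NDist δ → ∀ L : ℕ, 8 * n ≤ L → ∀ A : ℝ, (∀ x, (Nat.card {v // δ x v ≤ L} : ℝ) ≤ A) →
    ∃ (lev : V → ℕ) (rep : V → V), (∀ v, lev v ≤ n) ∧ (∀ v, δ v (rep v) ≤ L) ∧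
      (∀ u v, δ u v ≤ 1 → lev u = lev v → lev u < n → rep u = rep v) ∧
      ((∀ v, lev v ≠ n) ∨ (1 ≤ Real.log (C * A / L ^ n) ∧
        (Nat.card {v // lev v = n} : ℝ) ≤
          (C * Real.log (C * A / L ^ n) / L) ^ n * (Fintype.card V : ℝ))) := by
  classical
  set C : ℝ := 96 * n ^ 2 * (n.factorial * ((16 * n) ^ n + 3 * 4 ^ n)) with hCdef
  have hn' : (1 : ℝ) ≤ n := by exact_mod_cast hn
  have hfac : (1 : ℝ) ≤ n.factorial := by exact_mod_cast Nat.factorial_pos n
  have hC : 0 < C := by positivity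
  refine ⟨C, hC, ?_⟩
  intro V _ δ hδ L hL A hA
  refine ⟨lev δ L n, rep δ hδ L n, lev_le δ L n, (lev_rep hδ L n).1, (lev_rep hδ L n).2, ?_⟩
  by_cases hW : Wseq δ L n = ∅
  · left
    intro v hv
    have := (mem_iff_lev δ L n v n le_rfl).2 hv.ge
    rw [hW] at this
    simp at this
  right
  obtain ⟨x0, hx0⟩ := Finset.nonempty_iff_ne_empty.2 hW
  set q : ℕ := L / (8 * n) with hq
  have hqL : 8 * n * q ≤ L := Nat.mul_div_le L (8 * n)
  have hq1 : 1 ≤ q := (Nat.one_le_div_iff (by omega)).2 hL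
  have hLq : L < 8 * n * (q + 1) := by
    have := Nat.lt_mul_div_succ L (show 0 < 8 * n by omega)
    simpa [hq] using this
  have hq' : (1 : ℝ) ≤ q := by exact_mod_cast hq1
  have hLq' : (L : ℝ) ≤ 16 * n * q := by
    have h1 : (L : ℝ) < 8 * n * (q + 1) := by exact_mod_cast hLq
    nlinarith
  have hL0 : (0 : ℝ) < L := by
    have : 0 < L := by omega
    exact_mod_cast this
  have hcardball : ∀ x s, 2 * s ≤ L → ((ball δ x s).card : ℝ) ≤ A := by
    intro x s hs
    refine le_trans ?_ (hA x)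
    rw [Nat.card_eq_fintype_card, Fintype.card_subtype]
    have : (ball δ x s) ⊆ (univ.filter (fun v => δ x v ≤ L)) := by
      intro v
      simp only [ball, mem_filter, mem_univ, true_and]
      omega
    exact_mod_cast card_le_card this
  -- lower bound for A
  have hAlow : (1 : ℝ) ≤ n.factorial * 4 ^ n * A / L ^ n := by
    have h0 : 2 * (4 * n * q) ≤ L := by
      calc 2 * (4 * n * q) = 8 * n * q := by ring
        _ ≤ L := hqL
    have h1 := lower hδ (L := L) x0 n 0 (4 * n * q) h0 (by rw [zero_add]; exact hx0)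
    have h2 : ((Wseq δ L 0 ∩ ball δ x0 (4 * n * q)).card : ℝ) ≤ A := by
      refine le_trans ?_ (hcardball x0 (4 * n * q) h0)
      exact_mod_cast card_le_card inter_subset_right
    have h3 : ((4 * n * q + n + 1 - n : ℕ) : ℝ) ^ n / n.factorial ≤
        ((4 * n * q + n).choose n : ℝ) := Nat.pow_le_choose n (4 * n * q + n)
    have h4 : ((4 * n * q + n).choose n : ℝ) ≤ A := by
      refine le_trans ?_ h2
      exact_mod_cast h1
    have h5 : ((L : ℝ) / 4) ^ n ≤ ((4 * n * q + n + 1 - n : ℕ) : ℝ) ^ n := by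
      apply pow_le_pow_left₀ (by positivity)
      rw [show 4 * n * q + n + 1 - n = 4 * n * q + 1 by omega]
      push_cast
      linarith
    have h6 : ((4 * n * q + n + 1 - n : ℕ) : ℝ) ^ n ≤ n.factorial * A := by
      have := h3.trans h4
      rw [div_le_iff₀ (by positivity)] at this
      linarith
    rw [le_div_iff₀ (by positivity), one_mul]
    have h7 : ((L : ℝ) / 4) ^ n = L ^ n / 4 ^ n := by rw [div_pow]
    have h8 : (L : ℝ) ^ n / 4 ^ n ≤ n.factorial * A := by rw [← h7]; exact h5.trans h6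
    rw [div_le_iff₀ (by positivity)] at h8
    linarith
  have hA0 : 0 < A := by
    by_contra hneg
    push Not at hneg
    have : (n.factorial * 4 ^ n * A / L ^ n : ℝ) ≤ 0 := by
      apply div_nonpos_of_nonpos_of_nonneg _ (by positivity)
      have : (0 : ℝ) ≤ n.factorial * 4 ^ n := by positivity
      nlinarith
    linarith
  set X : ℝ := n.factorial * A / q ^ n with hX
  have hXpos : 0 < X := by positivity
  have hXle : X ≤ n.factorial * (16 * n) ^ n * A / L ^ n := by
    rw [hX, div_le_div_iff₀ (by positivity) (by positivity)]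
    have h1 : (L : ℝ) ^ n ≤ (16 * n) ^ n * q ^ n := by
      rw [← mul_pow]
      exact pow_le_pow_left₀ hL0.le hLq' n
    have h2 : (0 : ℝ) ≤ n.factorial * A := by positivity
    calc (n.factorial * A * L ^ n : ℝ) ≤ n.factorial * A * ((16 * n) ^ n * q ^ n) :=
          mul_le_mul_of_nonneg_left h1 h2
      _ = _ := by ring
  have hbase : (1 : ℝ) ≤ n.factorial * ((16 * n) ^ n + 3 * 4 ^ n) := by
    have h1 : (1 : ℝ) ≤ 4 ^ n := one_le_pow₀ (by norm_num)
    have h2 : (0 : ℝ) ≤ (16 * n) ^ n := by positivity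
    nlinarith
  have hbig : (1 : ℝ) ≤ 96 * n ^ 2 := by nlinarith
  have hALpos : 0 < A / L ^ n := by positivity
  have hCle : (n.factorial * ((16 * n) ^ n + 3 * 4 ^ n) : ℝ) ≤ C := by
    have h1 := mul_le_mul_of_nonneg_right hbig
      (show (0:ℝ) ≤ n.factorial * ((16 * n) ^ n + 3 * 4 ^ n) by positivity)
    rw [one_mul] at h1
    exact h1
  have h1X : 1 + X ≤ C * A / L ^ n := by
    have h1 : (n.factorial * ((16 * n) ^ n + 3 * 4 ^ n) : ℝ) * (A / L ^ n) ≤ C * (A / L ^ n) :=
      mul_le_mul_of_nonneg_right hCle hALpos.le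
    have h2 : (n.factorial * ((16 * n) ^ n + 3 * 4 ^ n) : ℝ) * (A / L ^ n) =
        n.factorial * (16 * n) ^ n * A / L ^ n + 3 * (n.factorial * 4 ^ n * A / L ^ n) := by ring
    have h3 : C * A / L ^ n = C * (A / L ^ n) := by ring
    rw [h3]
    linarith
  have hlogge : 1 ≤ Real.log (C * A / L ^ n) := by
    rw [Real.le_log_iff_exp_le (by linarith)]
    have h1 : (n.factorial * ((16 * n) ^ n + 3 * 4 ^ n) : ℝ) * (A / L ^ n) ≤ C * (A / L ^ n) :=
      mul_le_mul_of_nonneg_right hCle hALpos.le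
    have h2 : (n.factorial * ((16 * n) ^ n + 3 * 4 ^ n) : ℝ) * (A / L ^ n) =
        n.factorial * (16 * n) ^ n * A / L ^ n + 3 * (n.factorial * 4 ^ n * A / L ^ n) := by ring
    have h3 : C * A / L ^ n = C * (A / L ^ n) := by ring
    have h4 : (0 : ℝ) ≤ n.factorial * (16 * n) ^ n * A / L ^ n := by positivity
    rw [h3]
    have := Real.exp_one_lt_d9
    linarith
  refine ⟨hlogge, ?_⟩
  set α : ℝ := 3 * n * Real.log (1 + X) / q with hα
  have hlogX : 0 < Real.log (1 + X) := Real.log_pos (by linarith)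
  have hαpos : 0 < α := by positivity
  have hcardeq : (Nat.card {v // lev δ L n v = n} : ℝ) = ((Wseq δ L n).card : ℝ) := by
    rw [Nat.card_eq_fintype_card, Fintype.card_subtype]
    congr 2
    ext v
    rw [mem_filter, mem_iff_lev δ L n v n le_rfl]
    have := lev_le δ L n v
    simp only [mem_univ, true_and]
    omega
  have hmain : ((Wseq δ L n).card : ℝ) ≤ (2 * α) ^ n * (Fintype.card V : ℝ) := by
    by_cases hα1 : α ≤ 1
    · have hL6 : 2 * (3 * q) ≤ L := by
        refine le_trans ?_ hqL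
        have : 1 * q ≤ n * q := Nat.mul_le_mul_right q hn
        nlinarith
      apply iter_bound hδ (q := q) (fun k => A / q ^ k) α hαpos hL6
      · intro x k hk
        have hLk : 2 * (3 * q + k * q) ≤ L := by
          refine le_trans ?_ hqL
          have h1 : (k + 1) * q ≤ n * q := Nat.mul_le_mul_right q hk
          have h2 : 1 * q ≤ n * q := Nat.mul_le_mul_right q hn
          nlinarith
        have h1 := upper hδ (L := L) x k (3 * q) q hLk
        have h2 := hcardball x (3 * q + k * q) hLk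
        rw [le_div_iff₀ (by positivity)]
        have h3 : ((q ^ k * (Wseq δ L k ∩ ball δ x (3 * q)).card : ℕ) : ℝ) ≤
            ((ball δ x (3 * q + k * q)).card : ℝ) := by exact_mod_cast h1
        push_cast at h3
        linarith
      · refine lt_of_le_of_lt ?_ (log_aux hXpos hαpos hn hq1 hα1 hα)
        have : ∀ k ∈ range n, (A / (q : ℝ) ^ k + ((q + (n - k)).choose (n - k) : ℝ)) /
            ((q + (n - k)).choose (n - k) : ℝ) ≤ 1 + X := by
          intro k hk
          rw [mem_range] at hk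
          have hm : (0 : ℝ) < ((q + (n - k)).choose (n - k) : ℝ) := by
            exact_mod_cast Nat.choose_pos (by omega)
          rw [add_div, div_self hm.ne', add_comm (1 : ℝ)]
          apply add_le_add_left
          have h3 : ((q + (n - k) + 1 - (n - k) : ℕ) : ℝ) ^ (n - k) / (n - k).factorial ≤
            ((q + (n - k)).choose (n - k) : ℝ) := Nat.pow_le_choose (n - k) (q + (n - k))
          have h4 : (q : ℝ) ^ (n - k) ≤ ((q + (n - k) + 1 - (n - k) : ℕ) : ℝ) ^ (n - k) := by
            apply pow_le_pow_left₀ (by positivity)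
            exact_mod_cast (by omega : q ≤ q + (n - k) + 1 - (n - k))
          have h5 : ((n - k).factorial : ℝ) ≤ n.factorial := by
            exact_mod_cast Nat.factorial_le (by omega)
          have h6 : (q : ℝ) ^ (n - k) ≤ n.factorial * ((q + (n - k)).choose (n - k) : ℝ) := by
            have h7 := h3
            rw [div_le_iff₀ (by positivity)] at h7
            have h8 : ((q + (n - k)).choose (n - k) : ℝ) * ((n - k).factorial : ℝ) ≤
                ((q + (n - k)).choose (n - k) : ℝ) * n.factorial :=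
              mul_le_mul_of_nonneg_left h5 hm.le
            linarith
          rw [hX, div_div, div_le_div_iff₀ (by positivity) (by positivity)]
          have h9 : (q : ℝ) ^ n = q ^ k * q ^ (n - k) := by
            rw [← pow_add]; congr 1; omega
          rw [h9]
          have h10 : A * ((q : ℝ) ^ k * q ^ (n - k)) ≤
              A * ((q : ℝ) ^ k * (n.factorial * ((q + (n - k)).choose (n - k) : ℝ))) := by
            apply mul_le_mul_of_nonneg_left _ hA0.le
            apply mul_le_mul_of_nonneg_left h6 (by positivity)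
          calc A * ((q : ℝ) ^ k * q ^ (n - k)) ≤ _ := h10
            _ = _ := by ring
        calc ∏ k ∈ range n, ((A / (q : ℝ) ^ k + ((q + (n - k)).choose (n - k) : ℝ)) /
              ((q + (n - k)).choose (n - k) : ℝ)) ≤ ∏ _k ∈ range n, (1 + X) := by
              apply Finset.prod_le_prod
              · intro k _
                have : (0 : ℝ) ≤ ((q + (n - k)).choose (n - k) : ℝ) := by positivity
                positivity
              · exact this
          _ = (1 + X) ^ n := by simp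
    · have h1 : ((Wseq δ L n).card : ℝ) ≤ (Fintype.card V : ℝ) := by
        exact_mod_cast card_le_univ _
      have h2 : (1 : ℝ) ≤ (2 * α) ^ n := by
        apply one_le_pow₀
        push Not at hα1
        linarith
      have h3 : (0 : ℝ) ≤ (Fintype.card V : ℝ) := by positivity
      nlinarith
  rw [hcardeq]
  refine hmain.trans ?_
  apply mul_le_mul_of_nonneg_right _ (by positivity)
  apply pow_le_pow_left₀ (by positivity)
  rw [hα]
  have hlogle : Real.log (1 + X) ≤ Real.log (C * A / L ^ n) :=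
    Real.log_le_log (by linarith) h1X
  have hC96 : 96 * (n : ℝ) ^ 2 ≤ C := by
    have h1 := mul_le_mul_of_nonneg_left hbase (show (0:ℝ) ≤ 96 * n ^ 2 by positivity)
    rw [mul_one] at h1
    exact h1
  have e1 : 2 * (3 * n * Real.log (1 + X) / q) ≤ 96 * n ^ 2 * Real.log (1 + X) / L := by
    rw [show 2 * (3 * n * Real.log (1 + X) / q) = 6 * n * Real.log (1 + X) / q by ring,
      div_le_div_iff₀ (by positivity) hL0]
    have h1 : 6 * n * Real.log (1 + X) * L ≤ 6 * n * Real.log (1 + X) * (16 * n * q) :=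
      mul_le_mul_of_nonneg_left hLq' (by positivity)
    calc 6 * n * Real.log (1 + X) * L ≤ _ := h1
      _ = _ := by ring
  refine e1.trans ?_
  apply div_le_div_of_nonneg_right _ hL0.le
  exact mul_le_mul hC96 hlogle hlogX.le hC.le

end MP_fa46d7_gt.Graph
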