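import Pool.Agent.Lib.MP_fa46d7_gt.Defs
import Pool.Agent.Lib.MP_fa46d7_gt.APi

section

/-!
# MP_fa46d7_gt: prism operators (A2)
-/

set_option autoImplicit false

open scoped Topology ENNReal NNReal
open MeasureTheory

noncomputable section

namespace SimpVol

/-- Prism operators in one dimension, with the identities needed for the next dimension. -/
structure aq_Lev (X : DSet) (k m : ℕ) where
  P : ℕ → X.obj m → X.obj (m + 1)
  a : ∀ s, X.dn (m + 1) (P m s) = s
  b : ∀ (i : ℕ) (s : X.obj m), 1 ≤ i → i ≤ m → X.dn i (P i s) = X.dn i (P (i - 1) s)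
  r : ∀ (s : X.obj m) (θ : Fin (k + 1) ↪o Fin (m + 1)), X.face θ (X.dn 0 (P 0 s)) = X.base k
  low : m < k → ∀ i s, P i s = X.base (m + 1)
  q1 : ∀ (s : X.obj (m + 1)) (l l' i : ℕ), l < l' → l' < i → i ≤ m + 1 →
    X.dn l (P (i - 1) (X.dn l' s)) = X.dn (l' - 1) (P (i - 1) (X.dn l s))
  q3 : ∀ (s : X.obj (m + 1)) (l l' i : ℕ), l < i → i + 1 < l' → l' ≤ m + 2 →
    X.dn l (P i (X.dn (l' - 1) s)) = X.dn (l' - 1) (P (i - 1) (X.dn l s))
  q5 : ∀ (s : X.obj (m + 1)) (l l' i : ℕ), i + 1 < l → l < l' → l' ≤ m + 2 →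
    X.dn l (P i (X.dn (l' - 1) s)) = X.dn (l' - 1) (P i (X.dn (l - 1) s))

theorem aq_dn_base (X : DSet) (m l : ℕ) : X.dn l (X.base (m + 1)) = X.base m := by
  unfold DSet.dn DSet.d
  split_ifs
  · exact X.face_base _
  · rfl

theorem aq_dn_eq (X : DSet) {m : ℕ} (l : Fin (m + 2)) (x : X.obj (m + 1)) :
    X.dn (l : ℕ) x = X.d l x := by
  unfold DSet.dn
  rw [dif_pos l.2]

/-- The prism operators up to dimension `k`. -/
theorem aq_low (X : DSet) (k : ℕ) (ht : X.TrivBelow k) (hf : X.Fill k) (m : ℕ) (hm : m ≤ k) :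
    ∃ L : aq_Lev X k m, ∀ (i l : ℕ) (s : X.obj m), l < i ∨ i + 1 < l → l ≤ m + 1 → i ≤ m →
      X.dn l (L.P i s) = X.base m := by
  rcases hm.lt_or_eq with hlt | rfl
  · refine ⟨⟨fun _ _ => X.base (m + 1), fun s => ?_, fun i s _ _ => rfl, fun s θ => ?_,
      fun _ _ _ => rfl, fun s l l' i _ _ _ => ?_, fun s l l' i _ _ _ => ?_,
      fun s l l' i _ _ _ => ?_⟩, fun i l s _ _ _ => aq_dn_base X m l⟩
    · rw [aq_dn_base]
      exact (ht m hlt s).symm
    · rw [aq_dn_base]
      exact X.face_base θ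
    · rw [aq_dn_base, aq_dn_base]
    · rw [aq_dn_base, aq_dn_base]
    · rw [aq_dn_base, aq_dn_base]
  · have h1 : ∀ s : X.obj m, ∃ τ : X.obj (m + 1), X.dn (m + 1) τ = s ∧
        ∀ l, l ≠ m + 1 → X.dn l τ = X.base m := by
      intro s
      obtain ⟨τ, h1, h2⟩ := hf s (Fin.last (m + 1))
      refine ⟨τ, ?_, fun l hl => ?_⟩
      · rw [← h1, ← aq_dn_eq]
        rfl
      · by_cases hlm : l < m + 2
        · have h3 := h2 ⟨l, hlm⟩ (fun h => hl (congrArg Fin.val h))
          rw [← aq_dn_eq] at h3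
          exact h3
        · unfold DSet.dn
          rw [dif_neg hlm]
    choose τ hτ hτ' using h1
    have hP : ∀ (i l : ℕ) (s : X.obj m), (l ≠ m + 1 ∨ i ≠ m) →
        X.dn l (if i = m then τ s else X.base (m + 1)) = X.base m := by
      intro i l s h
      split_ifs with him
      · exact hτ' s l (h.resolve_right fun h3 => h3 him)
      · exact aq_dn_base X m l
    refine ⟨⟨fun i s => if i = m then τ s else X.base (m + 1), fun s => ?_,
      fun i s h1 h2 => ?_, fun s θ => ?_, fun h => absurd h (lt_irrefl _),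
      fun s l l' i h1 h2 h3 => ?_, fun s l l' i h1 h2 h3 => ?_,
      fun s l l' i h1 h2 h3 => ?_⟩, fun i l s h1 h2 h3 => ?_⟩
    · rw [if_pos rfl]
      exact hτ s
    · rw [hP i i s (Or.inl (by omega)), hP (i - 1) i s (Or.inl (by omega))]
    · rw [hP 0 0 s (Or.inl (by omega))]
      exact X.face_base θ
    · rw [hP _ _ _ (by omega), hP _ _ _ (by omega)]
    · rw [hP _ _ _ (by omega), hP _ _ _ (by omega)]
    · rw [hP _ _ _ (by omega), hP _ _ _ (by omega)]
    · exact hP i l s (by omega)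

/-- The prescribed faces. -/
def aq_pres (X : DSet) {m : ℕ} (P : ℕ → X.obj m → X.obj (m + 1)) (s : X.obj (m + 1))
    (Q : ℕ → X.obj (m + 2)) (i : ℕ) : Prop :=
  (∀ l, l < i → X.dn l (Q i) = P (i - 1) (X.dn l s)) ∧
    (∀ l, i + 1 < l → l ≤ m + 2 → X.dn l (Q i) = P i (X.dn (l - 1) s)) ∧
    (i = m + 1 → X.dn (i + 1) (Q i) = s) ∧
    (i ≠ m + 1 → X.dn (i + 1) (Q i) = X.dn (i + 1) (Q (i + 1)))

theorem aq_fill (X : DSet) (hX : X.IsKan) {k m : ℕ} (L : aq_Lev X k m) (s : X.obj (m + 1))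
    (j : ℕ) (hj : j ≤ m + 2) :
    ∃ Q : ℕ → X.obj (m + 2), ∀ i, m + 2 - j ≤ i → i ≤ m + 1 → aq_pres X L.P s Q i := by
  induction j with
  | zero => exact ⟨fun _ => X.base (m + 2), fun i h1 h2 => by omega⟩
  | succ j ih =>
    obtain ⟨Q, hQ⟩ := ih (by omega)
    -- the missing face
    obtain ⟨i, hi⟩ : ∃ i, i = m + 2 - (j + 1) := ⟨_, rfl⟩
    have hi1 : i ≤ m + 1 := by omega
    have hQi : ∀ i', i < i' → i' ≤ m + 1 → aq_pres X L.P s Q i' := fun i' h1 h2 =>
      hQ i' (by omega) h2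
    obtain ⟨τ, hτ⟩ := kan_dn X hX m i (by omega)
      (fun l => if l < i then L.P (i - 1) (X.dn l s) else
        if l = i + 1 then (if i = m + 1 then s else X.dn (i + 1) (Q (i + 1)))
        else L.P i (X.dn (l - 1) s)) (by
      intro l l' hll hl' hli hl'i
      rcases lt_or_gt_of_ne hli with h1 | h1
      · rw [if_pos h1]
        rcases lt_or_gt_of_ne hl'i with h2 | h2
        · rw [if_pos h2]
          exact L.q1 s l l' i hll h2 hi1
        · rw [if_neg (by omega)]
          by_cases h3 : l' = i + 1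
          · rw [if_pos h3]
            by_cases h4 : i = m + 1
            · rw [if_pos h4, h3, h4]
              simp only [Nat.add_sub_cancel]
              exact (L.a _).symm
            · rw [if_neg h4]
              have h5 := (hQi (i + 1) (by omega) (by omega)).1 l (by omega)
              rw [dn_dn X (by omega : l < i + 1) (by omega) (Q (i + 1)), h3,
                Nat.add_sub_cancel, h5, Nat.add_sub_cancel]
              exact L.b i _ (by omega) (by omega)
          · rw [if_neg h3]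
            exact L.q3 s l l' i h1 (by omega) hl'
      · rw [if_neg (by omega : ¬ l < i), if_neg (by omega : ¬ l' < i),
          if_neg (by omega : ¬ l' = i + 1)]
        by_cases h3 : l = i + 1
        · rw [if_pos h3, if_neg (by omega : ¬ i = m + 1), h3]
          have hpr := hQi (i + 1) (by omega) (by omega)
          rw [← dn_dn X (by omega : i + 1 < l') hl' (Q (i + 1))]
          by_cases h4 : l' = i + 2
          · rw [h4]
            by_cases h5 : i + 1 = m + 1
            · rw [hpr.2.2.1 h5]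
              have h6 : i = m := by omega
              rw [h6]
              exact L.a _
            · rw [hpr.2.2.2 h5, dn_dn X (by omega : i + 1 < i + 1 + 1) (by omega)
                (Q (i + 1 + 1)), Nat.add_sub_cancel,
                (hQi (i + 1 + 1) (by omega) (by omega)).1 (i + 1) (by omega),
                Nat.add_sub_cancel, L.b (i + 1) _ (by omega) (by omega), Nat.add_sub_cancel]
              rfl
          · rw [hpr.2.1 l' (by omega) hl', L.b (i + 1) _ (by omega) (by omega),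
              Nat.add_sub_cancel]
        · rw [if_neg h3]
          exact L.q5 s l l' i (by omega) hll hl')
    refine ⟨Function.update Q i τ, fun i' h1 h2 => ?_⟩
    by_cases hii : i' = i
    · subst hii
      refine ⟨fun l hl => ?_, fun l hl hl2 => ?_, fun h3 => ?_, fun h3 => ?_⟩
      · rw [Function.update_self, hτ l (by omega) (by omega), if_pos hl]
      · rw [Function.update_self, hτ l (by omega) (by omega), if_neg (by omega),
          if_neg (by omega)]
      · rw [Function.update_self, hτ _ (by omega) (by omega), if_neg (by omega), if_pos rfl,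
          if_pos h3]
      · rw [Function.update_self, hτ _ (by omega) (by omega), if_neg (by omega), if_pos rfl,
          if_neg h3, Function.update_of_ne (by omega)]
    · have h3 := hQi i' (by omega) h2
      unfold aq_pres at h3 ⊢
      rw [Function.update_of_ne hii, Function.update_of_ne (by omega)]
      exact h3

/-- One step. -/
theorem aq_step (X : DSet) (k : ℕ) (hX : X.IsKan) (ht : X.TrivBelow k) (hf : X.Fill k) (m : ℕ)
    (L : aq_Lev X k m) : ∃ L' : aq_Lev X k (m + 1),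
      (∀ (i l : ℕ) (s : X.obj (m + 1)), l < i → i ≤ m + 1 →
        X.dn l (L'.P i s) = L.P (i - 1) (X.dn l s)) ∧
      (∀ (i l : ℕ) (s : X.obj (m + 1)), i + 1 < l → l ≤ m + 2 →
        X.dn l (L'.P i s) = L.P i (X.dn (l - 1) s)) := by
  by_cases hmk : m + 1 ≤ k
  · obtain ⟨L', hL'⟩ := aq_low X k ht hf (m + 1) hmk
    refine ⟨L', fun i l s h1 h2 => ?_, fun i l s h1 h2 => ?_⟩
    · rw [L.low (by omega), hL' i l s (Or.inl h1) (by omega) (by omega)]
    · rw [L.low (by omega), hL' i l s (Or.inr h1) (by omega) (by omega)]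
  · have h1 := fun s : X.obj (m + 1) => aq_fill X hX L s (m + 2) le_rfl
    choose Q hQ using h1
    have hQ' : ∀ (s : X.obj (m + 1)) (i : ℕ), i ≤ m + 1 → aq_pres X L.P s (Q s) i :=
      fun s i hi => hQ s i (by omega) hi
    have c1 : ∀ (i l : ℕ) (s : X.obj (m + 1)), l < i → i ≤ m + 1 →
        X.dn l (Q s i) = L.P (i - 1) (X.dn l s) := fun i l s h1 h2 => (hQ' s i h2).1 l h1
    have c2 : ∀ (i l : ℕ) (s : X.obj (m + 1)), i + 1 < l → l ≤ m + 2 →
        X.dn l (Q s i) = L.P i (X.dn (l - 1) s) := fun i l s h1 h2 =>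
      (hQ' s i (by omega)).2.1 l h1 h2
    have hb : ∀ (i : ℕ) (s : X.obj (m + 1)), 1 ≤ i → i ≤ m + 1 →
        X.dn i (Q s i) = X.dn i (Q s (i - 1)) := by
      intro i s h1 h2
      have h3 := (hQ' s (i - 1) (by omega)).2.2.2 (by omega)
      rw [Nat.sub_add_cancel h1] at h3
      exact h3.symm
    refine ⟨⟨fun i s => Q s i, fun s => (hQ' s (m + 1) le_rfl).2.2.1 rfl, hb, ?_,
      fun h => absurd h (by omega), ?_, ?_, ?_⟩, c1, c2⟩
    · intro s θ
      obtain ⟨l, η, rfl⟩ := face_factor (by omega : k < m + 1) θ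
      rw [← X.face_comp]
      show X.face η (X.d l _) = _
      rw [← aq_dn_eq]
      rcases Nat.eq_zero_or_pos (l : ℕ) with h0 | h0
      · have h2 : X.dn 0 (X.dn 0 (Q s 0)) = X.dn 0 (L.P 0 (X.dn 0 s)) := by
          have e1 := dn_dn X (by omega : 0 < 1) (by omega) (Q s 0)
          have e2 := dn_dn X (by omega : 0 < 1) (by omega) (Q s 1)
          have e3 := hb 1 s le_rfl (by omega)
          have e4 := c1 1 0 s (by omega) (by omega)
          simp only [Nat.sub_self] at e1 e2 e3 e4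
          rw [← e1, ← e3, e2, e4]
        rw [h0, h2]
        exact L.r _ η
      · have h2 : X.dn (l : ℕ) (X.dn 0 (Q s 0)) = X.dn 0 (L.P 0 (X.dn (l : ℕ) s)) := by
          have e1 := dn_dn X (by omega : 0 < (l : ℕ) + 1) (by omega) (Q s 0)
          have e2 := c2 0 ((l : ℕ) + 1) s (by omega) (by omega)
          rw [Nat.add_sub_cancel] at e1 e2
          rw [← e1, e2]
        rw [h2]
        exact L.r _ η
    · intro s l l' i h1 h2 h3
      show X.dn l (Q (X.dn l' s) (i - 1)) = X.dn (l' - 1) (Q (X.dn l s) (i - 1))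
      rw [c1 (i - 1) l _ (by omega) (by omega), c1 (i - 1) (l' - 1) _ (by omega) (by omega),
        dn_dn X h1 (by omega) s]
    · intro s l l' i h1 h2 h3
      show X.dn l (Q (X.dn (l' - 1) s) i) = X.dn (l' - 1) (Q (X.dn l s) (i - 1))
      rw [c1 i l _ h1 (by omega), c2 (i - 1) (l' - 1) _ (by omega) (by omega),
        dn_dn X (by omega : l < l' - 1) (by omega) s]
    · intro s l l' i h1 h2 h3
      show X.dn l (Q (X.dn (l' - 1) s) i) = X.dn (l' - 1) (Q (X.dn (l - 1) s) i)
      rw [c2 i l _ h1 (by omega), c2 i (l' - 1) _ (by omega) (by omega),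
        dn_dn X (by omega : l - 1 < l' - 1) (by omega) s]

/-- (A2) prism operators -/
theorem prisms_exist (X : DSet) (k : ℕ) (hX : X.IsKan) (ht : X.TrivBelow k) (hf : X.Fill k) :
    Nonempty (Prisms X k) := by
  obtain ⟨L0, -⟩ := aq_low X k ht hf 0 (Nat.zero_le _)
  let S : ∀ m, aq_Lev X k m := fun m =>
    Nat.rec L0 (fun m L => (aq_step X k hX ht hf m L).choose) m
  have hS := fun m => (aq_step X k hX ht hf m (S m)).choose_spec
  exact ⟨⟨fun m => (S m).P, fun m => (S m).a, fun m => (S m).b, fun m => (hS m).1,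
    fun m => (hS m).2, fun m => (S m).r⟩⟩

end SimpVol
end
end

section

/-!
# MP_fa46d7_gt: contraction transfer along a retraction (A2)
-/

set_option autoImplicit false

open scoped Topology ENNReal NNReal
open MeasureTheory

noncomputable section

namespace SimpVol

theorem ar_prism_sum (m : ℕ) (F G : ℕ → ℕ → ℝ)
    (hb : ∀ i, 1 ≤ i → i ≤ m → F i i = F (i - 1) i)
    (h1 : ∀ i l, l < i → i ≤ m → F i l = G (i - 1) l)
    (h2 : ∀ i l, i + 1 < l → l ≤ m + 1 → F i l = G i (l - 1)) :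
    (∑ i ∈ Finset.range (m + 1), (-1 : ℝ) ^ i * ∑ l ∈ Finset.range (m + 2), (-1 : ℝ) ^ l * F i l) +
      (∑ l ∈ Finset.range (m + 1), (-1 : ℝ) ^ l * ∑ i ∈ Finset.range m, (-1 : ℝ) ^ i * G i l) =
      F 0 0 - F m (m + 1) := by
  have sq : ∀ i : ℕ, (-1 : ℝ) ^ i * (-1 : ℝ) ^ i = 1 := fun i => by
    rw [← mul_pow]; norm_num
  -- the four parts
  have hA : ∀ i ∈ Finset.range (m + 1),
      (-1 : ℝ) ^ i * ∑ l ∈ Finset.range (m + 2), (-1 : ℝ) ^ l * F i l =
      (-1 : ℝ) ^ i * (∑ l ∈ Finset.range i, (-1 : ℝ) ^ l * F i l) + (F i i - F i (i + 1)) +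
        (-1 : ℝ) ^ i * ∑ l ∈ Finset.Ico (i + 1) (m + 1), (-1 : ℝ) ^ (l + 1) * G i l := by
    intro i hi
    rw [Finset.mem_range] at hi
    rw [← Finset.sum_range_add_sum_Ico _ (show i + 2 ≤ m + 2 by omega), Finset.sum_range_succ,
      Finset.sum_range_succ]
    have h3 : ∑ l ∈ Finset.Ico (i + 2) (m + 2), (-1 : ℝ) ^ l * F i l =
        ∑ l ∈ Finset.Ico (i + 1) (m + 1), (-1 : ℝ) ^ (l + 1) * G i l := by
      rw [← Finset.sum_Ico_add' _ (i + 1) (m + 1) 1]
      refine Finset.sum_congr rfl fun l hl => ?_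
      rw [Finset.mem_Ico] at hl
      rw [h2 i (l + 1) (by omega) (by omega), Nat.add_sub_cancel]
    rw [h3]
    have h4 := sq i
    rw [mul_add, mul_add, mul_add, ← mul_assoc, h4, pow_succ (-1 : ℝ) i]
    have h5 : (-1 : ℝ) ^ i * ((-1 : ℝ) ^ i * -1 * F i (i + 1)) = - F i (i + 1) := by
      calc (-1 : ℝ) ^ i * ((-1 : ℝ) ^ i * -1 * F i (i + 1))
          = ((-1 : ℝ) ^ i * (-1 : ℝ) ^ i) * (- F i (i + 1)) := by ring
        _ = - F i (i + 1) := by rw [h4, one_mul]
    rw [h5]
    ring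
  rw [Finset.sum_congr rfl hA, Finset.sum_add_distrib, Finset.sum_add_distrib]
  have hB : ∑ i ∈ Finset.range (m + 1), (-1 : ℝ) ^ i * (∑ l ∈ Finset.range i, (-1 : ℝ) ^ l * F i l)
      = ∑ i ∈ Finset.range m, (-1 : ℝ) ^ (i + 1) *
        ∑ l ∈ Finset.range (i + 1), (-1 : ℝ) ^ l * G i l := by
    rw [Finset.sum_range_succ', Finset.range_zero, Finset.sum_empty, mul_zero, add_zero]
    refine Finset.sum_congr rfl fun i hi => ?_
    rw [Finset.mem_range] at hi
    congr 1
    refine Finset.sum_congr rfl fun l hl => ?_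
    rw [Finset.mem_range] at hl
    rw [h1 (i + 1) l hl (by omega), Nat.add_sub_cancel]
  have hC : ∑ i ∈ Finset.range (m + 1),
      (-1 : ℝ) ^ i * ∑ l ∈ Finset.Ico (i + 1) (m + 1), (-1 : ℝ) ^ (l + 1) * G i l =
      ∑ i ∈ Finset.range m, (-1 : ℝ) ^ (i + 1) *
        ∑ l ∈ Finset.Ico (i + 1) (m + 1), (-1 : ℝ) ^ l * G i l := by
    rw [Finset.sum_range_succ, Finset.Ico_self, Finset.sum_empty, mul_zero, add_zero]
    refine Finset.sum_congr rfl fun i _ => ?_
    rw [Finset.mul_sum, Finset.mul_sum]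
    refine Finset.sum_congr rfl fun l _ => ?_
    rw [pow_succ, pow_succ]; ring
  have hD : ∑ i ∈ Finset.range (m + 1), (F i i - F i (i + 1)) = F 0 0 - F m (m + 1) := by
    rw [Finset.sum_sub_distrib, Finset.sum_range_succ', Finset.sum_range_succ]
    have h6 : ∑ i ∈ Finset.range m, F (i + 1) (i + 1) = ∑ i ∈ Finset.range m, F i (i + 1) := by
      refine Finset.sum_congr rfl fun i hi => ?_
      rw [Finset.mem_range] at hi
      rw [hb (i + 1) (by omega) (by omega), Nat.add_sub_cancel]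
    rw [h6]; ring
  have hE : ∑ l ∈ Finset.range (m + 1), (-1 : ℝ) ^ l * ∑ i ∈ Finset.range m, (-1 : ℝ) ^ i * G i l =
      - ((∑ i ∈ Finset.range m, (-1 : ℝ) ^ (i + 1) *
        ∑ l ∈ Finset.range (i + 1), (-1 : ℝ) ^ l * G i l) +
        ∑ i ∈ Finset.range m, (-1 : ℝ) ^ (i + 1) *
          ∑ l ∈ Finset.Ico (i + 1) (m + 1), (-1 : ℝ) ^ l * G i l) := by
    rw [← Finset.sum_add_distrib, ← Finset.sum_neg_distrib]
    simp only [Finset.mul_sum]
    rw [Finset.sum_comm]
    refine Finset.sum_congr rfl fun i hi => ?_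
    rw [Finset.mem_range] at hi
    rw [Finset.sum_range_add_sum_Ico _ (show i + 1 ≤ m + 1 by omega), ← Finset.sum_neg_distrib]
    refine Finset.sum_congr rfl fun l _ => ?_
    rw [pow_succ]; ring
  rw [hB, hC, hD, hE]
  ring

theorem ar_dn_coe (X : DSet) {m : ℕ} (i : Fin (m + 2)) (x : X.obj (m + 1)) :
    X.dn (i : ℕ) x = X.d i x := by
  unfold DSet.dn
  rw [dif_pos i.isLt]

theorem ar_cob_apply (X : DSet) (m : ℕ) (f : Bd (X.obj m)) (x : X.obj (m + 1)) :
    (X.cob m f).1 x = ∑ l ∈ Finset.range (m + 2), (-1 : ℝ) ^ l * f.1 (X.dn l x) := by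
  rw [Finset.sum_range]
  unfold DSet.cob
  rw [LinearMap.sum_apply]
  rw [show (∑ d : Fin (m + 2), ((-1 : ℝ) ^ (d : ℕ) • pull (fun x => X.d d x)) f).1 x =
    ∑ d : Fin (m + 2), (((-1 : ℝ) ^ (d : ℕ) • pull (fun x => X.d d x)) f).1 x from by
      rw [Submodule.coe_sum, Finset.sum_apply]]
  refine Finset.sum_congr rfl fun i _ => ?_
  rw [ar_dn_coe]
  rfl

/-- The chain homotopy operator. -/
def ar_H {X : DSet} {k : ℕ} (P : Prisms X k) (m : ℕ) : Bd (X.obj (m + 1)) →ₗ[ℝ] Bd (X.obj m) :=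
  ∑ i ∈ Finset.range (m + 1), (-1 : ℝ) ^ i • pull (P.P m i)

theorem ar_H_apply {X : DSet} {k : ℕ} (P : Prisms X k) (m : ℕ) (f : Bd (X.obj (m + 1)))
    (s : X.obj m) :
    (ar_H P m f).1 s = ∑ i ∈ Finset.range (m + 1), (-1 : ℝ) ^ i * f.1 (P.P m i s) := by
  unfold ar_H
  rw [LinearMap.sum_apply]
  rw [show (∑ d ∈ Finset.range (m + 1), ((-1 : ℝ) ^ d • pull (P.P m d)) f).1 s =
    ∑ d ∈ Finset.range (m + 1), (((-1 : ℝ) ^ d • pull (P.P m d)) f).1 s from by
      rw [Submodule.coe_sum, Finset.sum_apply]]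
  rfl

theorem ar_H_zero {X : DSet} {k : ℕ} (P : Prisms X k) (f : Bd (X.obj 0)) (s : X.obj 0) :
    (ar_H P 0 (X.cob 0 f)).1 s = f.1 (X.dn 0 (P.P 0 0 s)) - f.1 s := by
  rw [ar_H_apply]
  simp only [ar_cob_apply]
  have h := ar_prism_sum 0 (fun i l => f.1 (X.dn l (P.P 0 i s))) (fun _ _ => 0)
    (fun i h1 h2 => by omega) (fun i l h1 h2 => by omega) (fun i l h1 h2 => by omega)
  have h0 : ∑ l ∈ Finset.range (0 + 1), (-1 : ℝ) ^ l *
      ∑ i ∈ Finset.range 0, (-1 : ℝ) ^ i * (0 : ℝ) = 0 :=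
    Finset.sum_eq_zero fun l _ => by rw [Finset.range_zero, Finset.sum_empty, mul_zero]
  rw [h0, add_zero] at h
  rw [h, P.a 0 s]

theorem ar_H_succ {X : DSet} {k : ℕ} (P : Prisms X k) (m : ℕ) (f : Bd (X.obj (m + 1)))
    (s : X.obj (m + 1)) :
    (ar_H P (m + 1) (X.cob (m + 1) f)).1 s + (X.cob m (ar_H P m f)).1 s =
      f.1 (X.dn 0 (P.P (m + 1) 0 s)) - f.1 s := by
  rw [ar_H_apply, ar_cob_apply]
  simp only [ar_cob_apply, ar_H_apply]
  have h := ar_prism_sum (m + 1) (fun i l => f.1 (X.dn l (P.P (m + 1) i s)))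
    (fun i l => f.1 (P.P m i (X.dn l s)))
    (fun i h1 h2 => by rw [P.b (m + 1) i s h1 h2])
    (fun i l h1 h2 => by rw [P.c1 m i l s h1 h2])
    (fun i l h1 h2 => by rw [P.c2 m i l s h1 (by omega)])
  rw [h, P.a (m + 1) s]

theorem ar_rho_face {X : DSet} {k : ℕ} (P : Prisms X k) (m l : ℕ) (hl : l ≤ m + 1)
    (s : X.obj (m + 1)) :
    X.dn l (X.dn 0 (P.P (m + 1) 0 s)) = X.dn 0 (P.P m 0 (X.dn l s)) := by
  rcases Nat.eq_zero_or_pos l with rfl | hl0
  · have h1 := dn_dn X (show 0 < 1 by omega) (by omega) (P.P (m + 1) 0 s)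
    have h2 := dn_dn X (show 0 < 1 by omega) (by omega) (P.P (m + 1) 1 s)
    have h3 := P.b (m + 1) 1 s (by omega) (by omega)
    have h4 := P.c1 m 1 0 s (by omega) (by omega)
    rw [Nat.sub_self] at h1 h2 h3 h4
    rw [← h1, ← h3, h2, h4]
  · have h1 := dn_dn X (show 0 < l + 1 by omega) (by omega) (P.P (m + 1) 0 s)
    have h2 := P.c2 m 0 (l + 1) s (by omega) (by omega)
    rw [Nat.add_sub_cancel] at h1 h2
    rw [← h1, h2]

theorem ar_map_dn {E X : DSet} {k : ℕ} (e : EilEmb E X k) {m : ℕ} (l : ℕ) (hl : l ≤ m + 1)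
    (x : E.obj (m + 1)) : e.map (E.dn l x) = X.dn l (e.map x) := by
  unfold DSet.dn
  rw [dif_pos (by omega), dif_pos (by omega)]
  exact e.map_face _ _

/-- (A2) retraction -/
theorem contr_of_eilEmb {E X : DSet} {k N : ℕ} {C : ℝ} (P : Prisms X k) (e : EilEmb E X k)
    (c : Contr E N C) : Nonempty (Contr X N (C + N + 1)) := by
  have hr : ∀ m (s : X.obj m), ∃ y : E.obj m, e.map y = X.dn 0 (P.P m 0 s) := fun m s =>
    (e.range _).2 (P.r m s)
  choose r hr using hr
  have hrf : ∀ m l (s : X.obj (m + 1)), l ≤ m + 1 → E.dn l (r (m + 1) s) = r m (X.dn l s) := by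
    intro m l s hl
    apply e.inj
    rw [ar_map_dn e l hl, hr, hr, ar_rho_face P m l hl]
  have hcr : ∀ m (g : Bd (E.obj m)),
      X.cob m (pull (r m) g) = pull (r (m + 1)) (E.cob m g) := by
    intro m g
    apply Subtype.ext
    funext s
    rw [ar_cob_apply]
    show _ = (E.cob m g).1 (r (m + 1) s)
    rw [ar_cob_apply]
    refine Finset.sum_congr rfl fun l hl => ?_
    rw [Finset.mem_range] at hl
    rw [hrf m l s (by omega)]
    rfl
  have hce : ∀ m (f : Bd (X.obj m)),
      pull (fun x : E.obj (m + 1) => e.map x) (X.cob m f) =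
        E.cob m (pull (fun x : E.obj m => e.map x) f) := by
    intro m f
    apply Subtype.ext
    funext s
    rw [ar_cob_apply]
    show (X.cob m f).1 (e.map s) = _
    rw [ar_cob_apply]
    refine Finset.sum_congr rfl fun l hl => ?_
    rw [Finset.mem_range] at hl
    rw [← ar_map_dn e l (by omega)]
    rfl
  refine ⟨{
    k := fun m => - ar_H P m + (pull (r m)) ∘ₗ (c.k m) ∘ₗ (pull (fun x : E.obj (m + 1) => e.map x))
    norm := ?_
    h0 := ?_
    h1 := ?_ }⟩
  · intro m hm f B hB x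
    have hB0 : 0 ≤ B := (abs_nonneg _).trans (hB (X.base (m + 1)))
    show |- (ar_H P m f).1 x + (c.k m (pull (fun x : E.obj (m + 1) => e.map x) f)).1 (r m x)| ≤ _
    have h1 : |(ar_H P m f).1 x| ≤ (N + 1) * B := by
      rw [ar_H_apply]
      calc |∑ i ∈ Finset.range (m + 1), (-1 : ℝ) ^ i * f.1 (P.P m i x)|
          ≤ ∑ i ∈ Finset.range (m + 1), |(-1 : ℝ) ^ i * f.1 (P.P m i x)| :=
            Finset.abs_sum_le_sum_abs _ _
        _ ≤ ∑ i ∈ Finset.range (m + 1), B := by
            refine Finset.sum_le_sum fun i _ => ?_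
            rw [abs_mul, abs_pow, abs_neg, abs_one, one_pow, one_mul]
            exact hB _
        _ = (m + 1) * B := by
            rw [Finset.sum_const, Finset.card_range, nsmul_eq_mul]; push_cast; ring
        _ ≤ (N + 1) * B := by
            have : (m : ℝ) ≤ N := by exact_mod_cast hm
            nlinarith
    have h2 := c.norm m hm (pull (fun x : E.obj (m + 1) => e.map x) f) B
      (fun y => hB (e.map y)) (r m x)
    have h3 := abs_add_le (- (ar_H P m f).1 x)
      ((c.k m (pull (fun x : E.obj (m + 1) => e.map x) f)).1 (r m x))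
    rw [abs_neg] at h3
    linarith
  · intro f x
    show - (ar_H P 0 (X.cob 0 f)).1 x +
      (c.k 0 (pull (fun x : E.obj 1 => e.map x) (X.cob 0 f))).1 (r 0 x) = _
    rw [ar_H_zero, hce, c.h0]
    show _ + (f.1 (e.map (r 0 x)) - f.1 (e.map (E.base 0))) = _
    rw [hr, e.map_base]
    ring
  · intro m hm f
    apply Subtype.ext
    funext s
    have h1 := ar_H_succ P m f s
    have h2 := c.h1 m hm (pull (fun x : E.obj (m + 1) => e.map x) f)
    have h3 : (E.cob m (c.k m (pull (fun x : E.obj (m + 1) => e.map x) f))).1 (r (m + 1) s) +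
        (c.k (m + 1) (E.cob (m + 1) (pull (fun x : E.obj (m + 1) => e.map x) f))).1 (r (m + 1) s)
        = f.1 (e.map (r (m + 1) s)) := congrFun (congrArg Subtype.val h2) (r (m + 1) s)
    rw [hr] at h3
    have h4 : (X.cob m ((- ar_H P m + (pull (r m)) ∘ₗ (c.k m) ∘ₗ
        (pull (fun x : E.obj (m + 1) => e.map x))) f)).1 s = - (X.cob m (ar_H P m f)).1 s +
        (E.cob m (c.k m (pull (fun x : E.obj (m + 1) => e.map x) f))).1 (r (m + 1) s) := by
      rw [LinearMap.add_apply, LinearMap.neg_apply, map_add, map_neg]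
      show - (X.cob m (ar_H P m f)).1 s +
        (X.cob m (pull (r m) (c.k m (pull (fun x : E.obj (m + 1) => e.map x) f)))).1 s = _
      rw [hcr]
      rfl
    show (X.cob m ((- ar_H P m + (pull (r m)) ∘ₗ (c.k m) ∘ₗ
        (pull (fun x : E.obj (m + 1) => e.map x))) f)).1 s +
      (- (ar_H P (m + 1) (X.cob (m + 1) f)).1 s +
        (c.k (m + 1) (pull (fun x : E.obj (m + 2) => e.map x) (X.cob (m + 1) f))).1
          (r (m + 1) s)) = f.1 s
    rw [h4, hce]
    linarith

end SimpVol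
end
end

section

/-!
# MP_fa46d7_gt: uniqueness of functional systems (B4)
-/

set_option autoImplicit false

open scoped Topology ENNReal NNReal ContDiff Manifold
open MeasureTheory

noncomputable section

namespace SimpVol

/-- Combinatorial cancellation of double faces. -/
theorem bu_cancel {m : ℕ} (w : Fin (m + 3) → Fin (m + 2) → ℝ)
    (hw : ∀ i l, w (i.succAbove l) (l.predAbove i) = w i l) :
    ∑ i : Fin (m + 3), (-1 : ℝ) ^ (i : ℕ) * ∑ l : Fin (m + 2), (-1 : ℝ) ^ (l : ℕ) * w i l = 0 := by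
  have h1 : ∑ i : Fin (m + 3), (-1 : ℝ) ^ (i : ℕ) * ∑ l : Fin (m + 2), (-1 : ℝ) ^ (l : ℕ) * w i l
      = ∑ p : Fin (m + 3) × Fin (m + 2), (-1 : ℝ) ^ (p.1 + p.2 : ℕ) * w p.1 p.2 := by
    rw [Fintype.sum_prod_type]
    refine Finset.sum_congr rfl fun i _ => ?_
    rw [Finset.mul_sum]
    refine Finset.sum_congr rfl fun l _ => ?_
    rw [pow_add, mul_assoc]
  rw [h1]
  refine Finset.sum_ninvolution (fun p => (p.1.succAbove p.2, p.2.predAbove p.1)) ?_ ?_ ?_ ?_
  · rintro ⟨i, l⟩
    simp only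
    rw [hw i l, Fin.neg_one_pow_succAbove_add_predAbove]
    ring
  · rintro ⟨i, l⟩ _ h
    simp only [Prod.mk.injEq] at h
    exact Fin.succAbove_ne i l h.1
  · intro a
    exact Finset.mem_univ _
  · rintro ⟨i, l⟩
    simp only [Prod.mk.injEq]
    refine ⟨Fin.succAbove_succAbove_predAbove i l, ?_⟩
    have h1 := Fin.succAbove_succAbove_predAbove (i.succAbove l) (l.predAbove i)
    have h2 := Fin.succAbove_succAbove_predAbove i l
    rw [h2] at h1
    exact Fin.succAbove_right_injective h1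

variable {M : Type} [TopologicalSpace M]

/-- The alternating sum over faces of a family of functionals. -/
def bu_dd {m q : ℕ} (G : ∀ τ : Sing M m, Bd ((liftSet (τ (vtx 0))).obj q) →ₗ[ℝ] ℝ)
    (τ : Sing M (m + 1)) : Bd ((liftSet (τ (vtx 0))).obj q) →ₗ[ℝ] ℝ :=
  ∑ i : Fin (m + 2), (-1 : ℝ) ^ (i : ℕ) • (G (sface i τ)).comp (pull (tr (fcls i τ)))

theorem bu_dd_apply {m q : ℕ} (G : ∀ τ : Sing M m, Bd ((liftSet (τ (vtx 0))).obj q) →ₗ[ℝ] ℝ)
    (τ : Sing M (m + 1)) (f : Bd ((liftSet (τ (vtx 0))).obj q)) :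
    bu_dd G τ f =
      ∑ i : Fin (m + 2), (-1 : ℝ) ^ (i : ℕ) * G (sface i τ) (pull (tr (fcls i τ)) f) := by
  simp [bu_dd, LinearMap.sum_apply]

/-- The value of the functional on a sub-simplex, with transport along a path. -/
def bu_W {m m' q : ℕ} (G : ∀ τ : Sing M m, Bd ((liftSet (τ (vtx 0))).obj q) →ₗ[ℝ] ℝ)
    (τ : Sing M m') (f : Bd ((liftSet (τ (vtx 0))).obj q)) (ψ : C(Smp m, Smp m'))
    (γ : Path (vtx 0) (ψ (vtx 0))) : ℝ :=
  G (τ.comp ψ) (pull (tr (y := (τ.comp ψ) (vtx 0))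
    (Path.Homotopic.Quotient.mk (γ.map τ.continuous))) f)

theorem bu_W_congr {m m' q : ℕ} (G : ∀ τ : Sing M m, Bd ((liftSet (τ (vtx 0))).obj q) →ₗ[ℝ] ℝ)
    (τ : Sing M m') (f : Bd ((liftSet (τ (vtx 0))).obj q)) (ψ ψ' : C(Smp m, Smp m'))
    (h : ψ = ψ') (γ : Path (vtx 0) (ψ (vtx 0))) (γ' : Path (vtx 0) (ψ' (vtx 0))) :
    bu_W G τ f ψ γ = bu_W G τ f ψ' γ' := by
  subst h
  have h1 : (Path.Homotopic.Quotient.mk (γ.map τ.continuous)) =
      (Path.Homotopic.Quotient.mk (γ'.map τ.continuous)) := by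
    have h := SimplyConnectedSpace.paths_homotopic γ γ'
    exact Quotient.sound (Path.Homotopic.map h τ)
  unfold bu_W
  rw [h1]

theorem bu_dd_dd {m q : ℕ} (G : ∀ τ : Sing M m, Bd ((liftSet (τ (vtx 0))).obj q) →ₗ[ℝ] ℝ)
    (τ : Sing M (m + 2)) (f : Bd ((liftSet (τ (vtx 0))).obj q)) :
    bu_dd (bu_dd G) τ f = 0 := by
  have key : ∀ (i : Fin (m + 3)) (l : Fin (m + 2)),
      G (sface l (sface i τ)) (pull (tr (fcls l (sface i τ))) (pull (tr (fcls i τ)) f)) =
      bu_W G τ f ((smap (Fin.succAbove i)).comp (smap (Fin.succAbove l)))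
        (PathConnectedSpace.somePath _ _) := by
    intro i l
    rw [pull_tr_tr]
    have : bu_W G τ f ((smap (Fin.succAbove i)).comp (smap (Fin.succAbove l)))
        ((PathConnectedSpace.somePath (vtx 0) (smap (Fin.succAbove i) (vtx 0))).trans
          ((PathConnectedSpace.somePath (vtx 0) (smap (Fin.succAbove l) (vtx 0))).map
            (smap (Fin.succAbove i)).continuous)) =
        G (sface l (sface i τ)) (pull (tr ((fcls i τ).trans (fcls l (sface i τ)))) f) := by
      unfold bu_W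
      rw [Path.map_trans, Path.Homotopic.Quotient.mk_trans]
      rfl
    rw [← this]
    exact bu_W_congr G τ f _ _ rfl _ _
  rw [bu_dd_apply]
  simp only [bu_dd_apply, key]
  refine bu_cancel (fun i l => bu_W G τ f ((smap (Fin.succAbove i)).comp (smap (Fin.succAbove l)))
        (PathConnectedSpace.somePath _ _)) ?_
  intro i l
  refine bu_W_congr G τ f _ _ ?_ _ _
  ext1 x
  show stdSimplex.map _ (stdSimplex.map _ x) = stdSimplex.map _ (stdSimplex.map _ x)
  rw [stdSimplex.map_comp_apply, stdSimplex.map_comp_apply]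
  congr 1
  funext k
  exact Fin.succAbove_succAbove_succAbove_predAbove i l k

theorem bu_dd_congr {m q : ℕ} (G G' : ∀ τ : Sing M m, Bd ((liftSet (τ (vtx 0))).obj q) →ₗ[ℝ] ℝ)
    (τ : Sing M (m + 1)) (f : Bd ((liftSet (τ (vtx 0))).obj q))
    (h : ∀ i, ∀ g, G (sface i τ) g = G' (sface i τ) g) :
    bu_dd G τ f = bu_dd G' τ f := by
  rw [bu_dd_apply, bu_dd_apply]
  exact Finset.sum_congr rfl fun i _ => by rw [h]

/-- The functionals `A` and `H`. -/
def bu_A {N : ℕ} {C : ℝ} (K : ∀ x : M, Contr (liftSet x) N C)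
    (D : ∀ (m : ℕ) (τ : Sing M m), Bd ((liftSet (τ (vtx 0))).obj m) →ₗ[ℝ] ℝ) :
    ∀ (m : ℕ) (τ : Sing M m), Bd ((liftSet (τ (vtx 0))).obj m) →ₗ[ℝ] ℝ
  | 0, τ => D 0 τ
  | m + 1, τ => D (m + 1) τ - bu_dd (fun σ : Sing M m => (bu_A K D m σ).comp ((K _).k m)) τ

/-- The functionals `H`. -/
def bu_H {N : ℕ} {C : ℝ} (K : ∀ x : M, Contr (liftSet x) N C)
    (D : ∀ (m : ℕ) (τ : Sing M m), Bd ((liftSet (τ (vtx 0))).obj m) →ₗ[ℝ] ℝ)
    (m : ℕ) (τ : Sing M m) : Bd ((liftSet (τ (vtx 0))).obj (m + 1)) →ₗ[ℝ] ℝ :=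
  (bu_A K D m τ).comp ((K _).k m)

theorem bu_A_succ {N : ℕ} {C : ℝ} (K : ∀ x : M, Contr (liftSet x) N C)
    (D : ∀ (m : ℕ) (τ : Sing M m), Bd ((liftSet (τ (vtx 0))).obj m) →ₗ[ℝ] ℝ)
    (m : ℕ) (τ : Sing M (m + 1)) (f : Bd ((liftSet (τ (vtx 0))).obj (m + 1))) :
    bu_A K D (m + 1) τ f = D (m + 1) τ f - bu_dd (bu_H K D m) τ f := by
  rfl

theorem bu_dd_cob {m q : ℕ} (G : ∀ τ : Sing M m, Bd ((liftSet (τ (vtx 0))).obj (q + 1)) →ₗ[ℝ] ℝ)
    (G' : ∀ τ : Sing M m, Bd ((liftSet (τ (vtx 0))).obj q) →ₗ[ℝ] ℝ)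
    (τ : Sing M (m + 1)) (g : Bd ((liftSet (τ (vtx 0))).obj q))
    (h : ∀ i, ∀ g, G (sface i τ) ((liftSet _).cob q g) = G' (sface i τ) g) :
    bu_dd G τ ((liftSet _).cob q g) = bu_dd G' τ g := by
  rw [bu_dd_apply, bu_dd_apply]
  refine Finset.sum_congr rfl fun i _ => ?_
  rw [pull_tr_cob]
  rw [h i]

theorem bu_dd_sub {m q : ℕ} (G G' : ∀ τ : Sing M m, Bd ((liftSet (τ (vtx 0))).obj q) →ₗ[ℝ] ℝ)
    (τ : Sing M (m + 1)) (f : Bd ((liftSet (τ (vtx 0))).obj q)) :
    bu_dd (fun σ => G σ - G' σ) τ f = bu_dd G τ f - bu_dd G' τ f := by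
  simp only [bu_dd_apply, LinearMap.sub_apply, mul_sub, Finset.sum_sub_distrib]

/-- (B4) uniqueness lemma -/
theorem fsys_unique {M : Type} [TopologicalSpace M] {n : ℕ} {C : ℝ}
    {Fine : ∀ m, Sing M m → Prop}
    (hFine : ∀ m (i : Fin (m + 2)) (τ : Sing M (m + 1)), Fine (m + 1) τ → Fine m (sface i τ))
    (K : ∀ x : M, Contr (liftSet x) (n + 1) C) (E E' : FSys M (n + 1) Fine)
    (c : Bd (Sing M (n + 1)))
    (hc : ∀ ρ : Sing M (n + 2), ∑ i : Fin (n + 3), (-1 : ℝ) ^ (i : ℕ) * c.1 (sface i ρ) = 0)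
    (z : SChain ℤ M (n + 1)) (hz : sbd ℤ z = 0) (hsupp : ∀ τ ∈ z.support, Fine (n + 1) τ) :
    z.sum (fun τ a => (a : ℝ) * E.F (n + 1) τ (ofSing c _)) =
      z.sum (fun τ a => (a : ℝ) * E'.F (n + 1) τ (ofSing c _)) := by
  set D : ∀ (m : ℕ) (τ : Sing M m), Bd ((liftSet (τ (vtx 0))).obj m) →ₗ[ℝ] ℝ :=
    fun m τ => E'.F m τ - E.F m τ with hD
  have hDcob : ∀ m, m + 1 ≤ n + 1 → ∀ τ : Sing M (m + 1), Fine (m + 1) τ →
      ∀ f : Bd ((liftSet (τ (vtx 0))).obj m),
      D (m + 1) τ ((liftSet (τ (vtx 0))).cob m f) = bu_dd (D m) τ f := by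
    intro m hm τ hτ f
    rw [bu_dd_apply]
    simp only [hD, LinearMap.sub_apply]
    rw [E.cob m hm τ hτ, E'.cob m hm τ hτ, ← Finset.sum_sub_distrib]
    exact Finset.sum_congr rfl fun i _ => by ring
  -- V from P
  have hV : ∀ m, m ≤ n → (∀ σ : Sing M m, Fine m σ → ∀ f : Bd ((liftSet (σ (vtx 0))).obj m),
      bu_H K D m σ ((liftSet _).cob m f) = bu_A K D m σ f) →
      ∀ τ : Sing M (m + 1), Fine (m + 1) τ → ∀ g : Bd ((liftSet (τ (vtx 0))).obj m),
      bu_A K D (m + 1) τ ((liftSet _).cob m g) = 0 := by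
    intro m hm hP τ hτ g
    rw [bu_A_succ, hDcob m (by omega) τ hτ,
      bu_dd_cob (bu_H K D m) (bu_A K D m) τ g (fun i f => hP _ (hFine m i τ hτ) f)]
    cases m with
    | zero => exact sub_self _
    | succ m =>
      have h1 : bu_dd (bu_A K D (m + 1)) τ g =
          bu_dd (D (m + 1)) τ g - bu_dd (bu_dd (bu_H K D m)) τ g := by
        rw [← bu_dd_sub]
        refine bu_dd_congr _ _ _ _ fun i f => ?_
        rw [bu_A_succ]
        rfl
      rw [h1, bu_dd_dd]
      simp
  have hP : ∀ m, m ≤ n → ∀ σ : Sing M m, Fine m σ → ∀ f : Bd ((liftSet (σ (vtx 0))).obj m),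
      bu_H K D m σ ((liftSet _).cob m f) = bu_A K D m σ f := by
    intro m
    induction m with
    | zero =>
      intro _ σ hσ f
      have h1 : (K (σ (vtx 0))).k 0 ((liftSet _).cob 0 f) =
          f - f.1 ((liftSet _).base 0) • bone _ := by
        apply Subtype.ext
        funext x
        rw [(K (σ (vtx 0))).h0 f x]
        show _ = f.1 x - f.1 _ • (1 : ℝ)
        simp
      show bu_A K D 0 σ ((K (σ (vtx 0))).k 0 ((liftSet _).cob 0 f)) = bu_A K D 0 σ f
      rw [h1, map_sub, map_smul]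
      have h2 : bu_A K D 0 σ (bone _) = 0 := by
        show (E'.F 0 σ - E.F 0 σ) (bone _) = 0
        rw [LinearMap.sub_apply, E.one σ hσ, E'.one σ hσ, sub_self]
      rw [h2]
      simp
    | succ m ih =>
      intro hm σ hσ f
      have h1 : (K (σ (vtx 0))).k (m + 1) ((liftSet _).cob (m + 1) f) =
          f - (liftSet _).cob m ((K (σ (vtx 0))).k m f) := by
        rw [eq_sub_iff_add_eq', (K (σ (vtx 0))).h1 m (by omega) f]
      show bu_A K D (m + 1) σ ((K (σ (vtx 0))).k (m + 1) ((liftSet _).cob (m + 1) f)) =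
        bu_A K D (m + 1) σ f
      rw [h1, map_sub, hV m (by omega) (ih (by omega)) σ hσ, sub_zero]
  -- the top step
  have htop : ∀ τ : Sing M (n + 1), Fine (n + 1) τ →
      D (n + 1) τ (ofSing c _) = ∑ i : Fin (n + 2), (-1 : ℝ) ^ (i : ℕ) *
        bu_H K D n (sface i τ) (ofSing c _) := by
    intro τ hτ
    have hcc : (liftSet (τ (vtx 0))).cob (n + 1) (ofSing c _) = 0 := by
      apply Subtype.ext
      funext L
      have := hc (pr L)
      refine Eq.trans ?_ this
      simp only [DSet.cob, LinearMap.sum_apply, LinearMap.smul_apply]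
      rw [AddSubmonoidClass.coe_finsetSum, Finset.sum_apply]
      rfl
    have h1 : (ofSing c (τ (vtx 0))) =
        (liftSet _).cob n ((K (τ (vtx 0))).k n (ofSing c (τ (vtx 0)))) := by
      have := (K (τ (vtx 0))).h1 n le_rfl (ofSing c (τ (vtx 0)))
      rw [hcc, map_zero, add_zero] at this
      exact this.symm
    have h2 := hV n le_rfl (hP n le_rfl) τ hτ ((K (τ (vtx 0))).k n (ofSing c (τ (vtx 0))))
    rw [← h1, bu_A_succ, sub_eq_zero] at h2
    rw [h2, bu_dd_apply]
    refine Finset.sum_congr rfl fun i _ => ?_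
    rw [pull_tr_ofSing]
  -- the sum over z
  have hB : Finsupp.linearCombination ℤ (fun σ : Sing M n => bu_H K D n σ (ofSing c _))
      (sbd ℤ z) = 0 := by
    rw [hz, map_zero]
  have hB2 : z.sum (fun τ a => (a : ℝ) * D (n + 1) τ (ofSing c _)) = 0 := by
    rw [← hB]
    rw [sbd, Finsupp.linearCombination_apply (R := ℤ) (v := fun σ : Sing M (n + 1) => _) z]
    rw [Finsupp.sum, Finsupp.sum, map_sum]
    refine Finset.sum_congr rfl fun τ hτ => ?_
    rw [htop τ (hsupp τ hτ), map_smul, map_sum]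
    rw [zsmul_eq_mul]
    congr 1
    refine Finset.sum_congr rfl fun i _ => ?_
    rw [map_smul, Finsupp.linearCombination_single, one_smul, zsmul_eq_mul]
    push_cast
    rfl
  have hB3 : z.sum (fun τ a => (a : ℝ) * E'.F (n + 1) τ (ofSing c _)) -
      z.sum (fun τ a => (a : ℝ) * E.F (n + 1) τ (ofSing c _)) = 0 := by
    rw [← hB2, Finsupp.sum, Finsupp.sum, Finsupp.sum, ← Finset.sum_sub_distrib]
    refine Finset.sum_congr rfl fun τ _ => ?_
    show _ = _ * ((E'.F (n + 1) τ - E.F (n + 1) τ) _)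
    rw [LinearMap.sub_apply]
    ring
  exact (sub_eq_zero.1 hB3).symm

end SimpVol
end
end

section

/-!
# MP_fa46d7_gt: the killing set (A4a)
-/

set_option autoImplicit false

open scoped Topology ENNReal NNReal ContDiff Manifold
open MeasureTheory

noncomputable section

namespace SimpVol

/-- the identity embedding -/
private def ak_id (m : ℕ) : Fin (m + 1) ↪o Fin (m + 1) :=
  (OrderIso.refl (Fin (m + 1))).toOrderEmbedding

private theorem ak_le {a b : ℕ} (θ : Fin (a + 1) ↪o Fin (b + 1)) : a ≤ b := by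
  have := Fintype.card_le_of_injective θ θ.injective
  simpa using this

private theorem ak_eq_id {a : ℕ} (θ : Fin (a + 1) ↪o Fin (a + 1)) : θ = ak_id a := by
  apply OrderEmbedding.range_inj.1
  rw [Set.range_eq_univ.2 (Finite.surjective_of_injective θ.injective),
    Set.range_eq_univ.2 (Finite.surjective_of_injective (ak_id a).injective)]

private theorem ak_id_trans {a b : ℕ} (θ : Fin (a + 1) ↪o Fin (b + 1)) :
    (ak_id a).trans θ = θ := by
  ext x
  rfl

private theorem ak_trans_id {a b : ℕ} (θ : Fin (a + 1) ↪o Fin (b + 1)) :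
    θ.trans (ak_id b) = θ := by
  ext x
  rfl

private theorem ak_del_inj {m : ℕ} {l l' : Fin (m + 2)}
    (h : (del l : Fin (m + 1) ↪o Fin (m + 2)) = del l') : l = l' := by
  apply Fin.succAbove_left_injective
  funext x
  exact congrArg (fun e : Fin (m + 1) ↪o Fin (m + 2) => e x) h

private theorem ak_is_del {a : ℕ} (θ : Fin (a + 1) ↪o Fin (a + 2)) : ∃ l, θ = del l := by
  obtain ⟨l, η, h⟩ := face_factor (Nat.lt_succ_self a) θ
  refine ⟨l, ?_⟩
  rw [h, ak_eq_id η, ak_id_trans]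

/-- the index of a codimension one face -/
private def ak_idx {a : ℕ} (θ : Fin (a + 1) ↪o Fin (a + 2)) : Fin (a + 2) := (ak_is_del θ).choose

private theorem ak_idx_del {a : ℕ} (l : Fin (a + 2)) :
    ak_idx (del l : Fin (a + 1) ↪o Fin (a + 2)) = l :=
  (ak_del_inj (ak_is_del (del l)).choose_spec).symm

private theorem ak_sign_solve {G : Type} [AddCommGroup G] {n : ℕ} (i : Fin n) (c : Fin n → G) :
    ∃ v : G, ∑ l : Fin n, (-1 : ℤ) ^ (l : ℕ) • (if l = i then v else c l) = 0 := by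
  refine ⟨-((-1 : ℤ) ^ (i : ℕ) • ∑ l ∈ Finset.univ.erase i, (-1 : ℤ) ^ (l : ℕ) • c l), ?_⟩
  rw [← Finset.add_sum_erase _ _ (Finset.mem_univ i)]
  have h1 : ∑ l ∈ Finset.univ.erase i, (-1 : ℤ) ^ (l : ℕ) •
      (if l = i then -((-1 : ℤ) ^ (i : ℕ) • ∑ l ∈ Finset.univ.erase i,
        (-1 : ℤ) ^ (l : ℕ) • c l) else c l)
      = ∑ l ∈ Finset.univ.erase i, (-1 : ℤ) ^ (l : ℕ) • c l := by
    refine Finset.sum_congr rfl fun l hl => ?_
    rw [if_neg (Finset.ne_of_mem_erase hl)]
  rw [h1, if_pos rfl, smul_neg, smul_smul, ← mul_pow]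
  simp

/-- the missing value of a cochain which vanishes on all other faces and is a cocycle -/
private theorem ak_last {G : Type} [AddCommGroup G] {n : ℕ} (i : Fin n) (c : Fin n → G)
    (h : ∑ l : Fin n, (-1 : ℤ) ^ (l : ℕ) • c l = 0) (hc : ∀ l, l ≠ i → c l = 0) : c i = 0 := by
  rw [Finset.sum_eq_single i (fun l _ hl => by rw [hc l hl, smul_zero])
    (fun hi => absurd (Finset.mem_univ i) hi)] at h
  have h2 : (-1 : ℤ) ^ (i : ℕ) • ((-1 : ℤ) ^ (i : ℕ) • c i) = 0 := by rw [h, smul_zero]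
  rw [smul_smul, ← mul_pow] at h2
  simpa using h2

private theorem ak_scd_sub {G : Type} [AddCommGroup G] {j m : ℕ} (a b : SC G j m) :
    scd (a - b) = scd a - scd b := by
  funext θ
  simp only [scd, Pi.sub_apply, smul_sub, Finset.sum_sub_distrib]

/-- the compatibility of second components -/
private theorem ak_compat {X : DSet} {k : ℕ} (P : PiData X (k + 1)) {m : ℕ} {i : Fin (m + 2)}
    {x : Fin (m + 2) → (killSet P).obj m}
    (hx : ∀ l l', l ≠ i → l' ≠ i → ∀ (p : ℕ) (θ θ' : Fin (p + 1) ↪o Fin (m + 1)),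
      θ.trans (del l) = θ'.trans (del l') →
        (killSet P).face θ (x l) = (killSet P).face θ' (x l'))
    {l l' : Fin (m + 2)} (hl : l ≠ i) (hl' : l' ≠ i) (η η' : Fin (k + 1) ↪o Fin (m + 1))
    (h : η.trans (del l) = η'.trans (del l')) : (x l).1.2 η = (x l').1.2 η' := by
  have h1 := hx l l' hl hl' k η η' h
  have h2 := congrArg (fun y : (killSet P).obj k => y.1.2 (ak_id k)) h1
  exact h2

/-- the equation on faces -/
private theorem ak_face_eq {X : DSet} {k : ℕ} (P : PiData X (k + 1)) {m : ℕ} {i : Fin (m + 2)}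
    {x : Fin (m + 2) → (killSet P).obj m} {τ : X.obj (m + 1)}
    (hτ : ∀ l, l ≠ i → X.d l τ = (x l).1.1) {A : SC P.π k (m + 1)}
    (hA : ∀ l, l ≠ i → ∀ η : Fin (k + 1) ↪o Fin (m + 1), A (η.trans (del l)) = (x l).1.2 η)
    {l : Fin (m + 2)} (hl : l ≠ i) (η : Fin (k + 1 + 1) ↪o Fin (m + 1)) :
    scd A (η.trans (del l)) = P.u τ (η.trans (del l)) := by
  have h1 : scd A (η.trans (del l)) = scd (x l).1.2 η := by
    simp only [scd]
    refine Finset.sum_congr rfl fun j _ => ?_
    rw [← hA l hl]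
    rfl
  have h2 : scd (x l).1.2 η = P.u (x l).1.1 η := congrFun (x l).2 η
  rw [h1, h2, ← hτ l hl]
  simp only [PiData.u, DSet.d]
  rw [X.face_comp]

private theorem ak_cochain (X : DSet) (k : ℕ)
    (ht : X.TrivBelow (k + 1)) (P : PiData X (k + 1)) (m : ℕ) (i : Fin (m + 2))
    (x : Fin (m + 2) → (killSet P).obj m)
    (hx : ∀ l l', l ≠ i → l' ≠ i → ∀ (p : ℕ) (θ θ' : Fin (p + 1) ↪o Fin (m + 1)),
      θ.trans (del l) = θ'.trans (del l') →
        (killSet P).face θ (x l) = (killSet P).face θ' (x l'))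
    (τ : X.obj (m + 1)) (hτ : ∀ l, l ≠ i → X.d l τ = (x l).1.1)
    (hb : m ≤ k → τ = X.base (m + 1)) :
    ∃ A : SC P.π k (m + 1),
      (∀ l, l ≠ i → ∀ η : Fin (k + 1) ↪o Fin (m + 1), A (η.trans (del l)) = (x l).1.2 η) ∧
      scd A = P.u τ := by
  rcases lt_trichotomy m k with hmk | hmk | hmk
  · refine ⟨0, fun l _ η => ?_, ?_⟩
    · have := ak_le η
      omega
    · funext θ
      have := ak_le θ
      omega
  · subst hmk
    obtain ⟨v, hv⟩ := ak_sign_solve i (fun l => (x l).1.2 (ak_id m))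
    refine ⟨fun θ => if ak_idx θ = i then v else (x (ak_idx θ)).1.2 (ak_id m), ?_, ?_⟩
    · intro l hl η
      rw [ak_eq_id η, ak_id_trans]
      beta_reduce
      rw [ak_idx_del, if_neg hl]
    · funext θ
      rw [ak_eq_id θ, hb le_rfl]
      simp only [scd, PiData.u, X.face_base, P.q_base, ak_trans_id, ak_idx_del]
      exact hv
  · have hf : ∀ θ : Fin (k + 1) ↪o Fin (m + 2), ∃ (l : Fin (m + 2))
        (η : Fin (k + 1) ↪o Fin (m + 1)), l ≠ i ∧ θ = η.trans (del l) :=
      fun θ => face_factor_ne hmk θ i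
    choose L E hLi hE using hf
    have hA : ∀ l, l ≠ i → ∀ η : Fin (k + 1) ↪o Fin (m + 1),
        (fun θ => (x (L θ)).1.2 (E θ) : SC P.π k (m + 1)) (η.trans (del l)) = (x l).1.2 η := by
      intro l hl η
      exact ak_compat P hx (hLi _) hl _ _ (hE (η.trans (del l))).symm
    refine ⟨fun θ => (x (L θ)).1.2 (E θ), hA, ?_⟩
    rcases Nat.lt_or_ge (k + 1) m with hm | hm
    · funext θ
      obtain ⟨l, η, hl, hθ⟩ := face_factor_ne hm θ i
      rw [hθ]
      exact ak_face_eq P hτ hA hl η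
    · have hm' : m = k + 1 := by omega
      subst hm'
      set A : SC P.π k (k + 1 + 1) := fun θ => (x (L θ)).1.2 (E θ) with hAdef
      have hc : scd (scd A - P.u τ) = 0 := by
        rw [ak_scd_sub, scd_scd, u_cocycle, sub_zero]
      have h0 := congrFun hc (ak_id (k + 1 + 1))
      simp only [scd, ak_trans_id, Pi.zero_apply] at h0
      have hz : ∀ l : Fin (k + 1 + 2), l ≠ i → (scd A - P.u τ) (del l) = 0 := by
        intro l hl
        have h3 := ak_face_eq P hτ hA hl (ak_id (k + 1))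
        rw [ak_id_trans] at h3
        rw [Pi.sub_apply, h3, sub_self]
      have hi := ak_last i (fun l => (scd A - P.u τ) (del l)) h0 hz
      funext θ
      obtain ⟨l, rfl⟩ := ak_is_del θ
      by_cases hl : l = i
      · subst hl
        exact sub_eq_zero.1 hi
      · exact sub_eq_zero.1 (hz l hl)

private theorem ak_kan (X : DSet) (k : ℕ) (hX : X.IsKan)
    (ht : X.TrivBelow (k + 1)) (P : PiData X (k + 1)) : (killSet P).IsKan := by
  intro m i x hx
  have hτ : ∃ τ : X.obj (m + 1), (∀ l, l ≠ i → X.d l τ = (x l).1.1) ∧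
      (m ≤ k → τ = X.base (m + 1)) := by
    rcases Nat.lt_or_ge m (k + 1) with hm | hm
    · refine ⟨X.base (m + 1), fun l _ => ?_, fun _ => rfl⟩
      rw [ht m hm (x l).1.1]
      exact X.face_base _
    · obtain ⟨τ, hτ⟩ := hX m i (fun l => (x l).1.1) (by
        intro l l' hl hl' p θ θ' h
        exact congrArg (fun y : (killSet P).obj p => y.1.1) (hx l l' hl hl' p θ θ' h))
      exact ⟨τ, hτ, fun h => absurd h (by omega)⟩
  obtain ⟨τ, hτ, hb⟩ := hτ
  obtain ⟨A, hA, hs⟩ := ak_cochain X k ht P m i x hx τ hτ hb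
  refine ⟨⟨(τ, A), hs⟩, fun l hl => ?_⟩
  apply Subtype.ext
  apply Prod.ext
  · exact hτ l hl
  · funext η
    exact hA l hl η

private theorem ak_triv (X : DSet) (k : ℕ)
    (ht : X.TrivBelow (k + 1)) (P : PiData X (k + 1)) : (killSet P).TrivBelow k := by
  intro j hj x
  apply Subtype.ext
  apply Prod.ext
  · exact ht j (by omega) _
  · funext θ
    have := ak_le θ
    omega

private theorem ak_fill (X : DSet) (k : ℕ)
    (ht : X.TrivBelow (k + 1)) (P : PiData X (k + 1)) : (killSet P).Fill k := by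
  intro F i
  obtain ⟨y, hy⟩ := P.surj ((-1 : ℤ) ^ (i : ℕ) • F.1.2 (ak_id k))
  have hs : scd (fun θ => if ak_idx θ = i then F.1.2 (ak_id k) else 0 : SC P.π k (k + 1))
      = P.u y := by
    funext θ
    rw [ak_eq_id θ]
    simp only [scd, PiData.u, ak_trans_id, ak_idx_del]
    have h1 : X.face (ak_id (k + 1)) y = y := X.face_id y
    rw [h1, hy, Finset.sum_eq_single i]
    · rw [if_pos rfl]
    · intro l _ hl
      rw [if_neg hl, smul_zero]
    · intro h
      exact absurd (Finset.mem_univ i) h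
  refine ⟨⟨(y, fun θ => if ak_idx θ = i then F.1.2 (ak_id k) else 0), hs⟩, ?_, ?_⟩
  · apply Subtype.ext
    apply Prod.ext
    · show X.face (del i) y = F.1.1
      rw [ht k (Nat.lt_succ_self k) (X.face (del i) y), ht k (Nat.lt_succ_self k) F.1.1]
    · funext η
      show (if ak_idx (η.trans (del i)) = i then F.1.2 (ak_id k) else 0) = F.1.2 η
      rw [ak_eq_id η, ak_id_trans, ak_idx_del, if_pos rfl]
  · intro l hl
    apply Subtype.ext
    apply Prod.ext
    · exact ht k (Nat.lt_succ_self k) _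
    · funext η
      show (if ak_idx (η.trans (del l)) = i then F.1.2 (ak_id k) else 0) = 0
      rw [ak_eq_id η, ak_id_trans, ak_idx_del, if_neg hl]

/-- (A4a) -/
theorem killSet_props (X : DSet) (k : ℕ) (hk : 1 ≤ k) (hX : X.IsKan)
    (ht : X.TrivBelow (k + 1)) (P : PiData X (k + 1)) :
    (killSet P).IsKan ∧ (killSet P).TrivBelow k ∧ (killSet P).Fill k :=
  ⟨ak_kan X k hX ht P, ak_triv X k ht P, ak_fill X k ht P⟩

end SimpVol
end
end

section

/-!
# MP_fa46d7_gt: the local step (H2)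
-/

set_option autoImplicit false

open scoped Topology ENNReal NNReal ContDiff Manifold
open MeasureTheory

noncomputable section

namespace SimpVol

section Heart

variable {I : Type} [LinearOrder I] [Fintype I] {X : Type} [PseudoMetricSpace X] [Nonempty X]

/-- the elements of the `j`-th set of a tower have `j + 1` elements -/
private theorem hl_card {pt : I → X} {w : Finset I → ℕ} {ρ : ℝ} (T : Tower pt w ρ) {j : ℕ}
    {S : Finset I} (hS : S ∈ T.A j) : S.card = j + 1 := by
  cases j with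
  | zero =>
    rw [T.zero] at hS
    exact hS
  | succ j =>
    rw [T.succ] at hS
    exact hS.1

/-- positions of two faces are close -/
private theorem hl_close {pt : I → X} {w : Finset I → ℕ} {n : ℕ} {ε : ℝ} (hw : IsWeight pt w n ε)
    {S' F G : Finset I} (hS' : mass w S' ≠ 0) (hF : F ⊆ S') (hG : G ⊆ S') (hFn : F.Nonempty)
    (hGn : G.Nonempty) : dist (pos pt F) (pos pt G) ≤ ε := by
  obtain ⟨a, ha, hpa⟩ := pos_mem pt hFn
  obtain ⟨b, hb, hpb⟩ := pos_mem pt hGn
  rw [hpa, hpb]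
  exact (mass_diam hw hS').2 a (hF ha) b (hG hb)

open Classical in
/-- the one-ball carving -/
private def hl_carv (x : X) (t : ℝ) (x' : X) : Option X := if dist x' x < t then some x else none

omit [Nonempty X] in
private theorem hl_carv_isCarv {ρ : ℝ} (x : X) {t : ℝ} (ht : t ≤ ρ) : IsCarv ρ (hl_carv x t) := by
  intro x' y h
  unfold hl_carv at h
  split_ifs at h with hd
  · rw [Option.some.injEq] at h
    rw [← h]
    exact hd.le.trans ht

omit [Fintype I] in
/-- mixed sets have a face inside and a face outside -/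
private theorem hl_mixed {pt : I → X} {A : Set (Finset I)} {x : X} {t : ℝ} {S' : Finset I}
    (h : Mixed pt A (hl_carv x t) S') :
    ∃ a ∈ S', ∃ b ∈ S', S'.erase a ∈ A ∧ S'.erase b ∈ A ∧
      dist (pos pt (S'.erase a)) x < t ∧ t ≤ dist (pos pt (S'.erase b)) x := by
  obtain ⟨a, ha, b, hb, hA, hB, hne⟩ := h
  unfold hl_carv at hne
  by_cases h1 : dist (pos pt (S'.erase a)) x < t
  · by_cases h2 : dist (pos pt (S'.erase b)) x < t
    · rw [if_pos h1, if_pos h2] at hne
      exact absurd rfl hne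
    · exact ⟨a, ha, b, hb, hA, hB, h1, not_lt.mp h2⟩
  · by_cases h2 : dist (pos pt (S'.erase b)) x < t
    · exact ⟨b, hb, a, ha, hB, hA, h2, not_lt.mp h1⟩
    · rw [if_neg h1, if_neg h2] at hne
      exact absurd rfl hne

/-- (H2) -/
theorem local_step {pt : I → X} {w : Finset I → ℕ} {ρ ε : ℝ} {n : ℕ} (T : Tower pt w ρ)
    (hw : IsWeight pt w n ε) (hε : 0 < ε) {j : ℕ} (hj : j < n) (x : X) (a : ℝ) (K : ℕ)
    (hK : a + K * ε ≤ ρ) :
    K * ballMass pt w (T.A (j + 1)) x (a - ε) ≤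
      (n - j) * ballMass pt w (T.A j) x (a + K * ε) := by
  classical
  set t : ℕ → ℝ := fun k => a + k * ε with ht
  have htK : ∀ k, k < K → t k ≤ a + K * ε := by
    intro k hk
    have : (k : ℝ) ≤ K := by exact_mod_cast hk.le
    simp only [ht]
    nlinarith
  have hcarv : ∀ k, k < K → IsCarv ρ (hl_carv x (t k)) := fun k hk =>
    hl_carv_isCarv x ((htK k hk).trans hK)
  -- nonempty faces
  have hface : ∀ S' : Finset I, S'.card = j + 2 → ∀ b ∈ S', (S'.erase b).Nonempty := by
    intro S' hS' b hb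
    rw [← Finset.card_pos, Finset.card_erase_of_mem hb]
    omega
  -- lower bound
  have hlow : ∀ k, k < K → ballMass pt w (T.A (j + 1)) x (a - ε) ≤
      wsum w {S' | S'.card = j + 2} (Mixed pt (T.A j) (hl_carv x (t k))) := by
    intro k hk
    refine le_trans ?_ (competitor T j (hcarv k hk))
    unfold ballMass wsum
    rw [Finset.sum_filter, Finset.sum_filter]
    refine Finset.sum_le_sum fun S' _ => ?_
    by_cases hm : mass w S' = 0
    · rw [hm]
      split_ifs <;> exact le_rfl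
    by_cases h1 : S' ∈ T.A (j + 1) ∧ dist (pos pt S') x < a - ε
    · have hcard : S'.card = j + 2 := hl_card T h1.1
      have hgood : Good pt (T.A j) (hl_carv x (t k)) S' := by
        have h2 := h1.1
        rw [T.succ] at h2
        obtain ⟨_, b, hb, _, _, hbA, _⟩ := h2
        refine ⟨⟨b, hb, hbA⟩, x, fun c hc _ => ?_⟩
        unfold hl_carv
        rw [if_pos]
        have h3 := hl_close (pt := pt) hw hm (Finset.erase_subset c S') (Finset.Subset.refl S')
          (hface S' hcard c hc) ⟨b, hb⟩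
        have h4 := dist_triangle (pos pt (S'.erase c)) (pos pt S') x
        have h5 : a ≤ t k := by
          simp only [ht]
          have : (0 : ℝ) ≤ k := Nat.cast_nonneg k
          nlinarith
        linarith [h1.2]
      rw [if_pos h1, if_pos ⟨h1.1, hgood⟩]
    · rw [if_neg h1]
      exact Nat.zero_le _
  have hsum1 : K * ballMass pt w (T.A (j + 1)) x (a - ε) ≤
      ∑ k ∈ Finset.range K, wsum w {S' | S'.card = j + 2}
        (Mixed pt (T.A j) (hl_carv x (t k))) := by
    calc K * ballMass pt w (T.A (j + 1)) x (a - ε) =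
        ∑ k ∈ Finset.range K, ballMass pt w (T.A (j + 1)) x (a - ε) := by
          rw [Finset.sum_const, Finset.card_range, smul_eq_mul]
      _ ≤ _ := Finset.sum_le_sum fun k hk => hlow k (Finset.mem_range.mp hk)
  refine hsum1.trans ?_
  -- exchange the sums
  have hex : ∑ k ∈ Finset.range K, wsum w {S' | S'.card = j + 2}
        (Mixed pt (T.A j) (hl_carv x (t k))) =
      ∑ S' : Finset I, ∑ k ∈ Finset.range K,
        (if S'.card = j + 2 ∧ Mixed pt (T.A j) (hl_carv x (t k)) S' then mass w S' else 0) := by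
    rw [Finset.sum_comm]
    refine Finset.sum_congr rfl fun k _ => ?_
    unfold wsum
    rw [Finset.sum_filter]
    refine Finset.sum_congr rfl fun S' _ => ?_
    by_cases h : S'.card = j + 2 ∧ Mixed pt (T.A j) (hl_carv x (t k)) S'
    · rw [if_pos h]
      exact if_pos h
    · rw [if_neg h]
      exact if_neg h
  rw [hex]
  -- the bound for one set
  have hone : ∀ S' : Finset I, ∑ k ∈ Finset.range K,
        (if S'.card = j + 2 ∧ Mixed pt (T.A j) (hl_carv x (t k)) S' then mass w S' else 0) ≤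
      ∑ S : Finset I, (if (S ∈ T.A j ∧ dist (pos pt S) x < a + K * ε) ∧
        (S ⊆ S' ∧ S'.card = j + 2) then mass w S' else 0) := by
    intro S'
    by_cases hm : mass w S' = 0
    · rw [hm]
      simp
    by_cases hc : S'.card = j + 2
    · by_cases hex2 : ∃ k ∈ Finset.range K, Mixed pt (T.A j) (hl_carv x (t k)) S'
      · obtain ⟨k, hk, hmix⟩ := hex2
        rw [Finset.mem_range] at hk
        have huniq : ∀ k₁ k₂, k₁ < k₂ → Mixed pt (T.A j) (hl_carv x (t k₁)) S' →
            ¬ Mixed pt (T.A j) (hl_carv x (t k₂)) S' := by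
          intro k₁ k₂ h12 hm1 hm2
          obtain ⟨b₁, hb₁, _, _, _, _, h3, _⟩ := hl_mixed hm1
          obtain ⟨_, _, b₂, hb₂, _, _, _, h4⟩ := hl_mixed hm2
          have h5 := hl_close (pt := pt) hw hm (Finset.erase_subset b₂ S')
            (Finset.erase_subset b₁ S') (hface S' hc b₂ hb₂) (hface S' hc b₁ hb₁)
          have h6 := dist_triangle (pos pt (S'.erase b₂)) (pos pt (S'.erase b₁)) x
          have h7 : t k₁ + ε ≤ t k₂ := by
            simp only [ht]
            have : (k₁ : ℝ) + 1 ≤ k₂ := by exact_mod_cast h12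
            nlinarith
          linarith
        have hle : ∑ k ∈ Finset.range K,
            (if S'.card = j + 2 ∧ Mixed pt (T.A j) (hl_carv x (t k)) S' then mass w S' else 0) ≤
            mass w S' := by
          rw [Finset.sum_eq_single k]
          · split_ifs
            · exact le_rfl
            · exact Nat.zero_le _
          · intro k' _ hne
            rw [if_neg]
            rintro ⟨_, hmix'⟩
            rcases lt_or_gt_of_ne hne with h | h
            · exact huniq k' k h hmix' hmix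
            · exact huniq k k' h hmix hmix'
          · intro hk'
            exact absurd (Finset.mem_range.mpr hk) hk'
        obtain ⟨b₁, hb₁, _, _, hA, _, h3, _⟩ := hl_mixed hmix
        have h8 : (if (S'.erase b₁ ∈ T.A j ∧ dist (pos pt (S'.erase b₁)) x < a + K * ε) ∧
            (S'.erase b₁ ⊆ S' ∧ S'.card = j + 2) then mass w S' else 0) = mass w S' :=
          if_pos ⟨⟨hA, lt_of_lt_of_le h3 (htK k hk)⟩, Finset.erase_subset _ _, hc⟩
        refine hle.trans (le_of_eq_of_le h8.symm ?_)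
        exact Finset.single_le_sum (f := fun S : Finset I =>
          (if (S ∈ T.A j ∧ dist (pos pt S) x < a + K * ε) ∧
            (S ⊆ S' ∧ S'.card = j + 2) then mass w S' else 0))
          (fun _ _ => Nat.zero_le _) (Finset.mem_univ (S'.erase b₁))
      · have hz : ∑ k ∈ Finset.range K,
            (if S'.card = j + 2 ∧ Mixed pt (T.A j) (hl_carv x (t k)) S' then mass w S' else 0) =
            0 := by
          refine Finset.sum_eq_zero fun k hk => ?_
          rw [if_neg]
          rintro ⟨_, hmix⟩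
          exact hex2 ⟨k, hk, hmix⟩
        rw [hz]
        exact Nat.zero_le _
    · have hz : ∑ k ∈ Finset.range K,
          (if S'.card = j + 2 ∧ Mixed pt (T.A j) (hl_carv x (t k)) S' then mass w S' else 0) =
          0 := by
        refine Finset.sum_eq_zero fun k _ => ?_
        rw [if_neg]
        rintro ⟨h, _⟩
        exact hc h
      rw [hz]
      exact Nat.zero_le _
  refine (Finset.sum_le_sum fun S' _ => hone S').trans ?_
  rw [Finset.sum_comm]
  have hfin : ∀ S : Finset I, ∑ S' : Finset I,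
      (if (S ∈ T.A j ∧ dist (pos pt S) x < a + K * ε) ∧
        (S ⊆ S' ∧ S'.card = j + 2) then mass w S' else 0) =
      if S ∈ T.A j ∧ dist (pos pt S) x < a + K * ε then (n - j) * mass w S else 0 := by
    intro S
    by_cases h : S ∈ T.A j ∧ dist (pos pt S) x < a + K * ε
    · rw [if_pos h, ← sum_mass_succ hw (hl_card T h.1) (by omega), Finset.sum_filter]
      refine Finset.sum_congr rfl fun S' _ => ?_
      simp only [h, true_and]
    · rw [if_neg h]
      refine Finset.sum_eq_zero fun S' _ => ?_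
      rw [if_neg]
      rintro ⟨h', _⟩
      exact h h'
  rw [Finset.sum_congr rfl fun S _ => hfin S]
  unfold ballMass wsum
  rw [Finset.mul_sum, Finset.sum_filter]

end Heart

end SimpVol
end
end
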