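import Pool.Agent.Lib.MP_fa46d7_gt.Defs
import Pool.Agent.Lib.MP_fa46d7_gt.APi

section

/-!
# MP_fa46d7_gt: geometric weights, boxes, carvings
-/

set_option autoImplicit false

open scoped Topology ENNReal NNReal ContDiff Manifold
open MeasureTheory

noncomputable section

namespace SimpVol

theorem hp_pow_lt {θ : ℝ} (h0 : 0 < θ) (h1 : θ < 1) {K : ℕ} (hK : 1 ≤ K) : θ ^ K < 1 :=
  pow_lt_one₀ h0.le h1 (by omega)

theorem gw_sum {θ : ℝ} (h0 : 0 < θ) (h1 : θ < 1) {K : ℕ} (hK : 1 ≤ K) :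
    (∀ k : ℕ, 0 ≤ gw θ K k) ∧ ∑ k : Fin K, gw θ K k = 1 := by
  have hp := hp_pow_lt h0 h1 hK
  have hpos : 0 < 1 - θ ^ K := by linarith
  constructor
  · intro k
    unfold gw
    exact div_nonneg (mul_nonneg (by linarith) (pow_nonneg h0.le _)) hpos.le
  · rw [Fin.sum_univ_eq_sum_range (fun k => gw θ K k) K]
    unfold gw
    rw [← Finset.sum_div, ← Finset.mul_sum, geom_sum_eq h1.ne, div_eq_one_iff_eq hpos.ne']
    have : θ - 1 ≠ 0 := by linarith
    field_simp
    ring

/-- Probability of a box. -/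
theorem prob_box {N K : ℕ} (θ : ℝ) (B : Fin N → Finset (Fin K)) :
    prob (N := N) θ K (fun k => ∀ y, k y ∈ B y) = ∏ y, ∑ i ∈ B y, gw θ K i := by
  classical
  unfold prob cw
  rw [Finset.prod_univ_sum]
  refine Finset.sum_congr ?_ fun k _ => rfl
  ext k
  simp [Fintype.mem_piFinset]

theorem carve_isCarv {X : Type} [PseudoMetricSpace X] {N K : ℕ} (ctr : Fin N → X) {ε : ℝ}
    (hε : 0 < ε) (k : Fin N → Fin K) {ρ : ℝ} (h : K * ε ≤ ρ) : IsCarv ρ (carve ctr ε k) := by
  classical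
  intro x y hxy
  unfold carve at hxy
  split_ifs at hxy with hne
  · have hmem := Finset.min'_mem _ hne
    rw [Finset.mem_filter] at hmem
    have hy := Option.some_injective _ hxy
    rw [← hy]
    refine hmem.2.trans (le_trans ?_ h)
    refine mul_le_mul_of_nonneg_right ?_ hε.le
    exact_mod_cast (k _).2.le

/-- Total mass of the random radii. -/
theorem hp_cw_sum {θ : ℝ} (h0 : 0 < θ) (h1 : θ < 1) {K : ℕ} (hK : 1 ≤ K) (N : ℕ) :
    ∑ k : Fin N → Fin K, cw θ K k = 1 := by
  classical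
  have h := prob_box (N := N) (K := K) θ (fun _ => Finset.univ)
  rw [(Finset.prod_eq_one fun y _ => (gw_sum h0 h1 hK).2 :
    ∏ y : Fin N, ∑ i ∈ (Finset.univ : Finset (Fin K)), gw θ K i = 1)] at h
  rw [← h]
  unfold prob
  refine Finset.sum_congr ?_ fun k _ => rfl
  ext k
  simp

theorem hp_cw_nonneg {θ : ℝ} (h0 : 0 < θ) (h1 : θ < 1) {K : ℕ} (hK : 1 ≤ K) {N : ℕ}
    (k : Fin N → Fin K) : 0 ≤ cw θ K k :=
  Finset.prod_nonneg fun _ _ => (gw_sum h0 h1 hK).1 _

theorem hp_prob_nonneg {θ : ℝ} (h0 : 0 < θ) (h1 : θ < 1) {K : ℕ} (hK : 1 ≤ K) {N : ℕ}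
    (E : (Fin N → Fin K) → Prop) : 0 ≤ prob θ K E :=
  Finset.sum_nonneg fun k _ => hp_cw_nonneg h0 h1 hK k

theorem hp_prob_mono {θ : ℝ} (h0 : 0 < θ) (h1 : θ < 1) {K : ℕ} (hK : 1 ≤ K) {N : ℕ}
    {E F : (Fin N → Fin K) → Prop} (h : ∀ k, E k → F k) : prob θ K E ≤ prob θ K F := by
  classical
  unfold prob
  refine Finset.sum_le_sum_of_subset_of_nonneg ?_ fun k _ _ => hp_cw_nonneg h0 h1 hK k
  intro k hk
  rw [Finset.mem_filter] at hk ⊢
  exact ⟨hk.1, h k hk.2⟩

theorem hp_prob_add_not {θ : ℝ} (h0 : 0 < θ) (h1 : θ < 1) {K : ℕ} (hK : 1 ≤ K) {N : ℕ}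
    (E : (Fin N → Fin K) → Prop) : prob θ K E + prob θ K (fun k => ¬ E k) = 1 := by
  classical
  rw [← hp_cw_sum h0 h1 hK N]
  unfold prob
  convert! Finset.sum_filter_add_sum_filter_not Finset.univ E (fun k => cw θ K k)

theorem hp_prob_le_one {θ : ℝ} (h0 : 0 < θ) (h1 : θ < 1) {K : ℕ} (hK : 1 ≤ K) {N : ℕ}
    (E : (Fin N → Fin K) → Prop) : prob θ K E ≤ 1 := by
  have h2 := hp_prob_add_not h0 h1 hK E
  have h3 := hp_prob_nonneg h0 h1 hK (fun k => ¬ E k)
  linarith

theorem hp_prob_or_le {θ : ℝ} (h0 : 0 < θ) (h1 : θ < 1) {K : ℕ} (hK : 1 ≤ K) {N : ℕ}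
    (E F : (Fin N → Fin K) → Prop) :
    prob θ K (fun k => E k ∨ F k) ≤ prob θ K E + prob θ K F := by
  classical
  unfold prob
  rw [Finset.sum_filter, Finset.sum_filter, Finset.sum_filter, ← Finset.sum_add_distrib]
  refine Finset.sum_le_sum fun k _ => ?_
  have hk := hp_cw_nonneg h0 h1 hK k
  by_cases h2 : E k <;> by_cases h3 : F k <;> simp [h2, h3, hk]

end SimpVol
end
end

section

/-!
# MP_fa46d7_gt: SV-07, upper bound for the probability of being mixed
-/

set_option autoImplicit false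

open scoped Topology ENNReal NNReal
open MeasureTheory

noncomputable section

namespace SimpVol

section Carving

lemma hx_geom (θ : ℝ) (κ K : ℕ) (h : κ ≤ K) :
    (1 - θ) * ∑ k ∈ Finset.range K, (if κ ≤ k then θ ^ k else 0) = θ ^ κ - θ ^ K := by
  induction K, h using Nat.le_induction with
  | base =>
    rw [Finset.sum_eq_zero]
    · simp
    · intro k hk
      rw [if_neg (by rw [Finset.mem_range] at hk; omega)]
  | succ n hn ih =>
    rw [Finset.sum_range_succ, mul_add, ih, if_pos hn, pow_succ]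
    ring

lemma hx_tail (θ : ℝ) (κ K : ℕ) :
    ∑ i : Fin K, (if κ ≤ (i : ℕ) then gw θ K i else 0) =
      if κ ≤ K then (θ ^ κ - θ ^ K) / (1 - θ ^ K) else 0 := by
  rw [Fin.sum_univ_eq_sum_range (fun i : ℕ => if κ ≤ i then gw θ K i else 0) K]
  split_ifs with h
  · rw [← hx_geom θ κ K h, Finset.mul_sum, Finset.sum_div]
    apply Finset.sum_congr rfl
    intro k _
    unfold gw
    split_ifs
    · ring
    · simp
  · apply Finset.sum_eq_zero
    intro k hk
    rw [if_neg]
    rw [Finset.mem_range] at hk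
    omega

lemma hx_carve_none {X : Type} [PseudoMetricSpace X] {N K : ℕ} (ctr : Fin N → X) (ε : ℝ)
    (k : Fin N → Fin K) (a : X) (h : ∀ y, ¬ dist a (ctr y) ≤ (k y : ℕ) * ε) :
    carve ctr ε k a = none := by
  classical
  unfold carve
  rw [dif_neg]
  rintro ⟨y, hy⟩
  exact h y (Finset.mem_filter.1 hy).2

lemma hx_carve_first {X : Type} [PseudoMetricSpace X] {N K : ℕ} (ctr : Fin N → X) (ε : ℝ)
    (k : Fin N → Fin K) (a : X) (y : Fin N) (hy : dist a (ctr y) ≤ (k y : ℕ) * ε)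
    (h : ∀ y', y' < y → ¬ dist a (ctr y') ≤ (k y' : ℕ) * ε) :
    carve ctr ε k a = some (ctr y) := by
  classical
  unfold carve
  have hne : (Finset.univ.filter (fun y : Fin N => dist a (ctr y) ≤ (k y : ℕ) * ε)).Nonempty :=
    ⟨y, Finset.mem_filter.2 ⟨Finset.mem_univ _, hy⟩⟩
  rw [dif_pos hne]
  congr 2
  apply le_antisymm
  · exact Finset.min'_le _ y (Finset.mem_filter.2 ⟨Finset.mem_univ _, hy⟩)
  · apply Finset.le_min'
    intro y' hy'
    by_contra hc
    exact h y' (not_le.1 hc) (Finset.mem_filter.1 hy').2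

/-- the key indices -/
lemma hx_kappa {X : Type} [PseudoMetricSpace X] {N : ℕ} (ctr : Fin N → X) {ε : ℝ} (hε : 0 < ε)
    (F : Finset X) (hne : F.Nonempty) (hF : ∀ a ∈ F, ∀ b ∈ F, dist a b ≤ ε) :
    ∃ κ : Fin N → ℕ, (∀ y, ∀ a ∈ F, ∀ k : ℕ, dist a (ctr y) ≤ k * ε → κ y ≤ k) ∧
      ∀ y, ∀ a ∈ F, dist a (ctr y) ≤ κ y * ε + ε := by
  refine ⟨fun y => ⌈(F.inf' hne (fun a => dist a (ctr y))) / ε⌉₊, ?_, ?_⟩
  · intro y a ha k hk
    rw [Nat.ceil_le, div_le_iff₀ hε]
    exact (Finset.inf'_le _ ha).trans hk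
  · intro y a ha
    obtain ⟨b, hb, hb'⟩ := Finset.exists_mem_eq_inf' hne (fun a => dist a (ctr y))
    have h1 : (F.inf' hne (fun a => dist a (ctr y))) / ε ≤
        (⌈(F.inf' hne (fun a => dist a (ctr y))) / ε⌉₊ : ℝ) := Nat.le_ceil _
    rw [div_le_iff₀ hε, hb'] at h1
    beta_reduce
    rw [hb']
    have h2 := dist_triangle a b (ctr y)
    have h3 := hF a ha b hb
    linarith

/-- a mixed family gives an exceptional index -/
lemma hx_mixed {X : Type} [PseudoMetricSpace X] {N K : ℕ} (ctr : Fin N → X) {ε : ℝ}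
    (hε : 0 < ε) (k : Fin N → Fin K) (F : Finset X) (κ : Fin N → ℕ)
    (h1 : ∀ y, ∀ a ∈ F, ∀ k : ℕ, dist a (ctr y) ≤ k * ε → κ y ≤ k)
    (h2 : ∀ y, ∀ a ∈ F, dist a (ctr y) ≤ κ y * ε + ε)
    (hm : ∃ a ∈ F, ∃ b ∈ F, carve ctr ε k a ≠ carve ctr ε k b) :
    ∃ y, (∀ y', y' < y → (k y' : ℕ) < κ y') ∧ (k y : ℕ) = κ y := by
  classical
  obtain ⟨a, ha, b, hb, hab⟩ := hm
  by_cases hne : (Finset.univ.filter (fun y : Fin N => κ y ≤ (k y : ℕ))).Nonempty
  · obtain ⟨y, hmem, hmin⟩ : ∃ y, κ y ≤ (k y : ℕ) ∧ ∀ y', κ y' ≤ (k y' : ℕ) → y ≤ y' :=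
      ⟨_, (Finset.mem_filter.1 (Finset.min'_mem _ hne)).2,
        fun y' hy' => Finset.min'_le _ y' (Finset.mem_filter.2 ⟨Finset.mem_univ _, hy'⟩)⟩
    have hlt : ∀ y', y' < y → (k y' : ℕ) < κ y' := by
      intro y' hy'
      by_contra hc
      exact absurd hy' (not_lt.2 (hmin y' (not_lt.1 hc)))
    refine ⟨y, hlt, ?_⟩
    by_contra hne'
    have hge : κ y + 1 ≤ (k y : ℕ) := by omega
    have hall : ∀ c ∈ F, carve ctr ε k c = some (ctr y) := by
      intro c hc
      apply hx_carve_first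
      · refine (h2 y c hc).trans ?_
        have h3 : ((κ y + 1 : ℕ) : ℝ) ≤ ((k y : ℕ) : ℝ) := by exact_mod_cast hge
        have h4 := mul_le_mul_of_nonneg_right h3 hε.le
        push_cast at h4
        linarith
      · intro y' hy' hd
        exact absurd (h1 y' c hc _ hd) (not_le.2 (hlt y' hy'))
    exact hab ((hall a ha).trans (hall b hb).symm)
  · exfalso
    rw [Finset.not_nonempty_iff_eq_empty, Finset.filter_eq_empty_iff] at hne
    have hall : ∀ c ∈ F, carve ctr ε k c = none := by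
      intro c hc
      apply hx_carve_none
      intro y hd
      exact hne (Finset.mem_univ y) (h1 y c hc _ hd)
    exact hab ((hall a ha).trans (hall b hb).symm)

/-- union bound -/
lemma hx_union {N K : ℕ} {θ : ℝ} (hθ : ∀ k : ℕ, 0 ≤ gw θ K k) (E : (Fin N → Fin K) → Prop)
    (E' : Fin N → (Fin N → Fin K) → Prop) (h : ∀ k, E k → ∃ y, E' y k) :
    prob (N := N) θ K E ≤ ∑ y, prob (N := N) θ K (E' y) := by
  classical
  have hcw : ∀ k : Fin N → Fin K, 0 ≤ cw θ K k := fun k => Finset.prod_nonneg fun y _ => hθ _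
  unfold prob
  simp only [Finset.sum_filter]
  rw [Finset.sum_comm]
  apply Finset.sum_le_sum
  intro k _
  have h0 : ∀ y ∈ (Finset.univ : Finset (Fin N)), 0 ≤ (if E' y k then cw θ K k else 0) := by
    intro y _
    split_ifs
    · exact hcw k
    · exact le_refl _
  split_ifs with hE
  · obtain ⟨y, hy⟩ := h k hE
    calc cw θ K k = (if E' y k then cw θ K k else 0) := by rw [if_pos hy]
      _ ≤ _ := Finset.single_le_sum h0 (Finset.mem_univ y)
  · exact Finset.sum_nonneg h0

/-- probability of the exceptional index -/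
lemma hx_box {N K : ℕ} {θ : ℝ} (h0 : 0 < θ) (h1 : θ < 1) (hK : 1 ≤ K) (κ : Fin N → ℕ)
    (y : Fin N) :
    prob (N := N) θ K (fun k => (∀ y', y' < y → (k y' : ℕ) < κ y') ∧ (k y : ℕ) = κ y) =
      (∏ y' ∈ Finset.univ.filter (fun y' => y' < y),
        (1 - ∑ i : Fin K, (if κ y' ≤ (i : ℕ) then gw θ K i else 0))) *
      (if κ y < K then gw θ K (κ y) else 0) := by
  classical
  have hsum := (gw_sum h0 h1 hK).2
  have e1 : (fun k : Fin N → Fin K => (∀ y', y' < y → (k y' : ℕ) < κ y') ∧ (k y : ℕ) = κ y) =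
      fun k => ∀ y', k y' ∈ (Finset.univ.filter (fun i : Fin K =>
        (y' < y → (i : ℕ) < κ y') ∧ (y' = y → (i : ℕ) = κ y))) := by
    funext k
    apply propext
    constructor
    · intro h y'
      rw [Finset.mem_filter]
      exact ⟨Finset.mem_univ _, h.1 y', fun hy => by rw [hy]; exact h.2⟩
    · intro h
      exact ⟨fun y' hy' => (Finset.mem_filter.1 (h y')).2.1 hy',
        (Finset.mem_filter.1 (h y)).2.2 rfl⟩
  rw [e1, prob_box]
  have e2 : ∀ y' : Fin N, ∑ i ∈ Finset.univ.filter (fun i : Fin K =>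
        (y' < y → (i : ℕ) < κ y') ∧ (y' = y → (i : ℕ) = κ y)), gw θ K i =
      (if y' < y then (1 - ∑ i : Fin K, (if κ y' ≤ (i : ℕ) then gw θ K i else 0)) else 1) *
      (if y' = y then (if κ y < K then gw θ K (κ y) else 0) else 1) := by
    intro y'
    rcases lt_trichotomy y' y with h | h | h
    · rw [if_pos h, if_neg h.ne, mul_one, eq_sub_iff_add_eq, ← hsum, Finset.sum_filter,
        ← Finset.sum_add_distrib]
      apply Finset.sum_congr rfl
      intro i _
      by_cases hi : κ y' ≤ (i : ℕ)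
      · rw [if_neg, if_pos hi, zero_add]
        intro hc
        exact absurd (hc.1 h) (not_lt.2 hi)
      · rw [if_pos, if_neg hi, add_zero]
        exact ⟨fun _ => not_le.1 hi, fun hc => absurd hc h.ne⟩
    · subst h
      rw [if_neg (lt_irrefl _), if_pos rfl, one_mul]
      by_cases hκ : κ y' < K
      · rw [if_pos hκ, Finset.sum_eq_single (⟨κ y', hκ⟩ : Fin K)]
        · intro i hi hne
          exfalso
          apply hne
          apply Fin.ext
          exact (Finset.mem_filter.1 hi).2.2 rfl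
        · intro hc
          exfalso
          apply hc
          rw [Finset.mem_filter]
          exact ⟨Finset.mem_univ _, fun h => absurd h (lt_irrefl _), fun _ => rfl⟩
      · rw [if_neg hκ]
        apply Finset.sum_eq_zero
        intro i hi
        exfalso
        have := (Finset.mem_filter.1 hi).2.2 rfl
        have := i.isLt
        omega
    · rw [if_neg (not_lt.2 h.le), if_neg h.ne', one_mul, ← hsum]
      apply Finset.sum_congr
      · ext i
        simp only [Finset.mem_filter, Finset.mem_univ, true_and, iff_true]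
        exact ⟨fun hc => absurd hc (not_lt.2 h.le), fun hc => absurd hc h.ne'⟩
      · intro i _; rfl
  rw [Finset.prod_congr rfl (fun y' _ => e2 y'), Finset.prod_mul_distrib]
  congr 1
  · rw [Finset.prod_filter]
  · rw [Finset.prod_ite_eq' Finset.univ y]
    simp

open Classical in
/-- (H3b) -/
theorem prob_mixed {X : Type} [PseudoMetricSpace X] {N K : ℕ} (ctr : Fin N → X) {lam ε : ℝ}
    (hlam : 0 < lam) (hε : 0 < ε) (hK : 1 ≤ K) (hR : 1 ≤ lam * (K * ε)) (hle : lam * ε ≤ 1 / 4)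
    (x : X)
    (hcard : ((Finset.univ.filter (fun y : Fin N => dist x (ctr y) ≤ K * ε + ε)).card : ℝ) ≤
      Real.exp (lam * (K * ε)))
    (F : Finset X) (hx : x ∈ F) (hF : ∀ a ∈ F, ∀ b ∈ F, dist a b ≤ ε) :
    prob (N := N) (Real.exp (-lam * ε)) K
      (fun k => ∃ a ∈ F, ∃ b ∈ F, carve ctr ε k a ≠ carve ctr ε k b) ≤
      4 * (lam * ε) * qfun ctr lam (K * ε + ε) x := by
  obtain ⟨κ, hκ1, hκ2⟩ := hx_kappa ctr hε F ⟨x, hx⟩ hF
  set θ := Real.exp (-lam * ε) with hθ
  have hle0 : 0 < lam * ε := mul_pos hlam hε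
  have hθ0 : 0 < θ := Real.exp_pos _
  have hθ1 : θ < 1 := by
    rw [hθ, Real.exp_lt_one_iff]
    linarith
  have hθp : ∀ n : ℕ, θ ^ n = Real.exp (-(lam * (n * ε))) := by
    intro n
    rw [hθ, ← Real.exp_nat_mul]
    congr 1
    ring
  have hθK : θ ^ K ≤ 1 / 2 := by
    rw [hθp]
    have h1 : Real.exp (-(lam * (K * ε))) ≤ Real.exp (-1) := Real.exp_le_exp.2 (by linarith)
    have h2 : Real.exp (-1) ≤ 1 / 2 := by
      rw [Real.exp_neg, inv_le_comm₀ (Real.exp_pos _) (by norm_num)]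
      have := Real.add_one_le_exp (1 : ℝ)
      norm_num at this ⊢
      linarith
    exact h1.trans h2
  have hθK0 : 0 < θ ^ K := by positivity
  obtain ⟨hgw0, hgw1⟩ := gw_sum hθ0 hθ1 hK
  -- tails
  set a : Fin N → ℝ := fun y => ∑ i : Fin K, (if κ y ≤ (i : ℕ) then gw θ K i else 0) with ha
  have ha0 : ∀ y, 0 ≤ a y := by
    intro y
    apply Finset.sum_nonneg
    intro i _
    split_ifs
    · exact hgw0 _
    · exact le_refl _
  have ha1 : ∀ y, a y ≤ 1 := by
    intro y
    rw [← hgw1]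
    apply Finset.sum_le_sum
    intro i _
    split_ifs
    · exact le_refl _
    · exact hgw0 _
  have hval : ∀ y, a y = if κ y ≤ K then (θ ^ κ y - θ ^ K) / (1 - θ ^ K) else 0 :=
    fun y => hx_tail θ (κ y) K
  set β := θ ^ K / (1 - θ ^ K) with hβ
  have hβ0 : 0 ≤ β := div_nonneg hθK0.le (by linarith)
  have hβ2 : β ≤ 2 * θ ^ K := by
    rw [hβ, div_le_iff₀ (by linarith)]
    nlinarith
  -- the union bound
  have h1 : prob (N := N) θ K (fun k => ∃ a ∈ F, ∃ b ∈ F, carve ctr ε k a ≠ carve ctr ε k b) ≤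
      ∑ y, (∏ y' ∈ Finset.univ.filter (fun y' => y' < y), (1 - a y')) *
        (if κ y < K then gw θ K (κ y) else 0) := by
    refine (hx_union hgw0 _ (fun y k => (∀ y', y' < y → (k y' : ℕ) < κ y') ∧ (k y : ℕ) = κ y)
      (fun k hk => hx_mixed ctr hε k F κ hκ1 hκ2 hk)).trans (le_of_eq ?_)
    exact Finset.sum_congr rfl fun y _ => hx_box hθ0 hθ1 hK κ y
  have hprod0 : ∀ y : Fin N, 0 ≤ ∏ y' ∈ Finset.univ.filter (fun y' => y' < y), (1 - a y') :=
    fun y => Finset.prod_nonneg fun y' _ => by linarith [ha1 y']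
  have hprod1 : ∀ y : Fin N, ∏ y' ∈ Finset.univ.filter (fun y' => y' < y), (1 - a y') ≤ 1 :=
    fun y => Finset.prod_le_one (fun y' _ => by linarith [ha1 y'])
      (fun y' _ => by linarith [ha0 y'])
  have hp : ∀ y, (if κ y < K then gw θ K (κ y) else 0) ≤
      (1 - θ) * (a y + β * (if κ y < K then 1 else 0)) := by
    intro y
    rw [hval y]
    split_ifs with h2 h3 h3
    · apply le_of_eq
      rw [hβ]
      unfold gw
      have : 1 - θ ^ K ≠ 0 := by linarith
      field_simp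
      ring
    · omega
    · have h4 : κ y = K := by omega
      rw [h4]
      simp
    · simp
  have h2 : ∑ y, (∏ y' ∈ Finset.univ.filter (fun y' => y' < y), (1 - a y')) *
        (if κ y < K then gw θ K (κ y) else 0) ≤
      (1 - θ) * ((∑ y, a y * ∏ y' ∈ Finset.univ.filter (fun y' => y' < y), (1 - a y')) +
        β * ∑ y, (if κ y < K then 1 else 0)) := by
    rw [Finset.mul_sum (a := β), ← Finset.sum_add_distrib, Finset.mul_sum]
    apply Finset.sum_le_sum
    intro y _
    refine (mul_le_mul_of_nonneg_left (hp y) (hprod0 y)).trans ?_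
    have h5 : 0 ≤ (1 - θ) * (β * (if κ y < K then (1 : ℝ) else 0)) := by
      apply mul_nonneg (by linarith)
      apply mul_nonneg hβ0
      split_ifs <;> norm_num
    have h6 := mul_le_mul_of_nonneg_right (hprod1 y) h5
    nlinarith [h6]
  set A := ∑ y, a y * ∏ y' ∈ Finset.univ.filter (fun y' => y' < y), (1 - a y') with hA
  have hA1 : A ≤ 1 := by
    have := Finset.prod_one_sub_ordered (Finset.univ : Finset (Fin N)) a
    have h5 : 0 ≤ ∏ y : Fin N, (1 - a y) := Finset.prod_nonneg fun y _ => by linarith [ha1 y]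
    rw [this] at h5
    linarith
  have hA2 : A ≤ ∑ y, a y := by
    apply Finset.sum_le_sum
    intro y _
    calc _ ≤ a y * 1 := mul_le_mul_of_nonneg_left (hprod1 y) (ha0 y)
      _ = _ := mul_one _
  -- comparison with the sum of the exponentials
  set S := Finset.univ.filter (fun y : Fin N => dist x (ctr y) ≤ K * ε + ε) with hS
  set s := ∑ y ∈ S, Real.exp (-lam * dist x (ctr y)) with hs
  have hs0 : 0 ≤ s := Finset.sum_nonneg fun y _ => (Real.exp_pos _).le
  have hmem : ∀ y, κ y < K → y ∈ S := by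
    intro y hy
    rw [hS, Finset.mem_filter]
    refine ⟨Finset.mem_univ _, (hκ2 y x hx).trans ?_⟩
    have h5 : (κ y : ℝ) ≤ K := by exact_mod_cast hy.le
    have h6 := mul_le_mul_of_nonneg_right h5 hε.le
    linarith
  have hexp : Real.exp (lam * ε) ≤ 4 / 3 := by
    have h5 : Real.exp (lam * ε) ≤ Real.exp (1 / 4) := Real.exp_le_exp.2 hle
    have h6 : Real.exp (1 / 4) ^ 4 = Real.exp 1 := by
      rw [← Real.exp_nat_mul]; norm_num
    have h7 : Real.exp 1 < 2.7182818286 := Real.exp_one_lt_d9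
    refine h5.trans ?_
    by_contra hc
    push Not at hc
    have h8 : (4 / 3 : ℝ) ^ 4 < Real.exp (1 / 4) ^ 4 :=
      pow_lt_pow_left₀ hc (by norm_num) (by norm_num)
    rw [h6] at h8
    norm_num at h8 h7
    linarith
  have haS : ∑ y, a y ≤ Real.exp (lam * ε) * s := by
    have h5 : ∑ y, a y = ∑ y ∈ S, a y := by
      rw [hS, Finset.sum_filter]
      apply Finset.sum_congr rfl
      intro y _
      split_ifs with h6
      · rfl
      · have h7 : ¬ κ y < K := by
          intro hc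
          exact h6 (Finset.mem_filter.1 (hmem y hc)).2
        rw [hval y]
        split_ifs with h8
        · have : κ y = K := by omega
          rw [this]; simp
        · rfl
    rw [h5, hs, Finset.mul_sum]
    apply Finset.sum_le_sum
    intro y _
    have h6 : a y ≤ θ ^ κ y := by
      rw [hval y]
      split_ifs with h7
      · rw [div_le_iff₀ (by linarith)]
        have h8 : θ ^ κ y ≤ 1 := pow_le_one₀ hθ0.le hθ1.le
        nlinarith
      · positivity
    refine h6.trans ?_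
    rw [hθp, ← Real.exp_add]
    apply Real.exp_le_exp.2
    have h7 := hκ2 y x hx
    nlinarith
  have hc : (∑ y : Fin N, (if κ y < K then (1 : ℝ) else 0)) ≤ S.card := by
    rw [← Finset.sum_filter, Finset.sum_const, nsmul_eq_mul, mul_one]
    exact_mod_cast Finset.card_le_card (fun y hy => hmem y (Finset.mem_filter.1 hy).2)
  have hSc : θ ^ K * S.card ≤ 1 := by
    rw [hθp, Real.exp_neg]
    rw [inv_mul_le_iff₀ (Real.exp_pos _), mul_one]
    exact hcard
  have hSs : θ ^ K * S.card ≤ Real.exp (lam * ε) * s := by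
    rw [hs, Finset.mul_sum, mul_comm, ← nsmul_eq_mul, ← Finset.sum_const]
    apply Finset.sum_le_sum
    intro y hy
    have h5 := (Finset.mem_filter.1 hy).2
    rw [hθp, ← Real.exp_add]
    apply Real.exp_le_exp.2
    nlinarith
  set T := ∑ y : Fin N, (if κ y < K then (1 : ℝ) else 0) with hT
  have hT0 : 0 ≤ T := Finset.sum_nonneg fun y _ => by split_ifs <;> norm_num
  have hβT : β * T ≤ 2 * (θ ^ K * S.card) := by
    calc β * T ≤ (2 * θ ^ K) * S.card := mul_le_mul hβ2 hc hT0 (by positivity)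
      _ = _ := by ring
  have hfin1 : A + β * T ≤ 4 := by linarith
  have hfin2 : A + β * T ≤ 4 * s := by
    have h5 : A + β * T ≤ 3 * (Real.exp (lam * ε) * s) := by linarith
    have h6 : Real.exp (lam * ε) * s ≤ 4 / 3 * s := mul_le_mul_of_nonneg_right hexp hs0
    linarith
  have hθle : 1 - θ ≤ lam * ε := by
    have := Real.add_one_le_exp (-lam * ε)
    rw [← hθ] at this
    linarith
  have hAB0 : 0 ≤ A + β * T := by
    apply add_nonneg _ (mul_nonneg hβ0 hT0)
    exact Finset.sum_nonneg fun y _ => mul_nonneg (ha0 y) (hprod0 y)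
  have hq : A + β * T ≤ 4 * qfun ctr lam (K * ε + ε) x := by
    unfold qfun
    rcases min_choice (1 : ℝ) (∑ y ∈ Finset.univ.filter (fun y : Fin N =>
      dist x (ctr y) ≤ K * ε + ε), Real.exp (-lam * dist x (ctr y))) with h | h
    · rw [h]; linarith
    · rw [h]; exact hfin2
  calc _ ≤ _ := h1
    _ ≤ (1 - θ) * (A + β * T) := h2
    _ ≤ (lam * ε) * (A + β * T) := mul_le_mul_of_nonneg_right hθle hAB0
    _ ≤ (lam * ε) * (4 * qfun ctr lam (K * ε + ε) x) := mul_le_mul_of_nonneg_left hq hle0.le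
    _ = _ := by ring

end Carving

end SimpVol
end
end

section

/-!
# MP_fa46d7_gt: lower bound for the probability of being touched (H3a)
-/

set_option autoImplicit false

open scoped Topology ENNReal NNReal ContDiff Manifold
open MeasureTheory

noncomputable section

namespace SimpVol

open Classical in
/-- The probability that the radius `k ε` is at least `t`. -/
private def ht_G (θ : ℝ) (K : ℕ) (ε t : ℝ) : ℝ :=
  ∑ i ∈ Finset.univ.filter (fun i : Fin K => t ≤ ((i : ℕ) : ℝ) * ε), gw θ K i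

private theorem ht_geom (θ : ℝ) {κ K : ℕ} (h : κ ≤ K) :
    ∑ i ∈ Finset.range K, (if κ ≤ i then (1 - θ) * θ ^ i else 0) = θ ^ κ - θ ^ K := by
  induction K, h using Nat.le_induction with
  | base =>
    rw [sub_self]
    refine Finset.sum_eq_zero fun i hi => ?_
    rw [if_neg (not_le.2 (Finset.mem_range.1 hi))]
  | succ K hK ih =>
    rw [Finset.sum_range_succ, ih, if_pos hK, pow_succ]
    ring

private theorem ht_G_nonneg {θ : ℝ} (h0 : 0 < θ) (h1 : θ < 1) {K : ℕ} (hK : 1 ≤ K) (ε t : ℝ) :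
    0 ≤ ht_G θ K ε t :=
  Finset.sum_nonneg fun i _ => (gw_sum h0 h1 hK).1 i

private theorem ht_G_compl {θ : ℝ} (h0 : 0 < θ) (h1 : θ < 1) {K : ℕ} (hK : 1 ≤ K) (ε t : ℝ)
    (B : Finset (Fin K)) (hB : ∀ i, i ∈ B ↔ ¬ (t ≤ ((i : ℕ) : ℝ) * ε)) :
    ∑ i ∈ B, gw θ K i = 1 - ht_G θ K ε t := by
  classical
  have h := (gw_sum h0 h1 hK).2
  rw [← Finset.sum_filter_add_sum_filter_not Finset.univ
    (fun i : Fin K => t ≤ ((i : ℕ) : ℝ) * ε)] at h
  have e1 : B = Finset.univ.filter (fun i : Fin K => ¬ (t ≤ ((i : ℕ) : ℝ) * ε)) := by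
    ext i
    simp only [Finset.mem_filter, Finset.mem_univ, true_and]
    exact hB i
  have e2 : ht_G θ K ε t
      = ∑ i ∈ Finset.univ.filter (fun i : Fin K => t ≤ ((i : ℕ) : ℝ) * ε), gw θ K i := by
    unfold ht_G
    refine Finset.sum_congr ?_ fun _ _ => rfl
    ext i
    simp only [Finset.mem_filter]
  rw [e1, e2]
  linarith

private theorem ht_G_le_one {θ : ℝ} (h0 : 0 < θ) (h1 : θ < 1) {K : ℕ} (hK : 1 ≤ K) (ε t : ℝ) :
    ht_G θ K ε t ≤ 1 := by
  classical
  have h := ht_G_compl h0 h1 hK ε t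
    (Finset.univ.filter (fun i : Fin K => ¬ (t ≤ ((i : ℕ) : ℝ) * ε))) (by
      intro i; simp only [Finset.mem_filter, Finset.mem_univ, true_and])
  have h2 : 0 ≤ ∑ i ∈ Finset.univ.filter (fun i : Fin K => ¬ (t ≤ ((i : ℕ) : ℝ) * ε)), gw θ K i :=
    Finset.sum_nonneg fun i _ => (gw_sum h0 h1 hK).1 i
  linarith

private theorem ht_G_lower {K : ℕ} {lam ε t : ℝ} (hlam : 0 < lam) (hε : 0 < ε) (hK : 1 ≤ K)
    (hle : lam * ε ≤ 1 / 4) (ht0 : 0 ≤ t) (ht : t ≤ K * ε - 2 / lam) :
    1 / 2 * Real.exp (-lam * t) ≤ ht_G (Real.exp (-lam * ε)) K ε t := by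
  set θ : ℝ := Real.exp (-lam * ε) with hθ
  have h0 : 0 < θ := Real.exp_pos _
  have h1 : θ < 1 := by
    rw [hθ, Real.exp_lt_one_iff]
    nlinarith
  set κ : ℕ := ⌈t / ε⌉₊ with hκ
  have hκ1 : t / ε ≤ κ := Nat.le_ceil _
  have hκ2 : (κ : ℝ) < t / ε + 1 := Nat.ceil_lt_add_one (div_nonneg ht0 hε.le)
  have hκK : κ ≤ K := by
    have h2 : t / ε ≤ K - 2 / (lam * ε) := by
      rw [div_le_iff₀ hε]
      have : (K - 2 / (lam * ε)) * ε = K * ε - 2 / lam := by field_simp
      rw [this]; exact ht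
    have h3 : 8 ≤ 2 / (lam * ε) := by
      rw [le_div_iff₀ (by positivity)]
      linarith
    have h4 : (κ : ℝ) < K := by linarith
    exact le_of_lt (by exact_mod_cast h4)
  have hK1 : 0 < 1 - θ ^ K := by
    have : θ ^ K < 1 := pow_lt_one₀ h0.le h1 (by omega)
    linarith
  have hK2 : 1 - θ ^ K ≤ 1 := by
    have : 0 ≤ θ ^ K := by positivity
    linarith
  -- the sum
  have hG : (θ ^ κ - θ ^ K) / (1 - θ ^ K) ≤ ht_G θ K ε t := by
    classical
    have e1 : (θ ^ κ - θ ^ K) / (1 - θ ^ K)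
        = ∑ i : Fin K, (if κ ≤ (i : ℕ) then gw θ K i else 0) := by
      rw [← ht_geom θ hκK, Finset.sum_div, Fin.sum_univ_eq_sum_range
        (fun i => if κ ≤ i then gw θ K i else 0) K]
      refine Finset.sum_congr rfl fun i _ => ?_
      split_ifs
      · rfl
      · simp
    rw [e1]
    unfold ht_G
    rw [Finset.sum_filter]
    refine Finset.sum_le_sum fun i _ => ?_
    by_cases h : κ ≤ (i : ℕ)
    · rw [if_pos h, if_pos]
      have h2 : t / ε ≤ ((i : ℕ) : ℝ) := hκ1.trans (by exact_mod_cast h)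
      rwa [div_le_iff₀ hε] at h2
    · rw [if_neg h]
      split_ifs
      · exact (gw_sum h0 h1 hK).1 i
      · exact le_rfl
  refine le_trans ?_ hG
  rw [le_div_iff₀ hK1]
  -- estimates of the powers
  have p1 : Real.exp (-lam * t) * (3 / 4) ≤ θ ^ κ := by
    have h2 : θ ^ κ = Real.exp (-lam * ε * κ) := by
      rw [hθ, ← Real.exp_nat_mul]; congr 1; ring
    have h3 : -lam * t + (-(lam * ε)) ≤ -lam * ε * κ := by
      have h4 : ε * κ ≤ t + ε := by
        have : ε * κ ≤ ε * (t / ε + 1) := mul_le_mul_of_nonneg_left hκ2.le hε.le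
        have h5 : ε * (t / ε + 1) = t + ε := by field_simp
        linarith
      nlinarith
    have h5 : (3 / 4 : ℝ) ≤ Real.exp (-(lam * ε)) := by
      have := Real.add_one_le_exp (-(lam * ε))
      linarith
    rw [h2]
    calc Real.exp (-lam * t) * (3 / 4) ≤ Real.exp (-lam * t) * Real.exp (-(lam * ε)) :=
          mul_le_mul_of_nonneg_left h5 (Real.exp_pos _).le
      _ = Real.exp (-lam * t + (-(lam * ε))) := (Real.exp_add _ _).symm
      _ ≤ _ := Real.exp_le_exp.2 h3
  have p2 : θ ^ K ≤ Real.exp (-lam * t) * (1 / 4) := by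
    have h2 : θ ^ K = Real.exp (-lam * (K * ε)) := by
      rw [hθ, ← Real.exp_nat_mul]; congr 1; ring
    have h3 : -lam * (K * ε) ≤ -lam * t + (-2) := by
      have h4 : t + 2 / lam ≤ K * ε := by linarith
      have h5 : lam * (t + 2 / lam) ≤ lam * (K * ε) := mul_le_mul_of_nonneg_left h4 hlam.le
      have h6 : lam * (t + 2 / lam) = lam * t + 2 := by field_simp
      linarith
    have h7 : Real.exp (-2) ≤ 1 / 4 := by
      rw [Real.exp_neg, one_div]
      apply inv_anti₀ (by norm_num)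
      have h8 : (2 : ℝ) ≤ Real.exp 1 := by
        have := Real.add_one_le_exp (1 : ℝ)
        linarith
      have h9 : Real.exp 2 = Real.exp 1 * Real.exp 1 := by
        rw [← Real.exp_add]; norm_num
      rw [h9]
      nlinarith
    rw [h2]
    calc Real.exp (-lam * (K * ε)) ≤ Real.exp (-lam * t + (-2)) := Real.exp_le_exp.2 h3
      _ = Real.exp (-lam * t) * Real.exp (-2) := Real.exp_add _ _
      _ ≤ _ := mul_le_mul_of_nonneg_left h7 (Real.exp_pos _).le
  have p3 : 0 < Real.exp (-lam * t) := Real.exp_pos _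
  nlinarith

private theorem ht_carve {X : Type} [PseudoMetricSpace X] {N K : ℕ} (ctr : Fin N → X) (ε : ℝ)
    (k : Fin N → Fin K) (x : X) :
    carve ctr ε k x ≠ none ↔ ∃ y, dist x (ctr y) ≤ ((k y : ℕ) : ℝ) * ε := by
  unfold carve
  constructor
  · intro h
    by_contra h2
    apply h
    rw [dif_neg]
    rintro ⟨y, hy⟩
    exact h2 ⟨y, (Finset.mem_filter.1 hy).2⟩
  · rintro ⟨y, hy⟩
    rw [dif_pos ⟨y, Finset.mem_filter.2 ⟨Finset.mem_univ _, hy⟩⟩]
    exact Option.some_ne_none _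

private theorem ht_total {θ : ℝ} (h0 : 0 < θ) (h1 : θ < 1) {N K : ℕ} (hK : 1 ≤ K) :
    ∑ k : Fin N → Fin K, cw θ K k = 1 := by
  have h := prob_box (N := N) θ (fun _ => (Finset.univ : Finset (Fin K)))
  rw [Finset.prod_congr rfl (fun y _ => (gw_sum h0 h1 hK).2), Finset.prod_const_one] at h
  rw [← h]
  unfold prob
  refine Finset.sum_congr ?_ fun _ _ => rfl
  ext k
  simp

private theorem ht_compl {θ : ℝ} (h0 : 0 < θ) (h1 : θ < 1) {N K : ℕ} (hK : 1 ≤ K)
    (E E' : (Fin N → Fin K) → Prop) (h : ∀ k, E' k ↔ ¬ E k) :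
    prob θ K E = 1 - prob θ K E' := by
  classical
  have h2 := ht_total (N := N) h0 h1 hK
  rw [← Finset.sum_filter_add_sum_filter_not Finset.univ (fun k => E k)] at h2
  have e1 : prob θ K E = ∑ k ∈ Finset.univ.filter (fun k => E k), cw θ K k := by
    unfold prob
    refine Finset.sum_congr ?_ fun _ _ => rfl
    ext k
    simp only [Finset.mem_filter]
  have e2 : prob θ K E' = ∑ k ∈ Finset.univ.filter (fun k => ¬ E k), cw θ K k := by
    unfold prob
    refine Finset.sum_congr ?_ fun _ _ => rfl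
    ext k
    simp only [Finset.mem_filter, h]
  rw [e1, e2]
  linarith

private theorem ht_prob {X : Type} [PseudoMetricSpace X] {N K : ℕ} (ctr : Fin N → X) {θ : ℝ}
    (h0 : 0 < θ) (h1 : θ < 1) (hK : 1 ≤ K) (ε : ℝ) (x : X) :
    prob (N := N) θ K (fun k => carve ctr ε k x ≠ none)
      = 1 - ∏ y, (1 - ht_G θ K ε (dist x (ctr y))) := by
  classical
  have e := ht_compl h0 h1 hK (fun k : Fin N → Fin K => carve ctr ε k x ≠ none)
    (fun k => ∀ y, k y ∈ (Finset.univ.filter
      (fun i : Fin K => ¬ (dist x (ctr y) ≤ ((i : ℕ) : ℝ) * ε)))) (by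
      intro k
      rw [ht_carve]
      simp only [Finset.mem_filter, Finset.mem_univ, true_and, not_exists])
  rw [e, prob_box]
  congr 1
  refine Finset.prod_congr rfl fun y _ => ?_
  exact ht_G_compl h0 h1 hK ε (dist x (ctr y)) _ (by
    intro i; simp only [Finset.mem_filter, Finset.mem_univ, true_and])

/-- (H3a) -/
theorem prob_touch {X : Type} [PseudoMetricSpace X] {N K : ℕ} (ctr : Fin N → X) {lam ε : ℝ}
    (hlam : 0 < lam) (hε : 0 < ε) (hK : 1 ≤ K) (hR : 1 ≤ lam * (K * ε)) (hle : lam * ε ≤ 1 / 4)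
    (x : X) :
    3 / 10 * qfun ctr lam (K * ε - 2 / lam) x ≤
      prob (N := N) (Real.exp (-lam * ε)) K (fun k => carve ctr ε k x ≠ none) ∧
    (x ∈ Set.range ctr →
      prob (N := N) (Real.exp (-lam * ε)) K (fun k => carve ctr ε k x ≠ none) = 1) := by
  have h0 : 0 < Real.exp (-lam * ε) := Real.exp_pos _
  have h1 : Real.exp (-lam * ε) < 1 := by
    rw [Real.exp_lt_one_iff]
    nlinarith
  constructor
  · rw [ht_prob ctr h0 h1 hK ε x]
    set θ := Real.exp (-lam * ε) with hθ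
    set T : ℝ := K * ε - 2 / lam with hT
    set S : ℝ := ∑ y, ht_G θ K ε (dist x (ctr y)) with hS
    have hprod : ∏ y, (1 - ht_G θ K ε (dist x (ctr y))) ≤ Real.exp (-S) := by
      rw [hS, ← Finset.sum_neg_distrib, Real.exp_sum]
      refine Finset.prod_le_prod (fun y _ => ?_) (fun y _ => ?_)
      · have := ht_G_le_one h0 h1 hK ε (dist x (ctr y))
        linarith
      · have := Real.add_one_le_exp (-(ht_G θ K ε (dist x (ctr y))))
        linarith
    unfold qfun
    set s' : ℝ := ∑ y ∈ Finset.univ.filter (fun y : Fin N => dist x (ctr y) ≤ T),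
      Real.exp (-lam * dist x (ctr y)) with hs'
    have hs0 : 0 ≤ s' := Finset.sum_nonneg fun y _ => (Real.exp_pos _).le
    have hSs : s' / 2 ≤ S := by
      have h2 : s' / 2 ≤ ∑ y ∈ Finset.univ.filter (fun y : Fin N => dist x (ctr y) ≤ T),
          ht_G θ K ε (dist x (ctr y)) := by
        rw [hs', Finset.sum_div]
        refine Finset.sum_le_sum fun y hy => ?_
        have h3 := ht_G_lower hlam hε hK hle dist_nonneg (Finset.mem_filter.1 hy).2
        linarith
      refine h2.trans ?_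
      exact Finset.sum_le_sum_of_subset_of_nonneg (Finset.filter_subset _ _)
        fun y _ _ => ht_G_nonneg h0 h1 hK ε _
    set q : ℝ := min 1 s' with hq
    have hq0 : 0 ≤ q := le_min zero_le_one hs0
    have hq1 : q ≤ 1 := min_le_left _ _
    have hqs : q ≤ s' := min_le_right _ _
    have h4 : Real.exp (-S) ≤ Real.exp (-(q / 2)) := Real.exp_le_exp.2 (by linarith)
    have h5 : Real.exp (-(q / 2)) ≤ 1 - 3 / 10 * q := by
      rw [Real.exp_neg]
      have h6 := Real.add_one_le_exp (q / 2)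
      have h7 : (Real.exp (q / 2))⁻¹ ≤ (q / 2 + 1)⁻¹ := inv_anti₀ (by linarith) h6
      refine h7.trans ?_
      rw [inv_le_iff_one_le_mul₀ (by linarith)]
      nlinarith
    linarith
  · rintro ⟨y₀, rfl⟩
    have e : prob (N := N) (Real.exp (-lam * ε)) K (fun k => carve ctr ε k (ctr y₀) ≠ none)
        = ∑ k : Fin N → Fin K, cw (Real.exp (-lam * ε)) K k := by
      unfold prob
      refine Finset.sum_congr ?_ fun _ _ => rfl
      ext k
      simp only [Finset.mem_filter, Finset.mem_univ, true_and, iff_true]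
      rw [ht_carve]
      exact ⟨y₀, by rw [dist_self]; positivity⟩
    rw [e]
    exact ht_total h0 h1 hK

end SimpVol
end
end

section

set_option autoImplicit false

open scoped Topology ENNReal NNReal ContDiff Manifold
open MeasureTheory

noncomputable section

namespace SimpVol

section Heart2

variable {I : Type} [LinearOrder I] [Fintype I] {X : Type} [PseudoMetricSpace X] [Nonempty X]

set_option linter.unusedSectionVars false

theorem hs_cw_nonneg {N K : ℕ} {θ : ℝ} (h0 : 0 < θ) (h1 : θ < 1) (hK : 1 ≤ K)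
    (k : Fin N → Fin K) : 0 ≤ cw θ K k := by
  unfold cw
  exact Finset.prod_nonneg (fun y _ => (gw_sum h0 h1 hK).1 _)

theorem hs_prob_mono {N K : ℕ} {θ : ℝ} (h0 : 0 < θ) (h1 : θ < 1) (hK : 1 ≤ K)
    {E E' : (Fin N → Fin K) → Prop} (h : ∀ k, E k → E' k) :
    prob (N := N) θ K E ≤ prob (N := N) θ K E' := by
  classical
  unfold prob
  apply Finset.sum_le_sum_of_subset_of_nonneg
  · intro k hk
    simp only [Finset.mem_filter, Finset.mem_univ, true_and] at hk ⊢
    exact h k hk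
  · intro k _ _
    exact hs_cw_nonneg h0 h1 hK k

theorem hs_prob_nonneg {N K : ℕ} {θ : ℝ} (h0 : 0 < θ) (h1 : θ < 1) (hK : 1 ≤ K)
    (E : (Fin N → Fin K) → Prop) : 0 ≤ prob (N := N) θ K E := by
  classical
  unfold prob
  exact Finset.sum_nonneg (fun k _ => hs_cw_nonneg h0 h1 hK k)

theorem hs_prob_or {N K : ℕ} {θ : ℝ} (h0 : 0 < θ) (h1 : θ < 1) (hK : 1 ≤ K)
    {E E1 E2 : (Fin N → Fin K) → Prop} (h : ∀ k, E k → E1 k ∨ E2 k) :
    prob (N := N) θ K E ≤ prob (N := N) θ K E1 + prob (N := N) θ K E2 := by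
  classical
  refine (hs_prob_mono h0 h1 hK h).trans ?_
  unfold prob
  rw [Finset.sum_filter, Finset.sum_filter, Finset.sum_filter, ← Finset.sum_add_distrib]
  apply Finset.sum_le_sum
  intro k _
  have hk := hs_cw_nonneg h0 h1 hK k
  by_cases a : E1 k <;> by_cases b : E2 k <;> simp [a, b, hk]

theorem hs_card_A {pt : I → X} {w : Finset I → ℕ} {ρ : ℝ} (Tw : Tower pt w ρ) (j : ℕ)
    {S : Finset I} (hS : S ∈ Tw.A j) : S.card = j + 1 := by
  cases j with
  | zero =>
    rw [Tw.zero] at hS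
    simpa using hS
  | succ j =>
    rw [Tw.succ] at hS
    exact hS.1

theorem hs_qfun_mono {N : ℕ} (ctr : Fin N → X) (lam : ℝ) {T T' : ℝ} (h : T ≤ T') (x : X) :
    qfun ctr lam T x ≤ qfun ctr lam T' x := by
  classical
  unfold qfun
  apply min_le_min le_rfl
  apply Finset.sum_le_sum_of_subset_of_nonneg
  · intro k hk
    simp only [Finset.mem_filter, Finset.mem_univ, true_and] at hk ⊢
    exact hk.trans h
  · intro k _ _
    exact (Real.exp_pos _).le

theorem hs_qfun_nonneg {N : ℕ} (ctr : Fin N → X) (lam T : ℝ) (x : X) :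
    0 ≤ qfun ctr lam T x := by
  classical
  unfold qfun
  exact le_min zero_le_one (Finset.sum_nonneg fun _ _ => (Real.exp_pos _).le)

theorem hs_exchange {N K : ℕ} (θ : ℝ) (w : Finset I → ℕ) (B : Set (Finset I))
    [DecidablePred (fun S => S ∈ B)] (G : (Fin N → Fin K) → Finset I → Prop) :
    ∑ S ∈ Finset.univ.filter (fun S => S ∈ B),
      (mass w S : ℝ) * prob (N := N) θ K (fun k => G k S) =
      ∑ k : Fin N → Fin K, cw θ K k * (wsum w B (G k) : ℝ) := by
  classical
  unfold prob wsum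
  push_cast
  simp only [Finset.sum_filter, Finset.mul_sum]
  rw [Finset.sum_comm]
  apply Finset.sum_congr rfl
  intro S _
  by_cases hS : S ∈ B
  · simp only [hS, if_true, true_and]
    apply Finset.sum_congr rfl
    intro k _
    by_cases hG : G k S <;> simp [hG, mul_comm]
  · simp [hS]

open Classical in
theorem hs_stepA {pt : I → X} {w : Finset I → ℕ} {ρ ε θ : ℝ} {j N K : ℕ}
    (Tw : Tower pt w ρ) (ctr : Fin N → X) (h0 : 0 < θ) (h1 : θ < 1)
    (hε : 0 < ε) (hK : 1 ≤ K) (hρ : K * ε ≤ ρ) :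
    ∑ S ∈ Finset.univ.filter (fun S => S ∈ Tw.A (j + 1)),
      (mass w S : ℝ) * prob (N := N) θ K (fun k => Good pt (Tw.A j) (carve ctr ε k) S) ≤
    ∑ S ∈ Finset.univ.filter (fun S : Finset I => S ∈ {S' : Finset I | S'.card = j + 2}),
      (mass w S : ℝ) * prob (N := N) θ K (fun k => Mixed pt (Tw.A j) (carve ctr ε k) S) := by
  rw [hs_exchange, hs_exchange]
  apply Finset.sum_le_sum
  intro k _
  apply mul_le_mul_of_nonneg_left _ (hs_cw_nonneg h0 h1 hK k)
  have := competitor Tw j (carve_isCarv (ctr := ctr) hε k hρ)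
  exact_mod_cast this

theorem hs_stepB {pt : I → X} {w : Finset I → ℕ} {ρ ε θ : ℝ} {j N K : ℕ}
    (Tw : Tower pt w ρ) (ctr : Fin N → X) (h0 : 0 < θ) (h1 : θ < 1) (hK : 1 ≤ K)
    {S : Finset I} (hS : S ∈ Tw.A (j + 1)) :
    prob (N := N) θ K (fun k => carve ctr ε k (pos pt S) ≠ none) ≤
      prob (N := N) θ K (fun k => Good pt (Tw.A j) (carve ctr ε k) S) +
      prob (N := N) θ K (fun k => Mixed pt (Tw.A j) (carve ctr ε k) S) := by
  apply hs_prob_or h0 h1 hK
  intro k hk
  rw [Tw.succ] at hS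
  obtain ⟨_, a, ha, b, hb, hAa, hAb, hl⟩ := hS
  by_cases hM : Mixed pt (Tw.A j) (carve ctr ε k) S
  · exact Or.inr hM
  left
  have hab : a ≠ b := by
    rintro rfl
    exact hl rfl
  obtain ⟨y, hy⟩ := Option.ne_none_iff_exists'.mp hk
  obtain ⟨e, he, hAe, hpe⟩ : ∃ e ∈ S, S.erase e ∈ Tw.A j ∧ pos pt (S.erase e) = pos pt S := by
    rcases pos_erase pt ha hb hab with h | h
    · exact ⟨a, ha, hAa, h⟩
    · exact ⟨b, hb, hAb, h⟩
  refine ⟨⟨a, ha, hAa⟩, y, fun i hi hAi => ?_⟩
  by_contra hne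
  apply hM
  refine ⟨i, hi, e, he, hAi, hAe, ?_⟩
  rw [hpe, hy]
  exact hne

open Classical in
theorem hs_stepC {pt : I → X} {w : Finset I → ℕ} {ρ ε lam T : ℝ} {n j N K : ℕ}
    (Tw : Tower pt w ρ) (hw : IsWeight pt w n ε) (ctr : Fin N → X)
    (hlam : 0 < lam) (hε : 0 < ε) (hK : 1 ≤ K) (hR : 1 ≤ lam * (K * ε)) (hle : lam * ε ≤ 1 / 4)
    (hcard : ∀ x : X,
      ((Finset.univ.filter (fun y : Fin N => dist x (ctr y) ≤ K * ε + ε)).card : ℝ) ≤
        Real.exp (lam * (K * ε)))
    (hT : K * ε + ε ≤ T) (h0 : 0 < Real.exp (-lam * ε)) (h1 : Real.exp (-lam * ε) < 1)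
    {S : Finset I} (hS : S.card = j + 2) :
    (mass w S : ℝ) * prob (N := N) (Real.exp (-lam * ε)) K
        (fun k => Mixed pt (Tw.A j) (carve ctr ε k) S) ≤
      ∑ S0 ∈ Finset.univ.filter (fun S0 => S0 ∈ Tw.A j ∧ S0 ⊆ S),
        (mass w S : ℝ) * (4 * (lam * ε) * qfun ctr lam T (pos pt S0)) := by
  have hnn : ∀ S0 : Finset I, 0 ≤ (mass w S : ℝ) * (4 * (lam * ε) * qfun ctr lam T (pos pt S0)) := by
    intro S0
    have := hs_qfun_nonneg ctr lam T (pos pt S0)
    positivity
  by_cases hm : mass w S = 0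
  · simp [hm]
  by_cases hex : ∃ a ∈ S, S.erase a ∈ Tw.A j
  · obtain ⟨a0, ha0, hA0⟩ := hex
    set F : Finset X := (S.filter (fun a => S.erase a ∈ Tw.A j)).image
      (fun a => pos pt (S.erase a)) with hFdef
    have hx : pos pt (S.erase a0) ∈ F := by
      rw [hFdef, Finset.mem_image]
      exact ⟨a0, by simp [ha0, hA0], rfl⟩
    have hdiam := (mass_diam hw hm).2
    have hne : ∀ a ∈ S, (S.erase a).Nonempty := by
      intro a ha
      rw [← Finset.card_pos, Finset.card_erase_of_mem ha, hS]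
      omega
    have hF : ∀ a ∈ F, ∀ b ∈ F, dist a b ≤ ε := by
      intro x hx y hy
      rw [hFdef, Finset.mem_image] at hx hy
      obtain ⟨a, ha, rfl⟩ := hx
      obtain ⟨b, hb, rfl⟩ := hy
      obtain ⟨ha, -⟩ := Finset.mem_filter.mp ha
      obtain ⟨hb, -⟩ := Finset.mem_filter.mp hb
      obtain ⟨a', ha', ea⟩ := pos_mem pt (hne a ha)
      obtain ⟨b', hb', eb⟩ := pos_mem pt (hne b hb)
      rw [ea, eb]
      exact hdiam a' (Finset.mem_of_mem_erase ha') b' (Finset.mem_of_mem_erase hb')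
    have key := prob_mixed (N := N) (K := K) ctr hlam hε hK hR hle (pos pt (S.erase a0))
      (by convert hcard (pos pt (S.erase a0))) F hx hF
    have hmono : prob (N := N) (Real.exp (-lam * ε)) K
        (fun k => Mixed pt (Tw.A j) (carve ctr ε k) S) ≤
        4 * (lam * ε) * qfun ctr lam T (pos pt (S.erase a0)) := by
      refine (hs_prob_mono h0 h1 hK ?_).trans (key.trans ?_)
      · rintro k ⟨a, ha, b, hb, hAa, hAb, hne'⟩
        refine ⟨_, Finset.mem_image.mpr ⟨a, by simp [ha, hAa], rfl⟩, _,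
          Finset.mem_image.mpr ⟨b, by simp [hb, hAb], rfl⟩, hne'⟩
      · apply mul_le_mul_of_nonneg_left (hs_qfun_mono ctr lam hT _)
        positivity
    calc _ ≤ (mass w S : ℝ) * (4 * (lam * ε) * qfun ctr lam T (pos pt (S.erase a0))) :=
          mul_le_mul_of_nonneg_left hmono (Nat.cast_nonneg _)
      _ ≤ _ := by
          apply Finset.single_le_sum (f := fun S0 =>
            (mass w S : ℝ) * (4 * (lam * ε) * qfun ctr lam T (pos pt S0))) (fun S0 _ => hnn S0)
          simp only [Finset.mem_filter, Finset.mem_univ, true_and]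
          exact ⟨hA0, Finset.erase_subset _ _⟩
  · have hz : prob (N := N) (Real.exp (-lam * ε)) K
        (fun k => Mixed pt (Tw.A j) (carve ctr ε k) S) = 0 := by
      unfold prob
      rw [Finset.filter_false_of_mem]
      · simp
      · rintro k _ ⟨a, ha, b, hb, hAa, hAb, hne'⟩
        exact hex ⟨a, ha, hAa⟩
    rw [hz, mul_zero]
    exact Finset.sum_nonneg fun S0 _ => hnn S0

open Classical in
theorem hs_stepD {pt : I → X} {w : Finset I → ℕ} {ρ ε lam T : ℝ} {n j N : ℕ}
    (hj : j < n) (Tw : Tower pt w ρ) (hw : IsWeight pt w n ε) (ctr : Fin N → X) :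
    ∑ S ∈ Finset.univ.filter (fun S : Finset I => S ∈ {S' : Finset I | S'.card = j + 2}),
      ∑ S0 ∈ Finset.univ.filter (fun S0 => S0 ∈ Tw.A j ∧ S0 ⊆ S),
        (mass w S : ℝ) * (4 * (lam * ε) * qfun ctr lam T (pos pt S0)) =
      4 * (lam * ε) * (n - j : ℕ) * ∑ S ∈ Finset.univ.filter (fun S => S ∈ Tw.A j),
        (mass w S : ℝ) * qfun ctr lam T (pos pt S) := by
  have h1 : ∑ S ∈ Finset.univ.filter (fun S : Finset I => S ∈ {S' : Finset I | S'.card = j + 2}),
      ∑ S0 ∈ Finset.univ.filter (fun S0 => S0 ∈ Tw.A j ∧ S0 ⊆ S),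
        (mass w S : ℝ) * (4 * (lam * ε) * qfun ctr lam T (pos pt S0)) =
      ∑ S0 ∈ Finset.univ.filter (fun S0 => S0 ∈ Tw.A j),
      ∑ S ∈ Finset.univ.filter (fun S : Finset I => S0 ⊆ S ∧ S.card = j + 2),
        (mass w S : ℝ) * (4 * (lam * ε) * qfun ctr lam T (pos pt S0)) := by
    apply Finset.sum_comm'
    intro S S0
    simp only [Finset.mem_filter, Finset.mem_univ, true_and, Set.mem_ofPred_eq]
    tauto
  rw [h1, Finset.mul_sum]
  apply Finset.sum_congr rfl
  intro S0 hS0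
  have hS0' : S0 ∈ Tw.A j := by simpa using hS0
  have hc := hs_card_A Tw j hS0'
  have key := sum_mass_succ hw hc hj
  rw [← Finset.sum_mul]
  have key' : ∑ S ∈ Finset.univ.filter (fun S : Finset I => S0 ⊆ S ∧ S.card = j + 2),
      (mass w S : ℝ) = ((n - j : ℕ) : ℝ) * (mass w S0 : ℝ) := by
    rw [← Nat.cast_mul, ← key]
    push_cast
    apply Finset.sum_congr _ (fun _ _ => rfl)
    ext S
    simp
  rw [key']
  ring

open Classical in
/-- (H4) -/
theorem step_ineq {pt : I → X} {w : Finset I → ℕ} {ρ ε lam T T' : ℝ} {n j N K : ℕ}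
    (hj : j < n) (Tw : Tower pt w ρ) (hw : IsWeight pt w n ε) (ctr : Fin N → X)
    (hlam : 0 < lam) (hε : 0 < ε) (hK : 1 ≤ K) (hR : 1 ≤ lam * (K * ε)) (hle : lam * ε ≤ 1 / 4)
    (hρ : K * ε ≤ ρ)
    (hcard : ∀ x : X,
      ((Finset.univ.filter (fun y : Fin N => dist x (ctr y) ≤ K * ε + ε)).card : ℝ) ≤
        Real.exp (lam * (K * ε)))
    (hT : K * ε + ε ≤ T) (hT' : T' ≤ K * ε - 2 / lam) :
    3 / 10 * ∑ S ∈ Finset.univ.filter (fun S => S ∈ Tw.A (j + 1)),
        (mass w S : ℝ) * qfun ctr lam T' (pos pt S) ≤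
      8 * (lam * ε) * (n - j : ℕ) * ∑ S ∈ Finset.univ.filter (fun S => S ∈ Tw.A j),
        (mass w S : ℝ) * qfun ctr lam T (pos pt S) ∧
    ((∀ S ∈ Tw.A (j + 1), mass w S ≠ 0 → pos pt S ∈ Set.range ctr) →
      3 / 10 * ∑ S ∈ Finset.univ.filter (fun S => S ∈ Tw.A (j + 1)), (mass w S : ℝ) ≤
      8 * (lam * ε) * (n - j : ℕ) * ∑ S ∈ Finset.univ.filter (fun S => S ∈ Tw.A j),
        (mass w S : ℝ) * qfun ctr lam T (pos pt S)) := by
  have h0 : 0 < Real.exp (-lam * ε) := Real.exp_pos _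
  have h1 : Real.exp (-lam * ε) < 1 := by
    rw [Real.exp_lt_one_iff]
    have := mul_pos hlam hε
    linarith
  have main : ∑ S ∈ Finset.univ.filter (fun S => S ∈ Tw.A (j + 1)),
      (mass w S : ℝ) * prob (N := N) (Real.exp (-lam * ε)) K
        (fun k => carve ctr ε k (pos pt S) ≠ none) ≤
      8 * (lam * ε) * (n - j : ℕ) * ∑ S ∈ Finset.univ.filter (fun S => S ∈ Tw.A j),
        (mass w S : ℝ) * qfun ctr lam T (pos pt S) := by
    set M := ∑ S ∈ Finset.univ.filter (fun S : Finset I => S ∈ {S' : Finset I | S'.card = j + 2}),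
      (mass w S : ℝ) * prob (N := N) (Real.exp (-lam * ε)) K
        (fun k => Mixed pt (Tw.A j) (carve ctr ε k) S) with hM
    have hB : ∑ S ∈ Finset.univ.filter (fun S => S ∈ Tw.A (j + 1)),
        (mass w S : ℝ) * prob (N := N) (Real.exp (-lam * ε)) K
          (fun k => carve ctr ε k (pos pt S) ≠ none) ≤ 2 * M := by
      have hs1 : ∑ S ∈ Finset.univ.filter (fun S => S ∈ Tw.A (j + 1)),
          (mass w S : ℝ) * prob (N := N) (Real.exp (-lam * ε)) K
            (fun k => carve ctr ε k (pos pt S) ≠ none) ≤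
          ∑ S ∈ Finset.univ.filter (fun S => S ∈ Tw.A (j + 1)),
          ((mass w S : ℝ) * prob (N := N) (Real.exp (-lam * ε)) K
            (fun k => Good pt (Tw.A j) (carve ctr ε k) S) +
           (mass w S : ℝ) * prob (N := N) (Real.exp (-lam * ε)) K
            (fun k => Mixed pt (Tw.A j) (carve ctr ε k) S)) := by
        apply Finset.sum_le_sum
        intro S hS
        rw [← mul_add]
        apply mul_le_mul_of_nonneg_left _ (Nat.cast_nonneg _)
        exact hs_stepB Tw ctr h0 h1 hK (by simpa using hS)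
      rw [Finset.sum_add_distrib] at hs1
      have hs2 := hs_stepA (j := j) Tw ctr h0 h1 hε hK hρ
      have hs3 : ∑ S ∈ Finset.univ.filter (fun S => S ∈ Tw.A (j + 1)),
           (mass w S : ℝ) * prob (N := N) (Real.exp (-lam * ε)) K
            (fun k => Mixed pt (Tw.A j) (carve ctr ε k) S) ≤ M := by
        rw [hM]
        apply Finset.sum_le_sum_of_subset_of_nonneg
        · intro S hS
          simp only [Finset.mem_filter, Finset.mem_univ, true_and, Set.mem_ofPred_eq] at hS ⊢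
          exact hs_card_A Tw (j + 1) hS
        · intro S _ _
          exact mul_nonneg (Nat.cast_nonneg _) (hs_prob_nonneg h0 h1 hK _)
      linarith
    have hC : M ≤ 4 * (lam * ε) * (n - j : ℕ) *
        ∑ S ∈ Finset.univ.filter (fun S => S ∈ Tw.A j),
        (mass w S : ℝ) * qfun ctr lam T (pos pt S) := by
      rw [← hs_stepD hj Tw hw ctr, hM]
      apply Finset.sum_le_sum
      intro S hS
      have hS' : S.card = j + 2 := by simpa using hS
      exact hs_stepC Tw hw ctr hlam hε hK hR hle hcard hT h0 h1 hS'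
    calc _ ≤ 2 * M := hB
      _ ≤ 2 * (4 * (lam * ε) * (n - j : ℕ) *
        ∑ S ∈ Finset.univ.filter (fun S => S ∈ Tw.A j),
        (mass w S : ℝ) * qfun ctr lam T (pos pt S)) := by linarith
      _ = _ := by ring
  constructor
  · refine le_trans ?_ main
    rw [Finset.mul_sum]
    apply Finset.sum_le_sum
    intro S _
    have h3 := (prob_touch (N := N) (K := K) ctr hlam hε hK hR hle (pos pt S)).1
    have h4 := hs_qfun_mono ctr lam hT' (pos pt S)
    have h5 : 3 / 10 * qfun ctr lam T' (pos pt S) ≤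
        prob (N := N) (Real.exp (-lam * ε)) K (fun k => carve ctr ε k (pos pt S) ≠ none) := by
      linarith
    calc 3 / 10 * ((mass w S : ℝ) * qfun ctr lam T' (pos pt S))
        = (mass w S : ℝ) * (3 / 10 * qfun ctr lam T' (pos pt S)) := by ring
      _ ≤ _ := mul_le_mul_of_nonneg_left h5 (Nat.cast_nonneg _)
  · intro hr
    refine le_trans ?_ main
    rw [Finset.mul_sum]
    apply Finset.sum_le_sum
    intro S hS
    by_cases hm : mass w S = 0
    · simp [hm]
    · have h3 := (prob_touch (N := N) (K := K) ctr hlam hε hK hR hle (pos pt S)).2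
        (hr S (by simpa using hS) hm)
      rw [h3]
      have : (0 : ℝ) ≤ mass w S := Nat.cast_nonneg _
      linarith

end Heart2

end SimpVol
end
end
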