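import Mathlib

/-!
# MP_fa46d7_gt: the objects of the statement

Singular chains, fundamental cycles, the simplicial norm (simplicial volume), the systole, the
normalized Hausdorff measure (Riemannian volume) and the supremum of the volumes of the balls.
-/

set_option autoImplicit false

open scoped Topology ENNReal NNReal ContDiff Manifold
open MeasureTheory Bundle

noncomputable section

namespace SimpVol

/-! ## Part 0: singular chains, fundamental cycles, simplicial volume, systole -/

/-- The standard `m`-simplex. -/
abbrev Smp (m : ℕ) : Type := stdSimplex ℝ (Fin (m + 1))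

/-- The affine map of standard simplices induced by a map of the vertices. -/
def smap {j m : ℕ} (θ : Fin (j + 1) → Fin (m + 1)) : C(Smp j, Smp m) :=
  ⟨stdSimplex.map θ, stdSimplex.continuous_map θ⟩

/-- The `i`-th vertex of the standard simplex. -/
def vtx {m : ℕ} (i : Fin (m + 1)) : Smp m := stdSimplex.vertex i

/-- Singular `m`-simplices of a space. -/
abbrev Sing (M : Type*) [TopologicalSpace M] (m : ℕ) : Type _ := C(Smp m, M)

/-- The `i`-th face of a singular simplex. -/
def sface {M : Type*} [TopologicalSpace M] {m : ℕ} (i : Fin (m + 2)) (σ : Sing M (m + 1)) :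
    Sing M m :=
  σ.comp (smap (Fin.succAbove i))

/-- Singular `m`-chains with coefficients in `R`. -/
abbrev SChain (R : Type*) [Ring R] (M : Type*) [TopologicalSpace M] (m : ℕ) : Type _ :=
  Sing M m →₀ R

/-- The boundary operator on singular chains. -/
def sbd (R : Type*) [Ring R] {M : Type*} [TopologicalSpace M] {m : ℕ} :
    SChain R M (m + 1) →ₗ[R] SChain R M m :=
  Finsupp.linearCombination R
    (fun σ => ∑ i : Fin (m + 2), (-1 : R) ^ (i : ℕ) • Finsupp.single (sface i σ) (1 : R))

/-- The chain `c` is a chain of `M \ {x}`: no simplex of `c` passes through `x`. -/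
def OffPoint {R : Type*} [Ring R] {M : Type*} [TopologicalSpace M] {m : ℕ} (x : M)
    (c : SChain R M m) : Prop :=
  ∀ σ ∈ c.support, x ∉ Set.range (σ : Smp m → M)

/-- Relative to the complement of `x`, the chain `y` is homologous to an integer multiple of `z`. -/
def IsMultipleAt {M : Type*} [TopologicalSpace M] {n : ℕ} (x : M) (z y : SChain ℤ M n) : Prop :=
  ∃ (k : ℤ) (w : SChain ℤ M (n + 1)) (y' : SChain ℤ M n),
    OffPoint x y' ∧ y = k • z + sbd ℤ w + y'

/-- `z` is an integral fundamental cycle of the `(n+1)`-dimensional space `M`: an integral cycle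
whose class generates the local homology group `H_{n+1}(M, M \ {x}; ℤ)` at every point `x`. -/
structure IsFundamentalCycle {M : Type*} [TopologicalSpace M] {n : ℕ}
    (z : SChain ℤ M (n + 1)) : Prop where
  cycle : sbd ℤ z = 0
  generates : ∀ (x : M) (y : SChain ℤ M (n + 1)), OffPoint x (sbd ℤ y) → IsMultipleAt x z y

/-- The real chain with the same coefficients. -/
def realChain {M : Type*} [TopologicalSpace M] {m : ℕ} (c : SChain ℤ M m) : SChain ℝ M m :=
  Finsupp.mapRange (Int.cast : ℤ → ℝ) Int.cast_zero c

/-- The `ℓ¹`-norm of a real chain. -/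
def l1 {M : Type*} [TopologicalSpace M] {m : ℕ} (c : SChain ℝ M m) : ℝ :=
  c.sum fun _ a => |a|

/-- The simplicial norm of the real homology class of the cycle `z`: the infimum of the
`ℓ¹`-norms of the real cycles `z + ∂w` homologous to `z`. For a fundamental cycle of a closed
oriented manifold this is the simplicial volume. -/
def simplicialNorm {M : Type*} [TopologicalSpace M] {n : ℕ} (z : SChain ℤ M n) : ℝ :=
  ⨅ w : SChain ℝ M (n + 1), l1 (realChain z + sbd ℝ w)

/-- The length of a path in a metric space. -/
def pathLen {M : Type*} [PseudoEMetricSpace M] {x y : M} (γ : Path x y) : ℝ≥0∞ :=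
  eVariationOn (γ : unitInterval → M) Set.univ

/-- The systole: the infimum of the lengths of the loops which are not null-homotopic. -/
def systole (M : Type*) [PseudoEMetricSpace M] : ℝ≥0∞ :=
  ⨅ (x : M) (γ : Path x x) (_ : ¬ γ.Homotopic (Path.refl x)), pathLen γ

/-- The `n`-dimensional volume: the Hausdorff measure normalized so that the unit cube of
Euclidean space has volume `1`; on a Riemannian `n`-manifold it is the Riemannian volume. -/
def vol (n : ℕ) {M : Type*} [EMetricSpace M] [MeasurableSpace M] [BorelSpace M] : Measure M :=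
  (Measure.hausdorffMeasure (n : ℝ)
    {v : EuclideanSpace ℝ (Fin n) | ∀ i, v i ∈ Set.Icc (0 : ℝ) 1})⁻¹ •
      Measure.hausdorffMeasure (n : ℝ)

/-- The supremum of the volumes of the balls of radius `r`. -/
def volSup (n : ℕ) (M : Type*) [MetricSpace M] [MeasurableSpace M] [BorelSpace M] (r : ℝ) :
    ℝ≥0∞ :=
  ⨆ x : M, vol n (Metric.ball x r)

/-- `M`, with its distance, is a closed connected Riemannian manifold modelled on `E`: it is compact
and connected and it has a smooth atlas with values in `E` and a smooth Riemannian metric whose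
distance is the given distance of `M`. -/
def IsClosedRiemannian (E : Type) [NormedAddCommGroup E] [NormedSpace ℝ E] (M : Type)
    [MetricSpace M] : Prop :=
  CompactSpace M ∧ ConnectedSpace M ∧
    ∃ (_ : ChartedSpace E M) (_ : IsManifold 𝓘(ℝ, E) ∞ M)
      (_ : RiemannianBundle (fun x : M => TangentSpace 𝓘(ℝ, E) x)),
      IsContMDiffRiemannianBundle 𝓘(ℝ, E) ∞ E (fun x : M => TangentSpace 𝓘(ℝ, E) x) ∧
        IsRiemannianManifold 𝓘(ℝ, E) M

end SimpVol
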