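import Pool.Agent.Lib.MP_fa46d7_gt.Defs
import Pool.Agent.Lib.MP_fa46d7_gt.GLen
import Pool.Agent.Lib.MP_fa46d7_gt.FSper
import Pool.Agent.Lib.MP_fa46d7_gt.HLoc
import Pool.Agent.Lib.MP_fa46d7_gt.BCob
import Pool.Agent.Lib.MP_fa46d7_gt.APi
import Pool.Agent.Lib.MP_fa46d7_gt.FCoeff
import Pool.Agent.Lib.MP_fa46d7_gt.HStep
import Pool.Agent.Lib.MP_fa46d7_gt.BKan

section

/-! # Counting net points -/

set_option autoImplicit false

open scoped Topology ENNReal NNReal ContDiff Manifold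
open MeasureTheory

noncomputable section

namespace SimpVol

/-- (E5) -/
theorem net_count {M : Type} [MetricSpace M] [MeasurableSpace M] [BorelSpace M] {n K : ℕ}
    {L R ε : ℝ} (h : LB n L R M) (hε : 0 < ε) (hεR : ε ≤ R) (y : Fin K → M)
    (hsep : ∀ i j, i ≠ j → ε ≤ dist (y i) (y j)) (x : M) (s : ℝ) :
    ENNReal.ofReal ((Finset.univ.filter (fun i => dist (y i) x < s)).card * (ε / L ^ 2) ^ n) ≤
      Measure.hausdorffMeasure (n : ℝ) (Metric.ball x (s + ε / 2)) := by
  classical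
  set Fl := Finset.univ.filter (fun i => dist (y i) x < s) with hFl
  have hdis : Set.PairwiseDisjoint (Fl : Set (Fin K)) (fun i => Metric.ball (y i) (ε / 2)) := by
    intro i _ j _ hij
    apply Metric.ball_disjoint_ball
    linarith [hsep i j hij]
  have h1 := measure_biUnion_finset (μ := Measure.hausdorffMeasure (n : ℝ)) hdis
    (fun i _ => Metric.isOpen_ball.measurableSet)
  have h2 : (⋃ i ∈ Fl, Metric.ball (y i) (ε / 2)) ⊆ Metric.ball x (s + ε / 2) := by
    intro z hz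
    simp only [Set.mem_iUnion, exists_prop] at hz
    obtain ⟨i, hi, hz⟩ := hz
    have h3 : dist (y i) x < s := (Finset.mem_filter.mp hi).2
    rw [Metric.mem_ball] at hz ⊢
    linarith [dist_triangle z (y i) x]
  refine le_trans ?_ (measure_mono h2)
  rw [h1]
  have h4 : ∀ i ∈ Fl, ENNReal.ofReal ((ε / L ^ 2) ^ n) ≤
      Measure.hausdorffMeasure (n : ℝ) (Metric.ball (y i) (ε / 2)) := by
    intro i _
    have h5 := ball_vol_lower h (s := ε / 2) (by linarith) (by linarith) (y i)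
    have h6 : 2 * (ε / 2) / L ^ 2 = ε / L ^ 2 := by ring
    rwa [h6] at h5
  calc ENNReal.ofReal (Fl.card * (ε / L ^ 2) ^ n)
      = ∑ i ∈ Fl, ENNReal.ofReal ((ε / L ^ 2) ^ n) := by
        rw [Finset.sum_const, nsmul_eq_mul, ENNReal.ofReal_mul (Nat.cast_nonneg _),
          ENNReal.ofReal_natCast]
    _ ≤ _ := Finset.sum_le_sum h4

end SimpVol
end
end

section

/-!
# MP_fa46d7_gt: cocycles and subdivision (SV-55)
-/

set_option autoImplicit false

open scoped Topology ENNReal NNReal ContDiff Manifold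
open MeasureTheory

noncomputable section

namespace SimpVol

/-- Evaluation of a real function on chains. -/
private def zs_ev {M : Type} [TopologicalSpace M] {m : ℕ} (c : Sing M m → ℝ) :
    SChain ℤ M m →ₗ[ℤ] ℝ :=
  Finsupp.linearCombination ℤ c

private theorem zs_ev_apply {M : Type} [TopologicalSpace M] {m : ℕ} (c : Sing M m → ℝ)
    (z : SChain ℤ M m) : zs_ev c z = z.sum (fun τ a => (a : ℝ) * c τ) := by
  rw [zs_ev, Finsupp.linearCombination_apply]
  exact Finsupp.sum_congr fun τ _ => by rw [zsmul_eq_mul]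

private theorem zs_ev_sbd {M : Type} [TopologicalSpace M] {m : ℕ} (c : Sing M m → ℝ)
    (hc : ∀ ρ : Sing M (m + 1), ∑ i : Fin (m + 2), (-1 : ℝ) ^ (i : ℕ) * c (sface i ρ) = 0)
    (w : SChain ℤ M (m + 1)) : zs_ev c (sbd ℤ w) = 0 := by
  have h : (zs_ev c).comp (sbd ℤ) = (0 : SChain ℤ M (m + 1) →ₗ[ℤ] ℝ) := by
    refine Finsupp.lhom_ext' fun ρ => LinearMap.ext_ring ?_
    simp only [LinearMap.comp_apply, Finsupp.lsingle_apply, LinearMap.zero_apply]
    rw [sbd, Finsupp.linearCombination_single, one_smul, map_sum]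
    rw [← hc ρ]
    refine Finset.sum_congr rfl fun i _ => ?_
    rw [map_smul, zs_ev, Finsupp.linearCombination_single, one_smul, zsmul_eq_mul]
    push_cast
    rfl
  exact LinearMap.congr_fun h w

theorem cocycle_SdI {M : Type} [TopologicalSpace M] {n : ℕ} (z : SChain ℤ M (n + 1))
    (hz : sbd ℤ z = 0) (c : Bd (Sing M (n + 1)))
    (hc : ∀ ρ : Sing M (n + 2), ∑ i : Fin (n + 3), (-1 : ℝ) ^ (i : ℕ) * c.1 (sface i ρ) = 0)
    (k : ℕ) :
    sbd ℤ (SdI k z) = 0 ∧
      (SdI k z).sum (fun τ a => (a : ℝ) * c.1 τ) = z.sum (fun τ a => (a : ℝ) * c.1 τ) := by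
  induction k with
  | zero => exact ⟨hz, rfl⟩
  | succ k ih =>
    obtain ⟨h1, h2⟩ := ih
    have hs : SdI (k + 1) z = Sd (SdI k z) := by
      unfold SdI
      rw [pow_succ']
      rfl
    refine ⟨?_, ?_⟩
    · rw [hs, Sd_bd, h1, map_zero]
    · rw [← h2, hs, ← zs_ev_apply, ← zs_ev_apply]
      have h3 := Td_bd (SdI k z)
      rw [h1, map_zero, sub_zero] at h3
      have h4 := zs_ev_sbd c.1 hc (Td (SdI k z))
      rw [h3, map_sub, sub_eq_zero] at h4
      exact h4.symm

end SimpVol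
end
end

section

set_option autoImplicit false

open scoped Topology ENNReal NNReal ContDiff Manifold
open MeasureTheory

noncomputable section

namespace SimpVol

section Heart

variable {I : Type} [LinearOrder I] [Fintype I] {X : Type} [PseudoMetricSpace X] [Nonempty X]

theorem hk_ballMass_mono (pt : I → X) (w : Finset I → ℕ) (A : Set (Finset I)) (x : X) {s t : ℝ}
    (h : s ≤ t) : ballMass pt w A x s ≤ ballMass pt w A x t := by
  classical
  unfold ballMass wsum
  apply Finset.sum_le_sum_of_subset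
  intro S hS
  rw [Finset.mem_filter] at hS ⊢
  exact ⟨hS.1, hS.2.1, lt_of_lt_of_le hS.2.2 h⟩

theorem hk_step {pt : I → X} {w : Finset I → ℕ} {ε r : ℝ} {n : ℕ} (hn : 1 ≤ n)
    (hr : 0 < r) (T : Tower pt w (9 * r / 10)) (hw : IsWeight pt w n ε) (hε : 0 < ε)
    (hεr : ε ≤ r / (8 * n)) (x : X) {j : ℕ} (hj : j < n) :
    (ballMass pt w (T.A (j + 1)) x (9 * r / 10 - (j + 1) * (13 * r / (20 * n))) : ℝ) ≤
      ((n - j : ℕ) : ℝ) * (4 * n * ε / r) *
        ballMass pt w (T.A j) x (9 * r / 10 - j * (13 * r / (20 * n))) := by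
  have hn0 : (0 : ℝ) < n := by exact_mod_cast hn
  set D : ℝ := 13 * r / (20 * n) with hD
  have hDpos : 0 < D := by positivity
  have h8 : ε * (8 * n) ≤ r := by rwa [le_div_iff₀ (by positivity)] at hεr
  have hDε : 5 ≤ D / ε := by
    rw [le_div_iff₀ hε, hD, le_div_iff₀ (by positivity)]
    nlinarith
  obtain ⟨k, hk⟩ : ∃ k : ℕ, k = ⌊D / ε⌋₊ := ⟨_, rfl⟩
  have hk1 : (k : ℝ) ≤ D / ε := by rw [hk]; exact Nat.floor_le (by positivity)
  have hk2 : D / ε < k + 1 := by rw [hk]; exact Nat.lt_floor_add_one _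
  have hk5 : 1 ≤ k := by
    have : (0 : ℝ) < k := by linarith
    exact_mod_cast this
  obtain ⟨K, rfl⟩ : ∃ K, k = K + 1 := ⟨k - 1, by omega⟩
  push_cast at hk1 hk2
  have hKD : ((K : ℝ) + 1) * ε ≤ D := by rwa [le_div_iff₀ hε] at hk1
  have hKlow : D / (2 * ε) ≤ K := by
    have : D / (2 * ε) = (D / ε) / 2 := by field_simp
    rw [this]
    linarith
  have hjD : 0 ≤ (j : ℝ) * D := by positivity
  have hstep := local_step T hw hε hj x (9 * r / 10 - (j + 1) * D + ε) K (by nlinarith)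
  rw [add_sub_cancel_right] at hstep
  have hmono := hk_ballMass_mono pt w (T.A j) x
    (show 9 * r / 10 - (j + 1) * D + ε + K * ε ≤ 9 * r / 10 - j * D by nlinarith)
  have h1 : K * ballMass pt w (T.A (j + 1)) x (9 * r / 10 - (j + 1) * D) ≤
      (n - j) * ballMass pt w (T.A j) x (9 * r / 10 - j * D) :=
    hstep.trans (Nat.mul_le_mul_left _ hmono)
  have h2 : (K : ℝ) * ballMass pt w (T.A (j + 1)) x (9 * r / 10 - (j + 1) * D) ≤
      ((n - j : ℕ) : ℝ) * ballMass pt w (T.A j) x (9 * r / 10 - j * D) := by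
    exact_mod_cast h1
  set N1 : ℝ := (ballMass pt w (T.A (j + 1)) x (9 * r / 10 - (j + 1) * D) : ℝ) with hN1d
  set N0 : ℝ := (ballMass pt w (T.A j) x (9 * r / 10 - j * D) : ℝ) with hN0d
  have hN1 : 0 ≤ N1 := Nat.cast_nonneg _
  have hN0 : 0 ≤ ((n - j : ℕ) : ℝ) * N0 := mul_nonneg (Nat.cast_nonneg _) (Nat.cast_nonneg _)
  have h3 : D / (2 * ε) * N1 ≤ ((n - j : ℕ) : ℝ) * N0 :=
    (mul_le_mul_of_nonneg_right hKlow hN1).trans h2
  have h4 : N1 ≤ (2 * ε / D) * (((n - j : ℕ) : ℝ) * N0) := by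
    have h5 := mul_le_mul_of_nonneg_left h3 (show 0 ≤ 2 * ε / D by positivity)
    calc N1 = 2 * ε / D * (D / (2 * ε) * N1) := by field_simp
      _ ≤ _ := h5
  have h6 : 2 * ε / D ≤ 4 * n * ε / r := by
    have h7 : 2 * ε / D = 40 / 13 * (n * ε / r) := by
      rw [hD]
      field_simp
      ring
    have h8 : 4 * n * ε / r = 4 * (n * ε / r) := by ring
    rw [h7, h8]
    have : 0 ≤ n * ε / r := by positivity
    linarith
  calc N1 ≤ (2 * ε / D) * (((n - j : ℕ) : ℝ) * N0) := h4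
    _ ≤ (4 * n * ε / r) * (((n - j : ℕ) : ℝ) * N0) := mul_le_mul_of_nonneg_right h6 hN0
    _ = _ := by ring

/-- (H2') -/
theorem local_bound {pt : I → X} {w : Finset I → ℕ} {ε r : ℝ} {n : ℕ} (hn : 1 ≤ n)
    (hr : 0 < r) (T : Tower pt w (9 * r / 10)) (hw : IsWeight pt w n ε) (hε : 0 < ε)
    (hεr : ε ≤ r / (8 * n)) (x : X) :
    (ballMass pt w (T.A n) x (r / 4) : ℝ) ≤
      n.factorial * (4 * n * ε / r) ^ n * ballMass pt w (T.A 0) x (9 * r / 10) := by
  have hn0 : (0 : ℝ) < n := by exact_mod_cast hn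
  have key : ∀ j : ℕ, j ≤ n →
      (ballMass pt w (T.A j) x (9 * r / 10 - j * (13 * r / (20 * n))) : ℝ) ≤
        n.descFactorial j * (4 * n * ε / r) ^ j * ballMass pt w (T.A 0) x (9 * r / 10) := by
    intro j
    induction j with
    | zero =>
      intro _
      simp
    | succ j ih =>
      intro hj
      have h1 := hk_step hn hr T hw hε hεr x (show j < n by omega)
      have h2 := ih (by omega)
      have h3 : 0 ≤ ((n - j : ℕ) : ℝ) * (4 * n * ε / r) := by positivity
      push_cast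
      refine h1.trans ((mul_le_mul_of_nonneg_left h2 h3).trans (le_of_eq ?_))
      rw [Nat.descFactorial_succ, pow_succ]
      push_cast
      ring
  have h := key n le_rfl
  rw [Nat.descFactorial_self] at h
  have e : 9 * r / 10 - n * (13 * r / (20 * n)) = r / 4 := by
    field_simp
    ring
  rwa [e] at h

end Heart

end SimpVol
end
end

section

/-!
# MP_fa46d7_gt: the functional bound (B6)
-/

set_option autoImplicit false

open scoped Topology ENNReal NNReal
open MeasureTheory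

noncomputable section

namespace SimpVol

lemma bfu_vert {M : Type} [TopologicalSpace M] {m : ℕ} (i : Fin (m + 2)) (τ : Sing M (m + 1)) :
    verts (sface i τ) = verts τ ∘ Fin.succAbove i := by
  funext j
  simp only [verts, sface, Function.comp_apply, ContinuousMap.comp_apply]
  congr 1
  exact stdSimplex.map_vertex _ _

lemma bfu_pr {M : Type} [TopologicalSpace M] {m : ℕ} (τ : Sing M m) : pr (canLift τ) = τ := by
  ext p
  rfl

section

variable {M : Type} [MetricSpace M] [Nonempty M] {C : ℝ}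
  {I : Type} [LinearOrder I] [Fintype I]

/-- The system of the functionals `Psi`. -/
def bfuSys {n : ℕ} {r ρ e₀ δ₀ : ℝ}
    (K : ∀ x : M, Contr (liftSet x) (n + 1) C)
    (s : ∀ x y : M, Hm x y) (hs : IsShort r s) (pt : I → M) (w : Finset I → ℕ)
    (T : Tower (X := M) pt w ρ) (he0 : 0 ≤ e₀) (hδ : 0 ≤ δ₀) (hr : ρ + 3 * (δ₀ + 2 * e₀) < r)
    (lab : M → I) (hlab : ∀ v, dist v (pt (lab v)) ≤ e₀)
    (hfine : ∀ (m : ℕ) (τ : Sing M (m + 1)) (i : Fin (m + 2)), FineS δ₀ τ →
      fcls i τ = s (τ (vtx 0)) (sface i τ (vtx 0))) :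
    FSys M (n + 1) (fun _ τ => FineS δ₀ τ) where
  F m τ := Psi K s T.A T.l m (lab ∘ verts τ) (τ (vtx 0))
  one τ _ := psi_one K s T.A T.l _ _
  cob m hm τ hτ f := by
    rw [psi_cob K s T.A T.l T.zero T.succ m hm]
    refine Finset.sum_congr rfl fun i _ => ?_
    congr 1
    rw [hfine m τ i hτ, bfu_vert, ← Function.comp_assoc]
    have hd : dist (τ (vtx 0)) (sface i τ (vtx 0)) ≤ δ₀ := hτ _ _
    symm
    refine psi_base (e := δ₀ + 2 * e₀) K s hs pt T.A T.l T.lab (by positivity) hr m _ _ _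
      (by linarith) ?_ ?_ f
    · intro j
      have h1 : dist (τ (vtx 0)) (verts τ (Fin.succAbove i j)) ≤ δ₀ := hτ _ _
      have h2 := hlab (verts τ (Fin.succAbove i j))
      have h3 := dist_triangle (τ (vtx 0)) (verts τ (Fin.succAbove i j))
        (pt (lab (verts τ (Fin.succAbove i j))))
      simp only [Function.comp_apply]
      linarith
    · intro j
      have h1 : dist (sface i τ (vtx 0)) (verts τ (Fin.succAbove i j)) ≤ δ₀ := hτ _ _
      have h2 := hlab (verts τ (Fin.succAbove i j))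
      have h3 := dist_triangle (sface i τ (vtx 0)) (verts τ (Fin.succAbove i j))
        (pt (lab (verts τ (Fin.succAbove i j))))
      simp only [Function.comp_apply]
      linarith

/-- (B6) -/
theorem functional_bound {n : ℕ} {r ρ e e₀ δ₀ : ℝ} (hC : 0 ≤ C)
    (K : ∀ x : M, Contr (liftSet x) (n + 1) C)
    (s : ∀ x y : M, Hm x y) (hs : IsShort r s) (pt : I → M) (w : Finset I → ℕ)
    (T : Tower (X := M) pt w ρ) (he0 : 0 ≤ e₀) (hδ : 0 ≤ δ₀) (hr : ρ + 3 * (δ₀ + 2 * e₀) < r)
    (lab : M → I) (hlab : ∀ v, dist v (pt (lab v)) ≤ e₀)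
    (hfine : ∀ (m : ℕ) (τ : Sing M (m + 1)) (i : Fin (m + 2)), FineS δ₀ τ →
      fcls i τ = s (τ (vtx 0)) (sface i τ (vtx 0)))
    (c : Bd (Sing M (n + 1)))
    (hc : ∀ ρ' : Sing M (n + 2), ∑ i : Fin (n + 3), (-1 : ℝ) ^ (i : ℕ) * c.1 (sface i ρ') = 0)
    (hc1 : ∀ τ, |c.1 τ| ≤ 1)
    (z : SChain ℤ M (n + 1)) (hz : sbd ℤ z = 0) (hsupp : ∀ τ ∈ z.support, FineS δ₀ τ)
    (hw : ∀ U : Finset I, (hU : U.card = n + 2) →
      (w U : ℤ) = |evT (labDet lab (U.orderEmbOfFin hU)) z|) :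
    |z.sum (fun τ a => (a : ℝ) * c.1 τ)| ≤ (n + 2).factorial * C ^ (n + 1) *
      ∑ U ∈ (by classical exact Finset.univ.filter (fun U => U ∈ T.A (n + 1))), (w U : ℝ) := by
  classical
  obtain ⟨E, hE⟩ := evSys_exists (M := M) (n + 1) (fun _ τ => FineS δ₀ τ)
  have hface : ∀ m (i : Fin (m + 2)) (τ : Sing M (m + 1)), FineS δ₀ τ → FineS δ₀ (sface i τ) :=
    fun m i τ h p q => h _ _
  have huniq := fsys_unique (Fine := fun _ τ => FineS δ₀ τ) hface K E
    (bfuSys K s hs pt w T he0 hδ hr lab hlab hfine) c hc z hz hsupp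
  have hL : z.sum (fun τ a => (a : ℝ) * c.1 τ) =
      z.sum (fun τ a => (a : ℝ) * E.F (n + 1) τ (ofSing c _)) := by
    refine Finsupp.sum_congr fun τ _ => ?_
    rw [hE]
    show _ = _ * c.1 (pr (canLift τ))
    rw [bfu_pr]
  rw [hL, huniq]
  have hb1 : ∀ (a : M) (L : (liftSet a).obj (n + 1)), |(ofSing c a).1 L| ≤ 1 := fun a L => hc1 _
  set G : (Fin (n + 2) → I) → ℝ := fun t =>
    if ∀ i i', dist (pt (t i)) (pt (t i')) ≤ δ₀ + 2 * e₀ then
      Psi K s T.A T.l (n + 1) t (pt (t 0)) (ofSing c (pt (t 0))) else 0 with hG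
  -- the terms are values of `G`
  have hterm : ∀ τ ∈ z.support,
      Psi K s T.A T.l (n + 1) (lab ∘ verts τ) (τ (vtx 0)) (ofSing c _) = G (lab ∘ verts τ) := by
    intro τ hτ
    have hf := hsupp τ hτ
    have hv : ∀ i j : Fin (n + 2), dist (verts τ i) (verts τ j) ≤ δ₀ := fun i j => hf _ _
    have hcond : ∀ i i' : Fin (n + 2), dist (pt ((lab ∘ verts τ) i)) (pt ((lab ∘ verts τ) i'))
        ≤ δ₀ + 2 * e₀ := by
      intro i i'
      have h1 := hlab (verts τ i)
      have h2 := hlab (verts τ i')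
      have h3 := hv i i'
      have h4 := dist_triangle4 (pt (lab (verts τ i))) (verts τ i) (verts τ i')
        (pt (lab (verts τ i')))
      rw [dist_comm (pt (lab (verts τ i))) (verts τ i)] at h4
      simp only [Function.comp_apply]
      linarith
    rw [hG]
    simp only
    rw [if_pos hcond]
    have h0 : verts τ 0 = τ (vtx 0) := rfl
    rw [← psi_base (e := δ₀ + 2 * e₀) K s hs pt T.A T.l T.lab (by positivity) hr (n + 1)
      (lab ∘ verts τ) (τ (vtx 0)) (pt ((lab ∘ verts τ) 0)) ?_ ?_ (hcond 0) (ofSing c _),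
      pull_tr_ofSing]
    · have := hlab (τ (vtx 0))
      simp only [Function.comp_apply, h0]
      linarith
    · intro j
      have h1 := hlab (verts τ j)
      have h2 := hv 0 j
      have h3 := dist_triangle (τ (vtx 0)) (verts τ j) (pt (lab (verts τ j)))
      rw [h0] at h2
      simp only [Function.comp_apply]
      linarith
  -- `G` is alternating
  have halt : ∀ t (π : Equiv.Perm (Fin (n + 2))), G (t ∘ π) = (Equiv.Perm.sign π : ℝ) * G t := by
    intro t π
    rw [hG]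
    simp only
    by_cases hcond : ∀ i i', dist (pt (t i)) (pt (t i')) ≤ δ₀ + 2 * e₀
    · have hcond2 : ∀ i i', dist (pt ((t ∘ π) i)) (pt ((t ∘ π) i')) ≤ δ₀ + 2 * e₀ :=
        fun i i' => hcond _ _
      rw [if_pos hcond, if_pos hcond2, psi_alt, LinearMap.smul_apply, smul_eq_mul]
      congr 1
      have hx : ofSing c (pt ((t ∘ π) 0)) = pull (tr (s (pt (t 0)) (pt ((t ∘ π) 0))))
          (ofSing c (pt (t 0))) := (pull_tr_ofSing _ _).symm
      rw [hx]
      exact psi_base (e := δ₀ + 2 * e₀) K s hs pt T.A T.l T.lab (by positivity) hr (n + 1)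
        t (pt (t 0)) (pt ((t ∘ π) 0)) (hcond _ _) (hcond _) (hcond _) (ofSing c _)
    · rw [if_neg hcond, if_neg, mul_zero]
      intro h
      apply hcond
      intro i i'
      have := h (π.symm i) (π.symm i')
      simpa using this
  have hPsi0 : ∀ (t : Fin (n + 2) → I) (a : M),
      ¬ (Function.Injective t ∧ Finset.univ.image t ∈ T.A (n + 1)) →
      Psi K s T.A T.l (n + 1) t a = 0 := by
    intro t a h
    rw [Psi, if_neg]
    convert h
  have hinj : ∀ t, ¬ Function.Injective t → G t = 0 := by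
    intro t ht
    rw [hG]
    simp only
    split_ifs
    · rw [hPsi0 t _ (fun h => ht h.1)]; rfl
    · rfl
  have hexp : ∀ t, G t = ∑ U ∈ (Finset.univ : Finset I).powersetCard (n + 2),
      if h : U.card = n + 2 then
      (labDet id (U.orderEmbOfFin h) t : ℝ) * G (U.orderEmbOfFin h) else 0 := fun t =>
    alt_expansion Finset.univ G halt hinj t (fun i => Finset.mem_univ _)
  have hsum : z.sum (fun τ a => (a : ℝ) *
      (bfuSys K s hs pt w T he0 hδ hr lab hlab hfine).F (n + 1) τ (ofSing c _)) =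
      ∑ U ∈ (Finset.univ : Finset I).powersetCard (n + 2),
        if h : U.card = n + 2 then
        (evT (labDet lab (U.orderEmbOfFin h)) z : ℝ) * G (U.orderEmbOfFin h) else 0 := by
    have h1 : z.sum (fun τ a => (a : ℝ) *
      (bfuSys K s hs pt w T he0 hδ hr lab hlab hfine).F (n + 1) τ (ofSing c _)) =
      ∑ τ ∈ z.support, ∑ U ∈ (Finset.univ : Finset I).powersetCard (n + 2),
        if h : U.card = n + 2 then
          ((z τ * labDet lab (U.orderEmbOfFin h) (verts τ) : ℤ) : ℝ) * G (U.orderEmbOfFin h)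
        else 0 := by
      rw [Finsupp.sum]
      refine Finset.sum_congr rfl fun τ hτ => ?_
      show (z τ : ℝ) * Psi K s T.A T.l (n + 1) (lab ∘ verts τ) (τ (vtx 0)) (ofSing c _) = _
      rw [hterm τ hτ, hexp, Finset.mul_sum]
      refine Finset.sum_congr rfl fun U _ => ?_
      split_ifs with h
      · have : labDet id (U.orderEmbOfFin h) (lab ∘ verts τ) =
            labDet lab (U.orderEmbOfFin h) (verts τ) := rfl
        rw [this]
        push_cast
        ring
      · simp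
    rw [h1, Finset.sum_comm]
    refine Finset.sum_congr rfl fun U _ => ?_
    split_ifs with h
    · rw [← Finset.sum_mul]
      congr 1
      rw [evT, Finsupp.sum]
      push_cast
      rfl
    · simp
  rw [hsum]
  refine (Finset.abs_sum_le_sum_abs _ _).trans ?_
  -- each term
  have hbd : ∀ U ∈ (Finset.univ : Finset I).powersetCard (n + 2),
      |if h : U.card = n + 2 then
        (evT (labDet lab (U.orderEmbOfFin h)) z : ℝ) * G (U.orderEmbOfFin h) else 0| ≤
      if U ∈ T.A (n + 1) then (n + 2).factorial * C ^ (n + 1) * (w U : ℝ) else 0 := by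
    intro U hU
    have hc2 : U.card = n + 2 := (Finset.mem_powersetCard.1 hU).2
    rw [dif_pos hc2, abs_mul]
    have himg : Finset.univ.image (U.orderEmbOfFin hc2) = U := by
      ext x
      rw [Finset.mem_image]
      constructor
      · rintro ⟨i, _, rfl⟩
        exact Finset.orderEmbOfFin_mem U hc2 i
      · intro hx
        have : x ∈ Set.range (U.orderEmbOfFin hc2) := by
          rw [Finset.range_orderEmbOfFin]; exact hx
        obtain ⟨i, hi⟩ := this
        exact ⟨i, Finset.mem_univ _, hi⟩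
    have hwU : |(evT (labDet lab (U.orderEmbOfFin hc2)) z : ℝ)| = (w U : ℝ) := by
      rw [← Int.cast_abs, ← hw U hc2]
      simp
    rw [hwU]
    by_cases hUA : U ∈ T.A (n + 1)
    · rw [if_pos hUA]
      have hGb : |G (U.orderEmbOfFin hc2)| ≤ (n + 2).factorial * C ^ (n + 1) := by
        rw [hG]
        simp only
        split_ifs
        · have := psi_norm K hC s T.A T.l (n + 1) le_rfl (U.orderEmbOfFin hc2)
            (pt (U.orderEmbOfFin hc2 0)) (ofSing c _) 1 (hb1 _)
          simpa using this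
        · simp only [abs_zero]
          positivity
      calc (w U : ℝ) * |G (U.orderEmbOfFin hc2)|
          ≤ (w U : ℝ) * ((n + 2).factorial * C ^ (n + 1)) :=
            mul_le_mul_of_nonneg_left hGb (Nat.cast_nonneg _)
        _ = _ := by ring
    · rw [if_neg hUA]
      have hG0 : G (U.orderEmbOfFin hc2) = 0 := by
        rw [hG]
        simp only
        split_ifs
        · rw [hPsi0 _ _ (fun h => hUA (himg ▸ h.2))]; rfl
        · rfl
      rw [hG0]
      simp
  refine (Finset.sum_le_sum hbd).trans ?_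
  rw [← Finset.sum_filter, Finset.mul_sum]
  refine Finset.sum_le_sum_of_subset_of_nonneg ?_ ?_
  · intro U hU
    rw [Finset.mem_filter] at hU ⊢
    exact ⟨Finset.mem_univ _, hU.2⟩
  · intro U _ _
    positivity

end

end SimpVol
end
end

section

/-!
# MP_fa46d7_gt: (H5) Theorem H
-/

set_option autoImplicit false

open scoped Topology ENNReal NNReal ContDiff Manifold
open MeasureTheory

noncomputable section

namespace SimpVol

section Heart2

set_option linter.unusedSectionVars false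

variable {I : Type} [LinearOrder I] [Fintype I] {X : Type} [PseudoMetricSpace X] [Nonempty X]

theorem hh_pos_singleton (pt : I → X) (y : I) : pos pt ({y} : Finset I) = pt y := by
  simp [pos]

theorem hh_card {pt : I → X} {w : Finset I → ℕ} {ρ : ℝ} (T : Tower pt w ρ) :
    ∀ (j : ℕ) (S : Finset I), S ∈ T.A j → S.card = j + 1 := by
  intro j
  cases j with
  | zero =>
    intro S hS
    rw [T.zero] at hS
    simpa using hS
  | succ j =>
    intro S hS
    rw [T.succ] at hS
    exact hS.1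

open Classical in
theorem hh_sum_zero {M : Type} [AddCommMonoid M] {pt : I → X} {w : Finset I → ℕ} {ρ : ℝ}
    (T : Tower pt w ρ) (f : Finset I → M) (p : Finset I → Prop) :
    ∑ S ∈ Finset.univ.filter (fun S => S ∈ T.A 0 ∧ p S), f S =
      ∑ y ∈ Finset.univ.filter (fun y : I => p {y}), f {y} := by
  symm
  refine Finset.sum_bij (fun y _ => ({y} : Finset I)) ?_ ?_ ?_ ?_
  · intro y hy
    simp only [Finset.mem_filter, Finset.mem_univ, true_and] at hy ⊢
    refine ⟨?_, hy⟩
    rw [T.zero]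
    simp
  · intro a _ b _ hab
    simpa using hab
  · intro S hS
    simp only [Finset.mem_filter, Finset.mem_univ, true_and] at hS
    obtain ⟨hS0, hp⟩ := hS
    rw [T.zero] at hS0
    obtain ⟨a, rfl⟩ := Finset.card_eq_one.mp hS0
    exact ⟨a, by simpa using hp, rfl⟩
  · intro a _
    rfl

open Classical in
theorem hh_ballMass_zero {pt : I → X} {w : Finset I → ℕ} {ρ : ℝ}
    (T : Tower pt w ρ) (x : X) (t : ℝ) :
    (ballMass pt w (T.A 0) x t : ℝ) =
      ∑ y ∈ Finset.univ.filter (fun y : I => dist (pt y) x < t), (mass w {y} : ℝ) := by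
  unfold ballMass wsum
  push_cast
  rw [hh_sum_zero T (fun S => (mass w S : ℝ)) (fun S => dist (pos pt S) x < t)]
  simp only [hh_pos_singleton]

theorem hh_qfun_nonneg {N : ℕ} (ctr : Fin N → X) (lam T : ℝ) (x : X) :
    0 ≤ qfun ctr lam T x := by
  unfold qfun
  refine le_min zero_le_one (Finset.sum_nonneg fun _ _ => (Real.exp_pos _).le)

theorem hh_qfun_le_one {N : ℕ} (ctr : Fin N → X) (lam T : ℝ) (x : X) :
    qfun ctr lam T x ≤ 1 := by
  unfold qfun
  exact min_le_left _ _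

/-- Local bound, in terms of `V`. -/
theorem hh_local {n : ℕ} (hn : 1 ≤ n) {r ε V : ℝ} (hr : 0 < r) (hε : 0 < ε)
    {pt : I → X} {w : Finset I → ℕ} (hw : IsWeight pt w n ε) (T : Tower pt w (9 * r / 10))
    (hεr : ε ≤ r / (8 * n))
    (hV : ∀ x : X, (ballMass pt w (T.A 0) x (9 * r / 10) : ℝ) ≤ V * (ε ^ n)⁻¹) (x : X) :
    (ballMass pt w (T.A n) x (r / 4) : ℝ) ≤ n.factorial * (4 * n) ^ n / r ^ n * V := by
  refine (local_bound hn hr T hw hε hεr x).trans ?_
  have h0 : (0 : ℝ) ≤ n.factorial * (4 * n * ε / r) ^ n := by positivity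
  refine (mul_le_mul_of_nonneg_left (hV x) h0).trans (le_of_eq ?_)
  have hεn : ε ^ n ≠ 0 := by positivity
  rw [div_pow, mul_pow]
  field_simp

open Classical in
/-- Points of the support near `x`. -/
theorem hh_count {n : ℕ} {r ε B : ℝ} {pt : I → X} {w : Finset I → ℕ}
    (hw : IsWeight pt w n ε) {ρ : ℝ} (T : Tower pt w ρ)
    (hB : ∀ x : X, (ballMass pt w (T.A n) x (r / 4) : ℝ) ≤ B)
    {N : ℕ} (ctr : Fin N → X) (hinj : Function.Injective ctr)
    (hctr : ∀ y, ∃ U, U ∈ T.A n ∧ w U ≠ 0 ∧ pos pt U = ctr y) (x : X) {t : ℝ}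
    (ht : t < r / 4) :
    ((Finset.univ.filter (fun y : Fin N => dist x (ctr y) ≤ t)).card : ℝ) ≤ B := by
  choose g hg1 hg2 hg3 using hctr
  refine le_trans ?_ (hB x)
  have hginj : Function.Injective g := by
    intro a b hab
    apply hinj
    rw [← hg3 a, ← hg3 b, hab]
  unfold ballMass wsum
  have h1 : (Finset.univ.filter (fun y : Fin N => dist x (ctr y) ≤ t)).card ≤
      ∑ S ∈ (Finset.univ.filter (fun y : Fin N => dist x (ctr y) ≤ t)).image g, mass w S := by
    rw [Finset.sum_image (fun a _ b _ h => hginj h), Finset.card_eq_sum_ones]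
    refine Finset.sum_le_sum fun y _ => ?_
    rw [mass_top hw (hh_card T n _ (hg1 y))]
    exact Nat.one_le_iff_ne_zero.mpr (hg2 y)
  have h2 : ∑ S ∈ (Finset.univ.filter (fun y : Fin N => dist x (ctr y) ≤ t)).image g, mass w S ≤
      ∑ S ∈ Finset.univ.filter (fun S => S ∈ T.A n ∧ dist (pos pt S) x < r / 4), mass w S := by
    refine Finset.sum_le_sum_of_subset ?_
    intro S hS
    simp only [Finset.mem_image, Finset.mem_filter, Finset.mem_univ, true_and] at hS ⊢
    obtain ⟨y, hy, rfl⟩ := hS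
    refine ⟨hg1 y, ?_⟩
    rw [hg3 y, dist_comm]
    exact lt_of_le_of_lt hy ht
  exact_mod_cast h1.trans h2

open Classical in
/-- The induction. -/
theorem hh_induct {n : ℕ} {r ε lam B : ℝ} {m : ℕ} (hnm : n = m + 1) (hr : 0 < r) (hε : 0 < ε)
    {pt : I → X} {w : Finset I → ℕ} (hw : IsWeight pt w n ε) (T : Tower pt w (9 * r / 10))
    (hB : ∀ x : X, (ballMass pt w (T.A n) x (r / 4) : ℝ) ≤ B)
    (hlamr : 64 * n ≤ lam * r) (hBe : B ≤ Real.exp (lam * r / 16)) (hle : lam * ε ≤ 1 / 4) :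
    ∑ U ∈ Finset.univ.filter (fun U => U ∈ T.A n), (w U : ℝ) ≤
      (27 * n * (lam * ε)) ^ n * ∑ y : I, (mass w {y} : ℝ) := by
  have hn : (1 : ℝ) ≤ n := by
    subst hnm; push_cast; linarith [(Nat.cast_nonneg m : (0 : ℝ) ≤ m)]
  have hlam : 0 < lam := by
    by_contra h
    push Not at h
    have := mul_nonpos_of_nonpos_of_nonneg h hr.le
    linarith
  -- centres
  set Z : Finset X :=
    (Finset.univ.filter (fun U : Finset I => U ∈ T.A n ∧ w U ≠ 0)).image (pos pt) with hZ
  set N : ℕ := Z.card with hN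
  set ctr : Fin N → X := fun i => (Z.equivFin.symm i : X) with hctrdef
  have hinj : Function.Injective ctr := by
    intro a b hab
    exact Z.equivFin.symm.injective (Subtype.ext hab)
  have hctr : ∀ y, ∃ U, U ∈ T.A n ∧ w U ≠ 0 ∧ pos pt U = ctr y := by
    intro y
    have h : ctr y ∈ Z := (Z.equivFin.symm y).2
    rw [hZ, Finset.mem_image] at h
    obtain ⟨U, hU, hU'⟩ := h
    rw [Finset.mem_filter] at hU
    exact ⟨U, hU.2.1, hU.2.2, hU'⟩
  have hrange : ∀ S ∈ T.A n, mass w S ≠ 0 → pos pt S ∈ Set.range ctr := by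
    intro S hS hm
    rw [mass_top hw (hh_card T n S hS)] at hm
    have h : pos pt S ∈ Z := by
      rw [hZ, Finset.mem_image]
      exact ⟨S, by simp [hS, hm], rfl⟩
    refine ⟨Z.equivFin ⟨pos pt S, h⟩, ?_⟩
    simp [hctrdef]
  -- radii
  set a : ℕ := ⌈r / (16 * ε)⌉₊ with ha
  set b : ℕ := ⌈3 / (lam * ε)⌉₊ with hb
  have ha1 : r / 16 ≤ a * ε := by
    have h := Nat.le_ceil (r / (16 * ε))
    rw [← ha] at h
    calc r / 16 = r / (16 * ε) * ε := by field_simp
      _ ≤ a * ε := mul_le_mul_of_nonneg_right h hε.le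
  have ha2 : a * ε ≤ r / 16 + ε := by
    have h := Nat.ceil_lt_add_one (a := r / (16 * ε)) (by positivity)
    rw [← ha] at h
    calc (a : ℝ) * ε ≤ (r / (16 * ε) + 1) * ε := mul_le_mul_of_nonneg_right h.le hε.le
      _ = r / 16 + ε := by field_simp
  have hb1 : 3 / lam ≤ b * ε := by
    have h := Nat.le_ceil (3 / (lam * ε))
    rw [← hb] at h
    calc 3 / lam = 3 / (lam * ε) * ε := by field_simp
      _ ≤ b * ε := mul_le_mul_of_nonneg_right h hε.le
  have hb2 : b * ε ≤ 3 / lam + ε := by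
    have h := Nat.ceil_lt_add_one (a := 3 / (lam * ε)) (by positivity)
    rw [← hb] at h
    calc (b : ℝ) * ε ≤ (3 / (lam * ε) + 1) * ε := mul_le_mul_of_nonneg_right h.le hε.le
      _ = 3 / lam + ε := by field_simp
  have hεlam : ε ≤ 1 / (4 * lam) := by
    rw [le_div_iff₀ (by positivity)]
    linarith
  have hrlam : 4 * n / lam ≤ r / 16 := by
    rw [div_le_div_iff₀ hlam (by norm_num)]
    linarith
  have hapos : 1 ≤ a := by
    rw [ha]
    exact Nat.one_le_iff_ne_zero.mpr (by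
      have : 0 < ⌈r / (16 * ε)⌉₊ := Nat.ceil_pos.mpr (by positivity)
      omega)
  set K : ℕ → ℕ := fun j => a + (m - j) * b with hK
  have hK1 : ∀ j, 1 ≤ K j := fun j => by simp only [hK]; omega
  have hKlow : ∀ j, r / 16 ≤ K j * ε := by
    intro j
    have : (a : ℝ) ≤ K j := by
      simp only [hK]; push_cast
      have : (0 : ℝ) ≤ ((m - j : ℕ) : ℝ) * b := by positivity
      linarith
    exact ha1.trans (mul_le_mul_of_nonneg_right this hε.le)
  have hKup : ∀ j, K j * ε + ε ≤ r / 8 := by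
    intro j
    have h1 : (K j : ℝ) * ε ≤ a * ε + m * (b * ε) := by
      simp only [hK]; push_cast
      have h2 : (((m - j : ℕ) : ℝ)) ≤ m := by
        exact_mod_cast Nat.sub_le m j
      have h3 : ((m - j : ℕ) : ℝ) * (b * ε) ≤ m * (b * ε) :=
        mul_le_mul_of_nonneg_right h2 (by positivity)
      nlinarith [h3]
    have hm : (m : ℝ) = n - 1 := by subst hnm; push_cast; ring
    have h4 : (m : ℝ) * (b * ε) ≤ m * (3 / lam + ε) :=
      mul_le_mul_of_nonneg_left hb2 (by positivity)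
    have h5 : (K j : ℝ) * ε + ε ≤ r / 16 + (n - 1) * (3 / lam) + (n + 1) * ε := by
      rw [hm] at h1 h4
      linarith [h1, h4, ha2]
    have h6 : (n + 1 : ℝ) * ε ≤ (n + 1) * (1 / (4 * lam)) :=
      mul_le_mul_of_nonneg_left hεlam (by positivity)
    have h7 : (n - 1 : ℝ) * (3 / lam) + (n + 1) * (1 / (4 * lam)) ≤ 4 * n / lam := by
      have : 4 * n / lam - ((n - 1 : ℝ) * (3 / lam) + (n + 1) * (1 / (4 * lam))) =
          (3 * n + 11) / (4 * lam) := by
        field_simp; ring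
      have h8 : 0 ≤ (3 * (n : ℝ) + 11) / (4 * lam) := by positivity
      linarith
    linarith
  have hKstep : ∀ j, j < m → (K (j + 1) : ℝ) * ε + ε ≤ K j * ε - 2 / lam := by
    intro j hj
    have h1 : (K j : ℝ) = K (j + 1) + b := by
      simp only [hK]
      have : m - j = (m - (j + 1)) + 1 := by omega
      rw [this]
      push_cast
      ring
    have h2 : 2 / lam + ε ≤ 3 / lam := by
      have h3 : 1 / (4 * lam) ≤ 1 / lam := by
        apply one_div_le_one_div_of_le hlam; linarith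
      have h4 : 3 / lam = 2 / lam + 1 / lam := by ring
      linarith
    rw [h1]
    linarith [hb1]
  -- common hypotheses of the step inequality
  have hR : ∀ j, 1 ≤ lam * (K j * ε) := by
    intro j
    have h1 := mul_le_mul_of_nonneg_left (hKlow j) hlam.le
    linarith
  have hρ : ∀ j, (K j : ℝ) * ε ≤ 9 * r / 10 := by
    intro j
    have := hKup j
    linarith
  have hcard : ∀ j, ∀ x : X,
      ((Finset.univ.filter (fun y : Fin N => dist x (ctr y) ≤ K j * ε + ε)).card : ℝ) ≤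
        Real.exp (lam * (K j * ε)) := by
    intro j x
    refine (hh_count hw T hB ctr hinj hctr x (t := K j * ε + ε) ?_).trans (hBe.trans ?_)
    · have := hKup j
      linarith
    · apply Real.exp_le_exp.mpr
      have h1 := mul_le_mul_of_nonneg_left (hKlow j) hlam.le
      linarith
  set Q : ℕ → ℝ := fun j => ∑ S ∈ Finset.univ.filter (fun S => S ∈ T.A j),
    (mass w S : ℝ) * qfun ctr lam (K j * ε + ε) (pos pt S) with hQ
  have hQnn : ∀ j, 0 ≤ Q j := fun j =>
    Finset.sum_nonneg fun S _ => mul_nonneg (Nat.cast_nonneg _) (hh_qfun_nonneg _ _ _ _)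
  have hfac : ∀ j (P : ℝ), 3 / 10 * P ≤ 8 * (lam * ε) * (n - j : ℕ) * Q j →
      P ≤ 27 * n * (lam * ε) * Q j := by
    intro j P hP
    have h1 : (((n - j : ℕ) : ℝ)) ≤ n := by exact_mod_cast Nat.sub_le n j
    have h2 : 8 * (lam * ε) * (n - j : ℕ) * Q j ≤ 8 * (lam * ε) * n * Q j := by
      apply mul_le_mul_of_nonneg_right _ (hQnn j)
      exact mul_le_mul_of_nonneg_left h1 (by positivity)
    have h3 : 0 ≤ (lam * ε) * n * Q j := by
      have := hQnn j
      positivity
    nlinarith [h2, h3, hP]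
  have hstep : ∀ j, j < m → Q (j + 1) ≤ 27 * n * (lam * ε) * Q j := by
    intro j hj
    apply hfac j
    exact (step_ineq (K := K j) (by omega : j < n) T hw ctr hlam hε (hK1 j) (hR j) hle (hρ j)
      (hcard j) le_rfl (hKstep j hj)).1
  have hind : ∀ j, j ≤ m → Q j ≤ (27 * n * (lam * ε)) ^ j * Q 0 := by
    intro j
    induction j with
    | zero => intro _; simp
    | succ j ih =>
      intro hj
      refine (hstep j (by omega)).trans ?_
      have h27 : 0 ≤ 27 * (n : ℝ) * (lam * ε) := by positivity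
      refine (mul_le_mul_of_nonneg_left (ih (by omega)) h27).trans (le_of_eq ?_)
      rw [pow_succ']
      ring
  have hQ0 : Q 0 ≤ ∑ y : I, (mass w {y} : ℝ) := by
    have h1 : Q 0 ≤ ∑ S ∈ Finset.univ.filter (fun S => S ∈ T.A 0), (mass w S : ℝ) := by
      refine Finset.sum_le_sum fun S _ => ?_
      calc (mass w S : ℝ) * qfun ctr lam (K 0 * ε + ε) (pos pt S) ≤ mass w S * 1 :=
            mul_le_mul_of_nonneg_left (hh_qfun_le_one _ _ _ _) (Nat.cast_nonneg _)
        _ = mass w S := mul_one _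
    have h2 := hh_sum_zero T (fun S => (mass w S : ℝ)) (fun _ => True)
    simp only [and_true, Finset.filter_true] at h2
    rw [h2] at h1
    exact h1
  have hlast : ∑ U ∈ Finset.univ.filter (fun U => U ∈ T.A n), (w U : ℝ) ≤
      27 * n * (lam * ε) * Q m := by
    apply hfac m
    have h := (step_ineq (K := K m) (by omega : m < n) T hw ctr hlam hε (hK1 m) (hR m) hle
      (hρ m) (hcard m) le_rfl le_rfl).2 (by rw [← hnm]; exact hrange)
    rw [← hnm] at h
    refine le_trans (le_of_eq ?_) h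
    congr 1
    refine Finset.sum_congr rfl fun S hS => ?_
    rw [Finset.mem_filter] at hS
    rw [mass_top hw (hh_card T n S hS.2)]
  calc ∑ U ∈ Finset.univ.filter (fun U => U ∈ T.A n), (w U : ℝ)
      ≤ 27 * n * (lam * ε) * Q m := hlast
    _ ≤ 27 * n * (lam * ε) * ((27 * n * (lam * ε)) ^ m * Q 0) :=
        mul_le_mul_of_nonneg_left (hind m le_rfl) (by positivity)
    _ = (27 * n * (lam * ε)) ^ n * Q 0 := by
        rw [← mul_assoc, ← pow_succ', ← hnm]
    _ ≤ (27 * n * (lam * ε)) ^ n * ∑ y : I, (mass w {y} : ℝ) :=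
        mul_le_mul_of_nonneg_left hQ0 (by positivity)

open Classical in
/-- (H5) Theorem H. -/
theorem heart {n : ℕ} (hn : 1 ≤ n) {r ε V W : ℝ} (hr : 0 < r) (hε : 0 < ε)
    {pt : I → X} {w : Finset I → ℕ} (hw : IsWeight pt w n ε) (T : Tower pt w (9 * r / 10))
    (hεr : ε ≤ r / (8 * n))
    (hV : ∀ x : X, ∑ y ∈ Finset.univ.filter (fun y : I => dist (pt y) x < 9 * r / 10),
      (mass w {y} : ℝ) ≤ V * (ε ^ n)⁻¹)
    (hW : ∑ y : I, (mass w {y} : ℝ) ≤ W * (ε ^ n)⁻¹) :
    (n.factorial * (4 * n) ^ n / r ^ n * V < 1 →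
      ∀ U ∈ T.A n, w U = 0) ∧
    (1 ≤ n.factorial * (4 * n) ^ n / r ^ n * V →
      (16 * Real.log (n.factorial * (4 * n) ^ n / r ^ n * V) + 64 * n) / r * ε ≤ 1 / 4 →
      ∑ U ∈ Finset.univ.filter (fun U => U ∈ T.A n), (w U : ℝ) ≤
        (27 * n * ((16 * Real.log (n.factorial * (4 * n) ^ n / r ^ n * V) + 64 * n) / r)) ^ n
          * W) := by
  have hV' : ∀ x : X, (ballMass pt w (T.A 0) x (9 * r / 10) : ℝ) ≤ V * (ε ^ n)⁻¹ := by
    intro x
    rw [hh_ballMass_zero]
    exact hV x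
  have hB := hh_local hn hr hε hw T hεr hV'
  set B : ℝ := n.factorial * (4 * n) ^ n / r ^ n * V with hBdef
  refine ⟨?_, ?_⟩
  · intro hlt U hU
    by_contra hne
    have h1 := hB (pos pt U)
    have h2 : w U ≤ ballMass pt w (T.A n) (pos pt U) (r / 4) := by
      unfold ballMass wsum
      rw [← mass_top hw (hh_card T n U hU)]
      refine Finset.single_le_sum (f := fun S => mass w S) (fun _ _ => Nat.zero_le _) ?_
      simp [hU, hr]
    have h3 : (1 : ℝ) ≤ (ballMass pt w (T.A n) (pos pt U) (r / 4) : ℝ) := by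
      exact_mod_cast (Nat.one_le_iff_ne_zero.mpr hne).trans h2
    linarith
  · intro hB1 hle
    set lam : ℝ := (16 * Real.log B + 64 * n) / r with hlam
    have hlog : 0 ≤ Real.log B := Real.log_nonneg hB1
    have hlr : lam * r = 16 * Real.log B + 64 * n := by
      rw [hlam]; field_simp
    obtain ⟨m, hm⟩ : ∃ m, n = m + 1 := ⟨n - 1, by omega⟩
    have key := hh_induct (lam := lam) hm hr hε hw T hB (by linarith) (by
      have h1 : Real.log B ≤ lam * r / 16 := by
        rw [hlr]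
        have : (0 : ℝ) ≤ n := Nat.cast_nonneg n
        linarith
      calc B = Real.exp (Real.log B) := (Real.exp_log (by linarith)).symm
        _ ≤ Real.exp (lam * r / 16) := Real.exp_le_exp.mpr h1) hle
    have hlam0 : 0 ≤ lam := by rw [hlam]; positivity
    refine key.trans ?_
    calc (27 * n * (lam * ε)) ^ n * ∑ y : I, (mass w {y} : ℝ)
        ≤ (27 * n * (lam * ε)) ^ n * (W * (ε ^ n)⁻¹) :=
          mul_le_mul_of_nonneg_left hW (by positivity)
      _ = (27 * n * lam) ^ n * W := by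
          have h1 : 27 * n * (lam * ε) = (27 * n * lam) * ε := by ring
          rw [h1, mul_pow]
          field_simp

end Heart2

end SimpVol
end
end

section

/-!
# MP_fa46d7_gt: Theorem A (A7)
-/

set_option autoImplicit false

open scoped Topology ENNReal NNReal ContDiff Manifold
open MeasureTheory

noncomputable section

namespace SimpVol

/-- the inductive statement -/
def at_S (N k : ℕ) : Prop :=
  ∃ C : ℝ, 0 ≤ C ∧ ∀ X : DSet, X.IsKan → X.TrivBelow k → (∀ j, k ≤ j → X.K3 j) →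
    Nonempty (Contr X N C)

theorem at_step (N k : ℕ) (hk : 2 ≤ k) (h : at_S N (k + 1)) : at_S N k := by
  obtain ⟨C, hC, h⟩ := h
  obtain ⟨k', rfl⟩ : ∃ k', k = k' + 1 := ⟨k - 1, by omega⟩
  refine ⟨C + N + 1 + N + 1, by positivity, fun X hX ht h3 => ?_⟩
  obtain ⟨P⟩ := piData_exists X (k' + 1) hk hX ht (h3 (k' + 1) le_rfl)
  obtain ⟨e1, e2, -, e4⟩ := eil_props X (k' + 1) hX ht
  obtain ⟨c⟩ := h (Eil X (k' + 1)) e1 e2 (fun j hj => e4 j hj (h3 j (by omega)))
  obtain ⟨n1, n2, n3, ⟨n4⟩⟩ := nullSet_props X (k' + 1) hX ht P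
  obtain ⟨P1⟩ := prisms_exist (nullSet P) (k' + 1) n1 n2 n3
  obtain ⟨c1⟩ := contr_of_eilEmb P1 n4 c
  obtain ⟨m1, m2, m3⟩ := killSet_props X k' (by omega) hX ht P
  obtain ⟨m4⟩ := nullSet_emb X k' ht P
  obtain ⟨P2⟩ := prisms_exist (killSet P) k' m1 m2 m3
  obtain ⟨c2⟩ := contr_of_eilEmb P2 m4 c1
  exact contr_of_killSet (by omega) P c2

theorem at_all (N d : ℕ) : ∀ k, k + d = N + 2 → 2 ≤ k → at_S N k := by
  induction d with
  | zero =>
    intro k hk _
    have hk' : k = N + 2 := by omega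
    subst hk'
    exact ⟨1, zero_le_one, fun X _ ht _ => contr_of_triv X N ht⟩
  | succ d ih =>
    intro k hk h2
    exact at_step N k h2 (ih (k + 1) (by omega) (by omega))

theorem at_fill (X : DSet) (h1 : X.Fill1) : (Eil X 0).Fill 1 := by
  intro F i
  obtain ⟨τ, hτ, hτ'⟩ := h1 F.1 (by
    intro p θ hp
    obtain rfl : p = 0 := by omega
    exact F.2 θ) i
  have hv : ∀ θ : Fin (0 + 1) ↪o Fin (2 + 1), X.face θ τ = X.base 0 := by
    intro θ
    obtain ⟨l, hl⟩ : ∃ l : Fin (1 + 2), l ≠ θ 0 := exists_ne _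
    obtain ⟨w, hw⟩ := Fin.exists_succAbove_eq hl.symm
    let η : Fin (0 + 1) ↪o Fin (1 + 1) := OrderEmbedding.ofStrictMono (fun _ => w) (by
      intro a b hab
      have h2 := a.isLt
      have h3 := b.isLt
      have h4 : a.val < b.val := hab
      omega)
    have hθ : θ = η.trans (del l) := by
      ext a
      have ha : a = 0 := Fin.ext (by have := a.isLt; simp only [Fin.val_zero]; omega)
      subst ha
      change (θ 0).val = (l.succAbove w).val
      rw [hw]
    rw [hθ, ← X.face_comp]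
    change X.face η (X.d l τ) = X.base 0
    by_cases hli : l = i
    · rw [hli, hτ]
      exact F.2 η
    · rw [hτ' l hli]
      exact X.face_base η
  refine ⟨⟨τ, hv⟩, Subtype.ext hτ, fun l hl => Subtype.ext (hτ' l hl)⟩

/-- (A7) Theorem A. -/
theorem theoremA (N : ℕ) : ∃ C : ℝ, 0 ≤ C ∧ ∀ X : DSet, X.IsKan → X.Fill 0 → X.Fill1 →
    (∀ j, 2 ≤ j → X.K3 j) → Nonempty (Contr X N C) := by
  obtain ⟨C, hC, h⟩ := at_all N N 2 (by omega) le_rfl
  refine ⟨C + N + 1 + N + 1, by positivity, fun X hX h0 h1 h3 => ?_⟩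
  have ht : X.TrivBelow 0 := fun j hj => absurd hj (Nat.not_lt_zero j)
  obtain ⟨a1, a2, ⟨a3⟩, a4⟩ := eil_props X 0 hX ht
  have hf1 : (Eil X 0).Fill 1 := at_fill X h1
  obtain ⟨b1, b2, ⟨b3⟩, b4⟩ := eil_props (Eil X 0) 1 a1 a2
  obtain ⟨c⟩ := h (Eil (Eil X 0) 1) b1 b2
    (fun j hj => b4 j hj (a4 j (by omega) (h3 j hj)))
  obtain ⟨P1⟩ := prisms_exist (Eil X 0) 1 a1 a2 hf1
  obtain ⟨c1⟩ := contr_of_eilEmb P1 b3 c
  obtain ⟨P0⟩ := prisms_exist X 0 hX ht h0
  exact contr_of_eilEmb P0 a3 c1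

end SimpVol
end
end

section

set_option autoImplicit false

open scoped Topology ENNReal NNReal ContDiff Manifold
open MeasureTheory

noncomputable section

namespace SimpVol

theorem zm_contr (n : ℕ) : ∃ C : ℝ, 0 ≤ C ∧ ∀ (M : Type) [TopologicalSpace M] (x : M),
    Nonempty (Contr (liftSet x) n C) := by
  obtain ⟨C, hC, h⟩ := theoremA n
  exact ⟨C, hC, fun M _ x => h _ (liftSet_kan x) (liftSet_fill0 x)
    (liftSet_fill1 x) (fun j hj => liftSet_K3 x j (by omega))⟩

/-- bound of the mass of a point -/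
theorem zm_mass {M : Type} [MetricSpace M] [Nonempty M] {K D B d : ℕ} {ε : ℝ} (hε : 0 < ε)
    (y : Fin K → M) (w : Finset (Fin K) → ℕ) (hw : IsWeight y w d (5 * ε))
    (hB : ∀ U, w U ≤ B)
    (hD : ∀ i, (Finset.univ.filter (fun j => dist (y i) (y j) ≤ 6 * ε)).card ≤ D)
    (i : Fin K) : mass w {i} ≤ 2 ^ D * B := by
  classical
  have h1 : mass w {i} = ∑ U ∈ (Finset.univ.filter
      (fun j => dist (y i) (y j) ≤ 6 * ε)).powerset.filter (fun U => {i} ⊆ U), w U := by
    unfold mass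
    symm
    apply Finset.sum_subset
    · intro U hU
      simp only [Finset.mem_filter, Finset.mem_univ, true_and] at hU ⊢
      exact hU.2
    · intro U hU hU'
      simp only [Finset.mem_filter, Finset.mem_univ, true_and, Finset.mem_powerset,
        not_and] at hU hU'
      by_contra h0
      have h2 := (hw U h0).2
      apply hU' _ hU
      intro j hj
      simp only [Finset.mem_filter, Finset.mem_univ, true_and]
      have := h2 i (hU (Finset.mem_singleton_self i)) j hj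
      linarith
  rw [h1]
  calc ∑ U ∈ (Finset.univ.filter
      (fun j => dist (y i) (y j) ≤ 6 * ε)).powerset.filter (fun U => {i} ⊆ U), w U
      ≤ ∑ U ∈ (Finset.univ.filter
      (fun j => dist (y i) (y j) ≤ 6 * ε)).powerset.filter (fun U => {i} ⊆ U), B :=
        Finset.sum_le_sum fun U _ => hB U
    _ = ((Finset.univ.filter
      (fun j => dist (y i) (y j) ≤ 6 * ε)).powerset.filter (fun U => {i} ⊆ U)).card * B := by
        rw [Finset.sum_const, smul_eq_mul]
    _ ≤ 2 ^ D * B := by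
        apply Nat.mul_le_mul_right
        refine (Finset.card_filter_le _ _).trans ?_
        rw [Finset.card_powerset]
        exact Nat.pow_le_pow_right (by norm_num) (hD i)

/-- The constant in the final inequality. -/
theorem zm_final {d : ℕ} (hd : 1 ≤ d) {Vc F r S mu V₁ : ℝ} (hVc : 0 ≤ Vc)
    (hF : 0 ≤ F) (hr : 0 < r) (hS : 0 ≤ S) (hmu : 0 ≤ mu)
    (hN : 1 ≤ d.factorial * (4 * d) ^ d / r ^ d * (Vc * S))
    (hV : V₁ ≤ F * ((27 * d * ((16 * Real.log (d.factorial * (4 * d) ^ d / r ^ d * (Vc * S)) +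
      64 * d) / r)) ^ d * (Vc * mu)))
    {C : ℝ} (h1 : Real.exp 1 * (d.factorial * (4 * d) ^ d * Vc) ≤ C)
    (h2 : F * (27 * 64 * d ^ 2) ^ d * Vc ≤ C) :
    V₁ ≤ C / r ^ d * mu * (max 0 (Real.log (C / r ^ d * S))) ^ d := by
  set N := (d.factorial : ℝ) * (4 * d) ^ d / r ^ d * (Vc * S) with hNdef
  have hd' : (1 : ℝ) ≤ d := by exact_mod_cast hd
  have hlogN : 0 ≤ Real.log N := Real.log_nonneg hN
  have hrd : 0 < r ^ d := pow_pos hr d
  have hCS : Real.exp 1 * N ≤ C / r ^ d * S := by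
    have : Real.exp 1 * N = Real.exp 1 * (d.factorial * (4 * d) ^ d * Vc) / r ^ d * S := by
      rw [hNdef]; ring
    rw [this]
    gcongr
  have hlog : 1 + Real.log N ≤ Real.log (C / r ^ d * S) := by
    have h3 : Real.log (Real.exp 1 * N) = 1 + Real.log N := by
      rw [Real.log_mul (Real.exp_pos 1).ne' (by linarith), Real.log_exp]
    rw [← h3]
    exact Real.log_le_log (by positivity) hCS
  have hmax : 1 + Real.log N ≤ max 0 (Real.log (C / r ^ d * S)) := hlog.trans (le_max_right _ _)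
  have h4 : 16 * Real.log N + 64 * d ≤ 64 * d * (1 + Real.log N) := by nlinarith
  have h5 : (27 * d * ((16 * Real.log N + 64 * d) / r)) ^ d ≤
      (27 * 64 * (d : ℝ) ^ 2) ^ d / r ^ d * (1 + Real.log N) ^ d := by
    rw [← div_pow, ← mul_pow]
    apply pow_le_pow_left₀ (by positivity)
    calc 27 * (d : ℝ) * ((16 * Real.log N + 64 * d) / r)
        ≤ 27 * (d : ℝ) * ((64 * d * (1 + Real.log N)) / r) := by gcongr
      _ = 27 * 64 * (d : ℝ) ^ 2 / r * (1 + Real.log N) := by ring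
  calc V₁ ≤ F * ((27 * d * ((16 * Real.log N + 64 * d) / r)) ^ d * (Vc * mu)) := hV
    _ ≤ F * (((27 * 64 * (d : ℝ) ^ 2) ^ d / r ^ d * (1 + Real.log N) ^ d) * (Vc * mu)) := by
        gcongr
    _ = (F * (27 * 64 * (d : ℝ) ^ 2) ^ d * Vc) / r ^ d * mu * (1 + Real.log N) ^ d := by ring
    _ ≤ C / r ^ d * mu * (max 0 (Real.log (C / r ^ d * S))) ^ d := by
        have : 0 ≤ (F * (27 * 64 * (d : ℝ) ^ 2) ^ d * Vc) := by positivity
        have hC : 0 ≤ C := this.trans h2
        gcongr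

theorem zm_fcls {M : Type} [MetricSpace M] {η δ₀ : ℝ} (hη : δ₀ < η) (s : ∀ x y : M, Hm x y)
    (hs : ∀ (x y : M) (γ : Path x y), (∀ t, dist x (γ t) < η) →
      Path.Homotopic.Quotient.mk γ = s x y)
    (m : ℕ) (τ : Sing M (m + 1)) (i : Fin (m + 2)) (h : FineS δ₀ τ) :
    fcls i τ = s (τ (vtx 0)) (sface i τ (vtx 0)) := by
  apply hs
  intro t
  exact lt_of_le_of_lt (h _ _) hη

/-- The main inequality for one space, before the choice of the constants. -/
theorem zm_core (n : ℕ) {L c : ℝ} {D B : ℕ} {c' CA : ℝ} (hL : 1 ≤ L)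
    (hc : 0 < c) (hc' : 0 < c') (hCA : 0 ≤ CA)
    (hCA' : ∀ (M : Type) [TopologicalSpace M] (x : M), Nonempty (Contr (liftSet x) (n + 1) CA))
    (hrad : ∀ (M : Type) [MetricSpace M] [CompactSpace M]
      [Nonempty M] (R : ℝ), LB (n + 1) L R M → ∀ ε : ℝ, 0 < ε → 20 * ε ≤ R →
      ∃ (K : ℕ) (y : Fin K → M) (ρ : Fin K → ℝ),
        (∀ i j, i ≠ j → ε ≤ dist (y i) (y j)) ∧ (∀ v, ∃ i, dist v (y i) < ε) ∧
        (∀ i, ε ≤ ρ i ∧ ρ i < 2 * ε) ∧
        (∀ i, (Finset.univ.filter (fun j => dist (y i) (y j) ≤ 6 * ε)).card ≤ D) ∧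
        (∀ (v : M) (S : Finset (Fin K)), S.card = n + 1 + 1 →
          ∃ i ∈ S, c * ε < |dist v (y i) - ρ i|))
    (hcoef : ∀ (M : Type) [MetricSpace M] [CompactSpace M] (R : ℝ),
      LB (n + 1) L R M → ∀ ε : ℝ, 0 < ε → 100 * L ^ 4 * ε ≤ R →
      ∀ (K : ℕ) (y : Fin K → M) (lab : M → Fin K), (∀ v, dist v (y (lab v)) < 2 * ε) →
      (∀ v : Fin (n + 3) → M, (∀ i j, dist (v i) (v j) ≤ c * ε) →
        ¬ Function.Injective (fun i => lab (v i))) →
      ∀ z : SChain ℤ M (n + 1), IsFundamentalCycle z → ∀ k : ℕ,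
      (∀ τ ∈ (SdI k z).support, FineS (c' * ε) τ) →
      ∀ (U : Finset (Fin K)) (hU : U.card = n + 2),
        |evT (labDet lab (U.orderEmbOfFin hU)) (SdI k z)| ≤ B)
    (M : Type) [MetricSpace M] [CompactSpace M] [Nonempty M]
    [MeasurableSpace M] [BorelSpace M] (R : ℝ) (hLB : LB (n + 1) L R M)
    (hlen : ∀ (x y : M) (s : ℝ), dist x y < s → ∃ γ : Path x y, pathLen γ < ENNReal.ofReal s)
    (z : SChain ℤ M (n + 1)) (hz : IsFundamentalCycle z) (r : ℝ) (hr : 0 < r)
    (hsys : ENNReal.ofReal (2 * r) ≤ systole M) (Vc S mu : ℝ)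
    (hVc : Vc = 5 ^ (n + 1) * (2 ^ D * B) * (L ^ 2) ^ (n + 1))
    (hS : S = (⨆ x : M, Measure.hausdorffMeasure ((n + 1 : ℕ) : ℝ) (Metric.ball x r)).toReal)
    (hmu : mu = (Measure.hausdorffMeasure ((n + 1 : ℕ) : ℝ) (Set.univ : Set M)).toReal) :
    ((n + 1).factorial * (4 * (n + 1 : ℕ)) ^ (n + 1) / r ^ (n + 1) * (Vc * S) < 1 →
      simplicialNorm z ≤ 0) ∧
    (1 ≤ (n + 1).factorial * (4 * (n + 1 : ℕ)) ^ (n + 1) / r ^ (n + 1) * (Vc * S) →
      simplicialNorm z ≤ ((n + 2).factorial * CA ^ (n + 1)) *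
        ((27 * (n + 1 : ℕ) * ((16 * Real.log ((n + 1).factorial * (4 * (n + 1 : ℕ)) ^ (n + 1) /
          r ^ (n + 1) * (Vc * S)) + 64 * (n + 1 : ℕ)) / r)) ^ (n + 1) * (Vc * mu))) := by
  classical
  have hR : 0 < R := hLB.2.1
  set lam := (16 * Real.log ((n + 1).factorial * (4 * (n + 1 : ℕ)) ^ (n + 1) /
          r ^ (n + 1) * (Vc * S)) + 64 * (n + 1 : ℕ)) / r with hlam
  -- short classes
  obtain ⟨s, hs, hs'⟩ := short_exists hlen hr hsys
  obtain ⟨η, hη, hη'⟩ := small_paths hLB hlen hr s hs'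
  -- the scale
  obtain ⟨ε, hε, h20, h100, hεr, hlamε, h150, h5⟩ : ∃ ε : ℝ, 0 < ε ∧ 20 * ε ≤ R ∧
      100 * L ^ 4 * ε ≤ R ∧ 5 * ε ≤ r / (8 * (n + 1 : ℕ)) ∧ lam * (5 * ε) ≤ 1 / 4 ∧
      16 * ε < r / 10 ∧ ε ≤ R := by
    have hL4 : 0 < 100 * L ^ 4 := by positivity
    refine ⟨min (min (R / 20) (R / (100 * L ^ 4))) (min (min (r / (8 * (n + 1 : ℕ)) / 5)
      (1 / (20 * (|lam| + 1)))) (r / 200)), by positivity, ?_, ?_, ?_, ?_, ?_, ?_⟩
    · have := (min_le_left (min (R / 20) (R / (100 * L ^ 4))) (min (min (r / (8 * (n + 1 : ℕ)) / 5)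
        (1 / (20 * (|lam| + 1)))) (r / 200))).trans (min_le_left _ _)
      linarith
    · have := (min_le_left (min (R / 20) (R / (100 * L ^ 4))) (min (min (r / (8 * (n + 1 : ℕ)) / 5)
        (1 / (20 * (|lam| + 1)))) (r / 200))).trans (min_le_right _ _)
      rw [le_div_iff₀ hL4] at this
      linarith
    · have := ((min_le_right (min (R / 20) (R / (100 * L ^ 4)))
        (min (min (r / (8 * (n + 1 : ℕ)) / 5)
        (1 / (20 * (|lam| + 1)))) (r / 200))).trans (min_le_left _ _)).trans (min_le_left _ _)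
      linarith
    · have := ((min_le_right (min (R / 20) (R / (100 * L ^ 4)))
        (min (min (r / (8 * (n + 1 : ℕ)) / 5)
        (1 / (20 * (|lam| + 1)))) (r / 200))).trans (min_le_left _ _)).trans (min_le_right _ _)
      have hpos : 0 < |lam| + 1 := by positivity
      set e := min (min (R / 20) (R / (100 * L ^ 4))) (min (min (r / (8 * (n + 1 : ℕ)) / 5)
        (1 / (20 * (|lam| + 1)))) (r / 200)) with he
      have he0 : 0 ≤ e := by positivity
      rw [le_div_iff₀ (by positivity)] at this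
      have h1 : lam * (5 * e) ≤ |lam| * (5 * e) :=
        mul_le_mul_of_nonneg_right (le_abs_self _) (by positivity)
      nlinarith [abs_nonneg lam]
    · have := ((min_le_right (min (R / 20) (R / (100 * L ^ 4)))
        (min (min (r / (8 * (n + 1 : ℕ)) / 5)
        (1 / (20 * (|lam| + 1)))) (r / 200))).trans (min_le_right _ _))
      linarith
    · have := (min_le_left (min (R / 20) (R / (100 * L ^ 4))) (min (min (r / (8 * (n + 1 : ℕ)) / 5)
        (1 / (20 * (|lam| + 1)))) (r / 200))).trans (min_le_left _ _)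
      linarith
  -- net and labels
  obtain ⟨K, y, ρ, hsep, hcov, hρ, hD, hgen⟩ := hrad M R hLB ε hε h20
  obtain ⟨lab, hlab, hfew⟩ := labels_of_radii (n := n + 1) hε y ρ hcov hρ hgen
  -- fineness
  obtain ⟨δ₀, hδ₀, hδc, hδη, hδε⟩ : ∃ δ₀ : ℝ, 0 < δ₀ ∧ δ₀ ≤ c' * ε ∧ δ₀ < η ∧ δ₀ ≤ ε := by
    refine ⟨min (min (c' * ε) (η / 2)) ε, by positivity, ?_, ?_, ?_⟩
    · exact (min_le_left _ _).trans (min_le_left _ _)
    · exact lt_of_le_of_lt ((min_le_left _ _).trans (min_le_right _ _)) (by linarith)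
    · exact min_le_right _ _
  obtain ⟨k, hk⟩ := SdI_fine z hδ₀
  have hkf := hk k le_rfl
  set Z := SdI k z with hZ
  have hZc : sbd ℤ Z = 0 := by
    have := cocycle_SdI z hz.cycle 0 (by intro ρ'; simp) k
    exact this.1
  -- the weight
  let w : Finset (Fin K) → ℕ := fun U =>
    if h : U.card = n + 2 then (evT (labDet lab (U.orderEmbOfFin h)) Z).natAbs else 0
  have hwB : ∀ U, w U ≤ B := by
    intro U
    by_cases h : U.card = n + 2
    · have := hcoef M R hLB ε hε h100 K y lab hlab hfew z hz k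
        (fun τ hτ p q => (hkf τ hτ p q).trans hδc) U h
      simp only [w, dif_pos h]
      rw [← Int.ofNat_le, Int.natCast_natAbs]
      exact this
    · simp [w, dif_neg h]
  have hww : IsWeight y w (n + 1) (5 * ε) := by
    intro U hU
    have h : U.card = n + 2 := by
      by_contra h
      simp [w, dif_neg h] at hU
    refine ⟨h, ?_⟩
    simp only [w, dif_pos h, ne_eq, Int.natAbs_eq_zero] at hU
    -- some simplex has labels U
    obtain ⟨τ, hτ, hne⟩ : ∃ τ ∈ Z.support, labDet lab (U.orderEmbOfFin h) (verts τ) ≠ 0 := by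
      by_contra hcon
      push Not at hcon
      apply hU
      unfold evT
      rw [Finsupp.sum]
      exact Finset.sum_eq_zero fun τ hτ => by rw [hcon τ hτ, mul_zero]
    obtain ⟨-, π, hπ⟩ := labDet_eq_zero _ _ _ hne
    intro a ha b hb
    obtain ⟨ia, hia⟩ : ∃ i, U.orderEmbOfFin h i = a := by
      have : a ∈ Set.range (U.orderEmbOfFin h) := by
        rw [Finset.range_orderEmbOfFin]; exact ha
      exact this
    obtain ⟨ib, hib⟩ : ∃ i, U.orderEmbOfFin h i = b := by
      have : b ∈ Set.range (U.orderEmbOfFin h) := by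
        rw [Finset.range_orderEmbOfFin]; exact hb
      exact this
    have h1 := hπ (π.symm ia)
    have h2 := hπ (π.symm ib)
    rw [Equiv.apply_symm_apply, hia] at h1
    rw [Equiv.apply_symm_apply, hib] at h2
    have h3 := hlab (verts τ (π.symm ia))
    have h4 := hlab (verts τ (π.symm ib))
    rw [h1] at h3
    rw [h2] at h4
    have h5' := hkf τ hτ (vtx (π.symm ia)) (vtx (π.symm ib))
    have h6 : dist (y a) (y b) ≤ dist (y a) (verts τ (π.symm ia)) +
        dist (verts τ (π.symm ia)) (verts τ (π.symm ib)) + dist (verts τ (π.symm ib)) (y b) :=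
      dist_triangle4 _ _ _ _
    rw [dist_comm (y a) (verts τ (π.symm ia))] at h6
    have h7 : dist (verts τ (π.symm ia)) (verts τ (π.symm ib)) ≤ δ₀ := h5'
    linarith
  have hρ0 : (0 : ℝ) ≤ 9 * r / 10 := by positivity
  obtain ⟨T⟩ := tower_exists y w hρ0
  -- contractions
  let KK : ∀ x : M, Contr (liftSet x) (n + 1) CA := fun x => Classical.choice (hCA' M x)
  -- bound of every cocycle
  have hbound : ∀ c₀ : Bd (Sing M (n + 1)), (∀ τ, |c₀.1 τ| ≤ 1) →
      (∀ ρ' : Sing M (n + 2), ∑ i : Fin (n + 3), (-1 : ℝ) ^ (i : ℕ) * c₀.1 (sface i ρ') = 0) →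
      |z.sum (fun τ a => (a : ℝ) * c₀.1 τ)| ≤ (n + 2).factorial * CA ^ (n + 1) *
        ∑ U ∈ Finset.univ.filter (fun U => U ∈ T.A (n + 1)), (w U : ℝ) := by
    intro c₀ hc₁ hc₀
    have h1 := (cocycle_SdI z hz.cycle c₀ hc₀ k).2
    rw [← h1]
    have h2 := functional_bound (n := n) (e := 0) (r := r) (ρ := 9 * r / 10) (e₀ := 2 * ε) (δ₀ := δ₀)
      hCA KK s hs y w T (by positivity) hδ₀.le (by linarith) lab (fun v => (hlab v).le)
      (fun m τ i hf => zm_fcls hδη s hη' m τ i hf) c₀ hc₀ hc₁ Z hZc hkf (by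
        intro U hU
        simp only [w, dif_pos hU, Int.natCast_natAbs])
    convert h2 using 3
  have hdual : simplicialNorm z ≤ (n + 2).factorial * CA ^ (n + 1) *
        ∑ U ∈ Finset.univ.filter (fun U => U ∈ T.A (n + 1)), (w U : ℝ) :=
    duality z _ (fun c₀ h1 h2 => hbound c₀ h1 h2)
  -- volumes
  have hfin : Measure.hausdorffMeasure ((n + 1 : ℕ) : ℝ) (Set.univ : Set M) < ⊤ :=
    hausdorff_finite hLB
  have hsupfin : (⨆ x : M, Measure.hausdorffMeasure ((n + 1 : ℕ) : ℝ) (Metric.ball x r)) < ⊤ :=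
    lt_of_le_of_lt (iSup_le fun x => measure_mono (Set.subset_univ _)) hfin
  have hL2 : 0 < L ^ 2 := by positivity
  have hpow : 0 < (ε / L ^ 2) ^ (n + 1) := by positivity
  have hcount : ∀ x : M, ((Finset.univ.filter (fun i => dist (y i) x < 9 * r / 10)).card : ℝ) *
      (ε / L ^ 2) ^ (n + 1) ≤ S := by
    intro x
    have h1 := net_count hLB hε h5 y hsep x (9 * r / 10)
    have h2 : Measure.hausdorffMeasure ((n + 1 : ℕ) : ℝ) (Metric.ball x (9 * r / 10 + ε / 2)) ≤
        ⨆ x : M, Measure.hausdorffMeasure ((n + 1 : ℕ) : ℝ) (Metric.ball x r) :=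
      (measure_mono (Metric.ball_subset_ball (by linarith))).trans
        (le_iSup (fun x : M => Measure.hausdorffMeasure ((n + 1 : ℕ) : ℝ) (Metric.ball x r)) x)
    have h3 := h1.trans h2
    rw [hS]
    exact (ENNReal.ofReal_le_iff_le_toReal hsupfin.ne).1 h3
  have hcount2 : (K : ℝ) * (ε / L ^ 2) ^ (n + 1) ≤ mu := by
    obtain ⟨x⟩ := ‹Nonempty M›
    have h1 := net_count hLB hε h5 y hsep x (Metric.diam (Set.univ : Set M) + 1)
    have h2 : (Finset.univ.filter (fun i => dist (y i) x < Metric.diam (Set.univ : Set M) + 1)) =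
        Finset.univ := by
      apply Finset.filter_true_of_mem
      intro i _
      have := Metric.dist_le_diam_of_mem (isCompact_univ (X := M)).isBounded
        (Set.mem_univ (y i)) (Set.mem_univ x)
      linarith
    rw [h2, Finset.card_univ, Fintype.card_fin] at h1
    have h3 := h1.trans (measure_mono (Set.subset_univ _))
    rw [hmu]
    exact (ENNReal.ofReal_le_iff_le_toReal hfin.ne).1 h3
  have hpow5 : (5 * ε) ^ (n + 1) = 5 ^ (n + 1) * (L ^ 2) ^ (n + 1) * (ε / L ^ 2) ^ (n + 1) := by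
    rw [← mul_pow, ← mul_pow]
    congr 1
    field_simp
  have hVcpos : 0 ≤ Vc := by rw [hVc]; positivity
  have hmass : ∀ i : Fin K, (mass w {i} : ℝ) ≤ 2 ^ D * B := by
    intro i
    have := zm_mass (D := D) (B := B) hε y w hww hwB hD i
    exact_mod_cast this
  have hconv : ∀ (N : ℕ) (A : ℝ), (N : ℝ) * (ε / L ^ 2) ^ (n + 1) ≤ A →
      (N : ℝ) * (2 ^ D * B) ≤ Vc * A * ((5 * ε) ^ (n + 1))⁻¹ := by
    intro N A hA
    rw [hpow5, hVc]
    have h5p : (0 : ℝ) < 5 ^ (n + 1) := by positivity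
    have hLp : (0 : ℝ) < (L ^ 2) ^ (n + 1) := by positivity
    rw [le_mul_inv_iff₀ (by positivity)]
    have hBD : (0 : ℝ) ≤ 2 ^ D * B := by positivity
    calc (N : ℝ) * (2 ^ D * B) * (5 ^ (n + 1) * (L ^ 2) ^ (n + 1) * (ε / L ^ 2) ^ (n + 1))
        = (5 ^ (n + 1) * (2 ^ D * B) * (L ^ 2) ^ (n + 1)) * (N * (ε / L ^ 2) ^ (n + 1)) := by ring
      _ ≤ (5 ^ (n + 1) * (2 ^ D * B) * (L ^ 2) ^ (n + 1)) * A := by gcongr
  have hVhyp : ∀ x : M, ∑ i ∈ Finset.univ.filter (fun i => dist (y i) x < 9 * r / 10),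
      (mass w {i} : ℝ) ≤ Vc * S * ((5 * ε) ^ (n + 1))⁻¹ := by
    intro x
    refine le_trans (Finset.sum_le_sum fun i _ => hmass i) ?_
    rw [Finset.sum_const, nsmul_eq_mul]
    exact hconv _ _ (hcount x)
  have hWhyp : ∑ i : Fin K, (mass w {i} : ℝ) ≤ Vc * mu * ((5 * ε) ^ (n + 1))⁻¹ := by
    refine le_trans (Finset.sum_le_sum fun i _ => hmass i) ?_
    rw [Finset.sum_const, nsmul_eq_mul, Finset.card_univ, Fintype.card_fin]
    exact hconv _ _ hcount2
  have hheart := heart (n := n + 1) (by omega) hr (by positivity : 0 < 5 * ε) hww T hεr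
    hVhyp hWhyp
  have hF : (0 : ℝ) ≤ (n + 2).factorial * CA ^ (n + 1) := by positivity
  constructor
  · intro hlt
    have h1 := hheart.1 hlt
    have h2 : ∑ U ∈ Finset.univ.filter (fun U => U ∈ T.A (n + 1)), (w U : ℝ) = 0 := by
      apply Finset.sum_eq_zero
      intro U hU
      rw [Finset.mem_filter] at hU
      rw [h1 U hU.2, Nat.cast_zero]
    rw [h2, mul_zero] at hdual
    exact hdual
  · intro hge
    have h1 := hheart.2 hge hlamε
    exact hdual.trans (mul_le_mul_of_nonneg_left h1 hF)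

/-- (Z2) -/
theorem main_metric (n : ℕ) {L : ℝ} (hL : 1 ≤ L) :
    ∃ C : ℝ, 0 < C ∧ ∀ (M : Type) [MetricSpace M] [CompactSpace M] [Nonempty M]
      [MeasurableSpace M] [BorelSpace M] (R : ℝ), LB (n + 1) L R M →
      (∀ (x y : M) (s : ℝ), dist x y < s → ∃ γ : Path x y, pathLen γ < ENNReal.ofReal s) →
      ∀ z : SChain ℤ M (n + 1), IsFundamentalCycle z → ∀ r : ℝ, 0 < r →
      ENNReal.ofReal (2 * r) ≤ systole M →
      simplicialNorm z ≤ C / r ^ (n + 1) *
        (Measure.hausdorffMeasure ((n + 1 : ℕ) : ℝ) (Set.univ : Set M)).toReal *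
        (max 0 (Real.log (C / r ^ (n + 1) *
          (⨆ x : M, Measure.hausdorffMeasure ((n + 1 : ℕ) : ℝ) (Metric.ball x r)).toReal))) ^
            (n + 1) := by
  obtain ⟨CA, hCA, hCA'⟩ := zm_contr (n + 1)
  obtain ⟨c, D, hc, hc1, hrad⟩ := generic_radii (n := n + 1) (by omega) hL
  obtain ⟨B, c', hc', hcoef⟩ := coeff_bound n hL hc hc1
  set Vc : ℝ := 5 ^ (n + 1) * (2 ^ D * B) * (L ^ 2) ^ (n + 1) with hVc
  have hVc0 : 0 ≤ Vc := by positivity
  set F : ℝ := (n + 2).factorial * CA ^ (n + 1) with hF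
  have hF0 : 0 ≤ F := by positivity
  set C1 : ℝ := Real.exp 1 * ((n + 1).factorial * (4 * (n + 1 : ℕ)) ^ (n + 1) * Vc) with hC1
  set C2 : ℝ := F * (27 * 64 * ((n + 1 : ℕ) : ℝ) ^ 2) ^ (n + 1) * Vc with hC2
  have hC10 : 0 ≤ C1 := by positivity
  have hC20 : 0 ≤ C2 := by positivity
  refine ⟨1 + C1 + C2, by positivity, ?_⟩
  intro M _ _ _ _ _ R hLB hlen z hz r hr hsys
  have hcore := zm_core n hL hc hc' hCA hCA' hrad hcoef M R hLB hlen z hz r hr hsys Vc _ _ hVc
    rfl rfl
  rcases lt_or_ge ((n + 1).factorial * (4 * (n + 1 : ℕ)) ^ (n + 1) / r ^ (n + 1) * (Vc *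
    (⨆ x : M, Measure.hausdorffMeasure ((n + 1 : ℕ) : ℝ) (Metric.ball x r)).toReal)) (1 : ℝ)
    with h | h
  · refine (hcore.1 h).trans ?_
    positivity
  · refine zm_final (by omega) hVc0 hF0 hr ENNReal.toReal_nonneg ENNReal.toReal_nonneg h
      (hcore.2 h) (C := 1 + C1 + C2) ?_ ?_
    · linarith
    · linarith

end SimpVol
end
end

section

set_option autoImplicit false

open scoped Topology ENNReal NNReal ContDiff Manifold
open MeasureTheory Bundle

noncomputable section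

namespace SimpVol

/-- The theorem for closed Riemannian manifolds, with the finiteness of the volumes. -/
theorem riem_main (n : ℕ) : ∃ C : ℝ, 0 < C ∧ ∀ (M : Type) [MetricSpace M] [CompactSpace M]
    [ConnectedSpace M] [MeasurableSpace M] [BorelSpace M]
    [ChartedSpace (EuclideanSpace ℝ (Fin (n + 1))) M] [IsManifold (𝓡 (n + 1)) ∞ M]
    [RiemannianBundle (fun x : M => TangentSpace (𝓡 (n + 1)) x)]
    [IsContMDiffRiemannianBundle (𝓡 (n + 1)) ∞ (EuclideanSpace ℝ (Fin (n + 1)))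
      (fun x : M => TangentSpace (𝓡 (n + 1)) x)]
    [IsRiemannianManifold (𝓡 (n + 1)) M]
    (z : SChain ℤ M (n + 1)), IsFundamentalCycle z → ∀ r : ℝ, 0 < r →
    ENNReal.ofReal (2 * r) ≤ systole M →
    vol (n + 1) (Set.univ : Set M) < ⊤ ∧
    simplicialNorm z ≤ C * r ^ (-((n + 1 : ℕ) : ℤ)) * (vol (n + 1) (Set.univ : Set M)).toReal *
      (max 0 (Real.log (C * r ^ (-((n + 1 : ℕ) : ℤ)) * (volSup (n + 1) M r).toReal))) ^
        (n + 1) := by
  have hL : (1 : ℝ) ≤ 2 * ((n + 1 : ℕ) : ℝ) := by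
    have : (1 : ℝ) ≤ ((n + 1 : ℕ) : ℝ) := by exact_mod_cast Nat.succ_le_succ (Nat.zero_le n)
    linarith
  obtain ⟨C, hC, hmain⟩ := main_metric n hL
  obtain ⟨hk0, hk1⟩ := cube_hausdorff (n + 1)
  set κ : ℝ≥0∞ := Measure.hausdorffMeasure (X := EuclideanSpace ℝ (Fin (n + 1)))
    ((n + 1 : ℕ) : ℝ) {v | ∀ i, v i ∈ Set.Icc (0 : ℝ) 1} with hκ
  have hκr : 0 < κ.toReal := ENNReal.toReal_pos hk0.ne' hk1.ne
  refine ⟨C * κ.toReal, by positivity, ?_⟩
  intro M _ _ _ _ _ _ _ _ _ _ z hz r hr hsys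
  obtain ⟨R, hLB⟩ := LB_of_charts (n := n + 1) (M := M) hL
    (fun p => riem_chart (n := n + 1) (by omega) p)
  have hlen : ∀ (x y : M) (s : ℝ), dist x y < s → ∃ γ : Path x y,
      pathLen γ < ENNReal.ofReal s := fun x y s h => riem_length (n := n + 1) x y s h
  have h := hmain M R hLB hlen z hz r hr hsys
  have hfin : Measure.hausdorffMeasure ((n + 1 : ℕ) : ℝ) (Set.univ : Set M) < ⊤ :=
    hausdorff_finite hLB
  have hvol : ∀ s : Set M, vol (n + 1) s =
      κ⁻¹ * Measure.hausdorffMeasure ((n + 1 : ℕ) : ℝ) s := by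
    intro s
    rw [vol, Measure.smul_apply, smul_eq_mul]
  have hvs : volSup (n + 1) M r =
      κ⁻¹ * ⨆ x : M, Measure.hausdorffMeasure ((n + 1 : ℕ) : ℝ) (Metric.ball x r) := by
    rw [volSup, ENNReal.mul_iSup]
    exact iSup_congr fun x => hvol _
  have h1 : κ.toReal * (vol (n + 1) (Set.univ : Set M)).toReal =
      (Measure.hausdorffMeasure ((n + 1 : ℕ) : ℝ) (Set.univ : Set M)).toReal := by
    rw [hvol, ENNReal.toReal_mul, ENNReal.toReal_inv]
    field_simp
  have h2 : κ.toReal * (volSup (n + 1) M r).toReal =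
      (⨆ x : M, Measure.hausdorffMeasure ((n + 1 : ℕ) : ℝ) (Metric.ball x r)).toReal := by
    rw [hvs, ENNReal.toReal_mul, ENNReal.toReal_inv]
    field_simp
  refine ⟨?_, ?_⟩
  · rw [hvol]
    exact ENNReal.mul_lt_top (ENNReal.inv_lt_top.2 hk0) hfin
  · rw [← h1, ← h2] at h
    have h3 : r ^ (-((n + 1 : ℕ) : ℤ)) = (r ^ (n + 1))⁻¹ := by
      rw [zpow_neg, zpow_natCast]
    rw [h3]
    calc simplicialNorm z ≤ C / r ^ (n + 1) * (κ.toReal * (vol (n + 1) (Set.univ : Set M)).toReal) *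
        (max 0 (Real.log (C / r ^ (n + 1) * (κ.toReal * (volSup (n + 1) M r).toReal)))) ^
          (n + 1) := h
      _ = C * κ.toReal * (r ^ (n + 1))⁻¹ * (vol (n + 1) (Set.univ : Set M)).toReal *
        (max 0 (Real.log (C * κ.toReal * (r ^ (n + 1))⁻¹ * (volSup (n + 1) M r).toReal))) ^
          (n + 1) := by
        have e1 : C / r ^ (n + 1) * (κ.toReal * (volSup (n + 1) M r).toReal) =
          C * κ.toReal * (r ^ (n + 1))⁻¹ * (volSup (n + 1) M r).toReal := by
          rw [div_eq_mul_inv]; ring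
        rw [e1]
        ring

end SimpVol
end
end
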